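import Pool.Agent.Run7.h759.DI.Nil3

/-!
# Dade's invariant conjecture for nilpotent quotients (helper759)
-/

set_option autoImplicit false
set_option linter.unusedSectionVars false

open scoped Classical BigOperators

noncomputable section

namespace Run7.h759.DI

open Group (IsNilpotent)
open Pool.Agent.Y63.NV (IsClassFun centralValue IsBlock numDzBlock)
open Pool.Agent.N20.DI (InvBl kdGe kdU radSum DadeInv)

theorem nn_pos (p : ℕ) (U : Type) [Group U] : nn p U ≠ 0 := by
  unfold nn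
  rw [Finset.prod_ne_zero_iff]
  intro ℓ hℓ
  exact (Nat.prime_of_mem_primeFactors (Finset.mem_filter.1 hℓ).1).ne_zero

theorem dvd_nn {p : ℕ} {U : Type} [Group U] [Finite U] {ℓ : ℕ} (hl : ℓ.Prime) (hlp : ℓ ≠ p)
    (h : NcSyl ℓ U) : ℓ ∣ nn p U := by
  unfold nn
  refine Finset.dvd_prod_of_mem _ (Finset.mem_filter.2 ⟨?_, hlp, h⟩)
  exact Nat.mem_primeFactors.2 ⟨hl, dvd_of_nc hl h, Nat.card_pos.ne'⟩

theorem nn_sub {p : ℕ} {U : Type} [Group U] [Finite U] (V : Subgroup U) : nn p V ∣ nn p U := by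
  unfold nn
  refine Finset.prod_dvd_prod_of_subset _ _ _ ?_
  intro ℓ hℓ
  obtain ⟨h1, h2, h3⟩ := Finset.mem_filter.1 hℓ
  have hl := Nat.prime_of_mem_primeFactors h1
  have h4 := nc_sub V hl h3
  exact Finset.mem_filter.2 ⟨Nat.mem_primeFactors.2 ⟨hl, dvd_of_nc hl h4, Nat.card_pos.ne'⟩, h2, h4⟩

theorem surj_nn {p : ℕ} {U : Type} [Group U] [Finite U] [IsNilpotent U] :
    ∃ f : U →* Cnn (nn p U), Function.Surjective f := by
  refine surj_cnn _ fun ℓ hℓ => ?_
  obtain ⟨h1, h2, h3⟩ := Finset.mem_filter.1 hℓ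
  have hl := Nat.prime_of_mem_primeFactors h1
  exact ⟨hl, hasQ_of_sylow hl (Nat.dvd_of_mem_primeFactors h1) h3⟩

variable {p : ℕ} [hp : Fact p.Prime] {F : Type} [Field F] [IsAlgClosed F] [CharP F p]
  (red : integralClosure ℤ ℂ →+* F)

theorem fin_cnn {n : ℕ} (h : n ≠ 0) : Finite (Cnn n) := by
  have : NeZero n := ⟨h⟩
  have h1 : Finite (ZMod n × ZMod n) := inferInstance
  exact h1

/-- **the sums for a nilpotent group** -/
theorem ok_nil (U : Type) [Group U] [Finite U] [IsNilpotent U] :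
    Ok p red U ↔ Ok p red (Cnn (nn p U)) := by
  obtain ⟨f, hf⟩ := surj_nn (p := p) (U := U)
  constructor
  · exact ok_quot red f hf
  · refine nil_main red _ U _ f hf rfl fun ℓ hl hlp hq => ?_
    exact cnn_dvd (dvd_nn hl hlp (sylow_of_hasQ hl hq))

theorem ok_sub_nil {U : Type} [Group U] [Finite U] [IsNilpotent U] (V : Subgroup U)
    (h : Ok p red U) : Ok p red V := by
  have : IsNilpotent V := inferInstance
  rw [ok_nil red] at h ⊢
  have _f : Finite (Cnn (nn p U)) := fin_cnn (nn_pos p U)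
  obtain ⟨f, hf⟩ := cnn_dvd (nn_sub (p := p) V)
  exact ok_quot red f hf h

/-- from the sums to the conjecture -/
theorem dade_of_ok {U : Type} [Group U] (h : ∀ V : Subgroup U, Ok p red V) (E : Type) [Group E]
    [Finite E] (G : Subgroup E) [hG : G.Normal] (hi : Nonempty (E ⧸ G ≃* U)) :
    DadeInv p red G := by
  obtain ⟨i⟩ := hi
  rw [Pool.Agent.N237.DI.dadeInv_ge]
  intro hO B hB hB0 d W
  have h1 : Ok p red W := ok_iso (W.equivMapOfInjective i.toMonoidHom i.injective).symm
    (h (W.map i.toMonoidHom))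
  have h2 := ok_sub (QuotientGroup.ker_mk' G) (QuotientGroup.mk'_surjective G) h1 hO hB hB0 d
  have h3 : Vb (QuotientGroup.mk' G) G W = W :=
    Subgroup.map_comap_eq_self_of_surjective (QuotientGroup.mk'_surjective G) W
  rw [h3] at h2
  exact h2

/-- the conjecture for all extensions with quotient `U` -/
def DIC (p : ℕ) (red : integralClosure ℤ ℂ →+* F) (U : Type) [Group U] : Prop :=
  ∀ (E : Type) [Group E] [Finite E] (G : Subgroup E) [G.Normal], Nonempty (E ⧸ G ≃* U) →
    DadeInv p red G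

theorem dic_iff (U : Type) [Group U] [Finite U] [IsNilpotent U] : DIC p red U ↔ Ok p red U :=
  ⟨fun h => ok_of_dade red h, fun h E _ _ G _ hi =>
    dade_of_ok red (fun V => ok_sub_nil red V h) E G hi⟩

/-- **Dade's invariant conjecture for nilpotent quotients.** -/
theorem dic_nil (U : Type) [Group U] [Finite U] [IsNilpotent U] :
    DIC p red U ↔ DIC p red (Cnn (nn p U)) := by
  have _f : Finite (Cnn (nn p U)) := fin_cnn (nn_pos p U)
  rw [dic_iff, dic_iff, ok_nil]

end Run7.h759.DI
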