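import Pool.Agent.Run7.h759.DI.TG6
import Pool.Agent.Run7.h759.DI.Nil4

/-!
# Dade's invariant conjecture for one isomorphism type of `E/G` (helper759)
-/

set_option autoImplicit false
set_option linter.unusedSectionVars false

open scoped Classical BigOperators

noncomputable section

namespace Run7.h759.DI

open Pool.Agent.N20.DI (DadeInv)

variable {p : ℕ} [hp : Fact p.Prime] {F : Type} [Field F] [IsAlgClosed F] [CharP F p]
  (red : integralClosure ℤ ℂ →+* F)

/-- the characters fixed by `E/G` decide -/
theorem dade_iff_ok (U : Type) [Group U] [Finite U] :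
    (∀ (E : Type) [Group E] [Finite E] (G : Subgroup E) [G.Normal], Nonempty (E ⧸ G ≃* U) →
      DadeInv p red G) ↔ Ok p red U := by
  constructor
  · exact ok_of_dade red
  · intro h E _ _ G _ hi
    exact dade_of_ok red (fun V => ok_subgroup red V h) E G hi

end Run7.h759.DI
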