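import Pool.Agent.Run7.h759.DI.Rel

/-!
# Clifford theory for a normal subgroup with abelian quotient (helper759)
-/

set_option autoImplicit false
set_option linter.unusedSectionVars false

open scoped Classical BigOperators

noncomputable section

namespace Run7.h759.DI

open Pool.Agent.Helper884.IC (IsIrrChar Irr mem_Irr B B_irr IsClass cardG_ne irr_finite B_sum_left
  B_smul_left B_comm)
open Pool.Agent.Y63.AWC (res mult mult_spec res_eq cj St Orb clifford St_eq card_Orb_mul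
  support_eq deg_eq mult_exists unique_over mem_Orb_of_mult sum_M one_ne mem_St)
open Pool.Agent.Q99.AS (irr_one_ne')

section dual

variable {A : Type} [Group A] [Finite A] (hc : ∀ a b : A, a * b = b * a)
include hc

theorem card_dual' : Nat.card (A →* ℂˣ) = Nat.card A := by
  let _ : CommGroup A := { (inferInstance : Group A) with mul_comm := hc }
  exact CommGroup.card_monoidHom_of_hasEnoughRootsOfUnity A ℂ

theorem fin_dual : Finite (A →* ℂˣ) := by
  apply Nat.finite_of_card_ne_zero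
  rw [card_dual' hc]
  exact Nat.card_pos.ne'

theorem dual_sep {a : A} (ha : a ≠ 1) : ∃ μ : A →* ℂˣ, μ a ≠ 1 := by
  let _ : CommGroup A := { (inferInstance : Group A) with mul_comm := hc }
  exact CommGroup.exists_apply_ne_one_of_hasEnoughRootsOfUnity A ℂ ha

theorem sum_dual [Fintype (A →* ℂˣ)] (a : A) :
    ∑ μ : A →* ℂˣ, ((μ a : ℂˣ) : ℂ) = if a = 1 then (Nat.card A : ℂ) else 0 := by
  by_cases ha : a = 1
  · rw [if_pos ha, ha]
    rw [Finset.sum_congr rfl fun μ _ => by rw [map_one, Units.val_one], Finset.sum_const,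
      Finset.card_univ, nsmul_eq_mul, mul_one, ← Nat.card_eq_fintype_card, card_dual' hc]
  · rw [if_neg ha]
    obtain ⟨ν, hν⟩ := dual_sep hc ha
    let e : (A →* ℂˣ) ≃ (A →* ℂˣ) :=
      { toFun := fun μ => ν * μ
        invFun := fun μ => ν⁻¹ * μ
        left_inv := fun μ => MonoidHom.ext fun x => inv_mul_cancel_left (ν x) (μ x)
        right_inv := fun μ => MonoidHom.ext fun x => mul_inv_cancel_left (ν x) (μ x) }
    have h1 : ∑ μ : A →* ℂˣ, ((μ a : ℂˣ) : ℂ) =
        ((ν a : ℂˣ) : ℂ) * ∑ μ : A →* ℂˣ, ((μ a : ℂˣ) : ℂ) := by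
      rw [Finset.mul_sum]
      refine (Equiv.sum_comp e fun μ : A →* ℂˣ => ((μ a : ℂˣ) : ℂ)).symm.trans ?_
      exact Finset.sum_congr rfl fun μ _ => by
        change (((ν a * μ a : ℂˣ)) : ℂ) = _
        rw [Units.val_mul]
    have h2 : (((ν a : ℂˣ) : ℂ) - 1) * ∑ μ : A →* ℂˣ, ((μ a : ℂˣ) : ℂ) = 0 := by
      rw [sub_mul, one_mul, ← h1, sub_self]
    refine (mul_eq_zero.1 h2).resolve_left fun h3 => hν ?_
    exact Units.ext (sub_eq_zero.1 h3)

end dual

variable {X : Type} [Group X] [Fintype X] {M : Subgroup X} {A : Type} [Group A] [Finite A]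
  {φ : X →* A}

section

variable (hM : ∀ x, x ∈ M ↔ φ x = 1) (hφ : Function.Surjective φ)
include hM hφ

theorem card_X' : Nat.card X = Nat.card A * Nat.card M := by
  have h1 : φ.ker = M := by
    ext x
    rw [MonoidHom.mem_ker, hM]
  rw [← h1, Subgroup.card_eq_card_quotient_mul_card_subgroup φ.ker]
  congr 1
  exact Nat.card_congr (QuotientGroup.quotientKerEquivOfSurjective φ hφ).toEquiv

variable (hc : ∀ a b : A, a * b = b * a)
include hc

theorem sum_tw [hMn : M.Normal] [Fintype (A →* ℂˣ)] (χ χ' : X → ℂ) :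
    ∑ μ : A →* ℂˣ, B (tw φ μ χ) χ' = B (res M χ) (res M χ') := by
  unfold B
  rw [← Finset.mul_sum, Finset.sum_comm]
  have h1 : ∀ g : X, ∑ μ : A →* ℂˣ, tw φ μ χ g * χ' g⁻¹ =
      if g ∈ M then (Nat.card A : ℂ) * (χ g * χ' g⁻¹) else 0 := by
    intro g
    have h2 : ∀ μ : A →* ℂˣ, tw φ μ χ g * χ' g⁻¹ = ((μ (φ g) : ℂˣ) : ℂ) * (χ g * χ' g⁻¹) :=
      fun μ => mul_assoc _ _ _
    rw [Finset.sum_congr rfl fun μ _ => h2 μ, ← Finset.sum_mul, sum_dual hc]
    by_cases h3 : g ∈ M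
    · rw [if_pos h3, if_pos ((hM g).1 h3)]
    · rw [if_neg h3, if_neg (fun h4 => h3 ((hM g).2 h4)), zero_mul]
  rw [Finset.sum_congr rfl fun g _ => h1 g]
  have h2 := sum_M M (fun g => if g ∈ M then (Nat.card A : ℂ) * (χ g * χ' g⁻¹) else 0)
    (fun g hg => if_neg hg)
  rw [h2, card_X' hM hφ]
  have h3 : ∀ m : M, (if (m : X) ∈ M then (Nat.card A : ℂ) * (χ m * χ' (m : X)⁻¹) else 0) =
      (Nat.card A : ℂ) * (res M χ m * res M χ' m⁻¹) := fun m => if_pos m.2
  rw [Finset.sum_congr rfl fun m _ => h3 m, ← Finset.mul_sum]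
  have h4 : (Nat.card M : ℂ) ≠ 0 := cardG_ne
  have h5 : (Nat.card A : ℂ) ≠ 0 := by exact_mod_cast (Nat.card_pos (α := A)).ne'
  push_cast
  field_simp

/-- the number of twists taking `χ` to `χ'` -/
theorem tw_card [hMn : M.Normal] [Fintype (A →* ℂˣ)] {χ χ' : X → ℂ} (h : IsIrrChar χ)
    (h' : IsIrrChar χ') {θ : M → ℂ} (hθ : IsIrrChar θ) {e e' : ℕ}
    (he : res M χ = (e : ℂ) • θ) (he' : res M χ' = (e' : ℂ) • θ) :
    ((Finset.univ : Finset (A →* ℂˣ)).filter fun μ => tw φ μ χ = χ').card = e * e' := by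
  have h1 := sum_tw hM hφ hc χ χ'
  rw [Finset.sum_congr rfl fun μ _ => B_irr (tw_irr φ μ h) h', he, he', B_smul_left, B_comm,
    B_smul_left, B_irr hθ hθ, if_pos rfl, Finset.sum_boole] at h1
  have h2 : ((((Finset.univ : Finset (A →* ℂˣ)).filter fun μ => tw φ μ χ = χ').card : ℕ) : ℂ) =
      ((e * e' : ℕ) : ℂ) := by
    rw [h1]
    push_cast
    ring
  exact_mod_cast h2

omit hM hφ hc in
theorem mul_ne {χ : X → ℂ} (h : IsIrrChar χ) {θ : M → ℂ} {e : ℕ}
    (he : res M χ = (e : ℂ) • θ) : e ≠ 0 := by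
  rintro rfl
  have h1 := congrFun he 1
  have h2 : χ 1 = 0 := by
    rw [Nat.cast_zero, zero_smul] at h1
    exact h1
  exact irr_one_ne' h h2

/-- the characters over an invariant character are twists of each other -/
theorem tw_trans [hMn : M.Normal] {χ χ' : X → ℂ} (h : IsIrrChar χ)
    (h' : IsIrrChar χ') {θ : M → ℂ} (hθ : IsIrrChar θ) {e e' : ℕ}
    (he : res M χ = (e : ℂ) • θ) (he' : res M χ' = (e' : ℂ) • θ) :
    ∃ μ : A →* ℂˣ, tw φ μ χ = χ' := by
  have hfin := fin_dual (A := A) hc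
  have _i : Fintype (A →* ℂˣ) := Fintype.ofFinite _
  have h1 := tw_card hM hφ hc h h' hθ he he'
  have h2 : 0 < ((Finset.univ : Finset (A →* ℂˣ)).filter fun μ => tw φ μ χ = χ').card := by
    rw [h1]
    exact Nat.mul_pos (Nat.pos_of_ne_zero (mul_ne h he)) (Nat.pos_of_ne_zero (mul_ne h' he'))
  obtain ⟨μ, hμ⟩ := Finset.card_pos.1 h2
  exact ⟨μ, (Finset.mem_filter.1 hμ).2⟩

/-- trivial stabilisers -/
theorem ext_of_st [hMn : M.Normal] {χ : X → ℂ} (h : IsIrrChar χ) {θ : M → ℂ} (hθ : IsIrrChar θ)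
    {e : ℕ} (he : res M χ = (e : ℂ) • θ) (hs : ∀ μ : A →* ℂˣ, tw φ μ χ = χ → μ = 1) :
    res M χ = θ := by
  have hfin := fin_dual (A := A) hc
  have _i : Fintype (A →* ℂˣ) := Fintype.ofFinite _
  have h1 := tw_card hM hφ hc h h hθ he he
  have h2 : ((Finset.univ : Finset (A →* ℂˣ)).filter fun μ => tw φ μ χ = χ) = {1} := by
    ext μ
    rw [Finset.mem_filter, Finset.mem_singleton]
    constructor
    · rintro ⟨-, h3⟩
      exact hs μ h3
    · rintro rfl
      exact ⟨Finset.mem_univ _, tw_one φ χ⟩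
  rw [h2, Finset.card_singleton] at h1
  have h3 : e = 1 := Nat.eq_one_of_mul_eq_one_right h1.symm
  rw [he, h3, Nat.cast_one, one_smul]

/-- twists of an extension -/
theorem tw_inj' [hMn : M.Normal] {χ : X → ℂ} (h : IsIrrChar χ) (hr : IsIrrChar (res M χ)) :
    Function.Injective fun μ : A →* ℂˣ => tw φ μ χ := by
  have hfin := fin_dual (A := A) hc
  have _i : Fintype (A →* ℂˣ) := Fintype.ofFinite _
  intro μ ν he
  have h0 : tw φ μ χ = tw φ ν χ := he
  have h1 := tw_card hM hφ hc h (tw_irr φ ν h) hr (e := 1) (e' := 1)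
    (by rw [Nat.cast_one, one_smul]) (by rw [Nat.cast_one, one_smul, res_tw hM])
  rw [mul_one, Finset.card_eq_one] at h1
  obtain ⟨t, ht⟩ := h1
  have h2 : μ ∈ ({t} : Finset (A →* ℂˣ)) := by
    rw [← ht]
    exact Finset.mem_filter.2 ⟨Finset.mem_univ _, h0⟩
  have h3 : ν ∈ ({t} : Finset (A →* ℂˣ)) := by
    rw [← ht]
    exact Finset.mem_filter.2 ⟨Finset.mem_univ _, rfl⟩
  rw [Finset.mem_singleton.1 h2, Finset.mem_singleton.1 h3]

/-- large stabilisers -/
theorem van_of_st [hMn : M.Normal] {χ : X → ℂ} (h : IsIrrChar χ) {θ : M → ℂ} (hθ : IsIrrChar θ)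
    {e : ℕ} (he : res M χ = (e : ℂ) • θ)
    (hs : ∀ a : A, a ≠ 1 → ∃ μ : A →* ℂˣ, tw φ μ χ = χ ∧ μ a ≠ 1) :
    e * e = Nat.card A ∧ ∀ χ' : X → ℂ, IsIrrChar χ' → ∀ e' : ℕ, res M χ' = (e' : ℂ) • θ →
      χ' = χ := by
  have hfin := fin_dual (A := A) hc
  have _i : Fintype (A →* ℂˣ) := Fintype.ofFinite _
  have h0 : ∀ x, φ x ≠ 1 → χ x = 0 := by
    intro x hx
    obtain ⟨μ, h1, h2⟩ := hs _ hx
    by_contra h3
    apply h2
    have h4 := congrFun h1 x
    change ((μ (φ x) : ℂˣ) : ℂ) * χ x = χ x at h4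
    exact Units.ext (mul_right_cancel₀ h3 (h4.trans (one_mul _).symm))
  have h1 : ∀ μ : A →* ℂˣ, tw φ μ χ = χ := by
    intro μ
    funext x
    change ((μ (φ x) : ℂˣ) : ℂ) * χ x = χ x
    by_cases h2 : φ x = 1
    · rw [h2, map_one, Units.val_one, one_mul]
    · rw [h0 x h2, mul_zero]
  refine ⟨?_, fun χ' h' e' he' => ?_⟩
  · have h2 := tw_card hM hφ hc h h hθ he he
    rw [← h2, Finset.filter_true_of_mem fun μ _ => h1 μ, Finset.card_univ,
      ← Nat.card_eq_fintype_card, card_dual' hc]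
  · obtain ⟨μ, hμ⟩ := tw_trans hM hφ hc h h' hθ he he'
    rw [← hμ, h1]

end

section

variable [hMn : M.Normal]

/-- the restriction to `M` of a character over an invariant character -/
theorem res_inv {χ : X → ℂ} (h : IsIrrChar χ) {θ : M → ℂ} (hθ : IsIrrChar θ)
    (hi : ∀ x, cj M x θ = θ) (hm : mult M χ θ ≠ 0) : res M χ = (mult M χ θ : ℂ) • θ := by
  have hsupp := support_eq M h hθ hm
  have horb : Orb M θ = {θ} := by
    ext t
    rw [Finset.mem_singleton]
    constructor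
    · intro ht
      obtain ⟨x, -, rfl⟩ := Finset.mem_image.1 ht
      exact hi x
    · rintro rfl
      exact Finset.mem_image.2 ⟨1, Finset.mem_univ _, Pool.Agent.Y63.AWC.cj_one M _⟩
  rw [res_eq M h]
  rw [Finset.sum_eq_single θ]
  · intro t ht hne
    have : mult M χ t = 0 := by
      by_contra h5
      apply hne
      have h6 : t ∈ ((Irr M).filter fun t => mult M χ t ≠ 0) := Finset.mem_filter.2 ⟨ht, h5⟩
      rw [hsupp, horb] at h6
      exact Finset.mem_singleton.1 h6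
    rw [this, Nat.cast_zero, zero_smul]
  · intro h5
    exact absurd (mem_Irr.2 hθ) h5

theorem mult_of_res {χ : X → ℂ} (h : IsIrrChar χ) {θ : M → ℂ} (hθ : IsIrrChar θ) {e : ℕ}
    (he : res M χ = (e : ℂ) • θ) : mult M χ θ = e := by
  have h1 := mult_spec M h hθ
  rw [he, B_smul_left, B_irr hθ hθ, if_pos rfl, mul_one] at h1
  exact_mod_cast h1.symm

/-- there is a character over every character of `M` -/
theorem over_exists {θ : M → ℂ} (hθ : IsIrrChar θ) : ∃ χ : X → ℂ, IsIrrChar χ ∧ mult M χ θ ≠ 0 := by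
  by_contra h
  push Not at h
  have h1 := St_eq M hθ
  rw [Finset.sum_eq_zero fun χ hχ => by rw [h χ (mem_Irr.1 hχ)]; rfl, mul_zero] at h1
  exact (Nat.card_pos (α := St M θ)).ne' h1

/-- characters with small stabilisers -/
theorem orb_small {θ : M → ℂ} {n : ℕ} (hX : Nat.card X = n * Nat.card M)
    (hst : Nat.card (St M θ) = Nat.card M) : (Orb M θ).card = n := by
  have h1 := card_Orb_mul M θ
  rw [hst, hX] at h1
  exact Nat.eq_of_mul_eq_mul_right Nat.card_pos h1

theorem mult_small {χ : X → ℂ} (h : IsIrrChar χ) {θ : M → ℂ} (hθ : IsIrrChar θ)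
    (hm : mult M χ θ ≠ 0) (hst : Nat.card (St M θ) = Nat.card M) : mult M χ θ = 1 :=
  le_antisymm ((unique_over M hθ hst).2 χ (mem_Irr.2 h)) (Nat.pos_of_ne_zero hm)

/-- **the characters over characters with small stabilisers** -/
theorem count_cs {n : ℕ} (hX : Nat.card X = n * Nat.card M) (Q : (X → ℂ) → Prop)
    (P : (M → ℂ) → Prop)
    (hPQ : ∀ χ θ, IsIrrChar χ → IsIrrChar θ → mult M χ θ ≠ 0 → Nat.card (St M θ) = Nat.card M →
      (Q χ ↔ P θ)) :
    n * ((Irr X).filter fun χ => (∃ θ, IsIrrChar θ ∧ mult M χ θ ≠ 0 ∧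
        Nat.card (St M θ) = Nat.card M) ∧ Q χ).card =
      ((Irr M).filter fun θ => Nat.card (St M θ) = Nat.card M ∧ P θ).card := by
  set S := (Irr X).filter fun χ => (∃ θ, IsIrrChar θ ∧ mult M χ θ ≠ 0 ∧
        Nat.card (St M θ) = Nat.card M) ∧ Q χ with hS
  set T := (Irr M).filter fun θ => Nat.card (St M θ) = Nat.card M ∧ P θ with hT
  have h := Finset.sum_card_bipartiteAbove_eq_sum_card_bipartiteBelow
    (s := S) (t := T) (fun χ θ => mult M χ θ ≠ 0)
  have h1 : ∀ χ ∈ S, (Finset.bipartiteAbove (fun χ θ => mult M χ θ ≠ 0) T χ).card = n := by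
    intro χ hχ
    obtain ⟨hc, ⟨θ, ht, hm, hst⟩, hq⟩ := Finset.mem_filter.mp hχ
    have hc := mem_Irr.mp hc
    rw [← orb_small hX hst, ← support_eq M hc ht hm]
    congr 1
    ext t
    simp only [Finset.bipartiteAbove, Finset.mem_filter, hT]
    constructor
    · rintro ⟨⟨h3, -⟩, h4⟩
      exact ⟨h3, h4⟩
    · rintro ⟨h3, h4⟩
      have h5 := mem_Orb_of_mult M hc ht (mem_Irr.1 h3) hm h4
      have h6 : Nat.card (St M t) = Nat.card M := by
        have e1 := card_Orb_mul M t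
        have e2 := card_Orb_mul M θ
        have e3 : Orb M t = Orb M θ := by
          rw [← support_eq M hc ht hm, ← support_eq M hc (mem_Irr.1 h3) h4]
        rw [e3, ← e2] at e1
        rw [← hst]
        exact Nat.eq_of_mul_eq_mul_left (Finset.card_pos.2 ⟨_, h5⟩) e1
      exact ⟨⟨h3, h6, (hPQ χ t hc (mem_Irr.1 h3) h4 h6).1 hq⟩, h4⟩
  have h2 : ∀ θ ∈ T, (Finset.bipartiteBelow (fun χ θ => mult M χ θ ≠ 0) S θ).card = 1 := by
    intro θ hθ
    obtain ⟨ht, hst, hp⟩ := Finset.mem_filter.mp hθ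
    have ht := mem_Irr.mp ht
    rw [← (unique_over M ht hst).1]
    congr 1
    ext χ
    simp only [Finset.bipartiteBelow, Finset.mem_filter, hS]
    constructor
    · rintro ⟨⟨h5, -⟩, h6⟩
      exact ⟨h5, h6⟩
    · rintro ⟨h5, h6⟩
      exact ⟨⟨h5, ⟨θ, ht, h6, hst⟩, (hPQ χ θ (mem_Irr.1 h5) ht h6 hst).2 hp⟩, h6⟩
  rw [Finset.sum_congr rfl h1, Finset.sum_congr rfl h2, Finset.sum_const, Finset.sum_const,
    smul_eq_mul, smul_eq_mul, mul_one] at h
  rw [← h, mul_comm]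

/-- sums over `M` of a class function times a character over a character with small stabiliser -/
theorem sum_cs {n : ℕ} (hX : Nat.card X = n * Nat.card M) {χ : X → ℂ} (h : IsIrrChar χ)
    {θ : M → ℂ} (hθ : IsIrrChar θ)
    (hm : mult M χ θ ≠ 0) (hst : Nat.card (St M θ) = Nat.card M) (f : X → ℂ)
    (hf : ∀ g x : X, f (g * x * g⁻¹) = f x) :
    ∑ m : M, f m * χ m = n * ∑ m : M, f m * θ m := by
  have h2 : res M χ = ∑ t ∈ Orb M θ, t := by
    rw [res_eq M h, ← support_eq M h hθ hm, Finset.sum_filter]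
    refine Finset.sum_congr rfl fun t ht => ?_
    by_cases h3 : mult M χ t = 0
    · rw [if_neg (not_not.2 h3), h3, Nat.cast_zero, zero_smul]
    · rw [if_pos h3]
      have h4 := mem_Orb_of_mult M h hθ (mem_Irr.1 ht) hm h3
      obtain ⟨x, -, rfl⟩ := Finset.mem_image.1 h4
      rw [Pool.Agent.Y63.AWC.mult_cj M h hθ, mult_small h hθ hm hst, Nat.cast_one, one_smul]
  have h3 : ∀ m : M, χ m = ∑ t ∈ Orb M θ, t m := by
    intro m
    have := congrFun h2 m
    rw [Finset.sum_apply] at this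
    exact this
  have h4 : ∀ t ∈ Orb M θ, ∑ m : M, f m * t m = ∑ m : M, f m * θ m := by
    intro t ht
    obtain ⟨x, -, rfl⟩ := Finset.mem_image.1 ht
    refine Fintype.sum_equiv (MulAut.conjNormal x).toEquiv _ _ fun m => ?_
    change f m * θ (MulAut.conjNormal x m) = f ((MulAut.conjNormal x m : M) : X) *
      θ (MulAut.conjNormal x m)
    rw [MulAut.conjNormal_apply, hf]
  calc ∑ m : M, f m * χ m = ∑ m : M, ∑ t ∈ Orb M θ, f m * t m :=
        Finset.sum_congr rfl fun m _ => by rw [h3, Finset.mul_sum]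
    _ = ∑ t ∈ Orb M θ, ∑ m : M, f m * t m := Finset.sum_comm
    _ = ∑ t ∈ Orb M θ, ∑ m : M, f m * θ m := Finset.sum_congr rfl h4
    _ = _ := by rw [Finset.sum_const, orb_small hX hst, nsmul_eq_mul]

end

end Run7.h759.DI
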