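import Pool.Agent.Run7.h759.DI.Ab

/-!
# Clifford theory for the stabilisers: minimal abelian normal subgroups (helper759)
-/

set_option autoImplicit false
set_option linter.unusedSectionVars false

open scoped Classical BigOperators

noncomputable section

namespace Run7.h759.DI

open Pool.Agent.Y63.NV (IsClassFun centralValue)
open Pool.Agent.Helper884.IC (IsIrrChar Irr mem_Irr B B_irr IsClass cardG_ne irr_finite B_smul_left
  B_comm)
open Pool.Agent.Y63.AWC (res mult mult_spec cj St Orb mem_St irr_comp mult_exists deg_eq)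
open Pool.Agent.R674.Tw (Fixes alp alp_coe fixes_iff)
open Pool.Agent.Q99.AS (Dft Dft_congr Dft_unique Dft_exists irr_one_ne')
open Pool.Agent.Q90.WR (card_transport card_filter_eq irr_comp_iff)

/-- `A` is a minimal normal subgroup -/
def Mn {U : Type} [Group U] (A : Subgroup U) : Prop :=
  A ≠ ⊥ ∧ ∀ B : Subgroup U, B.Normal → B ≤ A → B = ⊥ ∨ B = A

section

variable {E U : Type} [Group E] [Group U] {q : E →* U} {A : Subgroup U}
  {G : Subgroup E} {F : Type} [Field F]

/-- the restriction of `χ` is a multiple of `θ` -/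
def Ov (hG : G ≤ A.comap q) (S : Subgroup E) (χ : ↥(A.comap q ⊓ S) → ℂ)
    (θ : ↥(G ⊓ S) → ℂ) : Prop :=
  ∃ e : ℕ, rs (inf_le_inf_right S hG) χ = (e : ℂ) • θ

/-- the number of the invariant irreducible characters of `N ∩ S` over invariant characters of
`G ∩ S` -/
def gi (p : ℕ) (red : integralClosure ℤ ℂ →+* F) [A.Normal] (hG : G ≤ A.comap q) (z : E → F)
    (c₀ : F) (D : ℕ) (S : Subgroup E) : ℤ :=
  (Nat.card {χ : ↥(A.comap q ⊓ S) → ℂ // IsIrrChar χ ∧ (Dft p D χ ∧
    Inq ((QuotientGroup.mk' A).comp q) ⊤ S χ ∧ centralValue red χ (fun x => z x) = c₀ ∧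
    ∃ θ : ↥(G ⊓ S) → ℂ, IsIrrChar θ ∧ Inq q ⊤ S θ ∧ Ov hG S χ θ)} : ℤ)

/-- all of `S` fixes the invariant characters -/
theorem fix_all (hq : q.ker = G) {S : Subgroup E} {θ : ↥(G ⊓ S) → ℂ} (hθ : IsClass θ)
    (h : Inq q ⊤ S θ) {s : E} (hs : s ∈ S) : Fixes s θ := by
  obtain ⟨e, he, h1, h2⟩ := h (q s) (Subgroup.mem_top _)
  have hg : e⁻¹ * s ∈ G ⊓ S := by
    refine Subgroup.mem_inf.2 ⟨?_, S.mul_mem (S.inv_mem he) hs⟩
    rw [mem_G hq, map_mul, map_inv, h1, inv_mul_cancel]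
  have := fixes_mul (fun n hn => (G_conj hq (Subgroup.mem_inf.1 hg).2 n).1 hn) h2
    (fixes_inner hθ hg)
  rwa [mul_inv_cancel_left] at this

theorem phi_of_inq' {S K : Subgroup E} {θ : K → ℂ} (h : Inq q ⊤ S θ) :
    Function.Surjective (phi q A S) := by
  rintro ⟨a, ha⟩
  obtain ⟨e, he, h1, -⟩ := h a (Subgroup.mem_top _)
  exact ⟨⟨e, Subgroup.mem_inf.2 ⟨by rw [Subgroup.mem_comap, h1]; exact ha, he⟩⟩,
    Subtype.ext h1⟩

end

section

variable {E U : Type} [Group E] [Finite E] [Group U] {q : E →* U} {A : Subgroup U}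
  [hAn : A.Normal] {G : Subgroup E} {S : Subgroup E}
  {F : Type} [Field F] (red : integralClosure ℤ ℂ →+* F)

theorem card_K (hq : q.ker = G) [Finite A] (hφ : Function.Surjective (phi q A S)) :
    Nat.card ↥(A.comap q ⊓ S) = Nat.card A * Nat.card ↥(G ⊓ S) := by
  have _i : Fintype ↥(A.comap q ⊓ S) := Fintype.ofFinite _
  have h := card_X' (M := MM q A G S) (mem_M A hq S) hφ
  rw [h, Nat.card_congr (eM (A := A) (S := S) hq).toEquiv]

theorem card_K' (hq : q.ker = G) [Finite A] (hφ : Function.Surjective (phi q A S)) (p : ℕ) :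
    (Nat.card ↥(A.comap q ⊓ S)).factorization p =
      (Nat.card ↥(G ⊓ S)).factorization p + (Nat.card A).factorization p := by
  rw [card_K hq hφ, Nat.factorization_mul Nat.card_pos.ne' Nat.card_pos.ne', Finsupp.add_apply,
    add_comm]

/-- inertial groups of constituents -/
theorem inq_down (hq : q.ker = G) [Fintype ↥(A.comap q ⊓ S)] [(MM q A G S).Normal]
    {χ : ↥(A.comap q ⊓ S) → ℂ} (hχ : IsIrrChar χ) {θ : ↥(G ⊓ S) → ℂ} (hθ : IsIrrChar θ)
    (hm : mult (MM q A G S) χ (fun m => θ (eM hq m)) ≠ 0)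
    (h : Inq ((QuotientGroup.mk' A).comp q) ⊤ S χ) :
    Inq ((QuotientGroup.mk' A).comp q) ⊤ S θ := by
  have hθ' := irr_comp (eM (A := A) hq) hθ
  intro u hu
  obtain ⟨e, he, h1, h2⟩ := h u hu
  obtain ⟨x, hx⟩ := fix_down (al' he) (al'_M (A := A) hq he) hχ hθ' hm ((fixes_al' he χ).1 h2)
  have hxS := (Subgroup.mem_inf.1 x.2).2
  have hxA : q x ∈ A := (Subgroup.mem_inf.1 x.2).1
  refine ⟨e * (x : E)⁻¹, S.mul_mem he (S.inv_mem hxS), ?_, ?_⟩
  · rw [map_mul, h1, map_inv]
    have : ((QuotientGroup.mk' A).comp q) x = 1 := (QuotientGroup.eq_one_iff _).2 hxA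
    rw [this, inv_one, mul_one]
  · intro n n' hn
    have hy : (x : E)⁻¹ * n * x ∈ G ⊓ S := by
      have := (G_conj hq (S.inv_mem hxS) (n : E)).1 n.2
      rwa [inv_inv] at this
    have h3 := hx ((eM (A := A) hq).symm ⟨_, hy⟩)
    have h4 : eM hq (rsAut (al' he) (al'_M (A := A) hq he) ((eM (A := A) hq).symm ⟨_, hy⟩)) = n' := by
      apply Subtype.ext
      change e * ((x : E)⁻¹ * n * x) * e⁻¹ = n'
      rw [hn]
      group
    have h5 : eM (A := A) hq (MulAut.conjNormal x ((eM (A := A) hq).symm ⟨_, hy⟩)) = n := by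
      apply Subtype.ext
      rw [eM_coe, MulAut.conjNormal_apply]
      change (x : E) * ((x : E)⁻¹ * n * x) * (x : E)⁻¹ = n
      group
    change θ (eM hq _) = θ (eM hq (MulAut.conjNormal x ((eM (A := A) hq).symm ⟨_, hy⟩))) at h3
    rw [h4, h5] at h3
    exact h3

/-- conjugation on `G ∩ S` with the elements of `N ∩ S` -/
theorem cj_fix (hq : q.ker = G) [Fintype ↥(A.comap q ⊓ S)] [(MM q A G S).Normal]
    (θ : ↥(G ⊓ S) → ℂ) (x : ↥(A.comap q ⊓ S)) :
    cj (MM q A G S) x (fun m => θ (eM hq m)) = (fun m => θ (eM hq m)) ↔ Fixes (x : E) θ := by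
  rw [fixes_M (A := A) hq (Subgroup.mem_inf.1 x.2).2]
  have hk : ∀ m : MM q A G S, rsAut (al' (Subgroup.mem_inf.1 x.2).2)
      (al'_M (A := A) hq (Subgroup.mem_inf.1 x.2).2) m = MulAut.conjNormal x m := by
    intro m
    apply Subtype.ext
    rw [MulAut.conjNormal_apply]
    rfl
  constructor
  · intro h m
    rw [hk]
    exact congrFun h m
  · intro h
    funext m
    rw [← h m, hk]
    rfl

theorem ov_res (hq : q.ker = G) {χ : ↥(A.comap q ⊓ S) → ℂ} {θ : ↥(G ⊓ S) → ℂ} {e : ℕ} :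
    rs (HK hq) χ = (e : ℂ) • θ ↔ res (MM q A G S) χ = (e : ℂ) • (fun m => θ (eM hq m)) := by
  rw [res_eM hq]
  constructor
  · intro h
    funext m
    exact congrFun h (eM hq m)
  · intro h
    funext y
    have h1 := congrFun h ((eM (A := A) hq).symm y)
    change rs (HK hq) χ (eM hq ((eM (A := A) hq).symm y)) =
      (e : ℂ) * θ (eM hq ((eM (A := A) hq).symm y)) at h1
    rwa [MulEquiv.apply_symm_apply] at h1

theorem eM_back (hq : q.ker = G) (θ : MM q A G S → ℂ) :
    (fun m => (fun x => θ ((eM (A := A) (S := S) hq).symm x)) (eM hq m)) = θ := by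
  funext m
  change θ ((eM hq).symm (eM hq m)) = θ m
  rw [MulEquiv.symm_apply_apply]

/-- an intersection with `A` is trivial or `A` -/
theorem mn_cases (hmin : Mn A) (hc : ∀ a b : A, a * b = b * a) {W : Subgroup U}
    (h : W ⊔ A = ⊤) : W ⊓ A = ⊥ ∨ A ≤ W := by
  have hn : (W ⊓ A).Normal := by
    refine ⟨fun x hx g => ?_⟩
    obtain ⟨hx1, hx2⟩ := hx
    have hg : g ∈ W ⊔ A := by
      rw [h]
      trivial
    rw [Subgroup.mem_sup_of_normal_right] at hg
    obtain ⟨w, hw, a, ha, rfl⟩ := hg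
    have h1 : a * x = x * a := congrArg Subtype.val (hc ⟨a, ha⟩ ⟨x, hx2⟩)
    have h2 : w * a * x * (w * a)⁻¹ = w * x * w⁻¹ := by
      rw [mul_assoc w a x, h1]
      group
    rw [h2]
    exact ⟨W.mul_mem (W.mul_mem hw hx1) (W.inv_mem hw), hAn.conj_mem _ hx2 _⟩
  rcases hmin.2 _ hn inf_le_right with h1 | h1
  · exact Or.inl h1
  · right
    rw [← h1]
    exact inf_le_left

/-- the inertial groups -/
theorem wq_top (hmin : Mn A) (hc : ∀ a b : A, a * b = b * a) {K : Subgroup E}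
    (hK : ∀ e ∈ S, ∀ n, n ∈ K ↔ e * n * e⁻¹ ∈ K) {θ : K → ℂ}
    (h : Inq ((QuotientGroup.mk' A).comp q) ⊤ S θ) :
    Inq q ⊤ S θ ∨ ∀ e ∈ S, Fixes e θ → q e ∈ A → q e = 1 := by
  have h1 : Wq q S hK θ ⊔ A = ⊤ := by
    rw [Subgroup.eq_top_iff']
    intro u
    obtain ⟨e, he, h1, h2⟩ := h (u : U ⧸ A) (Subgroup.mem_top _)
    have h3 : (q e)⁻¹ * u ∈ A := QuotientGroup.eq.1 h1
    have h4 : u = q e * ((q e)⁻¹ * u) := by group
    rw [h4]
    exact Subgroup.mul_mem_sup ⟨e, ⟨he, h2⟩, rfl⟩ h3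
  rcases mn_cases hmin hc h1 with h2 | h2
  · right
    intro e he he' ha
    have : q e ∈ Wq q S hK θ ⊓ A := ⟨⟨e, ⟨he, he'⟩, rfl⟩, ha⟩
    rw [h2] at this
    exact Subgroup.mem_bot.1 this
  · left
    rw [inq_iff (hK := hK), ← h1]
    exact sup_le le_rfl h2

/-- the central characters -/
theorem cv_ov (hq : q.ker = G) {z : E → F} (hz : ∀ g x, z (g * x * g⁻¹) = z x)
    (hz0 : ∀ x, x ∉ G → z x = 0) {χ : ↥(A.comap q ⊓ S) → ℂ}
    (hχ : IsIrrChar χ) {θ : ↥(G ⊓ S) → ℂ} (hθ : IsIrrChar θ) (h : Ov (G_le A hq) S χ θ) :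
    centralValue red χ (fun x => z x) = centralValue red θ (fun x => z x) := by
  have _i : Fintype ↥(A.comap q ⊓ S) := Fintype.ofFinite _
  obtain ⟨e, he⟩ := h
  refine cv_over (A := A) red hq hz hz0 hχ hθ e ?_ fun f _ => ?_
  · exact congrFun he 1
  · rw [Finset.mul_sum]
    refine Finset.sum_congr rfl fun m _ => ?_
    have h1 := congrFun ((ov_res (A := A) hq).1 he) m
    change χ m = (e : ℂ) * θ (eM hq m) at h1
    rw [h1]
    ring

/-- **the main count** -/
theorem mi' (hq : q.ker = G) (hmin : Mn A) (hc : ∀ a b : A, a * b = b * a) [Finite A]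
    {p : ℕ} {z : E → F}
    (hz : ∀ g x, z (g * x * g⁻¹) = z x) (hz0 : ∀ x, x ∉ G → z x = 0) (c₀ : F) (D : ℕ)
    (S : Subgroup E) :
    (Nat.card ↥(A.comap q ⊓ S) : ℤ) *
        xc p red (A.comap q) ((QuotientGroup.mk' A).comp q) ⊤ z c₀ D S =
      (Nat.card ↥(A.comap q ⊓ S) : ℤ) * gi p red (G_le A hq) z c₀ D S +
        (Nat.card ↥(G ⊓ S) : ℤ) * pk p red q A z c₀ D S (G ⊓ S) := by
  by_cases hin : ∀ u : U, ∃ e ∈ S, (q e)⁻¹ * u ∈ A
  swap
  · have h0 : ∀ (K : Subgroup E) (χ : K → ℂ),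
        ¬ Inq ((QuotientGroup.mk' A).comp q) ⊤ S χ := by
      intro K χ h
      apply hin
      intro u
      obtain ⟨e, he, h1, -⟩ := h (u : U ⧸ A) (Subgroup.mem_top _)
      exact ⟨e, he, QuotientGroup.eq.1 h1⟩
    have e1 : xc p red (A.comap q) ((QuotientGroup.mk' A).comp q) ⊤ z c₀ D S = 0 := by
      unfold xc xk
      rw [Nat.cast_eq_zero]
      have : IsEmpty {χ : ↥(A.comap q ⊓ S) → ℂ // IsIrrChar χ ∧ (Dft p D χ ∧
          Inq ((QuotientGroup.mk' A).comp q) ⊤ S χ ∧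
          centralValue red χ (fun x => z x) = c₀)} := ⟨fun χ => h0 _ _ χ.2.2.2.1⟩
      exact Nat.card_of_isEmpty
    have e2 : gi p red (G_le A hq) z c₀ D S = 0 := by
      unfold gi
      rw [Nat.cast_eq_zero]
      have : IsEmpty {χ : ↥(A.comap q ⊓ S) → ℂ // IsIrrChar χ ∧ (Dft p D χ ∧
          Inq ((QuotientGroup.mk' A).comp q) ⊤ S χ ∧ centralValue red χ (fun x => z x) = c₀ ∧
          ∃ θ : ↥(G ⊓ S) → ℂ, IsIrrChar θ ∧ Inq q ⊤ S θ ∧ Ov (G_le A hq) S χ θ)} :=
        ⟨fun χ => h0 _ _ χ.2.2.2.1⟩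
      exact Nat.card_of_isEmpty
    have e3 : pk p red q A z c₀ D S (G ⊓ S) = 0 := by
      unfold pk
      rw [Nat.cast_eq_zero]
      have : IsEmpty {χ : ↥(G ⊓ S) → ℂ // IsIrrChar χ ∧ (Dft p D χ ∧ Pc q A S χ ∧
          centralValue red χ (fun x => z x) = c₀)} := ⟨fun χ => h0 _ _ χ.2.2.2.1.1⟩
      exact Nat.card_of_isEmpty
    rw [e1, e2, e3]
    ring
  have hW : S.map q ⊔ A = ⊤ := by
    rw [Subgroup.eq_top_iff']
    intro u
    obtain ⟨e, he, h1⟩ := hin u
    have h4 : u = q e * ((q e)⁻¹ * u) := by group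
    rw [h4]
    exact Subgroup.mul_mem_sup ⟨e, he, rfl⟩ h1
  have hA1 : ∃ a ∈ A, a ≠ 1 := by
    by_contra h
    push Not at h
    exact hmin.1 ((Subgroup.eq_bot_iff_forall _).2 h)
  obtain ⟨a₁, ha₁, ha₁'⟩ := hA1
  rcases mn_cases hmin hc hW with hM | hM
  · -- `N ∩ S = G ∩ S`
    have h1 : ∀ s ∈ S, q s ∈ A → q s = 1 := by
      intro s hs ha
      have : q s ∈ S.map q ⊓ A := ⟨⟨s, hs, rfl⟩, ha⟩
      rw [hM] at this
      exact Subgroup.mem_bot.1 this
    have hNG : A.comap q ⊓ S = G ⊓ S := by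
      ext x
      rw [Subgroup.mem_inf, Subgroup.mem_inf, mem_G hq, Subgroup.mem_comap]
      constructor
      · rintro ⟨a, b⟩
        exact ⟨h1 x b a, b⟩
      · rintro ⟨a, b⟩
        refine ⟨?_, b⟩
        rw [a]
        exact one_mem _
    have e2 : gi p red (G_le A hq) z c₀ D S = 0 := by
      unfold gi
      rw [Nat.cast_eq_zero]
      have : IsEmpty {χ : ↥(A.comap q ⊓ S) → ℂ // IsIrrChar χ ∧ (Dft p D χ ∧
          Inq ((QuotientGroup.mk' A).comp q) ⊤ S χ ∧ centralValue red χ (fun x => z x) = c₀ ∧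
          ∃ θ : ↥(G ⊓ S) → ℂ, IsIrrChar θ ∧ Inq q ⊤ S θ ∧ Ov (G_le A hq) S χ θ)} := by
        refine ⟨?_⟩
        rintro ⟨χ, -, -, -, -, θ, -, h2, -⟩
        obtain ⟨e, he, h3, -⟩ := h2 a₁ (Subgroup.mem_top _)
        apply ha₁'
        rw [← h3]
        exact h1 e he (by rw [h3]; exact ha₁)
      exact Nat.card_of_isEmpty
    rw [e2, mul_zero, zero_add]
    unfold xc
    rw [hNG]
    congr 1
    unfold xk pk
    congr 1
    refine Nat.card_congr (Equiv.subtypeEquivRight fun χ => ?_)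
    refine and_congr_right fun _ => and_congr_right fun _ => and_congr_left fun _ => ?_
    exact ⟨fun h => ⟨h, fun e he _ ha => h1 e he ha⟩, fun h => h.1⟩
  · have hφ : Function.Surjective (phi q A S) := by
      rintro ⟨a, ha⟩
      obtain ⟨e, he, h1⟩ := hM ha
      exact ⟨⟨e, Subgroup.mem_inf.2 ⟨by rw [Subgroup.mem_comap, h1]; exact ha, he⟩⟩,
        Subtype.ext h1⟩
    have _i : Fintype ↥(A.comap q ⊓ S) := Fintype.ofFinite _
    have hMn : (MM q A G S).Normal := M_normal A hq S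
    have hMm := mem_M A hq S
    have hX : Nat.card ↥(A.comap q ⊓ S) = Nat.card A * Nat.card (MM q A G S) :=
      card_X' (M := MM q A G S) hMm hφ
    set Q : (↥(A.comap q ⊓ S) → ℂ) → Prop := fun χ => Dft p D χ ∧
      Inq ((QuotientGroup.mk' A).comp q) ⊤ S χ ∧ centralValue red χ (fun x => z x) = c₀ with hQ
    -- the dichotomy
    have hdich : ∀ χ : ↥(A.comap q ⊓ S) → ℂ, IsIrrChar χ →
        Inq ((QuotientGroup.mk' A).comp q) ⊤ S χ →
        ((∃ θ, IsIrrChar θ ∧ mult (MM q A G S) χ θ ≠ 0 ∧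
          Nat.card (St (MM q A G S) θ) = Nat.card (MM q A G S)) ↔
        ¬ ∃ θ : ↥(G ⊓ S) → ℂ, IsIrrChar θ ∧ Inq q ⊤ S θ ∧ Ov (G_le A hq) S χ θ) := by
      intro χ hχ hi
      constructor
      · rintro ⟨θ', h1, h2, h3⟩ ⟨θ, h4, h5, e, h6⟩
        have h7 := (ov_res (A := A) hq).1 h6
        have h8 : θ' = fun m => θ (eM hq m) := by
          by_contra hne
          apply h2
          have h9 := mult_spec (MM q A G S) hχ h1
          rw [h7, B_smul_left, B_irr (irr_comp (eM hq) h4) h1, if_neg (Ne.symm hne),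
            mul_zero] at h9
          exact_mod_cast h9.symm
        rw [h8, st_small (A := A) hq h4] at h3
        obtain ⟨e, he, h10, h11⟩ := h5 a₁ (Subgroup.mem_top _)
        apply ha₁'
        rw [← h10]
        exact h3 e he h11 (by rw [h10]; exact ha₁)
      · intro hne
        obtain ⟨θ', h1, h2⟩ := mult_exists (MM q A G S) hχ
        have hθ' : IsIrrChar (fun x => θ' ((eM (A := A) (S := S) hq).symm x)) :=
          irr_comp (eM hq).symm h1
        have h5 := eM_back (A := A) (S := S) hq θ'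
        have h6 := inq_down (A := A) hq hχ hθ' (by rw [h5]; exact h2) hi
        rcases wq_top hmin hc (HKc (U := U) hq S) h6 with h7 | h7
        · exfalso
          apply hne
          refine ⟨_, hθ', h7, mult (MM q A G S) χ θ', (ov_res (A := A) hq).2 ?_⟩
          rw [h5]
          refine res_inv hχ h1 (fun x => ?_) h2
          have h8 := (cj_fix (A := A) hq (fun x => θ' ((eM (A := A) (S := S) hq).symm x)) x).2
            (fix_all hq (isClass_of hθ') h7 (Subgroup.mem_inf.1 x.2).2)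
          rwa [h5] at h8
        · refine ⟨θ', h1, h2, ?_⟩
          have h8 := (st_small (A := A) hq hθ').2 h7
          rwa [h5] at h8
    -- the two kinds of characters
    have hx : xc p red (A.comap q) ((QuotientGroup.mk' A).comp q) ⊤ z c₀ D S =
        gi p red (G_le A hq) z c₀ D S +
        (((Irr ↥(A.comap q ⊓ S)).filter fun χ => (∃ θ, IsIrrChar θ ∧
          mult (MM q A G S) χ θ ≠ 0 ∧
          Nat.card (St (MM q A G S) θ) = Nat.card (MM q A G S)) ∧ Q χ).card : ℤ) := by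
      have a1 : Nat.card {χ : ↥(A.comap q ⊓ S) → ℂ // IsIrrChar χ ∧ Q χ} =
          ((Irr ↥(A.comap q ⊓ S)).filter Q).card := card_filter_eq _
      have a2 : Nat.card {χ : ↥(A.comap q ⊓ S) → ℂ // IsIrrChar χ ∧ (Dft p D χ ∧
          Inq ((QuotientGroup.mk' A).comp q) ⊤ S χ ∧ centralValue red χ (fun x => z x) = c₀ ∧
          ∃ θ : ↥(G ⊓ S) → ℂ, IsIrrChar θ ∧ Inq q ⊤ S θ ∧ Ov (G_le A hq) S χ θ)} =
          (((Irr ↥(A.comap q ⊓ S)).filter Q).filter fun χ =>
          ∃ θ : ↥(G ⊓ S) → ℂ, IsIrrChar θ ∧ Inq q ⊤ S θ ∧ Ov (G_le A hq) S χ θ).card := by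
        rw [card_filter_eq]
        congr 1
        ext χ
        simp only [Finset.mem_filter, hQ]
        tauto
      have a3 : ((Irr ↥(A.comap q ⊓ S)).filter fun χ => (∃ θ, IsIrrChar θ ∧
          mult (MM q A G S) χ θ ≠ 0 ∧
          Nat.card (St (MM q A G S) θ) = Nat.card (MM q A G S)) ∧ Q χ).card =
          (((Irr ↥(A.comap q ⊓ S)).filter Q).filter fun χ =>
          ¬ ∃ θ : ↥(G ⊓ S) → ℂ, IsIrrChar θ ∧ Inq q ⊤ S θ ∧ Ov (G_le A hq) S χ θ).card := by
        congr 1
        ext χ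
        simp only [Finset.mem_filter, hQ]
        constructor
        · rintro ⟨a, e, b, c, d⟩
          exact ⟨⟨a, b, c, d⟩, (hdich χ (mem_Irr.1 a) c).1 e⟩
        · rintro ⟨⟨a, b, c, d⟩, e⟩
          exact ⟨a, (hdich χ (mem_Irr.1 a) c).2 e, b, c, d⟩
      have a4 := Finset.card_filter_add_card_filter_not (s := (Irr ↥(A.comap q ⊓ S)).filter Q)
        (fun χ => ∃ θ : ↥(G ⊓ S) → ℂ, IsIrrChar θ ∧ Inq q ⊤ S θ ∧ Ov (G_le A hq) S χ θ)
      change ((Nat.card {χ : ↥(A.comap q ⊓ S) → ℂ // IsIrrChar χ ∧ Q χ} : ℕ) : ℤ) = _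
      unfold gi
      rw [a1, a2, a3, ← a4]
      push_cast
      rfl
    have hz' : Nat.card A * ((Irr ↥(A.comap q ⊓ S)).filter fun χ => (∃ θ, IsIrrChar θ ∧
          mult (MM q A G S) χ θ ≠ 0 ∧
          Nat.card (St (MM q A G S) θ) = Nat.card (MM q A G S)) ∧ Q χ).card =
        Nat.card {χ : ↥(G ⊓ S) → ℂ // IsIrrChar χ ∧ (Dft p D χ ∧ Pc q A S χ ∧
          centralValue red χ (fun x => z x) = c₀)} := by
      have e1 := card_transport (eM (A := A) (S := S) hq).symm (fun χ : ↥(G ⊓ S) → ℂ =>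
        Dft p D χ ∧ Pc q A S χ ∧ centralValue red χ (fun x => z x) = c₀)
      rw [e1, card_filter_eq]
      refine Eq.trans (by congr!) ((count_cs (M := MM q A G S) hX Q
        (fun θ => Dft p D (fun x => θ ((eM hq).symm x)) ∧
        Inq ((QuotientGroup.mk' A).comp q) ⊤ S (fun x => θ ((eM (A := A) (S := S) hq).symm x)) ∧
        centralValue red (fun x => θ ((eM (A := A) (S := S) hq).symm x)) (fun x => z x) = c₀)
        ?_).trans ?_)
      rotate_left
      · congr 1
        ext θ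
        simp only [Finset.mem_filter, mem_Irr]
        refine and_congr_right fun hθ => ?_
        have hθ' : IsIrrChar (fun x => θ ((eM (A := A) (S := S) hq).symm x)) :=
          irr_comp (eM hq).symm hθ
        have h5 := eM_back (A := A) (S := S) hq θ
        have h6 := st_small (A := A) hq hθ'
        rw [h5] at h6
        rw [h6]
        unfold Pc
        tauto
      · intro χ θ hχ hθ hm hst
        have hθ' : IsIrrChar (fun x => θ ((eM (A := A) (S := S) hq).symm x)) :=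
          irr_comp (eM hq).symm hθ
        have h5 := eM_back (A := A) (S := S) hq θ
        have h6 := inq_ni (A := A) hq hχ hθ' (by rw [h5]; exact hm) (by rw [h5]; exact hst)
        obtain ⟨n, hn0, hn⟩ := Pool.Agent.Y63.AWC.deg_nat hχ
        obtain ⟨d, hd0, hd⟩ := Pool.Agent.Y63.AWC.deg_nat hθ
        have hdeg : n = Nat.card A * d := by
          rw [deg_eq (MM q A G S) hχ hθ hm hn hd, orb_small hX hst, mult_small hχ hθ hm hst,
            mul_one]
        have h1' : (fun x => θ ((eM (A := A) (S := S) hq).symm x)) 1 = d := by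
          change θ ((eM hq).symm 1) = d
          rw [map_one, hd]
        have hA0 : Nat.card A ≠ 0 := Nat.card_pos.ne'
        have h7 : Dft p D χ ↔ Dft p D (fun x => θ ((eM (A := A) (S := S) hq).symm x)) := by
          unfold Dft
          rw [card_K' hq hφ p, h1', hn]
          constructor
          · rintro ⟨m, h8, h9⟩
            refine ⟨d, rfl, ?_⟩
            have h10 : m = n := by exact_mod_cast h8.symm
            rw [h10, hdeg, Nat.factorization_mul hA0 hd0.ne', Finsupp.add_apply] at h9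
            omega
          · rintro ⟨m, h8, h9⟩
            refine ⟨n, rfl, ?_⟩
            have h10 : m = d := by exact_mod_cast h8.symm
            rw [h10] at h9
            rw [hdeg, Nat.factorization_mul hA0 hd0.ne', Finsupp.add_apply]
            omega
        have h8 := cv_over (A := A) red hq hz hz0 hχ hθ' (Nat.card A) (by
          rw [map_one, hd, hn, hdeg]
          push_cast
          rfl) (fun f hf => by
          rw [sum_cs hX hχ hθ hm hst f hf]
          rfl)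
        rw [hQ]
        change (Dft p D χ ∧ _ ∧ _) ↔ _
        rw [h6, h7, h8]
    rw [hx]
    unfold pk
    rw [← hz', card_K hq hφ]
    push_cast
    ring

end

end Run7.h759.DI
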