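import Pool.Agent.Run7.h759.DI.Ab3

/-!
# The relation between the signed sums: minimal abelian normal `p`-subgroups (helper759)
-/

set_option autoImplicit false
set_option linter.unusedSectionVars false

open scoped Classical BigOperators

noncomputable section

namespace Run7.h759.DI

open Pool.Agent.Y63.NV (IsClassFun centralValue IsBlock numDzBlock)
open Pool.Agent.Helper884.IC (IsIrrChar IsClass Irr mem_Irr)
open Pool.Agent.Y63.KR (IsPChain chainStabilizer)
open Pool.Agent.R674.Tw (Fixes GCh)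
open Pool.Agent.R674.Ce (chs wt)
open Pool.Agent.Q99.AS (Dft)
open Pool.Agent.Q90.WR (card_filter_eq)
open Pool.Agent.N20.DI (pf pf_class mem_up)

/-- the groups above a complement -/
theorem compl_above' {U : Type} [Group U] {A : Subgroup U} [hAn : A.Normal] (hmin : Mn A)
    (hc : ∀ a b : A, a * b = b * a) {V W : Subgroup U}
    (h1 : V ⊓ A = ⊥) (h2 : V ⊔ A = ⊤) (hVW : V ≤ W) : W = V ∨ W = ⊤ := by
  have h0 : W ⊔ A = ⊤ := by
    rw [eq_top_iff, ← h2]
    exact sup_le_sup_right hVW A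
  rcases mn_cases hmin hc h0 with h3 | h3
  · left
    refine le_antisymm (fun w hw => ?_) hVW
    have h4 : w ∈ V ⊔ A := by
      rw [h2]
      trivial
    rw [Subgroup.mem_sup_of_normal_right] at h4
    obtain ⟨v, hv, a, ha, rfl⟩ := h4
    have h5 : a ∈ W ⊓ A := by
      refine ⟨?_, ha⟩
      have := W.mul_mem (W.inv_mem (hVW hv)) hw
      rwa [inv_mul_cancel_left] at this
    rw [h3, Subgroup.mem_bot] at h5
    rw [h5, mul_one]
    exact hv
  · right
    rw [eq_top_iff, ← h2]
    exact sup_le hVW h3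

section

variable {E U : Type} [Group E] [Finite E] [Group U] {q : E →* U} {A : Subgroup U}
  [hAn : A.Normal] {G : Subgroup E}
  {F : Type} [Field F] (red : integralClosure ℤ ℂ →+* F)

/-- **the characters whose inertial group is a complement** -/
theorem pk_sum' (hq : q.ker = G) (hmin : Mn A) (hc : ∀ a b : A, a * b = b * a) (p : ℕ)
    (z : E → F) (c₀ : F) (D : ℕ)
    (S : Subgroup E) [Fintype (Subgroup U)] :
    pk p red q A z c₀ D S (G ⊓ S) =
      ∑ V ∈ (Finset.univ : Finset (Subgroup U)).filter (fun V => V ⊓ A = ⊥ ∧ V ⊔ A = ⊤),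
        (xc p red G q V z c₀ D S - xc p red G q ⊤ z c₀ D S) := by
  have _i : Fintype ↥(G ⊓ S) := Fintype.ofFinite _
  have hK := HKc (U := U) hq S
  have e1 : ∀ V : Subgroup U, xc p red G q V z c₀ D S =
      (((Irr ↥(G ⊓ S)).filter fun χ => (Dft p D χ ∧ V ≤ Wq q S hK χ ∧
        centralValue red χ (fun x => z x) = c₀)).card : ℤ) := by
    intro V
    unfold xc xk
    rw [card_filter_eq]
    congr 2
    refine Finset.filter_congr fun χ _ => ?_
    rw [inq_iff (hK := hK)]
  have e2 : pk p red q A z c₀ D S (G ⊓ S) =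
      (((Irr ↥(G ⊓ S)).filter fun χ => (Dft p D χ ∧ (Wq q S hK χ ⊓ A = ⊥ ∧ Wq q S hK χ ⊔ A = ⊤) ∧
        centralValue red χ (fun x => z x) = c₀)).card : ℤ) := by
    unfold pk
    rw [card_filter_eq]
    congr 2
    refine Finset.filter_congr fun χ _ => ?_
    rw [pc_iff (hK := hK)]
  have hne : (A : Subgroup U) ≠ ⊥ := hmin.1
  have e3 : ∀ V ∈ (Finset.univ : Finset (Subgroup U)).filter (fun V => V ⊓ A = ⊥ ∧ V ⊔ A = ⊤),
      xc p red G q V z c₀ D S - xc p red G q ⊤ z c₀ D S =
      (((Irr ↥(G ⊓ S)).filter fun χ => (Dft p D χ ∧ Wq q S hK χ = V ∧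
        centralValue red χ (fun x => z x) = c₀)).card : ℤ) := by
    intro V hV
    obtain ⟨-, h1, h2⟩ := Finset.mem_filter.1 hV
    rw [e1, e1, sub_eq_iff_eq_add]
    have hVt : V ≠ ⊤ := by
      rintro rfl
      rw [top_inf_eq] at h1
      exact hne h1
    norm_cast
    rw [← Finset.card_union_of_disjoint]
    · congr 1
      ext χ
      simp only [Finset.mem_union, Finset.mem_filter]
      constructor
      · rintro ⟨a, b, c, d⟩
        rcases compl_above' hmin hc h1 h2 c with h | h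
        · exact Or.inl ⟨a, b, h, d⟩
        · exact Or.inr ⟨a, b, h.ge, d⟩
      · rintro (⟨a, b, c, d⟩ | ⟨a, b, c, d⟩)
        · exact ⟨a, b, c.ge, d⟩
        · exact ⟨a, b, le_top.trans c, d⟩
    · rw [Finset.disjoint_left]
      intro χ h3 h4
      have h5 := (Finset.mem_filter.1 h3).2.2.1
      have h6 := (Finset.mem_filter.1 h4).2.2.1
      rw [h5] at h6
      exact hVt (top_le_iff.1 h6)
  rw [Finset.sum_congr rfl e3, e2]
  norm_cast
  rw [Finset.card_eq_sum_card_fiberwise (f := fun χ => Wq q S hK χ)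
    (t := (Finset.univ : Finset (Subgroup U)).filter (fun V => V ⊓ A = ⊥ ∧ V ⊔ A = ⊤))]
  · refine Finset.sum_congr rfl fun V hV => ?_
    obtain ⟨-, h1, h2⟩ := Finset.mem_filter.1 hV
    congr 1
    ext χ
    simp only [Finset.mem_filter]
    constructor
    · rintro ⟨⟨a, b, c, d⟩, e⟩
      exact ⟨a, b, e, d⟩
    · rintro ⟨a, b, c, d⟩
      refine ⟨⟨a, b, ?_, d⟩, c⟩
      rw [c]
      exact ⟨h1, h2⟩
  · intro χ hχ
    have h := (Finset.mem_filter.1 hχ).2.2.1
    exact Finset.mem_coe.2 (Finset.mem_filter.2 ⟨Finset.mem_univ _, h⟩)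

end

variable {E U : Type} [Group E] [Finite E] [Group U] {q : E →* U} {A : Subgroup U}
  [hAn : A.Normal] {G : Subgroup E} {p k : ℕ} [hp : Fact p.Prime]
  {F : Type} [Field F] [IsAlgClosed F] [CharP F p] (red : integralClosure ℤ ℂ →+* F)

omit hAn in
/-- the chains above a complement -/
theorem above_zero' [A.Normal] [Finite A] (hq : q.ker = G) (hmin : Mn A)
    (hc : ∀ a b : A, a * b = b * a) (hA : Nat.card A = p ^ k) (hW : Ok p red (U ⧸ A))
    {z : E → F} (hz : ∀ g x, z (g * x * g⁻¹) = z x) (hz0 : ∀ x, x ∉ G → z x = 0) (c₀ : F)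
    {D' : ℕ} (hD : 1 ≤ D') {R : Subgroup E} (hR : IsPGroup p R) (hR0 : R ≠ ⊥)
    (hRN : R ≤ A.comap q) (hGR : G ⊓ R = ⊥) :
    chs {P : Subgroup E | IsPGroup p P ∧ R < P ∧
        P ≤ A.comap q ⊓ Subgroup.normalizer (R : Set E)}
      (wt (Subgroup.normalizer (R : Set E)) (fun S => (Nat.card ↥(A.comap q ⊓ S) : ℤ) *
        xc p red (A.comap q) ((QuotientGroup.mk' A).comp q) ⊤ z c₀ (D' + k) S)) = 0 := by
  set L := Subgroup.normalizer (R : Set E) with hL
  have hRL : R ≤ L := Subgroup.le_normalizer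
  by_cases hRs : ∀ a : A, ∃ x ∈ R, q x = a
  swap
  · -- the weights vanish
    have h0 : ∀ S ≤ L, xc p red (A.comap q) ((QuotientGroup.mk' A).comp q) ⊤ z c₀ (D' + k) S =
        0 := by
      intro S hS
      unfold xc xk
      rw [Nat.cast_eq_zero]
      have : IsEmpty {χ : ↥(A.comap q ⊓ S) → ℂ // IsIrrChar χ ∧ (Dft p (D' + k) χ ∧
          Inq ((QuotientGroup.mk' A).comp q) ⊤ S χ ∧
          centralValue red χ (fun x => z x) = c₀)} := by
        refine ⟨?_⟩
        rintro ⟨χ, -, -, h, -⟩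
        have hn : (R.map q).Normal := by
          refine ⟨fun x hx g => ?_⟩
          obtain ⟨r, hr, rfl⟩ := hx
          obtain ⟨e, he, h1, -⟩ := h (g : U ⧸ A) (Subgroup.mem_top _)
          have h3 : (q e)⁻¹ * g ∈ A := QuotientGroup.eq.1 h1
          have h4 : ((q e)⁻¹ * g) * q r = q r * ((q e)⁻¹ * g) :=
            congrArg Subtype.val (hc ⟨_, h3⟩ ⟨q r, hRN hr⟩)
          have h5 : g * q r * g⁻¹ = q (e * r * e⁻¹) := by
            rw [map_mul, map_mul, map_inv]
            have h6 : g * q r = q e * (((q e)⁻¹ * g) * q r) := by group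
            rw [h6, h4]
            group
          rw [h5]
          exact ⟨_, (Subgroup.mem_normalizer_iff.1 (hS he) r).1 hr, rfl⟩
        rcases hmin.2 _ hn (Subgroup.map_le_iff_le_comap.2 hRN) with h1 | h1
        · apply hR0
          rw [← hGR, eq_comm, inf_eq_right]
          intro x hx
          rw [mem_G hq]
          have h2 : q x ∈ R.map q := ⟨x, hx, rfl⟩
          rw [h1] at h2
          exact Subgroup.mem_bot.1 h2
        · apply hRs
          intro a
          have h2 : (a : U) ∈ R.map q := by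
            rw [h1]
            exact a.2
          obtain ⟨x, hx, h3⟩ := h2
          exact ⟨x, hx, h3⟩
      exact Nat.card_of_isEmpty
    unfold chs
    refine (finsum_congr fun σ => ?_).trans finsum_zero
    unfold wt
    change (-1) ^ (σ : Set (Subgroup E)).ncard *
      ((Nat.card ↥(A.comap q ⊓ (L ⊓ chainStabilizer (σ : Set (Subgroup E)))) : ℤ) * _) = 0
    rw [h0 _ inf_le_left, mul_zero, mul_zero]
  have hn : (R.subgroupOf L).Normal := by
    constructor
    intro x hx g
    rw [Subgroup.mem_subgroupOf] at hx ⊢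
    exact (Subgroup.mem_normalizer_iff.1 g.2 x).1 hx
  let π : L →* L ⧸ R.subgroupOf L := QuotientGroup.mk' _
  have hπ : Function.Surjective π := QuotientGroup.mk'_surjective _
  have hk : π.ker = R.subgroupOf L := QuotientGroup.ker_mk' _
  rw [al_above hRL hRN hR π hπ hk]
  let r' : (L ⧸ R.subgroupOf L) →* U ⧸ A := QuotientGroup.lift _
    (((QuotientGroup.mk' A).comp q).comp L.subtype) (fun x hx =>
      (QuotientGroup.eq_one_iff _).2 (hRN (Subgroup.mem_subgroupOf.1 hx)))
  have hr' : ∀ x : L, r' (π x) = (QuotientGroup.mk' A) (q x) := fun x => rfl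
  have e1 : al p (((A.comap q).subgroupOf L).map π) (fun S => (fun S =>
      (Nat.card ↥(A.comap q ⊓ S) : ℤ) * xc p red (A.comap q)
        ((QuotientGroup.mk' A).comp q) ⊤ z c₀ (D' + k) S) ((S.comap π).map L.subtype)) =
      al p (Nb q A π) (fun S' => (((p ^ k : ℕ) : ℤ) * (Nat.card {μ : A →* ℂˣ // Iv A μ} : ℤ)) *
        ((Nat.card ↥(Nb q A π ⊓ S') : ℤ) * xc p red (Nb q A π) r' ⊤ (pf z π) c₀ D' S')) := by
    refine al_congr fun σ _ _ => ?_
    change (Nat.card ↥(A.comap q ⊓ Up π (chainStabilizer σ)) : ℤ) * xc p red (A.comap q)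
        ((QuotientGroup.mk' A).comp q) ⊤ z c₀ (D' + k) (Up π (chainStabilizer σ)) = _
    rw [linx' hk hRL hRN hq hA hc hGR hRs le_rfl red r' hr' hπ hz hz0 c₀ D',
      card_J' hk hRL hRN hq hA hGR hRs]
    push_cast
    ring
  rw [e1, al_mul]
  have hpf : ∀ g x, pf z π (g * x * g⁻¹) = pf z π x := pf_class (fun g _ x => hz g x) π hπ
  have e2 : al p (Nb q A π) (fun S' => (Nat.card ↥(Nb q A π ⊓ S') : ℤ) *
      xc p red (Nb q A π) r' ⊤ (pf z π) c₀ D' S') = 0 := by
    by_cases hs : Function.Surjective r'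
    · have hker : r'.ker = Nb q A π := by
        ext y
        obtain ⟨x, rfl⟩ := hπ y
        rw [MonoidHom.mem_ker, hr']
        constructor
        · intro h
          have h1 : q x ∈ A := (QuotientGroup.eq_one_iff _).1 h
          exact ⟨x, Subgroup.mem_subgroupOf.2 h1, rfl⟩
        · rintro ⟨x', hx', h⟩
          rw [← hr', ← h, hr']
          exact (QuotientGroup.eq_one_iff _).2 (Subgroup.mem_subgroupOf.1 hx')
      exact blx hker hs (ok_iso Subgroup.topEquiv.symm hW) hpf c₀ hD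
    · refine al_zero fun σ _ _ => ?_
      have h0 : xc p red (Nb q A π) r' ⊤ (pf z π) c₀ D' (chainStabilizer σ) = 0 := by
        unfold xc xk
        have : IsEmpty {χ : ↥(Nb q A π ⊓ chainStabilizer σ) → ℂ // IsIrrChar χ ∧
            (Dft p D' χ ∧ Inq r' ⊤ (chainStabilizer σ) χ ∧
              centralValue red χ (fun x => pf z π x) = c₀)} := by
          refine ⟨?_⟩
          rintro ⟨χ, -, -, h, -⟩
          apply hs
          intro u
          obtain ⟨e, -, h1, -⟩ := h u (Subgroup.mem_top _)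
          exact ⟨e, h1⟩
        rw [Nat.card_of_isEmpty]
        rfl
      rw [h0, mul_zero]
  rw [e2, mul_zero]

omit hAn in
/-- **The relation.** -/
theorem rel' [A.Normal] [Finite A] (hq : q.ker = G) (hs : Function.Surjective q) (hmin : Mn A)
    (hc : ∀ a b : A, a * b = b * a) (hA : Nat.card A = p ^ k)
    (hW : Ok p red (U ⧸ A)) {z : E → F} (hz : ∀ g x, z (g * x * g⁻¹) = z x)
    (hz0 : ∀ x, x ∉ G → z x = 0) (c₀ : F) {D' : ℕ} (hD : 1 ≤ D') :
    al p G (fun S => (Nat.card ↥(A.comap q ⊓ S) : ℤ) *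
        gi p red (G_le A hq) z c₀ (D' + k) S) =
      (nC A : ℤ) * al p G (fun S => (Nat.card ↥(G ⊓ S) : ℤ) *
        xc p red G q ⊤ z c₀ (D' + k) S) := by
  have hGn : G.Normal := G_normal hq
  have hU : Finite U := Finite.of_surjective q hs
  have _iU : Fintype (Subgroup U) := Fintype.ofFinite _
  set D := D' + k with hDD
  have hD1 : 1 ≤ D := by omega
  set f : Subgroup E → ℤ := fun S => (Nat.card ↥(A.comap q ⊓ S) : ℤ) *
    xc p red (A.comap q) ((QuotientGroup.mk' A).comp q) ⊤ z c₀ D S with hf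
  have hrs : Function.Surjective ((QuotientGroup.mk' A).comp q) :=
    (QuotientGroup.mk'_surjective A).comp hs
  have h1 : al p (A.comap q) f = 0 :=
    blx (ker_r hq) hrs (ok_iso Subgroup.topEquiv.symm hW) hz c₀ hD1
  have h2 := al_dec (p := p) (G_le A hq) f
  have h3 : (∑ᶠ R : Subgroup E, if IsPGroup p R ∧ R ≠ ⊥ ∧ R ≤ A.comap q ∧ G ⊓ R = ⊥ then
        chs {P : Subgroup E | IsPGroup p P ∧ R < P ∧
          P ≤ A.comap q ⊓ Subgroup.normalizer (R : Set E)}
          (wt (Subgroup.normalizer (R : Set E)) f) else 0) = 0 := by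
    refine (finsum_congr fun R => ?_).trans (finsum_zero (α := Subgroup E))
    by_cases h4 : IsPGroup p R ∧ R ≠ ⊥ ∧ R ≤ A.comap q ∧ G ⊓ R = ⊥
    · rw [if_pos h4]
      obtain ⟨hR, hR0, hRN, hGR⟩ := h4
      exact above_zero' red hq hmin hc hA hW hz hz0 c₀ hD hR hR0 hRN hGR
    · rw [if_neg h4]
  rw [h1, h3, sub_zero] at h2
  have h5 : al p G f = al p G (fun S => (Nat.card ↥(A.comap q ⊓ S) : ℤ) *
        gi p red (G_le A hq) z c₀ D S) +
      ∑ V ∈ (Finset.univ : Finset (Subgroup U)).filter (fun V => V ⊓ A = ⊥ ∧ V ⊔ A = ⊤),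
        (al p G (fun S => (Nat.card ↥(G ⊓ S) : ℤ) * xc p red G q V z c₀ D S) -
          al p G (fun S => (Nat.card ↥(G ⊓ S) : ℤ) * xc p red G q ⊤ z c₀ D S)) := by
    have h6 : ∀ V : Subgroup U,
        al p G (fun S => (Nat.card ↥(G ⊓ S) : ℤ) * xc p red G q V z c₀ D S) -
          al p G (fun S => (Nat.card ↥(G ⊓ S) : ℤ) * xc p red G q ⊤ z c₀ D S) =
        al p G (fun S => (Nat.card ↥(G ⊓ S) : ℤ) *
          (xc p red G q V z c₀ D S - xc p red G q ⊤ z c₀ D S)) := by
      intro V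
      rw [← al_sub]
      exact al_congr fun σ _ _ => by ring
    rw [Finset.sum_congr rfl fun V _ => h6 V, ← al_sum, ← al_add]
    refine al_congr fun σ _ _ => ?_
    rw [hf]
    change (Nat.card ↥(A.comap q ⊓ chainStabilizer σ) : ℤ) * xc p red (A.comap q)
      ((QuotientGroup.mk' A).comp q) ⊤ z c₀ D (chainStabilizer σ) = _
    rw [mi' red hq hmin hc hz hz0 c₀ D (chainStabilizer σ), pk_sum' red hq hmin hc,
      Finset.mul_sum]
  rw [← h2] at h5
  have h7 : ∀ V ∈ (Finset.univ : Finset (Subgroup U)).filter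
      (fun V => V ⊓ A = ⊥ ∧ V ⊔ A = ⊤),
      (al p G (fun S => (Nat.card ↥(G ⊓ S) : ℤ) * xc p red G q V z c₀ D S) -
          al p G (fun S => (Nat.card ↥(G ⊓ S) : ℤ) * xc p red G q ⊤ z c₀ D S)) =
      - al p G (fun S => (Nat.card ↥(G ⊓ S) : ℤ) * xc p red G q ⊤ z c₀ D S) := by
    intro V hV
    obtain ⟨-, h8, h9⟩ := Finset.mem_filter.1 hV
    obtain ⟨e⟩ := compl_iso h8 h9
    rw [blx hq hs (ok_iso e hW) hz c₀ hD1, zero_sub]
  rw [Finset.sum_congr rfl h7, Finset.sum_const, nsmul_eq_mul] at h5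
  have h8 : nC A = ((Finset.univ : Finset (Subgroup U)).filter
      (fun V => V ⊓ A = ⊥ ∧ V ⊔ A = ⊤)).card := by
    unfold nC
    exact Nat.subtype_card _ fun V => by
      rw [Finset.mem_filter]
      exact ⟨fun h => h.2, fun h => ⟨Finset.mem_univ _, h⟩⟩
  rw [h8]
  linarith

end Run7.h759.DI
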