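import Pool.Agent.Run7.h759.DI.Ext

/-!
# Extensions of the characters of the stabilisers (helper759)
-/

set_option autoImplicit false
set_option linter.unusedSectionVars false

open scoped Classical BigOperators

noncomputable section

namespace Run7.h759.DI

open Pool.Agent.Y63.NV (IsClassFun centralValue)
open Pool.Agent.Helper884.IC (IsIrrChar Irr mem_Irr B B_irr IsClass cardG_ne irr_finite)
open Pool.Agent.Y63.AWC (res mult mult_spec cj St Orb mem_St irr_comp mult_exists)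
open Pool.Agent.R674.Tw (Fixes alp alp_coe fixes_iff)

variable {E U : Type} [Group E] [Finite E] [Group U] {q : E →* U} {A : Subgroup U}
  [hAn : A.Normal] {G : Subgroup E} {S : Subgroup E} {ℓ : ℕ} [hl : Fact ℓ.Prime]

theorem rs_tw (hq : q.ker = G) (μ : A →* ℂˣ) (χ : ↥(A.comap q ⊓ S) → ℂ) :
    rs (HK hq) (tw (phi q A S) μ χ) = rs (HK hq) χ := by
  funext y
  change ((μ (phi q A S ⟨y, HK hq y.2⟩) : ℂˣ) : ℂ) * χ ⟨y, HK hq y.2⟩ = χ ⟨y, HK hq y.2⟩
  have h8 : phi q A S ⟨y, HK hq y.2⟩ = 1 :=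
    Subtype.ext ((mem_G hq).1 (Subgroup.mem_inf.1 y.2).1)
  rw [h8, map_one, Units.val_one, one_mul]

theorem res_of_rs (hq : q.ker = G) {χ χ' : ↥(A.comap q ⊓ S) → ℂ}
    (h : rs (HK hq) χ = rs (HK hq) χ') : res (MM q A G S) χ = res (MM q A G S) χ' := by
  rw [res_eM hq, res_eM hq, h]

theorem phi_of_inq (hA : Nat.card A = ℓ) {K : Subgroup E} {θ : K → ℂ} (h : Inq q ⊤ S θ) :
    Function.Surjective (phi q A S) := by
  refine surj_of hA fun u _ => ?_
  obtain ⟨e, he, h2, -⟩ := h u (Subgroup.mem_top _)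
  exact ⟨e, he, h2⟩

theorem phi_of_coc (hA : Nat.card A = ℓ) {c : U → A →* ℂˣ} {χ : ↥(A.comap q ⊓ S) → ℂ}
    (h : Coc q A c S χ) : Function.Surjective (phi q A S) := by
  refine surj_of hA fun u _ => ?_
  obtain ⟨e, he, h2, -⟩ := h u
  exact ⟨e, he, h2⟩

/-- the invariant characters extend -/
theorem ext_ex (hq : q.ker = G) (hA : Nat.card A = ℓ) {θ : ↥(G ⊓ S) → ℂ} (hθ : IsIrrChar θ)
    (h3 : Inq q ⊤ S θ) : ∃ χ : ↥(A.comap q ⊓ S) → ℂ, IsIrrChar χ ∧ rs (HK hq) χ = θ := by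
  have hfin : Finite A := fin_A hl.out hA
  have hφ := phi_of_inq (A := A) hA h3
  have _i : Fintype ↥(A.comap q ⊓ S) := Fintype.ofFinite _
  have hMn : (MM q A G S).Normal := M_normal A hq S
  have hMm := mem_M A hq S
  have hθ' := irr_comp (eM (A := A) (S := S) hq) hθ
  obtain ⟨χ, h5, h6⟩ := ext_exists (M := MM q A G S) hMm hφ hA hθ' (by
    rw [Subgroup.card_eq_iff_eq_top, Subgroup.eq_top_iff']
    intro x
    rw [mem_St]
    obtain ⟨e, he, e1, e2⟩ := h3 (q x) (Subgroup.mem_top _)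
    have hxS := (Subgroup.mem_inf.1 x.2).2
    have hg : e⁻¹ * x ∈ G ⊓ S := by
      refine Subgroup.mem_inf.2 ⟨?_, S.mul_mem (S.inv_mem he) hxS⟩
      rw [mem_G hq, map_mul, map_inv, e1, inv_mul_cancel]
    have hf : Fixes (x : E) θ := by
      have := fixes_mul (fun n hn => (G_conj hq (Subgroup.mem_inf.1 hg).2 n).1 hn) e2
        (fixes_inner (isClass_of hθ) hg)
      rwa [mul_inv_cancel_left] at this
    funext m
    refine hf (eM hq m) (eM hq (MulAut.conjNormal x m)) ?_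
    rw [eM_coe, eM_coe, MulAut.conjNormal_apply]
    rfl)
  refine ⟨χ, h5, ?_⟩
  funext y
  have h7 := congrFun h6 ((eM hq).symm y)
  rw [res_eM hq] at h7
  change rs (HK hq) χ (eM hq ((eM hq).symm y)) = θ (eM hq ((eM hq).symm y)) at h7
  rwa [MulEquiv.apply_symm_apply] at h7

theorem ext_uniq (hq : q.ker = G) (hA : Nat.card A = ℓ)
    (hφ : Function.Surjective (phi q A S)) {χ χ' : ↥(A.comap q ⊓ S) → ℂ} (h : IsIrrChar χ)
    (hr : IsIrrChar (rs (HK hq) χ)) (h' : IsIrrChar χ') (he : rs (HK hq) χ' = rs (HK hq) χ) :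
    ∃ μ : A →* ℂˣ, χ' = tw (phi q A S) μ χ := by
  have hfin : Finite A := fin_A hl.out hA
  have _i : Fintype ↥(A.comap q ⊓ S) := Fintype.ofFinite _
  have hMn : (MM q A G S).Normal := M_normal A hq S
  have hMm := mem_M A hq S
  exact ext_unique (M := MM q A G S) hMm hφ hA h ((res_irr_iff hq χ).2 hr) h' (res_of_rs hq he)

theorem rtw_inj (hq : q.ker = G) (hA : Nat.card A = ℓ)
    (hφ : Function.Surjective (phi q A S)) {χ : ↥(A.comap q ⊓ S) → ℂ} (h : IsIrrChar χ)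
    (hr : IsIrrChar (rs (HK hq) χ)) :
    Function.Injective fun μ : A →* ℂˣ => tw (phi q A S) μ χ := by
  have hfin : Finite A := fin_A hl.out hA
  have _i : Fintype ↥(A.comap q ⊓ S) := Fintype.ofFinite _
  have hMn : (MM q A G S).Normal := M_normal A hq S
  have hMm := mem_M A hq S
  exact tw_inj (M := MM q A G S) hMm hφ hA h ((res_irr_iff hq χ).2 hr)

theorem coc_ex (hq : q.ker = G) (hA : Nat.card A = ℓ) {χ : ↥(A.comap q ⊓ S) → ℂ}
    (h2 : IsIrrChar χ) (h3 : IsIrrChar (rs (HK hq) χ)) (h4 : Inq q ⊤ S (rs (HK hq) χ)) :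
    ∃ c, Coc q A c S χ := by
  have hφ := phi_of_inq (A := A) hA h4
  have h5 : ∀ u : U, ∃ μ : A →* ℂˣ, ∃ e ∈ S, q e = u ∧
      ∀ n n' : ↥(A.comap q ⊓ S), (n' : E) = e * n * e⁻¹ →
      χ n' = ((μ ⟨q n, (Subgroup.mem_inf.1 n.2).1⟩ : ℂˣ) : ℂ) * χ n := by
    intro u
    obtain ⟨e, he, e1, e2⟩ := h4 u (Subgroup.mem_top _)
    have h6 : rs (HK hq) (fun x => χ (al' he x)) = rs (HK hq) χ := by
      funext y
      exact e2 y ⟨e * y * e⁻¹, (G_conj hq he (y : E)).1 y.2⟩ rfl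
    obtain ⟨μ, hμ⟩ := ext_uniq hq hA hφ h2 h3 (irr_comp (al' he) h2) h6
    refine ⟨μ, e, he, e1, fun n n' hn => ?_⟩
    have h7 := congrFun hμ n
    have h8 : al' he n = n' := Subtype.ext hn.symm
    rw [← h8]
    exact h7
  choose c hc using h5
  exact ⟨c, hc⟩

theorem coc_inq (hq : q.ker = G) {χ : ↥(A.comap q ⊓ S) → ℂ} {c : U → A →* ℂˣ}
    (hc : Coc q A c S χ) : Inq q ⊤ S (rs (HK hq) χ) := by
  intro u _
  obtain ⟨e, he, e1, e2⟩ := hc u
  refine ⟨e, he, e1, fun n n' hn => ?_⟩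
  have h7 := e2 ⟨n, HK hq n.2⟩ ⟨n', HK hq n'.2⟩ hn
  change χ ⟨n', HK hq n'.2⟩ = χ ⟨n, HK hq n.2⟩
  rw [h7]
  have h8 : (⟨q (n : E), (Subgroup.mem_inf.1 (HK (A := A) hq n.2)).1⟩ : A) = 1 :=
    Subtype.ext ((mem_G hq).1 (Subgroup.mem_inf.1 n.2).1)
  rw [h8, map_one, Units.val_one, one_mul]

end Run7.h759.DI
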