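import Pool.Agent.Run7.h759.DI.Ab4
import Pool.Agent.Run7.h759.DI.Ext2

/-!
# The invariant characters over an invariant character (helper759)
-/

set_option autoImplicit false
set_option linter.unusedSectionVars false

open scoped Classical BigOperators

noncomputable section

namespace Run7.h759.DI

open Pool.Agent.Y63.NV (IsClassFun centralValue)
open Pool.Agent.Helper884.IC (IsIrrChar Irr mem_Irr B B_irr IsClass cardG_ne irr_finite B_smul_left
  B_comm)
open Pool.Agent.Y63.AWC (res mult mult_spec cj St Orb mem_St irr_comp mult_exists deg_eq)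
open Pool.Agent.R674.Tw (Fixes alp alp_coe fixes_iff)
open Pool.Agent.Q99.AS (Dft Dft_congr Dft_unique Dft_exists irr_one_ne')
open Pool.Agent.Q90.WR (card_transport card_filter_eq irr_comp_iff)

section

variable {E U : Type} [Group E] [Group U] {q : E →* U} {A : Subgroup U}
  {G : Subgroup E}

/-- there is an invariant extension -/
def Ei [A.Normal] (hG : G ≤ A.comap q) (S : Subgroup E) (θ : ↥(G ⊓ S) → ℂ) : Prop :=
  ∃ χ : ↥(A.comap q ⊓ S) → ℂ, IsIrrChar χ ∧ rs (inf_le_inf_right S hG) χ = θ ∧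
    Inq ((QuotientGroup.mk' A).comp q) ⊤ S χ

/-- there is an extension -/
def Ee (hG : G ≤ A.comap q) (S : Subgroup E) (θ : ↥(G ⊓ S) → ℂ) : Prop :=
  ∃ χ : ↥(A.comap q ⊓ S) → ℂ, IsIrrChar χ ∧ rs (inf_le_inf_right S hG) χ = θ

/-- the number of the invariant characters of defect `D` over `θ` -/
def nv (p : ℕ) [A.Normal] (hG : G ≤ A.comap q) (S : Subgroup E) (θ : ↥(G ⊓ S) → ℂ) (D : ℕ) : ℕ :=
  Nat.card {χ : ↥(A.comap q ⊓ S) → ℂ // IsIrrChar χ ∧ (Dft p D χ ∧
    Inq ((QuotientGroup.mk' A).comp q) ⊤ S χ ∧ Ov hG S χ θ)}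

end

variable {E U : Type} [Group E] [Finite E] [Group U] {q : E →* U} {A : Subgroup U}
  [hAn : A.Normal] {G : Subgroup E} {S : Subgroup E}

theorem ov_one (hq : q.ker = G) {χ : ↥(A.comap q ⊓ S) → ℂ} {θ : ↥(G ⊓ S) → ℂ}
    (h : rs (HK hq) χ = θ) : Ov (G_le A hq) S χ θ :=
  ⟨1, by rw [Nat.cast_one, one_smul]; exact h⟩

theorem ov_uniq (hq : q.ker = G) {χ : ↥(A.comap q ⊓ S) → ℂ} (hχ : IsIrrChar χ)
    {θ θ' : ↥(G ⊓ S) → ℂ} (hθ : IsIrrChar θ) (hθ' : IsIrrChar θ')
    (h : Ov (G_le A hq) S χ θ) (h' : Ov (G_le A hq) S χ θ') : θ = θ' := by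
  have _i : Fintype ↥(A.comap q ⊓ S) := Fintype.ofFinite _
  have _j : Fintype ↥(G ⊓ S) := Fintype.ofFinite _
  obtain ⟨e, he⟩ := h
  obtain ⟨e', he'⟩ := h'
  by_contra hne
  have h1 : B (rs (inf_le_inf_right S (G_le A hq)) χ) θ = e := by
    rw [he, B_smul_left, B_irr hθ hθ, if_pos rfl, mul_one]
  rw [he', B_smul_left, B_irr hθ' hθ, if_neg (Ne.symm hne), mul_zero] at h1
  have h2 : e = 0 := by exact_mod_cast h1.symm
  exact mul_ne hχ ((ov_res (A := A) hq).1 he) h2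

/-- `gi` as a sum over the invariant characters -/
theorem gi_sum (hq : q.ker = G) {F : Type} [Field F] (red : integralClosure ℤ ℂ →+* F)
    [Fintype ↥(G ⊓ S)] (p : ℕ) {z : E → F} (hz : ∀ g x, z (g * x * g⁻¹) = z x)
    (hz0 : ∀ x, x ∉ G → z x = 0) (c₀ : F) (D : ℕ) :
    gi p red (G_le A hq) z c₀ D S =
      ∑ θ ∈ (Irr ↥(G ⊓ S)).filter fun θ => Inq q ⊤ S θ ∧ centralValue red θ (fun x => z x) = c₀,
        (nv p (G_le A hq) S θ D : ℤ) := by
  have _i : Fintype ↥(A.comap q ⊓ S) := Fintype.ofFinite _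
  unfold gi
  rw [card_filter_eq]
  let f : (↥(A.comap q ⊓ S) → ℂ) → (↥(G ⊓ S) → ℂ) := fun χ =>
    if h : ∃ θ : ↥(G ⊓ S) → ℂ, IsIrrChar θ ∧ Inq q ⊤ S θ ∧ Ov (G_le A hq) S χ θ then h.choose
    else 0
  have hf : ∀ χ (h : ∃ θ : ↥(G ⊓ S) → ℂ, IsIrrChar θ ∧ Inq q ⊤ S θ ∧ Ov (G_le A hq) S χ θ),
      IsIrrChar (f χ) ∧ Inq q ⊤ S (f χ) ∧ Ov (G_le A hq) S χ (f χ) := by
    intro χ h
    have : f χ = h.choose := dif_pos h
    rw [this]
    exact h.choose_spec
  rw [Finset.card_eq_sum_card_fiberwise (f := f) (t := (Irr ↥(G ⊓ S)).filter fun θ =>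
    Inq q ⊤ S θ ∧ centralValue red θ (fun x => z x) = c₀)]
  · push_cast
    refine Finset.sum_congr rfl fun θ hθ => ?_
    obtain ⟨h1, h2, h3⟩ := Finset.mem_filter.1 hθ
    rw [mem_Irr] at h1
    unfold nv
    rw [card_filter_eq]
    congr 2
    ext χ
    simp only [Finset.mem_filter, mem_Irr]
    constructor
    · rintro ⟨⟨a, b, c, d, e⟩, g⟩
      refine ⟨a, b, c, ?_⟩
      rw [← g]
      exact (hf χ e).2.2
    · rintro ⟨a, b, c, d⟩
      have he : ∃ θ : ↥(G ⊓ S) → ℂ, IsIrrChar θ ∧ Inq q ⊤ S θ ∧ Ov (G_le A hq) S χ θ :=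
        ⟨θ, h1, h2, d⟩
      refine ⟨⟨a, b, c, ?_, he⟩, ?_⟩
      · rw [cv_ov (A := A) red hq hz hz0 a h1 d, h3]
      · exact ov_uniq hq a (hf χ he).1 h1 (hf χ he).2.2 d
  · intro χ hχ
    obtain ⟨a, b, c, d, e⟩ := Finset.mem_filter.1 hχ
    obtain ⟨h1, h2, h3⟩ := hf χ e
    refine Finset.mem_coe.2 (Finset.mem_filter.2 ⟨mem_Irr.2 h1, h2, ?_⟩)
    rw [← cv_ov (A := A) red hq hz hz0 (mem_Irr.1 a) h1 h3, d]

section

variable (hq : q.ker = G) [Finite A] (hc : ∀ a b : A, a * b = b * a) {p k : ℕ}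
  [hp : Fact p.Prime] (hA : Nat.card A = p ^ k) {θ : ↥(G ⊓ S) → ℂ} (hθ : IsIrrChar θ)
  (hi : Inq q ⊤ S θ)
include hq hc hθ hi

omit hc hθ in
theorem fixes_q {s : E} (hs : s ∈ S) {χ : ↥(A.comap q ⊓ S) → ℂ} (μ : A →* ℂˣ)
    (hχ : Fixes s χ) : Fixes s (tw (phi q A S) μ χ) ↔
      tw (phi q A S) (μ.comp (MulAut.conjNormal (q s)).toMonoidHom) χ =
        tw (phi q A S) μ χ := by
  have h0 : ∀ x : ↥(A.comap q ⊓ S), phi q A S (al' hs x) =
      MulAut.conjNormal (q s) (phi q A S x) := by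
    intro x
    apply Subtype.ext
    rw [MulAut.conjNormal_apply]
    change q (s * x * s⁻¹) = q s * q x * (q s)⁻¹
    rw [map_mul, map_mul, map_inv]
  rw [fixes_al' hs] at hχ ⊢
  constructor
  · intro h
    funext x
    have h1 := h x
    change ((μ (phi q A S (al' hs x)) : ℂˣ) : ℂ) * χ (al' hs x) = _ at h1
    rw [h0, hχ] at h1
    exact h1
  · intro h x
    change ((μ (phi q A S (al' hs x)) : ℂˣ) : ℂ) * χ (al' hs x) = _
    rw [h0, hχ]
    exact congrFun h x

/-- twists of an invariant extension -/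
theorem inq_tw {χ : ↥(A.comap q ⊓ S) → ℂ} (hχ : IsIrrChar χ) (hr : rs (HK hq) χ = θ)
    (hv : Inq ((QuotientGroup.mk' A).comp q) ⊤ S χ) (μ : A →* ℂˣ) :
    Inq ((QuotientGroup.mk' A).comp q) ⊤ S (tw (phi q A S) μ χ) ↔ Iv A μ := by
  have _i : Fintype ↥(A.comap q ⊓ S) := Fintype.ofFinite _
  have hMn : (MM q A G S).Normal := M_normal A hq S
  have hMm := mem_M A hq S
  have hφ := phi_of_inq' (A := A) hi
  have hfix : ∀ s ∈ S, Fixes s χ := fun s hs => fix_all (ker_r hq) (isClass_of hχ) hv hs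
  have hr' : IsIrrChar (res (MM q A G S) χ) := by
    rw [res_irr_iff hq, hr]
    exact hθ
  have hinj := tw_inj' (M := MM q A G S) hMm hφ hc hχ hr'
  constructor
  · intro h u a a' ha
    obtain ⟨s, hs, hsu, -⟩ := hi u (Subgroup.mem_top _)
    have h1 := fix_all (ker_r hq) (isClass_of (tw_irr (phi q A S) μ hχ)) h hs
    rw [fixes_q hq hi hs μ (hfix s hs)] at h1
    have h2 := hinj h1
    have h3 := DFunLike.congr_fun h2 a
    have h4 : MulAut.conjNormal (q s) a = a' := by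
      apply Subtype.ext
      rw [MulAut.conjNormal_apply, hsu, ha]
    change μ (MulAut.conjNormal (q s) a) = μ a at h3
    rw [h4] at h3
    exact h3
  · intro h u _
    obtain ⟨v, rfl⟩ := QuotientGroup.mk'_surjective A u
    obtain ⟨s, hs, hsu, -⟩ := hi v (Subgroup.mem_top _)
    refine ⟨s, hs, by rw [MonoidHom.comp_apply, hsu], ?_⟩
    rw [fixes_q hq hi hs μ (hfix s hs)]
    congr 1
    ext a
    have h1 := h (q s) a (MulAut.conjNormal (q s) a) (by rw [MulAut.conjNormal_apply])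
    exact congrArg Units.val h1

theorem exists_ov : ∃ χ : ↥(A.comap q ⊓ S) → ℂ, IsIrrChar χ ∧ Ov (G_le A hq) S χ θ := by
  have _i : Fintype ↥(A.comap q ⊓ S) := Fintype.ofFinite _
  have hMn : (MM q A G S).Normal := M_normal A hq S
  obtain ⟨χ, h1, h2⟩ := over_exists (M := MM q A G S) (irr_comp (eM (A := A) hq) hθ)
  refine ⟨χ, h1, mult (MM q A G S) χ (fun m => θ (eM hq m)), (ov_res (A := A) hq).2 ?_⟩
  refine res_inv h1 (irr_comp (eM (A := A) hq) hθ) (fun x => ?_) h2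
  exact (cj_fix (A := A) hq θ x).2
    (fix_all hq (isClass_of hθ) hi (Subgroup.mem_inf.1 x.2).2)

/-- two characters over `θ` -/
theorem ov_trans {χ χ' : ↥(A.comap q ⊓ S) → ℂ} (hχ : IsIrrChar χ) (hχ' : IsIrrChar χ')
    (h : Ov (G_le A hq) S χ θ) (h' : Ov (G_le A hq) S χ' θ) :
    ∃ μ : A →* ℂˣ, tw (phi q A S) μ χ = χ' := by
  have _i : Fintype ↥(A.comap q ⊓ S) := Fintype.ofFinite _
  have hMn : (MM q A G S).Normal := M_normal A hq S
  obtain ⟨e, he⟩ := h
  obtain ⟨e', he'⟩ := h'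
  exact tw_trans (M := MM q A G S) (mem_M A hq S) (phi_of_inq' (A := A) hi) hc hχ hχ'
    (irr_comp (eM (A := A) hq) hθ) ((ov_res (A := A) hq).1 he) ((ov_res (A := A) hq).1 he')

/-- a character over `θ` which does not extend -/
theorem no_ext (hmin : Mn A) (hne : ¬ Ee (G_le A hq) S θ) {χ : ↥(A.comap q ⊓ S) → ℂ}
    (hχ : IsIrrChar χ) {e : ℕ} (he : rs (HK hq) χ = (e : ℂ) • θ) :
    e * e = Nat.card A ∧ ∀ χ' : ↥(A.comap q ⊓ S) → ℂ, IsIrrChar χ' → Ov (G_le A hq) S χ' θ →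
      χ' = χ := by
  have _i : Fintype ↥(A.comap q ⊓ S) := Fintype.ofFinite _
  have hMn : (MM q A G S).Normal := M_normal A hq S
  have hMm := mem_M A hq S
  have hφ := phi_of_inq' (A := A) hi
  have hθ' := irr_comp (eM (A := A) hq) hθ
  have he' := (ov_res (A := A) hq).1 he
  -- the group
  let C : Subgroup U :=
    { carrier := {a | ∃ h : a ∈ A, ∀ μ : A →* ℂˣ, tw (phi q A S) μ χ = χ → μ ⟨a, h⟩ = 1}
      one_mem' := ⟨A.one_mem, fun μ _ => map_one μ⟩
      mul_mem' := by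
        rintro a b ⟨ha, ha'⟩ ⟨hb, hb'⟩
        refine ⟨A.mul_mem ha hb, fun μ hμ => ?_⟩
        have h1 : (⟨a * b, A.mul_mem ha hb⟩ : A) = ⟨a, ha⟩ * ⟨b, hb⟩ := rfl
        rw [h1, map_mul, ha' μ hμ, hb' μ hμ, one_mul]
      inv_mem' := by
        rintro a ⟨ha, ha'⟩
        refine ⟨A.inv_mem ha, fun μ hμ => ?_⟩
        have h1 : (⟨a⁻¹, A.inv_mem ha⟩ : A) = ⟨a, ha⟩⁻¹ := rfl
        rw [h1, map_inv, ha' μ hμ, inv_one] }
  have hCA : C ≤ A := fun a ha => ha.1
  have hCn : C.Normal := by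
    refine ⟨fun a ha u => ?_⟩
    obtain ⟨haA, ha'⟩ := ha
    refine ⟨hAn.conj_mem a haA u, fun μ hμ => ?_⟩
    obtain ⟨s, hs, hsu, -⟩ := hi u (Subgroup.mem_top _)
    -- the conjugate of `χ`
    set χs : ↥(A.comap q ⊓ S) → ℂ := fun x => χ (al' hs x) with hχs
    have h1 : IsIrrChar χs := irr_comp (al' hs) hχ
    have hfx := fix_all hq (isClass_of hθ) hi hs
    have h2 : rs (HK hq) χs = (e : ℂ) • θ := by
      funext y
      have h3 := congrFun he ⟨s * y * s⁻¹, (G_conj hq hs (y : E)).1 y.2⟩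
      change χ (al' hs ⟨y, HK hq y.2⟩) = (e : ℂ) * θ y
      rw [← hfx y ⟨s * y * s⁻¹, (G_conj hq hs (y : E)).1 y.2⟩ rfl]
      exact h3
    obtain ⟨ν, hν⟩ := ov_trans hq hc hθ hi hχ h1 ⟨e, he⟩ ⟨e, h2⟩
    -- the conjugate of `μ`
    set μs : A →* ℂˣ := μ.comp (MulAut.conjNormal u).toMonoidHom with hμs
    have h0 : ∀ x : ↥(A.comap q ⊓ S), phi q A S (al' hs x) =
        MulAut.conjNormal u (phi q A S x) := by
      intro x
      apply Subtype.ext
      rw [MulAut.conjNormal_apply]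
      change q (s * x * s⁻¹) = u * q x * u⁻¹
      rw [map_mul, map_mul, map_inv, hsu]
    have h4 : tw (phi q A S) μs χ = χ := by
      have h5 : tw (phi q A S) μs χs = χs := by
        funext x
        have h6 := congrFun hμ (al' hs x)
        change ((μ (phi q A S (al' hs x)) : ℂˣ) : ℂ) * χ (al' hs x) = χ (al' hs x) at h6
        rw [h0] at h6
        exact h6
      rw [← hν] at h5
      have h7 : tw (phi q A S) ν (tw (phi q A S) μs χ) = tw (phi q A S) ν χ := by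
        rw [← h5]
        funext x
        change _ * (_ * χ x) = _ * (_ * χ x)
        ring
      funext x
      exact mul_left_cancel₀ (Units.ne_zero (ν (phi q A S x))) (congrFun h7 x)
    have h8 := ha' μs h4
    have h9 : MulAut.conjNormal u (⟨a, haA⟩ : A) = ⟨u * a * u⁻¹, hAn.conj_mem a haA u⟩ := by
      apply Subtype.ext
      rw [MulAut.conjNormal_apply]
    rw [← h9]
    exact h8
  rcases hmin.2 C hCn hCA with hC | hC
  · obtain ⟨h1, h2⟩ := van_of_st (M := MM q A G S) hMm hφ hc hχ hθ' he' (by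
      intro a ha
      by_contra hcon
      push Not at hcon
      apply ha
      have h3 : (a : U) ∈ C := ⟨a.2, fun μ hμ => hcon μ hμ⟩
      rw [hC, Subgroup.mem_bot] at h3
      exact Subtype.ext h3)
    refine ⟨h1, fun χ' h3 h4 => ?_⟩
    obtain ⟨e', h5⟩ := h4
    exact h2 χ' h3 e' ((ov_res (A := A) hq).1 h5)
  · exfalso
    apply hne
    refine ⟨χ, hχ, ?_⟩
    have h1 := ext_of_st (M := MM q A G S) hMm hφ hc hχ hθ' he' (by
      intro μ hμ
      ext a
      have h3 : (a : U) ∈ C := by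
        rw [hC]
        exact a.2
      obtain ⟨h4, h5⟩ := h3
      rw [h5 μ hμ]
      rfl)
    funext y
    have h7 := congrFun h1 ((eM (A := A) (S := S) hq).symm y)
    rw [res_eM hq] at h7
    change rs (HK hq) χ (eM hq ((eM hq).symm y)) = θ (eM hq ((eM hq).symm y)) at h7
    rwa [MulEquiv.apply_symm_apply] at h7

include hA in
/-- **the number of the invariant characters over `θ`** -/
theorem nv_eq (hmin : Mn A) {d : ℕ} (hd : Dft p d θ) (D : ℕ) :
    nv p (G_le A hq) S θ D =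
      if Ei (G_le A hq) S θ then (if D = d + k then Nat.card {μ : A →* ℂˣ // Iv A μ} else 0)
      else if Ee (G_le A hq) S θ then 0 else if 2 * D = 2 * d + k then 1 else 0 := by
  have _i : Fintype ↥(A.comap q ⊓ S) := Fintype.ofFinite _
  have hMn : (MM q A G S).Normal := M_normal A hq S
  have hMm := mem_M A hq S
  have hφ := phi_of_inq' (A := A) hi
  have hfac : (Nat.card ↥(A.comap q ⊓ S)).factorization p =
      (Nat.card ↥(G ⊓ S)).factorization p + k := by
    rw [card_K' hq hφ p, hA, hp.out.factorization_pow, Finsupp.single_eq_same]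
  -- defects of extensions
  have hext : ∀ χ : ↥(A.comap q ⊓ S) → ℂ, rs (HK hq) χ = θ → (Dft p D χ ↔ D = d + k) := by
    intro χ hr
    obtain ⟨n, hn, hn'⟩ := hd
    have h1 : χ 1 = n := by
      rw [← hn]
      exact congrFun hr 1
    unfold Dft
    rw [hfac]
    constructor
    · rintro ⟨m, h2, h3⟩
      have h4 : m = n := by
        rw [h1] at h2
        exact_mod_cast h2.symm
      rw [h4] at h3
      omega
    · intro h2
      exact ⟨n, h1, by omega⟩
  unfold nv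
  by_cases hEi : Ei (G_le A hq) S θ
  · rw [if_pos hEi]
    obtain ⟨χ₀, h1, h2, h3⟩ := hEi
    have hr' : IsIrrChar (res (MM q A G S) χ₀) := by
      rw [res_irr_iff hq]
      have : rs (HK hq) χ₀ = θ := h2
      rw [this]
      exact hθ
    by_cases hD : D = d + k
    · rw [if_pos hD]
      symm
      refine Nat.card_congr (Equiv.ofBijective (fun μ : {μ : A →* ℂˣ // Iv A μ} =>
        (⟨tw (phi q A S) μ.1 χ₀, tw_irr _ _ h1, (hext _ (by rw [rs_tw hq]; exact h2)).2 hD,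
          (inq_tw hq hc hθ hi h1 h2 h3 μ.1).2 μ.2, ov_one hq (by rw [rs_tw hq]; exact h2)⟩ :
          {χ : ↥(A.comap q ⊓ S) → ℂ // IsIrrChar χ ∧ (Dft p D χ ∧
            Inq ((QuotientGroup.mk' A).comp q) ⊤ S χ ∧ Ov (G_le A hq) S χ θ)})) ⟨?_, ?_⟩)
      · intro μ ν h
        exact Subtype.ext (tw_inj' (M := MM q A G S) hMm hφ hc h1 hr' (congrArg Subtype.val h))
      · rintro ⟨χ, k1, k2, k3, k4⟩
        obtain ⟨μ, hμ⟩ := ov_trans hq hc hθ hi h1 k1 (ov_one hq h2) k4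
        subst hμ
        exact ⟨⟨μ, (inq_tw hq hc hθ hi h1 h2 h3 μ).1 k3⟩, rfl⟩
    · rw [if_neg hD]
      have : IsEmpty {χ : ↥(A.comap q ⊓ S) → ℂ // IsIrrChar χ ∧ (Dft p D χ ∧
            Inq ((QuotientGroup.mk' A).comp q) ⊤ S χ ∧ Ov (G_le A hq) S χ θ)} := by
        refine ⟨?_⟩
        rintro ⟨χ, k1, k2, k3, k4⟩
        obtain ⟨μ, hμ⟩ := ov_trans hq hc hθ hi h1 k1 (ov_one hq h2) k4
        subst hμ
        exact hD ((hext _ (by rw [rs_tw hq]; exact h2)).1 k2)
      exact Nat.card_of_isEmpty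
  · rw [if_neg hEi]
    by_cases hEe : Ee (G_le A hq) S θ
    · rw [if_pos hEe]
      obtain ⟨χ₀, h1, h2⟩ := hEe
      have : IsEmpty {χ : ↥(A.comap q ⊓ S) → ℂ // IsIrrChar χ ∧ (Dft p D χ ∧
            Inq ((QuotientGroup.mk' A).comp q) ⊤ S χ ∧ Ov (G_le A hq) S χ θ)} := by
        refine ⟨?_⟩
        rintro ⟨χ, k1, k2, k3, k4⟩
        obtain ⟨μ, hμ⟩ := ov_trans hq hc hθ hi h1 k1 (ov_one hq h2) k4
        apply hEi
        refine ⟨χ, k1, ?_, k3⟩
        rw [← hμ]
        have h4 : rs (HK hq) χ₀ = θ := h2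
        rw [← h4]
        exact rs_tw hq μ χ₀
      exact Nat.card_of_isEmpty
    · rw [if_neg hEe]
      obtain ⟨χ₀, h1, e, he⟩ := exists_ov hq hc hθ hi
      obtain ⟨h2, h3⟩ := no_ext hq hc hθ hi hmin hEe h1 he
      -- invariance
      have h4 : Inq ((QuotientGroup.mk' A).comp q) ⊤ S χ₀ := by
        intro u _
        obtain ⟨v, rfl⟩ := QuotientGroup.mk'_surjective A u
        obtain ⟨s, hs, hsv, -⟩ := hi v (Subgroup.mem_top _)
        refine ⟨s, hs, by rw [MonoidHom.comp_apply, hsv], (fixes_al' hs χ₀).2 ?_⟩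
        have hfx := fix_all hq (isClass_of hθ) hi hs
        have h5 := h3 (fun x => χ₀ (al' hs x)) (irr_comp (al' hs) h1) ⟨e, by
          funext y
          have h6 := congrFun he ⟨s * y * s⁻¹, (G_conj hq hs (y : E)).1 y.2⟩
          change χ₀ (al' hs ⟨y, HK hq y.2⟩) = (e : ℂ) * θ y
          rw [← hfx y ⟨s * y * s⁻¹, (G_conj hq hs (y : E)).1 y.2⟩ rfl]
          exact h6⟩
        exact fun x => congrFun h5 x
      have he0 : e ≠ 0 := mul_ne h1 ((ov_res (A := A) hq).1 he)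
      have hek : 2 * e.factorization p = k := by
        have h5 : (e * e).factorization p = (Nat.card A).factorization p := by rw [h2]
        rw [Nat.factorization_mul he0 he0, Finsupp.add_apply, hA, hp.out.factorization_pow,
          Finsupp.single_eq_same] at h5
        omega
      have hD : Dft p D χ₀ ↔ 2 * D = 2 * d + k := by
        obtain ⟨n, hn, hn'⟩ := hd
        have hn0 : n ≠ 0 := by
          rintro rfl
          rw [Nat.cast_zero] at hn
          exact irr_one_ne' hθ hn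
        have k1 : χ₀ 1 = ((e * n : ℕ) : ℂ) := by
          push_cast
          rw [← hn]
          exact congrFun he 1
        unfold Dft
        rw [hfac]
        constructor
        · rintro ⟨m, k2, k3⟩
          have k4 : m = e * n := by
            rw [k1] at k2
            exact_mod_cast k2.symm
          rw [k4, Nat.factorization_mul he0 hn0, Finsupp.add_apply] at k3
          omega
        · intro k2
          refine ⟨e * n, k1, ?_⟩
          rw [Nat.factorization_mul he0 hn0, Finsupp.add_apply]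
          omega
      by_cases h2D : 2 * D = 2 * d + k
      · rw [if_pos h2D, Nat.card_eq_one_iff_unique]
        refine ⟨⟨?_⟩, ⟨⟨χ₀, h1, hD.2 h2D, h4, e, he⟩⟩⟩
        rintro ⟨χ, k1, k2, k3, k4⟩ ⟨χ', k1', k2', k3', k4'⟩
        exact Subtype.ext ((h3 χ k1 k4).trans (h3 χ' k1' k4').symm)
      · rw [if_neg h2D]
        have : IsEmpty {χ : ↥(A.comap q ⊓ S) → ℂ // IsIrrChar χ ∧ (Dft p D χ ∧
              Inq ((QuotientGroup.mk' A).comp q) ⊤ S χ ∧ Ov (G_le A hq) S χ θ)} := by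
          refine ⟨?_⟩
          rintro ⟨χ, k1, k2, k3, k4⟩
          rw [h3 χ k1 k4] at k2
          exact h2D (hD.1 k2)
        exact Nat.card_of_isEmpty

end

end Run7.h759.DI
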