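import Pool.Agent.N237.DI.Fib

/-!
# Signed sums over the chains of `p`-subgroups of a normal subgroup (helper759)
-/

set_option autoImplicit false
set_option linter.unusedSectionVars false

open scoped Classical

noncomputable section

namespace Run7.h759.DI

open Pool.Agent.Y63.KR (IsPChain chainStabilizer conjSub conjSub_eq_iff mem_chainStabilizer
  mem_conjSub conjSub_le conj_mem_conjSub)
open Pool.Agent.R674.Tw (GCh NG Fixes invSum card_mul_inv)
open Pool.Agent.R674.Ce (chs wt Sp)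
open Pool.Agent.N237.DI (Iso2 cg cg_prod sum_eq_cg)

section one

variable {E : Type} [Group E]

/-- the signed sum over the chains of nontrivial `p`-subgroups of `G` -/
def al (p : ℕ) (G : Subgroup E) (w : Subgroup E → ℤ) : ℤ :=
  ∑ᶠ σ : GCh p G, (-1) ^ σ.1.ncard * w (chainStabilizer σ.1)

variable {p : ℕ} {G : Subgroup E}

theorem al_congr {w w' : Subgroup E → ℤ} (h : ∀ σ : Set (Subgroup E), IsPChain p σ →
    (∀ P ∈ σ, P ≤ G) → w (chainStabilizer σ) = w' (chainStabilizer σ)) :
    al p G w = al p G w' :=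
  finsum_congr fun σ => by rw [h σ.1 σ.2.1 σ.2.2]

theorem al_zero {w : Subgroup E → ℤ} (h : ∀ σ : Set (Subgroup E), IsPChain p σ →
    (∀ P ∈ σ, P ≤ G) → w (chainStabilizer σ) = 0) : al p G w = 0 := by
  unfold al
  rw [finsum_congr fun σ : GCh p G => by rw [h σ.1 σ.2.1 σ.2.2, mul_zero]]
  exact finsum_zero

variable [Finite E]

theorem al_fin [Fintype (GCh p G)] (w : Subgroup E → ℤ) :
    al p G w = ∑ σ : GCh p G, (-1) ^ σ.1.ncard * w (chainStabilizer σ.1) :=
  finsum_eq_sum_of_fintype _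

theorem al_mul (c : ℤ) (w : Subgroup E → ℤ) : al p G (fun S => c * w S) = c * al p G w := by
  have _i : Fintype (GCh p G) := Fintype.ofFinite _
  rw [al_fin, al_fin, Finset.mul_sum]
  exact Finset.sum_congr rfl fun σ _ => by ring

theorem al_add (w w' : Subgroup E → ℤ) :
    al p G (fun S => w S + w' S) = al p G w + al p G w' := by
  have _i : Fintype (GCh p G) := Fintype.ofFinite _
  rw [al_fin, al_fin, al_fin, ← Finset.sum_add_distrib]
  exact Finset.sum_congr rfl fun σ _ => by ring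

theorem al_sub (w w' : Subgroup E → ℤ) :
    al p G (fun S => w S - w' S) = al p G w - al p G w' := by
  have _i : Fintype (GCh p G) := Fintype.ofFinite _
  rw [al_fin, al_fin, al_fin, ← Finset.sum_sub_distrib]
  exact Finset.sum_congr rfl fun σ _ => by ring

theorem al_sum {ι : Type*} (I : Finset ι) (w : ι → Subgroup E → ℤ) :
    al p G (fun S => ∑ i ∈ I, w i S) = ∑ i ∈ I, al p G (w i) := by
  have _i : Fintype (GCh p G) := Fintype.ofFinite _
  rw [al_fin]
  simp_rw [al_fin, Finset.mul_sum]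
  exact Finset.sum_comm

theorem al_chs (w : Subgroup E → ℤ) : al p G w = chs (Sp p G) (wt ⊤ w) := by
  rw [Pool.Agent.N20.DI.gch_chs]
  refine finsum_congr fun σ => ?_
  unfold wt
  rw [top_inf_eq]

theorem al_cg [Fintype (Subgroup E)] (w : Subgroup E → ℤ) : al p G w = cg p G w := by
  have _i : Fintype (GCh p G) := Fintype.ofFinite _
  rw [al_fin]
  exact sum_eq_cg G w

/-- the sum over classes of chains as a weighted sum over all chains -/
theorem al_inv (f : Subgroup E → ℤ) (hf : ∀ g ∈ G, ∀ σ : Set (Subgroup E),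
    f (chainStabilizer (conjSub g '' σ)) = f (chainStabilizer σ)) :
    (Nat.card G : ℤ) * invSum p G (fun σ => f (chainStabilizer σ)) =
      al p G (fun S => (Nat.card ↥(G ⊓ S) : ℤ) * f S) := by
  have _i : Fintype (GCh p G) := Fintype.ofFinite _
  rw [al_fin]
  exact card_mul_inv (p := p) G (fun σ => f (chainStabilizer σ)) (fun g hg σ => hf g hg σ)

/-- the sums vanish in the presence of a normal `p`-subgroup -/
theorem al_normal {Q : Subgroup E} [Q.Normal] (hQ : IsPGroup p Q) (hQ0 : Q ≠ ⊥) (hQG : Q ≤ G)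
    (w : Subgroup E → ℤ) : al p G w = 0 := by
  rw [al_chs]
  have e1 := Pool.Agent.R674.Ce.chs_sub' (J := ⊤) w (Sp p G) (fun P => Q ⊔ P)
    (by
      rintro P ⟨hP, hP1, hPG⟩
      refine ⟨?_, ?_, sup_le hQG hPG⟩
      · exact IsPGroup.to_sup_of_normal_left hQ hP
      · intro h
        exact hQ0 (eq_bot_iff.2 (le_sup_left.trans h.le)))
    (fun P _ => by
      change Q ⊔ (Q ⊔ P) = Q ⊔ P
      rw [← sup_assoc, sup_idem])
    (fun P _ P' _ h => sup_le_sup_left h _)
    (fun P _ => le_sup_right)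
    (fun P _ x _ h => by
      rw [Pool.Agent.R674.Ce.conjSub_sup, h, Pool.Agent.R674.Ce.conjSub_normal])
  rw [e1]
  have e2 := Pool.Agent.R674.Ce.chs_sub (J := ⊤) w {a | a ∈ Sp p G ∧ (fun P => Q ⊔ P) a = a}
    (fun _ => Q)
    (by
      rintro P -
      exact ⟨⟨hQ, hQ0, hQG⟩, sup_idem Q⟩)
    (fun _ _ => rfl) (fun _ _ _ _ _ => le_rfl)
    (fun P hP => by
      have h : Q ⊔ P = P := hP.2
      rw [← h]
      exact le_sup_left)
    (fun P _ x _ _ => Pool.Agent.R674.Ce.conjSub_normal x Q)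
  rw [e2]
  have s : {a | a ∈ {a | a ∈ Sp p G ∧ (fun P => Q ⊔ P) a = a} ∧ (fun _ => Q) a = a} =
      ({Q} : Set (Subgroup E)) := by
    ext P
    constructor
    · rintro ⟨-, h⟩
      exact h.symm
    · rintro rfl
      exact ⟨⟨⟨hQ, hQ0, hQG⟩, sup_idem _⟩, rfl⟩
  rw [s]
  have _i : Fintype (Set (Subgroup E)) := Fintype.ofFinite _
  rw [Pool.Agent.R674.Ce.chs_eq]
  have s2 : ((Finset.univ : Finset (Set (Subgroup E))).filter
      (fun σ => σ ⊆ ({Q} : Set (Subgroup E)) ∧ IsChain (· ≤ ·) σ)) = {∅, {Q}} := by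
    ext σ
    simp only [Finset.mem_filter, Finset.mem_univ, true_and, Finset.mem_insert,
      Finset.mem_singleton]
    constructor
    · rintro ⟨h, -⟩
      exact Set.subset_singleton_iff_eq.1 h
    · rintro (rfl | rfl)
      · exact ⟨Set.empty_subset _, fun _ h => absurd h (Set.notMem_empty _)⟩
      · refine ⟨le_rfl, ?_⟩
        rintro _ rfl _ rfl h
        exact absurd rfl h
  rw [s2, Finset.sum_pair (Set.singleton_ne_empty Q).symm]
  unfold wt
  have e3 : chainStabilizer ({Q} : Set (Subgroup E)) = chainStabilizer ∅ := by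
    ext x
    rw [mem_chainStabilizer, mem_chainStabilizer]
    constructor
    · intro _ P hP
      exact absurd hP (Set.notMem_empty _)
    · rintro - P rfl
      exact Pool.Agent.R674.Ce.conjSub_normal x P
  rw [e3, Set.ncard_empty, Set.ncard_singleton]
  ring

end one

section prod

variable {Γ E₁ E₂ : Type} [Group Γ] [Group E₁] [Group E₂] [Finite Γ] [Finite E₁] [Finite E₂]

/-- **signed sums for direct products** -/
theorem al_prod {p : ℕ} [Fact p.Prime] {π : Γ →* E₁ × E₂} {G : Subgroup Γ} [G.Normal]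
    {G₁ : Subgroup E₁} {G₂ : Subgroup E₂} (hs : Iso2 π G G₁ G₂) {ι : Type} (I : Finset ι)
    (f : Subgroup Γ → ℤ) (a : ι → Subgroup E₁ → ℤ) (b : ι → Subgroup E₂ → ℤ)
    (h : ∀ (H : Subgroup E₁) (K : Subgroup E₂), f ((H.prod K).comap π) = ∑ i ∈ I, a i H * b i K) :
    al p G f = ∑ i ∈ I, al p G₁ (a i) * al p G₂ (b i) := by
  let _ : Fintype (Subgroup E₁) := Fintype.ofFinite _
  let _ : Fintype (Subgroup E₂) := Fintype.ofFinite _
  let _ : Fintype (Subgroup Γ) := Fintype.ofFinite _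
  simp_rw [al_cg]
  rw [cg_prod hs]
  simp_rw [h, cg, Finset.sum_mul_sum, Finset.mul_sum]
  have e6 : ∀ σ : Finset (Subgroup E₁),
      ∑ τ ∈ Pool.Agent.Q99.AS.Ch ((Pool.Agent.N237.DI.SN p G₂ ⊥).erase ⊥), ∑ i ∈ I,
        (-1 : ℤ) ^ σ.card * ((-1) ^ τ.card * (a i (chainStabilizer (σ : Set (Subgroup E₁))) *
          b i (chainStabilizer (τ : Set (Subgroup E₂))))) =
      ∑ i ∈ I, ∑ τ ∈ Pool.Agent.Q99.AS.Ch ((Pool.Agent.N237.DI.SN p G₂ ⊥).erase ⊥),
        (-1 : ℤ) ^ σ.card * ((-1) ^ τ.card * (a i (chainStabilizer (σ : Set (Subgroup E₁))) *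
          b i (chainStabilizer (τ : Set (Subgroup E₂))))) := fun σ => Finset.sum_comm
  simp_rw [e6]
  rw [Finset.sum_comm]
  refine Finset.sum_congr rfl fun i _ => Finset.sum_congr rfl fun σ _ =>
    Finset.sum_congr rfl fun τ _ => by ring

end prod

end Run7.h759.DI
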