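import Pool.Agent.Run7.h759.DI.TG6

/-!
# Embeddings in alternating groups (helper759)
-/

set_option autoImplicit false
set_option linter.unusedSectionVars false

open scoped Classical BigOperators

noncomputable section

namespace Run7.h759.DI

open Equiv Equiv.Perm

/-- the diagonal embedding of permutations is even -/
theorem exists_alt (V : Type) [Group V] [Finite V] {n : ℕ} (hn : 2 * Nat.card V ≤ n) :
    ∃ f : V →* alternatingGroup (Fin n), Function.Injective f := by
  have _i : Fintype V := Fintype.ofFinite V
  have hc : Fintype.card (V ⊕ V) ≤ Fintype.card (Fin n) := by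
    rw [Fintype.card_sum, Fintype.card_fin, ← Nat.card_eq_fintype_card]
    omega
  obtain ⟨g⟩ := Function.Embedding.nonempty_of_card_le hc
  let e : (V ⊕ V) ≃ {b : Fin n // b ∈ Set.range g} := Equiv.ofInjective g g.injective
  let f1 : V →* Perm V := MulAction.toPermHom V V
  let f2 : V →* Perm (V ⊕ V) := (Perm.sumCongrHom V V).comp (f1.prod f1)
  let f3 : V →* Perm (Fin n) := (Perm.extendDomainHom e).comp f2
  have h3 : Function.Injective f3 := by
    refine (Perm.extendDomainHom_injective e).comp ?_
    refine Perm.sumCongrHom_injective.comp ?_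
    intro a b h
    exact MulAction.toPerm_injective (congrArg Prod.fst h)
  have h4 : ∀ v, f3 v ∈ alternatingGroup (Fin n) := by
    intro v
    rw [mem_alternatingGroup]
    change sign ((Perm.sumCongr (f1 v) (f1 v)).extendDomain e) = 1
    rw [sign_extendDomain, sign_sumCongr]
    exact Int.units_mul_self _
  refine ⟨f3.codRestrict _ h4, ?_⟩
  intro a b h
  exact h3 (congrArg Subtype.val h)

theorem alt_perfect {n : ℕ} (hn : 5 ≤ n) : commutator (alternatingGroup (Fin n)) = ⊤ :=
  commutator_alternatingGroup_eq_top (by rw [Nat.card_fin]; exact hn)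

variable {p : ℕ} [hp : Fact p.Prime] {F : Type} [Field F] [IsAlgClosed F] [CharP F p]
  (red : integralClosure ℤ ℂ →+* F)

/-- **alternating quotients suffice** -/
theorem ok_alt {N : Set ℕ} (hN : N.Infinite)
    (h : ∀ n ∈ N, Ok p red (alternatingGroup (Fin n))) (V : Type) [Group V] [Finite V] :
    Ok p red V := by
  obtain ⟨n, hnN, hn⟩ := hN.exists_gt (2 * Nat.card V)
  obtain ⟨f, hf⟩ := exists_alt V hn.le
  exact ok_iso (MonoidHom.ofInjective hf).symm (ok_subgroup red f.range (h n hnN))

end Run7.h759.DI
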