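import Pool.Agent.Run7.h759.DI.Cl

/-!
# Clifford theory: automorphisms (helper759)
-/

set_option autoImplicit false
set_option linter.unusedSectionVars false

open scoped Classical BigOperators

noncomputable section

namespace Run7.h759.DI

open Pool.Agent.Helper884.IC (IsIrrChar Irr mem_Irr B B_irr IsClass cardG_ne irr_finite B_sum_left
  B_smul_left B_comm)
open Pool.Agent.Y63.AWC (res mult mult_spec res_eq cj St Orb clifford St_eq card_Orb_mul
  support_eq deg_eq mult_exists unique_over mem_Orb_of_mult sum_M one_ne mem_St irr_comp)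
open Pool.Agent.Y564.NV (orb_t st_cases)

variable {X : Type} [Group X] [Fintype X] {M : Subgroup X} [hMn : M.Normal]

/-- the restriction of an automorphism to `M` -/
def rsAut (α : X ≃* X) (hα : ∀ x, x ∈ M ↔ α x ∈ M) : M ≃* M where
  toFun m := ⟨α m, (hα m).1 m.2⟩
  invFun m := ⟨α.symm m, (hα _).2 (by rw [α.apply_symm_apply]; exact m.2)⟩
  left_inv m := Subtype.ext (α.symm_apply_apply m)
  right_inv m := Subtype.ext (α.apply_symm_apply m)
  map_mul' a b := Subtype.ext (map_mul α _ _)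

theorem mult_aut (α : X ≃* X) (hα : ∀ x, x ∈ M ↔ α x ∈ M) {χ : X → ℂ} (hχ : IsIrrChar χ)
    {θ : M → ℂ} (hθ : IsIrrChar θ) :
    mult M (fun x => χ (α x)) (fun m => θ (rsAut α hα m)) = mult M χ θ := by
  have h1 := mult_spec M (irr_comp α hχ) (irr_comp (rsAut α hα) hθ)
  have h2 := mult_spec M hχ hθ
  have h3 : B (res M (fun x => χ (α x))) (fun m => θ (rsAut α hα m)) = B (res M χ) θ := by
    unfold B
    congr 1
    refine Fintype.sum_equiv (rsAut α hα).toEquiv _ _ fun m => ?_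
    change χ (α m) * θ (rsAut α hα m⁻¹) = χ (α m) * θ ((rsAut α hα m)⁻¹)
    rw [map_inv]
  rw [h1, h2] at h3
  exact_mod_cast h3

theorem fix_up (α : X ≃* X) (hα : ∀ x, x ∈ M ↔ α x ∈ M) {χ : X → ℂ} (hχ : IsIrrChar χ)
    {θ : M → ℂ} (hθ : IsIrrChar θ) (hm : mult M χ θ ≠ 0) (hst : Nat.card (St M θ) = Nat.card M)
    (hf : ∀ m, θ (rsAut α hα m) = θ m) : ∀ x, χ (α x) = χ x := by
  have h1 := mult_aut α hα hχ hθ
  have h2 : (fun m => θ (rsAut α hα m)) = θ := funext hf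
  rw [h2] at h1
  have h3 := (unique_over M hθ hst).1
  rw [Finset.card_eq_one] at h3
  obtain ⟨t, ht⟩ := h3
  have h4 : χ ∈ ({t} : Finset (X → ℂ)) := by
    rw [← ht]
    exact Finset.mem_filter.2 ⟨mem_Irr.2 hχ, hm⟩
  have h5 : (fun x => χ (α x)) ∈ ({t} : Finset (X → ℂ)) := by
    rw [← ht]
    exact Finset.mem_filter.2 ⟨mem_Irr.2 (irr_comp α hχ), by rw [h1]; exact hm⟩
  have h6 : (fun x => χ (α x)) = χ :=
    (Finset.mem_singleton.1 h5).trans (Finset.mem_singleton.1 h4).symm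
  exact fun x => congrFun h6 x

theorem fix_down (α : X ≃* X) (hα : ∀ x, x ∈ M ↔ α x ∈ M) {χ : X → ℂ} (hχ : IsIrrChar χ)
    {θ : M → ℂ} (hθ : IsIrrChar θ) (hm : mult M χ θ ≠ 0) (hf : ∀ x, χ (α x) = χ x) :
    ∃ x : X, ∀ m, θ (rsAut α hα m) = cj M x θ m := by
  have h1 := mult_aut α hα hχ hθ
  have h2 : (fun x => χ (α x)) = χ := funext hf
  rw [h2] at h1
  have h3 := mem_Orb_of_mult M hχ hθ (irr_comp (rsAut α hα) hθ) hm (by rw [h1]; exact hm)
  obtain ⟨x, -, hx⟩ := Finset.mem_image.1 h3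
  exact ⟨x, fun m => (congrFun hx m).symm⟩

end Run7.h759.DI
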