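import Pool.Agent.Run7.h759.DI.Al
import Pool.Agent.Run7.h759.DI.Cl2

/-!
# Counting characters of the stabilisers (helper759)
-/

set_option autoImplicit false
set_option linter.unusedSectionVars false

open scoped Classical BigOperators

noncomputable section

namespace Run7.h759.DI

open Pool.Agent.Y63.NV (IsClassFun centralValue)
open Pool.Agent.Helper884.IC (IsIrrChar Irr mem_Irr B B_irr IsClass cardG_ne irr_finite)
open Pool.Agent.Y63.AWC (res mult mult_spec cj St Orb mem_St irr_comp)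
open Pool.Agent.R674.Tw (Fixes)
open Pool.Agent.Q99.AS (Dft Dft_congr Dft_unique Dft_exists)
open Pool.Agent.Q90.WR (card_transport card_filter_eq irr_comp_iff)

section defs

variable {F : Type} [Field F] {E U : Type} [Group E] [Group U]

/-- every element of `V` is the image of an element of `S` which fixes `χ` -/
def Inq (q : E →* U) (V : Subgroup U) (S : Subgroup E) {K : Subgroup E} (χ : K → ℂ) : Prop :=
  ∀ u ∈ V, ∃ e ∈ S, q e = u ∧ Fixes e χ

/-- the number of the irreducible characters of `K` of defect `D`, with inertial group `≥ V` and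
with the value `c₀` of the central character at `z` -/
def xk (p : ℕ) (red : integralClosure ℤ ℂ →+* F) (q : E →* U) (V : Subgroup U) (z : E → F) (c₀ : F)
    (D : ℕ) (S K : Subgroup E) : ℤ :=
  (Nat.card {χ : K → ℂ // IsIrrChar χ ∧ (Dft p D χ ∧ Inq q V S χ ∧
    centralValue red χ (fun x => z x) = c₀)} : ℤ)

/-- the number of the irreducible characters of `G ∩ S` of defect `D` with inertial group `≥ V` -/
def xc (p : ℕ) (red : integralClosure ℤ ℂ →+* F) (G : Subgroup E) (q : E →* U) (V : Subgroup U)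
    (z : E → F) (c₀ : F) (D : ℕ) (S : Subgroup E) : ℤ :=
  xk p red q V z c₀ D S (G ⊓ S)

/-- restriction -/
def rs {H K : Subgroup E} (h : H ≤ K) (χ : K → ℂ) : H → ℂ := fun x => χ ⟨x, h x.2⟩

/-- the elements of `S` move `χ` by the linear characters `c` -/
def Coc (q : E →* U) (A : Subgroup U) (c : U → A →* ℂˣ) (S : Subgroup E)
    (χ : ↥(A.comap q ⊓ S) → ℂ) : Prop :=
  ∀ u, ∃ e ∈ S, q e = u ∧ ∀ n n' : ↥(A.comap q ⊓ S), (n' : E) = e * n * e⁻¹ →
    χ n' = ((c u ⟨q n, (Subgroup.mem_inf.1 n.2).1⟩ : ℂˣ) : ℂ) * χ n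

variable {G : Subgroup E}

/-- the number of the irreducible characters of `N ∩ S` whose restriction to `G ∩ S` is irreducible
of defect `D` and which are moved by `c` -/
def yc (p : ℕ) (red : integralClosure ℤ ℂ →+* F) {q : E →* U} {A : Subgroup U}
    (hG : G ≤ A.comap q) (c : U → A →* ℂˣ) (z : E → F) (c₀ : F) (D : ℕ) (S : Subgroup E) : ℤ :=
  (Nat.card {χ : ↥(A.comap q ⊓ S) → ℂ // IsIrrChar χ ∧
    (IsIrrChar (rs (inf_le_inf_right S hG) χ) ∧ Dft p D (rs (inf_le_inf_right S hG) χ) ∧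
      Coc q A c S χ ∧ centralValue red (rs (inf_le_inf_right S hG) χ) (fun x => z x) = c₀)} : ℤ)

/-- the inertial group is a complement of `A` -/
def Pc (q : E →* U) (A : Subgroup U) [A.Normal] (S : Subgroup E) {K : Subgroup E} (χ : K → ℂ) :
    Prop :=
  Inq ((QuotientGroup.mk' A).comp q) ⊤ S χ ∧ ∀ e ∈ S, Fixes e χ → q e ∈ A → q e = 1

/-- the number of the irreducible characters of `K` whose inertial group is a complement -/
def pk (p : ℕ) (red : integralClosure ℤ ℂ →+* F) (q : E →* U) (A : Subgroup U) [A.Normal]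
    (z : E → F) (c₀ : F) (D : ℕ) (S K : Subgroup E) : ℤ :=
  (Nat.card {χ : K → ℂ // IsIrrChar χ ∧ (Dft p D χ ∧ Pc q A S χ ∧
    centralValue red χ (fun x => z x) = c₀)} : ℤ)

end defs

section loc

variable {E U : Type} [Group E] [Group U] (q : E →* U) (A : Subgroup U)

/-- the map of `N ∩ S` to `A` -/
def phi (S : Subgroup E) : ↥(A.comap q ⊓ S) →* A where
  toFun x := ⟨q x, (Subgroup.mem_inf.1 x.2).1⟩
  map_one' := Subtype.ext (map_one q)
  map_mul' a b := Subtype.ext (map_mul q _ _)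

theorem phi_coe (S : Subgroup E) (x : ↥(A.comap q ⊓ S)) : ((phi q A S x : A) : U) = q x := rfl

variable {q} {G : Subgroup E} (hq : q.ker = G)
include hq

theorem mem_G {x : E} : x ∈ G ↔ q x = 1 := by
  rw [← hq, MonoidHom.mem_ker]

theorem G_normal : G.Normal := by
  rw [← hq]
  infer_instance

theorem G_le : G ≤ A.comap q := by
  intro x hx
  rw [Subgroup.mem_comap, (mem_G hq).1 hx]
  exact one_mem _

theorem mem_M (S : Subgroup E) (x : ↥(A.comap q ⊓ S)) :
    x ∈ (G ⊓ S).subgroupOf (A.comap q ⊓ S) ↔ phi q A S x = 1 := by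
  rw [Subgroup.mem_subgroupOf, Subgroup.mem_inf, mem_G hq]
  constructor
  · rintro ⟨h, -⟩
    exact Subtype.ext h
  · intro h
    exact ⟨congrArg Subtype.val h, (Subgroup.mem_inf.1 x.2).2⟩

theorem M_normal (S : Subgroup E) : ((G ⊓ S).subgroupOf (A.comap q ⊓ S)).Normal := by
  refine ⟨fun x hx g => ?_⟩
  rw [mem_M A hq] at hx ⊢
  rw [map_mul, map_mul, hx, mul_one, map_inv, mul_inv_cancel]

omit hq in
theorem phi_surj {ℓ : ℕ} (hl : ℓ.Prime) (hA : Nat.card A = ℓ) {S : Subgroup E} {s : E} (hs : s ∈ S)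
    (h1 : q s ∈ A) (h2 : q s ≠ 1) : Function.Surjective (phi q A S) := by
  rw [← MonoidHom.range_eq_top]
  have h4 : (phi q A S).range ≠ ⊥ := by
    intro h5
    apply h2
    have h6 : phi q A S ⟨s, Subgroup.mem_inf.2 ⟨h1, hs⟩⟩ ∈ (phi q A S).range := ⟨_, rfl⟩
    rw [h5, Subgroup.mem_bot] at h6
    exact congrArg Subtype.val h6
  have hfin : Finite A := by
    apply Nat.finite_of_card_ne_zero
    rw [hA]
    exact hl.ne_zero
  have hd := Subgroup.card_subgroup_dvd_card (phi q A S).range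
  rw [hA] at hd
  rcases (Nat.dvd_prime hl).1 hd with h5 | h5
  · exact absurd (Subgroup.card_eq_one.1 h5) h4
  · exact Subgroup.eq_top_of_card_eq _ (by rw [h5, hA])

end loc

section conj

variable {E U : Type} [Group E] [Group U] {q : E →* U} {A : Subgroup U} [hAn : A.Normal]
  {G : Subgroup E} {S : Subgroup E}

theorem N_conj {e : E} (he : e ∈ S) (n : E) :
    n ∈ A.comap q ⊓ S ↔ e * n * e⁻¹ ∈ A.comap q ⊓ S := by
  have key : ∀ {e : E}, e ∈ S → ∀ {n : E}, n ∈ A.comap q ⊓ S → e * n * e⁻¹ ∈ A.comap q ⊓ S := by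
    intro e he n hn
    refine Subgroup.mem_inf.2 ⟨?_, S.mul_mem (S.mul_mem he (Subgroup.mem_inf.1 hn).2)
      (S.inv_mem he)⟩
    rw [Subgroup.mem_comap, map_mul, map_mul, map_inv]
    exact hAn.conj_mem _ (Subgroup.mem_inf.1 hn).1 _
  refine ⟨fun h => key he h, fun h => ?_⟩
  have h1 := key (S.inv_mem he) h
  have h2 : e⁻¹ * (e * n * e⁻¹) * e⁻¹⁻¹ = n := by group
  rwa [h2] at h1

omit hAn in
theorem G_conj (hq : q.ker = G) {e : E} (he : e ∈ S) (n : E) :
    n ∈ G ⊓ S ↔ e * n * e⁻¹ ∈ G ⊓ S := by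
  have hn : G.Normal := G_normal hq
  have key : ∀ {e : E}, e ∈ S → ∀ {n : E}, n ∈ G ⊓ S → e * n * e⁻¹ ∈ G ⊓ S := by
    intro e he n h
    exact Subgroup.mem_inf.2 ⟨hn.conj_mem _ (Subgroup.mem_inf.1 h).1 _,
      S.mul_mem (S.mul_mem he (Subgroup.mem_inf.1 h).2) (S.inv_mem he)⟩
  refine ⟨fun h => key he h, fun h => ?_⟩
  have h1 := key (S.inv_mem he) h
  have h2 : e⁻¹ * (e * n * e⁻¹) * e⁻¹⁻¹ = n := by group
  rwa [h2] at h1

/-- products of elements fixing a function -/
theorem fixes_mul {K : Subgroup E} {χ : K → ℂ} {a b : E}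
    (hb' : ∀ n, n ∈ K → b * n * b⁻¹ ∈ K) (ha : Fixes a χ) (hb : Fixes b χ) :
    Fixes (a * b) χ := by
  intro n n' h
  rw [← hb n ⟨b * n * b⁻¹, hb' _ n.2⟩ rfl]
  refine ha _ _ ?_
  rw [h]
  group

/-- inner automorphisms -/
theorem fixes_inner {K : Subgroup E} {χ : K → ℂ} (hχ : IsClass χ) {x : E} (hx : x ∈ K) :
    Fixes x χ := by
  intro n n' h
  have h1 := hχ n ⟨x, hx⟩
  rw [← h1]
  congr 1
  exact Subtype.ext h

end conj

end Run7.h759.DI
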