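import Pool.Agent.Run7.h759.DI.Rst
import Pool.Agent.Run7.h759.DI.Cnt

/-!
# From blocks to class functions (helper759)
-/

set_option autoImplicit false
set_option linter.unusedSectionVars false

open scoped Classical BigOperators

noncomputable section

namespace Run7.h759.DI

open Pool.Agent.Y63.NV (IsClassFun centralValue IsBlock numDzBlock IsWt)
open Pool.Agent.Helper884.IC (IsIrrChar Irr mem_Irr irr_finite)
open Pool.Agent.Y63.AWC (IsIrreducibleCharacter)
open Pool.Agent.Y63.KR (IsPChain chainStabilizer conjSub mem_chainStabilizer conjSub_eq_iff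
  conj_mem_conjSub exists_least)
open Pool.Agent.R674.Tw (Fixes GCh NG invSum)
open Pool.Agent.Q99.AS (Dft Dft_congr Dft_unique)
open Pool.Agent.Q90.WR (card_transport irr_comp card_filter_eq)
open Pool.Agent.N237.DI (Iso2 Inr Blk kS kdGe_kS kS_conj rad_kS numDz_kS)
open Pool.Agent.N20.DI (kdGe radSum)
open Pool.Agent.Y930.NV
open Pool.Agent.Y925.NV (kk kk_conj md md_spec dz_iff red_zero redC_nat int_nat chi_int om_ind_int
  R_ind)
open Pool.Agent.R674.KB (dz_class dz_unique blk_zero isClassFun_ind cval_ind)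

section dz

variable {p : ℕ} [Fact p.Prime] {F : Type} [Field F] [CharP F p]
  (red : integralClosure ℤ ℂ →+* F) {E : Type} [Group E] [Finite E] {G : Subgroup E}

/-- the block of a character of defect zero is not induced from the stabiliser of a nonempty
chain -/
theorem dz_chainG [Fintype G] {χ : G → ℂ} (hχ : IsWt p (⊥ : Subgroup G) χ) {σ : Set (Subgroup E)}
    (hσ : IsPChain p σ) (hle : ∀ P ∈ σ, P ≤ G) (hne : σ.Nonempty)
    {ϑ : ↥(G ⊓ chainStabilizer σ) → ℂ} (hϑ : IsIrreducibleCharacter ϑ)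
    (h : ∀ f : G → F, IsClassFun f →
      centralValue red ϑ (fun x => f ⟨x, (Subgroup.mem_inf.1 x.2).1⟩) = centralValue red χ f) :
    False := by
  obtain ⟨C, hC, hR⟩ := dz_class (F := F) red hχ
  obtain ⟨P, hP, hmin⟩ := exists_least hσ.chain hne
  have hPS : P ≤ chainStabilizer σ := by
    intro x hx
    rw [mem_chainStabilizer]
    intro Q hQ
    rw [conjSub_eq_iff]
    exact Subgroup.le_normalizer (hmin Q hQ hx)
  have hPK : P ≤ G ⊓ chainStabilizer σ := le_inf (hle P hP) hPS
  have hn : (P.subgroupOf (G ⊓ chainStabilizer σ)).Normal := by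
    constructor
    intro x hx y
    rw [Subgroup.mem_subgroupOf] at hx ⊢
    have h1 : conjSub (y : E) P = P :=
      mem_chainStabilizer.mp (Subgroup.mem_inf.1 y.2).2 P hP
    have h2 := conj_mem_conjSub (g := (y : E)) hx
    rw [h1] at h2
    exact h2
  have hcl : IsClassFun (fun x : ↥(G ⊓ chainStabilizer σ) =>
      ind F C (⟨x, (Subgroup.mem_inf.1 x.2).1⟩ : G)) :=
    fun g x => isClassFun_ind C ⟨g, (Subgroup.mem_inf.1 g.2).1⟩ ⟨x, (Subgroup.mem_inf.1 x.2).1⟩
  have h1 := blk_zero (Q := P.subgroupOf (G ⊓ chainStabilizer σ))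
    (hσ.isPGroup P hP).comap_subtype
    (cvh F red ↥(G ⊓ chainStabilizer σ) ϑ hϑ) hcl ?_
  · rw [h _ (isClassFun_ind C), cval_ind red hχ.irr] at h1
    exact hR h1
  · intro x hx
    rw [Subgroup.mem_centralizer_iff] at hx
    change ind F C (⟨x, (Subgroup.mem_inf.1 x.2).1⟩ : G) = 0
    unfold ind
    rw [if_neg]
    intro hxC
    apply hC
    set x' : G := ⟨x, (Subgroup.mem_inf.1 x.2).1⟩ with hx'
    have h2 : kk C.out = kk x' :=
      Cf_out (A := ℕ) (fun g y => kk_conj g y) hxC
    rw [h2]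
    have h3 : P.subgroupOf G ≤ Subgroup.centralizer ({x'} : Set G) := by
      intro y hy
      rw [Subgroup.mem_centralizer_singleton_iff]
      have h5 := hx ⟨y, hPK (Subgroup.mem_subgroupOf.1 hy)⟩
        (Subgroup.mem_subgroupOf.2 (Subgroup.mem_subgroupOf.1 hy))
      have h7 : ((y : G) : E) * (x : E) = (x : E) * (y : E) := congrArg Subtype.val h5
      exact Subtype.ext h7
    have h4 : kk x' = Nat.card (Subgroup.centralizer ({x'} : Set G)) := by
      unfold kk
      refine Nat.card_congr (Equiv.subtypeEquivRight fun n => ?_)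
      rw [Subgroup.mem_centralizer_singleton_iff, mul_inv_eq_iff_eq_mul]
    rw [h4]
    refine dvd_trans ?_ (Subgroup.card_dvd_of_le h3)
    have h6 : Nat.card (P.subgroupOf G) = Nat.card P :=
      Nat.card_congr (Subgroup.subgroupOfEquivOfLe (hle P hP)).toEquiv
    rw [h6]
    obtain ⟨k, hk⟩ := IsPGroup.iff_card.1 (hσ.isPGroup P hP)
    rw [hk]
    refine dvd_pow_self p ?_
    rintro rfl
    rw [pow_zero] at hk
    exact hσ.ne_bot P hP (Subgroup.card_eq_one.1 hk)

/-- blocks of defect zero do not contribute -/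
theorem kS_dz [G.Normal] {B : (G → F) → F} (hB0 : numDzBlock p red B ≠ 0)
    {D : ℕ} (hD : 1 ≤ D) (V : Subgroup (E ⧸ G)) {σ : Set (Subgroup E)} (hσ : IsPChain p σ)
    (hle : ∀ P ∈ σ, P ≤ G) : kS p red G B D V (chainStabilizer σ) = 0 := by
  have _i : Fintype G := Fintype.ofFinite _
  unfold numDzBlock at hB0
  obtain ⟨⟨χ, hχ, hχB⟩⟩ := (Nat.card_pos_iff.1 (Nat.pos_of_ne_zero hB0)).1
  unfold kS
  have : IsEmpty {ϑ : ↥(G ⊓ chainStabilizer σ) → ℂ // IsIrrChar ϑ ∧ (Dft p D ϑ ∧
      Inr G V (chainStabilizer σ) ϑ ∧ Blk red G B (chainStabilizer σ) ϑ)} := by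
    refine ⟨?_⟩
    rintro ⟨ϑ, hϑ, hd, -, hb⟩
    rcases σ.eq_empty_or_nonempty with rfl | hne
    · have htop : chainStabilizer (∅ : Set (Subgroup E)) = ⊤ := by
        unfold chainStabilizer
        simp
      have hG : G = G ⊓ chainStabilizer (∅ : Set (Subgroup E)) := by
        rw [htop, inf_top_eq]
      let e : G ≃* ↥(G ⊓ chainStabilizer (∅ : Set (Subgroup E))) := MulEquiv.subgroupCongr hG
      have h1 : IsIrrChar (fun x => ϑ (e x)) := irr_comp e hϑ
      have h2 := dz_unique (F := F) red hχ h1 (fun f hf => by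
        have hf' : IsClassFun (fun x : ↥(G ⊓ chainStabilizer (∅ : Set (Subgroup E))) =>
            f ⟨x, (Subgroup.mem_inf.1 x.2).1⟩) := by
          intro g x
          exact hf ⟨g, (Subgroup.mem_inf.1 g.2).1⟩ ⟨x, (Subgroup.mem_inf.1 x.2).1⟩
        have h3 := Pool.Agent.Y286.NV.centralValue_comp red e ϑ
          (Pool.Agent.Y286.NV.irr_class hϑ) _ hf'
        rw [hb f hf] at h3
        rw [hχB f hf]
        exact h3)
      have h3 : Dft p 0 χ := by
        obtain ⟨n, h4, h5⟩ := hχ.defectZero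
        rw [Subgroup.card_bot, Nat.factorization_one, Finsupp.coe_zero, Pi.zero_apply] at h5
        exact ⟨n, h4, h5⟩
      have h4 : Dft p D (fun x => ϑ (e x)) := (Dft_congr e ϑ).2 hd
      have h5 : (fun x => ϑ (e x)) = χ := h2
      rw [h5] at h4
      have := Dft_unique h3 h4
      omega
    · refine dz_chainG (F := F) red hχ hσ hle hne hϑ fun f hf => ?_
      rw [hb f hf, hχB f hf]
  rw [Nat.card_of_isEmpty]
  rfl

end dz

section ok

variable {F : Type} [Field F]

/-- Dade's sums for the characters fixed by all of `E / G ≅ U` vanish. -/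
def Ok (p : ℕ) (red : integralClosure ℤ ℂ →+* F) (U : Type) [Group U] : Prop :=
  ∀ (E : Type) [Group E] [Finite E] (G : Subgroup E) [G.Normal], Nonempty (E ⧸ G ≃* U) →
    (∀ P : Subgroup G, P.Normal → IsPGroup p P → P = ⊥) →
    ∀ B : (G → F) → F, IsBlock B → numDzBlock p red B = 0 → ∀ d : ℕ,
      radSum p G (fun σ => (kdGe p red G B d ⊤ σ : ℤ)) = 0

theorem ok_iso {p : ℕ} {red : integralClosure ℤ ℂ →+* F} {U U' : Type} [Group U] [Group U']
    (e : U ≃* U') (h : Ok p red U) : Ok p red U' :=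
  fun E _ _ G _ ⟨i⟩ => h E G ⟨i.trans e.symm⟩

variable {E U : Type} [Group E] [Group U] {q : E →* U} {G : Subgroup E}

/-- the subgroup of `E / G` belonging to `V` -/
def Vb (q : E →* U) (G : Subgroup E) [G.Normal] (V : Subgroup U) : Subgroup (E ⧸ G) :=
  (V.comap q).map (QuotientGroup.mk' G)

theorem mem_Vb (hq : q.ker = G) [G.Normal] {V : Subgroup U} {e : E} :
    (e : E ⧸ G) ∈ Vb q G V ↔ q e ∈ V := by
  constructor
  · rintro ⟨x, hx, hxe⟩
    have h1 : x⁻¹ * e ∈ G := QuotientGroup.eq.1 hxe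
    rw [mem_G hq, map_mul, map_inv, inv_mul_eq_one] at h1
    rw [← h1]
    exact hx
  · intro h
    exact ⟨e, h, rfl⟩

theorem inr_inq (hq : q.ker = G) [G.Normal] (V : Subgroup U) (hs : Function.Surjective q)
    (S : Subgroup E) (χ : ↥(G ⊓ S) → ℂ) : Inr G (Vb q G V) S χ ↔ Inq q V S χ := by
  constructor
  · intro h u hu
    obtain ⟨x, rfl⟩ := hs u
    obtain ⟨e, he, h1, h2⟩ := h (x : E ⧸ G) ((mem_Vb hq).2 hu)
    refine ⟨e, he, ?_, h2⟩
    have h3 : e⁻¹ * x ∈ G := QuotientGroup.eq.1 h1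
    rw [mem_G hq, map_mul, map_inv, inv_mul_eq_one] at h3
    exact h3
  · intro h u hu
    obtain ⟨x, rfl⟩ := QuotientGroup.mk_surjective u
    obtain ⟨e, he, h1, h2⟩ := h (q x) ((mem_Vb hq).1 hu)
    refine ⟨e, he, ?_, h2⟩
    refine QuotientGroup.eq.2 ?_
    rw [mem_G hq, map_mul, map_inv, h1, inv_mul_cancel]

/-- the quotient of the preimage of `V` -/
theorem quot_iso (hq : q.ker = G) [G.Normal] (hs : Function.Surjective q) (V : Subgroup U) :
    Nonempty ((↥(V.comap q) ⧸ G.subgroupOf (V.comap q)) ≃* V) := by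
  let f : ↥(V.comap q) →* V :=
    { toFun := fun x => ⟨q x, x.2⟩
      map_one' := Subtype.ext (map_one q)
      map_mul' := fun a b => Subtype.ext (map_mul q _ _) }
  have hf : Function.Surjective f := by
    rintro ⟨v, hv⟩
    obtain ⟨x, rfl⟩ := hs v
    exact ⟨⟨x, hv⟩, rfl⟩
  have hk : f.ker = G.subgroupOf (V.comap q) := by
    ext x
    rw [MonoidHom.mem_ker, Subgroup.mem_subgroupOf, mem_G hq]
    exact ⟨fun h => congrArg Subtype.val h, fun h => Subtype.ext h⟩
  exact ⟨(QuotientGroup.quotientMulEquivOfEq hk.symm).trans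
    (QuotientGroup.quotientKerEquivOfSurjective f hf)⟩

theorem emb_sub (hq : q.ker = G) (V : Subgroup U) :
    Emb (V.comap q).subtype (G.subgroupOf (V.comap q)) G := by
  refine ⟨?_, fun x _ h => Subtype.ext h⟩
  rw [Subgroup.subgroupOf_map_subtype, inf_eq_left]
  exact G_le V hq

variable [Finite E] {p : ℕ} [Fact p.Prime] {red : integralClosure ℤ ℂ →+* F}

/-- **the sums for the subgroup `V` of the quotient** -/
theorem ok_sub (hq : q.ker = G) [G.Normal] (hs : Function.Surjective q) {V : Subgroup U}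
    (hV : Ok p red V) (hO : ∀ P : Subgroup G, P.Normal → IsPGroup p P → P = ⊥)
    {B : (G → F) → F} (hB : IsBlock B) (hB0 : numDzBlock p red B = 0) (d : ℕ) :
    radSum p G (fun σ => (kdGe p red G B d (Vb q G V) σ : ℤ)) = 0 := by
  have he := emb_sub hq V
  obtain ⟨B', hB', hc⟩ := exists_cor red he hB
  have h1 := hV ↥(V.comap q) (G.subgroupOf (V.comap q)) (quot_iso hq hs V) (op_map p he hO) B' hB'
    ((numDz_map red p he hc).trans hB0) d
  rw [← h1]
  refine (rad_map red he hc (fun y => ?_) d).symm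
  constructor
  · rintro ⟨x, hx, rfl⟩
    exact ⟨⟨x, hx⟩, Subgroup.mem_top _, rfl⟩
  · rintro ⟨x, -, rfl⟩
    exact (mem_Vb hq).2 x.2

variable [IsAlgClosed F] [CharP F p]

/-- the functional of a character -/
def bt (red : integralClosure ℤ ℂ →+* F) (G S : Subgroup E) (χ : ↥(G ⊓ S) → ℂ)
    (f : {f : G → F // IsClassFun f}) : F :=
  centralValue red χ (fun x => f.1 ⟨x, (Subgroup.mem_inf.1 x.2).1⟩)

/-- **from blocks to class functions** -/
theorem blx (hq : q.ker = G) (hs : Function.Surjective q) {V : Subgroup U}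
    (hV : Ok p red V) {z : E → F} (hz : ∀ g x, z (g * x * g⁻¹) = z x) (c₀ : F) {D : ℕ}
    (hD : 1 ≤ D) :
    al p G (fun S => (Nat.card ↥(G ⊓ S) : ℤ) * xc p red G q V z c₀ D S) = 0 := by
  have hGn : G.Normal := G_normal hq
  by_cases hO : ∀ P : Subgroup G, P.Normal → IsPGroup p P → P = ⊥
  · -- the functionals
    let T : Type := Σ σ : GCh p G, {χ : ↥(G ⊓ chainStabilizer σ.1) → ℂ // IsIrrChar χ}
    have hf : ∀ σ : GCh p G, Finite {χ : ↥(G ⊓ chainStabilizer σ.1) → ℂ // IsIrrChar χ} := by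
      intro σ
      have _i : Fintype ↥(G ⊓ chainStabilizer σ.1) := Fintype.ofFinite _
      exact Set.Finite.to_subtype irr_finite
    have hT : Finite T := inferInstance
    let β : T → ({f : G → F // IsClassFun f} → F) := fun t => bt red G _ t.2.1
    let I : Finset ({f : G → F // IsClassFun f} → F) := (Set.finite_range β).toFinset
    have hI : ∀ b, b ∈ I ↔ ∃ t, β t = b := fun b => by
      rw [Set.Finite.mem_toFinset]
      rfl
    -- the blocks
    have hbl : ∀ b : {f : G → F // IsClassFun f} → F, ∃ B : (G → F) → F, b ∈ I → IsBlock B ∧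
        ∀ f : {f : G → F // IsClassFun f}, B f.1 = b f := by
      intro b
      by_cases hb : b ∈ I
      · obtain ⟨⟨σ, χ⟩, rfl⟩ := (hI b).1 hb
        exact ⟨_, fun _ => ⟨Pool.Agent.N286.DI.BLK p F red E G σ.1 σ.2.1 σ.2.2 χ.1 χ.2,
          fun f => rfl⟩⟩
      · exact ⟨fun _ => 0, fun h => absurd h hb⟩
    choose Bb hBb using hbl
    have hzc : IsClassFun (fun x : G => z x) := fun g x => hz g x
    let zz : {f : G → F // IsClassFun f} := ⟨fun x : G => z x, hzc⟩
    have e1 : al p G (fun S => (Nat.card ↥(G ⊓ S) : ℤ) * xc p red G q V z c₀ D S) =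
        al p G (fun S => ∑ b ∈ I.filter (fun b => b zz = c₀),
          (Nat.card ↥(G ⊓ S) : ℤ) * kS p red G (Bb b) D (Vb q G V) S) := by
      refine al_congr fun σ h1 h2 => ?_
      rw [← Finset.mul_sum]
      congr 1
      have _i : Fintype ↥(G ⊓ chainStabilizer σ) := Fintype.ofFinite _
      unfold xc xk
      rw [card_filter_eq]
      have e2 : ∀ b ∈ I.filter (fun b => b zz = c₀),
          kS p red G (Bb b) D (Vb q G V) (chainStabilizer σ) =
          ((((Irr ↥(G ⊓ chainStabilizer σ)).filter fun χ => Dft p D χ ∧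
            Inq q V (chainStabilizer σ) χ ∧ centralValue red χ (fun x => z x) = c₀).filter
              fun χ => bt red G _ χ = b).card : ℤ) := by
        intro b hb
        obtain ⟨hb, hbz⟩ := Finset.mem_filter.1 hb
        unfold kS
        rw [card_filter_eq, Finset.filter_filter]
        congr 2
        refine Finset.filter_congr fun χ hχ => ?_
        rw [mem_Irr] at hχ
        rw [inr_inq hq V hs]
        have h3 : Blk red G (Bb b) (chainStabilizer σ) χ ↔ bt red G _ χ = b := by
          constructor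
          · intro h4
            funext f
            rw [← (hBb b hb).2 f]
            exact h4 f.1 f.2
          · rintro rfl f hf
            exact ((hBb _ hb).2 ⟨f, hf⟩).symm
        rw [h3]
        constructor
        · rintro ⟨a, b', c⟩
          refine ⟨⟨a, b', ?_⟩, c⟩
          rw [← hbz, ← c]
          rfl
        · rintro ⟨⟨a, b', c⟩, d⟩
          exact ⟨a, b', d⟩
      rw [Finset.sum_congr rfl e2]
      norm_cast
      rw [← Finset.card_eq_sum_card_fiberwise (f := fun χ => bt red G (chainStabilizer σ) χ)]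
      intro χ hχ
      obtain ⟨h3, h4⟩ := Finset.mem_filter.1 hχ
      refine Finset.mem_coe.2 (Finset.mem_filter.2 ⟨?_, ?_⟩)
      · rw [hI]
        exact ⟨⟨⟨σ, h1, h2⟩, ⟨χ, mem_Irr.1 h3⟩⟩, rfl⟩
      · exact h4.2.2
    rw [e1, al_sum]
    refine Finset.sum_eq_zero fun b hb => ?_
    obtain ⟨hb, -⟩ := Finset.mem_filter.1 hb
    by_cases hdz : numDzBlock p red (Bb b) = 0
    · have h3 := ok_sub hq hs hV hO (hBb b hb).1 hdz D
      rw [rad_kS] at h3
      have h4 := al_inv (p := p) (G := G) (kS p red G (Bb b) D (Vb q G V))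
        (fun g hg σ => kS_conj red G (Bb b) D (Vb q G V) hg σ)
      rw [h3, mul_zero] at h4
      exact h4.symm
    · refine al_zero fun σ h1 h2 => ?_
      rw [kS_dz red hdz hD (Vb q G V) h1 h2, mul_zero]
  · -- a normal `p`-subgroup
    push Not at hO
    obtain ⟨P, hP, hp, hne⟩ := hO
    have hR : ∀ x ∈ G, conjSub x (P.map G.subtype) = P.map G.subtype := by
      intro x hx
      rw [conjSub_eq_iff, Subgroup.mem_normalizer_iff]
      intro y
      constructor
      · rintro ⟨w, hw, rfl⟩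
        exact ⟨⟨x, hx⟩ * w * ⟨x, hx⟩⁻¹, hP.conj_mem w hw _, rfl⟩
      · rintro ⟨w, hw, e⟩
        refine ⟨⟨x, hx⟩⁻¹ * w * ⟨x, hx⟩, ?_, ?_⟩
        · have := hP.conj_mem w hw ⟨x, hx⟩⁻¹
          rwa [inv_inv] at this
        · have e' : (w : E) = x * y * x⁻¹ := e
          change x⁻¹ * (w : E) * x = y
          rw [e']
          group
    obtain ⟨Q, hRQ, hQ⟩ := Pool.Agent.N344.DI.exists_op G (P.map G.subtype) (hp.map _)
      (Subgroup.map_subtype_le P) hR
    have hQn := Pool.Agent.N344.DI.op_conj ⊤ G Q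
      (fun x _ => Pool.Agent.R674.Ce.conjSub_normal x G) hQ
    have hQN : Q.Normal := by
      refine ⟨fun n hn g => ?_⟩
      have h1 := hQn g (Subgroup.mem_top _)
      rw [← h1]
      exact conj_mem_conjSub hn
    refine al_normal hQ.2.1 ?_ hQ.1 _
    rintro rfl
    apply hne
    rw [le_bot_iff, Subgroup.map_eq_bot_iff_of_injective _ G.subtype_injective] at hRQ
    exact hRQ

end ok

end Run7.h759.DI
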