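import Pool.Agent.Run7.h759.DI.Tns

/-!
# Normal subgroups of prime order of the quotient (helper759)
-/

set_option autoImplicit false
set_option linter.unusedSectionVars false

open scoped Classical BigOperators

noncomputable section

namespace Run7.h759.DI

open Pool.Agent.Y63.NV (IsClassFun centralValue IsBlock numDzBlock)
open Pool.Agent.Helper884.IC (IsIrrChar IsClass Irr mem_Irr)
open Pool.Agent.Y63.KR (IsPChain chainStabilizer conjSub)
open Pool.Agent.R674.Tw (Fixes GCh NG NEbar invSum)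
open Pool.Agent.Q99.AS (Dft)
open Pool.Agent.N237.DI (Iso2 Proj Inr Blk kS kS_conj rad_kS kdGe_kS)
open Pool.Agent.N20.DI (InvBl kdGe radSum)

section fpg

variable {E₁ E₂ U : Type} [Group E₁] [Group E₂] [Group U] (q₁ : E₁ →* U) (q₂ : E₂ →* U)

/-- the fibre product -/
def fpG : Subgroup (E₁ × E₂) where
  carrier := {x | q₁ x.1 = q₂ x.2}
  one_mem' := by
    change q₁ 1 = q₂ 1
    rw [map_one, map_one]
  mul_mem' := by
    intro a b ha hb
    change q₁ (a.1 * b.1) = q₂ (a.2 * b.2)
    have ha' : q₁ a.1 = q₂ a.2 := ha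
    have hb' : q₁ b.1 = q₂ b.2 := hb
    rw [map_mul, map_mul, ha', hb']
  inv_mem' := by
    intro a ha
    change q₁ a.1⁻¹ = q₂ a.2⁻¹
    have ha' : q₁ a.1 = q₂ a.2 := ha
    rw [map_inv, map_inv, ha']

/-- the map of the fibre product to `U` -/
def fpq : fpG q₁ q₂ →* U := q₁.comp ((MonoidHom.fst E₁ E₂).comp (fpG q₁ q₂).subtype)

theorem fp_FP : FP (fpG q₁ q₂).subtype (fpq q₁ q₂) q₁ q₂ where
  fst _ := rfl
  snd x := x.2.symm
  inj x h := Subtype.ext h
  surj a b h := ⟨⟨(a, b), h⟩, rfl⟩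

end fpg

variable {U : Type} [Group U] {A : Subgroup U} {ℓ p : ℕ} [hl : Fact ℓ.Prime] [hp : Fact p.Prime]
  {F : Type} [Field F] [IsAlgClosed F] [CharP F p] (red : integralClosure ℤ ℂ →+* F)

/-- non-invariant blocks do not contribute -/
theorem kd_zero {E : Type} [Group E] [Finite E] {G : Subgroup E} [G.Normal] {B : (G → F) → F}
    (hB : IsBlock B) (hI : ¬ InvBl G ⊤ B) (d : ℕ) (σ : Set (Subgroup E)) :
    (kdGe p red G B d ⊤ σ : ℤ) = 0 := by
  unfold kdGe
  rw [Nat.cast_eq_zero]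
  have : IsEmpty {χ : NG G σ → ℂ // Pool.Agent.Y63.AWC.IsIrreducibleCharacter χ ∧
      Pool.Agent.N20.DI.HasDef p d χ ∧ ⊤ ≤ NEbar G σ χ ∧
      Pool.Agent.R674.Tw.IndB red G σ χ B} := by
    refine ⟨fun χ => hI ?_⟩
    have h1 := Pool.Agent.N20.DI.parts.inv2 p F red E G ⊤ B σ χ.1 hB χ.2.1 χ.2.2.2.1 χ.2.2.2.2
    rwa [Subgroup.comap_top] at h1
  exact Nat.card_of_isEmpty

/-- from the signed sums to Dade's sums -/
theorem rad_of_al {E : Type} [Group E] [Finite E] {G : Subgroup E} [G.Normal] {q : E →* U}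
    (hq : q.ker = G) (hs : Function.Surjective q) {B : (G → F) → F} {z : E → F}
    (hz : ZB p red G B z) {d : ℕ}
    (h : al p G (fun S => (Nat.card ↥(G ⊓ S) : ℤ) * xc p red G q ⊤ z 1 d S) = 0) :
    radSum p G (fun σ => (kdGe p red G B d ⊤ σ : ℤ)) = 0 := by
  rw [rad_kS]
  have h1 := al_inv (p := p) (G := G) (kS p red G B d ⊤)
    (fun g hg σ => kS_conj red G B d ⊤ hg σ)
  have h2 : al p G (fun S => (Nat.card ↥(G ⊓ S) : ℤ) * kS p red G B d ⊤ S) = 0 := by
    rw [← h]
    exact al_congr fun σ h1 h2 => by rw [kS_xc hq hs hz d h1 h2]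
  rw [h2] at h1
  refine (mul_eq_zero.1 h1).resolve_left ?_
  exact_mod_cast Nat.card_pos.ne'

theorem z01_inv {E : Type} [Group E] [Finite E] {G : Subgroup E} {z : E → F}
    (hz : ∀ g x, z (g * x * g⁻¹) = z x) (h : Z01 p red G z) :
    Z01 p red G (fun x => z x⁻¹) := by
  intro σ h1 h2 θ hθ
  have h3 := cv_dl red (dl_class (irr_cl hθ)) (z := fun x : ↥(G ⊓ chainStabilizer σ) => z x)
    (fun g x => hz g x)
  rw [dl_dl] at h3
  have h4 : centralValue red θ (fun x => z (x : E)⁻¹) =
      centralValue red (dl θ) (fun x => z x) := h3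
  rw [h4]
  exact h σ h1 h2 _ (dl_irr hθ)

/-- **Main theorem**: normal subgroups of prime order, without complements or of order `p`. -/
theorem ok_prime [hAn : A.Normal] (hA : Nat.card A = ℓ) (hc : nC A = 0 ∨ ℓ = p)
    (hW : Ok p red (U ⧸ A)) : Ok p red U := by
  intro E _ _ G hGn hi hO B hB hB0 d
  obtain ⟨i⟩ := hi
  let q : E →* U := i.toMonoidHom.comp (QuotientGroup.mk' G)
  have hs : Function.Surjective q := i.surjective.comp (QuotientGroup.mk'_surjective G)
  have hq : q.ker = G := by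
    ext x
    rw [MonoidHom.mem_ker]
    change i (x : E ⧸ G) = 1 ↔ _
    rw [MulEquiv.map_eq_one_iff]
    exact QuotientGroup.eq_one_iff x
  have hU : Finite U := Finite.of_surjective q hs
  by_cases hI : InvBl G ⊤ B
  swap
  · have h0 : (fun σ => (kdGe p red G B d ⊤ σ : ℤ)) = fun _ => 0 :=
      funext fun σ => kd_zero red hB hI d σ
    rw [h0]
    unfold radSum
    rw [finsum_congr fun c => mul_zero _]
    exact finsum_zero
  obtain ⟨z, h1, h2, h3, h4, h5⟩ := z01 hB hI
  have hz : ZB p red G B z := ⟨h1, h2, h3, h4, h5⟩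
  have hfinA : Finite A := fin_A hl.out hA
  have hfinD : Finite (A →* ℂˣ) := by
    apply Nat.finite_of_card_ne_zero
    rw [card_dual hA]
    exact hl.out.ne_zero
  have _iC : Fintype (U → A →* ℂˣ) := Fintype.ofFinite _
  set z' : E → F := fun x => z x⁻¹ with hz'
  have h1' : ∀ g x, z' (g * x * g⁻¹) = z' x := by
    intro g x
    change z (g * x * g⁻¹)⁻¹ = z x⁻¹
    rw [← h1 g x⁻¹]
    congr 1
    group
  have hv : Z01 p red G z := hz.z01
  have hv' : Z01 p red G z' := z01_inv red h1 hv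
  -- the fibre product
  have hF := fp_FP q q
  set z2 : fpG q q → F := fun x => z ((fpG q q).subtype x).1 * z' ((fpG q q).subtype x).2 with hz2
  have h6 : ∀ g x, z2 (g * x * g⁻¹) = z2 x := by
    intro g x
    change z ((g : E × E).1 * (x : E × E).1 * (g : E × E).1⁻¹) *
      z' ((g : E × E).2 * (x : E × E).2 * (g : E × E).2⁻¹) = _
    rw [h1, h1']
    rfl
  have h7 : ∀ x, x ∉ (fpq q q).ker → z2 x = 0 := by
    intro x hx
    have h8 : (x : E × E).1 ∉ G := by
      intro h
      apply hx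
      rw [MonoidHom.mem_ker]
      exact (mem_G hq).1 h
    change z (x : E × E).1 * _ = 0
    rw [h2 _ h8, zero_mul]
  have hsF := hF.surj_q hs hs
  set t : (U → A →* ℂˣ) → ℕ → ℤ := fun c D => al p G (fun S => (Nat.card ↥(G ⊓ S) : ℤ) *
    yc p red (G_le A hq) c z 1 D S) with ht
  set u : ℕ → ℤ := fun D => al p G (fun S => (Nat.card ↥(G ⊓ S) : ℤ) *
    xc p red G q ⊤ z 1 D S) with hu
  have hmain : u d = 0 := by
    refine low t u (l := ℓ) (n := nC A) (ε := ℓ.factorization p) ?_ ?_ ?_ ?_ ?_ d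
    · rcases hc with hc | hc
      · exact Or.inl (by rw [hc]; rfl)
      · subst hc
        exact Or.inr hl.out.factorization_self
    · exact_mod_cast hl.out.ne_zero
    · intro c
      refine al_zero fun σ k1 k2 => ?_
      have k3 : yc p red (G_le A hq) c z 1 0 (chainStabilizer σ) = 0 := by
        unfold yc
        rw [Nat.cast_eq_zero]
        have : IsEmpty {χ : ↥(A.comap q ⊓ chainStabilizer σ) → ℂ // IsIrrChar χ ∧
            (IsIrrChar (rs (inf_le_inf_right (chainStabilizer σ) (G_le A hq)) χ) ∧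
              Dft p 0 (rs (inf_le_inf_right (chainStabilizer σ) (G_le A hq)) χ) ∧
              Coc q A c (chainStabilizer σ) χ ∧
              centralValue red (rs (inf_le_inf_right (chainStabilizer σ) (G_le A hq)) χ)
                (fun x => z x) = 1)} :=
          ⟨fun χ => hz.no_dz hB0 k1 k2 χ.2.2.1 χ.2.2.2.1 χ.2.2.2.2.2⟩
        exact Nat.card_of_isEmpty
      rw [k3, mul_zero]
    · intro D
      rw [ht, hu]
      change ∑ c, al p G (fun S => (Nat.card ↥(G ⊓ S) : ℤ) * yc p red (G_le A hq) c z 1 D S) =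
        (ℓ : ℤ) * al p G (fun S => (Nat.card ↥(G ⊓ S) : ℤ) * xc p red G q ⊤ z 1 D S)
      rw [← al_sum, ← al_mul]
      refine al_congr fun σ _ _ => ?_
      rw [← Finset.mul_sum, ext_sum red hq hA p z 1 D (chainStabilizer σ)]
      ring
    · intro D hD
      have k1 := rel red (rfl : (fpq q q).ker = _) hsF hA hW h6 h7 1 hD
      have k2 := al_yc_prod hF rfl hq hq hs hs red hA p h1 h1' hv hv' D
      have k3 := al_xc_prod hF rfl hq hq hs hs red p h1 h1' hv hv' (D + ℓ.factorization p)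
      rw [hz2] at k1
      rw [k2, k3] at k1
      have k4 : ∀ c : U → A →* ℂˣ, ∀ D, al p G (fun S => (Nat.card ↥(G ⊓ S) : ℤ) *
          yc p red (G_le A hq) c⁻¹ z' 1 D S) = t c D := by
        intro c D
        refine al_congr fun σ _ _ => ?_
        rw [hz', yc_dl p red (G_le A hq) c h1]
      have k5 : ∀ D, al p G (fun S => (Nat.card ↥(G ⊓ S) : ℤ) *
          xc p red G q ⊤ z' 1 D S) = u D := by
        intro D
        refine al_congr fun σ _ _ => ?_
        rw [hz', xc_dl p red ⊤ h1]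
      simp_rw [k4, k5] at k1
      exact k1
  exact rad_of_al red hq hs hz hmain

end Run7.h759.DI
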