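import Pool.Agent.N237.DI.Fib
import Pool.Agent.Y564.NV.Clif

/-!
# Clifford theory for a normal subgroup of prime index (helper759)
-/

set_option autoImplicit false
set_option linter.unusedSectionVars false

open scoped Classical BigOperators

noncomputable section

namespace Run7.h759.DI

open Pool.Agent.Helper884.IC (IsIrrChar Irr mem_Irr B B_irr IsClass cardG_ne irr_finite B_sum_left
  B_smul_left B_comm)
open Pool.Agent.Y63.AWC (res mult mult_spec res_eq cj St Orb clifford St_eq card_Orb_mul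
  support_eq deg_eq mult_exists unique_over mem_Orb_of_mult sum_M one_ne mem_St)
open Pool.Agent.Y564.NV (orb_t st_cases)

variable {X : Type} [Group X] [Fintype X] (M : Subgroup X) [hMn : M.Normal]
  {A : Type} [Group A] [Finite A] {ℓ : ℕ} [hl : Fact ℓ.Prime]

/-- the twist of a function with a linear character -/
def tw (φ : X →* A) (μ : A →* ℂˣ) (χ : X → ℂ) : X → ℂ := fun x => ((μ (φ x) : ℂˣ) : ℂ) * χ x

theorem tw_irr (φ : X →* A) (μ : A →* ℂˣ) {χ : X → ℂ} (h : IsIrrChar χ) :
    IsIrrChar (tw φ μ χ) :=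
  Pool.Agent.N323.DI.irr_twist h (μ.comp φ)

theorem tw_mul (φ : X →* A) (μ ν : A →* ℂˣ) (χ : X → ℂ) :
    tw φ (μ * ν) χ = tw φ μ (tw φ ν χ) := by
  funext x
  unfold tw
  rw [MonoidHom.mul_apply, Units.val_mul, mul_assoc]

theorem tw_one (φ : X →* A) (χ : X → ℂ) : tw φ 1 χ = χ := by
  funext x
  unfold tw
  rw [MonoidHom.one_apply, Units.val_one, one_mul]

/-- the number of linear characters of a group of prime order -/
theorem card_dual (hA : Nat.card A = ℓ) : Nat.card (A →* ℂˣ) = ℓ := by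
  have hc : IsCyclic A := isCyclic_of_prime_card hA
  let _ : CommGroup A := IsCyclic.commGroup
  rw [CommGroup.card_monoidHom_of_hasEnoughRootsOfUnity A ℂ, hA]

/-- characters of a group of prime order agreeing at a nontrivial element -/
theorem dual_eq (hA : Nat.card A = ℓ) {μ ν : A →* ℂˣ} {a : A} (ha : a ≠ 1) (h : μ a = ν a) :
    μ = ν := by
  let K : Subgroup A := μ.eqLocus ν
  have h1 : K ≠ ⊥ := by
    intro h2
    apply ha
    have h3 : a ∈ K := h
    rw [h2] at h3
    exact Subgroup.mem_bot.1 h3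
  have hd := Subgroup.card_subgroup_dvd_card K
  rw [hA] at hd
  have h4 : K = ⊤ := by
    rcases (Nat.dvd_prime hl.out).1 hd with h5 | h5
    · exact absurd (Subgroup.card_eq_one.1 h5) h1
    · rw [← hA] at h5
      exact Subgroup.eq_top_of_card_eq K h5
  ext x
  have : x ∈ K := by rw [h4]; trivial
  exact congrArg _ this

section

variable {M} {φ : X →* A} (hM : ∀ x, x ∈ M ↔ φ x = 1)
include hM

theorem res_tw (μ : A →* ℂˣ) (χ : X → ℂ) : res M (tw φ μ χ) = res M χ := by
  funext m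
  unfold res tw
  rw [(hM _).1 m.2, map_one, Units.val_one, one_mul]

theorem mult_tw (μ : A →* ℂˣ) {χ : X → ℂ} (h : IsIrrChar χ) {θ : M → ℂ} (hθ : IsIrrChar θ) :
    mult M (tw φ μ χ) θ = mult M χ θ := by
  have h1 := mult_spec M (tw_irr φ μ h) hθ
  have h2 := mult_spec M h hθ
  rw [res_tw hM] at h1
  exact_mod_cast h1.symm.trans h2

variable (hφ : Function.Surjective φ) (hA : Nat.card A = ℓ)
include hφ hA

theorem card_X : Nat.card X = ℓ * Nat.card M := by
  have h1 : φ.ker = M := by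
    ext x
    rw [MonoidHom.mem_ker, hM]
  rw [← hA, ← h1, Subgroup.card_eq_card_quotient_mul_card_subgroup φ.ker]
  congr 1
  exact Nat.card_congr (QuotientGroup.quotientKerEquivOfSurjective φ hφ).toEquiv

/-- a character with a nontrivial stabiliser under twisting vanishes outside of `M` -/
theorem norm_of_tw {χ : X → ℂ} (h : IsIrrChar χ) {μ ν : A →* ℂˣ} (hμ : μ ≠ ν)
    (he : tw φ μ χ = tw φ ν χ) : B (res M χ) (res M χ) = ℓ := by
  have h0 : ∀ x, x ∉ M → χ x = 0 := by
    intro x hx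
    by_contra h1
    apply hμ
    have h2 : φ x ≠ 1 := fun h3 => hx ((hM x).2 h3)
    refine dual_eq hA h2 ?_
    have h3 := congrFun he x
    unfold tw at h3
    exact Units.ext (mul_right_cancel₀ h1 h3)
  have h1 := B_irr h h
  rw [if_pos rfl] at h1
  unfold B at h1 ⊢
  rw [sum_M M (fun g => χ g * χ g⁻¹) (by
    intro g hg
    rw [h0 g hg, zero_mul]), card_X hM hφ hA] at h1
  have h2 : ∑ g : M, res M χ g * res M χ g⁻¹ = ∑ m : M, χ m * χ (m : X)⁻¹ := rfl
  rw [h2]
  have h3 : (Nat.card M : ℂ) ≠ 0 := cardG_ne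
  have h4 : (ℓ : ℂ) ≠ 0 := by exact_mod_cast hl.out.ne_zero
  push_cast at h1
  field_simp at h1 ⊢
  exact h1

/-- the invariant characters of `M` extend -/
theorem ext_exists {θ : M → ℂ} (hθ : IsIrrChar θ) (hSt : Nat.card (St M θ) = Nat.card X) :
    ∃ χ : X → ℂ, IsIrrChar χ ∧ res M χ = θ := by
  have hX := card_X hM hφ hA
  have hM0 : 0 < Nat.card M := Nat.card_pos
  rcases st_cases M hX hθ with ⟨_, _, h3⟩ | ⟨h1, h2, _⟩
  · exfalso
    rw [hSt, hX] at h3
    have := hl.out.two_le
    nlinarith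
  · have h3 : ∃ χ ∈ Irr X, mult M χ θ ≠ 0 := by
      by_contra h4
      push Not at h4
      rw [Finset.sum_eq_zero fun χ hχ => by rw [h4 χ hχ]; rfl] at h2
      exact hl.out.ne_zero h2.symm
    obtain ⟨χ, hχ, hm⟩ := h3
    have hχ' := mem_Irr.1 hχ
    have hsupp := support_eq M hχ' hθ hm
    have horb : Orb M θ = {θ} := by
      rw [Finset.card_eq_one] at h1
      obtain ⟨t, ht⟩ := h1
      have : θ ∈ Orb M θ := Finset.mem_image.2 ⟨1, Finset.mem_univ _, Pool.Agent.Y63.AWC.cj_one M θ⟩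
      rw [ht, Finset.mem_singleton] at this
      rw [ht, this]
    have hres : res M χ = (mult M χ θ : ℂ) • θ := by
      rw [res_eq M hχ']
      rw [Finset.sum_eq_single θ]
      · intro t ht hne
        have : mult M χ t = 0 := by
          by_contra h5
          apply hne
          have h6 : t ∈ ((Irr M).filter fun t => mult M χ t ≠ 0) := Finset.mem_filter.2 ⟨ht, h5⟩
          rw [hsupp, horb] at h6
          exact Finset.mem_singleton.1 h6
        rw [this, Nat.cast_zero, zero_smul]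
      · intro h5
        exact absurd (mem_Irr.2 hθ) h5
    have hB : B (res M χ) (res M χ) = (mult M χ θ : ℂ) ^ 2 := by
      rw [hres, B_smul_left, B_comm, B_smul_left, B_irr hθ hθ, if_pos rfl]
      ring
    have hinj : Function.Injective fun μ : A →* ℂˣ => tw φ μ χ := by
      intro μ ν he
      by_contra hne
      have h5 := norm_of_tw hM hφ hA hχ' hne he
      rw [hB] at h5
      have h6 : (mult M χ θ) ^ 2 = ℓ := by exact_mod_cast h5
      exact (hl.out.prime.not_isSquare) ⟨mult M χ θ, by rw [← h6]; ring⟩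
    have hfin : Finite (A →* ℂˣ) := by
      apply Nat.finite_of_card_ne_zero
      rw [card_dual hA]
      exact hl.out.ne_zero
    have _i : Fintype (A →* ℂˣ) := Fintype.ofFinite _
    have h7 : ℓ * (mult M χ θ) ^ 2 ≤ ∑ χ' ∈ Irr X, mult M χ' θ ^ 2 := by
      calc ℓ * (mult M χ θ) ^ 2 = ∑ μ : A →* ℂˣ, mult M (tw φ μ χ) θ ^ 2 := by
            rw [Finset.sum_congr rfl fun μ _ => by rw [mult_tw hM μ hχ' hθ], Finset.sum_const,
              Finset.card_univ, ← Nat.card_eq_fintype_card, card_dual hA, smul_eq_mul]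
        _ = ∑ χ' ∈ Finset.univ.image fun μ : A →* ℂˣ => tw φ μ χ, mult M χ' θ ^ 2 := by
            rw [Finset.sum_image fun a _ b _ h => hinj h]
        _ ≤ ∑ χ' ∈ Irr X, mult M χ' θ ^ 2 := by
            refine Finset.sum_le_sum_of_subset ?_
            intro χ' h8
            obtain ⟨μ, -, rfl⟩ := Finset.mem_image.1 h8
            exact mem_Irr.2 (tw_irr φ μ hχ')
    rw [h2] at h7
    have h8 : (mult M χ θ) ^ 2 ≤ 1 := by
      have := hl.out.pos
      by_contra h9
      push Not at h9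
      nlinarith
    have h9 : mult M χ θ = 1 := by
      have : 0 < mult M χ θ := Nat.pos_of_ne_zero hm
      nlinarith
    refine ⟨χ, hχ', ?_⟩
    rw [hres, h9, Nat.cast_one, one_smul]

/-- the multiplicity of an irreducible restriction -/
theorem mult_res {χ : X → ℂ} (h : IsIrrChar χ) (hr : IsIrrChar (res M χ)) :
    mult M χ (res M χ) = 1 := by
  have h1 := mult_spec M h hr
  rw [B_irr hr hr, if_pos rfl] at h1
  exact_mod_cast h1.symm

theorem tw_inj {χ : X → ℂ} (h : IsIrrChar χ) (hr : IsIrrChar (res M χ)) :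
    Function.Injective fun μ : A →* ℂˣ => tw φ μ χ := by
  intro μ ν he
  by_contra hne
  have h5 := norm_of_tw hM hφ hA h hne he
  rw [B_irr hr hr, if_pos rfl] at h5
  have : (1 : ℕ) = ℓ := by exact_mod_cast h5
  exact hl.out.one_lt.ne this

/-- the characters over an irreducible restriction are its twists -/
theorem over_ext {χ χ' : X → ℂ} (h : IsIrrChar χ) (hr : IsIrrChar (res M χ)) (h' : IsIrrChar χ')
    (hm : mult M χ' (res M χ) ≠ 0) : ∃ μ : A →* ℂˣ, χ' = tw φ μ χ := by
  by_contra hcon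
  push Not at hcon
  have hX := card_X hM hφ hA
  have h1 := orb_t M hX hr
  have h2 : ∑ χ' ∈ Irr X, mult M χ' (res M χ) ^ 2 ≤ ℓ := by
    have h3 : 0 < (Orb M (res M χ)).card :=
      Finset.card_pos.2 ⟨_, Finset.mem_image.2 ⟨1, Finset.mem_univ _, rfl⟩⟩
    calc _ = 1 * ∑ χ' ∈ Irr X, mult M χ' (res M χ) ^ 2 := (one_mul _).symm
      _ ≤ (Orb M (res M χ)).card * ∑ χ' ∈ Irr X, mult M χ' (res M χ) ^ 2 :=
          Nat.mul_le_mul_right _ h3
      _ = ℓ := h1
  have hfin : Finite (A →* ℂˣ) := by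
    apply Nat.finite_of_card_ne_zero
    rw [card_dual hA]
    exact hl.out.ne_zero
  have _i : Fintype (A →* ℂˣ) := Fintype.ofFinite _
  have hinj := tw_inj hM hφ hA h hr
  have h7 : ℓ + 1 ≤ ∑ χ' ∈ Irr X, mult M χ' (res M χ) ^ 2 := by
    have h8 : χ' ∉ Finset.univ.image fun μ : A →* ℂˣ => tw φ μ χ := by
      intro h9
      obtain ⟨μ, -, e⟩ := Finset.mem_image.1 h9
      exact hcon μ e.symm
    calc ℓ + 1 ≤ ℓ + mult M χ' (res M χ) ^ 2 := by
            have : 0 < mult M χ' (res M χ) ^ 2 := pow_pos (Nat.pos_of_ne_zero hm) 2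
            omega
      _ = (∑ μ : A →* ℂˣ, mult M (tw φ μ χ) (res M χ) ^ 2) + mult M χ' (res M χ) ^ 2 := by
            rw [Finset.sum_congr rfl fun μ _ => by rw [mult_tw hM μ h hr,
              mult_res hM hφ hA h hr], Finset.sum_const,
              Finset.card_univ, ← Nat.card_eq_fintype_card, card_dual hA, smul_eq_mul, one_pow,
              mul_one]
      _ = ∑ χ'' ∈ insert χ' (Finset.univ.image fun μ : A →* ℂˣ => tw φ μ χ),
            mult M χ'' (res M χ) ^ 2 := by
            rw [Finset.sum_insert h8, Finset.sum_image fun a _ b _ h => hinj h, add_comm]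
      _ ≤ _ := by
            refine Finset.sum_le_sum_of_subset ?_
            intro χ'' h9
            rcases Finset.mem_insert.1 h9 with rfl | h9
            · exact mem_Irr.2 h'
            · obtain ⟨μ, -, rfl⟩ := Finset.mem_image.1 h9
              exact mem_Irr.2 (tw_irr φ μ h)
  omega

theorem ext_unique {χ χ' : X → ℂ} (h : IsIrrChar χ) (hr : IsIrrChar (res M χ))
    (h' : IsIrrChar χ') (he : res M χ' = res M χ) : ∃ μ : A →* ℂˣ, χ' = tw φ μ χ := by
  refine over_ext hM hφ hA h hr h' ?_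
  have h1 := mult_spec M h' hr
  rw [he, B_irr hr hr, if_pos rfl] at h1
  have : mult M χ' (res M χ) = 1 := by exact_mod_cast h1.symm
  rw [this]
  exact one_ne_zero

/-- the stabiliser of an irreducible restriction -/
theorem st_res {χ : X → ℂ} (h : IsIrrChar χ) :
    Nat.card (St M (res M χ)) = Nat.card X := by
  rw [Subgroup.card_eq_iff_eq_top, Subgroup.eq_top_iff']
  intro x
  rw [mem_St]
  exact Pool.Agent.Y63.AWC.cj_res M h.isClass x

/-- the dichotomy -/
theorem dich {χ : X → ℂ} (h : IsIrrChar χ) {θ : M → ℂ} (hθ : IsIrrChar θ)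
    (hm : mult M χ θ ≠ 0) : (Nat.card (St M θ) = Nat.card X ∧ res M χ = θ) ∨
      (Nat.card (St M θ) = Nat.card M ∧ (Orb M θ).card = ℓ ∧ mult M χ θ = 1 ∧
        ¬ IsIrrChar (res M χ)) := by
  have hX := card_X hM hφ hA
  rcases st_cases M hX hθ with ⟨h1, h2, h3⟩ | ⟨h1, h2, h3⟩
  · right
    have h4 : mult M χ θ = 1 := le_antisymm ((unique_over M hθ h3).2 χ (mem_Irr.2 h))
      (Nat.pos_of_ne_zero hm)
    refine ⟨h3, h1, h4, fun h5 => ?_⟩
    have h6 := st_res hM hφ hA h
    have h7 := mult_spec M h hθ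
    rw [h4, B_irr h5 hθ] at h7
    by_cases h8 : res M χ = θ
    · rw [h8] at h6
      have h9 : 0 < Nat.card M := Nat.card_pos
      have h10 := hl.out.two_le
      rw [h3, hX] at h6
      nlinarith
    · rw [if_neg h8] at h7
      norm_num at h7
  · left
    refine ⟨h3, ?_⟩
    obtain ⟨χ₀, h4, h5⟩ := ext_exists hM hφ hA hθ h3
    subst h5
    obtain ⟨μ, rfl⟩ := over_ext hM hφ hA h4 hθ h hm
    exact res_tw hM μ χ₀

/-- **the characters with reducible restriction** -/
theorem count_ni (Q : (X → ℂ) → Prop) (P : (M → ℂ) → Prop)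
    (hPQ : ∀ χ θ, IsIrrChar χ → IsIrrChar θ → mult M χ θ ≠ 0 → Nat.card (St M θ) = Nat.card M →
      (Q χ ↔ P θ)) :
    ℓ * ((Irr X).filter fun χ => ¬ IsIrrChar (res M χ) ∧ Q χ).card =
      ((Irr M).filter fun θ => Nat.card (St M θ) = Nat.card M ∧ P θ).card := by
  have hX := card_X hM hφ hA
  set S := (Irr X).filter fun χ => ¬ IsIrrChar (res M χ) ∧ Q χ with hS
  set T := (Irr M).filter fun θ => Nat.card (St M θ) = Nat.card M ∧ P θ with hT
  have h := Finset.sum_card_bipartiteAbove_eq_sum_card_bipartiteBelow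
    (s := S) (t := T) (fun χ θ => mult M χ θ ≠ 0)
  have hlt : Nat.card M < Nat.card X := by
    have h9 : 0 < Nat.card M := Nat.card_pos
    have h10 := hl.out.two_le
    rw [hX]
    nlinarith
  have h1 : ∀ χ ∈ S, (Finset.bipartiteAbove (fun χ θ => mult M χ θ ≠ 0) T χ).card = ℓ := by
    intro χ hχ
    obtain ⟨hc, hz, hq⟩ := Finset.mem_filter.mp hχ
    have hc := mem_Irr.mp hc
    have key : ∀ θ, IsIrrChar θ → mult M χ θ ≠ 0 →
        Nat.card (St M θ) = Nat.card M ∧ (Orb M θ).card = ℓ := by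
      intro θ ht hm
      rcases dich hM hφ hA hc ht hm with h2 | h2
      · exact absurd (by rw [h2.2]; exact ht) hz
      · exact ⟨h2.1, h2.2.1⟩
    obtain ⟨θ, ht, hm⟩ := mult_exists M hc
    rw [← (key θ ht hm).2, ← support_eq M hc ht hm]
    congr 1
    ext t
    simp only [Finset.bipartiteAbove, Finset.mem_filter, hT]
    constructor
    · rintro ⟨⟨h3, -⟩, h4⟩
      exact ⟨h3, h4⟩
    · rintro ⟨h3, h4⟩
      have h5 := key t (mem_Irr.1 h3) h4
      exact ⟨⟨h3, h5.1, (hPQ χ t hc (mem_Irr.1 h3) h4 h5.1).1 hq⟩, h4⟩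
  have h2 : ∀ θ ∈ T, (Finset.bipartiteBelow (fun χ θ => mult M χ θ ≠ 0) S θ).card = 1 := by
    intro θ hθ
    obtain ⟨ht, hst, hp⟩ := Finset.mem_filter.mp hθ
    have ht := mem_Irr.mp ht
    rw [← (unique_over M ht hst).1]
    congr 1
    ext χ
    simp only [Finset.bipartiteBelow, Finset.mem_filter, hS]
    constructor
    · rintro ⟨⟨h5, -⟩, h6⟩
      exact ⟨h5, h6⟩
    · rintro ⟨h5, h6⟩
      refine ⟨⟨h5, ?_, (hPQ χ θ (mem_Irr.1 h5) ht h6 hst).2 hp⟩, h6⟩
      rcases dich hM hφ hA (mem_Irr.1 h5) ht h6 with h7 | h7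
      · rw [h7.1] at hst
        omega
      · exact h7.2.2.2
  rw [Finset.sum_congr rfl h1, Finset.sum_congr rfl h2, Finset.sum_const, Finset.sum_const,
    smul_eq_mul, smul_eq_mul, mul_one] at h
  rw [← h, mul_comm]

/-- the degree of a character with reducible restriction -/
theorem deg_ni {χ : X → ℂ} (h : IsIrrChar χ) {θ : M → ℂ} (hθ : IsIrrChar θ)
    (hm : mult M χ θ ≠ 0) (hst : Nat.card (St M θ) = Nat.card M) {n d : ℕ} (hn : χ 1 = n)
    (hd : θ 1 = d) : n = ℓ * d := by
  rcases dich hM hφ hA h hθ hm with h1 | h1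
  · have hX := card_X hM hφ hA
    rw [h1.1, hX] at hst
    have h9 : 0 < Nat.card M := Nat.card_pos
    have h10 := hl.out.two_le
    nlinarith
  · rw [deg_eq M h hθ hm hn hd, h1.2.1, h1.2.2.1, mul_one]

/-- sums over `M` of a class function times a character with reducible restriction -/
theorem sum_ni {χ : X → ℂ} (h : IsIrrChar χ) {θ : M → ℂ} (hθ : IsIrrChar θ)
    (hm : mult M χ θ ≠ 0) (hst : Nat.card (St M θ) = Nat.card M) (f : X → ℂ)
    (hf : ∀ g x : X, f (g * x * g⁻¹) = f x) :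
    ∑ m : M, f m * χ m = ℓ * ∑ m : M, f m * θ m := by
  rcases dich hM hφ hA h hθ hm with h1 | h1
  · have hX := card_X hM hφ hA
    rw [h1.1, hX] at hst
    have h9 : 0 < Nat.card M := Nat.card_pos
    have h10 := hl.out.two_le
    nlinarith
  · have h2 : res M χ = ∑ t ∈ Orb M θ, t := by
      rw [res_eq M h, ← support_eq M h hθ hm, Finset.sum_filter]
      refine Finset.sum_congr rfl fun t ht => ?_
      by_cases h3 : mult M χ t = 0
      · rw [if_neg (not_not.2 h3), h3, Nat.cast_zero, zero_smul]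
      · rw [if_pos h3]
        have h4 := mem_Orb_of_mult M h hθ (mem_Irr.1 ht) hm h3
        obtain ⟨x, -, rfl⟩ := Finset.mem_image.1 h4
        rw [Pool.Agent.Y63.AWC.mult_cj M h hθ, h1.2.2.1, Nat.cast_one, one_smul]
    have h3 : ∀ m : M, χ m = ∑ t ∈ Orb M θ, t m := by
      intro m
      have := congrFun h2 m
      rw [Finset.sum_apply] at this
      exact this
    have h4 : ∀ t ∈ Orb M θ, ∑ m : M, f m * t m = ∑ m : M, f m * θ m := by
      intro t ht
      obtain ⟨x, -, rfl⟩ := Finset.mem_image.1 ht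
      refine Fintype.sum_equiv (MulAut.conjNormal x).toEquiv _ _ fun m => ?_
      change f m * θ (MulAut.conjNormal x m) = f ((MulAut.conjNormal x m : M) : X) *
        θ (MulAut.conjNormal x m)
      rw [MulAut.conjNormal_apply, hf]
    calc ∑ m : M, f m * χ m = ∑ m : M, ∑ t ∈ Orb M θ, f m * t m :=
          Finset.sum_congr rfl fun m _ => by rw [h3, Finset.mul_sum]
      _ = ∑ t ∈ Orb M θ, ∑ m : M, f m * t m := Finset.sum_comm
      _ = ∑ t ∈ Orb M θ, ∑ m : M, f m * θ m := Finset.sum_congr rfl h4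
      _ = _ := by rw [Finset.sum_const, h1.2.1, nsmul_eq_mul]

end

end Run7.h759.DI
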