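import Pool.Agent.Run7.h759.DI.Tws3

/-!
# Complemented normal subgroups of prime order: the theorem (helper759)
-/

set_option autoImplicit false
set_option linter.unusedSectionVars false

open scoped Classical BigOperators

noncomputable section

namespace Run7.h759.DI

open Pool.Agent.Y63.NV (IsClassFun centralValue IsBlock numDzBlock)
open Pool.Agent.Helper884.IC (IsIrrChar IsClass Irr mem_Irr expand)
open Pool.Agent.Y63.KR (IsPChain chainStabilizer conjSub)
open Pool.Agent.R674.Tw (Fixes GCh NG NEbar invSum)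
open Pool.Agent.Q99.AS (Dft Dft_unique)
open Pool.Agent.N237.DI (Iso2 Proj Inr Blk kS kS_conj rad_kS kdGe_kS)
open Pool.Agent.N20.DI (InvBl kdGe radSum)

/-- the number of the crossed homomorphisms -/
def nX {U : Type} [Group U] (A : Subgroup U) [A.Normal] : ℕ := Nat.card (Cr A)

theorem emp_card {T : Type} {P : T → Prop} (h : ∀ x, P x → False) :
    ((Nat.card {x : T // P x} : ℕ) : ℤ) = 0 := by
  rw [Nat.cast_eq_zero]
  have : IsEmpty {x : T // P x} := ⟨fun x => h x.1 x.2⟩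
  exact Nat.card_of_isEmpty

variable {U : Type} [Group U] {A : Subgroup U} {ℓ p : ℕ} [hl : Fact ℓ.Prime] [hp : Fact p.Prime]
  {F : Type} [Field F] [IsAlgClosed F] [CharP F p] (red : integralClosure ℤ ℂ →+* F)

section cnt

variable {E : Type} [Group E] [Finite E] {q : E →* U} {G : Subgroup E} [hAn : A.Normal]

theorem t_cr (hq : q.ker = G) (hA : Nat.card A = ℓ) {c : U → A →* ℂˣ} (hc : ¬ IsCr A c) (z : E → F)
    (D : ℕ) (S : Subgroup E) : yc p red (G_le A hq) c z 1 D S = 0 :=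
  emp_card fun _ h => hc (coc_cr hq hA h.1 h.2.1 h.2.2.2.1)

theorem u_zero (hq : q.ker = G) [G.Normal] {B : (G → F) → F} {z : E → F} (hz : ZB p red G B z)
    (hB0 : numDzBlock p red B = 0) :
    al p G (fun S => (Nat.card ↥(G ⊓ S) : ℤ) * xc p red G q ⊤ z 1 0 S) = 0 := by
  refine al_zero fun σ k1 k2 => ?_
  have h : xc p red G q ⊤ z 1 0 (chainStabilizer σ) = 0 :=
    emp_card fun _ h => hz.no_dz hB0 k1 k2 h.1 h.2.1 h.2.2.2
  rw [h, mul_zero]

theorem t_sum (hq : q.ker = G) (hA : Nat.card A = ℓ) (z : E → F) (D : ℕ)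
    [Fintype (U → A →* ℂˣ)] :
    ∑ c : U → A →* ℂˣ, al p G (fun S => (Nat.card ↥(G ⊓ S) : ℤ) *
        yc p red (G_le A hq) c z 1 D S) =
      (ℓ : ℤ) * al p G (fun S => (Nat.card ↥(G ⊓ S) : ℤ) * xc p red G q ⊤ z 1 D S) := by
  rw [← al_sum, ← al_mul]
  refine al_congr fun σ _ _ => ?_
  rw [← Finset.mul_sum, ext_sum red hq hA p z 1 D (chainStabilizer σ)]
  ring

end cnt

/-- the counts in the central extension -/
structure Cx (p : ℕ) (red : integralClosure ℤ ℂ →+* F) {E₂ : Type} [Group E₂] [Finite E₂]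
    (q₂ : E₂ →* U) (A : Subgroup U) [A.Normal] (N y m : ℤ) : Prop where
  yv : ∀ c : U → A →* ℂˣ, IsCr A c → al p q₂.ker (fun S => (Nat.card ↥(q₂.ker ⊓ S) : ℤ) *
    yc p red (G_le A (rfl : q₂.ker = _)) c (dt F E₂) 1 0 S) = N * y
  y0 : ∀ (c : U → A →* ℂˣ) (j : ℕ), j ≠ 0 → al p q₂.ker (fun S =>
    (Nat.card ↥(q₂.ker ⊓ S) : ℤ) * yc p red (G_le A (rfl : q₂.ker = _)) c (dt F E₂) 1 j S) = 0
  xv : al p q₂.ker (fun S => (Nat.card ↥(q₂.ker ⊓ S) : ℤ) *
    xc p red q₂.ker q₂ ⊤ (dt F E₂) 1 0 S) = N * m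
  x0 : ∀ j : ℕ, j ≠ 0 → al p q₂.ker (fun S => (Nat.card ↥(q₂.ker ⊓ S) : ℤ) *
    xc p red q₂.ker q₂ ⊤ (dt F E₂) 1 j S) = 0
  N0 : N ≠ 0
  m0 : m ≠ 0

/-- the central extension -/
theorem exists_cx [Finite U] [hAn : A.Normal] (hA : Nat.card A = ℓ) (hlp : ℓ ≠ p)
    (hc : nC A ≠ 0) :
    ∃ (E₂ : Type) (_ : Group E₂) (_ : Finite E₂) (q₂ : E₂ →* U) (N y m : ℤ),
      Function.Surjective q₂ ∧ Cx p red q₂ A N y m ∧ (nX A : ℤ) * y = ℓ * m := by
  obtain ⟨⟨V, hV1, hV2⟩⟩ := (Nat.card_pos_iff.1 (Nat.pos_of_ne_zero hc)).1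
  have hcm : ∀ a b : A, a * b = b * a := by
    intro a b
    have hcy : IsCyclic A := isCyclic_of_prime_card hA
    let _ : CommGroup A := IsCyclic.commGroup
    exact mul_comm a b
  obtain ⟨s, hs, hs'⟩ := exists_sA hcm hV1 hV2
  have hf := fin_cr A hA
  have hfinA : Finite A := fin_A hl.out hA
  have hfinD : Finite (A →* ℂˣ) := by
    apply Nat.finite_of_card_ne_zero
    rw [card_dual hA]
    exact hl.out.ne_zero
  have hz : NeZero ℓ := ⟨hl.out.ne_zero⟩
  set α : Cyc2 (Cr A → rootsOfUnity ℓ ℂ) U := cyc A hA s hs hs' with hαd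
  have hα : ∀ (c : Cr A) (g : U) (a : A), ((α.f g a c : rootsOfUnity ℓ ℂ) : ℂˣ) = c.1 g a := by
    intro c g a
    change c.1 g (s (a : U)) = c.1 g a
    rw [hs']
  have hα' : ∀ (c : Cr A) (a : A) (g : U), α.f a g c = 1 := by
    intro c a g
    apply Subtype.ext
    change c.1 a (s g) = 1
    rw [c.2.2 a a.2]
    rfl
  have hG : ¬ p ∣ Nat.card (TwG.q α).ker := by
    rw [TwG.card_ker]
    exact card_Z A hA hlp
  have hG' : ¬ p ∣ Nat.card ↥((TwG.q α).ker ⊓ ⊤) := by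
    rwa [inf_top_eq]
  have _iC : Fintype (U → A →* ℂˣ) := Fintype.ofFinite _
  refine ⟨TwG α, inferInstance, inferInstance, TwG.q α,
    (Nat.card ↥((TwG.q α).ker ⊓ ⊤) : ℤ),
    yc p red (G_le A (rfl : (TwG.q α).ker = _)) 1 (dt F (TwG α)) 1 0 ⊤,
    xc p red (TwG.q α).ker (TwG.q α) ⊤ (dt F (TwG α)) 1 0 ⊤, TwG.q_surj α,
    ⟨fun c hc => ?_, fun c j hj => ?_, ?_, fun j hj => ?_, ?_, xc_pos red α hG⟩, ?_⟩
  · rw [al_pp hG, yc_cr red α hα hα' 0 ⊤ hc]
  · rw [al_pp hG]
    have h : yc p red (G_le A (rfl : (TwG.q α).ker = _)) c (dt F (TwG α)) 1 j ⊤ = 0 :=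
      emp_card fun _ h => hj (dft_pp hG' h.2.2.1)
    rw [h, mul_zero]
  · rw [al_pp hG]
  · rw [al_pp hG]
    have h : xc p red (TwG.q α).ker (TwG.q α) ⊤ (dt F (TwG α)) 1 j ⊤ = 0 :=
      emp_card fun _ h => hj (dft_pp hG' h.2.1)
    rw [h, mul_zero]
  · exact_mod_cast Nat.card_pos.ne'
  · rw [← ext_sum red (rfl : (TwG.q α).ker = _) hA p (dt F (TwG α)) 1 0 ⊤]
    have h1 : ∀ c : U → A →* ℂˣ,
        yc p red (G_le A (rfl : (TwG.q α).ker = _)) c (dt F (TwG α)) 1 0 ⊤ =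
        if IsCr A c then yc p red (G_le A (rfl : (TwG.q α).ker = _)) 1 (dt F (TwG α)) 1 0 ⊤
          else 0 := by
      intro c
      split_ifs with h
      · exact yc_cr red α hα hα' 0 ⊤ h
      · exact t_cr red (rfl : (TwG.q α).ker = _) hA h _ 0 ⊤
    rw [Finset.sum_congr rfl fun c _ => h1 c, ← Finset.sum_filter, Finset.sum_const, nsmul_eq_mul]
    congr 2
    unfold nX Cr
    exact Nat.subtype_card _ fun c => by simp

/-- **complemented normal subgroups of prime order** -/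
theorem ok_compl [hAn : A.Normal] (hA : Nat.card A = ℓ) (hlp : ℓ ≠ p)
    (hc : nC A * nX A ≠ ℓ ^ 2) (hW : Ok p red (U ⧸ A)) : Ok p red U := by
  by_cases hc0 : nC A = 0
  · exact ok_prime red hA (Or.inl hc0) hW
  intro E _ _ G hGn hi hO B hB hB0 d
  obtain ⟨i⟩ := hi
  let q : E →* U := i.toMonoidHom.comp (QuotientGroup.mk' G)
  have hs : Function.Surjective q := surj_iso G i
  have hq : q.ker = G := ker_iso G i
  have hU : Finite U := Finite.of_surjective q hs
  by_cases hI : InvBl G ⊤ B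
  swap
  · have h0 : (fun σ => (kdGe p red G B d ⊤ σ : ℤ)) = fun _ => 0 :=
      funext fun σ => kd_zero red hB hI d σ
    rw [h0]
    unfold radSum
    rw [finsum_congr fun c => mul_zero _]
    exact finsum_zero
  obtain ⟨z, h1, h2, h3, h4, h5⟩ := z01 hB hI
  have hz : ZB p red G B z := ⟨h1, h2, h3, h4, h5⟩
  have hfinA : Finite A := fin_A hl.out hA
  have hfinD : Finite (A →* ℂˣ) := by
    apply Nat.finite_of_card_ne_zero
    rw [card_dual hA]
    exact hl.out.ne_zero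
  have _iC : Fintype (U → A →* ℂˣ) := Fintype.ofFinite _
  obtain ⟨E₂, _, _, q₂, N, y, m, hs₂, hX, hnX⟩ := exists_cx (A := A) red hA hlp hc0
  have hv : Z01 p red G z := hz.z01
  have hv' : Z01 p red q₂.ker (dt F E₂) := fun σ _ _ θ hθ => Or.inr (cv_dt red hθ)
  have h1' : ∀ g x, dt F E₂ (g * x * g⁻¹) = dt F E₂ x := fun g x => dt_conj g x
  have hF := fp_FP q q₂
  have h6 : ∀ g x, (fun x : fpG q q₂ => z ((fpG q q₂).subtype x).1 *
      dt F E₂ ((fpG q q₂).subtype x).2) (g * x * g⁻¹) = (fun x : fpG q q₂ =>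
      z ((fpG q q₂).subtype x).1 * dt F E₂ ((fpG q q₂).subtype x).2) x := by
    intro g x
    change z ((g : E × E₂).1 * (x : E × E₂).1 * (g : E × E₂).1⁻¹) *
      dt F E₂ ((g : E × E₂).2 * (x : E × E₂).2 * (g : E × E₂).2⁻¹) = _
    rw [h1, h1']
    rfl
  have h7 : ∀ x, x ∉ (fpq q q₂).ker → (fun x : fpG q q₂ => z ((fpG q q₂).subtype x).1 *
      dt F E₂ ((fpG q q₂).subtype x).2) x = 0 := by
    intro x hx
    have h8 : (x : E × E₂).1 ∉ G := by
      intro h
      apply hx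
      rw [MonoidHom.mem_ker]
      exact (mem_G hq).1 h
    change z (x : E × E₂).1 * _ = 0
    rw [h2 _ h8, zero_mul]
  have hsF := hF.surj_q hs hs₂
  set t : (U → A →* ℂˣ) → ℕ → ℤ := fun c D => al p G (fun S => (Nat.card ↥(G ⊓ S) : ℤ) *
    yc p red (G_le A hq) c z 1 D S) with ht
  set u : ℕ → ℤ := fun D => al p G (fun S => (Nat.card ↥(G ⊓ S) : ℤ) *
    xc p red G q ⊤ z 1 D S) with hu
  have hmain : u d = 0 := by
    rcases Nat.eq_zero_or_pos d with rfl | hd
    · exact u_zero red hq hz hB0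
    have k1 := rel red (rfl : (fpq q q₂).ker = _) hsF hA hW h6 h7 1 hd
    have k2 := al_yc_prod hF rfl hq rfl hs hs₂ red hA p h1 h1' hv hv' d
    have k3 := al_xc_prod hF rfl hq rfl hs hs₂ red p h1 h1' hv hv' d
    have hfac : ℓ.factorization p = 0 := by
      rw [hl.out.factorization, Finsupp.single_eq_of_ne hlp.symm]
    rw [hfac, add_zero] at k1
    rw [k2, k3] at k1
    have k4 : ∑ i ∈ Finset.HasAntidiagonal.antidiagonal d ×ˢ
        (Finset.univ : Finset (U → A →* ℂˣ)), t i.2 i.1.1 *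
          al p q₂.ker (fun S => (Nat.card ↥(q₂.ker ⊓ S) : ℤ) *
            yc p red (G_le A (rfl : q₂.ker = _)) i.2⁻¹ (dt F E₂) 1 i.1.2 S) =
        N * y * (ℓ * u d) := by
      rw [Finset.sum_product, Finset.sum_eq_single (d, 0)]
      · rw [← t_sum red hq hA z d, Finset.mul_sum]
        refine Finset.sum_congr rfl fun c _ => ?_
        change t c d * al p q₂.ker (fun S => (Nat.card ↥(q₂.ker ⊓ S) : ℤ) *
            yc p red (G_le A (rfl : q₂.ker = _)) c⁻¹ (dt F E₂) 1 0 S) = N * y * t c d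
        by_cases hcr : IsCr A c
        · rw [hX.yv c⁻¹ hcr.inv]
          ring
        · have h0 : t c d = 0 := al_zero fun σ _ _ => by rw [t_cr red hq hA hcr, mul_zero]
          rw [h0]
          ring
      · rintro ⟨a, b⟩ hab hne
        refine Finset.sum_eq_zero fun c _ => ?_
        have hb : b ≠ 0 := by
          rintro rfl
          apply hne
          have h8 : a + 0 = d := Finset.HasAntidiagonal.mem_antidiagonal.1 hab
          rw [← h8, add_zero]
        change t c a * al p q₂.ker (fun S => (Nat.card ↥(q₂.ker ⊓ S) : ℤ) *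
            yc p red (G_le A (rfl : q₂.ker = _)) c⁻¹ (dt F E₂) 1 b S) = 0
        rw [hX.y0 _ b hb, mul_zero]
      · intro h
        exact absurd (Finset.HasAntidiagonal.mem_antidiagonal.2 (add_zero d)) h
    have k5 : ∑ i ∈ Finset.HasAntidiagonal.antidiagonal d, u i.1 *
          al p q₂.ker (fun S => (Nat.card ↥(q₂.ker ⊓ S) : ℤ) *
            xc p red q₂.ker q₂ ⊤ (dt F E₂) 1 i.2 S) = u d * (N * m) := by
      rw [Finset.sum_eq_single (d, 0)]
      · change u d * al p q₂.ker (fun S => (Nat.card ↥(q₂.ker ⊓ S) : ℤ) *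
            xc p red q₂.ker q₂ ⊤ (dt F E₂) 1 0 S) = _
        rw [hX.xv]
      · rintro ⟨a, b⟩ hab hne
        have hb : b ≠ 0 := by
          rintro rfl
          apply hne
          have h8 : a + 0 = d := Finset.HasAntidiagonal.mem_antidiagonal.1 hab
          rw [← h8, add_zero]
        change u a * al p q₂.ker (fun S => (Nat.card ↥(q₂.ker ⊓ S) : ℤ) *
            xc p red q₂.ker q₂ ⊤ (dt F E₂) 1 b S) = 0
        rw [hX.x0 b hb, mul_zero]
      · intro h
        exact absurd (Finset.HasAntidiagonal.mem_antidiagonal.2 (add_zero d)) h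
    have k6 : N * y * (ℓ * u d) = (nC A : ℤ) * (u d * (N * m)) := by
      rw [← k4, ← k5]
      exact k1
    have k7 : N * (m * (((ℓ : ℤ) ^ 2 - nC A * nX A) * u d)) = 0 := by
      have e1 : (nX A : ℤ) * (N * y * (ℓ * u d)) = (nX A : ℤ) * ((nC A : ℤ) * (u d * (N * m))) := by
        rw [k6]
      have e2 : (nX A : ℤ) * (N * y * (ℓ * u d)) = N * (ℓ * m) * (ℓ * u d) := by
        rw [← hnX]
        ring
      rw [e2] at e1
      linear_combination e1
    have k8 : ((ℓ : ℤ) ^ 2 - nC A * nX A) ≠ 0 := by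
      intro h
      apply hc
      have h9 : (nC A * nX A : ℤ) = (ℓ : ℤ) ^ 2 := by linarith
      exact_mod_cast h9
    rcases mul_eq_zero.1 k7 with h | h
    · exact absurd h hX.N0
    rcases mul_eq_zero.1 h with h | h
    · exact absurd h hX.m0
    rcases mul_eq_zero.1 h with h | h
    · exact absurd h k8
    · exact h
  exact rad_of_al red hq hs hz hmain

end Run7.h759.DI
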