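import Pool.Agent.Run7.h759.DI.Quo

/-!
# Crossed homomorphisms and a central extension (helper759)
-/

set_option autoImplicit false
set_option linter.unusedSectionVars false

open scoped Classical BigOperators

noncomputable section

namespace Run7.h759.DI

open Pool.Agent.Y63.NV (IsClassFun centralValue IsBlock numDzBlock)
open Pool.Agent.Helper884.IC (IsIrrChar IsClass Irr mem_Irr)
open Pool.Agent.Q99.AS (Dft)

section cr

variable {U : Type} [Group U] (A : Subgroup U) [hAn : A.Normal]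

/-- conjugation on `A` -/
def cjA (u : U) (a : A) : A := ⟨u * a * u⁻¹, hAn.conj_mem _ a.2 u⟩

theorem cjA_mul (u : U) (a b : A) : cjA A u (a * b) = cjA A u a * cjA A u b := by
  apply Subtype.ext
  change u * (a * b) * u⁻¹ = (u * a * u⁻¹) * (u * b * u⁻¹)
  group

/-- `c` is a crossed homomorphism from `U / A` to the linear characters of `A` -/
def IsCr (c : U → A →* ℂˣ) : Prop :=
  (∀ (u u' : U) (a : A), c (u * u') a = c u (cjA A u' a) * c u' a) ∧ ∀ b ∈ A, c b = 1

variable {A}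

theorem IsCr.one : IsCr A (1 : U → A →* ℂˣ) := by
  refine ⟨fun u u' a => ?_, fun b _ => rfl⟩
  change (1 : ℂˣ) = 1 * 1
  rw [one_mul]

theorem IsCr.mul {c c' : U → A →* ℂˣ} (h : IsCr A c) (h' : IsCr A c') : IsCr A (c * c') := by
  refine ⟨fun u u' a => ?_, fun b hb => ?_⟩
  · change c (u * u') a * c' (u * u') a = (c u (cjA A u' a) * c' u (cjA A u' a)) *
      (c u' a * c' u' a)
    rw [h.1, h'.1]
    exact mul_mul_mul_comm _ _ _ _
  · change c b * c' b = 1
    rw [h.2 b hb, h'.2 b hb]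
    exact MonoidHom.ext fun x => one_mul _

theorem IsCr.inv {c : U → A →* ℂˣ} (h : IsCr A c) : IsCr A c⁻¹ := by
  refine ⟨fun u u' a => ?_, fun b hb => ?_⟩
  · change (c (u * u') a)⁻¹ = (c u (cjA A u' a))⁻¹ * (c u' a)⁻¹
    rw [h.1, mul_inv]
  · change (c b)⁻¹ = 1
    rw [h.2 b hb]
    exact MonoidHom.ext fun x => inv_one

/-- the projection to `A` along a complement -/
theorem exists_sA (hc : ∀ a b : A, a * b = b * a) {V : Subgroup U} (h1 : V ⊓ A = ⊥)
    (h2 : V ⊔ A = ⊤) : ∃ s : U → A, (∀ u u', s (u * u') = s u * cjA A u (s u')) ∧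
      ∀ a : A, s (a : U) = a := by
  have hex : ∀ u : U, ∃ a : A, (a : U)⁻¹ * u ∈ V := by
    intro u
    have h3 : u ∈ V ⊔ A := by
      rw [h2]
      trivial
    rw [sup_comm, Subgroup.mem_sup_of_normal_left] at h3
    obtain ⟨a, ha, v, hv, rfl⟩ := h3
    exact ⟨⟨a, ha⟩, by
      change a⁻¹ * (a * v) ∈ V
      rwa [inv_mul_cancel_left]⟩
  choose s hs using hex
  have huniq : ∀ (u : U) (a : A), (a : U)⁻¹ * u ∈ V → s u = a := by
    intro u a ha
    have h3 : ((s u : U)⁻¹ * u) * ((a : U)⁻¹ * u)⁻¹ ∈ V := V.mul_mem (hs u) (V.inv_mem ha)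
    have h4 : ((s u : U)⁻¹ * u) * ((a : U)⁻¹ * u)⁻¹ = (s u : U)⁻¹ * a := by group
    rw [h4] at h3
    have h5 : (s u : U)⁻¹ * a ∈ V ⊓ A := ⟨h3, A.mul_mem (A.inv_mem (s u).2) a.2⟩
    rw [h1, Subgroup.mem_bot] at h5
    exact Subtype.ext (inv_mul_eq_one.1 h5)
  refine ⟨s, fun u u' => huniq _ _ ?_, fun a => huniq _ _ ?_⟩
  · have e1 : cjA A u (s u') = cjA A ((s u : U)⁻¹ * u) (s u') := by
      have h3 : cjA A ((s u : U)⁻¹ * u) (s u') = (s u)⁻¹ * cjA A u (s u') * s u := by
        apply Subtype.ext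
        change ((s u : U)⁻¹ * u) * (s u') * ((s u : U)⁻¹ * u)⁻¹ =
          (s u : U)⁻¹ * (u * s u' * u⁻¹) * s u
        group
      rw [h3, hc, ← mul_assoc, mul_inv_cancel, one_mul]
    have e2 : ((s u * cjA A u (s u') : A) : U)⁻¹ * (u * u') =
        ((s u : U)⁻¹ * u) * ((s u' : U)⁻¹ * u') := by
      rw [e1]
      change ((s u : U) * (((s u : U)⁻¹ * u) * s u' * ((s u : U)⁻¹ * u)⁻¹))⁻¹ * (u * u') = _
      group
    rw [e2]
    exact V.mul_mem (hs u) (hs u')
  · rw [inv_mul_cancel]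
    exact V.one_mem

end cr

/-- a normalised 2-cocycle with trivial action -/
structure Cyc2 (Z U : Type) [CommGroup Z] [Group U] where
  /-- the values -/
  f : U → U → Z
  /-- the cocycle identity -/
  coc : ∀ g h k, f g h * f (g * h) k = f h k * f g (h * k)
  /-- normalised -/
  ol : ∀ g, f 1 g = 1
  /-- normalised -/
  or : ∀ g, f g 1 = 1

/-- the central extension -/
structure TwG {Z U : Type} [CommGroup Z] [Group U] (α : Cyc2 Z U) where
  /-- the central component -/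
  z : Z
  /-- the image in `U` -/
  u : U

section twg

variable {Z U : Type} [CommGroup Z] [Group U] {α : Cyc2 Z U}

@[ext] theorem TwG.ext' {a b : TwG α} (h : a.z = b.z) (h' : a.u = b.u) : a = b := by
  cases a
  cases b
  subst h
  subst h'
  rfl

instance : Mul (TwG α) := ⟨fun a b => ⟨a.z * b.z * α.f a.u b.u, a.u * b.u⟩⟩
instance : One (TwG α) := ⟨⟨1, 1⟩⟩
instance : Inv (TwG α) := ⟨fun a => ⟨a.z⁻¹ * (α.f a.u⁻¹ a.u)⁻¹, a.u⁻¹⟩⟩

theorem TwG.mul_z (a b : TwG α) : (a * b).z = a.z * b.z * α.f a.u b.u := rfl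
theorem TwG.mul_u (a b : TwG α) : (a * b).u = a.u * b.u := rfl

instance : Group (TwG α) := Group.ofLeftAxioms
  (fun a b c => by
    apply TwG.ext'
    · change (a.z * b.z * α.f a.u b.u) * c.z * α.f (a.u * b.u) c.u =
        a.z * (b.z * c.z * α.f b.u c.u) * α.f a.u (b.u * c.u)
      have h := α.coc a.u b.u c.u
      calc (a.z * b.z * α.f a.u b.u) * c.z * α.f (a.u * b.u) c.u
          = a.z * b.z * c.z * (α.f a.u b.u * α.f (a.u * b.u) c.u) := by
            simp only [mul_comm, mul_left_comm, mul_assoc]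
        _ = a.z * b.z * c.z * (α.f b.u c.u * α.f a.u (b.u * c.u)) := by rw [h]
        _ = _ := by simp only [mul_comm, mul_left_comm, mul_assoc]
    · exact mul_assoc _ _ _)
  (fun a => by
    apply TwG.ext'
    · change 1 * a.z * α.f 1 a.u = a.z
      rw [α.ol, one_mul, mul_one]
    · exact one_mul _)
  (fun a => by
    apply TwG.ext'
    · change (a.z⁻¹ * (α.f a.u⁻¹ a.u)⁻¹) * a.z * α.f a.u⁻¹ a.u = 1
      rw [mul_comm a.z⁻¹, mul_assoc _ a.z⁻¹, inv_mul_cancel, mul_one, inv_mul_cancel]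
    · exact inv_mul_cancel _)

/-- the map to `U` -/
def TwG.q (α : Cyc2 Z U) : TwG α →* U where
  toFun a := a.u
  map_one' := rfl
  map_mul' _ _ := rfl

theorem TwG.q_surj (α : Cyc2 Z U) : Function.Surjective (TwG.q α) := fun u => ⟨⟨1, u⟩, rfl⟩

instance [Finite Z] [Finite U] : Finite (TwG α) :=
  Finite.of_injective (fun a : TwG α => (a.z, a.u)) (by
    intro a b h
    exact TwG.ext' (congrArg Prod.fst h) (congrArg Prod.snd h))

/-- the kernel -/
theorem TwG.card_ker (α : Cyc2 Z U) : Nat.card (TwG.q α).ker = Nat.card Z := by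
  refine Nat.card_congr ⟨fun x => x.1.z, fun z => ⟨⟨z, 1⟩, rfl⟩, fun x => ?_, fun z => rfl⟩
  apply Subtype.ext
  refine TwG.ext' rfl ?_
  exact (MonoidHom.mem_ker.1 x.2).symm

end twg

section cyc

variable {U : Type} [Group U] (A : Subgroup U) [hAn : A.Normal] {ℓ : ℕ}

/-- the crossed homomorphisms -/
def Cr : Type := {c : U → A →* ℂˣ // IsCr A c}

/-- the cocycle -/
def cyc (hA : Nat.card A = ℓ) (s : U → A) (hs : ∀ u u', s (u * u') = s u * cjA A u (s u'))
    (hs' : ∀ a : A, s (a : U) = a) : Cyc2 (Cr A → rootsOfUnity ℓ ℂ) U where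
  f g g' := fun c => ⟨c.1 g (s g'), by
    rw [mem_rootsOfUnity, ← map_pow, ← hA, pow_card_eq_one', map_one]⟩
  coc g h k := by
    funext c
    apply Subtype.ext
    change c.1 g (s h) * c.1 (g * h) (s k) = c.1 h (s k) * c.1 g (s (h * k))
    rw [c.2.1, hs, map_mul]
    rw [mul_comm (c.1 h (s k)), mul_assoc]
  ol g := by
    funext c
    apply Subtype.ext
    change c.1 1 (s g) = 1
    rw [c.2.2 1 A.one_mem]
    rfl
  or g := by
    funext c
    apply Subtype.ext
    change c.1 g (s 1) = 1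
    have h1 : s ((1 : A) : U) = 1 := hs' 1
    rw [OneMemClass.coe_one] at h1
    rw [h1, map_one]

end cyc

end Run7.h759.DI
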