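import Pool.Agent.Run7.h759.DI.Al

/-!
# The chains of `p`-subgroups of `N` and of a smaller normal subgroup `G` (helper759)

The arguments of `Pool.Agent.N723.DIDEC` and `Pool.Agent.N55.DICH`, with the stabilisers in the
whole group.
-/

set_option autoImplicit false
set_option linter.unusedSectionVars false

open scoped Classical

noncomputable section

namespace Run7.h759.DI

open Pool.Agent.Y63.KR (IsPChain chainStabilizer conjSub conjSub_eq_iff mem_chainStabilizer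
  mem_conjSub conjSub_le conj_mem_conjSub)
open Pool.Agent.R674.Tw (GCh NG Fixes invSum card_mul_inv)
open Pool.Agent.R674.Ce (chs wt Sp chs_sub chs_eq conjSub_inf conjSub_self conjSub_normal)
open Pool.Agent.N723.DI (lt_inf_normalizer)
open Pool.Agent.N55.DI (L mem_L L_le L_inj L_bot conjSub_L stab_L)

variable {Γ : Type} [Group Γ] [Finite Γ]

/-- the chains of `p`-subgroups which meet `G` nontrivially -/
theorem chs_meetN {p : ℕ} {G : Subgroup Γ} [G.Normal] {N : Subgroup Γ} (hGN : G ≤ N)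
    (f : Subgroup Γ → ℤ) :
    chs {P | P ∈ Sp p N ∧ G ⊓ P ≠ ⊥} (wt ⊤ f) = chs (Sp p G) (wt ⊤ f) := by
  have e1 := chs_sub (J := ⊤) f {P | P ∈ Sp p N ∧ G ⊓ P ≠ ⊥} (fun P => G ⊓ P)
    (by
      rintro P ⟨⟨hP, hP1, hPK⟩, hP0⟩
      refine ⟨⟨hP.to_le inf_le_right, hP0, inf_le_left.trans hGN⟩, ?_⟩
      rw [← inf_assoc, inf_idem]
      exact hP0)
    (fun P _ => by
      change G ⊓ (G ⊓ P) = G ⊓ P
      rw [← inf_assoc, inf_idem])
    (fun P _ Q _ h => inf_le_inf_left _ h)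
    (fun P _ => inf_le_right)
    (fun P _ x _ h => by
      rw [conjSub_inf, h, conjSub_normal])
  have s1 : {a | a ∈ ({P | P ∈ Sp p N ∧ G ⊓ P ≠ ⊥} : Set (Subgroup Γ)) ∧
      (fun P => G ⊓ P) a = a} = Sp p G := by
    ext P
    constructor
    · rintro ⟨⟨⟨hP, _, _⟩, hP0⟩, h2⟩
      have h3 : G ⊓ P = P := h2
      exact ⟨hP, by rw [← h3]; exact hP0, inf_eq_right.mp h3⟩
    · rintro ⟨hP, hP0, hPG⟩
      have h3 : G ⊓ P = P := inf_eq_right.mpr hPG
      exact ⟨⟨⟨hP, hP0, hPG.trans hGN⟩, by rw [h3]; exact hP0⟩, h3⟩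
  rw [s1] at e1
  exact e1

/-- the chains above `R` in `N` and in the normaliser of `R` in `N` -/
theorem chs_normN {p : ℕ} [Fact p.Prime] (N R : Subgroup Γ) (f : Subgroup Γ → ℤ) :
    chs {P : Subgroup Γ | IsPGroup p P ∧ R < P ∧ P ≤ N}
        (wt (Subgroup.normalizer (R : Set Γ)) f) =
      chs {P : Subgroup Γ | IsPGroup p P ∧ R < P ∧ P ≤ N ⊓ Subgroup.normalizer (R : Set Γ)}
        (wt (Subgroup.normalizer (R : Set Γ)) f) := by
  set M := Subgroup.normalizer (R : Set Γ) with hM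
  have e1 := chs_sub (J := M) f {P : Subgroup Γ | IsPGroup p P ∧ R < P ∧ P ≤ N}
    (fun P => P ⊓ M)
    (by
      rintro P ⟨hP, hR, hPK⟩
      exact ⟨hP.to_le inf_le_left, lt_inf_normalizer hP hR, inf_le_left.trans hPK⟩)
    (fun P _ => by
      change P ⊓ M ⊓ M = P ⊓ M
      rw [inf_assoc, inf_idem])
    (fun P _ Q _ h => inf_le_inf_right _ h)
    (fun P _ => inf_le_left)
    (fun P _ x hx h => by
      rw [conjSub_inf, h, conjSub_self hx])
  have s1 : {a | a ∈ ({P : Subgroup Γ | IsPGroup p P ∧ R < P ∧ P ≤ N} : Set (Subgroup Γ)) ∧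
      (fun P => P ⊓ M) a = a} = {P : Subgroup Γ | IsPGroup p P ∧ R < P ∧ P ≤ N ⊓ M} := by
    ext P
    constructor
    · rintro ⟨⟨hP, hR, hPK⟩, h2⟩
      have h3 : P ⊓ M = P := h2
      exact ⟨hP, hR, le_inf hPK (inf_eq_left.mp h3)⟩
    · rintro ⟨hP, hR, hPK⟩
      exact ⟨⟨hP, hR, hPK.trans inf_le_left⟩, inf_eq_left.mpr (hPK.trans inf_le_right)⟩
  rw [s1] at e1
  exact e1

/-- the chains with least element `R` -/
lemma sum_leastN [Fintype (Set (Subgroup Γ))] {p : ℕ} [Fact p.Prime] (N : Subgroup Γ)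
    (f : Subgroup Γ → ℤ) {R : Subgroup Γ} (hR : IsPGroup p R) (hR0 : R ≠ ⊥) (hRN : R ≤ N) :
    ∑ σ ∈ (Finset.univ : Finset (Set (Subgroup Γ))).filter
      (fun σ => (σ ⊆ Sp p N ∧ IsChain (· ≤ ·) σ) ∧ R ∈ σ ∧ ∀ P ∈ σ, R ≤ P), wt ⊤ f σ =
    - chs {P : Subgroup Γ | IsPGroup p P ∧ R < P ∧ P ≤ N ⊓ Subgroup.normalizer (R : Set Γ)}
          (wt (Subgroup.normalizer (R : Set Γ)) f) := by
  rw [← chs_normN N R f, chs_eq, ← Finset.sum_neg_distrib]
  refine Finset.sum_bij' (fun σ _ => σ \ {R}) (fun τ _ => insert R τ) ?_ ?_ ?_ ?_ ?_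
  · intro σ hσ
    simp only [Finset.mem_filter, Finset.mem_univ, true_and] at hσ ⊢
    obtain ⟨⟨h1, h2⟩, h3, h4⟩ := hσ
    refine ⟨?_, h2.mono Set.sdiff_subset⟩
    rintro P ⟨hP, hne⟩
    exact ⟨(h1 hP).1, lt_of_le_of_ne (h4 P hP) (fun h => hne h.symm), (h1 hP).2.2⟩
  · intro τ hτ
    simp only [Finset.mem_filter, Finset.mem_univ, true_and] at hτ ⊢
    obtain ⟨h1, h2⟩ := hτ
    refine ⟨⟨?_, ?_⟩, Set.mem_insert _ _, ?_⟩
    · refine Set.insert_subset ⟨hR, hR0, hRN⟩ ?_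
      intro P hP
      refine ⟨(h1 hP).1, ?_, (h1 hP).2.2⟩
      rintro rfl
      exact not_lt_bot (h1 hP).2.1
    · exact h2.insert fun P hP _ => Or.inl (h1 hP).2.1.le
    · rintro P (rfl | hP)
      · exact le_rfl
      · exact (h1 hP).2.1.le
  · intro σ hσ
    simp only [Finset.mem_filter, Finset.mem_univ, true_and] at hσ
    change insert R (σ \ {R}) = σ
    rw [Set.insert_sdiff_singleton, Set.insert_eq_of_mem hσ.2.1]
  · intro τ hτ
    simp only [Finset.mem_filter, Finset.mem_univ, true_and] at hτ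
    change (insert R τ) \ {R} = τ
    exact Set.insert_sdiff_self_of_notMem fun h => lt_irrefl _ (hτ.1 h).2.1
  · intro σ hσ
    simp only [Finset.mem_filter, Finset.mem_univ, true_and] at hσ
    have hin : insert R (σ \ {R}) = σ := by
      rw [Set.insert_sdiff_singleton, Set.insert_eq_of_mem hσ.2.1]
    unfold wt
    have e1 : σ.ncard = (σ \ {R}).ncard + 1 := by
      conv_lhs => rw [← hin]
      exact Set.ncard_insert_of_notMem (fun h => h.2 rfl) (Set.toFinite _)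
    have e2 : (⊤ : Subgroup Γ) ⊓ chainStabilizer σ =
        Subgroup.normalizer (R : Set Γ) ⊓ chainStabilizer (σ \ {R}) := by
      ext x
      simp only [Subgroup.mem_inf, mem_chainStabilizer]
      constructor
      · rintro ⟨-, h2⟩
        exact ⟨conjSub_eq_iff.mp (h2 R hσ.2.1), fun P hP => h2 P hP.1⟩
      · rintro ⟨h2, h3⟩
        refine ⟨Subgroup.mem_top _, fun P hP => ?_⟩
        by_cases h4 : P = R
        · rw [h4]
          exact conjSub_eq_iff.mpr h2
        · exact h3 P ⟨hP, h4⟩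
    rw [e1, e2, pow_succ]
    ring

/-- **The decomposition of the signed sum.** -/
theorem al_dec {p : ℕ} [Fact p.Prime] {G N : Subgroup Γ} [G.Normal] (hGN : G ≤ N)
    (f : Subgroup Γ → ℤ) :
    al p N f = al p G f - ∑ᶠ R : Subgroup Γ, if IsPGroup p R ∧ R ≠ ⊥ ∧ R ≤ N ∧ G ⊓ R = ⊥ then
        chs {P : Subgroup Γ | IsPGroup p P ∧ R < P ∧ P ≤ N ⊓ Subgroup.normalizer (R : Set Γ)}
          (wt (Subgroup.normalizer (R : Set Γ)) f) else 0 := by
  have : Fintype (Subgroup Γ) := Fintype.ofFinite _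
  have : Fintype (Set (Subgroup Γ)) := Fintype.ofFinite _
  rw [al_chs, al_chs, finsum_eq_sum_of_fintype, ← chs_meetN hGN f, chs_eq, chs_eq]
  have key : ∀ σ ∈ (Finset.univ : Finset (Set (Subgroup Γ))).filter
      (fun σ => σ ⊆ Sp p N ∧ IsChain (· ≤ ·) σ), wt ⊤ f σ =
      (if σ ⊆ {P | P ∈ Sp p N ∧ G ⊓ P ≠ ⊥} then wt ⊤ f σ else 0) +
        ∑ R : Subgroup Γ, if (IsPGroup p R ∧ R ≠ ⊥ ∧ R ≤ N ∧ G ⊓ R = ⊥) ∧ R ∈ σ ∧
          ∀ P ∈ σ, R ≤ P then wt ⊤ f σ else 0 := by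
    intro σ hσ
    simp only [Finset.mem_filter, Finset.mem_univ, true_and] at hσ
    obtain ⟨h1, h2⟩ := hσ
    by_cases h : σ ⊆ {P | P ∈ Sp p N ∧ G ⊓ P ≠ ⊥}
    · rw [if_pos h, Finset.sum_eq_zero, add_zero]
      intro R _
      rw [if_neg]
      rintro ⟨h3, h4⟩
      exact (h h4.1).2 h3.2.2.2
    · rw [if_neg h, zero_add]
      obtain ⟨Q, hQ, hQ'⟩ := Set.not_subset.mp h
      have hGQ : G ⊓ Q = ⊥ := by
        by_contra h3
        exact hQ' ⟨h1 hQ, h3⟩
      obtain ⟨R, hR1, hR2⟩ := (Set.toFinite σ).exists_minimal ⟨Q, hQ⟩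
      have hRle : ∀ P ∈ σ, R ≤ P := by
        intro P hP
        rcases h2.total hR1 hP with h3 | h3
        · exact h3
        · exact hR2 hP h3
      have hGR : G ⊓ R = ⊥ := by
        rw [eq_bot_iff, ← hGQ]
        exact inf_le_inf_left _ (hRle Q hQ)
      rw [Finset.sum_eq_single R]
      · rw [if_pos ⟨⟨(h1 hR1).1, (h1 hR1).2.1, (h1 hR1).2.2, hGR⟩, hR1, hRle⟩]
      · intro R' _ hne
        rw [if_neg]
        rintro ⟨_, h4, h5⟩
        exact hne (le_antisymm (h5 R hR1) (hRle R' h4))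
      · intro h3
        exact absurd (Finset.mem_univ _) h3
  rw [Finset.sum_congr rfl key, Finset.sum_add_distrib, Finset.sum_comm, sub_eq_add_neg,
    ← Finset.sum_neg_distrib]
  congr 1
  · rw [← Finset.sum_filter, Finset.filter_filter]
    refine Finset.sum_congr ?_ fun _ _ => rfl
    ext σ
    simp only [Finset.mem_filter, Finset.mem_univ, true_and]
    constructor
    · rintro ⟨⟨_, h2⟩, h3⟩
      exact ⟨h3, h2⟩
    · rintro ⟨h2, h3⟩
      exact ⟨⟨fun P hP => (h2 hP).1, h3⟩, h2⟩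
  · refine Finset.sum_congr rfl fun R _ => ?_
    by_cases hR : IsPGroup p R ∧ R ≠ ⊥ ∧ R ≤ N ∧ G ⊓ R = ⊥
    · rw [if_pos hR, ← sum_leastN N f hR.1 hR.2.1 hR.2.2.1, ← Finset.sum_filter,
        Finset.filter_filter]
      refine Finset.sum_congr ?_ fun _ _ => rfl
      ext σ
      simp only [Finset.mem_filter, Finset.mem_univ, true_and]
      constructor
      · rintro ⟨h2, h3⟩
        exact ⟨h2, h3.2⟩
      · rintro ⟨h2, h3⟩
        exact ⟨h2, hR, h3⟩
    · rw [if_neg hR, neg_zero]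
      refine Finset.sum_eq_zero fun σ _ => ?_
      rw [if_neg (fun h => hR h.1)]

/-- **the chains above a normal subgroup of `K` and the chains of the quotient** -/
theorem al_above {p : ℕ} {Q : Type} [Group Q] [Finite Q] {K R N : Subgroup Γ} (hRK : R ≤ K)
    (hRN : R ≤ N) (hR : IsPGroup p R) (π : K →* Q) (hπ : Function.Surjective π)
    (hker : π.ker = R.subgroupOf K) (f : Subgroup Γ → ℤ) :
    chs {P : Subgroup Γ | IsPGroup p P ∧ R < P ∧ P ≤ N ⊓ K} (wt K f) =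
      al p ((N.subgroupOf K).map π) (fun S => f ((S.comap π).map K.subtype)) := by
  symm
  unfold chs al
  have hinj : Function.Injective (L π) := L_inj π hπ
  have hle := L_le π hπ
  have hbot : L π ⊥ = R := L_bot π hRK hker
  have hkp : IsPGroup p π.ker := by
    rw [hker]
    exact hR.comap_subtype
  have hN : ∀ P : Subgroup Q, P ≤ (N.subgroupOf K).map π → L π P ≤ N := by
    intro P hP y hy
    obtain ⟨h, hy'⟩ := (mem_L π P y).1 hy
    obtain ⟨x, hx, ex⟩ := hP hy'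
    have h1 : x⁻¹ * ⟨y, h⟩ ∈ π.ker := by
      rw [MonoidHom.mem_ker, map_mul, map_inv, ex, inv_mul_cancel]
    rw [hker, Subgroup.mem_subgroupOf] at h1
    have h2 := N.mul_mem (Subgroup.mem_subgroupOf.1 hx) (hRN h1)
    have e : (x : Γ) * ((x⁻¹ * ⟨y, h⟩ : K) : Γ) = y := by
      change (x : Γ) * ((x : Γ)⁻¹ * y) = y
      group
    rwa [e] at h2
  refine finsum_eq_of_bijective (fun σ : GCh p ((N.subgroupOf K).map π) =>
    (⟨L π '' σ.1, ?_, ?_⟩ :
      {σ : Set (Subgroup Γ) // σ ⊆ {P : Subgroup Γ | IsPGroup p P ∧ R < P ∧ P ≤ N ⊓ K} ∧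
        IsChain (· ≤ ·) σ})) ⟨?_, ?_⟩ ?_
  · rintro _ ⟨P, hP, rfl⟩
    refine ⟨((σ.2.1.isPGroup P hP).comap_of_ker_isPGroup π hkp).map _, ?_, le_inf ?_ ?_⟩
    · refine lt_of_le_of_ne ?_ ?_
      · rw [← hbot, hle]
        exact bot_le
      · intro h
        rw [← hbot] at h
        exact σ.2.1.ne_bot P hP (hinj h).symm
    · exact hN P (σ.2.2 P hP)
    · rintro _ ⟨x, _, rfl⟩
      exact x.2
  · rintro _ ⟨P, hP, rfl⟩ _ ⟨P', hP', rfl⟩ _
    rcases σ.2.1.chain.total hP hP' with h | h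
    · exact Or.inl ((hle P P').2 h)
    · exact Or.inr ((hle P' P).2 h)
  · intro σ τ h
    have h1 := congrArg Subtype.val h
    exact Subtype.ext (hinj.image_injective h1)
  · rintro ⟨τ, h1, h2⟩
    have h3 : ∀ P ∈ τ, L π ((P.subgroupOf K).map π) = P := fun P hP => by
      have h4 : π.ker ≤ P.subgroupOf K := by
        rw [hker]
        exact Subgroup.comap_mono (h1 hP).2.1.le
      unfold L
      rw [Subgroup.comap_map_eq_self h4, Subgroup.subgroupOf_map_subtype,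
        inf_eq_left.mpr ((h1 hP).2.2.trans inf_le_right)]
    refine ⟨⟨(fun P : Subgroup Γ => (P.subgroupOf K).map π) '' τ, ⟨?_, ?_, ?_⟩, ?_⟩, ?_⟩
    · rintro _ ⟨P, hP, rfl⟩ _ ⟨P', hP', rfl⟩ _
      rcases h2.total hP hP' with h | h
      · exact Or.inl (Subgroup.map_mono (Subgroup.comap_mono h))
      · exact Or.inr (Subgroup.map_mono (Subgroup.comap_mono h))
    · rintro _ ⟨P, hP, rfl⟩
      exact (h1 hP).1.comap_subtype.map π
    · rintro _ ⟨P, hP, rfl⟩ h
      have h4 := h3 P hP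
      rw [show (P.subgroupOf K).map π = ⊥ from h, hbot] at h4
      exact (h1 hP).2.1.ne h4
    · rintro _ ⟨P, hP, rfl⟩
      exact Subgroup.map_mono (Subgroup.comap_mono ((h1 hP).2.2.trans inf_le_left))
    · apply Subtype.ext
      change L π '' ((fun P : Subgroup Γ => (P.subgroupOf K).map π) '' τ) = τ
      rw [← Set.image_comp]
      ext P
      constructor
      · rintro ⟨P', hP', rfl⟩
        change L π ((P'.subgroupOf K).map π) ∈ τ
        rw [h3 P' hP']
        exact hP'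
      · intro hP
        exact ⟨P, hP, h3 P hP⟩
  · intro σ
    change _ = wt K f (L π '' σ.1)
    unfold wt
    rw [stab_L π hπ, Set.ncard_image_of_injective _ hinj]
    rfl

end Run7.h759.DI
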