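import Pool.Agent.Run7.h759.DI.Cnt

/-!
# Contragredient characters (helper759)
-/

set_option autoImplicit false
set_option linter.unusedSectionVars false

open scoped Classical BigOperators

noncomputable section

namespace Run7.h759.DI

open Pool.Agent.Y63.NV (IsClassFun centralValue redC)
open Pool.Agent.Helper884.IC (IsIrrChar Irr mem_Irr B B_irr IsClass isClass_char B_comm)
open Pool.Agent.R674.Tw (Fixes)
open Pool.Agent.Q99.AS (Dft)
open Pool.Agent.Q90.WR (B_nat irr_of_norm deg_pos)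

theorem irr_cl {K : Type} [Group K] [Finite K] {χ : K → ℂ} (h : IsIrrChar χ) : IsClass χ := by
  have _i : Fintype K := Fintype.ofFinite _
  exact h.isClass

/-- the contragredient -/
def dl {K : Type} [Group K] (χ : K → ℂ) : K → ℂ := fun x => χ x⁻¹

theorem dl_dl {K : Type} [Group K] (χ : K → ℂ) : dl (dl χ) = χ := by
  funext x
  change χ x⁻¹⁻¹ = χ x
  rw [inv_inv]

/-- the contragredient of an irreducible character -/
theorem dl_irr {K : Type} [Group K] [Finite K] {χ : K → ℂ} (h : IsIrrChar χ) :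
    IsIrrChar (dl χ) := by
  have _i : Fintype K := Fintype.ofFinite K
  obtain ⟨V, _, _, _, ρ, -, e⟩ := id h
  have hd : dl χ = ρ.dual.character := by
    funext x
    rw [Representation.char_dual]
    change χ x⁻¹ = ρ.character x⁻¹
    rw [e]
  have hB : B (dl χ) (dl χ) = 1 := by
    have h1 : B χ χ = 1 := by rw [B_irr h h, if_pos rfl]
    rw [← h1]
    unfold B
    congr 1
    refine Fintype.sum_equiv (Equiv.inv K) _ _ fun x => ?_
    rfl
  refine irr_of_norm ?_ (fun ψ hψ => ?_) hB ?_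
  · rw [hd]
    exact isClass_char _
  · obtain ⟨W, _, _, _, σ, -, rfl⟩ := hψ
    rw [hd]
    obtain ⟨n, hn⟩ := B_nat ρ.dual σ
    exact ⟨n, by rw [hn, Int.cast_natCast]⟩
  · obtain ⟨n, -, hn⟩ := deg_pos h
    refine ⟨n, ?_⟩
    rw [← hn]
    change χ 1⁻¹ = χ 1
    rw [inv_one]

theorem dl_irr_iff {K : Type} [Group K] [Finite K] {χ : K → ℂ} :
    IsIrrChar (dl χ) ↔ IsIrrChar χ :=
  ⟨fun h => by
    have := dl_irr h
    rwa [dl_dl] at this, dl_irr⟩

theorem dl_class {K : Type} [Group K] {χ : K → ℂ} (h : IsClass χ) : IsClass (dl χ) := by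
  intro g x
  change χ _⁻¹ = χ _⁻¹
  rw [← h g⁻¹ x]
  congr 1
  group

theorem dl_dft {K : Type} [Group K] {χ : K → ℂ} {p d : ℕ} : Dft p d (dl χ) ↔ Dft p d χ := by
  have h : dl χ 1 = χ 1 := by
    change χ 1⁻¹ = χ 1
    rw [inv_one]
  constructor
  · rintro ⟨n, h1, h2⟩
    exact ⟨n, by rw [← h]; exact h1, h2⟩
  · rintro ⟨n, h1, h2⟩
    exact ⟨n, by rw [h]; exact h1, h2⟩

theorem dl_fixes {E : Type} [Group E] {K : Subgroup E} {χ : K → ℂ} {e : E} :
    Fixes e (dl χ) ↔ Fixes e χ := by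
  have key : ∀ {χ : K → ℂ}, Fixes e χ → Fixes e (dl χ) := by
    intro χ h n n' hn
    refine h n⁻¹ n'⁻¹ ?_
    rw [Subgroup.coe_inv, Subgroup.coe_inv, hn]
    group
  refine ⟨fun h => ?_, key⟩
  have := key h
  rwa [dl_dl] at this

/-- the inverse of a conjugacy class -/
def ivc (J : Type) [Group J] : ConjClasses J → ConjClasses J :=
  Quotient.map (fun x => x⁻¹) (fun a b h => by
    obtain ⟨c, hc⟩ := isConj_iff.1 h
    refine isConj_iff.2 ⟨c, ?_⟩
    rw [← hc]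
    group)

theorem ivc_mk {J : Type} [Group J] (x : J) : ivc J (ConjClasses.mk x) = ConjClasses.mk x⁻¹ := rfl

theorem ivc_ivc {J : Type} [Group J] (C : ConjClasses J) : ivc J (ivc J C) = C := by
  obtain ⟨x, rfl⟩ := ConjClasses.exists_rep C
  rw [ivc_mk, ivc_mk, inv_inv]

/-- the value of the central character of the contragredient -/
theorem cv_dl {F : Type} [Field F] (red : integralClosure ℤ ℂ →+* F) {J : Type} [Group J]
    {χ : J → ℂ} (hχ : IsClass χ) {z : J → F} (hz : IsClassFun z) :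
    centralValue red (dl χ) (fun x => z x⁻¹) = centralValue red χ z := by
  unfold centralValue
  refine finsum_eq_of_bijective (ivc J) (Function.Involutive.bijective ivc_ivc) fun C => ?_
  have h1 : IsConj C.out⁻¹ (ivc J C).out := by
    rw [← ConjClasses.mk_eq_mk_iff_isConj, ← ivc_mk]
    have e1 : ConjClasses.mk C.out = C := Quotient.out_eq C
    have e2 : ConjClasses.mk (ivc J C).out = ivc J C := Quotient.out_eq _
    rw [e1, e2]
  obtain ⟨c, hc⟩ := isConj_iff.1 h1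
  have h2 : z C.out⁻¹ = z (ivc J C).out := by rw [← hc, hz]
  have h3 : χ C.out⁻¹ = χ (ivc J C).out := by rw [← hc, hχ]
  have h4 : Nat.card C.carrier = Nat.card (ivc J C).carrier := by
    refine Nat.card_congr (Equiv.subtypeEquiv (Equiv.inv J) fun x => ?_)
    rw [ConjClasses.mem_carrier_iff_mk_eq, ConjClasses.mem_carrier_iff_mk_eq]
    change ConjClasses.mk x = C ↔ ConjClasses.mk x⁻¹ = ivc J C
    rw [← ivc_mk]
    exact ⟨fun h => by rw [h], fun h => by rw [← ivc_ivc (ConjClasses.mk x), h, ivc_ivc]⟩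
  have h5 : dl χ 1 = χ 1 := by
    change χ 1⁻¹ = χ 1
    rw [inv_one]
  rw [h5]
  change z C.out⁻¹ * redC red ((Nat.card C.carrier : ℂ) * χ C.out⁻¹ / χ 1) = _
  rw [h2, h3, h4]

section cnt

variable {F : Type} [Field F] {E U : Type} [Group E] [Finite E] [Group U] {G : Subgroup E}
  (p : ℕ) (red : integralClosure ℤ ℂ →+* F)

theorem dl_coc {q : E →* U} {A : Subgroup U} {c : U → A →* ℂˣ} {S : Subgroup E}
    {χ : ↥(A.comap q ⊓ S) → ℂ} (h : Coc q A c S χ) : Coc q A c⁻¹ S (dl χ) := by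
  intro u
  obtain ⟨e, he, e1, e2⟩ := h u
  refine ⟨e, he, e1, fun n n' hn => ?_⟩
  have h1 := e2 n⁻¹ n'⁻¹ (by
    rw [Subgroup.coe_inv, Subgroup.coe_inv, hn]
    group)
  change χ n'⁻¹ = _ * χ n⁻¹
  rw [h1]
  congr 2
  have h2 : (⟨q ((n⁻¹ : ↥(A.comap q ⊓ S)) : E), (Subgroup.mem_inf.1 (n⁻¹).2).1⟩ : A) =
      (⟨q n, (Subgroup.mem_inf.1 n.2).1⟩ : A)⁻¹ := by
    apply Subtype.ext
    change q ((n : E)⁻¹) = (q n)⁻¹
    rw [map_inv]
  rw [h2, map_inv]
  rfl

theorem dl_coc_iff {q : E →* U} {A : Subgroup U} {c : U → A →* ℂˣ} {S : Subgroup E}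
    {χ : ↥(A.comap q ⊓ S) → ℂ} : Coc q A c⁻¹ S (dl χ) ↔ Coc q A c S χ := by
  refine ⟨fun h => ?_, dl_coc⟩
  have h1 := dl_coc h
  rw [dl_dl] at h1
  have h2 : c⁻¹⁻¹ = c := by
    funext u
    refine MonoidHom.ext fun x => ?_
    exact inv_inv (c u x)
  rwa [h2] at h1

theorem yc_dl {q : E →* U} {A : Subgroup U} (hG : G ≤ A.comap q) (c : U → A →* ℂˣ) {z : E → F}
    (hz : ∀ g x, z (g * x * g⁻¹) = z x) (c₀ : F) (D : ℕ) (S : Subgroup E) :
    yc p red hG c⁻¹ (fun x => z x⁻¹) c₀ D S = yc p red hG c z c₀ D S := by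
  unfold yc
  congr 1
  refine Nat.card_congr (Equiv.subtypeEquiv ⟨dl, dl, dl_dl, dl_dl⟩ fun χ => ?_)
  change _ ↔ IsIrrChar (dl χ) ∧ IsIrrChar (dl (rs (inf_le_inf_right S hG) χ)) ∧
    Dft p D (dl (rs (inf_le_inf_right S hG) χ)) ∧ Coc q A c S (dl χ) ∧
      centralValue red (dl (rs (inf_le_inf_right S hG) χ)) (fun x => z x) = c₀
  have h1 : Coc q A c⁻¹ S χ ↔ Coc q A c S (dl χ) := by
    rw [← dl_coc_iff (χ := dl χ), dl_dl]
  rw [dl_irr_iff, dl_irr_iff, dl_dft, h1]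
  constructor
  · rintro ⟨a, b, d, e, f⟩
    refine ⟨a, b, d, e, ?_⟩
    have h2 := cv_dl red (dl_class (irr_cl b))
      (z := fun x : ↥(G ⊓ S) => z x) (fun g x => hz g x)
    rw [dl_dl] at h2
    rw [← h2]
    exact f
  · rintro ⟨a, b, d, e, f⟩
    refine ⟨a, b, d, e, ?_⟩
    have h2 := cv_dl red (dl_class (irr_cl b))
      (z := fun x : ↥(G ⊓ S) => z x) (fun g x => hz g x)
    rw [dl_dl, f] at h2
    exact h2

theorem xc_dl {q : E →* U} (V : Subgroup U) {z : E → F}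
    (hz : ∀ g x, z (g * x * g⁻¹) = z x) (c₀ : F) (D : ℕ) (S : Subgroup E) :
    xc p red G q V (fun x => z x⁻¹) c₀ D S = xc p red G q V z c₀ D S := by
  unfold xc xk
  congr 1
  refine Nat.card_congr (Equiv.subtypeEquiv ⟨dl, dl, dl_dl, dl_dl⟩ fun χ => ?_)
  change _ ↔ IsIrrChar (dl χ) ∧ Dft p D (dl χ) ∧ Inq q V S (dl χ) ∧
      centralValue red (dl χ) (fun x => z x) = c₀
  have h1 : Inq q V S (dl χ) ↔ Inq q V S χ := by
    unfold Inq
    simp_rw [dl_fixes]
  rw [dl_irr_iff, dl_dft, h1]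
  constructor
  · rintro ⟨a, b, e, f⟩
    refine ⟨a, b, e, ?_⟩
    have h2 := cv_dl red (dl_class (irr_cl a))
      (z := fun x : ↥(G ⊓ S) => z x) (fun g x => hz g x)
    rw [dl_dl] at h2
    rw [← h2]
    exact f
  · rintro ⟨a, b, e, f⟩
    refine ⟨a, b, e, ?_⟩
    have h2 := cv_dl red (dl_class (irr_cl a))
      (z := fun x : ↥(G ⊓ S) => z x) (fun g x => hz g x)
    rw [dl_dl, f] at h2
    exact h2

end cnt

end Run7.h759.DI
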