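import Pool.Agent.Run7.h759.DI.Mi

/-!
# Extensions, and inertial groups which are complements (helper759)
-/

set_option autoImplicit false
set_option linter.unusedSectionVars false

open scoped Classical BigOperators

noncomputable section

namespace Run7.h759.DI

open Pool.Agent.Y63.NV (IsClassFun centralValue)
open Pool.Agent.Helper884.IC (IsIrrChar Irr mem_Irr B B_irr IsClass cardG_ne irr_finite)
open Pool.Agent.Y63.AWC (res mult mult_spec cj St Orb mem_St irr_comp mult_exists)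
open Pool.Agent.R674.Tw (Fixes alp alp_coe fixes_iff)
open Pool.Agent.Q99.AS (Dft Dft_congr Dft_unique Dft_exists)
open Pool.Agent.Q90.WR (card_transport card_filter_eq irr_comp_iff)

section wq

variable {E U : Type} [Group E] [Group U]

/-- the elements of `S` which fix `θ` -/
def Ts (S : Subgroup E) {K : Subgroup E} (hK : ∀ e ∈ S, ∀ n, n ∈ K ↔ e * n * e⁻¹ ∈ K) (θ : K → ℂ) :
    Subgroup E where
  carrier := {e | e ∈ S ∧ Fixes e θ}
  one_mem' := by
    refine ⟨Subgroup.one_mem _, fun n n' h => ?_⟩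
    congr 1
    apply Subtype.ext
    rw [h]
    group
  mul_mem' := by
    rintro a b ⟨ha, ha'⟩ ⟨hb, hb'⟩
    exact ⟨Subgroup.mul_mem _ ha hb, fixes_mul (fun n hn => (hK b hb n).1 hn) ha' hb'⟩
  inv_mem' := by
    rintro a ⟨ha, ha'⟩
    refine ⟨Subgroup.inv_mem _ ha, fun n n' h => ?_⟩
    refine (ha' n' n ?_).symm
    rw [h]
    group

/-- the inertial group -/
def Wq (q : E →* U) (S : Subgroup E) {K : Subgroup E}
    (hK : ∀ e ∈ S, ∀ n, n ∈ K ↔ e * n * e⁻¹ ∈ K) (θ : K → ℂ) : Subgroup U := (Ts S hK θ).map q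

variable {q : E →* U} {S K : Subgroup E} {hK : ∀ e ∈ S, ∀ n, n ∈ K ↔ e * n * e⁻¹ ∈ K}
  {A : Subgroup U} [hAn : A.Normal]

theorem inq_iff {V : Subgroup U} {θ : K → ℂ} : Inq q V S θ ↔ V ≤ Wq q S hK θ := by
  constructor
  · intro h u hu
    obtain ⟨e, he, h1, h2⟩ := h u hu
    exact ⟨e, ⟨he, h2⟩, h1⟩
  · intro h u hu
    obtain ⟨e, ⟨he, h2⟩, h1⟩ := h hu
    exact ⟨e, he, h1, h2⟩

theorem pc_iff {θ : K → ℂ} : Pc q A S θ ↔ Wq q S hK θ ⊓ A = ⊥ ∧ Wq q S hK θ ⊔ A = ⊤ := by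
  unfold Pc
  rw [and_comm]
  refine and_congr ?_ ?_
  · constructor
    · intro h
      rw [Subgroup.eq_bot_iff_forall]
      rintro x ⟨⟨e, ⟨he, he'⟩, rfl⟩, hx⟩
      exact h e he he' hx
    · intro h e he he' ha
      have : q e ∈ Wq q S hK θ ⊓ A := ⟨⟨e, ⟨he, he'⟩, rfl⟩, ha⟩
      rw [h] at this
      exact Subgroup.mem_bot.1 this
  · constructor
    · intro h
      rw [Subgroup.eq_top_iff']
      intro u
      obtain ⟨e, he, h1, h2⟩ := h (u : U ⧸ A) (Subgroup.mem_top _)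
      have h3 : (q e)⁻¹ * u ∈ A := QuotientGroup.eq.1 h1
      have h4 : u = q e * ((q e)⁻¹ * u) := by group
      rw [h4]
      exact Subgroup.mul_mem_sup ⟨e, ⟨he, h2⟩, rfl⟩ h3
    · intro h u _
      obtain ⟨v, rfl⟩ := QuotientGroup.mk'_surjective A u
      have h1 : v ∈ Wq q S hK θ ⊔ A := by
        rw [h]
        trivial
      rw [Subgroup.mem_sup_of_normal_right] at h1
      obtain ⟨w, ⟨e, ⟨he, he'⟩, rfl⟩, a, ha, rfl⟩ := h1
      refine ⟨e, he, ?_, he'⟩
      change ((q e : U) : U ⧸ A) = ((q e * a : U) : U ⧸ A)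
      rw [QuotientGroup.eq]
      have : (q e)⁻¹ * (q e * a) = a := by group
      rw [this]
      exact ha

omit hAn in
/-- the groups above a complement -/
theorem compl_above {ℓ : ℕ} (hl : ℓ.Prime) (hA : Nat.card A = ℓ) [A.Normal] {V W : Subgroup U}
    (h1 : V ⊓ A = ⊥) (h2 : V ⊔ A = ⊤) (hVW : V ≤ W) : W = V ∨ W = ⊤ := by
  by_cases h3 : W ⊓ A = ⊥
  · left
    refine le_antisymm (fun w hw => ?_) hVW
    have h4 : w ∈ V ⊔ A := by
      rw [h2]
      trivial
    rw [Subgroup.mem_sup_of_normal_right] at h4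
    obtain ⟨v, hv, a, ha, rfl⟩ := h4
    have h5 : a ∈ W ⊓ A := by
      refine ⟨?_, ha⟩
      have := W.mul_mem (W.inv_mem (hVW hv)) hw
      rwa [inv_mul_cancel_left] at this
    rw [h3, Subgroup.mem_bot] at h5
    rw [h5, mul_one]
    exact hv
  · right
    have hfin : Finite A := fin_A hl hA
    have h4 : Nat.card ((W ⊓ A).subgroupOf A) ∣ Nat.card A := Subgroup.card_subgroup_dvd_card _
    rw [hA] at h4
    have h5 : (W ⊓ A).subgroupOf A = ⊤ := by
      rcases (Nat.dvd_prime hl).1 h4 with h5 | h5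
      · exfalso
        apply h3
        have h6 := Subgroup.card_eq_one.1 h5
        rw [Subgroup.subgroupOf_eq_bot] at h6
        rw [← h6.eq_bot, inf_assoc, inf_idem]
      · exact Subgroup.eq_top_of_card_eq _ (by rw [h5, hA])
    have h6 : A ≤ W := by
      rw [Subgroup.subgroupOf_eq_top] at h5
      exact h5.trans inf_le_left
    rw [eq_top_iff, ← h2]
    exact sup_le hVW h6

end wq

section

variable {E U : Type} [Group E] [Finite E] [Group U] {q : E →* U} {A : Subgroup U}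
  [hAn : A.Normal] {G : Subgroup E} {ℓ : ℕ} [hl : Fact ℓ.Prime]
  {F : Type} [Field F] (red : integralClosure ℤ ℂ →+* F)

omit [Finite E] hAn in
theorem HKc (hq : q.ker = G) (S : Subgroup E) (e : E) (he : e ∈ S) (n : E) :
    n ∈ G ⊓ S ↔ e * n * e⁻¹ ∈ G ⊓ S := G_conj hq he n

/-- **the characters whose inertial group is a complement** -/
theorem pk_sum (hq : q.ker = G) (hA : Nat.card A = ℓ) (p : ℕ) (z : E → F) (c₀ : F) (D : ℕ)
    (S : Subgroup E) [Fintype (Subgroup U)] :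
    pk p red q A z c₀ D S (G ⊓ S) =
      ∑ V ∈ (Finset.univ : Finset (Subgroup U)).filter (fun V => V ⊓ A = ⊥ ∧ V ⊔ A = ⊤),
        (xc p red G q V z c₀ D S - xc p red G q ⊤ z c₀ D S) := by
  have _i : Fintype ↥(G ⊓ S) := Fintype.ofFinite _
  have hK := HKc (U := U) hq S
  have e1 : ∀ V : Subgroup U, xc p red G q V z c₀ D S =
      (((Irr ↥(G ⊓ S)).filter fun χ => (Dft p D χ ∧ V ≤ Wq q S hK χ ∧
        centralValue red χ (fun x => z x) = c₀)).card : ℤ) := by
    intro V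
    unfold xc xk
    rw [card_filter_eq]
    congr 2
    refine Finset.filter_congr fun χ _ => ?_
    rw [inq_iff (hK := hK)]
  have e2 : pk p red q A z c₀ D S (G ⊓ S) =
      (((Irr ↥(G ⊓ S)).filter fun χ => (Dft p D χ ∧ (Wq q S hK χ ⊓ A = ⊥ ∧ Wq q S hK χ ⊔ A = ⊤) ∧
        centralValue red χ (fun x => z x) = c₀)).card : ℤ) := by
    unfold pk
    rw [card_filter_eq]
    congr 2
    refine Finset.filter_congr fun χ _ => ?_
    rw [pc_iff (hK := hK)]
  have hne : (A : Subgroup U) ≠ ⊥ := by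
    rintro rfl
    rw [Subgroup.card_bot] at hA
    exact hl.out.one_lt.ne hA
  have e3 : ∀ V ∈ (Finset.univ : Finset (Subgroup U)).filter (fun V => V ⊓ A = ⊥ ∧ V ⊔ A = ⊤),
      xc p red G q V z c₀ D S - xc p red G q ⊤ z c₀ D S =
      (((Irr ↥(G ⊓ S)).filter fun χ => (Dft p D χ ∧ Wq q S hK χ = V ∧
        centralValue red χ (fun x => z x) = c₀)).card : ℤ) := by
    intro V hV
    obtain ⟨-, h1, h2⟩ := Finset.mem_filter.1 hV
    rw [e1, e1, sub_eq_iff_eq_add]
    have hVt : V ≠ ⊤ := by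
      rintro rfl
      rw [top_inf_eq] at h1
      exact hne h1
    norm_cast
    rw [← Finset.card_union_of_disjoint]
    · congr 1
      ext χ
      simp only [Finset.mem_union, Finset.mem_filter]
      constructor
      · rintro ⟨a, b, c, d⟩
        rcases compl_above hl.out hA h1 h2 c with h | h
        · exact Or.inl ⟨a, b, h, d⟩
        · exact Or.inr ⟨a, b, h.ge, d⟩
      · rintro (⟨a, b, c, d⟩ | ⟨a, b, c, d⟩)
        · exact ⟨a, b, c.ge, d⟩
        · exact ⟨a, b, le_top.trans c, d⟩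
    · rw [Finset.disjoint_left]
      intro χ h3 h4
      have h5 := (Finset.mem_filter.1 h3).2.2.1
      have h6 := (Finset.mem_filter.1 h4).2.2.1
      rw [h5] at h6
      exact hVt (top_le_iff.1 h6)
  rw [Finset.sum_congr rfl e3, e2]
  norm_cast
  rw [Finset.card_eq_sum_card_fiberwise (f := fun χ => Wq q S hK χ)
    (t := (Finset.univ : Finset (Subgroup U)).filter (fun V => V ⊓ A = ⊥ ∧ V ⊔ A = ⊤))]
  · refine Finset.sum_congr rfl fun V hV => ?_
    obtain ⟨-, h1, h2⟩ := Finset.mem_filter.1 hV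
    congr 1
    ext χ
    simp only [Finset.mem_filter]
    constructor
    · rintro ⟨⟨a, b, c, d⟩, e⟩
      exact ⟨a, b, e, d⟩
    · rintro ⟨a, b, c, d⟩
      refine ⟨⟨a, b, ?_, d⟩, c⟩
      rw [c]
      exact ⟨h1, h2⟩
  · intro χ hχ
    have h := (Finset.mem_filter.1 hχ).2.2.1
    exact Finset.mem_coe.2 (Finset.mem_filter.2 ⟨Finset.mem_univ _, h⟩)

/-- an element of `S` over a generator of `A` -/
theorem surj_of (hA : Nat.card A = ℓ) {S : Subgroup E}
    (h : ∀ u ∈ A, ∃ e ∈ S, q e = u) : Function.Surjective (phi q A S) := by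
  rintro ⟨a, ha⟩
  obtain ⟨e, he, rfl⟩ := h a ha
  exact ⟨⟨e, Subgroup.mem_inf.2 ⟨ha, he⟩⟩, rfl⟩

/-- the linear characters are unique -/
theorem coc_unique (hq : q.ker = G) (hA : Nat.card A = ℓ) {S : Subgroup E}
    (hφ : Function.Surjective (phi q A S)) {χ : ↥(A.comap q ⊓ S) → ℂ} (hχ : IsIrrChar χ)
    (hr : IsIrrChar (rs (HK hq) χ)) {c c' : U → A →* ℂˣ} (h : Coc q A c S χ)
    (h' : Coc q A c' S χ) : c = c' := by
  have _i : Fintype ↥(A.comap q ⊓ S) := Fintype.ofFinite _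
  have hMn : (MM q A G S).Normal := M_normal A hq S
  have hMm := mem_M A hq S
  have hfin : Finite A := fin_A hl.out hA
  funext u
  obtain ⟨e, he, e1, e2⟩ := h u
  obtain ⟨e', he', e1', e2'⟩ := h' u
  refine tw_inj (M := MM q A G S) hMm hφ hA hχ ((res_irr_iff hq χ).2 hr) ?_
  funext x
  change ((c u (phi q A S x) : ℂˣ) : ℂ) * χ x = ((c' u (phi q A S x) : ℂˣ) : ℂ) * χ x
  have hgS : e⁻¹ * e' ∈ S := S.mul_mem (S.inv_mem he) he'
  have hg : q (e⁻¹ * e') = 1 := by
    rw [map_mul, map_inv, e1, e1', inv_mul_cancel]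
  have hgN : e⁻¹ * e' ∈ A.comap q ⊓ S := by
    refine Subgroup.mem_inf.2 ⟨?_, hgS⟩
    rw [Subgroup.mem_comap, hg]
    exact one_mem _
  have m1 : (e⁻¹ * e') * x * (e⁻¹ * e')⁻¹ ∈ A.comap q ⊓ S := (N_conj hgS (x : E)).1 x.2
  have m2 : e' * x * e'⁻¹ ∈ A.comap q ⊓ S := (N_conj he' (x : E)).1 x.2
  have h3 := e2' x ⟨_, m2⟩ rfl
  have h4 := e2 ⟨_, m1⟩ ⟨_, m2⟩ (by
    change e' * x * e'⁻¹ = e * ((e⁻¹ * e') * x * (e⁻¹ * e')⁻¹) * e⁻¹
    group)
  have h5 : χ ⟨_, m1⟩ = χ x := fixes_inner (isClass_of hχ) hgN x ⟨_, m1⟩ rfl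
  have h6 : (⟨q ((⟨(e⁻¹ * e') * x * (e⁻¹ * e')⁻¹, m1⟩ : ↥(A.comap q ⊓ S)) : E),
      (Subgroup.mem_inf.1 m1).1⟩ : A) = phi q A S x := by
    apply Subtype.ext
    change q ((e⁻¹ * e') * x * (e⁻¹ * e')⁻¹) = q x
    rw [map_mul, map_mul, map_inv, hg, one_mul, inv_one, mul_one]
  rw [h5, h6] at h4
  rw [← h4, h3]
  rfl

/-- **the extensions of the invariant characters** -/
theorem ext_sum (hq : q.ker = G) (hA : Nat.card A = ℓ) (p : ℕ) (z : E → F) (c₀ : F) (D : ℕ)
    (S : Subgroup E) [Fintype (U → A →* ℂˣ)] :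
    ∑ c : U → A →* ℂˣ, yc p red (G_le A hq) c z c₀ D S = ℓ * xc p red G q ⊤ z c₀ D S := by
  have hfin : Finite A := fin_A hl.out hA
  by_cases hφ : Function.Surjective (phi q A S)
  · have _i : Fintype ↥(A.comap q ⊓ S) := Fintype.ofFinite _
    have hMn : (MM q A G S).Normal := M_normal A hq S
    have hMm := mem_M A hq S
    -- the total number
    let T : Type := {χ : ↥(A.comap q ⊓ S) → ℂ // IsIrrChar χ ∧ (IsIrrChar (rs (HK hq) χ) ∧
      Dft p D (rs (HK hq) χ) ∧ (∃ c, Coc q A c S χ) ∧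
      centralValue red (rs (HK hq) χ) (fun x => z x) = c₀)}
    have hT : Finite T := by
      have : Finite {χ : ↥(A.comap q ⊓ S) → ℂ // IsIrrChar χ} :=
        Set.Finite.to_subtype irr_finite
      exact Finite.of_injective (fun χ : T => (⟨χ.1, χ.2.1⟩ : {χ : ↥(A.comap q ⊓ S) → ℂ //
        IsIrrChar χ})) (fun a b h => Subtype.ext (congrArg (fun t => t.1) h))
    have h1 : ((∑ c : U → A →* ℂˣ, yc p red (G_le A hq) c z c₀ D S : ℤ)) = (Nat.card T : ℤ) := by
      unfold yc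
      norm_cast
      let f : T → (U → A →* ℂˣ) := fun χ => χ.2.2.2.2.1.choose
      have hf : ∀ χ : T, Coc q A (f χ) S χ.1 := fun χ => χ.2.2.2.2.1.choose_spec
      rw [Nat.card_congr (Equiv.sigmaFiberEquiv f).symm, Nat.card_sigma]
      refine Finset.sum_congr rfl fun c _ => Nat.card_congr
        { toFun := fun χ => ⟨⟨χ.1, χ.2.1, χ.2.2.1, χ.2.2.2.1, ⟨c, χ.2.2.2.2.1⟩, χ.2.2.2.2.2⟩, ?_⟩
          invFun := fun χ => ⟨χ.1.1, χ.1.2.1, χ.1.2.2.1, χ.1.2.2.2.1, ?_, χ.1.2.2.2.2.2⟩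
          left_inv := fun χ => rfl
          right_inv := fun χ => rfl }
      · exact coc_unique hq hA hφ χ.2.1 χ.2.2.1 (hf _) χ.2.2.2.2.1
      · have := hf χ.1
        rw [χ.2] at this
        exact this
    rw [h1]
    unfold xc xk
    rw [← card_dual (ℓ := ℓ) hA]
    norm_cast
    rw [← Nat.card_prod]
    symm
    -- the extensions
    have hex : ∀ θ : {θ : ↥(G ⊓ S) → ℂ // IsIrrChar θ ∧ (Dft p D θ ∧ Inq q ⊤ S θ ∧
        centralValue red θ (fun x => z x) = c₀)}, ∃ χ : ↥(A.comap q ⊓ S) → ℂ, IsIrrChar χ ∧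
        rs (HK hq) χ = θ.1 := by
      rintro ⟨θ, hθ, h2, h3, h4⟩
      have hθ' := irr_comp (eM (A := A) (S := S) hq) hθ
      obtain ⟨χ, h5, h6⟩ := ext_exists hMm hφ hA hθ' (by
        rw [Subgroup.card_eq_iff_eq_top, Subgroup.eq_top_iff']
        intro x
        rw [mem_St]
        obtain ⟨e, he, e1, e2⟩ := h3 (q x) (Subgroup.mem_top _)
        have hxS := (Subgroup.mem_inf.1 x.2).2
        have hg : e⁻¹ * x ∈ G ⊓ S := by
          refine Subgroup.mem_inf.2 ⟨?_, S.mul_mem (S.inv_mem he) hxS⟩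
          rw [mem_G hq, map_mul, map_inv, e1, inv_mul_cancel]
        have hf : Fixes (x : E) θ := by
          have := fixes_mul (fun n hn => (G_conj hq (Subgroup.mem_inf.1 hg).2 n).1 hn) e2
            (fixes_inner (isClass_of hθ) hg)
          rwa [mul_inv_cancel_left] at this
        funext m
        refine hf (eM hq m) (eM hq (MulAut.conjNormal x m)) ?_
        rw [eM_coe, eM_coe, MulAut.conjNormal_apply]
        rfl)
      refine ⟨χ, h5, ?_⟩
      funext y
      have h7 := congrFun h6 ((eM hq).symm y)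
      rw [res_eM hq] at h7
      change rs (HK hq) χ (eM hq ((eM hq).symm y)) = θ (eM hq ((eM hq).symm y)) at h7
      rwa [MulEquiv.apply_symm_apply] at h7
    choose X hX1 hX2 using hex
    have hrs : ∀ (μ : A →* ℂˣ) (χ : ↥(A.comap q ⊓ S) → ℂ),
        rs (HK hq) (tw (phi q A S) μ χ) = rs (HK hq) χ := by
      intro μ χ
      funext y
      have h2 := congrFun (res_tw (M := MM q A G S) hMm μ χ) ((eM hq).symm y)
      rw [res_eM hq, res_eM hq] at h2
      change rs (HK hq) (tw (phi q A S) μ χ) (eM hq ((eM hq).symm y)) =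
        rs (HK hq) χ (eM hq ((eM hq).symm y)) at h2
      rwa [MulEquiv.apply_symm_apply] at h2
    have hres : ∀ {χ χ' : ↥(A.comap q ⊓ S) → ℂ}, rs (HK hq) χ = rs (HK hq) χ' →
        res (MM q A G S) χ = res (MM q A G S) χ' := by
      intro χ χ' h
      rw [res_eM hq, res_eM hq, h]
    -- the linear characters for an extension
    have hco : ∀ χ : ↥(A.comap q ⊓ S) → ℂ, IsIrrChar χ → IsIrrChar (rs (HK hq) χ) →
        Inq q ⊤ S (rs (HK hq) χ) → ∃ c, Coc q A c S χ := by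
      intro χ h2 h3 h4
      have h5 : ∀ u : U, ∃ μ : A →* ℂˣ, ∃ e ∈ S, q e = u ∧
          ∀ n n' : ↥(A.comap q ⊓ S), (n' : E) = e * n * e⁻¹ →
          χ n' = ((μ ⟨q n, (Subgroup.mem_inf.1 n.2).1⟩ : ℂˣ) : ℂ) * χ n := by
        intro u
        obtain ⟨e, he, e1, e2⟩ := h4 u (Subgroup.mem_top _)
        have h6 : rs (HK hq) (fun x => χ (al' he x)) = rs (HK hq) χ := by
          funext y
          exact e2 y ⟨e * y * e⁻¹, (G_conj hq he (y : E)).1 y.2⟩ rfl
        obtain ⟨μ, hμ⟩ := ext_unique (M := MM q A G S) hMm hφ hA h2 ((res_irr_iff hq χ).2 h3)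
          (irr_comp (al' he) h2) (hres h6)
        refine ⟨μ, e, he, e1, fun n n' hn => ?_⟩
        have h7 := congrFun hμ n
        have h8 : al' he n = n' := Subtype.ext hn.symm
        rw [← h8]
        exact h7
      choose c hc using h5
      exact ⟨c, hc⟩
    refine Nat.card_congr (Equiv.ofBijective (fun t : (A →* ℂˣ) × {θ : ↥(G ⊓ S) → ℂ //
      IsIrrChar θ ∧ (Dft p D θ ∧ Inq q ⊤ S θ ∧ centralValue red θ (fun x => z x) = c₀)} =>
      (⟨tw (phi q A S) t.1 (X t.2), tw_irr _ _ (hX1 t.2), by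
        rw [hrs, hX2]
        refine ⟨t.2.2.1, t.2.2.2.1, ?_, t.2.2.2.2.2⟩
        refine hco _ (tw_irr _ _ (hX1 t.2)) ?_ ?_
        · rw [hrs, hX2]
          exact t.2.2.1
        · rw [hrs, hX2]
          exact t.2.2.2.2.1⟩ : T)) ⟨?_, ?_⟩)
    · rintro ⟨μ, θ⟩ ⟨ν, θ'⟩ h2
      have h3 : tw (phi q A S) μ (X θ) = tw (phi q A S) ν (X θ') := congrArg Subtype.val h2
      have h4 : θ = θ' := by
        apply Subtype.ext
        rw [← hX2 θ, ← hX2 θ']
        have h9 := congrArg (rs (HK hq)) h3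
        rwa [hrs, hrs] at h9
      subst h4
      have h5 := tw_inj (M := MM q A G S) hMm hφ hA (hX1 θ) ((res_irr_iff hq _).2 (by
        rw [hX2]
        exact θ.2.1)) h3
      rw [h5]
    · rintro ⟨χ, h2, h3, h4, ⟨c, hc⟩, h5⟩
      have h6 : Inq q ⊤ S (rs (HK hq) χ) := by
        intro u _
        obtain ⟨e, he, e1, e2⟩ := hc u
        refine ⟨e, he, e1, fun n n' hn => ?_⟩
        have h7 := e2 ⟨n, HK hq n.2⟩ ⟨n', HK hq n'.2⟩ hn
        change χ ⟨n', HK hq n'.2⟩ = χ ⟨n, HK hq n.2⟩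
        rw [h7]
        have h8 : (⟨q (n : E), (Subgroup.mem_inf.1 (HK (A := A) hq n.2)).1⟩ : A) = 1 :=
          Subtype.ext ((mem_G hq).1 (Subgroup.mem_inf.1 n.2).1)
        rw [h8, map_one, Units.val_one, one_mul]
      obtain ⟨μ, hμ⟩ := ext_unique (M := MM q A G S) hMm hφ hA (hX1 ⟨rs (HK hq) χ, h3, h4, h6, h5⟩)
        ((res_irr_iff hq _).2 (by
          rw [hX2]
          exact h3)) h2 (hres (hX2 ⟨rs (HK hq) χ, h3, h4, h6, h5⟩).symm)
      exact ⟨(μ, ⟨rs (HK hq) χ, h3, h4, h6, h5⟩), Subtype.ext hμ.symm⟩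
  · have h1 : ∀ c : U → A →* ℂˣ, yc p red (G_le A hq) c z c₀ D S = 0 := by
      intro c
      unfold yc
      have : IsEmpty {χ : ↥(A.comap q ⊓ S) → ℂ // IsIrrChar χ ∧
          (IsIrrChar (rs (inf_le_inf_right S (G_le A hq)) χ) ∧
            Dft p D (rs (inf_le_inf_right S (G_le A hq)) χ) ∧
            Coc q A c S χ ∧ centralValue red (rs (inf_le_inf_right S (G_le A hq)) χ)
              (fun x => z x) = c₀)} := by
        refine ⟨?_⟩
        rintro ⟨χ, -, -, -, h, -⟩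
        refine hφ (surj_of hA fun u _ => ?_)
        obtain ⟨e, he, h2, -⟩ := h u
        exact ⟨e, he, h2⟩
      rw [Nat.card_of_isEmpty]
      rfl
    have h2 : xc p red G q ⊤ z c₀ D S = 0 := by
      unfold xc xk
      have : IsEmpty {χ : ↥(G ⊓ S) → ℂ // IsIrrChar χ ∧ (Dft p D χ ∧ Inq q ⊤ S χ ∧
          centralValue red χ (fun x => z x) = c₀)} := by
        refine ⟨?_⟩
        rintro ⟨χ, -, -, h, -⟩
        refine hφ (surj_of hA fun u _ => ?_)
        obtain ⟨e, he, h2, -⟩ := h u (Subgroup.mem_top _)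
        exact ⟨e, he, h2⟩
      rw [Nat.card_of_isEmpty]
      rfl
    rw [h2, mul_zero]
    exact Finset.sum_eq_zero fun c _ => h1 c

end

end Run7.h759.DI
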