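import Mathlib

/-!
# The terms of highest degree (helper759)
-/

set_option autoImplicit false

open scoped BigOperators Classical

noncomputable section

namespace Run7.h759.DI

section grp

variable {T C : Type} [Fintype T] (c : T → C) (m : T → ℤ)

/-- the sums over the fibres -/
def vv (b : C) : ℤ := ∑ t : T, @ite ℤ (c t = b) (Classical.propDecidable _) (m t) 0

theorem vv_zero {b : C} (h : ∀ t, c t ≠ b) : vv c m b = 0 :=
  Finset.sum_eq_zero fun t _ => if_neg (h t)

/-- the range -/
def rg : Finset C := (Set.finite_range c).toFinset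

theorem mem_rg {b : C} : b ∈ rg c ↔ ∃ t, c t = b := by
  unfold rg
  rw [Set.Finite.mem_toFinset]
  exact Iff.rfl

theorem grp1 (f : C → ℤ) :
    ∑ t, f (c t) * m t = ∑ b ∈ rg c, f b * vv c m b := by
  unfold vv
  rw [Finset.sum_congr rfl fun b _ => Finset.mul_sum _ _ _, Finset.sum_comm]
  refine Finset.sum_congr rfl fun t _ => ?_
  rw [Finset.sum_eq_single (c t)]
  · rw [if_pos rfl]
  · intro b _ hb
    rw [if_neg (Ne.symm hb), mul_zero]
  · intro h
    exact absurd ((mem_rg c).2 ⟨t, rfl⟩) h

theorem grp2 (W : C → C → ℤ) :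
    ∑ t₁, ∑ t₂, W (c t₁) (c t₂) * (m t₁ * m t₂) =
      ∑ b₁ ∈ rg c, ∑ b₂ ∈ rg c, W b₁ b₂ * (vv c m b₁ * vv c m b₂) := by
  have h1 : ∀ t₁, ∑ t₂, W (c t₁) (c t₂) * (m t₁ * m t₂) =
      (∑ b₂ ∈ rg c, W (c t₁) b₂ * vv c m b₂) * m t₁ := by
    intro t₁
    rw [← grp1 c m (W (c t₁)), Finset.sum_mul]
    exact Finset.sum_congr rfl fun t₂ _ => by ring
  rw [Finset.sum_congr rfl fun t₁ _ => h1 t₁]
  refine (grp1 c m (fun b₁ => ∑ b₂ ∈ rg c, W b₁ b₂ * vv c m b₂)).trans ?_
  refine Finset.sum_congr rfl fun b₁ _ => ?_
  rw [Finset.sum_mul]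
  exact Finset.sum_congr rfl fun b₂ _ => by ring

end grp

/-- the weights -/
def Wt {L : Type} (ex : L → L → Prop) (a k D : ℕ) (b b' : L × ℕ) : ℕ :=
  if b.1 = b'.1 then (if D = b.2 + b'.2 + k then a else 0)
  else if ex b.1 b'.1 then 0 else if 2 * D = 2 * (b.2 + b'.2) + k then 1 else 0

theorem top_deg {T L : Type} [Fintype T] (lb : T → L) (d : T → ℕ) (m : T → ℤ)
    (ex : L → L → Prop) {a k : ℕ} {n c : ℤ} (ha : a ≠ 0) (hc : c ≠ 0) (hk : 1 ≤ k)
    (hd : ∀ t, 1 ≤ d t) (hrel : ∀ D', 1 ≤ D' →
      c * ∑ t₁, ∑ t₂, (Wt ex a k (D' + k) (lb t₁, d t₁) (lb t₂, d t₂) : ℤ) * (m t₁ * m t₂) =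
        n * ∑ i ∈ Finset.HasAntidiagonal.antidiagonal (D' + k),
          (∑ t ∈ (Finset.univ : Finset T).filter (fun t => d t = i.1), m t) *
          (∑ t ∈ (Finset.univ : Finset T).filter (fun t => d t = i.2), m t)) (i : ℕ) :
    ∑ t ∈ (Finset.univ : Finset T).filter (fun t => d t = i), m t = 0 := by
  set cc : T → L × ℕ := fun t => (lb t, d t) with hcc
  set v := vv cc m with hv
  set C := rg cc with hC
  -- the sums by degree
  have hdeg : ∀ i, ∑ t ∈ (Finset.univ : Finset T).filter (fun t => d t = i), m t =
      ∑ b ∈ C, (if b.2 = i then 1 else 0) * v b := by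
    intro i
    refine Eq.trans ?_ (grp1 cc m (fun b => if b.2 = i then 1 else 0))
    rw [Finset.sum_filter]
    refine Finset.sum_congr rfl fun t _ => ?_
    by_cases h : d t = i
    · rw [if_pos h]
      change m t = (if d t = i then 1 else 0) * m t
      rw [if_pos h, one_mul]
    · rw [if_neg h]
      change 0 = (if d t = i then 1 else 0) * m t
      rw [if_neg h, zero_mul]
  -- the bound
  obtain ⟨N₀, hN₀⟩ : ∃ N₀, ∀ t, d t ≤ N₀ :=
    ⟨Finset.univ.sup d, fun t => Finset.le_sup (Finset.mem_univ t)⟩
  -- downward induction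
  have key : ∀ j, ∀ N, N + j = N₀ + 1 → ∀ b : L × ℕ, N ≤ b.2 → v b = 0 := by
    intro j
    induction j with
    | zero =>
      intro N hN b hb
      refine vv_zero cc m fun t h1 => ?_
      have h2 := hN₀ t
      have h3 : d t = b.2 := congrArg Prod.snd h1
      omega
    | succ j ih =>
      intro N hN b hb
      have ih' := ih (N + 1) (by omega)
      rcases Nat.eq_zero_or_pos N with rfl | hNpos
      · rcases Nat.eq_zero_or_pos b.2 with h0 | h0
        · refine vv_zero cc m fun t h1 => ?_
          have h2 := hd t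
          have h3 : d t = b.2 := congrArg Prod.snd h1
          omega
        · exact ih' b h0
      · rcases Nat.eq_or_lt_of_le hb with h0 | h0
        swap
        · exact ih' b h0
        have h1 := hrel (2 * N) (by omega)
        have h2 : ∑ i ∈ Finset.HasAntidiagonal.antidiagonal (2 * N + k),
          (∑ t ∈ (Finset.univ : Finset T).filter (fun t => d t = i.1), m t) *
          (∑ t ∈ (Finset.univ : Finset T).filter (fun t => d t = i.2), m t) = 0 := by
          refine Finset.sum_eq_zero fun i hi => ?_
          rw [Finset.HasAntidiagonal.mem_antidiagonal] at hi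
          have h3 : ∀ r, N < r → ∑ t ∈ (Finset.univ : Finset T).filter (fun t => d t = r), m t =
              0 := by
            intro r hr
            rw [hdeg]
            refine Finset.sum_eq_zero fun b _ => ?_
            by_cases h4 : b.2 = r
            · rw [ih' b (by omega), mul_zero]
            · rw [if_neg h4, zero_mul]
          rcases lt_or_ge N i.1 with h4 | h4
          · rw [h3 _ h4, zero_mul]
          · rw [h3 i.2 (by omega), mul_zero]
        rw [h2, mul_zero] at h1
        have h3 := (mul_eq_zero.1 h1).resolve_left hc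
        have h4 : (0 : ℤ) = ∑ b₁ ∈ C, ∑ b₂ ∈ C,
            (Wt ex a k (2 * N + k) b₁ b₂ : ℤ) * (v b₁ * v b₂) :=
          h3.symm.trans (grp2 cc m (fun b b' => (Wt ex a k (2 * N + k) b b' : ℤ)))
        have h5 : ∀ b₁ ∈ C, ∀ b₂ ∈ C, (Wt ex a k (2 * N + k) b₁ b₂ : ℤ) * (v b₁ * v b₂) =
            if b₁ = b₂ then (if b₁.2 = N then (a : ℤ) * (v b₁ * v b₁) else 0) else 0 := by
          intro b₁ _ b₂ _
          by_cases g1 : N < b₁.2
          · rw [ih' b₁ g1]
            simp
          by_cases g2 : N < b₂.2
          · rw [ih' b₂ g2]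
            by_cases g3 : b₁ = b₂
            · subst g3
              exact absurd g2 g1
            · rw [if_neg g3]
              simp
          unfold Wt
          by_cases g3 : b₁ = b₂
          · subst g3
            rw [if_pos rfl, if_pos rfl]
            by_cases g4 : b₁.2 = N
            · rw [if_pos g4, if_pos (by omega)]
            · rw [if_neg g4, if_neg (by omega)]
              simp
          · rw [if_neg g3]
            by_cases g4 : b₁.1 = b₂.1
            · rw [if_pos g4, if_neg]
              · simp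
              · intro g5
                apply g3
                refine Prod.ext g4 ?_
                omega
            · rw [if_neg g4]
              by_cases g5 : ex b₁.1 b₂.1
              · rw [if_pos g5]
                simp
              · rw [if_neg g5, if_neg (by omega)]
                simp
        rw [Finset.sum_congr rfl fun b₁ hb₁ => Finset.sum_congr rfl fun b₂ hb₂ =>
          h5 b₁ hb₁ b₂ hb₂] at h4
        have h6 : ∀ b₁ ∈ C, ∑ b₂ ∈ C, (if b₁ = b₂ then
            (if b₁.2 = N then (a : ℤ) * (v b₁ * v b₁) else 0) else 0) =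
            if b₁.2 = N then (a : ℤ) * (v b₁ * v b₁) else 0 := by
          intro b₁ hb₁
          rw [Finset.sum_eq_single b₁]
          · rw [if_pos rfl]
          · intro b₂ _ hb₂
            rw [if_neg (Ne.symm hb₂)]
          · intro h
            exact absurd hb₁ h
        rw [Finset.sum_congr rfl h6] at h4
        by_cases hbC : b ∈ C
        · have h7 := (Finset.sum_eq_zero_iff_of_nonneg (fun b₁ _ => by
            by_cases g : b₁.2 = N
            · rw [if_pos g]
              exact mul_nonneg (Int.natCast_nonneg a) (mul_self_nonneg _)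
            · rw [if_neg g])).1 h4.symm b hbC
          rw [if_pos h0.symm] at h7
          rcases mul_eq_zero.1 h7 with h8 | h8
          · exact absurd (by exact_mod_cast h8) ha
          · exact mul_self_eq_zero.1 h8
        · refine vv_zero cc m fun t h1 => ?_
          exact hbC ((mem_rg cc).2 ⟨t, h1⟩)
  rw [hdeg]
  refine Finset.sum_eq_zero fun b _ => ?_
  rw [key (N₀ + 1) 0 (by omega) b (Nat.zero_le _), mul_zero]

end Run7.h759.DI
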