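import Pool.Agent.Run7.h759.DI.Xd3
import Pool.Agent.Run7.h759.DI.Top

/-!
# The invariant characters of the stabilisers of the chains (helper759)
-/

set_option autoImplicit false
set_option linter.unusedSectionVars false

open scoped Classical BigOperators

noncomputable section

namespace Run7.h759.DI

open Pool.Agent.Y63.NV (IsClassFun centralValue IsBlock numDzBlock)
open Pool.Agent.Helper884.IC (IsIrrChar IsClass Irr mem_Irr irr_finite)
open Pool.Agent.Y63.AWC (irr_comp)
open Pool.Agent.Y63.KR (IsPChain chainStabilizer)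
open Pool.Agent.R674.Tw (Fixes)
open Pool.Agent.Q99.AS (Dft Dft_ten Dft_unique Dft_congr Dft_exists ten ten_irr ten_inj ten_cover)

/-- the invariant characters of the stabilisers of the chains -/
structure Tt (p : ℕ) {F : Type} [Field F] (red : integralClosure ℤ ℂ →+* F) {E U : Type}
    [Group E] [Group U] (q : E →* U) (G : Subgroup E) (z : E → F) : Type where
  S : Subgroup E
  θ : ↥(G ⊓ S) → ℂ
  st : ∃ σ : Set (Subgroup E), IsPChain p σ ∧ (∀ P ∈ σ, P ≤ G) ∧ chainStabilizer σ = S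
  irr : IsIrrChar θ
  inv : Inq q ⊤ S θ
  cv : centralValue red θ (fun x => z x) = 1

section

variable {p : ℕ} {F : Type} [Field F] {red : integralClosure ℤ ℂ →+* F} {E U : Type}
  [Group E] [Group U] {q : E →* U} {G : Subgroup E} {z : E → F}

instance tt_fin [Finite E] : Finite (Tt p red q G z) := by
  have h : ∀ S : Subgroup E, Finite {θ : ↥(G ⊓ S) → ℂ // IsIrrChar θ} := by
    intro S
    have _i : Fintype ↥(G ⊓ S) := Fintype.ofFinite _
    exact Set.Finite.to_subtype irr_finite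
  let f : Tt p red q G z → Σ S : Subgroup E, {θ : ↥(G ⊓ S) → ℂ // IsIrrChar θ} :=
    fun t => ⟨t.S, ⟨t.θ, t.irr⟩⟩
  refine Finite.of_injective f ?_
  rintro ⟨S, θ, h1, h2, h3, h4⟩ ⟨S', θ', h1', h2', h3', h4'⟩ h
  have e1 : S = S' := congrArg Sigma.fst h
  subst e1
  have e2 : (⟨θ, h2⟩ : {θ : ↥(G ⊓ S) → ℂ // IsIrrChar θ}) = ⟨θ', h2'⟩ :=
    eq_of_heq (Sigma.mk.inj h).2
  have e3 : θ = θ' := congrArg Subtype.val e2
  subst e3
  rfl

/-- the characters which belong to `S` -/
abbrev XT (p : ℕ) {F : Type} [Field F] (red : integralClosure ℤ ℂ →+* F) {E U : Type}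
    [Group E] [Group U] (q : E →* U) (G : Subgroup E) (z : E → F) (S : Subgroup E) : Type :=
  {θ : ↥(G ⊓ S) → ℂ // IsIrrChar θ ∧ Inq q ⊤ S θ ∧ centralValue red θ (fun x => z x) = 1}

theorem xt_fin [Finite E] (S : Subgroup E) : Finite (XT p red q G z S) := by
  have _i : Fintype ↥(G ⊓ S) := Fintype.ofFinite _
  have h : Finite {θ : ↥(G ⊓ S) → ℂ // IsIrrChar θ} := Set.Finite.to_subtype irr_finite
  refine Finite.of_injective (fun t : XT p red q G z S => (⟨t.1, t.2.1⟩ :
    {θ : ↥(G ⊓ S) → ℂ // IsIrrChar θ})) ?_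
  intro a b h
  exact Subtype.ext (congrArg (fun t : {θ : ↥(G ⊓ S) → ℂ // IsIrrChar θ} => t.1) h)

/-- a character as a member of the family -/
def mkT {S : Subgroup E}
    (hst : ∃ σ : Set (Subgroup E), IsPChain p σ ∧ (∀ P ∈ σ, P ≤ G) ∧ chainStabilizer σ = S)
    (t : XT p red q G z S) : Tt p red q G z := ⟨S, t.1, hst, t.2.1, t.2.2.1, t.2.2.2⟩

theorem sum_T [Finite E] [Fintype (Tt p red q G z)] {S : Subgroup E}
    [Fintype (XT p red q G z S)]
    (hst : ∃ σ : Set (Subgroup E), IsPChain p σ ∧ (∀ P ∈ σ, P ≤ G) ∧ chainStabilizer σ = S)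
    (f : Tt p red q G z → ℤ) :
    ∑ t : Tt p red q G z, (if t.S = S then f t else 0) =
      ∑ t : XT p red q G z S, f (mkT hst t) := by
  symm
  refine Fintype.sum_of_injective (mkT hst) ?_ _ _ ?_ ?_
  · rintro ⟨θ, h⟩ ⟨θ', h'⟩ he
    have e2 : θ = θ' := by
      have := (Tt.mk.inj he).2
      exact eq_of_heq this
    subst e2
    rfl
  · rintro ⟨S', θ, h1, h2, h3, h4⟩ ht
    by_cases h : S' = S
    · subst h
      exact absurd ⟨⟨θ, h2, h3, h4⟩, rfl⟩ ht
    · exact if_neg h
  · intro t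
    exact (if_pos rfl).symm

/-- the defect -/
def df [Finite E] (t : Tt p red q G z) : ℕ := (Dft_exists p t.irr).choose

theorem df_spec [Finite E] (t : Tt p red q G z) : Dft p (df t) t.θ :=
  (Dft_exists p t.irr).choose_spec

theorem df_eq [Finite E] (t : Tt p red q G z) {D : ℕ} : Dft p D t.θ ↔ df t = D :=
  ⟨fun h => Dft_unique (df_spec t) h, fun h => h ▸ df_spec t⟩

/-- the multiplicity of a character in the signed sums -/
def mm [Finite E] (t : Tt p red q G z) : ℤ :=
  al p G (fun S => (Nat.card ↥(G ⊓ S) : ℤ) * if t.S = S then 1 else 0)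

/-- the signed sums of the invariant characters -/
theorem xc_T [Finite E] [Fintype (Tt p red q G z)] (D : ℕ) :
    al p G (fun S => (Nat.card ↥(G ⊓ S) : ℤ) * xc p red G q ⊤ z 1 D S) =
      ∑ t ∈ (Finset.univ : Finset (Tt p red q G z)).filter (fun t => df t = D), mm t := by
  unfold mm
  rw [← al_sum]
  refine al_congr fun σ h1 h2 => ?_
  rw [← Finset.mul_sum]
  congr 1
  have hst : ∃ σ' : Set (Subgroup E), IsPChain p σ' ∧ (∀ P ∈ σ', P ≤ G) ∧
      chainStabilizer σ' = chainStabilizer σ := ⟨σ, h1, h2, rfl⟩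
  generalize chainStabilizer σ = S at hst ⊢
  have _x : Fintype (XT p red q G z S) := @Fintype.ofFinite _ (xt_fin S)
  rw [Finset.sum_filter]
  have e1 : ∀ t : Tt p red q G z, (if df t = D then (if t.S = S then (1 : ℤ) else 0) else 0) =
      if t.S = S then (if df t = D then 1 else 0) else 0 := by
    intro t
    by_cases h3 : df t = D <;> by_cases h4 : t.S = S <;> simp [h3, h4]
  rw [Finset.sum_congr rfl fun t _ => e1 t, sum_T hst]
  have e2 : ∑ t : XT p red q G z S, (if df (mkT hst t) = D then (1 : ℤ) else 0) =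
      ((Finset.univ.filter fun t : XT p red q G z S => df (mkT hst t) = D).card : ℤ) := by
    rw [Finset.sum_boole]
  rw [e2]
  unfold xc xk
  congr 1
  rw [← Fintype.card_subtype, ← Nat.card_eq_fintype_card]
  refine Nat.card_congr
    { toFun := fun χ => ⟨⟨χ.1, χ.2.1, χ.2.2.2.1, χ.2.2.2.2⟩, (df_eq (mkT hst _)).1 χ.2.2.1⟩
      invFun := fun t => ⟨t.1.1, t.1.2.1, (df_eq (mkT hst t.1)).2 t.2, t.1.2.2.1, t.1.2.2.2⟩
      left_inv := fun χ => rfl
      right_inv := fun t => rfl }

variable (A : Subgroup U)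

/-- there is an invariant extension of the product -/
def RT (t t' : Tt p red q G z) : Prop := ∃ F, Xd q A t.θ t'.θ F ∧ Xv q t.S t'.S F

/-- there is an extension of the product -/
def RE (t t' : Tt p red q G z) : Prop := ∃ F, Xd q A t.θ t'.θ F

variable {A}

theorem RT.re {t t' : Tt p red q G z} (h : RT A t t') : RE A t t' := by
  obtain ⟨F, h1, -⟩ := h
  exact ⟨F, h1⟩

variable [Finite E] [A.Normal] (hq : q.ker = G)

theorem tt_q (t : Tt p red q G z) (u : U) : ∃ e ∈ t.S, q e = u := by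
  obtain ⟨e, he, h1, -⟩ := t.inv u (Subgroup.mem_top _)
  exact ⟨e, he, h1⟩

include hq

theorem rt_refl (t : Tt p red q G z) : RT A t t := by
  have _i : Fintype E := Fintype.ofFinite _
  exact xd_refl hq t.irr t.inv

omit hq [A.Normal] in
theorem rt_symm {t t' : Tt p red q G z} (h : RT A t t') : RT A t' t := by
  obtain ⟨F, h1, h2⟩ := h
  exact ⟨_, xd_symm h1, xv_symm h2⟩

omit hq [A.Normal] in
theorem re_symm {t t' : Tt p red q G z} (h : RE A t t') : RE A t' t := by
  obtain ⟨F, h1⟩ := h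
  exact ⟨_, xd_symm h1⟩

theorem rt_trans {t t' t'' : Tt p red q G z} (h : RT A t t') (h' : RT A t' t'') :
    RT A t t'' := by
  have _i : Fintype E := Fintype.ofFinite _
  obtain ⟨F, h1, h2⟩ := h
  obtain ⟨F', h1', h2'⟩ := h'
  refine ⟨_, cnv_xd hq (fun a _ => tt_q t' a) t.irr t'.irr t''.irr h1 h1',
    cnv_inv G t'.S h2 h2' fun s _ => ?_⟩
  obtain ⟨e, he, h3⟩ := tt_q t' (q s)
  exact ⟨e, he, h3.symm⟩

theorem re_trans {t t' t'' : Tt p red q G z} (h : RE A t t') (h' : RE A t' t'') :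
    RE A t t'' := by
  have _i : Fintype E := Fintype.ofFinite _
  obtain ⟨F, h1⟩ := h
  obtain ⟨F', h1'⟩ := h'
  exact ⟨_, cnv_xd hq (fun a _ => tt_q t' a) t.irr t'.irr t''.irr h1 h1'⟩

/-- the equivalence relation -/
def sT : Setoid (Tt p red q G z) where
  r := RT A
  iseqv := ⟨rt_refl hq, rt_symm, rt_trans hq⟩

/-- the relation on classes -/
def exL (l l' : Quotient (sT (p := p) (red := red) (z := z) (A := A) hq)) : Prop :=
  ∃ t t' : Tt p red q G z, Quotient.mk (sT hq) t = l ∧ Quotient.mk (sT hq) t' = l' ∧ RE A t t'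

theorem exL_iff (t t' : Tt p red q G z) :
    exL (A := A) hq (Quotient.mk (sT hq) t) (Quotient.mk (sT hq) t') ↔ RE A t t' := by
  constructor
  · rintro ⟨s, s', h1, h2, h3⟩
    have h1' : RT A s t := Quotient.exact h1
    have h2' : RT A s' t' := Quotient.exact h2
    exact re_trans hq (re_trans hq (re_symm h1'.re) h3) h2'.re
  · intro h
    exact ⟨t, t', rfl, rfl, h⟩

theorem lb_iff (t t' : Tt p red q G z) :
    Quotient.mk (sT (A := A) hq) t = Quotient.mk (sT hq) t' ↔ RT A t t' :=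
  ⟨fun h => Quotient.exact h, fun h => Quotient.sound h⟩

end

end Run7.h759.DI
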