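import Pool.Agent.Run7.h759.DI.Mi
import Pool.Agent.Run7.h759.DI.Dec

/-!
# Characters of the stabilisers of the chains above a complement (helper759)
-/

set_option autoImplicit false
set_option linter.unusedSectionVars false

open scoped Classical BigOperators

noncomputable section

namespace Run7.h759.DI

open Pool.Agent.Y63.NV (IsClassFun centralValue)
open Pool.Agent.Helper884.IC (IsIrrChar IsClass)
open Pool.Agent.Y63.AWC (IsIrreducibleCharacter irr_comp)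
open Pool.Agent.R674.Tw (Fixes)
open Pool.Agent.Q99.AS (Dft Dft_congr irr_one_ne')
open Pool.Agent.N20.DI (pf pf_class mem_up)
open Pool.Agent.N323.DI (irr_twist central_char cv_twist deflate')

variable {E U Q : Type} [Group E] [Finite E] [Group U] [Group Q] [Finite Q] {q : E →* U}
  {A : Subgroup U} [hAn : A.Normal] {G L R : Subgroup E} {π : L →* Q}

/-- the linear characters of `A` which are invariant under `U` -/
def Iv (A : Subgroup U) (μ : A →* ℂˣ) : Prop :=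
  ∀ (u : U) (a a' : A), (a' : U) = u * a * u⁻¹ → μ a' = μ a

/-- the stabiliser above `S'` -/
abbrev Up (π : L →* Q) (S' : Subgroup Q) : Subgroup E := (S'.comap π).map L.subtype

/-- the image of `N ∩ L` -/
abbrev Nb (q : E →* U) (A : Subgroup U) (π : L →* Q) : Subgroup Q :=
  ((A.comap q).subgroupOf L).map π

omit [Finite E] [Finite Q] hAn in
theorem up_le (S' : Subgroup Q) : Up π S' ≤ L := by
  rintro _ ⟨x, _, rfl⟩
  exact x.2

/-- the projection -/
def rho (q : E →* U) (A : Subgroup U) (π : L →* Q) (S' : Subgroup Q) :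
    ↥(A.comap q ⊓ Up π S') →* ↥(Nb q A π ⊓ S') where
  toFun x := ⟨π ⟨x, up_le S' (Subgroup.mem_inf.1 x.2).2⟩, by
    refine Subgroup.mem_inf.2 ⟨⟨_, Subgroup.mem_subgroupOf.2 (Subgroup.mem_inf.1 x.2).1, rfl⟩, ?_⟩
    obtain ⟨h, h2⟩ := (mem_up π S' (x : E)).1 (Subgroup.mem_inf.1 x.2).2
    exact h2⟩
  map_one' := Subtype.ext (map_one π)
  map_mul' a b := Subtype.ext (by
    change π ⟨a * b, _⟩ = π ⟨a, _⟩ * π ⟨b, _⟩
    rw [← map_mul]
    rfl)

omit [Finite E] [Finite Q] hAn in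
theorem rho_coe (S' : Subgroup Q) (x : ↥(A.comap q ⊓ Up π S')) :
    ((rho q A π S' x : ↥(Nb q A π ⊓ S')) : Q) =
      π ⟨x, up_le S' (Subgroup.mem_inf.1 x.2).2⟩ := rfl

omit [Finite E] [Finite Q] hAn in
theorem rho_surj (S' : Subgroup Q) : Function.Surjective (rho q A π S') := by
  rintro ⟨y, hy⟩
  obtain ⟨⟨x, hx, rfl⟩, h2⟩ := Subgroup.mem_inf.1 hy
  exact ⟨⟨x, Subgroup.mem_inf.2 ⟨Subgroup.mem_subgroupOf.1 hx,
    (mem_up π S' (x : E)).2 ⟨x.2, h2⟩⟩⟩, Subtype.ext rfl⟩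

section

variable (hk : π.ker = R.subgroupOf L)
include hk

omit [Finite E] [Finite Q] hAn in
theorem rho_one (S' : Subgroup Q) (x : ↥(A.comap q ⊓ Up π S')) :
    rho q A π S' x = 1 ↔ (x : E) ∈ R := by
  have h1 : rho q A π S' x = 1 ↔ π ⟨x, up_le S' (Subgroup.mem_inf.1 x.2).2⟩ = 1 :=
    ⟨fun h => congrArg Subtype.val h, fun h => Subtype.ext h⟩
  rw [h1, ← MonoidHom.mem_ker, hk]
  exact Iff.rfl

variable (hRL : R ≤ L) (hRN : R ≤ A.comap q)
include hRL hRN

omit [Finite E] [Finite Q] hAn in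
theorem R_le (S' : Subgroup Q) : R ≤ A.comap q ⊓ Up π S' := by
  intro x hx
  refine Subgroup.mem_inf.2 ⟨hRN hx, (mem_up π S' x).2 ⟨hRL hx, ?_⟩⟩
  have : (⟨x, hRL hx⟩ : L) ∈ π.ker := by
    rw [hk]
    exact hx
  rw [MonoidHom.mem_ker.1 this]
  exact S'.one_mem

variable {p : ℕ} [hp : Fact p.Prime] (hq : q.ker = G) (hA : Nat.card A = p) (hGR : G ⊓ R = ⊥)
  (hR0 : R ≠ ⊥) (hLn : L ≤ Subgroup.normalizer (R : Set E))
include hq hA hGR

omit [Finite E] [Finite Q] hAn hk hRL in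
theorem q_inj {x : E} (hx : x ∈ R) (h : q x = 1) : x = 1 := by
  have : x ∈ G ⊓ R := Subgroup.mem_inf.2 ⟨(mem_G hq).2 h, hx⟩
  rw [hGR, Subgroup.mem_bot] at this
  exact this

include hR0

omit [Finite Q] hAn hk hRL in
/-- `R` maps onto `A` -/
theorem R_surj (a : A) : ∃ x ∈ R, q x = a := by
  have h1 : ∃ x ∈ R, x ≠ 1 := by
    by_contra h
    push Not at h
    exact hR0 ((Subgroup.eq_bot_iff_forall _).2 h)
  obtain ⟨x, hx, hx1⟩ := h1
  have h2 : q x ≠ 1 := fun h => hx1 (q_inj hRN hq hA hGR hx h)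
  obtain ⟨y, hy⟩ := phi_surj A hp.out hA hx (hRN hx) h2 a
  exact ⟨y, (Subgroup.mem_inf.1 y.2).2, congrArg Subtype.val hy⟩

omit [Finite Q] hAn hk hRL in
theorem card_R : Nat.card R = p := by
  rw [← hA]
  refine Nat.card_congr (Equiv.ofBijective (fun x : R => (⟨q x, hRN x.2⟩ : A)) ⟨?_, ?_⟩)
  · intro x y h
    have h1 : q x = q y := congrArg Subtype.val h
    have h2 : (x : E)⁻¹ * y = 1 := by
      refine q_inj hRN hq hA hGR (R.mul_mem (R.inv_mem x.2) y.2) ?_
      rw [map_mul, map_inv, h1, inv_mul_cancel]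
    exact Subtype.ext (inv_mul_eq_one.1 h2)
  · intro a
    obtain ⟨x, hx, h⟩ := R_surj hRN hq hA hGR hR0 a
    exact ⟨⟨x, hx⟩, Subtype.ext h⟩

omit hR0
include hLn

omit [Finite E] [Finite Q] hAn in
/-- `R` is central in `N ∩ S` -/
theorem R_cent (S' : Subgroup Q) {r x : E} (hr : r ∈ R) (hx : x ∈ A.comap q ⊓ Up π S') :
    x * r = r * x := by
  have hc : IsCyclic A := isCyclic_of_prime_card hA
  have h1 : x * r * x⁻¹ * r⁻¹ ∈ G ⊓ R := by
    refine Subgroup.mem_inf.2 ⟨?_, R.mul_mem ?_ (R.inv_mem hr)⟩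
    · rw [mem_G hq, map_mul, map_mul, map_mul, map_inv, map_inv]
      have h2 : (⟨q x, (Subgroup.mem_inf.1 hx).1⟩ : A) * ⟨q r, hRN hr⟩ =
          ⟨q r, hRN hr⟩ * ⟨q x, (Subgroup.mem_inf.1 hx).1⟩ :=
        (IsCyclic.isMulCommutative (α := A)).is_comm.comm _ _
      have h3 : q x * q r = q r * q x := congrArg Subtype.val h2
      rw [h3]
      group
    · exact (Subgroup.mem_normalizer_iff.1 (hLn (up_le S' (Subgroup.mem_inf.1 hx).2)) r).1 hr
  rw [hGR, Subgroup.mem_bot] at h1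
  calc x * r = x * r * x⁻¹ * r⁻¹ * r * x := by group
    _ = r * x := by rw [h1, one_mul]

include hR0

omit hLn hAn in
theorem card_J (S' : Subgroup Q) :
    Nat.card ↥(A.comap q ⊓ Up π S') = p * Nat.card ↥(Nb q A π ⊓ S') := by
  have h1 := Subgroup.card_mul_index (rho q A π S').ker
  rw [Subgroup.index_ker, MonoidHom.range_eq_top.2 (rho_surj S'), Subgroup.card_top] at h1
  rw [← h1]
  congr 1
  rw [← card_R hRN hq hA hGR hR0]
  exact Nat.card_congr
    { toFun := fun x => ⟨x.1.1, (rho_one hk S' x.1).1 x.2⟩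
      invFun := fun x => ⟨⟨x.1, R_le hk hRL hRN S' x.2⟩, (rho_one hk S' _).2 x.2⟩
      left_inv := fun x => rfl
      right_inv := fun x => rfl }

variable {F : Type} [Field F] (red : integralClosure ℤ ℂ →+* F) (r' : Q →* U ⧸ A)
  (hr' : ∀ x : L, r' (π x) = (QuotientGroup.mk' A) (q x))
include hr'

variable (hπ : Function.Surjective π)
include hπ

/-- **the characters of the stabilisers above `R`** -/
theorem linx {z : E → F} (hz : ∀ g x, z (g * x * g⁻¹) = z x) (hz0 : ∀ x, x ∉ G → z x = 0)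
    (c₀ : F) (D : ℕ) (S' : Subgroup Q) :
    xc p red (A.comap q) ((QuotientGroup.mk' A).comp q) ⊤ z c₀ (D + 1) (Up π S') =
      (Nat.card {μ : A →* ℂˣ // Iv A μ} : ℤ) *
        xc p red (Nb q A π) r' ⊤ (pf z π) c₀ D S' := by
  have hfinA : Finite A := fin_A hp.out hA
  set S := Up π S' with hS
  set J := A.comap q ⊓ S with hJ
  have _iJ : Fintype ↥J := Fintype.ofFinite _
  have hJL : ∀ x ∈ J, x ∈ L := fun x hx => up_le S' (Subgroup.mem_inf.1 hx).2
  have hRJ : R ≤ J := R_le hk hRL hRN S'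
  let ρ : ↥J →* ↥(Nb q A π ⊓ S') := rho q A π S'
  have hρ : Function.Surjective ρ := rho_surj S'
  have hρ1 : ∀ x : J, ρ x = 1 ↔ (x : E) ∈ R := fun x => rho_one hk S' x
  let φ : ↥J →* A := phi q A S
  have hcard : Nat.card ↥J = p * Nat.card ↥(Nb q A π ⊓ S') := card_J hk hRL hRN hq hA hGR hR0 S'
  have hfac : (Nat.card ↥J).factorization p = (Nat.card ↥(Nb q A π ⊓ S')).factorization p + 1 := by
    rw [hcard, Nat.factorization_mul hp.out.ne_zero Nat.card_pos.ne', Finsupp.add_apply,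
      hp.out.factorization, Finsupp.single_eq_same, add_comm]
  -- defects
  have hdef : ∀ (χ' : ↥(Nb q A π ⊓ S') → ℂ) (χ : ↥J → ℂ), χ 1 = χ' 1 →
      (Dft p (D + 1) χ ↔ Dft p D χ') := by
    intro χ' χ h1
    unfold Dft
    rw [hfac, h1]
    refine exists_congr fun n => and_congr_right fun _ => ?_
    omega
  -- central characters
  have hcv : ∀ (μ : A →* ℂˣ) (χ' : ↥(Nb q A π ⊓ S') → ℂ), IsIrrChar χ' →
      centralValue red (tw φ μ (fun x => χ' (ρ x))) (fun x => z x) =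
        centralValue red χ' (fun y => pf z π y) := by
    intro μ χ' hχ'
    have h1 := cv_twist red (MM q A G S) (fun x : J => z x)
      (fun x hx => hz0 _ (fun h => hx (Subgroup.mem_subgroupOf.2
        (Subgroup.mem_inf.2 ⟨h, (Subgroup.mem_inf.1 x.2).2⟩)))) (μ.comp φ) (by
        intro g hg
        have := (mem_M A hq S g).1 hg
        change μ (phi q A S g) = 1
        rw [this, map_one]) (fun x => χ' (ρ x))
    have h2 := Pool.Agent.Y930.NV.inf F red J _ ρ χ' (fun x : J => z x) hρ hχ'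
      (fun g x => hz g x)
    have h3 : (fun y : ↥(Nb q A π ⊓ S') => ∑ᶠ x : J,
        @ite F (ρ x = y) (Classical.propDecidable _) (z x) 0) =
        fun y : ↥(Nb q A π ⊓ S') => pf z π (y : Q) := by
      funext y
      unfold pf
      let ι : J → L := fun x => ⟨x.1, hJL x.1 x.2⟩
      have hι : Function.Injective ι := fun a b h => Subtype.ext (congrArg (fun t : L => (t : E)) h)
      have e1 : ∀ x : J, (@ite F (ρ x = y) (Classical.propDecidable _) (z x) 0) =
          (fun t : L => if π t = (y : Q) then z t else 0) (ι x) := by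
        intro x
        have e2 : ρ x = y ↔ π (ι x) = (y : Q) :=
          ⟨fun h => congrArg Subtype.val h, fun h => Subtype.ext h⟩
        change (@ite F (ρ x = y) (Classical.propDecidable _) (z x) 0) =
          if π (ι x) = (y : Q) then z x else 0
        by_cases h : ρ x = y
        · rw [if_pos h, if_pos (e2.1 h)]
        · rw [if_neg h, if_neg (fun h' => h (e2.2 h'))]
      have e3 := finsum_mem_range (f := fun t : L => if π t = (y : Q) then z t else 0) hι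
      refine (finsum_congr e1).trans (e3.symm.trans ?_)
      rw [finsum_mem_def]
      refine finsum_congr fun t => ?_
      by_cases ht : t ∈ Set.range ι
      · rw [Set.indicator_of_mem ht]
      · rw [Set.indicator_of_notMem ht, if_neg]
        intro h
        apply ht
        obtain ⟨x, hx⟩ := hρ y
        have h4 : π (ι x) = (y : Q) := congrArg Subtype.val hx
        have h5 : (ι x)⁻¹ * t ∈ π.ker := by
          rw [MonoidHom.mem_ker, map_mul, map_inv, h4, h, inv_mul_cancel]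
        rw [hk, Subgroup.mem_subgroupOf] at h5
        have h6 : (t : E) ∈ J := by
          have h7 := J.mul_mem x.2 (hRJ h5)
          have h8 : (x : E) * (((ι x)⁻¹ * t : L) : E) = t := by
            change (x : E) * ((x : E)⁻¹ * t) = t
            group
          rwa [h8] at h7
        exact ⟨⟨t, h6⟩, rfl⟩
    rw [h3] at h2
    rw [← h2]
    exact h1
  -- the fixed characters
  have hfix : ∀ (μ : A →* ℂˣ) (χ' : ↥(Nb q A π ⊓ S') → ℂ), IsIrrChar χ' →
      (Inq ((QuotientGroup.mk' A).comp q) ⊤ S (tw φ μ (fun x => χ' (ρ x))) ↔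
        Iv A μ ∧ Inq r' ⊤ S' χ') := by
    intro μ χ' hχ'
    have hne : χ' 1 ≠ 0 := irr_one_ne' hχ'
    constructor
    · intro h
      -- invariance of `μ` under the elements found
      have h1 : ∀ e ∈ S, Fixes e (tw φ μ (fun x => χ' (ρ x))) → ∀ a a' : A,
          (a' : U) = q e * a * (q e)⁻¹ → μ a' = μ a := by
        intro e he hf a a' ha
        obtain ⟨x, hx, hxa⟩ := R_surj hRN hq hA hGR hR0 a
        have hn := Subgroup.mem_normalizer_iff.1 (hLn (up_le S' he)) x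
        have hx' := hn.1 hx
        have h2 := hf ⟨x, hRJ hx⟩ ⟨e * x * e⁻¹, hRJ hx'⟩ rfl
        change ((μ (φ _) : ℂˣ) : ℂ) * χ' (ρ _) = ((μ (φ _) : ℂˣ) : ℂ) * χ' (ρ _) at h2
        have h3 : ρ ⟨x, hRJ hx⟩ = 1 := (hρ1 _).2 hx
        have h4 : ρ ⟨e * x * e⁻¹, hRJ hx'⟩ = 1 := (hρ1 _).2 hx'
        rw [h3, h4] at h2
        have h5 := mul_right_cancel₀ hne h2
        have h6 : φ ⟨x, hRJ hx⟩ = a := Subtype.ext hxa
        have h7 : φ ⟨e * x * e⁻¹, hRJ hx'⟩ = a' := by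
          apply Subtype.ext
          rw [ha, ← hxa]
          change q (e * x * e⁻¹) = _
          rw [map_mul, map_mul, map_inv]
        rw [h6, h7] at h5
        exact Units.ext h5
      have hmu : Iv A μ := by
        intro u a a' ha
        obtain ⟨e, he, h2, h3⟩ := h (u : U ⧸ A) (Subgroup.mem_top _)
        have h4 : (q e)⁻¹ * u ∈ A := QuotientGroup.eq.1 h2
        set b : A := ⟨_, h4⟩ with hb
        have h5 := h1 e he h3 (b * a * b⁻¹) a' (by
          rw [ha]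
          change u * a * u⁻¹ = q e * ((q e)⁻¹ * u * a * ((q e)⁻¹ * u)⁻¹) * (q e)⁻¹
          group)
        rw [h5, map_mul, map_mul, map_inv, mul_comm (μ b) (μ a), mul_assoc, mul_inv_cancel,
          mul_one]
      refine ⟨hmu, fun w _ => ?_⟩
      obtain ⟨e, he, h2, h3⟩ := h w (Subgroup.mem_top _)
      obtain ⟨heL, heS⟩ := (mem_up π S' e).1 he
      refine ⟨π ⟨e, heL⟩, heS, ?_, ?_⟩
      · rw [hr']
        exact h2
      · intro n n' hn
        obtain ⟨x, rfl⟩ := hρ n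
        have hx' : e * x * e⁻¹ ∈ J := (N_conj he (x : E)).1 x.2
        have h4 : ρ ⟨e * x * e⁻¹, hx'⟩ = n' := by
          apply Subtype.ext
          rw [hn, rho_coe]
          have : (⟨e * x * e⁻¹, up_le S' (Subgroup.mem_inf.1 hx').2⟩ : L) =
              ⟨e, heL⟩ * ⟨x, hJL x x.2⟩ * ⟨e, heL⟩⁻¹ := rfl
          change π ⟨e * x * e⁻¹, _⟩ = _
          rw [this, map_mul, map_mul, map_inv]
          rfl
        have h5 := h3 x ⟨e * x * e⁻¹, hx'⟩ rfl
        change ((μ (φ _) : ℂˣ) : ℂ) * χ' (ρ _) = ((μ (φ _) : ℂˣ) : ℂ) * χ' (ρ _) at h5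
        rw [h4] at h5
        have h6 : μ (φ ⟨e * x * e⁻¹, hx'⟩) = μ (φ x) := by
          refine hmu (q e) _ _ ?_
          change q (e * x * e⁻¹) = _
          rw [map_mul, map_mul, map_inv]
          rfl
        rw [h6] at h5
        exact mul_left_cancel₀ (Units.ne_zero _) h5
    · rintro ⟨hmu, h⟩ w hw
      obtain ⟨y, hy, h2, h3⟩ := h w hw
      obtain ⟨⟨e, heL⟩, rfl⟩ := hπ y
      have he : e ∈ S := (mem_up π S' e).2 ⟨heL, hy⟩
      refine ⟨e, he, ?_, fun n n' hn => ?_⟩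
      · rw [← h2, hr']
        rfl
      · have h6 : μ (φ n') = μ (φ n) := by
          refine hmu (q e) _ _ ?_
          change q (n' : E) = q e * q n * (q e)⁻¹
          rw [hn, map_mul, map_mul, map_inv]
        have h7 : χ' (ρ n') = χ' (ρ n) := by
          refine h3 (ρ n) (ρ n') ?_
          rw [rho_coe, rho_coe]
          have : (⟨(n' : E), up_le S' (Subgroup.mem_inf.1 n'.2).2⟩ : L) =
              ⟨e, heL⟩ * ⟨(n : E), hJL n n.2⟩ * ⟨e, heL⟩⁻¹ := Subtype.ext hn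
          rw [this, map_mul, map_mul, map_inv]
        change ((μ (φ n') : ℂˣ) : ℂ) * χ' (ρ n') = ((μ (φ n) : ℂˣ) : ℂ) * χ' (ρ n)
        rw [h6, h7]
  -- the bijection
  have hirr : ∀ (μ : A →* ℂˣ) (χ' : ↥(Nb q A π ⊓ S') → ℂ), IsIrrChar χ' →
      IsIrrChar (tw φ μ (fun x => χ' (ρ x))) := fun μ χ' h =>
    tw_irr φ μ (Pool.Agent.Y930.NV.irr_inflate ρ hρ h)
  have hone : ∀ (μ : A →* ℂˣ) (χ' : ↥(Nb q A π ⊓ S') → ℂ),
      tw φ μ (fun x => χ' (ρ x)) 1 = χ' 1 := by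
    intro μ χ'
    change ((μ (φ 1) : ℂˣ) : ℂ) * χ' (ρ 1) = χ' 1
    rw [map_one, map_one, map_one, Units.val_one, one_mul]
  unfold xc xk
  rw [← Nat.cast_mul, ← Nat.card_prod]
  congr 1
  symm
  refine Nat.card_congr (Equiv.ofBijective (fun t : {μ : A →* ℂˣ // Iv A μ} ×
    {χ' : ↥(Nb q A π ⊓ S') → ℂ // IsIrrChar χ' ∧ (Dft p D χ' ∧ Inq r' ⊤ S' χ' ∧
      centralValue red χ' (fun x => pf z π x) = c₀)} =>
    (⟨tw φ t.1.1 (fun x => t.2.1 (ρ x)), hirr _ _ t.2.2.1,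
      (hdef _ _ (hone _ _)).2 t.2.2.2.1, (hfix _ _ t.2.2.1).2 ⟨t.1.2, t.2.2.2.2.1⟩,
      (hcv _ _ t.2.2.1).trans t.2.2.2.2.2⟩ : {χ : ↥J → ℂ // IsIrrChar χ ∧ (Dft p (D + 1) χ ∧
        Inq ((QuotientGroup.mk' A).comp q) ⊤ S χ ∧ centralValue red χ (fun x => z x) = c₀)}))
    ⟨?_, ?_⟩)
  · rintro ⟨⟨μ, hμ⟩, ⟨χ, hχ⟩⟩ ⟨⟨ν, hν⟩, ⟨ψ, hψ⟩⟩ heq
    have h0 : tw φ μ (fun x => χ (ρ x)) = tw φ ν (fun x => ψ (ρ x)) := congrArg Subtype.val heq
    have h1 : χ 1 = ψ 1 := by
      rw [← hone μ χ, ← hone ν ψ, h0]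
    have hne : χ 1 ≠ 0 := irr_one_ne' hχ.1
    have h2 : μ = ν := by
      ext a
      obtain ⟨x, hx, hxa⟩ := R_surj hRN hq hA hGR hR0 a
      have h3 := congrFun h0 ⟨x, hRJ hx⟩
      change ((μ (φ _) : ℂˣ) : ℂ) * χ (ρ _) = ((ν (φ _) : ℂˣ) : ℂ) * ψ (ρ _) at h3
      have h4 : ρ ⟨x, hRJ hx⟩ = 1 := (hρ1 _).2 hx
      have h5 : φ ⟨x, hRJ hx⟩ = a := Subtype.ext hxa
      rw [h4, h5, ← h1] at h3
      exact mul_right_cancel₀ hne h3
    subst h2
    have h3 : χ = ψ := by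
      funext y
      obtain ⟨x, rfl⟩ := hρ y
      exact mul_left_cancel₀ (Units.ne_zero (μ (φ x))) (congrFun h0 x)
    subst h3
    rfl
  · rintro ⟨χ, hχ1, hχ2, hχ3, hχ4⟩
    have hcen : R.subgroupOf J ≤ Subgroup.center ↥J := by
      intro r hr
      rw [Subgroup.mem_center_iff]
      intro x
      exact Subtype.ext (R_cent (π := π) hk hRL hRN hq hA hGR hLn S' (Subgroup.mem_subgroupOf.1 hr) x.2)
    obtain ⟨μ₀, hμ₀⟩ := central_char hχ1 (R.subgroupOf J) hcen
    -- the character of `A`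
    have hsurj := R_surj hRN hq hA hGR hR0
    choose s hs hsq using hsurj
    have hs' : ∀ x (hx : x ∈ R), s ⟨q x, hRN hx⟩ = x := by
      intro x hx
      have h2 : (s ⟨q x, hRN hx⟩)⁻¹ * x = 1 := by
        refine q_inj hRN hq hA hGR (R.mul_mem (R.inv_mem (hs _)) hx) ?_
        rw [map_mul, map_inv, hsq, inv_mul_cancel]
      exact inv_mul_eq_one.1 h2
    let sR : A →* ↥(R.subgroupOf J) :=
      { toFun := fun a => ⟨⟨s a, hRJ (hs a)⟩, Subgroup.mem_subgroupOf.2 (hs a)⟩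
        map_one' := by
          apply Subtype.ext
          apply Subtype.ext
          have h2 := hs' 1 R.one_mem
          have h3 : (⟨q 1, hRN R.one_mem⟩ : A) = 1 := Subtype.ext (map_one q)
          rw [h3] at h2
          exact h2
        map_mul' := fun a b => by
          apply Subtype.ext
          apply Subtype.ext
          have h2 := hs' (s a * s b) (R.mul_mem (hs a) (hs b))
          have h3 : (⟨q (s a * s b), hRN (R.mul_mem (hs a) (hs b))⟩ : A) = a * b := by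
            apply Subtype.ext
            change q (s a * s b) = (a : U) * b
            rw [map_mul, hsq, hsq]
          rw [h3] at h2
          exact h2 }
    let μ : A →* ℂˣ := μ₀.comp sR
    have hμ : ∀ (r : E) (hr : r ∈ R) (x : J), χ (⟨r, hRJ hr⟩ * x) =
        ((μ (φ ⟨r, hRJ hr⟩) : ℂˣ) : ℂ) * χ x := by
      intro r hr x
      have h2 := hμ₀ ⟨⟨r, hRJ hr⟩, Subgroup.mem_subgroupOf.2 hr⟩ x
      have h3 : sR (φ ⟨r, hRJ hr⟩) = ⟨⟨r, hRJ hr⟩, Subgroup.mem_subgroupOf.2 hr⟩ := by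
        apply Subtype.ext
        apply Subtype.ext
        exact hs' r hr
      change χ (⟨r, hRJ hr⟩ * x) = ((μ₀ (sR (φ ⟨r, hRJ hr⟩)) : ℂˣ) : ℂ) * χ x
      rw [h3]
      exact h2
    have hψ1 : IsIrrChar (tw φ μ⁻¹ χ) := tw_irr φ _ hχ1
    have hψ2 : ∀ k ∈ ρ.ker, ∀ x : J, tw φ μ⁻¹ χ (k * x) = tw φ μ⁻¹ χ x := by
      intro k hk' x
      have hkR : (k : E) ∈ R := (hρ1 k).1 hk'
      have h2 := hμ k hkR x
      change (((μ⁻¹) (φ (k * x)) : ℂˣ) : ℂ) * χ (k * x) = (((μ⁻¹) (φ x) : ℂˣ) : ℂ) * χ x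
      have h3 : (⟨(k : E), hRJ hkR⟩ : J) = k := rfl
      rw [h3] at h2
      rw [h2, map_mul, map_mul, Units.val_mul, MonoidHom.inv_apply]
      have h4 : (((μ (φ k))⁻¹ : ℂˣ) : ℂ) * ((μ (φ k) : ℂˣ) : ℂ) = 1 := Units.inv_mul _
      linear_combination (((μ⁻¹) (φ x) : ℂˣ) : ℂ) * χ x * h4
    obtain ⟨χ', h1, h2⟩ := deflate' ρ hρ hψ1 hψ2
    have hχχ' : χ = tw φ μ (fun x => χ' (ρ x)) := by
      have h3 : (fun x => χ' (ρ x)) = tw φ μ⁻¹ χ := (funext h2).symm
      have h9 : μ * μ⁻¹ = 1 := mul_inv_cancel μ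
      rw [h3, ← tw_mul, h9, tw_one]
    have h1' : IsIrrChar χ' := h1
    obtain ⟨h5, h6⟩ := (hfix μ χ' h1').1 (by rw [← hχχ']; exact hχ3)
    refine ⟨⟨⟨μ, h5⟩, ⟨χ', h1', (hdef χ' χ (by rw [hχχ', hone])).1 hχ2, h6, ?_⟩⟩,
      Subtype.ext hχχ'.symm⟩
    rw [← hcv μ χ' h1', ← hχχ']
    exact hχ4

end

end Run7.h759.DI
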