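import Mathlib

/-!
# The terms of lowest degree (helper759)
-/

set_option autoImplicit false

open scoped BigOperators

namespace Run7.h759.DI

open Finset.HasAntidiagonal in
/-- the product of two sequences vanishing below `D`, below `2 D` -/
theorem anti_lt {f g : ℕ → ℤ} {D : ℕ} (hf : ∀ i < D, f i = 0) (hg : ∀ i < D, g i = 0) {n : ℕ}
    (hn : n < 2 * D) : ∑ i ∈ antidiagonal n, f i.1 * g i.2 = 0 := by
  refine Finset.sum_eq_zero fun i hi => ?_
  rw [Finset.HasAntidiagonal.mem_antidiagonal] at hi
  rcases lt_or_ge i.1 D with h | h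
  · rw [hf _ h, zero_mul]
  · rw [hg i.2 (by omega), mul_zero]

open Finset.HasAntidiagonal in
theorem anti_eq {f g : ℕ → ℤ} {D : ℕ} (hf : ∀ i < D, f i = 0) (hg : ∀ i < D, g i = 0) :
    ∑ i ∈ antidiagonal (2 * D), f i.1 * g i.2 = f D * g D := by
  rw [Finset.sum_eq_single (D, D)]
  · rintro ⟨a, b⟩ hi hne
    rw [Finset.HasAntidiagonal.mem_antidiagonal] at hi
    rcases lt_trichotomy a D with h | h | h
    · rw [hf _ h, zero_mul]
    · exfalso
      apply hne
      have h2 : a + b = 2 * D := hi
      rw [h, show b = D by omega]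
    · rw [hg b (by have : a + b = 2 * D := hi; omega), mul_zero]
  · intro h
    exfalso
    apply h
    rw [Finset.HasAntidiagonal.mem_antidiagonal]
    ring

open Finset.HasAntidiagonal in
theorem low {C : Type*} [Fintype C] (t : C → ℕ → ℤ) (u : ℕ → ℤ) {l n : ℤ} {ε : ℕ}
    (hε : n = 0 ∨ ε = 1) (hl : l ≠ 0) (h0 : ∀ c, t c 0 = 0) (hu : ∀ D, ∑ c, t c D = l * u D)
    (hrel : ∀ D, 1 ≤ D → ∑ i ∈ antidiagonal D ×ˢ (Finset.univ : Finset C),
      t i.2 i.1.1 * t i.2 i.1.2 = n * ∑ i ∈ antidiagonal (D + ε), u i.1 * u i.2) (D : ℕ) :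
    u D = 0 := by
  have key : ∀ D, ∀ c, t c D = 0 := by
    intro D
    induction D using Nat.strong_induction_on with
    | _ D ih =>
      have hu0 : ∀ i < D, u i = 0 := by
        intro i hi
        have h1 := hu i
        rw [Finset.sum_eq_zero fun c _ => ih i hi c] at h1
        exact (mul_eq_zero.1 h1.symm).resolve_left hl
      intro c
      rcases Nat.eq_zero_or_pos D with rfl | hD
      · exact h0 c
      have hL : ∀ k, ∑ i ∈ antidiagonal k ×ˢ (Finset.univ : Finset C),
          t i.2 i.1.1 * t i.2 i.1.2 = ∑ c, ∑ i ∈ antidiagonal k, t c i.1 * t c i.2 := by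
        intro k
        rw [Finset.sum_product, Finset.sum_comm]
      have h2 : n * ∑ i ∈ antidiagonal (2 * D + ε), u i.1 * u i.2 = 0 := by
        rcases hε with h | h
        · rw [h, zero_mul]
        · -- the degree `2 D - 1`
          have h3 := hrel (2 * D - 1) (by omega)
          rw [hL, Finset.sum_eq_zero fun c _ => anti_lt (fun i hi => ih i hi c)
            (fun i hi => ih i hi c) (by omega : 2 * D - 1 < 2 * D), h,
            show 2 * D - 1 + 1 = 2 * D by omega, anti_eq hu0 hu0] at h3
          rcases mul_eq_zero.1 h3.symm with h4 | h4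
          · rw [h4, zero_mul]
          · have h5 : u D = 0 := mul_self_eq_zero.1 h4
            have h6 : ∀ i < D + 1, u i = 0 := by
              intro i hi
              rcases Nat.lt_succ_iff_lt_or_eq.1 hi with h | h
              · exact hu0 i h
              · rw [h]
                exact h5
            rw [h, anti_lt h6 h6 (by omega), mul_zero]
      have h3 := hrel (2 * D) (by omega)
      rw [h2, hL, Finset.sum_congr rfl fun c _ => anti_eq (fun i hi => ih i hi c)
        (fun i hi => ih i hi c)] at h3
      have h4 := (Finset.sum_eq_zero_iff_of_nonneg fun c _ => mul_self_nonneg (t c D)).1 h3 c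
        (Finset.mem_univ c)
      exact mul_self_eq_zero.1 h4
  have h1 := hu D
  rw [Finset.sum_eq_zero fun c _ => key D c] at h1
  exact (mul_eq_zero.1 h1.symm).resolve_left hl

end Run7.h759.DI
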