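import Pool.Agent.Run7.h759.DI.Cnt

/-!
# Clifford theory for the stabilisers (helper759)
-/

set_option autoImplicit false
set_option linter.unusedSectionVars false

open scoped Classical BigOperators

noncomputable section

namespace Run7.h759.DI

open Pool.Agent.Y63.NV (IsClassFun centralValue)
open Pool.Agent.Helper884.IC (IsIrrChar Irr mem_Irr B B_irr IsClass cardG_ne irr_finite)
open Pool.Agent.Y63.AWC (res mult mult_spec cj St Orb mem_St irr_comp mult_exists)
open Pool.Agent.R674.Tw (Fixes alp alp_coe fixes_iff)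
open Pool.Agent.Q99.AS (Dft Dft_congr Dft_unique Dft_exists)
open Pool.Agent.Q90.WR (card_transport card_filter_eq irr_comp_iff)

section

variable {E U : Type} [Group E] [Group U] {q : E →* U} {A : Subgroup U} [hAn : A.Normal]
  {G : Subgroup E} {S : Subgroup E}

/-- the group `G ∩ S` as a subgroup of `N ∩ S` -/
abbrev MM (q : E →* U) (A : Subgroup U) (G S : Subgroup E) : Subgroup ↥(A.comap q ⊓ S) :=
  (G ⊓ S).subgroupOf (A.comap q ⊓ S)

theorem HK (hq : q.ker = G) : G ⊓ S ≤ A.comap q ⊓ S := inf_le_inf_right S (G_le A hq)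

/-- the isomorphism with `G ∩ S` -/
def eM (hq : q.ker = G) : ↥(MM q A G S) ≃* ↥(G ⊓ S) := Subgroup.subgroupOfEquivOfLe (HK hq)

theorem eM_coe (hq : q.ker = G) (m : ↥(MM q A G S)) : ((eM hq m : ↥(G ⊓ S)) : E) = m := rfl

theorem res_eM (hq : q.ker = G) (χ : ↥(A.comap q ⊓ S) → ℂ) :
    res (MM q A G S) χ = fun m => rs (HK hq) χ (eM hq m) := rfl

theorem res_irr_iff (hq : q.ker = G) (χ : ↥(A.comap q ⊓ S) → ℂ) :
    IsIrrChar (res (MM q A G S) χ) ↔ IsIrrChar (rs (HK hq) χ) := by
  rw [res_eM hq]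
  exact irr_comp_iff (eM hq)

/-- conjugation with an element of `S` -/
def al' {e : E} (he : e ∈ S) : ↥(A.comap q ⊓ S) ≃* ↥(A.comap q ⊓ S) := alp _ e (N_conj he)

theorem al'_coe {e : E} (he : e ∈ S) (x : ↥(A.comap q ⊓ S)) :
    ((al' (q := q) (A := A) he x : ↥(A.comap q ⊓ S)) : E) = e * x * e⁻¹ := rfl

theorem al'_M (hq : q.ker = G) {e : E} (he : e ∈ S) (x : ↥(A.comap q ⊓ S)) :
    x ∈ MM q A G S ↔ al' he x ∈ MM q A G S := by
  rw [Subgroup.mem_subgroupOf, Subgroup.mem_subgroupOf, al'_coe]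
  exact G_conj hq he x

theorem fixes_al' {e : E} (he : e ∈ S) (χ : ↥(A.comap q ⊓ S) → ℂ) :
    Fixes e χ ↔ ∀ x, χ (al' he x) = χ x := fixes_iff (N_conj he) χ

theorem fixes_M (hq : q.ker = G) {e : E} (he : e ∈ S) (θ : ↥(G ⊓ S) → ℂ) :
    Fixes e θ ↔ ∀ m, θ (eM hq (rsAut (al' he) (al'_M (A := A) hq he) m)) = θ (eM hq m) := by
  rw [fixes_iff (G_conj hq he)]
  constructor
  · intro h m
    rw [← h (eM hq m)]
    rfl
  · intro h x
    rw [← (eM (A := A) hq).apply_symm_apply x, ← h ((eM hq).symm x)]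
    rfl

end

section

variable {E U : Type} [Group E] [Finite E] [Group U] {q : E →* U} {A : Subgroup U}
  [hAn : A.Normal] {G : Subgroup E} {S : Subgroup E} {ℓ : ℕ} [hl : Fact ℓ.Prime]
  {F : Type} [Field F] (red : integralClosure ℤ ℂ →+* F)

omit hl in
theorem fin_A (hl : ℓ.Prime) {A : Type} [Group A] (hA : Nat.card A = ℓ) : Finite A := by
  apply Nat.finite_of_card_ne_zero
  rw [hA]
  exact hl.ne_zero

theorem isClass_of {J : Type} [Group J] [Finite J] {χ : J → ℂ} (h : IsIrrChar χ) : IsClass χ := by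
  have _i : Fintype J := Fintype.ofFinite _
  exact h.isClass

/-- the central characters -/
theorem cv_over (hq : q.ker = G) {z : E → F} (hz : ∀ g x, z (g * x * g⁻¹) = z x)
    (hz0 : ∀ x, x ∉ G → z x = 0) [Fintype ↥(A.comap q ⊓ S)] {χ : ↥(A.comap q ⊓ S) → ℂ}
    (hχ : IsIrrChar χ) {θ : ↥(G ⊓ S) → ℂ} (hθ : IsIrrChar θ) (t : ℕ) (ht : χ 1 = t * θ 1)
    (hs : ∀ f : ↥(A.comap q ⊓ S) → ℂ, (∀ g x, f (g * x * g⁻¹) = f x) →
      ∑ m : MM q A G S, f m * χ m = t * ∑ m : MM q A G S, f m * θ (eM hq m)) :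
    centralValue red χ (fun x => z x) = centralValue red θ (fun x => z x) := by
  have hM : (MM q A G S).Normal := M_normal A hq S
  have hcl : IsClassFun (fun x : ↥(A.comap q ⊓ S) => z x) := fun g x => hz g x
  have h := Pool.Agent.N565.DI.CL3 F red ↥(A.comap q ⊓ S) (MM q A G S)
    (fun x => z x) hcl (fun x hx => hz0 _ (fun h => hx (Subgroup.mem_subgroupOf.2
      (Subgroup.mem_inf.2 ⟨h, (Subgroup.mem_inf.1 x.2).2⟩)))) χ (fun m => θ (eM hq m)) hχ
    (irr_comp (eM hq) hθ) t (by
      rw [ht, map_one]) hs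
  rw [h]
  have h2 := Pool.Agent.Y286.NV.centralValue_comp red (eM (A := A) (S := S) hq) θ
    (Pool.Agent.Y286.NV.irr_class hθ) (fun x => z x) (fun g x => hz g x)
  exact h2

/-- a nontrivial element -/
theorem fac_K (hq : q.ker = G) (hA : Nat.card A = ℓ) (hφ : Function.Surjective (phi q A S)) :
    Nat.card ↥(A.comap q ⊓ S) = ℓ * Nat.card ↥(G ⊓ S) := by
  have _i : Fintype ↥(A.comap q ⊓ S) := Fintype.ofFinite _
  have hMn : (MM q A G S).Normal := M_normal A hq S
  have hfin : Finite A := fin_A hl.out hA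
  have h := card_X (M := MM q A G S) (mem_M A hq S) hφ hA
  rw [h, Nat.card_congr (eM (A := A) (S := S) hq).toEquiv]

theorem fac_K' (hq : q.ker = G) (hA : Nat.card A = ℓ) (hφ : Function.Surjective (phi q A S))
    (p : ℕ) : (Nat.card ↥(A.comap q ⊓ S)).factorization p =
      (Nat.card ↥(G ⊓ S)).factorization p + ℓ.factorization p := by
  rw [fac_K hq hA hφ, Nat.factorization_mul hl.out.ne_zero Nat.card_pos.ne', Finsupp.add_apply,
    add_comm]

theorem dft_rs (hq : q.ker = G) (hA : Nat.card A = ℓ) (hφ : Function.Surjective (phi q A S))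
    {p D D' : ℕ} (hD : D = D' + ℓ.factorization p) (χ : ↥(A.comap q ⊓ S) → ℂ) :
    Dft p D χ ↔ Dft p D' (rs (HK hq) χ) := by
  have h1 : rs (HK hq) χ 1 = χ 1 := rfl
  unfold Dft
  rw [h1, fac_K' hq hA hφ p]
  refine exists_congr fun n => and_congr_right fun _ => ?_
  omega

/-- the elements of `S` moving a character with the trivial linear characters -/
theorem coc_one (hφ : Function.Surjective (phi q A S)) {χ : ↥(A.comap q ⊓ S) → ℂ}
    (hχ : IsIrrChar χ) : Inq ((QuotientGroup.mk' A).comp q) ⊤ S χ ↔ Coc q A 1 S χ := by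
  constructor
  · intro h u
    obtain ⟨e, he, h1, h2⟩ := h (u : U ⧸ A) (Subgroup.mem_top _)
    have h3 : (q e)⁻¹ * u ∈ A := QuotientGroup.eq.1 h1
    obtain ⟨x, hx⟩ := hφ ⟨_, h3⟩
    have hx' : q x = (q e)⁻¹ * u := congrArg Subtype.val hx
    refine ⟨e * x, S.mul_mem he (Subgroup.mem_inf.1 x.2).2, ?_, fun n n' hn => ?_⟩
    · rw [map_mul, hx']
      group
    · have h4 : Fixes (e * (x : E)) χ := fixes_mul
        (fun n hn => (N_conj (q := q) (A := A) (Subgroup.mem_inf.1 x.2).2 n).1 hn) h2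
        (fixes_inner (isClass_of hχ) x.2)
      rw [h4 n n' hn]
      change χ n = (((1 : U → A →* ℂˣ) u _ : ℂˣ) : ℂ) * χ n
      rw [Pi.one_apply, MonoidHom.one_apply, Units.val_one, one_mul]
  · intro h u _
    obtain ⟨v, rfl⟩ := QuotientGroup.mk'_surjective A u
    obtain ⟨e, he, h1, h2⟩ := h v
    refine ⟨e, he, by rw [MonoidHom.comp_apply, h1], fun n n' hn => ?_⟩
    rw [h2 n n' hn]
    change (((1 : U → A →* ℂˣ) v _ : ℂˣ) : ℂ) * χ n = χ n
    rw [Pi.one_apply, MonoidHom.one_apply, Units.val_one, one_mul]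

/-- small stabilisers -/
theorem st_small (hq : q.ker = G) [Fintype ↥(A.comap q ⊓ S)] [(MM q A G S).Normal]
    {θ : ↥(G ⊓ S) → ℂ} (hθ : IsIrrChar θ) :
    Nat.card (St (MM q A G S) (fun m => θ (eM hq m))) = Nat.card (MM q A G S) ↔
      ∀ e ∈ S, Fixes e θ → q e ∈ A → q e = 1 := by
  have hle : MM q A G S ≤ St (MM q A G S) (fun m => θ (eM hq m)) :=
    Pool.Agent.Y63.AWC.le_St _ (irr_comp (eM hq) hθ).isClass
  have hmem : ∀ x : ↥(A.comap q ⊓ S), x ∈ St (MM q A G S) (fun m => θ (eM hq m)) ↔
      Fixes (x : E) θ := by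
    intro x
    rw [mem_St, fixes_M (A := A) hq (Subgroup.mem_inf.1 x.2).2]
    have hk : ∀ m : MM q A G S, rsAut (al' (Subgroup.mem_inf.1 x.2).2)
        (al'_M (A := A) hq (Subgroup.mem_inf.1 x.2).2) m = MulAut.conjNormal x m := by
      intro m
      apply Subtype.ext
      rw [MulAut.conjNormal_apply]
      rfl
    constructor
    · intro h m
      rw [hk]
      exact congrFun h m
    · intro h
      funext m
      rw [← h m, hk]
      rfl
  constructor
  · intro h e he hf ha
    have h1 : St (MM q A G S) (fun m => θ (eM hq m)) = MM q A G S :=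
      (Subgroup.eq_of_le_of_card_ge hle h.le).symm
    have h2 : (⟨e, Subgroup.mem_inf.2 ⟨ha, he⟩⟩ : ↥(A.comap q ⊓ S)) ∈
        St (MM q A G S) (fun m => θ (eM hq m)) := (hmem _).2 hf
    rw [h1, mem_M A hq] at h2
    exact congrArg Subtype.val h2
  · intro h
    have h1 : St (MM q A G S) (fun m => θ (eM hq m)) = MM q A G S := by
      refine le_antisymm (fun x hx => ?_) hle
      rw [mem_M A hq]
      exact Subtype.ext (h x (Subgroup.mem_inf.1 x.2).2 ((hmem x).1 hx) (Subgroup.mem_inf.1 x.2).1)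
    rw [h1]

/-- inertial groups of characters with reducible restriction -/
theorem inq_ni (hq : q.ker = G) [Fintype ↥(A.comap q ⊓ S)] [(MM q A G S).Normal]
    {χ : ↥(A.comap q ⊓ S) → ℂ} (hχ : IsIrrChar χ) {θ : ↥(G ⊓ S) → ℂ} (hθ : IsIrrChar θ)
    (hm : mult (MM q A G S) χ (fun m => θ (eM hq m)) ≠ 0)
    (hst : Nat.card (St (MM q A G S) (fun m => θ (eM hq m))) = Nat.card (MM q A G S)) :
    Inq ((QuotientGroup.mk' A).comp q) ⊤ S χ ↔ Inq ((QuotientGroup.mk' A).comp q) ⊤ S θ := by
  have hθ' := irr_comp (eM (A := A) hq) hθ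
  constructor
  · intro h u hu
    obtain ⟨e, he, h1, h2⟩ := h u hu
    obtain ⟨x, hx⟩ := fix_down (al' he) (al'_M (A := A) hq he) hχ hθ' hm ((fixes_al' he χ).1 h2)
    have hxS := (Subgroup.mem_inf.1 x.2).2
    have hxA : q x ∈ A := (Subgroup.mem_inf.1 x.2).1
    refine ⟨e * (x : E)⁻¹, S.mul_mem he (S.inv_mem hxS), ?_, ?_⟩
    · rw [map_mul, h1, map_inv]
      have : ((QuotientGroup.mk' A).comp q) x = 1 := (QuotientGroup.eq_one_iff _).2 hxA
      rw [this, inv_one, mul_one]
    · intro n n' hn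
      have hy : (x : E)⁻¹ * n * x ∈ G ⊓ S := by
        have := (G_conj hq (S.inv_mem hxS) (n : E)).1 n.2
        rwa [inv_inv] at this
      have h3 := hx ((eM (A := A) hq).symm ⟨_, hy⟩)
      have h4 : eM hq (rsAut (al' he) (al'_M (A := A) hq he) ((eM (A := A) hq).symm ⟨_, hy⟩)) = n' := by
        apply Subtype.ext
        change e * ((x : E)⁻¹ * n * x) * e⁻¹ = n'
        rw [hn]
        group
      have h5 : eM (A := A) hq (MulAut.conjNormal x ((eM (A := A) hq).symm ⟨_, hy⟩)) = n := by
        apply Subtype.ext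
        rw [eM_coe, MulAut.conjNormal_apply]
        change (x : E) * ((x : E)⁻¹ * n * x) * (x : E)⁻¹ = n
        group
      change θ (eM hq _) = θ (eM hq (MulAut.conjNormal x ((eM (A := A) hq).symm ⟨_, hy⟩))) at h3
      rw [h4, h5] at h3
      exact h3
  · intro h u hu
    obtain ⟨e, he, h1, h2⟩ := h u hu
    refine ⟨e, he, h1, (fixes_al' he χ).2 ?_⟩
    exact fix_up (al' he) (al'_M (A := A) hq he) hχ hθ' hm hst ((fixes_M (A := A) hq he θ).1 h2)

/-- **Clifford theory for the stabilisers** -/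
theorem mi (hq : q.ker = G) (hA : Nat.card A = ℓ) {p : ℕ} {z : E → F}
    (hz : ∀ g x, z (g * x * g⁻¹) = z x) (hz0 : ∀ x, x ∉ G → z x = 0) (c₀ : F) {D' D : ℕ}
    (hD : D = D' + ℓ.factorization p) (S : Subgroup E) :
    (Nat.card ↥(A.comap q ⊓ S) : ℤ) *
        xc p red (A.comap q) ((QuotientGroup.mk' A).comp q) ⊤ z c₀ D S =
      ℓ * ((Nat.card ↥(G ⊓ S) : ℤ) * yc p red (G_le A hq) 1 z c₀ D' S) +
        (Nat.card ↥(G ⊓ S) : ℤ) * pk p red q A z c₀ D S (G ⊓ S) := by
  by_cases h1 : ∀ s ∈ S, q s ∈ A → q s = 1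
  · -- no character of `N ∩ S` has an irreducible restriction
    have hNG : A.comap q ⊓ S = G ⊓ S := by
      ext x
      rw [Subgroup.mem_inf, Subgroup.mem_inf, mem_G hq, Subgroup.mem_comap]
      constructor
      · rintro ⟨a, b⟩
        exact ⟨h1 x b a, b⟩
      · rintro ⟨a, b⟩
        refine ⟨?_, b⟩
        rw [a]
        exact one_mem _
    have hy : yc p red (G_le A hq) 1 z c₀ D' S = 0 := by
      unfold yc
      have : IsEmpty {χ : ↥(A.comap q ⊓ S) → ℂ // IsIrrChar χ ∧
          (IsIrrChar (rs (inf_le_inf_right S (G_le A hq)) χ) ∧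
            Dft p D' (rs (inf_le_inf_right S (G_le A hq)) χ) ∧
            Coc q A 1 S χ ∧ centralValue red (rs (inf_le_inf_right S (G_le A hq)) χ)
              (fun x => z x) = c₀)} := by
        refine ⟨?_⟩
        rintro ⟨χ, -, -, -, h, -⟩
        have hfin : Finite A := by
          apply Nat.finite_of_card_ne_zero
          rw [hA]
          exact hl.out.ne_zero
        have hn : Nontrivial A := by
          rw [← Finite.one_lt_card_iff_nontrivial, hA]
          exact hl.out.one_lt
        obtain ⟨a, ha⟩ := exists_ne (1 : A)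
        obtain ⟨e, he, h2, -⟩ := h a
        apply ha
        have h3 := h1 e he (by rw [h2]; exact a.2)
        rw [h2] at h3
        exact Subtype.ext h3
      rw [Nat.card_of_isEmpty]
      rfl
    rw [hy, mul_zero, mul_zero, zero_add]
    unfold xc
    rw [hNG]
    congr 1
    unfold xk pk
    congr 1
    refine Nat.card_congr (Equiv.subtypeEquivRight fun χ => ?_)
    refine and_congr_right fun _ => and_congr_right fun _ => and_congr_left fun _ => ?_
    exact ⟨fun h => ⟨h, fun e he _ ha => h1 e he ha⟩, fun h => h.1⟩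
  · push Not at h1
    obtain ⟨s, hs, hsA, hs1⟩ := h1
    have hφ := phi_surj A hl.out hA hs hsA hs1
    have _i : Fintype ↥(A.comap q ⊓ S) := Fintype.ofFinite _
    have hMn : (MM q A G S).Normal := M_normal A hq S
    have hMm := mem_M A hq S
    have hfin : Finite A := fin_A hl.out hA
    rw [fac_K hq hA hφ]
    have hx : xc p red (A.comap q) ((QuotientGroup.mk' A).comp q) ⊤ z c₀ D S =
        (((Irr ↥(A.comap q ⊓ S)).filter fun χ => IsIrrChar (res (MM q A G S) χ) ∧
          (Dft p D χ ∧ Inq ((QuotientGroup.mk' A).comp q) ⊤ S χ ∧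
          centralValue red χ (fun x => z x) = c₀)).card : ℤ) +
        (((Irr ↥(A.comap q ⊓ S)).filter fun χ => ¬ IsIrrChar (res (MM q A G S) χ) ∧
          (Dft p D χ ∧ Inq ((QuotientGroup.mk' A).comp q) ⊤ S χ ∧
          centralValue red χ (fun x => z x) = c₀)).card : ℤ) := by
      unfold xc xk
      rw [card_filter_eq]
      have h2 := Finset.card_filter_add_card_filter_not (s := (Irr ↥(A.comap q ⊓ S)).filter fun χ =>
        (Dft p D χ ∧ Inq ((QuotientGroup.mk' A).comp q) ⊤ S χ ∧
          centralValue red χ (fun x => z x) = c₀)) (fun χ => IsIrrChar (res (MM q A G S) χ))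
      rw [Finset.filter_filter, Finset.filter_filter] at h2
      rw [← h2]
      push_cast
      congr 2
      · congr 1
        ext χ
        simp only [Finset.mem_filter]
        tauto
      · congr 1
        ext χ
        simp only [Finset.mem_filter]
        tauto
    have hy : (((Irr ↥(A.comap q ⊓ S)).filter fun χ => IsIrrChar (res (MM q A G S) χ) ∧
          (Dft p D χ ∧ Inq ((QuotientGroup.mk' A).comp q) ⊤ S χ ∧
          centralValue red χ (fun x => z x) = c₀)).card : ℤ) =
        yc p red (G_le A hq) 1 z c₀ D' S := by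
      unfold yc
      rw [card_filter_eq]
      congr 2
      refine Finset.filter_congr fun χ hχ => ?_
      rw [mem_Irr] at hχ
      rw [res_irr_iff hq]
      refine and_congr_right fun hr => ?_
      rw [dft_rs hq hA hφ hD, coc_one hφ hχ]
      refine and_congr_right fun _ => and_congr_right fun _ => ?_
      rw [cv_over (A := A) red hq hz hz0 hχ hr 1 (by
        rw [Nat.cast_one, one_mul]
        rfl) (fun f _ => by
        rw [Nat.cast_one, one_mul]
        rfl)]
    have hz' : ℓ * ((Irr ↥(A.comap q ⊓ S)).filter fun χ => ¬ IsIrrChar (res (MM q A G S) χ) ∧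
          (Dft p D χ ∧ Inq ((QuotientGroup.mk' A).comp q) ⊤ S χ ∧
          centralValue red χ (fun x => z x) = c₀)).card =
        Nat.card {χ : ↥(G ⊓ S) → ℂ // IsIrrChar χ ∧ (Dft p D χ ∧ Pc q A S χ ∧
          centralValue red χ (fun x => z x) = c₀)} := by
      have e1 := card_transport (eM (A := A) (S := S) hq).symm (fun χ : ↥(G ⊓ S) → ℂ =>
        Dft p D χ ∧ Pc q A S χ ∧ centralValue red χ (fun x => z x) = c₀)
      rw [e1, card_filter_eq]
      refine Eq.trans (by congr!) ((count_ni (M := MM q A G S) hMm hφ hA (fun χ => Dft p D χ ∧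
          Inq ((QuotientGroup.mk' A).comp q) ⊤ S χ ∧ centralValue red χ (fun x => z x) = c₀)
        (fun θ => Dft p D (fun x => θ ((eM hq).symm x)) ∧
        Inq ((QuotientGroup.mk' A).comp q) ⊤ S (fun x => θ ((eM (A := A) (S := S) hq).symm x)) ∧
        centralValue red (fun x => θ ((eM (A := A) (S := S) hq).symm x)) (fun x => z x) = c₀)
        ?_).trans ?_)
      rotate_left
      · congr 1
        ext θ
        simp only [Finset.mem_filter, mem_Irr]
        refine and_congr_right fun hθ => ?_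
        have hθ' : IsIrrChar (fun x => θ ((eM (A := A) (S := S) hq).symm x)) :=
          irr_comp (eM hq).symm hθ
        have h5 : (fun m => (fun x => θ ((eM (A := A) (S := S) hq).symm x)) (eM hq m)) = θ := by
          funext m
          change θ ((eM hq).symm (eM hq m)) = θ m
          rw [MulEquiv.symm_apply_apply]
        have h6 := st_small (A := A) hq hθ'
        rw [h5] at h6
        rw [h6]
        unfold Pc
        tauto
      · intro χ θ hχ hθ hm hst
        have hθ' : IsIrrChar (fun x => θ ((eM (A := A) (S := S) hq).symm x)) :=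
          irr_comp (eM hq).symm hθ
        have h5 : (fun m => (fun x => θ ((eM (A := A) (S := S) hq).symm x)) (eM hq m)) = θ := by
          funext m
          change θ ((eM hq).symm (eM hq m)) = θ m
          rw [MulEquiv.symm_apply_apply]
        have h6 := inq_ni (A := A) hq hχ hθ' (by rw [h5]; exact hm) (by rw [h5]; exact hst)
        obtain ⟨n, hn0, hn⟩ := Pool.Agent.Y63.AWC.deg_nat hχ
        obtain ⟨d, hd0, hd⟩ := Pool.Agent.Y63.AWC.deg_nat hθ
        have hdeg := deg_ni hMm hφ hA hχ hθ hm hst hn hd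
        have h1' : (fun x => θ ((eM (A := A) (S := S) hq).symm x)) 1 = d := by
          change θ ((eM hq).symm 1) = d
          rw [map_one, hd]
        have h7 : Dft p D χ ↔ Dft p D (fun x => θ ((eM (A := A) (S := S) hq).symm x)) := by
          unfold Dft
          rw [fac_K' hq hA hφ p, h1', hn]
          constructor
          · rintro ⟨m, h8, h9⟩
            refine ⟨d, rfl, ?_⟩
            have h10 : m = n := by exact_mod_cast h8.symm
            rw [h10, hdeg, Nat.factorization_mul hl.out.ne_zero hd0.ne', Finsupp.add_apply] at h9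
            omega
          · rintro ⟨m, h8, h9⟩
            refine ⟨n, rfl, ?_⟩
            have h10 : m = d := by exact_mod_cast h8.symm
            rw [h10] at h9
            rw [hdeg, Nat.factorization_mul hl.out.ne_zero hd0.ne', Finsupp.add_apply]
            omega
        have h8 := cv_over (A := A) red hq hz hz0 hχ hθ' ℓ (by
          rw [map_one, hd, hn, hdeg]
          push_cast
          rfl) (fun f hf => by
          rw [sum_ni hMm hφ hA hχ hθ hm hst f hf]
          rfl)
        rw [h6, h7, h8]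
    rw [hx, hy]
    unfold pk
    rw [← hz']
    push_cast
    ring

end

end Run7.h759.DI
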