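import Pool.Agent.Run7.h759.DI.Cen

/-!
# Quotients of the quotient (helper759)
-/

set_option autoImplicit false
set_option linter.unusedSectionVars false

open scoped Classical BigOperators

noncomputable section

namespace Run7.h759.DI

open Pool.Agent.Y63.NV (IsClassFun centralValue IsBlock numDzBlock)
open Pool.Agent.Y63.KR (IsPChain chainStabilizer conjSub)
open Pool.Agent.N20.DI (InvBl kdGe kdU radSum DadeInv)

variable {p : ℕ} [Fact p.Prime] {F : Type} [Field F] (red : integralClosure ℤ ℂ →+* F)

/-- the kernel of the map to `E / G ≅ U` -/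
theorem ker_iso {E U : Type} [Group E] [Group U] (G : Subgroup E) [G.Normal] (i : E ⧸ G ≃* U) :
    (i.toMonoidHom.comp (QuotientGroup.mk' G)).ker = G := by
  ext x
  rw [MonoidHom.mem_ker]
  change i (x : E ⧸ G) = 1 ↔ _
  rw [MulEquiv.map_eq_one_iff]
  exact QuotientGroup.eq_one_iff x

theorem surj_iso {E U : Type} [Group E] [Group U] (G : Subgroup E) [G.Normal] (i : E ⧸ G ≃* U) :
    Function.Surjective (i.toMonoidHom.comp (QuotientGroup.mk' G)) :=
  i.surjective.comp (QuotientGroup.mk'_surjective G)

/-- **quotients** -/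
theorem ok_quot {U Q : Type} [Group U] [Finite U] [Group Q] (φ : U →* Q)
    (hφ : Function.Surjective φ) (h : Ok p red U) : Ok p red Q := by
  intro E _ _ G hGn hi hO B hB hB0 d
  obtain ⟨i⟩ := hi
  set q : E →* Q := i.toMonoidHom.comp (QuotientGroup.mk' G) with hqq
  have hq : q.ker = G := ker_iso G i
  have hs : Function.Surjective q := surj_iso G i
  let f : fpG q φ →* E := (MonoidHom.fst E U).comp (fpG q φ).subtype
  let r : fpG q φ →* U := (MonoidHom.snd E U).comp (fpG q φ).subtype
  have hr : Function.Surjective r := by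
    intro u
    obtain ⟨e, he⟩ := hs (φ u)
    exact ⟨⟨(e, u), he⟩, rfl⟩
  have hf : Function.Surjective f := by
    intro e
    obtain ⟨u, hu⟩ := hφ (q e)
    exact ⟨⟨(e, u), hu.symm⟩, rfl⟩
  have he : Emb f r.ker G := by
    refine ⟨?_, ?_⟩
    · ext x
      constructor
      · rintro ⟨y, hy, rfl⟩
        have h1 : (y : E × U).2 = 1 := hy
        have h2 : q (y : E × U).1 = φ (y : E × U).2 := y.2
        rw [h1, map_one] at h2
        exact (mem_G hq).2 h2
      · intro hx
        have h2 : q x = φ 1 := by rw [(mem_G hq).1 hx, map_one]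
        exact ⟨⟨(x, 1), h2⟩, rfl, rfl⟩
    · intro x hx h1
      exact Subtype.ext (Prod.ext h1 hx)
  obtain ⟨B', hB', hc⟩ := exists_cor red he hB
  have h1 := h (fpG q φ) r.ker ⟨QuotientGroup.quotientKerEquivOfSurjective r hr⟩
    (op_map p he hO) B' hB' ((numDz_map red p he hc).trans hB0) d
  rw [← h1]
  refine (rad_map red he hc (fun y => ?_) d).symm
  constructor
  · intro _
    obtain ⟨e, rfl⟩ := QuotientGroup.mk_surjective y
    obtain ⟨x, rfl⟩ := hf e
    exact ⟨x, Subgroup.mem_top _, rfl⟩
  · intro _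
    exact Subgroup.mem_top _

/-- Dade's conjecture gives the sums for the whole group -/
theorem ok_of_dade {U : Type} [Group U]
    (h : ∀ (E : Type) [Group E] [Finite E] (G : Subgroup E) [G.Normal], Nonempty (E ⧸ G ≃* U) →
      DadeInv p red G) : Ok p red U := by
  intro E _ _ G hGn hi hO B hB hB0 d
  have h1 := h E G hi hO B hB hB0 d ⊤
  rw [← h1]
  congr 1
  funext σ
  congr 1
  unfold kdGe kdU
  refine Nat.card_congr (Equiv.subtypeEquivRight fun χ => ?_)
  rw [top_le_iff]

end Run7.h759.DI
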