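import Pool.Agent.Run7.h759.DI.Lbl
import Pool.Agent.Run7.h759.DI.Quo

/-!
# Minimal abelian normal `p`-subgroups of the quotient (helper759)
-/

set_option autoImplicit false
set_option linter.unusedSectionVars false

open scoped Classical BigOperators

noncomputable section

namespace Run7.h759.DI

open Pool.Agent.Y63.NV (IsClassFun centralValue IsBlock numDzBlock)
open Pool.Agent.Helper884.IC (IsIrrChar IsClass Irr mem_Irr irr_finite)
open Pool.Agent.Y63.AWC (irr_comp)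
open Pool.Agent.Y63.KR (IsPChain chainStabilizer conjSub)
open Pool.Agent.R674.Tw (Fixes GCh NG NEbar invSum)
open Pool.Agent.Q99.AS (Dft Dft_ten Dft_unique Dft_congr Dft_exists ten ten_irr ten_inj ten_cover)
open Pool.Agent.N237.DI (Iso2 Proj Inr Blk kS kS_conj rad_kS kdGe_kS)
open Pool.Agent.N20.DI (InvBl kdGe radSum)

section

variable {p : ℕ} {F : Type} [Field F] {red : integralClosure ℤ ℂ →+* F} {E U : Type}
  [Group E] [Group U] {q : E →* U} {G : Subgroup E} {z : E → F} [Finite E] {A : Subgroup U}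
  [hAn : A.Normal]

/-- the class function on the fibre product -/
def z2 (q : E →* U) (z : E → F) : ↥(fpG q q) → F :=
  fun x => z ((fpG q q).subtype x).1 * z ((fpG q q).subtype x).2⁻¹

theorem card_gi (hq : q.ker = G) [Finite A] (c₀ : F) (D : ℕ) (S : Subgroup E) :
    (Nat.card ↥(A.comap q ⊓ S) : ℤ) * gi p red (G_le A hq) z c₀ D S =
      (Nat.card A : ℤ) * ((Nat.card ↥(G ⊓ S) : ℤ) * gi p red (G_le A hq) z c₀ D S) := by
  by_cases h : gi p red (G_le A hq) z c₀ D S = 0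
  · rw [h]
    ring
  · have h1 : Nonempty {χ : ↥(A.comap q ⊓ S) → ℂ // IsIrrChar χ ∧ (Dft p D χ ∧
        Inq ((QuotientGroup.mk' A).comp q) ⊤ S χ ∧ centralValue red χ (fun x => z x) = c₀ ∧
        ∃ θ : ↥(G ⊓ S) → ℂ, IsIrrChar θ ∧ Inq q ⊤ S θ ∧ Ov (G_le A hq) S χ θ)} := by
      by_contra hn
      rw [not_nonempty_iff] at hn
      apply h
      unfold gi
      rw [Nat.cast_eq_zero]
      exact Nat.card_of_isEmpty
    obtain ⟨⟨χ, -, -, -, -, θ, -, h2, -⟩⟩ := h1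
    rw [card_K hq (phi_of_inq' (A := A) h2)]
    push_cast
    ring

theorem inq_dl {S : Subgroup E} {θ : ↥(G ⊓ S) → ℂ} : Inq q ⊤ S (dl θ) ↔ Inq q ⊤ S θ := by
  unfold Inq
  simp_rw [dl_fixes]

theorem cv_th (hq : q.ker = G) (hz : ∀ g x, z (g * x * g⁻¹) = z x)
    {S₁ S₂ : Subgroup E} {θ₁ : ↥(G ⊓ S₁) → ℂ} {θ₂ : ↥(G ⊓ S₂) → ℂ} (h₁ : IsIrrChar θ₁)
    (h₂ : IsIrrChar θ₂) :
    centralValue red (th hq θ₁ θ₂) (fun x => z2 q z x) =
      centralValue red θ₁ (fun x => z x) * centralValue red θ₂ (fun x => z x) := by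
  have hz' : ∀ g x, z (g * x * g⁻¹)⁻¹ = z x⁻¹ := by
    intro g x
    rw [← hz g x⁻¹]
    congr 1
    group
  have h3 := cv_prod (fp_FP q q) (rfl : (fpq q q).ker = _) hq hq red S₁ S₂ (z₁ := z)
    (z₂ := fun x => z x⁻¹) hz hz' h₁ (dl_irr h₂)
  have h4 := cv_dl red (irr_cl h₂) (z := fun x : ↥(G ⊓ S₂) => z x) (fun g x => hz g x)
  have h5 : centralValue red (dl θ₂) (fun x => z (x : E)⁻¹) =
      centralValue red θ₂ (fun x => z x) := h4
  rw [← h5]
  exact h3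

/-- `gi` on the fibre product -/
theorem gi_T (hq : q.ker = G) (hs : Function.Surjective q)
    (hz : ∀ g x, z (g * x * g⁻¹) = z x) (hz0 : ∀ x, x ∉ G → z x = 0) (hv : Z01 p red G z)
    [Fintype (Tt p red q G z)] (D : ℕ) {S₁ S₂ : Subgroup E}
    (h₁ : ∃ σ : Set (Subgroup E), IsPChain p σ ∧ (∀ P ∈ σ, P ≤ G) ∧ chainStabilizer σ = S₁)
    (h₂ : ∃ σ : Set (Subgroup E), IsPChain p σ ∧ (∀ P ∈ σ, P ≤ G) ∧ chainStabilizer σ = S₂) :
    gi p red (G_le A (rfl : (fpq q q).ker = _)) (z2 q z) 1 D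
        ((S₁.prod S₂).comap (fpG q q).subtype) =
      ∑ t₁ : Tt p red q G z, ∑ t₂ : Tt p red q G z,
        (nv p (G_le A (rfl : (fpq q q).ker = _))
          ((t₁.S.prod t₂.S).comap (fpG q q).subtype) (th hq t₁.θ t₂.θ) D : ℤ) *
        ((if t₁.S = S₁ then 1 else 0) * (if t₂.S = S₂ then 1 else 0)) := by
  have _x1 : Fintype (XT p red q G z S₁) := @Fintype.ofFinite _ (xt_fin S₁)
  have _x2 : Fintype (XT p red q G z S₂) := @Fintype.ofFinite _ (xt_fin S₂)
  have _i1 : Fintype ↥(G ⊓ S₁) := Fintype.ofFinite _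
  have _i2 : Fintype ↥(G ⊓ S₂) := Fintype.ofFinite _
  have _i3 : Fintype ↥((fpq q q).ker ⊓ (S₁.prod S₂).comap (fpG q q).subtype) :=
    Fintype.ofFinite _
  have hz2 : ∀ g x, z2 q z (g * x * g⁻¹) = z2 q z x := by
    intro g x
    change z ((g : E × E).1 * (x : E × E).1 * (g : E × E).1⁻¹) *
      z ((g : E × E).2 * (x : E × E).2 * (g : E × E).2⁻¹)⁻¹ = z (x : E × E).1 * z (x : E × E).2⁻¹
    rw [hz, ← hz (g : E × E).2 (x : E × E).2⁻¹]
    congr 2
    group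
  have hz20 : ∀ x, x ∉ (fpq q q).ker → z2 q z x = 0 := by
    intro x hx
    have h8 : (x : E × E).1 ∉ G := by
      intro h
      apply hx
      rw [MonoidHom.mem_ker]
      exact (mem_G hq).1 h
    change z (x : E × E).1 * _ = 0
    rw [hz0 _ h8, zero_mul]
  rw [gi_sum (rfl : (fpq q q).ker = _) red p hz2 hz20]
  -- the right side
  have r1 : ∀ t₁ : Tt p red q G z, ∑ t₂ : Tt p red q G z,
        (nv p (G_le A (rfl : (fpq q q).ker = _))
          ((t₁.S.prod t₂.S).comap (fpG q q).subtype) (th hq t₁.θ t₂.θ) D : ℤ) *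
        ((if t₁.S = S₁ then 1 else 0) * (if t₂.S = S₂ then 1 else 0)) =
      if t₁.S = S₁ then ∑ s₂ : XT p red q G z S₂, (nv p (G_le A (rfl : (fpq q q).ker = _))
          ((t₁.S.prod S₂).comap (fpG q q).subtype) (th hq t₁.θ s₂.1) D : ℤ) else 0 := by
    intro t₁
    by_cases h : t₁.S = S₁
    · simp only [if_pos h, one_mul]
      refine Eq.trans ?_ (sum_T h₂ (fun t₂ : Tt p red q G z =>
        (nv p (G_le A (rfl : (fpq q q).ker = _))
          ((t₁.S.prod t₂.S).comap (fpG q q).subtype) (th hq t₁.θ t₂.θ) D : ℤ)))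
      refine Finset.sum_congr rfl fun t₂ _ => ?_
      by_cases h3 : t₂.S = S₂
      · rw [if_pos h3, if_pos h3, mul_one]
      · rw [if_neg h3, if_neg h3, mul_zero]
    · simp only [if_neg h, zero_mul, mul_zero, Finset.sum_const_zero]
  rw [Finset.sum_congr rfl fun t₁ _ => r1 t₁]
  refine Eq.trans ?_ (sum_T h₁ (fun t₁ : Tt p red q G z => ∑ s₂ : XT p red q G z S₂,
    (nv p (G_le A (rfl : (fpq q q).ker = _))
      ((t₁.S.prod S₂).comap (fpG q q).subtype) (th hq t₁.θ s₂.1) D : ℤ))).symm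
  change _ = ∑ s₁ : XT p red q G z S₁, ∑ s₂ : XT p red q G z S₂,
    (nv p (G_le A (rfl : (fpq q q).ker = _))
      ((S₁.prod S₂).comap (fpG q q).subtype) (th hq s₁.1 s₂.1) D : ℤ)
  rw [← Fintype.sum_prod_type (f := fun s : XT p red q G z S₁ × XT p red q G z S₂ =>
    (nv p (G_le A (rfl : (fpq q q).ker = _))
      ((S₁.prod S₂).comap (fpG q q).subtype) (th hq s.1.1 s.2.1) D : ℤ))]
  symm
  refine Finset.sum_bij (fun s _ => th hq s.1.1 s.2.1) ?_ ?_ ?_ ?_
  · rintro ⟨⟨θ₁, a1, a2, a3⟩, ⟨θ₂, b1, b2, b3⟩⟩ -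
    refine Finset.mem_filter.2 ⟨mem_Irr.2 (th_irr hq a1 b1), ?_, ?_⟩
    · exact (inq_prod (fp_FP q q) (rfl : (fpq q q).ker = _) hq hq hs hs S₁ S₂ a1 (dl_irr b1)).2
        ⟨a2, inq_dl.2 b2⟩
    · change centralValue red (th hq θ₁ θ₂) (fun x => z2 q z x) = 1
      rw [cv_th hq hz a1 b1, a3, b3, one_mul]
  · rintro ⟨⟨θ₁, a1, a2, a3⟩, ⟨θ₂, b1, b2, b3⟩⟩ - ⟨⟨θ₁', a1', a2', a3'⟩, ⟨θ₂', b1', b2', b3'⟩⟩ - h
    have h3 : ten θ₁ (dl θ₂) = ten θ₁' (dl θ₂') := by
      funext y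
      obtain ⟨x, rfl⟩ := (((fp_FP q q).iso2 (rfl : (fpq q q).ker = _) hq hq).eqv S₁ S₂).surjective y
      exact congrFun h x
    obtain ⟨e1, e2⟩ := ten_inj a1 (dl_irr b1) a1' (dl_irr b1') h3
    have e3 : θ₂ = θ₂' := by
      rw [← dl_dl θ₂, e2, dl_dl]
    subst e1
    subst e3
    rfl
  · intro θ hθ
    obtain ⟨h3, h4, h5⟩ := Finset.mem_filter.1 hθ
    rw [mem_Irr] at h3
    set e := ((fp_FP q q).iso2 (rfl : (fpq q q).ker = _) hq hq).eqv S₁ S₂ with he
    obtain ⟨θ₁, ψ, a1, b1, e1⟩ := ten_cover (irr_comp e.symm h3)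
    have e2 : θ = th hq θ₁ (dl ψ) := by
      funext x
      unfold th
      rw [dl_dl, ← e1]
      change θ x = θ (e.symm (e x))
      rw [MulEquiv.symm_apply_apply]
    have b1' : IsIrrChar (dl ψ) := dl_irr b1
    rw [e2] at h4 h5
    rw [cv_th hq hz a1 b1'] at h5
    have h6 := (inq_prod (fp_FP q q) (rfl : (fpq q q).ker = _) hq hq hs hs S₁ S₂ a1
      (dl_irr b1')).1 h4
    have v1 : ∀ θ : ↥(G ⊓ S₁) → ℂ, IsIrrChar θ → centralValue red θ (fun x => z x) = 0 ∨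
        centralValue red θ (fun x => z x) = 1 := by
      obtain ⟨σ, k1, k2, rfl⟩ := h₁
      exact hv σ k1 k2
    have v2 : ∀ θ : ↥(G ⊓ S₂) → ℂ, IsIrrChar θ → centralValue red θ (fun x => z x) = 0 ∨
        centralValue red θ (fun x => z x) = 1 := by
      obtain ⟨σ, k1, k2, rfl⟩ := h₂
      exact hv σ k1 k2
    obtain ⟨c1, c2⟩ := (one_iff (v1 θ₁ a1) (v2 (dl ψ) b1')).1 h5
    exact ⟨(⟨θ₁, a1, h6.1, c1⟩, ⟨dl ψ, b1', inq_dl.1 h6.2, c2⟩), Finset.mem_univ _, e2.symm⟩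
  · intro s _
    rfl

end

variable {U : Type} [Group U] {A : Subgroup U} {k p : ℕ} [hp : Fact p.Prime]
  {F : Type} [Field F] [IsAlgClosed F] [CharP F p] (red : integralClosure ℤ ℂ →+* F)

/-- **minimal abelian normal `p`-subgroups of the quotient** -/
theorem ok_min [hAn : A.Normal] (hmin : Mn A) (hc : ∀ a b : A, a * b = b * a)
    (hA : Nat.card A = p ^ k) (hk : 1 ≤ k) (hW : Ok p red (U ⧸ A)) : Ok p red U := by
  intro E _ _ G hGn hi hO B hB hB0 d
  obtain ⟨i⟩ := hi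
  let q : E →* U := i.toMonoidHom.comp (QuotientGroup.mk' G)
  have hs : Function.Surjective q := surj_iso G i
  have hq : q.ker = G := ker_iso G i
  have hU : Finite U := Finite.of_surjective q hs
  by_cases hI : InvBl G ⊤ B
  swap
  · have h0 : (fun σ => (kdGe p red G B d ⊤ σ : ℤ)) = fun _ => 0 :=
      funext fun σ => kd_zero red hB hI d σ
    rw [h0]
    unfold radSum
    rw [finsum_congr fun c => mul_zero _]
    exact finsum_zero
  obtain ⟨z, h1, h2, h3, h4, h5⟩ := z01 hB hI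
  have hz : ZB p red G B z := ⟨h1, h2, h3, h4, h5⟩
  have hv : Z01 p red G z := hz.z01
  have hF := fp_FP q q
  have h6 : ∀ g x, z2 q z (g * x * g⁻¹) = z2 q z x := by
    intro g x
    change z ((g : E × E).1 * (x : E × E).1 * (g : E × E).1⁻¹) *
      z ((g : E × E).2 * (x : E × E).2 * (g : E × E).2⁻¹)⁻¹ = z (x : E × E).1 * z (x : E × E).2⁻¹
    rw [h1, ← h1 (g : E × E).2 (x : E × E).2⁻¹]
    congr 2
    group
  have h7 : ∀ x, x ∉ (fpq q q).ker → z2 q z x = 0 := by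
    intro x hx
    have h8 : (x : E × E).1 ∉ G := by
      intro h
      apply hx
      rw [MonoidHom.mem_ker]
      exact (mem_G hq).1 h
    change z (x : E × E).1 * _ = 0
    rw [h2 _ h8, zero_mul]
  have hsF := hF.surj_q hs hs
  have _T : Fintype (Tt p red q G z) := Fintype.ofFinite _
  refine rad_of_al red hq hs hz ?_
  rw [xc_T]
  have ha0 : Nat.card {μ : A →* ℂˣ // Iv A μ} ≠ 0 := by
    have hf1 : Finite (A →* ℂˣ) := fin_dual hc
    have hn : Nonempty {μ : A →* ℂˣ // Iv A μ} := ⟨⟨1, fun _ _ _ _ => rfl⟩⟩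
    exact Nat.card_pos.ne'
  refine top_deg (L := Quotient (sT (p := p) (red := red) (z := z) (A := A) hq))
    (fun t => Quotient.mk (sT hq) t) df mm (exL hq)
    (a := Nat.card {μ : A →* ℂˣ // Iv A μ}) (k := k) (n := (nC A : ℤ)) (c := (Nat.card A : ℤ))
    ha0 (by exact_mod_cast (Nat.card_pos (α := A)).ne') hk ?_ ?_ d
  · intro t
    by_contra hlt
    have h0 : df t = 0 := by omega
    have hD : Dft p 0 t.θ := (df_eq t).2 h0
    obtain ⟨S, θ, ⟨σ, k1, k2, rfl⟩, k4, k5, k6⟩ := t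
    exact hz.no_dz hB0 k1 k2 k4 hD k6
  · intro D' hD'
    have k1 := rel' red (rfl : (fpq q q).ker = _) hsF hmin hc hA hW h6 h7 1 hD'
    have k3 := al_xc_prod hF rfl hq hq hs hs red p h1 (z₂ := fun x => z x⁻¹) (by
      intro g x
      rw [← h1 g x⁻¹]
      congr 1
      group) hv (z01_inv red h1 hv) (D' + k)
    have k4 : (fun x : ↥(fpG q q) => z (((fpG q q).subtype x).1) *
        (fun x => z x⁻¹) ((fpG q q).subtype x).2) = z2 q z := rfl
    rw [k4] at k3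
    rw [k3] at k1
    have k5 : ∀ D, al p G (fun S => (Nat.card ↥(G ⊓ S) : ℤ) *
        xc p red G q ⊤ (fun x => z x⁻¹) 1 D S) =
        al p G (fun S => (Nat.card ↥(G ⊓ S) : ℤ) * xc p red G q ⊤ z 1 D S) := by
      intro D
      refine al_congr fun σ _ _ => ?_
      rw [xc_dl p red ⊤ h1]
    simp_rw [k5, xc_T] at k1
    rw [← k1]
    -- the left side
    have n : ((fpq q q).ker).Normal := inferInstance
    have e1 : al p (fpq q q).ker (fun S => (Nat.card ↥(A.comap (fpq q q) ⊓ S) : ℤ) *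
        gi p red (G_le A (rfl : (fpq q q).ker = _)) (z2 q z) 1 (D' + k) S) =
        (Nat.card A : ℤ) * al p (fpq q q).ker (fun S => (Nat.card ↥((fpq q q).ker ⊓ S) : ℤ) *
        gi p red (G_le A (rfl : (fpq q q).ker = _)) (z2 q z) 1 (D' + k) S) := by
      rw [← al_mul]
      exact al_congr fun σ _ _ => card_gi rfl 1 (D' + k) _
    rw [e1]
    congr 1
    have e2 := al_prod' (p := p) (hF.iso2 (rfl : (fpq q q).ker = _) hq hq)
      (Finset.univ : Finset (Tt p red q G z × Tt p red q G z))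
      (fun S => (Nat.card ↥((fpq q q).ker ⊓ S) : ℤ) *
        gi p red (G_le A (rfl : (fpq q q).ker = _)) (z2 q z) 1 (D' + k) S)
      (fun t S => (nv p (G_le A (rfl : (fpq q q).ker = _))
          ((t.1.S.prod t.2.S).comap (fpG q q).subtype) (th hq t.1.θ t.2.θ) (D' + k) : ℤ) *
        ((Nat.card ↥(G ⊓ S) : ℤ) * if t.1.S = S then 1 else 0))
      (fun t S => (Nat.card ↥(G ⊓ S) : ℤ) * if t.2.S = S then 1 else 0)
      (by
        intro σ τ hσ hσ' hτ hτ'
        rw [card_fp hF rfl hq hq, gi_T hq hs h1 h2 hv (D' + k) ⟨σ, hσ, hσ', rfl⟩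
          ⟨τ, hτ, hτ', rfl⟩, Fintype.sum_prod_type, Finset.mul_sum]
        refine Finset.sum_congr rfl fun t₁ _ => ?_
        rw [Finset.mul_sum]
        refine Finset.sum_congr rfl fun t₂ _ => ?_
        ring)
    rw [e2, Fintype.sum_prod_type]
    refine Finset.sum_congr rfl fun t₁ _ => Finset.sum_congr rfl fun t₂ _ => ?_
    rw [al_mul, mul_assoc]
    congr 1
    -- the weights
    have g1 : Dft p (df t₁ + df t₂) (th hq t₁.θ t₂.θ) := by
      have g2 : Dft p (df t₁ + df t₂) (ten t₁.θ (dl t₂.θ)) := by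
        rw [Dft_ten t₁.irr (dl_irr t₂.irr)]
        exact ⟨(df t₁, df t₂), Finset.HasAntidiagonal.mem_antidiagonal.2 rfl, df_spec t₁,
          dl_dft.2 (df_spec t₂)⟩
      exact (Dft_congr (((fp_FP q q).iso2 (rfl : (fpq q q).ker = _) hq hq).eqv t₁.S t₂.S)
        (ten t₁.θ (dl t₂.θ))).2 g2
    have g3 : Inq (fpq q q) ⊤ ((t₁.S.prod t₂.S).comap (fpG q q).subtype)
        (th hq t₁.θ t₂.θ) :=
      (inq_prod (fp_FP q q) (rfl : (fpq q q).ker = _) hq hq hs hs t₁.S t₂.S t₁.irr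
        (dl_irr t₂.irr)).2 ⟨t₁.inv, inq_dl.2 t₂.inv⟩
    rw [nv_eq (rfl : (fpq q q).ker = _) hc hA (th_irr hq t₁.irr t₂.irr) g3 hmin g1]
    unfold Wt
    have g4 : Ei (G_le A (rfl : (fpq q q).ker = _))
        ((t₁.S.prod t₂.S).comap (fpG q q).subtype) (th hq t₁.θ t₂.θ) ↔
        Quotient.mk (sT (A := A) hq) t₁ = Quotient.mk (sT hq) t₂ := by
      rw [lb_iff, ei_iff hq (tt_q t₁) (tt_q t₂)]
      exact Iff.rfl
    have g5 : Ee (G_le A (rfl : (fpq q q).ker = _))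
        ((t₁.S.prod t₂.S).comap (fpG q q).subtype) (th hq t₁.θ t₂.θ) ↔
        exL (A := A) hq (Quotient.mk (sT hq) t₁) (Quotient.mk (sT hq) t₂) := by
      rw [exL_iff, ee_iff hq]
      exact Iff.rfl
    by_cases g6 : Quotient.mk (sT (A := A) hq) t₁ = Quotient.mk (sT hq) t₂
    · rw [if_pos (g4.2 g6), if_pos g6]
    · rw [if_neg (fun h => g6 (g4.1 h)), if_neg g6]
      by_cases g7 : exL (A := A) hq (Quotient.mk (sT hq) t₁) (Quotient.mk (sT hq) t₂)
      · rw [if_pos (g5.2 g7), if_pos g7]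
      · rw [if_neg (fun h => g7 (g5.1 h)), if_neg g7]

end Run7.h759.DI
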