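import Pool.Agent.Run7.h759.DI.Cmp

/-!
# Central subgroups of prime order: complements and crossed homomorphisms (helper759)
-/

set_option autoImplicit false
set_option linter.unusedSectionVars false

open scoped Classical BigOperators

noncomputable section

namespace Run7.h759.DI

/-- `C_n × C_n` -/
abbrev Cnn (n : ℕ) : Type := Multiplicative (ZMod n × ZMod n)

section cen

variable {U : Type} [Group U] {A : Subgroup U} [hAn : A.Normal] {ℓ : ℕ} [hl : Fact ℓ.Prime]

/-- the homomorphisms `U / A → A` -/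
def Hm (A : Subgroup U) : Type := {g : U →* A // ∀ a : A, g a = 1}

/-- the retractions `U → A` -/
def Rt (A : Subgroup U) : Type := {g : U →* A // ∀ a : A, g a = a}

theorem cjA_cen (hc : A ≤ Subgroup.center U) (u : U) (a : A) : cjA A u a = a := by
  apply Subtype.ext
  change u * a * u⁻¹ = a
  rw [← (Subgroup.mem_center_iff.1 (hc a.2) u).symm]
  group

theorem exists_rt (hc : A ≤ Subgroup.center U) {V : Subgroup U} (h1 : V ⊓ A = ⊥)
    (h2 : V ⊔ A = ⊤) : ∃ s : Rt A, s.1.ker = V := by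
  have hcm : ∀ a b : A, a * b = b * a := fun a b =>
    Subtype.ext (Subgroup.mem_center_iff.1 (hc b.2) a)
  have hex : ∀ u : U, ∃ a : A, (a : U)⁻¹ * u ∈ V := by
    intro u
    have h3 : u ∈ V ⊔ A := by
      rw [h2]
      trivial
    rw [sup_comm, Subgroup.mem_sup_of_normal_left] at h3
    obtain ⟨a, ha, v, hv, rfl⟩ := h3
    exact ⟨⟨a, ha⟩, by
      change a⁻¹ * (a * v) ∈ V
      rwa [inv_mul_cancel_left]⟩
  choose s hs using hex
  have huniq : ∀ (u : U) (a : A), (a : U)⁻¹ * u ∈ V → s u = a := by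
    intro u a ha
    have h3 : ((s u : U)⁻¹ * u) * ((a : U)⁻¹ * u)⁻¹ ∈ V := V.mul_mem (hs u) (V.inv_mem ha)
    have h4 : ((s u : U)⁻¹ * u) * ((a : U)⁻¹ * u)⁻¹ = (s u : U)⁻¹ * a := by group
    rw [h4] at h3
    have h5 : (s u : U)⁻¹ * a ∈ V ⊓ A := ⟨h3, A.mul_mem (A.inv_mem (s u).2) a.2⟩
    rw [h1, Subgroup.mem_bot] at h5
    exact Subtype.ext (inv_mul_eq_one.1 h5)
  have hmul : ∀ u u', s (u * u') = s u * s u' := by
    intro u u'
    refine huniq _ _ ?_
    have e2 : ((s u * s u' : A) : U)⁻¹ * (u * u') = ((s u : U)⁻¹ * u) * ((s u' : U)⁻¹ * u') := by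
      have h3 : (s u' : U)⁻¹ * (s u : U)⁻¹ = (s u : U)⁻¹ * (s u' : U)⁻¹ :=
        (Subgroup.mem_center_iff.1 (Subgroup.inv_mem _ (hc (s u).2)) (s u' : U)⁻¹)
      have h4 : (s u' : U)⁻¹ * u = u * (s u' : U)⁻¹ :=
        (Subgroup.mem_center_iff.1 (Subgroup.inv_mem _ (hc (s u').2)) u).symm
      rw [Subgroup.coe_mul, mul_inv_rev, h3]
      calc (s u : U)⁻¹ * (s u' : U)⁻¹ * (u * u') = (s u : U)⁻¹ * ((s u' : U)⁻¹ * u) * u' := by group
        _ = (s u : U)⁻¹ * (u * (s u' : U)⁻¹) * u' := by rw [h4]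
        _ = _ := by group
    rw [e2]
    exact V.mul_mem (hs u) (hs u')
  have hid : ∀ a : A, s (a : U) = a := by
    intro a
    refine huniq _ _ ?_
    rw [inv_mul_cancel]
    exact V.one_mem
  refine ⟨⟨MonoidHom.mk' s hmul, hid⟩, ?_⟩
  ext u
  rw [MonoidHom.mem_ker]
  change s u = 1 ↔ u ∈ V
  constructor
  · intro h
    have h3 := hs u
    rw [h] at h3
    simpa using h3
  · intro h
    have h3 : (s u : U) ∈ V := by
      have h4 := V.mul_mem h (V.inv_mem (hs u))
      have h5 : u * ((s u : U)⁻¹ * u)⁻¹ = s u := by group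
      rwa [h5] at h4
    have h4 : (s u : U) ∈ V ⊓ A := ⟨h3, (s u).2⟩
    rw [h1, Subgroup.mem_bot] at h4
    exact Subtype.ext h4

theorem nC_rt (hc : A ≤ Subgroup.center U) : nC A = Nat.card (Rt A) := by
  unfold nC
  symm
  refine Nat.card_congr (Equiv.ofBijective (fun s : Rt A => (⟨s.1.ker, ?_, ?_⟩ :
    {V : Subgroup U // V ⊓ A = ⊥ ∧ V ⊔ A = ⊤})) ⟨?_, ?_⟩)
  · rw [eq_bot_iff]
    rintro u ⟨h1, h2⟩
    rw [Subgroup.mem_bot]
    have h3 := s.2 ⟨u, h2⟩
    rw [MonoidHom.mem_ker.1 h1] at h3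
    exact (congrArg Subtype.val h3).symm
  · rw [Subgroup.eq_top_iff']
    intro u
    rw [Subgroup.mem_sup_of_normal_right]
    refine ⟨u * (s.1 u : U)⁻¹, ?_, s.1 u, (s.1 u).2, by group⟩
    change s.1 (u * (s.1 u : U)⁻¹) = 1
    rw [map_mul, map_inv, s.2, mul_inv_cancel]
  · intro s s' h
    have h1 : s.1.ker = s'.1.ker := congrArg Subtype.val h
    apply Subtype.ext
    refine MonoidHom.ext fun u => ?_
    have h2 : u * (s.1 u : U)⁻¹ ∈ s.1.ker := by
      change s.1 (u * (s.1 u : U)⁻¹) = 1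
      rw [map_mul, map_inv, s.2, mul_inv_cancel]
    rw [h1, MonoidHom.mem_ker, map_mul, map_inv, s'.2, mul_inv_eq_one] at h2
    exact h2.symm
  · rintro ⟨V, h1, h2⟩
    obtain ⟨s, hs⟩ := exists_rt hc h1 h2
    exact ⟨s, Subtype.ext hs⟩

theorem rt_hm (hcm : ∀ a b : A, a * b = b * a) (s : Rt A) :
    Nat.card (Rt A) = Nat.card (Hm A) := by
  have key : ∀ f g : U →* A, ∀ u u', f (u * u') * g (u * u') = (f u * g u) * (f u' * g u') := by
    intro f g u u'
    rw [map_mul, map_mul, mul_assoc, mul_assoc, ← mul_assoc (f u'), hcm (f u') (g u),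
      mul_assoc (g u)]
  have key2 : ∀ f g : U →* A, ∀ u u', (f (u * u'))⁻¹ * g (u * u') =
      ((f u)⁻¹ * g u) * ((f u')⁻¹ * g u') := by
    intro f g u u'
    rw [map_mul, map_mul, mul_inv_rev, hcm (f u')⁻¹, mul_assoc, mul_assoc,
      ← mul_assoc (f u')⁻¹, hcm (f u')⁻¹ (g u), mul_assoc (g u)]
  refine Nat.card_congr
    { toFun := fun r => ⟨MonoidHom.mk' (fun u => (s.1 u)⁻¹ * r.1 u) (key2 s.1 r.1), fun a => ?_⟩
      invFun := fun g => ⟨MonoidHom.mk' (fun u => s.1 u * g.1 u) (key s.1 g.1), fun a => ?_⟩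
      left_inv := fun r => ?_
      right_inv := fun g => ?_ }
  · change (s.1 a)⁻¹ * r.1 a = 1
    rw [s.2, r.2, inv_mul_cancel]
  · change s.1 a * g.1 a = a
    rw [s.2, g.2, mul_one]
  · apply Subtype.ext
    refine MonoidHom.ext fun u => ?_
    change s.1 u * ((s.1 u)⁻¹ * r.1 u) = r.1 u
    rw [mul_inv_cancel_left]
  · apply Subtype.ext
    refine MonoidHom.ext fun u => ?_
    change (s.1 u)⁻¹ * (s.1 u * g.1 u) = g.1 u
    rw [inv_mul_cancel_left]

theorem nX_hm (hc : A ≤ Subgroup.center U) (hA : Nat.card A = ℓ) : nX A = Nat.card (Hm A) := by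
  have hfin : Finite A := fin_A hl.out hA
  have hd : Nat.card (A →* ℂˣ) = ℓ := card_dual hA
  let e : A ≃* (A →* ℂˣ) := mulEquivOfPrimeCardEq (p := ℓ) hA hd
  unfold nX
  symm
  refine Nat.card_congr
    { toFun := fun g => ⟨fun u => e (g.1 u), ?_, ?_⟩
      invFun := fun c => ⟨MonoidHom.mk' (fun u => e.symm (c.1 u)) (fun u u' => ?_), fun a => ?_⟩
      left_inv := fun g => ?_
      right_inv := fun c => ?_ }
  · intro u u' a
    rw [cjA_cen hc]
    change (e (g.1 (u * u'))) a = (e (g.1 u)) a * (e (g.1 u')) a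
    rw [map_mul, map_mul]
    rfl
  · intro b hb
    have h1 := g.2 ⟨b, hb⟩
    change e (g.1 b) = 1
    have h2 : g.1 b = 1 := h1
    rw [h2, map_one]
  · rw [← map_mul]
    congr 1
    refine MonoidHom.ext fun a => ?_
    rw [c.2.1, cjA_cen hc]
    rfl
  · change e.symm (c.1 a) = 1
    rw [c.2.2 a a.2, map_one]
  · apply Subtype.ext
    refine MonoidHom.ext fun u => ?_
    change e.symm (e (g.1 u)) = g.1 u
    rw [MulEquiv.symm_apply_apply]
  · apply Subtype.ext
    funext u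
    change e (e.symm (c.1 u)) = c.1 u
    rw [MulEquiv.apply_symm_apply]

/-- many homomorphisms -/
theorem hm_large [Finite U] (hA : Nat.card A = ℓ) {h : U →* Cnn ℓ} (hs : Function.Surjective h)
    (h1 : ∀ a : A, h a = 1) : ℓ ^ 2 ≤ Nat.card (Hm A) := by
  have hz : NeZero ℓ := ⟨hl.out.ne_zero⟩
  have hfin : Finite A := fin_A hl.out hA
  have hc : Nat.card (Multiplicative (ZMod ℓ)) = ℓ := by
    rw [Nat.card_congr Multiplicative.toAdd, Nat.card_zmod]
  let e : Multiplicative (ZMod ℓ) ≃* A := mulEquivOfPrimeCardEq (p := ℓ) hc hA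
  have hfin2 : Finite (Hm A) := by
    unfold Hm
    have : Finite (U →* A) :=
      Finite.of_injective (fun f : U →* A => (f : U → A)) DFunLike.coe_injective
    infer_instance
  have hcard : Nat.card (ZMod ℓ × ZMod ℓ) = ℓ ^ 2 := by
    rw [Nat.card_prod, Nat.card_zmod, sq]
  rw [← hcard]
  refine Nat.card_le_card_of_injective (fun ij : ZMod ℓ × ZMod ℓ =>
    (⟨MonoidHom.mk' (fun u => e (Multiplicative.ofAdd (ij.1 * (Multiplicative.toAdd (h u)).1 +
      ij.2 * (Multiplicative.toAdd (h u)).2))) ?_, fun a => ?_⟩ : Hm A)) ?_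
  · intro u u'
    change e _ = e _ * e _
    rw [← map_mul, ← ofAdd_add, map_mul]
    congr 2
    rw [toAdd_mul, Prod.fst_add, Prod.snd_add]
    ring
  · change e (Multiplicative.ofAdd (ij.1 * (Multiplicative.toAdd (h a)).1 +
      ij.2 * (Multiplicative.toAdd (h a)).2)) = 1
    rw [h1 a]
    change e (Multiplicative.ofAdd (ij.1 * 0 + ij.2 * 0)) = 1
    rw [mul_zero, mul_zero, add_zero, ofAdd_zero, map_one]
  · rintro ⟨i, j⟩ ⟨i', j'⟩ hij
    have key : ∀ u : U, i * (Multiplicative.toAdd (h u)).1 + j * (Multiplicative.toAdd (h u)).2 =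
        i' * (Multiplicative.toAdd (h u)).1 + j' * (Multiplicative.toAdd (h u)).2 := by
      intro u
      have h2 := DFunLike.congr_fun (congrArg Subtype.val hij) u
      exact Multiplicative.ofAdd.injective (e.injective h2)
    obtain ⟨u, hu⟩ := hs (Multiplicative.ofAdd (1, 0))
    obtain ⟨v, hv⟩ := hs (Multiplicative.ofAdd (0, 1))
    have k1 := key u
    have k2 := key v
    rw [hu] at k1
    rw [hv] at k2
    change i * 1 + j * 0 = i' * 1 + j' * 0 at k1
    change i * 0 + j * 1 = i' * 0 + j' * 1 at k2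
    rw [mul_one, mul_zero, add_zero, mul_one, mul_zero, add_zero] at k1
    rw [mul_one, mul_zero, zero_add, mul_one, mul_zero, zero_add] at k2
    rw [k1, k2]

/-- few homomorphisms -/
theorem hm_small (hA : Nat.card A = ℓ) (s : Rt A)
    (hno : ¬ ∃ h : U →* Cnn ℓ, Function.Surjective h) : Nat.card (Hm A) = 1 := by
  have hz : NeZero ℓ := ⟨hl.out.ne_zero⟩
  have hfin : Finite A := fin_A hl.out hA
  have hc : Nat.card (Multiplicative (ZMod ℓ)) = ℓ := by
    rw [Nat.card_congr Multiplicative.toAdd, Nat.card_zmod]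
  let e : A ≃* Multiplicative (ZMod ℓ) := mulEquivOfPrimeCardEq (p := ℓ) hA hc
  have h1 : ∀ g : Hm A, g = ⟨1, fun _ => rfl⟩ := by
    intro g
    by_contra hg
    apply hno
    have hg1 : g.1 ≠ 1 := fun h => hg (Subtype.ext h)
    have hr : g.1.range = ⊤ := by
      have h2 : g.1.range ≠ ⊥ := by
        intro h3
        exact hg1 (MonoidHom.range_eq_bot_iff.1 h3)
      have hd := Subgroup.card_subgroup_dvd_card g.1.range
      rw [hA] at hd
      rcases (Nat.dvd_prime hl.out).1 hd with h5 | h5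
      · exact absurd (Subgroup.card_eq_one.1 h5) h2
      · exact Subgroup.eq_top_of_card_eq _ (by rw [h5, hA])
    refine ⟨MonoidHom.mk' (fun u => Multiplicative.ofAdd (Multiplicative.toAdd (e (s.1 u)),
      Multiplicative.toAdd (e (g.1 u)))) (fun u u' => ?_), fun x => ?_⟩
    · have h3 : e (s.1 (u * u')) = e (s.1 u) * e (s.1 u') := by rw [map_mul, map_mul]
      have h4 : e (g.1 (u * u')) = e (g.1 u) * e (g.1 u') := by rw [map_mul, map_mul]
      rw [h3, h4]
      rfl
    · obtain ⟨b, hb⟩ : ∃ w : U, g.1 w = e.symm (Multiplicative.ofAdd (Multiplicative.toAdd x).2) := by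
        have h3 : e.symm (Multiplicative.ofAdd (Multiplicative.toAdd x).2) ∈ g.1.range := by
          rw [hr]
          trivial
        exact h3
      set a : A := e.symm (Multiplicative.ofAdd (Multiplicative.toAdd x).1) with ha
      refine ⟨(a : U) * (s.1 b : U)⁻¹ * b, ?_⟩
      change Multiplicative.ofAdd (Multiplicative.toAdd (e (s.1 ((a : U) * (s.1 b : U)⁻¹ * b))),
        Multiplicative.toAdd (e (g.1 ((a : U) * (s.1 b : U)⁻¹ * b)))) = x
      have e1 : s.1 ((a : U) * (s.1 b : U)⁻¹ * b) = a := by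
        rw [map_mul, map_mul, map_inv, s.2, s.2, inv_mul_cancel_right]
      have e2 : g.1 ((a : U) * (s.1 b : U)⁻¹ * b) = g.1 b := by
        rw [map_mul, map_mul, map_inv, g.2, g.2, inv_one, mul_one, one_mul]
      rw [e1, e2, hb, ha, MulEquiv.apply_symm_apply, MulEquiv.apply_symm_apply]
      rfl
  have : Unique (Hm A) := ⟨⟨⟨1, fun _ => rfl⟩⟩, h1⟩
  exact Nat.card_unique

end cen

end Run7.h759.DI
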