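import Pool.Agent.Run7.h759.DI.Nil1

/-!
# Nilpotent quotients (helper759)
-/

set_option autoImplicit false
set_option linter.unusedSectionVars false

open scoped Classical BigOperators

noncomputable section

namespace Run7.h759.DI

open Group (IsNilpotent)

/-- `C_ℓ × C_ℓ` is a quotient of `U` -/
def HasQ (ℓ : ℕ) (U : Type) [Group U] : Prop := ∃ h : U →* Cnn ℓ, Function.Surjective h

/-- normal subgroups of nilpotent groups contain central subgroups of prime order -/
theorem exists_cen {U : Type} [Group U] [Finite U] [hU : IsNilpotent U] {K : Subgroup U}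
    [hK : K.Normal] (hK0 : K ≠ ⊥) :
    ∃ (ℓ : ℕ) (A : Subgroup U), ℓ.Prime ∧ A ≤ K ∧ A ≤ Subgroup.center U ∧ Nat.card A = ℓ := by
  obtain ⟨n, hn⟩ := hU.nilpotent
  have hex : ∃ i, K ⊓ Subgroup.upperCentralSeries U i ≠ ⊥ := ⟨n, by rwa [hn, inf_top_eq]⟩
  set i := Nat.find hex with hi
  have h1 : K ⊓ Subgroup.upperCentralSeries U i ≠ ⊥ := Nat.find_spec hex
  have hi0 : i ≠ 0 := by
    intro h
    rw [h, Subgroup.upperCentralSeries_zero, inf_bot_eq] at h1
    exact h1 rfl
  obtain ⟨j, hj⟩ := Nat.exists_eq_succ_of_ne_zero hi0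
  have h2 : K ⊓ Subgroup.upperCentralSeries U j = ⊥ := by
    by_contra h
    exact Nat.find_min hex (by omega) h
  have h3 : K ⊓ Subgroup.upperCentralSeries U i ≤ Subgroup.center U := by
    rintro x ⟨hx, hx'⟩
    rw [Subgroup.mem_center_iff]
    intro y
    rw [hj] at hx'
    have h4 := (Subgroup.mem_upperCentralSeries_succ_iff).1 hx' y
    have h5 : x * y * x⁻¹ * y⁻¹ ∈ K := by
      have h6 : x * (y * x⁻¹ * y⁻¹) ∈ K := K.mul_mem hx (hK.conj_mem _ (K.inv_mem hx) y)
      have h7 : x * y * x⁻¹ * y⁻¹ = x * (y * x⁻¹ * y⁻¹) := by group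
      rwa [h7]
    have h8 : x * y * x⁻¹ * y⁻¹ ∈ K ⊓ Subgroup.upperCentralSeries U j := ⟨h5, h4⟩
    rw [h2, Subgroup.mem_bot] at h8
    have h9 : x * y = y * x := by
      have : x * y = (x * y * x⁻¹ * y⁻¹) * (y * x) := by group
      rw [this, h8, one_mul]
    exact h9.symm
  -- a prime divisor
  have h4 : Nat.card ↥(K ⊓ Subgroup.upperCentralSeries U i) ≠ 1 := by
    intro h
    exact h1 (Subgroup.card_eq_one.1 h)
  obtain ⟨ℓ, hl, hd⟩ := Nat.exists_prime_and_dvd h4
  have : Fact ℓ.Prime := ⟨hl⟩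
  obtain ⟨x, hx⟩ := exists_prime_orderOf_dvd_card' ℓ hd
  refine ⟨ℓ, Subgroup.zpowers (x : U), hl, ?_, ?_, ?_⟩
  · rw [Subgroup.zpowers_le]
    exact x.2.1
  · rw [Subgroup.zpowers_le]
    exact h3 x.2
  · rw [Nat.card_zpowers, Subgroup.orderOf_coe, hx]

variable {p : ℕ} [hp : Fact p.Prime] {F : Type} [Field F] [IsAlgClosed F] [CharP F p]
  (red : integralClosure ℤ ℂ →+* F)

/-- one step -/
theorem nil_step {U : Type} [Group U] [Finite U] {A : Subgroup U} [hAn : A.Normal]
    (hc : A ≤ Subgroup.center U) {ℓ : ℕ} (hl : ℓ.Prime) (hA : Nat.card A = ℓ)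
    (h : ℓ ≠ p → HasQ ℓ U → HasQ ℓ (U ⧸ A)) (hW : Ok p red (U ⧸ A)) : Ok p red U := by
  have _l : Fact ℓ.Prime := ⟨hl⟩
  by_cases hlp : ℓ = p
  · exact ok_prime red hA (Or.inr hlp) hW
  refine ok_compl red hA hlp ?_ hW
  by_cases h0 : nC A = 0
  · rw [h0, zero_mul]
    exact (pow_ne_zero 2 hl.ne_zero).symm
  have h1 : Nat.card (Rt A) ≠ 0 := by rwa [← nC_rt hc]
  obtain ⟨s⟩ := (Nat.card_pos_iff.1 (Nat.pos_of_ne_zero h1)).1
  have hcm : ∀ a b : A, a * b = b * a := fun a b =>
    Subtype.ext (Subgroup.mem_center_iff.1 (hc b.2) a)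
  rw [nC_rt hc, rt_hm hcm s, nX_hm hc hA, ← sq]
  intro h2
  have h3 : Nat.card (Hm A) = ℓ := Nat.pow_left_injective (n := 2) (by norm_num) h2
  by_cases h4 : HasQ ℓ U
  · obtain ⟨g, hg⟩ := h hlp h4
    have h5 := hm_large hA (h := g.comp (QuotientGroup.mk' A))
      (hg.comp (QuotientGroup.mk'_surjective A)) (fun a => by
        change g ((a : U) : U ⧸ A) = 1
        rw [(QuotientGroup.eq_one_iff _).2 a.2, map_one])
    rw [h3] at h5
    have h6 := hl.one_lt
    nlinarith
  · rw [hm_small hA s h4] at h3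
    exact hl.one_lt.ne h3

/-- **Nilpotent groups.** -/
theorem nil_main (k : ℕ) : ∀ (U : Type) [Group U] [Finite U] [IsNilpotent U] (Q : Type) [Group Q]
    (f : U →* Q), Function.Surjective f → Nat.card f.ker = k →
    (∀ ℓ : ℕ, ℓ.Prime → ℓ ≠ p → HasQ ℓ U → HasQ ℓ Q) → Ok p red Q → Ok p red U := by
  induction k using Nat.strong_induction_on with
  | _ k ih =>
    intro U _ _ _ Q _ f hf hk hQ hO
    by_cases h0 : f.ker = ⊥
    · have hinj : Function.Injective f := (MonoidHom.ker_eq_bot_iff f).1 h0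
      exact ok_iso (MulEquiv.ofBijective f ⟨hinj, hf⟩).symm hO
    obtain ⟨ℓ, A, hl, hAK, hAc, hA⟩ := exists_cen h0
    have hAn : A.Normal := ⟨fun a ha g => by
      rw [Subgroup.mem_center_iff.1 (hAc ha) g, mul_inv_cancel_right]
      exact ha⟩
    let f' : U ⧸ A →* Q := QuotientGroup.lift A f (fun a ha => hAK ha)
    have hf' : Function.Surjective f' := by
      intro y
      obtain ⟨u, rfl⟩ := hf y
      exact ⟨(u : U ⧸ A), rfl⟩
    have hcard : Nat.card f'.ker < k := by
      have e1 : f'.ker = f.ker.map (QuotientGroup.mk' A) := by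
        ext y
        obtain ⟨u, rfl⟩ := QuotientGroup.mk'_surjective A y
        constructor
        · intro h
          exact ⟨u, h, rfl⟩
        · rintro ⟨v, hv, e⟩
          rw [← e]
          exact hv
      have e2 : (QuotientGroup.mk' A).ker = A := QuotientGroup.ker_mk' A
      have e3 : Nat.card ↥(f.ker.map (QuotientGroup.mk' A)) * Nat.card A = Nat.card f.ker := by
        have h1 : Nat.card ↥(f.ker.map (QuotientGroup.mk' A)) =
            (((QuotientGroup.mk' A).ker).subgroupOf f.ker).index := by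
          let g : f.ker →* f.ker.map (QuotientGroup.mk' A) :=
            (QuotientGroup.mk' A).subgroupMap f.ker
          have hg : Function.Surjective g := MonoidHom.subgroupMap_surjective _ _
          have hgk : g.ker = ((QuotientGroup.mk' A).ker).subgroupOf f.ker := by
            ext x
            rw [MonoidHom.mem_ker, Subgroup.mem_subgroupOf, MonoidHom.mem_ker]
            exact ⟨fun h => congrArg Subtype.val h, fun h => Subtype.ext h⟩
          rw [← hgk, Subgroup.index_ker, MonoidHom.range_eq_top.2 hg, Subgroup.card_top]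
        have h2 : Nat.card (((QuotientGroup.mk' A).ker).subgroupOf f.ker) = Nat.card A := by
          rw [e2]
          exact Nat.card_congr (Subgroup.subgroupOfEquivOfLe hAK).toEquiv
        rw [h1, ← h2, mul_comm, Subgroup.card_mul_index]
      rw [e1, ← hk, ← e3, hA]
      have h5 : 0 < Nat.card ↥(f.ker.map (QuotientGroup.mk' A)) := Nat.card_pos
      have h6 := hl.one_lt
      nlinarith
    have hQ' : ∀ ℓ : ℕ, ℓ.Prime → ℓ ≠ p → HasQ ℓ (U ⧸ A) → HasQ ℓ Q := by
      rintro r hr hrp ⟨g, hg⟩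
      exact hQ r hr hrp ⟨g.comp (QuotientGroup.mk' A), hg.comp (QuotientGroup.mk'_surjective A)⟩
    have hW := ih _ hcard (U ⧸ A) Q f' hf' rfl hQ' hO
    refine nil_step red hAc hl hA (fun hlp hU => ?_) hW
    obtain ⟨g, hg⟩ := hQ ℓ hl hlp hU
    exact ⟨g.comp f', hg.comp hf'⟩

end Run7.h759.DI
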