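import Pool.Agent.Run7.h759.DI.Nil2

/-!
# Nilpotent groups: noncyclic Sylow subgroups and quotients (helper759)
-/

set_option autoImplicit false
set_option linter.unusedSectionVars false

open scoped Classical BigOperators

noncomputable section

namespace Run7.h759.DI

open Group (IsNilpotent)

/-- noncyclic `ℓ`-groups -/
theorem hasQ_of_noncyclic {ℓ : ℕ} [hl : Fact ℓ.Prime] {P : Type} [Group P] [Finite P]
    (hP : IsPGroup ℓ P) (hc : ¬ IsCyclic P) : HasQ ℓ P := by
  -- two maximal subgroups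
  have h1 : ∃ M₁ M₂ : Subgroup P, IsCoatom M₁ ∧ IsCoatom M₂ ∧ M₁ ≠ M₂ := by
    by_contra hcon
    push Not at hcon
    apply hc
    rcases eq_top_or_exists_le_coatom (⊥ : Subgroup P) with h | ⟨M, hM, -⟩
    · have : Subsingleton P := by
        rw [← Subgroup.subsingleton_iff]
        exact subsingleton_of_bot_eq_top h
      exact isCyclic_of_subsingleton
    · obtain ⟨x, hx⟩ : ∃ x, x ∉ M := by
        by_contra h
        push Not at h
        exact hM.1 ((Subgroup.eq_top_iff' M).2 h)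
      rcases eq_top_or_exists_le_coatom (Subgroup.zpowers x) with h | ⟨M', hM', hle⟩
      · exact ⟨x, fun y => by
          have : y ∈ Subgroup.zpowers x := by rw [h]; trivial
          exact this⟩
      · exfalso
        apply hx
        rw [hcon M M' hM hM']
        exact hle (Subgroup.mem_zpowers x)
  obtain ⟨M₁, M₂, hM₁, hM₂, hne⟩ := h1
  have hnil : IsNilpotent P := hP.isNilpotent
  have hnc : ∀ H : Subgroup P, IsCoatom H → H.Normal :=
    fun H h => Subgroup.NormalizerCondition.normal_of_coatom H Group.normalizerCondition_of_isNilpotent h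
  -- the index
  have hind : ∀ M : Subgroup P, IsCoatom M → M.index = ℓ := by
    intro M hM
    obtain ⟨k, hk⟩ := IsPGroup.iff_card.1 (hP.to_subgroup M)
    obtain ⟨n, hn⟩ := IsPGroup.iff_card.1 hP
    have hlt : k < n := by
      by_contra h
      push Not at h
      apply hM.1
      refine Subgroup.eq_top_of_card_eq _ (le_antisymm (Subgroup.card_le_card_group M) ?_)
      rw [hk, hn]
      exact Nat.pow_le_pow_right hl.out.pos h
    obtain ⟨K, hK, hMK⟩ := Sylow.exists_subgroup_card_pow_prime_le ℓ (n := k) (m := k + 1) (by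
      rw [hn]
      exact pow_dvd_pow ℓ hlt) M hk (Nat.le_succ k)
    have hlt2 : M < K := by
      refine lt_of_le_of_ne hMK ?_
      rintro rfl
      rw [hk] at hK
      exact (Nat.pow_lt_pow_right hl.out.one_lt (Nat.lt_succ_self k)).ne hK
    have htop := hM.2 K hlt2
    rw [htop, Subgroup.card_top] at hK
    have h3 := Subgroup.card_mul_index M
    rw [hk, hK, pow_succ] at h3
    exact Nat.eq_of_mul_eq_mul_left (pow_pos hl.out.pos k) h3
  have n₁ := hnc M₁ hM₁
  have n₂ := hnc M₂ hM₂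
  have hz : NeZero ℓ := ⟨hl.out.ne_zero⟩
  have hcl : Nat.card (Multiplicative (ZMod ℓ)) = ℓ := by
    rw [Nat.card_congr Multiplicative.toAdd, Nat.card_zmod]
  let e₁ : P ⧸ M₁ ≃* Multiplicative (ZMod ℓ) :=
    mulEquivOfPrimeCardEq (p := ℓ) (hind M₁ hM₁) hcl
  let e₂ : P ⧸ M₂ ≃* Multiplicative (ZMod ℓ) :=
    mulEquivOfPrimeCardEq (p := ℓ) (hind M₂ hM₂) hcl
  refine ⟨MonoidHom.mk' (fun u => Multiplicative.ofAdd (Multiplicative.toAdd (e₁ (u : P ⧸ M₁)),
    Multiplicative.toAdd (e₂ (u : P ⧸ M₂)))) (fun u u' => ?_), fun x => ?_⟩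
  · have h3 : e₁ ((u * u' : P) : P ⧸ M₁) = e₁ u * e₁ u' := by
      rw [← map_mul]
      rfl
    have h4 : e₂ ((u * u' : P) : P ⧸ M₂) = e₂ u * e₂ u' := by
      rw [← map_mul]
      rfl
    rw [h3, h4]
    rfl
  · -- `M₁` maps onto `P / M₂`
    have h3 : M₁.map (QuotientGroup.mk' M₂) = ⊤ := by
      have h4 : M₁.map (QuotientGroup.mk' M₂) ≠ ⊥ := by
        intro h
        rw [Subgroup.map_eq_bot_iff, QuotientGroup.ker_mk'] at h
        rcases h.eq_or_lt with h5 | h5
        · exact hne h5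
        · exact hM₂.1 (hM₁.2 M₂ h5)
      have hd := Subgroup.card_subgroup_dvd_card (M₁.map (QuotientGroup.mk' M₂))
      have h6 : Nat.card (P ⧸ M₂) = ℓ := hind M₂ hM₂
      rw [h6] at hd
      rcases (Nat.dvd_prime hl.out).1 hd with h5 | h5
      · exact absurd (Subgroup.card_eq_one.1 h5) h4
      · exact Subgroup.eq_top_of_card_eq _ (by rw [h5, h6])
    obtain ⟨u, hu⟩ := QuotientGroup.mk_surjective
      (e₁.symm (Multiplicative.ofAdd (Multiplicative.toAdd x).1))
    obtain ⟨m, hm, hm2⟩ : ((u : P ⧸ M₂))⁻¹ * e₂.symm (Multiplicative.ofAdd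
        (Multiplicative.toAdd x).2) ∈ M₁.map (QuotientGroup.mk' M₂) := by
      rw [h3]
      trivial
    refine ⟨u * m, ?_⟩
    change Multiplicative.ofAdd (Multiplicative.toAdd (e₁ ((u * m : P) : P ⧸ M₁)),
      Multiplicative.toAdd (e₂ ((u * m : P) : P ⧸ M₂))) = x
    have k1 : ((u * m : P) : P ⧸ M₁) = e₁.symm (Multiplicative.ofAdd (Multiplicative.toAdd x).1) := by
      rw [← hu, QuotientGroup.eq]
      have : (u * m)⁻¹ * u = m⁻¹ := by group
      rw [this]
      exact M₁.inv_mem hm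
    have k2 : ((u * m : P) : P ⧸ M₂) = e₂.symm (Multiplicative.ofAdd (Multiplicative.toAdd x).2) := by
      have h5 : ((u * m : P) : P ⧸ M₂) = (u : P ⧸ M₂) * (QuotientGroup.mk' M₂ m) := rfl
      rw [h5, hm2, mul_inv_cancel_left]
    rw [k1, k2, MulEquiv.apply_symm_apply, MulEquiv.apply_symm_apply]
    rfl

/-- Sylow subgroups of nilpotent groups are quotients -/
theorem sylow_quot {U : Type} [Group U] [Finite U] [IsNilpotent U] {ℓ : ℕ} [hl : Fact ℓ.Prime]
    (hd : ℓ ∣ Nat.card U) (P : Sylow ℓ U) :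
    ∃ f : U →* (P : Subgroup U), Function.Surjective f := by
  obtain ⟨e⟩ := ((Group.isNilpotent_of_finite_tfae (G := U)).out 0 4 rfl rfl).1
    (inferInstance : IsNilpotent U)
  have hm : ℓ ∈ (Nat.card U).primeFactors :=
    Nat.mem_primeFactors.2 ⟨hl.out, hd, Nat.card_pos.ne'⟩
  let l₀ : (Nat.card U).primeFactors := ⟨ℓ, hm⟩
  let f₁ : (∀ p : (Nat.card U).primeFactors, ∀ P : Sylow p U, (↑P : Subgroup U)) →*
      (∀ P : Sylow ℓ U, (↑P : Subgroup U)) := Pi.evalMonoidHom _ l₀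
  let f₂ : (∀ P : Sylow ℓ U, (↑P : Subgroup U)) →* (P : Subgroup U) := Pi.evalMonoidHom _ P
  refine ⟨(f₂.comp f₁).comp e.symm.toMonoidHom, ?_⟩
  intro y
  obtain ⟨w, hw⟩ := Function.surjective_eval (β := fun P : Sylow ℓ U => (P : Subgroup U)) P y
  obtain ⟨x, hx⟩ := Function.surjective_eval (β := fun p : (Nat.card U).primeFactors =>
      ∀ P : Sylow p U, (↑P : Subgroup U)) l₀ w
  refine ⟨e x, ?_⟩
  change f₂ (f₁ (e.symm (e x))) = y
  rw [MulEquiv.symm_apply_apply]
  have h1 : f₁ x = w := hx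
  rw [h1]
  exact hw

/-- the Sylow `ℓ`-subgroups are not cyclic -/
def NcSyl (ℓ : ℕ) (U : Type) [Group U] : Prop := ∀ P : Sylow ℓ U, ¬ IsCyclic (P : Subgroup U)

theorem hasQ_of_sylow {U : Type} [Group U] [Finite U] [IsNilpotent U] {ℓ : ℕ} (hl : ℓ.Prime)
    (hd : ℓ ∣ Nat.card U) (h : NcSyl ℓ U) : HasQ ℓ U := by
  have _l : Fact ℓ.Prime := ⟨hl⟩
  let P : Sylow ℓ U := default
  obtain ⟨f, hf⟩ := sylow_quot hd P
  obtain ⟨g, hg⟩ := hasQ_of_noncyclic P.2 (h P)
  exact ⟨g.comp f, hg.comp hf⟩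

theorem card_cnn (n : ℕ) : Nat.card (Cnn n) = n * n := by
  rw [Nat.card_congr Multiplicative.toAdd, Nat.card_prod, Nat.card_zmod]

theorem cnn_pow (n : ℕ) (x : Cnn n) : x ^ n = 1 := by
  apply Multiplicative.toAdd.injective
  rw [toAdd_pow]
  change n • Multiplicative.toAdd x = 0
  refine Prod.ext ?_ ?_
  · rw [Prod.smul_fst, nsmul_eq_mul, CharP.cast_eq_zero, zero_mul]
    rfl
  · rw [Prod.smul_snd, nsmul_eq_mul, CharP.cast_eq_zero, zero_mul]
    rfl

theorem cnn_noncyclic {ℓ : ℕ} (hl : ℓ.Prime) : ¬ IsCyclic (Cnn ℓ) := by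
  intro h
  obtain ⟨x, hx⟩ := h.exists_generator
  have hz : NeZero ℓ := ⟨hl.ne_zero⟩
  have h1 : orderOf x = Nat.card (Cnn ℓ) := orderOf_eq_card_of_forall_mem_zpowers hx
  have h2 : orderOf x ≤ ℓ := Nat.le_of_dvd hl.pos (orderOf_dvd_of_pow_eq_one (cnn_pow ℓ x))
  rw [h1, card_cnn] at h2
  have := hl.one_lt
  nlinarith

theorem sylow_of_hasQ {U : Type} [Group U] [Finite U] {ℓ : ℕ} (hl : ℓ.Prime)
    (h : HasQ ℓ U) : NcSyl ℓ U := by
  have _l : Fact ℓ.Prime := ⟨hl⟩
  obtain ⟨f, hf⟩ := h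
  intro P hP
  have h1 : ((P : Subgroup U).map f).index ∣ (P : Subgroup U).index := Subgroup.index_map_dvd _ hf
  have h2 : ((P : Subgroup U).map f).index ∣ Nat.card (Cnn ℓ) := Subgroup.index_dvd_card _
  rw [card_cnn, ← sq] at h2
  obtain ⟨k, hk, hk2⟩ := (Nat.dvd_prime_pow hl).1 h2
  have h3 : ((P : Subgroup U).map f) = ⊤ := by
    rw [← Subgroup.index_eq_one, hk2]
    rcases Nat.eq_zero_or_pos k with rfl | hk0
    · rw [pow_zero]
    · exfalso
      apply P.not_dvd_index
      exact (dvd_pow_self ℓ hk0.ne').trans (hk2 ▸ h1)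
  apply cnn_noncyclic hl
  have h4 : Function.Surjective (f.comp (P : Subgroup U).subtype) := by
    intro y
    have : y ∈ (P : Subgroup U).map f := by rw [h3]; trivial
    obtain ⟨x, hx, e⟩ := this
    exact ⟨⟨x, hx⟩, e⟩
  exact isCyclic_of_surjective (f.comp (P : Subgroup U).subtype) h4

theorem dvd_of_hasQ {U : Type} [Group U] [Finite U] {ℓ : ℕ} (h : HasQ ℓ U) :
    ℓ ∣ Nat.card U := by
  obtain ⟨f, hf⟩ := h
  have h1 := Subgroup.card_dvd_of_surjective f hf
  rw [card_cnn] at h1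
  exact (dvd_mul_right ℓ ℓ).trans h1

theorem dvd_of_nc {U : Type} [Group U] [Finite U] {ℓ : ℕ} (hl : ℓ.Prime) (h : NcSyl ℓ U) :
    ℓ ∣ Nat.card U := by
  have _l : Fact ℓ.Prime := ⟨hl⟩
  by_contra hd
  let P : Sylow ℓ U := default
  apply h P
  have h1 : Nat.card (P : Subgroup U) = 1 := by
    rw [P.card_eq_multiplicity, Nat.factorization_eq_zero_of_not_dvd hd, pow_zero]
  have : Subsingleton (P : Subgroup U) := (Nat.card_eq_one_iff_unique.1 h1).1
  exact isCyclic_of_subsingleton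

/-- subgroups -/
theorem nc_sub {U : Type} [Group U] [Finite U] (V : Subgroup U) {ℓ : ℕ} (hl : ℓ.Prime)
    (h : NcSyl ℓ V) : NcSyl ℓ U := by
  have _l : Fact ℓ.Prime := ⟨hl⟩
  intro Q hQ
  let P : Sylow ℓ V := default
  apply h P
  have h1 : IsPGroup ℓ ((P : Subgroup V).map V.subtype) := P.2.map _
  obtain ⟨Q', hQ'⟩ := h1.exists_le_sylow
  have h2 : IsCyclic (Q' : Subgroup U) := isCyclic_of_surjective (Q.equiv Q')
    (Q.equiv Q').surjective
  have h3 : IsCyclic ((P : Subgroup V).map V.subtype) :=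
    isCyclic_of_injective (Subgroup.inclusion hQ') (Subgroup.inclusion_injective hQ')
  exact isCyclic_of_surjective
    ((P : Subgroup V).equivMapOfInjective V.subtype V.subtype_injective).symm
    (MulEquiv.surjective _)

/-- the product of the primes `ℓ ≠ p` with noncyclic Sylow `ℓ`-subgroups -/
def nn (p : ℕ) (U : Type) [Group U] : ℕ :=
  ∏ ℓ ∈ (Nat.card U).primeFactors with (ℓ ≠ p ∧ NcSyl ℓ U), ℓ

theorem prod_surj {U A₁ A₂ : Type} [Group U] [Group A₁] [Group A₂] [Finite A₁] [Finite A₂]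
    {f₁ : U →* A₁} {f₂ : U →* A₂} (h₁ : Function.Surjective f₁) (h₂ : Function.Surjective f₂)
    (hc : Nat.Coprime (Nat.card A₁) (Nat.card A₂)) : Function.Surjective (f₁.prod f₂) := by
  rw [← MonoidHom.range_eq_top]
  refine Subgroup.eq_top_of_card_eq _ ?_
  rw [Nat.card_prod]
  refine Nat.dvd_antisymm ?_ (Nat.Coprime.mul_dvd_of_dvd_of_dvd hc ?_ ?_)
  · rw [← Nat.card_prod]
    exact Subgroup.card_subgroup_dvd_card _
  · refine Subgroup.card_dvd_of_surjective
      ((MonoidHom.fst A₁ A₂).comp (f₁.prod f₂).range.subtype) ?_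
    intro a
    obtain ⟨u, rfl⟩ := h₁ a
    exact ⟨⟨_, ⟨u, rfl⟩⟩, rfl⟩
  · refine Subgroup.card_dvd_of_surjective
      ((MonoidHom.snd A₁ A₂).comp (f₁.prod f₂).range.subtype) ?_
    intro a
    obtain ⟨u, rfl⟩ := h₂ a
    exact ⟨⟨_, ⟨u, rfl⟩⟩, rfl⟩

theorem cnn_mul {m n : ℕ} [NeZero m] [NeZero n] (h : m.Coprime n) {U : Type} [Group U]
    {f₁ : U →* Cnn m} {f₂ : U →* Cnn n} (h₁ : Function.Surjective f₁)
    (h₂ : Function.Surjective f₂) : ∃ f : U →* Cnn (m * n), Function.Surjective f := by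
  have hp : Function.Surjective (f₁.prod f₂) := prod_surj h₁ h₂ (by
    rw [card_cnn, card_cnn]
    exact Nat.Coprime.mul_left (h.mul_right h) (h.mul_right h))
  let χ := ZMod.chineseRemainder h
  let g : Cnn m × Cnn n →* Cnn (m * n) := MonoidHom.mk' (fun x => Multiplicative.ofAdd
    (χ.symm ((Multiplicative.toAdd x.1).1, (Multiplicative.toAdd x.2).1),
      χ.symm ((Multiplicative.toAdd x.1).2, (Multiplicative.toAdd x.2).2))) (by
    intro x y
    apply Multiplicative.toAdd.injective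
    change (χ.symm ((Multiplicative.toAdd x.1).1 + (Multiplicative.toAdd y.1).1,
      (Multiplicative.toAdd x.2).1 + (Multiplicative.toAdd y.2).1),
      χ.symm ((Multiplicative.toAdd x.1).2 + (Multiplicative.toAdd y.1).2,
      (Multiplicative.toAdd x.2).2 + (Multiplicative.toAdd y.2).2)) =
      (χ.symm ((Multiplicative.toAdd x.1).1, (Multiplicative.toAdd x.2).1) +
        χ.symm ((Multiplicative.toAdd y.1).1, (Multiplicative.toAdd y.2).1),
      χ.symm ((Multiplicative.toAdd x.1).2, (Multiplicative.toAdd x.2).2) +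
        χ.symm ((Multiplicative.toAdd y.1).2, (Multiplicative.toAdd y.2).2))
    rw [← map_add, ← map_add]
    rfl)
  have hg : Function.Surjective g := by
    intro y
    refine ⟨(Multiplicative.ofAdd ((χ (Multiplicative.toAdd y).1).1, (χ (Multiplicative.toAdd y).2).1),
      Multiplicative.ofAdd ((χ (Multiplicative.toAdd y).1).2, (χ (Multiplicative.toAdd y).2).2)), ?_⟩
    apply Multiplicative.toAdd.injective
    change (χ.symm ((χ (Multiplicative.toAdd y).1).1, (χ (Multiplicative.toAdd y).1).2),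
      χ.symm ((χ (Multiplicative.toAdd y).2).1, (χ (Multiplicative.toAdd y).2).2)) =
      Multiplicative.toAdd y
    refine Prod.ext ?_ ?_
    · exact χ.symm_apply_apply _
    · exact χ.symm_apply_apply _
  exact ⟨g.comp (f₁.prod f₂), hg.comp hp⟩

theorem surj_cnn {U : Type} [Group U] (T : Finset ℕ) (hT : ∀ ℓ ∈ T, ℓ.Prime ∧ HasQ ℓ U) :
    ∃ f : U →* Cnn (∏ ℓ ∈ T, ℓ), Function.Surjective f := by
  induction T using Finset.induction_on with
  | empty =>
    rw [Finset.prod_empty]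
    refine ⟨1, fun y => ⟨1, ?_⟩⟩
    apply Multiplicative.toAdd.injective
    refine Prod.ext (Subsingleton.elim (α := ZMod 1) _ _) (Subsingleton.elim (α := ZMod 1) _ _)
  | insert ℓ T hl ih =>
    rw [Finset.prod_insert hl]
    obtain ⟨f₂, h₂⟩ := ih fun r hr => hT r (Finset.mem_insert_of_mem hr)
    obtain ⟨hlp, f₁, h₁⟩ := hT ℓ (Finset.mem_insert_self _ _)
    have z1 : NeZero ℓ := ⟨hlp.ne_zero⟩
    have z2 : NeZero (∏ r ∈ T, r) :=
      ⟨Finset.prod_ne_zero_iff.2 fun r hr => (hT r (Finset.mem_insert_of_mem hr)).1.ne_zero⟩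
    refine cnn_mul ?_ h₁ h₂
    refine Nat.Coprime.prod_right fun r hr => ?_
    refine (Nat.coprime_primes hlp (hT r (Finset.mem_insert_of_mem hr)).1).2 ?_
    rintro rfl
    exact hl hr

theorem cnn_dvd {m n : ℕ} (h : m ∣ n) : ∃ f : Cnn n →* Cnn m, Function.Surjective f := by
  let c := ZMod.castHom h (ZMod m)
  have hc : Function.Surjective c := ZMod.castHom_surjective h
  refine ⟨MonoidHom.mk' (fun x => Multiplicative.ofAdd (c (Multiplicative.toAdd x).1,
    c (Multiplicative.toAdd x).2)) (fun x y => ?_), fun y => ?_⟩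
  · apply Multiplicative.toAdd.injective
    change (c ((Multiplicative.toAdd x).1 + (Multiplicative.toAdd y).1),
      c ((Multiplicative.toAdd x).2 + (Multiplicative.toAdd y).2)) =
      (c (Multiplicative.toAdd x).1 + c (Multiplicative.toAdd y).1,
        c (Multiplicative.toAdd x).2 + c (Multiplicative.toAdd y).2)
    rw [map_add, map_add]
  · obtain ⟨a, ha⟩ := hc (Multiplicative.toAdd y).1
    obtain ⟨b, hb⟩ := hc (Multiplicative.toAdd y).2
    refine ⟨Multiplicative.ofAdd (a, b), ?_⟩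
    apply Multiplicative.toAdd.injective
    change (c a, c b) = Multiplicative.toAdd y
    rw [ha, hb]

end Run7.h759.DI
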