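import Pool.Agent.Run7.h759.DI.Min
import Pool.Agent.Run7.h759.DI.Nil4

/-!
# Normal `p`-subgroups of the quotient (helper759)
-/

set_option autoImplicit false
set_option linter.unusedSectionVars false

open scoped Classical BigOperators

noncomputable section

namespace Run7.h759.DI

open Pool.Agent.Y63.NV (IsClassFun centralValue IsBlock numDzBlock)
open Pool.Agent.N20.DI (InvBl kdGe kdU radSum DadeInv)

/-- a minimal normal subgroup in the centre of a normal `p`-subgroup -/
theorem exists_mn {U : Type} [Group U] [Finite U] {p : ℕ} [hp : Fact p.Prime] {P : Subgroup U}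
    [hPn : P.Normal] (hP : IsPGroup p P) (hb : P ≠ ⊥) :
    ∃ A : Subgroup U, A.Normal ∧ A ≤ P ∧ Mn A ∧ (∀ a b : A, a * b = b * a) ∧
      ∃ k, 1 ≤ k ∧ Nat.card A = p ^ k := by
  have hnt : Nontrivial P := (Subgroup.nontrivial_iff_ne_bot P).2 hb
  have hz : Nontrivial (Subgroup.center P) := hP.center_nontrivial
  have hzn : ((Subgroup.center P).map P.subtype).Normal := inferInstance
  have hzb : (Subgroup.center P).map P.subtype ≠ ⊥ := by
    intro h
    rw [Subgroup.map_eq_bot_iff_of_injective _ P.subtype_injective] at h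
    exact (Subgroup.nontrivial_iff_ne_bot _).1 hz h
  let S : Set (Subgroup U) := {A | A.Normal ∧ A ≤ (Subgroup.center P).map P.subtype ∧ A ≠ ⊥}
  have hS : S.Finite := Set.toFinite S
  obtain ⟨A, hA⟩ := hS.exists_minimal ⟨_, hzn, le_rfl, hzb⟩
  obtain ⟨⟨h1, h2, h3⟩, h4⟩ := hA
  have h5 : A ≤ P := h2.trans (Subgroup.map_subtype_le _)
  have h6 : IsPGroup p A := hP.to_le h5
  obtain ⟨k, hk⟩ := IsPGroup.iff_card.1 h6
  refine ⟨A, h1, h5, ⟨h3, fun B hB hBA => ?_⟩, fun a b => ?_, k, ?_, hk⟩
  · by_cases h : B = ⊥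
    · exact Or.inl h
    · exact Or.inr (le_antisymm hBA (h4 ⟨hB, hBA.trans h2, h⟩ hBA))
  · obtain ⟨x, hx, hxa⟩ := h2 a.2
    have h7 := Subgroup.mem_center_iff.1 hx ⟨b, h5 b.2⟩
    have h8 := congrArg P.subtype h7
    rw [map_mul, map_mul, hxa] at h8
    exact Subtype.ext h8.symm
  · rcases Nat.eq_zero_or_pos k with h | h
    · rw [h, pow_zero] at hk
      exact absurd (Subgroup.card_eq_one.1 hk) h3
    · exact h

variable {p : ℕ} [hp : Fact p.Prime] {F : Type} [Field F] [IsAlgClosed F] [CharP F p]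
  (red : integralClosure ℤ ℂ →+* F)

theorem ok_op_aux (n : ℕ) : ∀ (U : Type) [Group U] [Finite U] (P : Subgroup U) [P.Normal],
    IsPGroup p P → Nat.card P ≤ n → Ok p red (U ⧸ P) → Ok p red U := by
  induction n with
  | zero =>
    intro U _ _ P _ _ hn _
    exact absurd (Nat.card_pos (α := P)) (by omega)
  | succ n ih =>
    intro U _ _ P hPn hP hn h
    by_cases hb : P = ⊥
    · subst hb
      exact ok_iso (QuotientGroup.quotientBot (G := U)) h
    obtain ⟨A, hAn, hAP, hmin, hc, k, hk, hA⟩ := exists_mn hP hb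
    refine ok_min red hmin hc hA hk ?_
    have hPn' : (P.map (QuotientGroup.mk' A)).Normal :=
      hPn.map _ (QuotientGroup.mk'_surjective A)
    refine ih (U ⧸ A) (P.map (QuotientGroup.mk' A)) (hP.map _) ?_
      (ok_iso (QuotientGroup.quotientQuotientEquivQuotient A P hAP).symm h)
    -- the order
    have h1 : Nat.card (P.map (QuotientGroup.mk' A)) < Nat.card P := by
      have h2 : Nat.card (P.map (QuotientGroup.mk' A)) * Nat.card (A.subgroupOf P) = Nat.card P := by
        have h3 := Subgroup.card_mul_index (A.subgroupOf P)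
        have h4 : ((QuotientGroup.mk' A).comp P.subtype).ker = A.subgroupOf P := by
          ext x
          rw [MonoidHom.mem_ker, Subgroup.mem_subgroupOf]
          exact QuotientGroup.eq_one_iff (x : U)
        have h5 : ((QuotientGroup.mk' A).comp P.subtype).range = P.map (QuotientGroup.mk' A) := by
          rw [MonoidHom.range_comp, Subgroup.range_subtype]
        rw [← h4, Subgroup.index_ker, h5, h4, mul_comm] at h3
        exact h3
      have h6 : 1 < Nat.card (A.subgroupOf P) := by
        rw [Nat.card_congr (Subgroup.subgroupOfEquivOfLe hAP).toEquiv, hA]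
        exact Nat.one_lt_pow (by omega) hp.out.one_lt
      have h7 : 0 < Nat.card (P.map (QuotientGroup.mk' A)) := Nat.card_pos
      rw [← h2]
      nlinarith
    omega

/-- **normal `p`-subgroups of the quotient** -/
theorem ok_op {U : Type} [Group U] [Finite U] (P : Subgroup U) [P.Normal] (hP : IsPGroup p P) :
    Ok p red U ↔ Ok p red (U ⧸ P) :=
  ⟨ok_quot red (QuotientGroup.mk' P) (QuotientGroup.mk'_surjective P),
    ok_op_aux red _ U P hP le_rfl⟩

/-- the largest normal `p`-subgroup -/
theorem exists_op (p : ℕ) (U : Type) [Group U] [Finite U] :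
    ∃ P : Subgroup U, ∃ _ : P.Normal, IsPGroup p P ∧
      ∀ Q : Subgroup (U ⧸ P), Q.Normal → IsPGroup p Q → Q = ⊥ := by
  let S : Set (Subgroup U) := {P | P.Normal ∧ IsPGroup p P}
  have hS : S.Finite := Set.toFinite S
  obtain ⟨P, ⟨h1, h2⟩, h3⟩ := hS.exists_maximal ⟨⊥, inferInstance, IsPGroup.of_bot⟩
  refine ⟨P, h1, h2, fun Q hQ hQp => ?_⟩
  have h4 : (Q.comap (QuotientGroup.mk' P)).Normal := hQ.comap _
  have h5 : IsPGroup p (Q.comap (QuotientGroup.mk' P)) := by
    refine hQp.comap_of_ker_isPGroup _ ?_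
    rw [QuotientGroup.ker_mk']
    exact h2
  have h6 : P ≤ Q.comap (QuotientGroup.mk' P) := by
    intro x hx
    have h : QuotientGroup.mk' P x = 1 := (QuotientGroup.eq_one_iff x).2 hx
    rw [Subgroup.mem_comap, h]
    exact Q.one_mem
  have h7 := h3 ⟨h4, h5⟩ h6
  rw [eq_bot_iff]
  intro y hy
  obtain ⟨x, rfl⟩ := QuotientGroup.mk'_surjective P y
  have h8 : x ∈ P := h7 hy
  exact (QuotientGroup.eq_one_iff x).2 h8

end Run7.h759.DI
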