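import Pool.Agent.Run7.h759.DI.TG6

/-!
# Restriction to the preimage of a subgroup of the quotient (helper759)
-/

set_option autoImplicit false
set_option linter.unusedSectionVars false

open scoped Classical BigOperators

noncomputable section

namespace Run7.h759.DI

open Pool.Agent.Y63.NV (IsClassFun centralValue IsBlock numDzBlock)
open Pool.Agent.Helper884.IC (IsIrrChar)
open Pool.Agent.Y63.AWC (irr_comp)
open Pool.Agent.Y63.KR (IsPChain chainStabilizer)
open Pool.Agent.R674.Tw (Fixes)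
open Pool.Agent.Q99.AS (Dft Dft_congr)
open Pool.Agent.Q90.WR (card_transport)

variable {E U W : Type} [Group E] [Group U] [Group W] {q : E →* U} {G : Subgroup E}
  {V : Subgroup U} {q₀ : ↥(V.comap q) →* W} {j : W →* U}
  {F : Type} [Field F] (red : integralClosure ℤ ℂ →+* F)

theorem inq_sub (hq : q.ker = G) (hj : Function.Injective j) (hr : j.range = V)
    (h : ∀ x, j (q₀ x) = q x) (H : Subgroup E) (χ : ↥(G ⊓ H) → ℂ) :
    Inq q₀ ⊤ (H.comap (V.comap q).subtype) (fun x => χ ((emb_sub hq V).eqv H x)) ↔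
      Inq q V H χ := by
  constructor
  · intro hi u hu
    rw [← hr] at hu
    obtain ⟨w, rfl⟩ := hu
    obtain ⟨e, he, h1, h2⟩ := hi w (Subgroup.mem_top _)
    refine ⟨e, he, by rw [← h, h1], fun n n' hn => ?_⟩
    have h3 := h2 (((emb_sub hq V).eqv H).symm n) (((emb_sub hq V).eqv H).symm n') (by
      apply Subtype.ext
      have e1 : ∀ m : ↥(G ⊓ H), ((((emb_sub hq V).eqv H).symm m : ↥(G.subgroupOf (V.comap q) ⊓
          H.comap (V.comap q).subtype)) : ↥(V.comap q)) = (⟨m, G_le V hq (Subgroup.mem_inf.1 m.2).1⟩ :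
            ↥(V.comap q)) := by
        intro m
        apply Subtype.ext
        have h4 := (emb_sub hq V).eqv_coe H (((emb_sub hq V).eqv H).symm m)
        rw [MulEquiv.apply_symm_apply] at h4
        exact h4.symm
      rw [e1, Subgroup.coe_mul, Subgroup.coe_mul, e1]
      exact hn)
    simp only [MulEquiv.apply_symm_apply] at h3
    exact h3
  · intro hi w _
    obtain ⟨e, he, h1, h2⟩ := hi (j w) (by rw [← hr]; exact ⟨w, rfl⟩)
    have hV : e ∈ V.comap q := by
      rw [Subgroup.mem_comap, h1, ← hr]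
      exact ⟨w, rfl⟩
    refine ⟨⟨e, hV⟩, he, hj (by rw [h, ← h1]), fun n n' hn => ?_⟩
    refine h2 _ _ ?_
    rw [Emb.eqv_coe, Emb.eqv_coe]
    exact congrArg Subtype.val hn

theorem xc_sub [Finite E] (hq : q.ker = G) (hj : Function.Injective j) (hr : j.range = V)
    (h : ∀ x, j (q₀ x) = q x) (p : ℕ) {z : E → F} (hz : ∀ g x, z (g * x * g⁻¹) = z x) (c₀ : F)
    (D : ℕ) (H : Subgroup E) :
    xc p red (G.subgroupOf (V.comap q)) q₀ ⊤ (fun x => z x) c₀ D
      (H.comap (V.comap q).subtype) = xc p red G q V z c₀ D H := by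
  have _i1 : Fintype ↥(G ⊓ H) := Fintype.ofFinite _
  unfold xc xk
  congr 1
  rw [card_transport ((emb_sub hq V).eqv H).symm (fun χ => Dft p D χ ∧ Inq q V H χ ∧
    centralValue red χ (fun x => z x) = c₀)]
  refine Nat.card_congr (Equiv.subtypeEquivRight fun χ => ?_)
  refine and_congr_right fun hχ => ?_
  rw [Dft_congr]
  have e1 : (fun x => (fun y => χ (((emb_sub hq V).eqv H).symm y)) ((emb_sub hq V).eqv H x)) = χ := by
    funext x
    simp only [MulEquiv.symm_apply_apply]
  have h1 := inq_sub hq hj hr h H (fun y => χ (((emb_sub hq V).eqv H).symm y))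
  rw [e1] at h1
  rw [h1]
  refine and_congr_right fun _ => and_congr_right fun _ => ?_
  have hχ' := irr_comp ((emb_sub hq V).eqv H).symm hχ
  have h2 := Pool.Agent.Y286.NV.centralValue_comp red ((emb_sub hq V).eqv H)
    (fun y => χ (((emb_sub hq V).eqv H).symm y)) (Pool.Agent.Y286.NV.irr_class hχ')
    (fun x => z x) (fun g x => hz g x)
  rw [e1] at h2
  rw [← h2]
  rfl

theorem al_sub' [Finite E] {p : ℕ} [Fact p.Prime] (hq : q.ker = G) (hj : Function.Injective j)
    (hr : j.range = V) (h : ∀ x, j (q₀ x) = q x) {z : E → F}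
    (hz : ∀ g x, z (g * x * g⁻¹) = z x) (c₀ : F) (D : ℕ) :
    al p G (fun S => (Nat.card ↥(G ⊓ S) : ℤ) * xc p red G q V z c₀ D S) =
      al p (G.subgroupOf (V.comap q)) (fun S => (Nat.card ↥(G.subgroupOf (V.comap q) ⊓ S) : ℤ) *
        xc p red (G.subgroupOf (V.comap q)) q₀ ⊤ (fun x => z x) c₀ D S) := by
  have hGn : G.Normal := G_normal hq
  have hn : (G.subgroupOf (V.comap q)).Normal := inferInstance
  symm
  refine al_map (emb_sub hq V) _ _ fun H => ?_
  rw [(emb_sub hq V).card H, xc_sub red hq hj hr h p hz c₀ D H]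

end Run7.h759.DI
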