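import Pool.Agent.Run7.h759.DI.PS9
import Pool.Agent.Run7.h759.DI.Dual

/-!
# Real-valued characters and the parity of the sums (helper759)
-/

set_option autoImplicit false
set_option linter.unusedSectionVars false

open scoped Classical BigOperators

noncomputable section

namespace Run7.h759.DI

open Pool.Agent.Y63.NV (IsClassFun centralValue IsBlock numDzBlock)
open Pool.Agent.Helper884.IC (IsIrrChar Irr mem_Irr irr_finite)
open Pool.Agent.Y63.AWC (IsIrreducibleCharacter)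
open Pool.Agent.Y63.KR (IsPChain chainStabilizer conjSub mem_chainStabilizer conjSub_eq_iff
  conj_mem_conjSub chainStabilizer_conj)
open Pool.Agent.R674.Tw (Fixes GCh NG NEbar mem_NEbar IndB invSum)
open Pool.Agent.Q99.AS (Dft Dft_congr)
open Pool.Agent.Q90.WR (card_transport irr_comp card_filter_eq)
open Pool.Agent.N237.DI (Inr Blk kS)
open Pool.Agent.N20.DI (HasDef radSum)

/-- involutions -/
theorem card_inv {α : Type} [Finite α] {i : α → α} (hi : ∀ x, i (i x) = x) :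
    (2 : ℤ) ∣ (Nat.card α : ℤ) - Nat.card {x : α // i x = x} := by
  have _i : Fintype α := Fintype.ofFinite α
  have h2 : Fact (Nat.Prime 2) := Nat.fact_prime_two
  let f : Function.End α := i
  have hf : f ^ 2 ^ 1 = 1 := by
    rw [pow_one, sq]
    funext x
    exact hi x
  have h := Equiv.Perm.card_fixedPoints_modEq (f := f) hf
  have h1 := (Nat.modEq_iff_dvd).1 h.symm
  rw [Nat.card_eq_fintype_card]
  have h3 : Nat.card {x : α // i x = x} = Fintype.card f.fixedPoints := by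
    rw [Nat.card_eq_fintype_card]
    exact Fintype.card_congr (Equiv.refl _)
  rw [h3]
  exact_mod_cast h1

section cnt

variable {F : Type} [Field F] {E U : Type} [Group E] [Finite E] [Group U]

/-- the number of the real-valued characters in `xc` -/
def xr (p : ℕ) (red : integralClosure ℤ ℂ →+* F) (G : Subgroup E) (q : E →* U) (V : Subgroup U)
    (z : E → F) (c₀ : F) (D : ℕ) (S : Subgroup E) : ℤ :=
  (Nat.card {χ : ↥(G ⊓ S) → ℂ // IsIrrChar χ ∧ (Dft p D χ ∧ Inq q V S χ ∧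
    centralValue red χ (fun x => z x) = c₀ ∧ dl χ = χ)} : ℤ)

/-- the number of the real-valued characters in `kS` -/
def kr (p : ℕ) (red : integralClosure ℤ ℂ →+* F) (G : Subgroup E) [G.Normal] (B : (G → F) → F)
    (d : ℕ) (W : Subgroup (E ⧸ G)) (S : Subgroup E) : ℤ :=
  (Nat.card {χ : ↥(G ⊓ S) → ℂ // IsIrrChar χ ∧ (Dft p d χ ∧ Inr G W S χ ∧ Blk red G B S χ ∧
    dl χ = χ)} : ℤ)

/-- The number of the real-valued `ψ ∈ Irr(N_G(C))` of defect `d` with `b(ψ)^G = B` and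
`N_Ē(C, ψ) = Ē`. -/
def kdReal (p : ℕ) (red : integralClosure ℤ ℂ →+* F) (G : Subgroup E) [G.Normal]
    (B : (G → F) → F) (d : ℕ) (σ : Set (Subgroup E)) : ℕ :=
  Nat.card {χ : NG G σ → ℂ // IsIrreducibleCharacter χ ∧ HasDef p d χ ∧ NEbar G σ χ = ⊤ ∧
    IndB red G σ χ B ∧ ∀ x, χ x⁻¹ = χ x}

variable (p : ℕ) (red : integralClosure ℤ ℂ →+* F)

theorem kdReal_kr (G : Subgroup E) [G.Normal] (B : (G → F) → F) (d : ℕ)
    (σ : Set (Subgroup E)) :
    (kdReal p red G B d σ : ℤ) = kr p red G B d ⊤ (chainStabilizer σ) := by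
  unfold kdReal kr
  congr 1
  refine Nat.card_congr (Equiv.subtypeEquivRight fun χ => ?_)
  have h1 : NEbar G σ χ = ⊤ ↔ Inr G ⊤ (chainStabilizer σ) χ := by
    rw [← top_le_iff]
    constructor
    · intro h u hu
      exact (mem_NEbar G u σ χ).1 (h hu)
    · intro h u hu
      exact (mem_NEbar G u σ χ).2 (h u hu)
  constructor
  · rintro ⟨a, b, c, e, f⟩
    exact ⟨a, b, h1.1 c, e, funext f⟩
  · rintro ⟨a, b, c, e, f⟩
    exact ⟨a, b, h1.2 c, e, fun x => congrFun f x⟩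

/-- parity -/
theorem xc_xr (G : Subgroup E) (q : E →* U) (V : Subgroup U) {z : E → F}
    (hz : ∀ g x, z (g * x * g⁻¹) = z x) (hr : ∀ x, z x⁻¹ = z x) (c₀ : F) (D : ℕ)
    (S : Subgroup E) : (2 : ℤ) ∣ xc p red G q V z c₀ D S - xr p red G q V z c₀ D S := by
  have _i : Fintype ↥(G ⊓ S) := Fintype.ofFinite _
  have hfin : Finite {χ : ↥(G ⊓ S) → ℂ // IsIrrChar χ ∧ (Dft p D χ ∧ Inq q V S χ ∧
      centralValue red χ (fun x => z x) = c₀)} :=
    Set.Finite.to_subtype ((irr_finite (G := ↥(G ⊓ S))).subset fun χ h => h.1)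
  have hd : ∀ χ : ↥(G ⊓ S) → ℂ, (IsIrrChar χ ∧ (Dft p D χ ∧ Inq q V S χ ∧
      centralValue red χ (fun x => z x) = c₀)) → (IsIrrChar (dl χ) ∧ (Dft p D (dl χ) ∧
        Inq q V S (dl χ) ∧ centralValue red (dl χ) (fun x => z x) = c₀)) := by
    rintro χ ⟨a, b, c, d⟩
    refine ⟨dl_irr a, dl_dft.2 b, ?_, ?_⟩
    · intro u hu
      obtain ⟨e, he, h1, h2⟩ := c u hu
      exact ⟨e, he, h1, dl_fixes.2 h2⟩
    · have h2 := cv_dl red (irr_cl a) (z := fun x : ↥(G ⊓ S) => z x) (fun g x => hz g x)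
      have h3 : (fun x : ↥(G ⊓ S) => z ((x⁻¹ : ↥(G ⊓ S)) : E)) = fun x : ↥(G ⊓ S) => z x := by
        funext x
        exact hr x
      rw [← d, ← h2]
      exact congrArg _ h3.symm
  have h := card_inv (i := fun χ : {χ : ↥(G ⊓ S) → ℂ // IsIrrChar χ ∧ (Dft p D χ ∧ Inq q V S χ ∧
      centralValue red χ (fun x => z x) = c₀)} =>
        (⟨dl χ.1, hd χ.1 χ.2⟩ : {χ : ↥(G ⊓ S) → ℂ // IsIrrChar χ ∧ (Dft p D χ ∧ Inq q V S χ ∧
      centralValue red χ (fun x => z x) = c₀)})) (fun χ => Subtype.ext (dl_dl χ.1))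
  have h1 : xr p red G q V z c₀ D S = Nat.card {x : {χ : ↥(G ⊓ S) → ℂ // IsIrrChar χ ∧
      (Dft p D χ ∧ Inq q V S χ ∧ centralValue red χ (fun x => z x) = c₀)} //
        (⟨dl x.1, hd x.1 x.2⟩ : {χ : ↥(G ⊓ S) → ℂ // IsIrrChar χ ∧ (Dft p D χ ∧ Inq q V S χ ∧
      centralValue red χ (fun x => z x) = c₀)}) = x} := by
    unfold xr
    congr 1
    exact Nat.card_congr
      { toFun := fun χ => ⟨⟨χ.1, χ.2.1, χ.2.2.1, χ.2.2.2.1, χ.2.2.2.2.1⟩,
          Subtype.ext χ.2.2.2.2.2⟩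
        invFun := fun x => ⟨x.1.1, x.1.2.1, x.1.2.2.1, x.1.2.2.2.1, x.1.2.2.2.2,
          congrArg Subtype.val x.2⟩
        left_inv := fun x => rfl
        right_inv := fun x => rfl }
  rw [h1]
  exact h

end cnt

end Run7.h759.DI
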