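import Pool.Agent.Run7.h759.DI.PS10

/-!
# Parity of the sums from the parity of the numbers of real-valued characters (helper759)
-/

set_option autoImplicit false
set_option linter.unusedSectionVars false

open scoped Classical BigOperators

noncomputable section

namespace Run7.h759.DI

open Pool.Agent.Y63.NV (IsClassFun centralValue IsBlock numDzBlock)
open Pool.Agent.Helper884.IC (IsIrrChar Irr mem_Irr irr_finite)
open Pool.Agent.Y63.AWC (IsIrreducibleCharacter)
open Pool.Agent.Y63.KR (IsPChain chainStabilizer conjSub mem_chainStabilizer conjSub_eq_iff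
  conj_mem_conjSub chainStabilizer_conj)
open Pool.Agent.R674.Tw (Fixes GCh NG NEbar mem_NEbar IndB invSum)
open Pool.Agent.Q99.AS (Dft Dft_congr)
open Pool.Agent.Q90.WR (card_transport irr_comp card_filter_eq)
open Pool.Agent.N237.DI (Inr Blk kS)
open Pool.Agent.N20.DI (HasDef radSum)

variable {F : Type} [Field F] {E U : Type} [Group E] [Finite E] [Group U]
  (p : ℕ) (red : integralClosure ℤ ℂ →+* F)

theorem xr_conj {q : E →* U} {G : Subgroup E} (hq : q.ker = G) {V : Subgroup U} {e : E}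
    (hV : ∀ u ∈ V, (q e)⁻¹ * u * q e ∈ V ∧ q e * u * (q e)⁻¹ ∈ V) {z : E → F}
    (hz : ∀ g x, z (g * x * g⁻¹) = z x) (c₀ : F) (D : ℕ) (S : Subgroup E) :
    xr p red G q V z c₀ D (conjSub e S) = xr p red G q V z c₀ D S := by
  have _i : Fintype ↥(G ⊓ S) := Fintype.ofFinite _
  have _i2 : Fintype ↥(G ⊓ conjSub e S) := Fintype.ofFinite _
  unfold xr
  congr 1
  rw [card_transport (cc hq e S) (fun χ => Dft p D χ ∧ Inq q V S χ ∧
    centralValue red χ (fun x => z x) = c₀ ∧ dl χ = χ)]
  refine Nat.card_congr (Equiv.subtypeEquivRight fun χ => ?_)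
  refine and_congr_right fun hχ => ?_
  rw [Dft_congr, inq_cc hq hV]
  refine and_congr_right fun _ => and_congr_right fun _ => ?_
  have h2 := Pool.Agent.Y286.NV.centralValue_comp red (cc hq e S) χ
    (Pool.Agent.Y286.NV.irr_class hχ) (fun x => z x) (fun g x => hz g x)
  have h3 : (fun x : ↥(G ⊓ S) => z (cc hq e S x)) = fun x : ↥(G ⊓ S) => z x := by
    funext x
    rw [cc_coe, hz]
  rw [← h2, h3]
  refine and_congr_right fun _ => ?_
  constructor
  · intro h
    funext x
    change χ (cc hq e S x⁻¹) = χ (cc hq e S x)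
    rw [map_inv]
    exact congrFun h _
  · intro h
    funext y
    obtain ⟨x, rfl⟩ := (cc hq e S).surjective y
    have h4 := congrFun h x
    change χ (cc hq e S x⁻¹) = χ (cc hq e S x) at h4
    rw [map_inv] at h4
    exact h4

theorem kr_conj (G : Subgroup E) [G.Normal] (B : (G → F) → F) (d : ℕ) {g : E} (hg : g ∈ G)
    (S : Subgroup E) : kr p red G B d ⊤ (conjSub g S) = kr p red G B d ⊤ S := by
  have _i : Fintype ↥(G ⊓ S) := Fintype.ofFinite _
  have _i2 : Fintype ↥(G ⊓ conjSub g S) := Fintype.ofFinite _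
  have hq : (QuotientGroup.mk' G).ker = G := QuotientGroup.ker_mk' G
  unfold kr
  congr 1
  rw [card_transport (cc hq g S) (fun χ => Dft p d χ ∧ Inr G ⊤ S χ ∧ Blk red G B S χ ∧
    dl χ = χ)]
  refine Nat.card_congr (Equiv.subtypeEquivRight fun χ => ?_)
  refine and_congr_right fun hχ => ?_
  rw [Dft_congr]
  have h0 : Inr G ⊤ (conjSub g S) χ ↔ Inr G ⊤ S (fun x => χ (cc hq g S x)) :=
    inq_cc (q := QuotientGroup.mk' G) hq (V := ⊤)
      (fun u _ => ⟨Subgroup.mem_top _, Subgroup.mem_top _⟩) S χ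
  rw [h0]
  refine and_congr_right fun _ => and_congr_right fun _ => and_congr ?_ ?_
  · refine forall_congr' fun f => imp_congr_right fun hf => ?_
    have h2 := Pool.Agent.Y286.NV.centralValue_comp red (cc hq g S) χ
      (Pool.Agent.Y286.NV.irr_class hχ)
      (fun x : ↥(G ⊓ conjSub g S) => f ⟨x, (Subgroup.mem_inf.1 x.2).1⟩)
      (fun a x => hf ⟨a, (Subgroup.mem_inf.1 a.2).1⟩ ⟨x, (Subgroup.mem_inf.1 x.2).1⟩)
    have h3 : (fun x : ↥(G ⊓ S) => f ⟨cc hq g S x, (Subgroup.mem_inf.1 (cc hq g S x).2).1⟩) =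
        fun x : ↥(G ⊓ S) => f ⟨x, (Subgroup.mem_inf.1 x.2).1⟩ := by
      funext x
      exact hf ⟨g, hg⟩ ⟨x, (Subgroup.mem_inf.1 x.2).1⟩
    rw [← h2]
    rw [h3]
  · constructor
    · intro h
      funext x
      change χ (cc hq g S x⁻¹) = χ (cc hq g S x)
      rw [map_inv]
      exact congrFun h _
    · intro h
      funext y
      obtain ⟨x, rfl⟩ := (cc hq g S).surjective y
      have h4 := congrFun h x
      change χ (cc hq g S x⁻¹) = χ (cc hq g S x) at h4
      rw [map_inv] at h4
      exact h4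

/-- the sum over radical chains -/
theorem rad_kr {p : ℕ} [Fact p.Prime] (red : integralClosure ℤ ℂ →+* F) (G : Subgroup E)
    [G.Normal] (B : (G → F) → F) (d : ℕ) :
    radSum p G (fun σ => (kdReal p red G B d σ : ℤ)) =
      invSum p G (fun σ => kr p red G B d ⊤ (chainStabilizer σ)) := by
  have h : (fun σ => (kdReal p red G B d σ : ℤ)) =
      fun σ => kr p red G B d ⊤ (chainStabilizer σ) := funext fun σ => kdReal_kr p red G B d σ
  rw [h]
  exact (Pool.Agent.N199.DIRADS.RADS Pool.Agent.N344.DI.RAD p E G _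
    (fun g hg σ => by rw [chainStabilizer_conj, kr_conj p red G B d hg])
    (fun σ τ h => by rw [h])).symm

/-- the parity of the numbers of real-valued characters -/
def RealEven (p : ℕ) (red : integralClosure ℤ ℂ →+* F) (U : Type) [Group U] : Prop :=
  ∀ (E : Type) [Group E] [Finite E] (G : Subgroup E) [G.Normal], Nonempty (E ⧸ G ≃* U) →
    (∀ P : Subgroup G, P.Normal → IsPGroup p P → P = ⊥) →
    ∀ B : (G → F) → F, IsBlock B → numDzBlock p red B = 0 → ∀ d : ℕ,
      Even (radSum p G (fun σ => (kdReal p red G B d σ : ℤ)))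

/-- signed sums of multiples -/
theorem al_dvd {p : ℕ} {G : Subgroup E} {m : ℤ} (f : Subgroup E → ℤ)
    (hf : ∀ g ∈ G, ∀ S, f (conjSub g S) = f S) (h : ∀ S, m ∣ f S) :
    m * (Nat.card G : ℤ) ∣ al p G (fun S => (Nat.card ↥(G ⊓ S) : ℤ) * f S) := by
  rw [← al_inv (p := p) (G := G) f (fun g hg σ => by rw [chainStabilizer_conj, hf g hg]), mul_comm]
  refine mul_dvd_mul_left _ ?_
  unfold invSum
  have _i : Fintype (Quotient (Pool.Agent.R674.Tw.gchSetoid p G)) := Fintype.ofFinite _
  rw [finsum_eq_sum_of_fintype]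
  exact Finset.dvd_sum fun c _ => (h _).mul_left _

end Run7.h759.DI
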