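import Pool.Agent.Run7.h759.DI.PS11

/-!
# The start of the induction (helper759)
-/

set_option autoImplicit false
set_option linter.unusedSectionVars false

open scoped Classical BigOperators

noncomputable section

namespace Run7.h759.DI

open Pool.Agent.Y63.NV (IsClassFun centralValue IsBlock numDzBlock)
open Pool.Agent.Helper884.IC (IsIrrChar Irr mem_Irr irr_finite)
open Pool.Agent.Y63.AWC (IsIrreducibleCharacter)
open Pool.Agent.Y63.KR (IsPChain chainStabilizer conjSub mem_chainStabilizer conjSub_eq_iff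
  conj_mem_conjSub chainStabilizer_conj)
open Pool.Agent.R674.Tw (Fixes GCh NG NEbar mem_NEbar IndB invSum)
open Pool.Agent.Q99.AS (Dft Dft_congr)
open Pool.Agent.Q90.WR (card_transport irr_comp card_filter_eq)
open Pool.Agent.N237.DI (Inr Blk kS)
open Pool.Agent.N20.DI (HasDef radSum)

variable {F : Type} [Field F] {E U : Type} [Group E] [Finite E] [Group U] {q : E →* U}
  {G : Subgroup E} {p : ℕ} [hp : Fact p.Prime] [IsAlgClosed F] [CharP F p]
  {red : integralClosure ℤ ℂ →+* F}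

omit [Finite E] in
theorem Vb_top (hs : Function.Surjective q) [G.Normal] : Vb q G ⊤ = ⊤ := by
  rw [eq_top_iff]
  intro x _
  obtain ⟨e, rfl⟩ := QuotientGroup.mk_surjective x
  exact ⟨e, Subgroup.mem_top _, rfl⟩

/-- a normal `p`-subgroup of `G` -/
theorem al_op [G.Normal] (hO : ¬ ∀ P : Subgroup G, P.Normal → IsPGroup p P → P = ⊥)
    (w : Subgroup E → ℤ) : al p G w = 0 := by
  push Not at hO
  obtain ⟨P, hP, hp, hne⟩ := hO
  have hR : ∀ x ∈ G, conjSub x (P.map G.subtype) = P.map G.subtype := by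
    intro x hx
    rw [conjSub_eq_iff, Subgroup.mem_normalizer_iff]
    intro y
    constructor
    · rintro ⟨w, hw, rfl⟩
      exact ⟨⟨x, hx⟩ * w * ⟨x, hx⟩⁻¹, hP.conj_mem w hw _, rfl⟩
    · rintro ⟨w, hw, e⟩
      refine ⟨⟨x, hx⟩⁻¹ * w * ⟨x, hx⟩, ?_, ?_⟩
      · have := hP.conj_mem w hw ⟨x, hx⟩⁻¹
        rwa [inv_inv] at this
      · have e' : (w : E) = x * y * x⁻¹ := e
        change x⁻¹ * (w : E) * x = y
        rw [e']
        group
  obtain ⟨Q, hRQ, hQ⟩ := Pool.Agent.N344.DI.exists_op G (P.map G.subtype) (hp.map _)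
    (Subgroup.map_subtype_le P) hR
  have hQn := Pool.Agent.N344.DI.op_conj ⊤ G Q
    (fun x _ => Pool.Agent.R674.Ce.conjSub_normal x G) hQ
  have hQN : Q.Normal := by
    refine ⟨fun n hn g => ?_⟩
    have h1 := hQn g (Subgroup.mem_top _)
    rw [← h1]
    exact conj_mem_conjSub hn
  refine al_normal hQ.2.1 ?_ hQ.1 _
  rintro rfl
  apply hne
  rw [le_bot_iff, Subgroup.map_eq_bot_iff_of_injective _ G.subtype_injective] at hRQ
  exact hRQ

/-- the real-valued characters -/
theorem xr_dvd (hq : q.ker = G) (hs : Function.Surjective q) [hGn : G.Normal]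
    (hR : ∀ B : (G → F) → F, IsBlock B → numDzBlock p red B = 0 → ∀ d : ℕ,
      Even (radSum p G (fun σ => (kdReal p red G B d σ : ℤ))))
    {z : E → F} (hz : ∀ g x, z (g * x * g⁻¹) = z x) (c₀ : F) {D : ℕ} (hD : 1 ≤ D) :
    (2 : ℤ) * Nat.card G ∣ al p G (fun S => (Nat.card ↥(G ⊓ S) : ℤ) *
      xr p red G q ⊤ z c₀ D S) := by
  -- the functionals
  let T : Type := Σ σ : GCh p G, {χ : ↥(G ⊓ chainStabilizer σ.1) → ℂ // IsIrrChar χ}
  have hf : ∀ σ : GCh p G, Finite {χ : ↥(G ⊓ chainStabilizer σ.1) → ℂ // IsIrrChar χ} := by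
    intro σ
    have _i : Fintype ↥(G ⊓ chainStabilizer σ.1) := Fintype.ofFinite _
    exact Set.Finite.to_subtype irr_finite
  have hT : Finite T := inferInstance
  let β : T → ({f : G → F // IsClassFun f} → F) := fun t => bt red G _ t.2.1
  let I : Finset ({f : G → F // IsClassFun f} → F) := (Set.finite_range β).toFinset
  have hI : ∀ b, b ∈ I ↔ ∃ t, β t = b := fun b => by
    rw [Set.Finite.mem_toFinset]
    rfl
  -- the blocks
  have hbl : ∀ b : {f : G → F // IsClassFun f} → F, ∃ B : (G → F) → F, b ∈ I → IsBlock B ∧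
      ∀ f : {f : G → F // IsClassFun f}, B f.1 = b f := by
    intro b
    by_cases hb : b ∈ I
    · obtain ⟨⟨σ, χ⟩, rfl⟩ := (hI b).1 hb
      exact ⟨_, fun _ => ⟨Pool.Agent.N286.DI.BLK p F red E G σ.1 σ.2.1 σ.2.2 χ.1 χ.2,
        fun f => rfl⟩⟩
    · exact ⟨fun _ => 0, fun h => absurd h hb⟩
  choose Bb hBb using hbl
  have hzc : IsClassFun (fun x : G => z x) := fun g x => hz g x
  let zz : {f : G → F // IsClassFun f} := ⟨fun x : G => z x, hzc⟩
  have e1 : al p G (fun S => (Nat.card ↥(G ⊓ S) : ℤ) * xr p red G q ⊤ z c₀ D S) =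
      al p G (fun S => ∑ b ∈ I.filter (fun b => b zz = c₀),
        (Nat.card ↥(G ⊓ S) : ℤ) * kr p red G (Bb b) D ⊤ S) := by
    refine al_congr fun σ h1 h2 => ?_
    rw [← Finset.mul_sum]
    congr 1
    have _i : Fintype ↥(G ⊓ chainStabilizer σ) := Fintype.ofFinite _
    unfold xr
    rw [card_filter_eq]
    have e2 : ∀ b ∈ I.filter (fun b => b zz = c₀),
        kr p red G (Bb b) D ⊤ (chainStabilizer σ) =
        ((((Irr ↥(G ⊓ chainStabilizer σ)).filter fun χ => Dft p D χ ∧
          Inq q ⊤ (chainStabilizer σ) χ ∧ centralValue red χ (fun x => z x) = c₀ ∧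
            dl χ = χ).filter fun χ => bt red G _ χ = b).card : ℤ) := by
      intro b hb
      obtain ⟨hb, hbz⟩ := Finset.mem_filter.1 hb
      unfold kr
      rw [card_filter_eq, Finset.filter_filter]
      congr 2
      refine Finset.filter_congr fun χ hχ => ?_
      rw [mem_Irr] at hχ
      have h4 := inr_inq hq ⊤ hs (chainStabilizer σ) χ
      rw [Vb_top hs] at h4
      rw [h4]
      have h3 : Blk red G (Bb b) (chainStabilizer σ) χ ↔ bt red G _ χ = b := by
        constructor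
        · intro h4
          funext f
          rw [← (hBb b hb).2 f]
          exact h4 f.1 f.2
        · rintro rfl f hf
          exact ((hBb _ hb).2 ⟨f, hf⟩).symm
      rw [h3]
      constructor
      · rintro ⟨a, b', c, d⟩
        refine ⟨⟨a, b', ?_, d⟩, c⟩
        rw [← hbz, ← c]
        rfl
      · rintro ⟨⟨a, b', c, e⟩, d⟩
        exact ⟨a, b', d, e⟩
    rw [Finset.sum_congr rfl e2]
    norm_cast
    rw [← Finset.card_eq_sum_card_fiberwise (f := fun χ => bt red G (chainStabilizer σ) χ)]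
    intro χ hχ
    obtain ⟨h3, h4⟩ := Finset.mem_filter.1 hχ
    refine Finset.mem_coe.2 (Finset.mem_filter.2 ⟨?_, ?_⟩)
    · rw [hI]
      exact ⟨⟨⟨σ, h1, h2⟩, ⟨χ, mem_Irr.1 h3⟩⟩, rfl⟩
    · exact h4.2.2.1
  rw [e1, al_sum]
  refine Finset.dvd_sum fun b hb => ?_
  obtain ⟨hb, -⟩ := Finset.mem_filter.1 hb
  by_cases hdz : numDzBlock p red (Bb b) = 0
  · have h3 := hR (Bb b) (hBb b hb).1 hdz D
    rw [rad_kr] at h3
    have h4 := al_inv (p := p) (G := G) (kr p red G (Bb b) D ⊤)
      (fun g hg σ => by rw [chainStabilizer_conj, kr_conj p red G (Bb b) D hg])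
    rw [← h4, mul_comm]
    exact mul_dvd_mul_left _ (even_iff_two_dvd.1 h3)
  · rw [al_zero fun σ h1 h2 => ?_]
    · exact dvd_zero _
    · have h3 := kS_dz red hdz hD ⊤ h1 h2
      have h4 : kr p red G (Bb b) D ⊤ (chainStabilizer σ) = 0 := by
        unfold kS at h3
        unfold kr
        have _i : Fintype ↥(G ⊓ chainStabilizer σ) := Fintype.ofFinite _
        have hfin : Finite {χ : ↥(G ⊓ chainStabilizer σ) → ℂ // IsIrrChar χ ∧ (Dft p D χ ∧
            Inr G ⊤ (chainStabilizer σ) χ ∧ Blk red G (Bb b) (chainStabilizer σ) χ)} :=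
          Set.Finite.to_subtype ((irr_finite (G := ↥(G ⊓ chainStabilizer σ))).subset
            fun χ h => h.1)
        have h5 := Nat.cast_eq_zero.1 h3
        rw [Nat.card_eq_zero] at h5
        have h6 := h5.resolve_right (fun h => h.false)
        have : IsEmpty {χ : ↥(G ⊓ chainStabilizer σ) → ℂ // IsIrrChar χ ∧ (Dft p D χ ∧
            Inr G ⊤ (chainStabilizer σ) χ ∧ Blk red G (Bb b) (chainStabilizer σ) χ ∧
              dl χ = χ)} :=
          ⟨fun χ => h6.false ⟨χ.1, χ.2.1, χ.2.2.1, χ.2.2.2.1, χ.2.2.2.2.1⟩⟩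
        rw [Nat.card_of_isEmpty]
        rfl
      rw [h4, mul_zero]

/-- one extension -/
theorem hb_one_of (hs : Function.Surjective q)
    (hR : (∀ P : Subgroup q.ker, P.Normal → IsPGroup p P → P = ⊥) →
      ∀ B : (q.ker → F) → F, IsBlock B → numDzBlock p red B = 0 → ∀ d : ℕ,
      Even (radSum p q.ker (fun σ => (kdReal p red q.ker B d σ : ℤ))))
    {z : E → F} (hz : ∀ g x, z (g * x * g⁻¹) = z x) (hr : ∀ x, z x⁻¹ = z x) {D : ℕ}
    (hD : 1 ≤ D) : (2 : ℤ) * Nat.card q.ker ∣ XX p red q z D := by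
  by_cases hO : ∀ P : Subgroup q.ker, P.Normal → IsPGroup p P → P = ⊥
  · have h1 := xr_dvd (red := red) (rfl : q.ker = _) hs (hR hO) hz 1 hD
    have h2 : (2 : ℤ) * Nat.card q.ker ∣ al p q.ker (fun S => (Nat.card ↥(q.ker ⊓ S) : ℤ) *
        (xc p red q.ker q ⊤ z 1 D S - xr p red q.ker q ⊤ z 1 D S)) := by
      refine al_dvd _ ?_ ?_
      · intro g hg S
        have h3 := xr_conj p red (rfl : q.ker = _) (V := ⊤) (e := g)
          (fun u _ => ⟨Subgroup.mem_top _, Subgroup.mem_top _⟩) hz 1 D S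
        have h4 := xc_conj red (rfl : q.ker = _) p (V := ⊤) (e := g)
          (fun u _ => ⟨Subgroup.mem_top _, Subgroup.mem_top _⟩) hz 1 D S
        rw [← Nat.card_congr (cc (rfl : q.ker = q.ker) g S).toEquiv] at h4
        have h5 := mul_left_cancel₀ (by exact_mod_cast Nat.card_pos.ne') h4
        rw [h3, h5]
      · intro S
        exact xc_xr p red q.ker q ⊤ hz hr 1 D S
    have h3 : XX p red q z D = al p q.ker (fun S => (Nat.card ↥(q.ker ⊓ S) : ℤ) *
        (xc p red q.ker q ⊤ z 1 D S - xr p red q.ker q ⊤ z 1 D S)) +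
        al p q.ker (fun S => (Nat.card ↥(q.ker ⊓ S) : ℤ) * xr p red q.ker q ⊤ z 1 D S) := by
      unfold XX
      rw [← al_add]
      exact al_congr fun σ _ _ => by ring
    rw [h3]
    exact dvd_add h2 h1
  · unfold XX
    rw [al_op hO]
    exact dvd_zero _

/-- **the start** -/
theorem hb_one (hR : RealEven p red U) : Hb p red 1 U := by
  intro E _ _ q hs z hz _ hr _ D hD
  rw [pow_one]
  exact hb_one_of hs (hR E q.ker ⟨QuotientGroup.quotientKerEquivOfSurjective q hs⟩) hz hr hD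

end Run7.h759.DI
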