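import Pool.Agent.Run7.h759.DI.PS12
import Pool.Agent.Run7.h759.DI.Alt

/-!
# Real class functions (helper759)
-/

set_option autoImplicit false
set_option linter.unusedSectionVars false

open scoped Classical BigOperators

noncomputable section

namespace Run7.h759.DI

open Pool.Agent.Y63.NV (IsClassFun centralValue IsBlock numDzBlock conv)
open Pool.Agent.Helper884.IC (IsIrrChar Irr mem_Irr irr_finite)
open Pool.Agent.Y63.KR (IsPChain chainStabilizer)
open Pool.Agent.Q99.AS (Dft)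
open Pool.Agent.N20.DI (InvBl kdGe radSum)
open Pool.Agent.Q90.WR (card_filter_eq)

variable {F : Type} [Field F] {E : Type} [Group E] [Finite E]

/-- the product of `z` and its contragredient -/
def cz (G : Subgroup E) (z : E → F) : E → F := fun x => ∑ᶠ y : G, z y * z (x⁻¹ * y)

/-- the union of `z` and its contragredient -/
def zr (G : Subgroup E) (z : E → F) : E → F := fun x => z x + z x⁻¹ - cz G z x

variable {G : Subgroup E} {z : E → F}

theorem cz_conj [hGn : G.Normal] (hz : ∀ g x, z (g * x * g⁻¹) = z x) (g x : E) :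
    cz G z (g * x * g⁻¹) = cz G z x := by
  unfold cz
  symm
  refine finsum_eq_of_bijective (MulAut.conjNormal g) (MulAut.conjNormal g).bijective fun y => ?_
  have h1 : ((MulAut.conjNormal g y : G) : E) = g * y * g⁻¹ := rfl
  rw [h1, hz]
  congr 1
  have h2 : (g * x * g⁻¹)⁻¹ * (g * y * g⁻¹) = g * (x⁻¹ * y) * g⁻¹ := by group
  rw [h2, hz]

theorem cz_supp (hz0 : ∀ x, x ∉ G → z x = 0) {x : E} (hx : x ∉ G) : cz G z x = 0 := by
  unfold cz
  refine (finsum_congr fun y => ?_).trans finsum_zero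
  rw [hz0 (x⁻¹ * y), mul_zero]
  intro h
  apply hx
  have h1 := G.mul_mem h (G.inv_mem y.2)
  rw [mul_inv_cancel_right] at h1
  exact (G.inv_mem_iff).1 h1

theorem cz_real (hz0 : ∀ x, x ∉ G → z x = 0) (x : E) : cz G z x⁻¹ = cz G z x := by
  by_cases hx : x ∈ G
  · unfold cz
    refine finsum_eq_of_bijective (fun y : G => (⟨x, hx⟩ : G) * y)
      (Group.mulLeft_bijective (⟨x, hx⟩ : G)) fun y => ?_
    change z y * z (x⁻¹⁻¹ * y) = z (x * y) * z (x⁻¹ * (x * y))
    rw [inv_inv, inv_mul_cancel_left, mul_comm]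
  · rw [cz_supp hz0 hx, cz_supp hz0 fun h => hx ((G.inv_mem_iff).1 h)]

theorem zr_conj [G.Normal] (hz : ∀ g x, z (g * x * g⁻¹) = z x) (g x : E) :
    zr G z (g * x * g⁻¹) = zr G z x := by
  unfold zr
  rw [cz_conj hz, hz]
  have h1 : (g * x * g⁻¹)⁻¹ = g * x⁻¹ * g⁻¹ := by group
  rw [h1, hz]

theorem zr_supp (hz0 : ∀ x, x ∉ G → z x = 0) {x : E} (hx : x ∉ G) : zr G z x = 0 := by
  unfold zr
  rw [cz_supp hz0 hx, hz0 x hx, hz0 x⁻¹ fun h => hx ((G.inv_mem_iff).1 h)]
  ring

theorem zr_real (hz0 : ∀ x, x ∉ G → z x = 0) (x : E) : zr G z x⁻¹ = zr G z x := by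
  unfold zr
  rw [cz_real hz0, inv_inv]
  ring

/-- the values of the blocks -/
theorem blk_zr [G.Normal] (hz : ∀ g x, z (g * x * g⁻¹) = z x) {b : (G → F) → F} (hb : IsBlock b) :
    b (fun x : G => zr G z x) = b (fun x : G => z x) + b (fun x : G => z (x : E)⁻¹) -
      b (fun x : G => z x) * b (fun x : G => z (x : E)⁻¹) := by
  have c1 : IsClassFun (fun x : G => z x) := fun g x => hz g x
  have c2 : IsClassFun (fun x : G => z (x : E)⁻¹) := fun g x => by
    have h1 : ((g * x * g⁻¹ : G) : E)⁻¹ = g * (x : E)⁻¹ * (g : E)⁻¹ := by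
      rw [Subgroup.coe_mul, Subgroup.coe_mul, Subgroup.coe_inv]
      group
    simp only [h1, hz]
  have c3 : IsClassFun (conv (fun x : G => z x) (fun x : G => z (x : E)⁻¹)) :=
    Pool.Agent.N342.DI1.cl_conv c1 c2
  have h1 : (fun x : G => zr G z x) = ((fun x : G => z x) + (fun x : G => z (x : E)⁻¹)) +
      (-1 : F) • conv (fun x : G => z x) (fun x : G => z (x : E)⁻¹) := by
    funext x
    have h2 : cz G z x = conv (fun x : G => z x) (fun x : G => z (x : E)⁻¹) x := by
      unfold cz conv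
      refine finsum_congr fun y => ?_
      congr 2
      rw [Subgroup.coe_mul, Subgroup.coe_inv]
      group
    unfold zr
    rw [h2, Pi.add_apply, Pi.add_apply, Pi.smul_apply, smul_eq_mul]
    ring
  have c4 : IsClassFun ((fun x : G => z x) + (fun x : G => z (x : E)⁻¹)) :=
    Pool.Agent.N342.DI1.cl_add c1 c2
  have c5 : IsClassFun ((-1 : F) • conv (fun x : G => z x) (fun x : G => z (x : E)⁻¹)) :=
    fun g x => by
      rw [Pi.smul_apply, Pi.smul_apply, c3]
  rw [h1, hb.add _ _ c4 c5, hb.add _ _ c1 c2, hb.smul _ _ c3, hb.mul _ _ c1 c2]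
  ring

section vals

variable {p : ℕ} [hp : Fact p.Prime] [IsAlgClosed F] [CharP F p]
  (red : integralClosure ℤ ℂ →+* F)

omit hp [IsAlgClosed F] [CharP F p] in
theorem cv_in (hz : ∀ g x, z (g * x * g⁻¹) = z x) {K : Subgroup E} {ψ : K → ℂ}
    (hψ : IsIrrChar ψ) : centralValue red ψ (fun x => z (x : E)⁻¹) =
      centralValue red (dl ψ) (fun x => z x) := by
  have h4 := cv_dl red (dl_class (irr_cl hψ)) (z := fun x : K => z x) (fun g x => hz g x)
  rw [dl_dl] at h4
  exact h4

/-- the central values -/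
theorem cv_zr [G.Normal] (hz : ∀ g x, z (g * x * g⁻¹) = z x) {σ : Set (Subgroup E)}
    (h1 : IsPChain p σ) (h2 : ∀ P ∈ σ, P ≤ G) {ψ : ↥(G ⊓ chainStabilizer σ) → ℂ}
    (hψ : IsIrrChar ψ) :
    centralValue red ψ (fun x => zr G z x) = centralValue red ψ (fun x => z x) +
      centralValue red ψ (fun x => z (x : E)⁻¹) -
        centralValue red ψ (fun x => z x) * centralValue red ψ (fun x => z (x : E)⁻¹) :=
  blk_zr hz (Pool.Agent.N286.DI.BLK p F red E G σ h1 h2 ψ hψ)

include red hp in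
theorem vg_inv [G.Normal] (hz : ∀ g x, z (g * x * g⁻¹) = z x) (hv : Vg G z) :
    Vg G (fun x => z x⁻¹) := by
  refine Vg.of_irr red (fun g x => ?_) fun χ hχ => ?_
  · have h1 : (g * x * g⁻¹)⁻¹ = g * x⁻¹ * g⁻¹ := by group
    simp only [h1, hz]
  · rw [cv_in red hz hχ]
    exact hv _ (Pool.Agent.Y930.NV.cvh F red G (dl χ) (dl_irr hχ))

include red hp in
theorem vg_zr [G.Normal] (hz : ∀ g x, z (g * x * g⁻¹) = z x) (hv : Vg G z) :
    Vg G (zr G z) := by
  intro b hb
  rw [blk_zr hz hb]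
  have h1 := hv b hb
  have h2 := vg_inv (p := p) red hz hv b hb
  rcases h1 with h1 | h1 <;> rcases h2 with h2 | h2 <;> rw [h1, h2] <;> simp

/-- **from real class functions to blocks** -/
theorem xc_zr [hGn : G.Normal] {U : Type} [Group U] (q : E →* U) {B : (G → F) → F} {z : E → F}
    (hz : ZB p red G B z) (D : ℕ) {σ : Set (Subgroup E)}
    (h1 : IsPChain p σ) (h2 : ∀ P ∈ σ, P ≤ G) :
    xc p red G q ⊤ (zr G z) 1 D (chainStabilizer σ) =
      (if B (fun x : G => z (x : E)⁻¹) = 1 then 1 else 2) *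
        xc p red G q ⊤ z 1 D (chainStabilizer σ) := by
  have _i : Fintype ↥(G ⊓ chainStabilizer σ) := Fintype.ofFinite _
  have hzc := hz.inv
  have c2 : IsClassFun (fun x : G => z (x : E)⁻¹) := fun g x => by
    have h1 : ((g * x * g⁻¹ : G) : E)⁻¹ = g * (x : E)⁻¹ * (g : E)⁻¹ := by
      rw [Subgroup.coe_mul, Subgroup.coe_mul, Subgroup.coe_inv]
      group
    simp only [h1, hzc]
  have k1 : ∀ ψ : ↥(G ⊓ chainStabilizer σ) → ℂ, IsIrrChar ψ →
      centralValue red ψ (fun x => z x) = 1 →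
      centralValue red ψ (fun x => z (x : E)⁻¹) = B (fun x : G => z (x : E)⁻¹) := by
    intro ψ hψ h
    exact hz.sep _ (Pool.Agent.N286.DI.BLK p F red E G σ h1 h2 ψ hψ) h _ c2
  have k2 : ∀ ψ : ↥(G ⊓ chainStabilizer σ) → ℂ, IsIrrChar ψ →
      centralValue red ψ (fun x => z (x : E)⁻¹) = 1 →
      centralValue red ψ (fun x => z x) = B (fun x : G => z (x : E)⁻¹) := by
    intro ψ hψ h
    rw [cv_in red hzc hψ] at h
    have h3 := k1 (dl ψ) (dl_irr hψ) h
    rw [cv_in red hzc (dl_irr hψ), dl_dl] at h3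
    exact h3
  have hv := (hz.z01 : Z01 p red G z) σ h1 h2
  have hv' := z01_inv (p := p) (red := red) hzc (hz.z01) σ h1 h2
  have k3 : ∀ ψ : ↥(G ⊓ chainStabilizer σ) → ℂ, IsIrrChar ψ →
      (centralValue red ψ (fun x => zr G z x) = 1 ↔
        (centralValue red ψ (fun x => z x) = 1 ∨
          centralValue red ψ (fun x => z (x : E)⁻¹) = 1)) := by
    intro ψ hψ
    rw [cv_zr red hzc h1 h2 hψ]
    rcases hv ψ hψ with h | h <;> rcases hv' ψ hψ with h' | h' <;> rw [h, h'] <;> simp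
  by_cases hη : B (fun x : G => z (x : E)⁻¹) = 1
  · rw [if_pos hη, one_mul]
    unfold xc xk
    congr 1
    refine Nat.card_congr (Equiv.subtypeEquivRight fun ψ => ?_)
    refine and_congr_right fun hψ => and_congr_right fun _ => and_congr_right fun _ => ?_
    rw [k3 ψ hψ]
    constructor
    · rintro (h | h)
      · exact h
      · rw [k2 ψ hψ h, hη]
    · exact fun h => Or.inl h
  · rw [if_neg hη]
    have e1 : xc p red G q ⊤ (zr G z) 1 D (chainStabilizer σ) =
        xc p red G q ⊤ z 1 D (chainStabilizer σ) +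
          xc p red G q ⊤ (fun x => z x⁻¹) 1 D (chainStabilizer σ) := by
      unfold xc xk
      rw [card_filter_eq, card_filter_eq, card_filter_eq]
      norm_cast
      rw [← Finset.card_union_of_disjoint]
      · congr 1
        ext ψ
        simp only [Finset.mem_union, Finset.mem_filter, mem_Irr]
        constructor
        · rintro ⟨hψ, b, c, d⟩
          rcases (k3 ψ hψ).1 d with h | h
          · exact Or.inl ⟨hψ, b, c, h⟩
          · exact Or.inr ⟨hψ, b, c, h⟩
        · rintro (⟨hψ, b, c, d⟩ | ⟨hψ, b, c, d⟩)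
          · exact ⟨hψ, b, c, (k3 ψ hψ).2 (Or.inl d)⟩
          · exact ⟨hψ, b, c, (k3 ψ hψ).2 (Or.inr d)⟩
      · rw [Finset.disjoint_left]
        intro ψ ha hb
        simp only [Finset.mem_filter, mem_Irr] at ha hb
        apply hη
        rw [← k1 ψ ha.1 ha.2.2.2]
        exact hb.2.2.2
    rw [e1, xc_dl p red ⊤ hzc 1 D (chainStabilizer σ)]
    ring

/-- **perfect groups** -/
theorem ok_perf {U : Type} [Group U] [Finite U] (hU : commutator U = ⊤)
    (h : Hb p red 1 U) : Ok p red U := by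
  intro E _ _ G hGn hi hO B hB hB0 d
  obtain ⟨i⟩ := hi
  let q : E →* U := i.toMonoidHom.comp (QuotientGroup.mk' G)
  have hs : Function.Surjective q := surj_iso G i
  have hq : q.ker = G := ker_iso G i
  by_cases hI : InvBl G ⊤ B
  swap
  · have h0 : (fun σ => (kdGe p red G B d ⊤ σ : ℤ)) = fun _ => 0 :=
      funext fun σ => kd_zero red hB hI d σ
    rw [h0]
    unfold radSum
    rw [finsum_congr fun c => mul_zero _]
    exact finsum_zero
  obtain ⟨z, h1, h2, h3, h4, h5⟩ := z01 hB hI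
  have hz : ZB p red G B z := ⟨h1, h2, h3, h4, h5⟩
  refine rad_of_al red hq hs hz ?_
  rcases Nat.eq_zero_or_pos d with rfl | hd
  · refine al_zero fun σ k1 k2 => ?_
    have h6 : xc p red G q ⊤ z 1 0 (chainStabilizer σ) = 0 := by
      unfold xc xk
      have : IsEmpty {χ : ↥(G ⊓ chainStabilizer σ) → ℂ // IsIrrChar χ ∧
          (Dft p 0 χ ∧ Inq q ⊤ (chainStabilizer σ) χ ∧
            centralValue red χ (fun x => z x) = 1)} :=
        ⟨fun χ => hz.no_dz hB0 k1 k2 χ.2.1 χ.2.2.1 χ.2.2.2.2⟩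
      rw [Nat.card_of_isEmpty]
      rfl
    rw [h6, mul_zero]
  · have h6 : XX p red q (zr G z) d = 0 := by
      refine XX_zero hU h q hs (zr_conj h1) (fun x hx => zr_supp h2 (by
        rw [← hq]
        exact hx)) (zr_real h2) ?_ hd
      rw [hq]
      exact vg_zr (p := p) red h1 h4
    unfold XX at h6
    rw [hq] at h6
    have h7 : al p G (fun S => (Nat.card ↥(G ⊓ S) : ℤ) * xc p red G q ⊤ (zr G z) 1 d S) =
        (if B (fun x : G => z (x : E)⁻¹) = 1 then 1 else 2) *
          al p G (fun S => (Nat.card ↥(G ⊓ S) : ℤ) * xc p red G q ⊤ z 1 d S) := by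
      rw [← al_mul]
      refine al_congr fun σ k1 k2 => ?_
      rw [xc_zr red q hz d k1 k2]
      ring
    rw [h7] at h6
    refine (mul_eq_zero.1 h6).resolve_left ?_
    split_ifs <;> norm_num

/-- **all quotients** -/
theorem ok_real {N : Set ℕ} (hN : N.Infinite)
    (h : ∀ n ∈ N, RealEven p red (alternatingGroup (Fin n))) (V : Type) [Group V] [Finite V] :
    Ok p red V := by
  refine ok_alt red (N := {n | n ∈ N ∧ 5 ≤ n}) ?_ (fun n hn => ok_perf red (alt_perfect hn.2)
    (hb_one (h n hn.1))) V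
  intro hf
  apply hN
  refine (hf.union (Set.finite_lt_nat 5)).subset fun n hn => ?_
  by_cases h5 : 5 ≤ n
  · exact Or.inl ⟨hn, h5⟩
  · exact Or.inr (Nat.lt_of_not_le h5)

end vals

end Run7.h759.DI
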