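import Pool.Agent.Run7.h759.DI.PS13

/-!
# Parity of the numbers of real-valued characters from Dade's conjecture (helper759)
-/

set_option autoImplicit false
set_option linter.unusedSectionVars false

open scoped Classical BigOperators

noncomputable section

namespace Run7.h759.DI

open Pool.Agent.Y63.NV (IsClassFun centralValue IsBlock numDzBlock)
open Pool.Agent.Helper884.IC (IsIrrChar Irr mem_Irr irr_finite)
open Pool.Agent.Y63.KR (IsPChain chainStabilizer)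
open Pool.Agent.R674.Tw (invSum)
open Pool.Agent.Q99.AS (Dft)
open Pool.Agent.N20.DI (InvBl kdGe radSum)
open Pool.Agent.N237.DI (Inr Blk kS rad_kS)

variable {F : Type} [Field F] {E : Type} [Group E] [Finite E]
  (p : ℕ) (red : integralClosure ℤ ℂ →+* F)

theorem kS_kr (G : Subgroup E) [G.Normal] (B : (G → F) → F) (d : ℕ) :
    (∀ S, (2 : ℤ) ∣ kr p red G B d ⊤ S) ∨
      ∀ S, (2 : ℤ) ∣ kS p red G B d ⊤ S - kr p red G B d ⊤ S := by
  have hcv : ∀ (S : Subgroup E) (f : G → F), IsClassFun f → ∀ χ : ↥(G ⊓ S) → ℂ, IsIrrChar χ →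
      centralValue red (dl χ) (fun x => f ⟨x, (Subgroup.mem_inf.1 x.2).1⟩) =
        centralValue red χ (fun x => f (⟨x, (Subgroup.mem_inf.1 x.2).1⟩ : G)⁻¹) := by
    intro S f hf χ hχ
    have h2 := cv_dl red (irr_cl (dl_irr hχ))
      (z := fun x : ↥(G ⊓ S) => f ⟨x, (Subgroup.mem_inf.1 x.2).1⟩)
      (fun g x => hf ⟨g, (Subgroup.mem_inf.1 g.2).1⟩ ⟨x, (Subgroup.mem_inf.1 x.2).1⟩)
    rw [dl_dl] at h2
    exact h2.symm
  have hci : ∀ f : G → F, IsClassFun f → IsClassFun (fun x : G => f x⁻¹) := by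
    intro f hf g x
    have h1 : (g * x * g⁻¹)⁻¹ = g * x⁻¹ * g⁻¹ := by group
    simp only [h1]
    exact hf g x⁻¹
  by_cases hB : ∀ f : G → F, IsClassFun f → B (fun x => f x⁻¹) = B f
  · right
    intro S
    have _i : Fintype ↥(G ⊓ S) := Fintype.ofFinite _
    have hfin : Finite {χ : ↥(G ⊓ S) → ℂ // IsIrrChar χ ∧ (Dft p d χ ∧ Inr G ⊤ S χ ∧
        Blk red G B S χ)} :=
      Set.Finite.to_subtype ((irr_finite (G := ↥(G ⊓ S))).subset fun χ h => h.1)
    have hd : ∀ χ : ↥(G ⊓ S) → ℂ, (IsIrrChar χ ∧ (Dft p d χ ∧ Inr G ⊤ S χ ∧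
        Blk red G B S χ)) → (IsIrrChar (dl χ) ∧ (Dft p d (dl χ) ∧
          Inr G ⊤ S (dl χ) ∧ Blk red G B S (dl χ))) := by
      rintro χ ⟨a, b, c, e⟩
      refine ⟨dl_irr a, dl_dft.2 b, ?_, ?_⟩
      · intro u hu
        obtain ⟨e, he, h1, h2⟩ := c u hu
        exact ⟨e, he, h1, dl_fixes.2 h2⟩
      · intro f hf
        rw [hcv S f hf χ a, ← hB f hf]
        exact e _ (hci f hf)
    have h := card_inv (i := fun χ : {χ : ↥(G ⊓ S) → ℂ // IsIrrChar χ ∧ (Dft p d χ ∧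
        Inr G ⊤ S χ ∧ Blk red G B S χ)} =>
          (⟨dl χ.1, hd χ.1 χ.2⟩ : {χ : ↥(G ⊓ S) → ℂ // IsIrrChar χ ∧ (Dft p d χ ∧
        Inr G ⊤ S χ ∧ Blk red G B S χ)})) (fun χ => Subtype.ext (dl_dl χ.1))
    have h1 : kr p red G B d ⊤ S = Nat.card {x : {χ : ↥(G ⊓ S) → ℂ // IsIrrChar χ ∧
        (Dft p d χ ∧ Inr G ⊤ S χ ∧ Blk red G B S χ)} //
          (⟨dl x.1, hd x.1 x.2⟩ : {χ : ↥(G ⊓ S) → ℂ // IsIrrChar χ ∧ (Dft p d χ ∧
        Inr G ⊤ S χ ∧ Blk red G B S χ)}) = x} := by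
      unfold kr
      congr 1
      exact Nat.card_congr
        { toFun := fun χ => ⟨⟨χ.1, χ.2.1, χ.2.2.1, χ.2.2.2.1, χ.2.2.2.2.1⟩,
            Subtype.ext χ.2.2.2.2.2⟩
          invFun := fun x => ⟨x.1.1, x.1.2.1, x.1.2.2.1, x.1.2.2.2.1, x.1.2.2.2.2,
            congrArg Subtype.val x.2⟩
          left_inv := fun x => rfl
          right_inv := fun x => rfl }
    rw [h1]
    exact h
  · left
    intro S
    unfold kr
    have : IsEmpty {χ : ↥(G ⊓ S) → ℂ // IsIrrChar χ ∧ (Dft p d χ ∧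
        Inr G ⊤ S χ ∧ Blk red G B S χ ∧ dl χ = χ)} := by
      refine ⟨?_⟩
      rintro ⟨χ, a, -, -, e, h⟩
      apply hB
      intro f hf
      rw [← e f hf, ← e _ (hci f hf), ← hcv S f hf χ a, h]
    rw [Nat.card_of_isEmpty]
    exact dvd_zero _

/-- the converse -/
theorem real_of_ok {p : ℕ} [hp : Fact p.Prime] {red : integralClosure ℤ ℂ →+* F} {U : Type}
    [Group U] (h : Ok p red U) : RealEven p red U := by
  intro E _ _ G _ hi hO B hB hB0 d
  have h1 := h E G hi hO B hB hB0 d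
  rw [rad_kS] at h1
  rw [rad_kr, even_iff_two_dvd]
  unfold invSum at h1 ⊢
  have _i : Fintype (Quotient (Pool.Agent.R674.Tw.gchSetoid p G)) := Fintype.ofFinite _
  rw [finsum_eq_sum_of_fintype] at h1 ⊢
  rcases kS_kr p red G B d with h2 | h2
  · exact Finset.dvd_sum fun c _ => (h2 _).mul_left _
  · rw [← dvd_neg, ← zero_sub, ← h1, ← Finset.sum_sub_distrib]
    refine Finset.dvd_sum fun c _ => ?_
    rw [← mul_sub]
    exact (h2 _).mul_left _

end Run7.h759.DI
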