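import Pool.Agent.Run7.h759.DI.PS14

/-!
# Reduction to split extensions (helper759)
-/

set_option autoImplicit false
set_option linter.unusedSectionVars false

open scoped Classical BigOperators

noncomputable section

namespace Run7.h759.DI

open Pool.Agent.Y63.NV (IsClassFun centralValue IsBlock numDzBlock)
open Pool.Agent.Helper884.IC (IsIrrChar Irr mem_Irr irr_finite)
open Pool.Agent.Y63.AWC (irr_comp)
open Pool.Agent.Y63.KR (IsPChain chainStabilizer)
open Pool.Agent.R674.Tw (Fixes)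
open Pool.Agent.Q99.AS (Dft Dft_congr)
open Pool.Agent.Q90.WR (card_transport)

section fq

variable {E U : Type} [Group E] [Group U] (q : E →* U)

/-- the fibre square -/
def FQ : Subgroup (E × E) where
  carrier := {x | q x.1 = q x.2}
  one_mem' := rfl
  mul_mem' := by
    intro x y hx hy
    change q (x.1 * y.1) = q (x.2 * y.2)
    rw [map_mul, map_mul]
    exact congrArg₂ (· * ·) hx hy
  inv_mem' := by
    intro x hx
    change q x.1⁻¹ = q x.2⁻¹
    rw [map_inv, map_inv]
    exact congrArg (·⁻¹) hx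

/-- the first component -/
def fa : ↥(FQ q) →* E := (MonoidHom.fst E E).comp (FQ q).subtype

/-- the second component -/
def fb : ↥(FQ q) →* E := (MonoidHom.snd E E).comp (FQ q).subtype

theorem fq_ext {x y : ↥(FQ q)} (h1 : fa q x = fa q y) (h2 : fb q x = fb q y) : x = y :=
  Subtype.ext (Prod.ext h1 h2)

theorem fq_eq (x : ↥(FQ q)) : q (fa q x) = q (fb q x) := x.2

/-- the diagonal -/
def fd : E →* ↥(FQ q) where
  toFun e := ⟨(e, e), rfl⟩
  map_one' := rfl
  map_mul' _ _ := rfl

theorem fb_fd (e : E) : fb q (fd q e) = e := rfl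

theorem fb_surj : Function.Surjective (fb q) := fun e => ⟨fd q e, rfl⟩

theorem emb_fq : Emb (fa q) (fb q).ker q.ker := by
  refine ⟨?_, ?_⟩
  · ext y
    constructor
    · rintro ⟨x, hx, rfl⟩
      rw [MonoidHom.mem_ker, fq_eq]
      have h1 : fb q x = 1 := hx
      rw [h1, map_one]
    · intro hy
      refine ⟨⟨(y, 1), ?_⟩, ?_, rfl⟩
      · change q y = q 1
        rw [map_one]
        exact hy
      · exact MonoidHom.mem_ker.2 rfl
  · intro x hx h
    refine fq_ext q ?_ ?_
    · rw [h, map_one]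
    · rw [map_one]
      exact hx

variable {F : Type} [Field F]

/-- the class function -/
def zfq (z : E → F) : ↥(FQ q) → F := fun x => if fb q x = 1 then z (fa q x) else 0

variable {q}

theorem zfq_conj {z : E → F} (hz : ∀ g x, z (g * x * g⁻¹) = z x) (g x : ↥(FQ q)) :
    zfq q z (g * x * g⁻¹) = zfq q z x := by
  unfold zfq
  by_cases h : fb q x = 1
  · rw [if_pos h, if_pos (by rw [map_mul, map_mul, map_inv, h, mul_one, mul_inv_cancel]),
      map_mul, map_mul, map_inv, hz]
  · rw [if_neg h, if_neg]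
    intro h1
    apply h
    rw [map_mul, map_mul, map_inv] at h1
    have h2 : fb q x = (fb q g)⁻¹ * (fb q g * fb q x * (fb q g)⁻¹) * fb q g := by group
    rw [h2, h1, mul_one, inv_mul_cancel]

theorem zfq_supp {z : E → F} {x : ↥(FQ q)} (hx : x ∉ (fb q).ker) : zfq q z x = 0 :=
  if_neg fun h => hx (MonoidHom.mem_ker.2 h)

theorem zfq_real {z : E → F} (hr : ∀ x, z x⁻¹ = z x) (x : ↥(FQ q)) :
    zfq q z x⁻¹ = zfq q z x := by
  unfold zfq
  by_cases h : fb q x = 1
  · rw [if_pos h, if_pos (by rw [map_inv, h, inv_one]), map_inv, hr]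
  · rw [if_neg h, if_neg (by rw [map_inv, inv_eq_one]; exact h)]

theorem zfq_ker {z : E → F} {x : ↥(FQ q)} (hx : x ∈ (fb q).ker) : zfq q z x = z (fa q x) :=
  if_pos hx

theorem inq_fq (hs : Function.Surjective q) (H : Subgroup E) (χ : ↥(q.ker ⊓ H) → ℂ) :
    Inq (fb q) ⊤ (H.comap (fa q)) (fun x => χ ((emb_fq q).eqv H x)) ↔ Inq q ⊤ H χ := by
  constructor
  · intro h u _
    obtain ⟨e, rfl⟩ := hs u
    obtain ⟨x, hx, h1, h2⟩ := h e (Subgroup.mem_top _)
    refine ⟨fa q x, hx, by rw [fq_eq, h1], fun n n' hn => ?_⟩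
    have h3 := h2 (((emb_fq q).eqv H).symm n) (((emb_fq q).eqv H).symm n') (by
      have e1 : ∀ m : ↥(q.ker ⊓ H), fa q ((((emb_fq q).eqv H).symm m :
          ↥((fb q).ker ⊓ H.comap (fa q))) : ↥(FQ q)) = m := by
        intro m
        rw [← Emb.eqv_coe (emb_fq q) H, MulEquiv.apply_symm_apply]
      have e2 : ∀ m : ↥((fb q).ker ⊓ H.comap (fa q)), fb q (m : ↥(FQ q)) = 1 :=
        fun m => MonoidHom.mem_ker.1 (Subgroup.mem_inf.1 m.2).1
      refine fq_ext q ?_ ?_
      · rw [map_mul, map_mul, map_inv, e1, e1, hn]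
      · rw [map_mul, map_mul, map_inv, e2, e2, mul_one, mul_inv_cancel])
    simp only [MulEquiv.apply_symm_apply] at h3
    exact h3
  · intro h e _
    obtain ⟨a, ha, h1, h2⟩ := h (q e) (Subgroup.mem_top _)
    refine ⟨⟨(a, e), h1⟩, ha, rfl, fun n n' hn => ?_⟩
    refine h2 _ _ ?_
    rw [Emb.eqv_coe, Emb.eqv_coe, hn, map_mul, map_mul, map_inv]
    rfl

variable (red : integralClosure ℤ ℂ →+* F)

theorem xc_fq [Finite E] (hs : Function.Surjective q) (p : ℕ) {z : E → F}
    (hz : ∀ g x, z (g * x * g⁻¹) = z x) (c₀ : F) (D : ℕ) (H : Subgroup E) :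
    xc p red (fb q).ker (fb q) ⊤ (zfq q z) c₀ D (H.comap (fa q)) =
      xc p red q.ker q ⊤ z c₀ D H := by
  have _i1 : Fintype ↥(q.ker ⊓ H) := Fintype.ofFinite _
  unfold xc xk
  congr 1
  rw [card_transport ((emb_fq q).eqv H).symm (fun χ => Dft p D χ ∧ Inq q ⊤ H χ ∧
    centralValue red χ (fun x => z x) = c₀)]
  refine Nat.card_congr (Equiv.subtypeEquivRight fun χ => ?_)
  refine and_congr_right fun hχ => ?_
  rw [Dft_congr]
  have e1 : (fun x => (fun y => χ (((emb_fq q).eqv H).symm y)) ((emb_fq q).eqv H x)) = χ := by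
    funext x
    simp only [MulEquiv.symm_apply_apply]
  have h1 := inq_fq hs H (fun y => χ (((emb_fq q).eqv H).symm y))
  rw [e1] at h1
  rw [h1]
  refine and_congr_right fun _ => and_congr_right fun _ => ?_
  have hχ' := irr_comp ((emb_fq q).eqv H).symm hχ
  have h2 := Pool.Agent.Y286.NV.centralValue_comp red ((emb_fq q).eqv H)
    (fun y => χ (((emb_fq q).eqv H).symm y)) (Pool.Agent.Y286.NV.irr_class hχ')
    (fun x => z x) (fun g x => hz g x)
  rw [e1] at h2
  rw [← h2]
  have h3 : (fun x : ↥((fb q).ker ⊓ H.comap (fa q)) => zfq q z x) =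
      fun x => z ((emb_fq q).eqv H x) := by
    funext x
    rw [zfq_ker (Subgroup.mem_inf.1 x.2).1, Emb.eqv_coe]
  rw [h3]

theorem XX_fq [Finite E] {p : ℕ} [Fact p.Prime] (hs : Function.Surjective q) {z : E → F}
    (hz : ∀ g x, z (g * x * g⁻¹) = z x) (D : ℕ) :
    XX p red (fb q) (zfq q z) D = XX p red q z D := by
  unfold XX
  refine al_map (emb_fq q) _ _ fun H => ?_
  rw [(emb_fq q).card H, xc_fq red hs p hz]

include red in
theorem vg_fq [Finite E] {z : E → F}
    (hz : ∀ g x, z (g * x * g⁻¹) = z x) (hv : Vg q.ker z) : Vg (fb q).ker (zfq q z) := by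
  refine Vg.of_irr red (zfq_conj hz) fun χ hχ => ?_
  have hχ' : IsIrrChar (fun y => χ ((emb_fq q).e.symm y)) := irr_comp (emb_fq q).e.symm hχ
  have h2 := Pool.Agent.Y286.NV.centralValue_comp red (emb_fq q).e
    (fun y => χ ((emb_fq q).e.symm y)) (Pool.Agent.Y286.NV.irr_class hχ')
    (fun x => z x) (fun g x => hz g x)
  have e1 : (fun x => (fun y => χ ((emb_fq q).e.symm y)) ((emb_fq q).e x)) = χ := by
    funext x
    simp only [MulEquiv.symm_apply_apply]
  rw [e1] at h2
  have h3 : (fun x : ↥(fb q).ker => zfq q z x) = fun x => z ((emb_fq q).e x) := by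
    funext x
    rw [zfq_ker x.2, Emb.e_coe]
  rw [h3, h2]
  exact hv _ (Pool.Agent.Y930.NV.cvh F red q.ker _ hχ')

end fq

end Run7.h759.DI
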