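import Pool.Agent.Run7.h759.DI.PS15

/-!
# Semidirect products with alternating groups (helper759)
-/

set_option autoImplicit false
set_option linter.unusedSectionVars false

open scoped Classical BigOperators

noncomputable section

namespace Run7.h759.DI

open Pool.Agent.Y63.NV (IsClassFun centralValue IsBlock numDzBlock)
open Pool.Agent.Helper884.IC (IsIrrChar Irr mem_Irr irr_finite)
open Pool.Agent.N20.DI (radSum)

section sect

variable {E Γ T : Type} [Group E] [Group Γ] [MulAction Γ T] {V : Subgroup Γ} {q₀ : E →* V}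
  {s : T → Γ} (j : V →* E) (hj : ∀ v, q₀ (j v) = v)
  (hm : ∀ (g : Γ) (t : T), (s t)⁻¹ * g * s (g⁻¹ • t) ∈ V)

/-- the section of the tensor induced group -/
def TG.sec : Γ →* TG (V.subtype.comp q₀) s where
  toFun g := ⟨g, fun t => j ⟨_, hm g t⟩, fun t => by
    change ((q₀ (j _) : V) : Γ) = _
    rw [hj]⟩
  map_one' := by
    refine TG.ext' rfl fun t => ?_
    rw [TG.one_f]
    change j _ = 1
    rw [← map_one j]
    congr 1
    apply Subtype.ext
    change (s t)⁻¹ * 1 * s ((1 : Γ)⁻¹ • t) = 1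
    rw [inv_one, one_smul]
    group
  map_mul' g h := by
    refine TG.ext' rfl fun t => ?_
    rw [TG.mul_f]
    change j _ = j _ * j _
    rw [← map_mul]
    congr 1
    apply Subtype.ext
    change (s t)⁻¹ * (g * h) * s ((g * h)⁻¹ • t) =
      (s t)⁻¹ * g * s (g⁻¹ • t) * ((s (g⁻¹ • t))⁻¹ * h * s (h⁻¹ • g⁻¹ • t))
    rw [mul_inv_rev, mul_smul]
    group

theorem TG.qq_sec (g : Γ) : TG.qq (V.subtype.comp q₀) s (TG.sec j hj hm g) = g := rfl

end sect

theorem zT_real' {E Γ T : Type} [Group E] [Group Γ] [MulAction Γ T] [Fintype T] {q : E →* Γ}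
    {s : T → Γ} {F : Type} [Field F] {z : E → F} (hr : ∀ x, z x⁻¹ = z x) (x : TG q s) :
    zT q s z x⁻¹ = zT q s z x := by
  unfold zT
  by_cases h : x.g = 1
  · rw [if_pos h, if_pos (by rw [TG.inv_g, h, inv_one])]
    refine Finset.prod_congr rfl fun t _ => ?_
    rw [TG.inv_f, h, one_smul, hr]
  · rw [if_neg h, if_neg (by rw [TG.inv_g, inv_eq_one]; exact h)]

section

variable {F : Type} [Field F]

/-- the sums for split extensions are even -/
def HbS (p : ℕ) (red : integralClosure ℤ ℂ →+* F) (U : Type) [Group U] : Prop :=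
  ∀ (E : Type) [Group E] [Finite E] (q : E →* U) (j : U →* E), (∀ u, q (j u) = u) → ∀ z : E → F,
    (∀ g x, z (g * x * g⁻¹) = z x) → (∀ x, x ∉ q.ker → z x = 0) → (∀ x, z x⁻¹ = z x) →
    Vg q.ker z → ∀ D, 1 ≤ D → (2 : ℤ) * Nat.card q.ker ∣ XX p red q z D

/-- the parity of the numbers of real-valued characters, for split extensions -/
def RealEvenS (p : ℕ) (red : integralClosure ℤ ℂ →+* F) (U : Type) [Group U] : Prop :=
  ∀ (E : Type) [Group E] [Finite E] (G K : Subgroup E) [G.Normal], K ⊓ G = ⊥ → K ⊔ G = ⊤ →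
    Nonempty (K ≃* U) → (∀ P : Subgroup G, P.Normal → IsPGroup p P → P = ⊥) →
    ∀ B : (G → F) → F, IsBlock B → numDzBlock p red B = 0 → ∀ d : ℕ,
      Even (radSum p G (fun σ => (kdReal p red G B d σ : ℤ)))

variable {p : ℕ} [hp : Fact p.Prime] [IsAlgClosed F] [CharP F p]
  (red : integralClosure ℤ ℂ →+* F)

/-- tensor induction -/
theorem dvd_down {E Γ : Type} [Group E] [Group Γ] [Finite E] [Finite Γ] {V : Subgroup Γ}
    {q₀ : E →* V} {j : V →* E} (hj : ∀ v, q₀ (j v) = v) {z : E → F}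
    (hz : ∀ g x, z (g * x * g⁻¹) = z x) (hr : ∀ x, z x⁻¹ = z x)
    (hv : Vg q₀.ker z) (h : HbS p red Γ) {D : ℕ} (hD : 1 ≤ D) :
    (2 : ℤ) * Nat.card q₀.ker ∣ XX p red q₀ z D := by
  have hs₀ : Function.Surjective q₀ := fun v => ⟨j v, hj v⟩
  set q : E →* Γ := V.subtype.comp q₀ with hqd
  have hk : q.ker = q₀.ker := by
    ext x
    rw [MonoidHom.mem_ker, MonoidHom.mem_ker]
    exact ⟨fun h => Subtype.ext h, fun h => congrArg Subtype.val h⟩
  have _iT : Fintype (Γ ⧸ V) := Fintype.ofFinite _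
  let t₀ : Γ ⧸ V := ((1 : Γ) : Γ ⧸ V)
  let s : Γ ⧸ V → Γ := fun t => t.out
  have hs : ∀ t, s t • t₀ = t := by
    intro t
    change ((t.out * 1 : Γ) : Γ ⧸ V) = t
    rw [mul_one]
    exact Quotient.out_eq t
  have hr' : q.range = V := by
    ext u
    constructor
    · rintro ⟨x, rfl⟩
      exact (q₀ x).2
    · intro hu
      obtain ⟨x, hx⟩ := hs₀ ⟨u, hu⟩
      refine ⟨x, ?_⟩
      change ((q₀ x : V) : Γ) = u
      rw [hx]
  have hq : q.range = MulAction.stabilizer Γ t₀ := by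
    rw [hr']
    exact (MulAction.stabilizer_quotient V).symm
  have hm : ∀ (g : Γ) (t : Γ ⧸ V), (s t)⁻¹ * g * s (g⁻¹ • t) ∈ V := by
    intro g t
    have h0 : (s t)⁻¹ * g * s (g⁻¹ • t) ∈ q.range := by
      rw [hq, MulAction.mem_stabilizer_iff, mul_smul, mul_smul, hs, smul_inv_smul,
        inv_smul_eq_iff, hs]
    exact hr'.le h0
  have hT : 1 ≤ Nat.card (Γ ⧸ V) := Nat.card_pos
  have hT' : Nat.card (Γ ⧸ V) = Nat.card (Γ ⧸ V) - 1 + 1 :=
    (Nat.succ_pred_eq_of_pos Nat.card_pos).symm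
  have hv' : Vg q.ker z := by
    rw [hk]
    exact hv
  have h1 := al_xc_TG (p := p) red hs hq hz hv'.z01 D
  have h2 := h (TG q s) (TG.qq q s) (TG.sec j hj hm) (TG.qq_sec j hj hm) (zT q s z)
    (zT_conj hz) (fun x hx => zT_ker hx) (zT_real' hr) (vg_TG (p := p) red hz hv')
    (Nat.card (Γ ⧸ V) * D) (Nat.mul_pos hT hD)
  have h3 : Nat.card (TG.qq q s).ker = Nat.card q₀.ker ^ Nat.card (Γ ⧸ V) := by
    have k1 := Nat.card_congr (eK q s ⊤).toEquiv
    have k2 : (TG.qq q s).ker ⊓ TS q s ⊤ = (TG.qq q s).ker := by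
      ext x
      exact ⟨fun h => h.1, fun h => ⟨h, fun t => Subgroup.mem_top _⟩⟩
    rw [k2, Nat.card_fun, inf_top_eq, hk] at k1
    exact k1
  unfold XX at h2
  rw [h1, h3, hk] at h2
  have h4 : (2 : ℤ) * ((Nat.card q₀.ker ^ Nat.card (Γ ⧸ V) : ℕ) : ℤ) =
      (Nat.card q₀.ker : ℤ) ^ (Nat.card (Γ ⧸ V) - 1) * (2 * Nat.card q₀.ker) := by
    push_cast
    conv_lhs => rw [hT']
    ring
  rw [h4] at h2
  have h5 : (Nat.card q₀.ker : ℤ) ^ (Nat.card (Γ ⧸ V) - 1) ≠ 0 :=
    pow_ne_zero _ (by exact_mod_cast Nat.card_pos.ne')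
  have h6 := Int.dvd_of_mul_dvd_mul_left h5 h2
  unfold XX
  have h7 : al p q₀.ker (fun S => (Nat.card ↥(q₀.ker ⊓ S) : ℤ) *
        xc p red q₀.ker q₀ ⊤ z 1 D S) =
      al p q₀.ker (fun S => (Nat.card ↥(q₀.ker ⊓ S) : ℤ) *
        xc p red q₀.ker q q.range z 1 D S) := by
    refine al_congr fun σ _ _ => ?_
    rw [hqd, xc_range red hs₀]
  rw [h7]
  exact h6

/-- from split extensions with alternating quotients to all extensions -/
theorem hb_split {N : Set ℕ} (hN : N.Infinite)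
    (h : ∀ n ∈ N, HbS p red (alternatingGroup (Fin n))) (U : Type) [Group U] [Finite U] :
    Hb p red 1 U := by
  intro E _ _ q hs z hz hz0 hr hv D hD
  obtain ⟨n, hnN, hn⟩ := hN.exists_gt (2 * Nat.card E)
  obtain ⟨f, hf⟩ := exists_alt E hn.le
  let e : E ≃* f.range := MonoidHom.ofInjective hf
  obtain ⟨k1, k2⟩ := XX_iso (p := p) (red := red) (fb q) e (zfq q z) D
  have h1 := dvd_down (p := p) red (q₀ := e.toMonoidHom.comp (fb q))
    (j := (fd q).comp e.symm.toMonoidHom) (fun v => by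
      change e (fb q (fd q (e.symm v))) = v
      rw [fb_fd, e.apply_symm_apply]) (zfq_conj hz) (zfq_real hr) (by
        rw [k1]
        exact vg_fq red hz hv) (h n hnN) hD
  rw [k1, k2, XX_fq red hs hz] at h1
  have h2 : Nat.card (fb q).ker = Nat.card q.ker := Nat.card_congr (emb_fq q).e.toEquiv
  rw [h2] at h1
  rw [pow_one]
  exact h1

/-- the parity of the sums for split extensions -/
theorem hbS_of {U : Type} [Group U] (hR : RealEvenS p red U) : HbS p red U := by
  intro E _ _ q j hj z hz _ hr _ D hD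
  have hs : Function.Surjective q := fun u => ⟨j u, hj u⟩
  have h1 : j.range ⊓ q.ker = ⊥ := by
    rw [eq_bot_iff]
    rintro x ⟨⟨u, rfl⟩, hx⟩
    have h2 : q (j u) = 1 := hx
    rw [hj] at h2
    rw [h2, map_one]
    exact Subgroup.mem_bot.2 rfl
  have h2 : j.range ⊔ q.ker = ⊤ := by
    rw [Subgroup.eq_top_iff']
    intro x
    have h3 : x = j (q x) * ((j (q x))⁻¹ * x) := by group
    rw [h3]
    refine Subgroup.mul_mem_sup ⟨q x, rfl⟩ ?_
    rw [MonoidHom.mem_ker, map_mul, map_inv, hj, inv_mul_cancel]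
  have h3 : Function.Injective j := fun a b h => by
    rw [← hj a, h, hj]
  exact hb_one_of hs (hR E q.ker j.range h1 h2 ⟨(MonoidHom.ofInjective h3).symm⟩) hz hr hD

/-- **the main theorem** -/
theorem ok_realS {N : Set ℕ} (hN : N.Infinite)
    (h : ∀ n ∈ N, RealEvenS p red (alternatingGroup (Fin n))) (V : Type) [Group V] [Finite V] :
    Ok p red V := by
  refine ok_alt red (N := {n | 5 ≤ n}) (Set.infinite_of_not_bddAbove ?_) (fun n hn => ?_) V
  · rintro ⟨b, hb⟩
    have h1 := hb (show b + 5 ∈ {n | 5 ≤ n} from Nat.le_add_left 5 b)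
    omega
  · exact ok_perf red (alt_perfect hn) (hb_split red hN (fun n hn => hbS_of red (h n hn)) _)

end

end Run7.h759.DI
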