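import Pool.Agent.Run7.h759.DI.Blx

/-!
# Invariant class functions separating an invariant block from the others (helper759)

The construction of `Pool/Agent/N342/DIINV1.lean`, with the values at the other blocks.
-/

set_option autoImplicit false
set_option linter.unusedSectionVars false

open scoped Classical BigOperators

noncomputable section

namespace Run7.h759.DI

open Pool.Agent.Y63.NV
open Pool.Agent.Y405.NV
open Pool.Agent.N20.DI
open Pool.Agent.N342.DI1

theorem z01 {F : Type} [Field F] {E : Type} [Group E] [Finite E] {G : Subgroup E} [G.Normal]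
    {B : (G → F) → F} (hB : IsBlock B) (hI : InvBl G ⊤ B) :
    ∃ z : E → F, (∀ g x, z (g * x * g⁻¹) = z x) ∧ (∀ x, x ∉ G → z x = 0) ∧
      B (fun x : G => z x) = 1 ∧
      (∀ B' : (G → F) → F, IsBlock B' → B' (fun x : G => z x) = 0 ∨ B' (fun x : G => z x) = 1) ∧
      ∀ B' : (G → F) → F, IsBlock B' → B' (fun x : G => z x) = 1 →
        ∀ f : G → F, IsClassFun f → B' f = B f := by
  obtain ⟨e, he, hv, h1, hB1⟩ := exists_idem hB
  let w := nrK G ⊤ (ofC e he)
  let zz : E → F := fun x => if hx : x ∈ G then w.1.coeff ⟨x, hx⟩ else 0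
  have hzz : ∀ x : G, zz x = w.1.coeff x := fun x => dif_pos x.2
  have hfun : (fun x : G => zz x) = fun x : G => w.1.coeff x := funext hzz
  have hval : ∀ B' : (G → F) → F, ∀ hB' : IsBlock B', B' (fun x : G => zz x) = toRH hB' w := by
    intro B' hB'
    rw [hfun]
    rfl
  letI := Fintype.ofFinite (⊤ : Subgroup E)
  have hprod : ∀ B' : (G → F) → F, ∀ hB' : IsBlock B', toRH hB' w =
      ∏ g : (⊤ : Subgroup E), B' (fun x => e ((MulAut.conjNormal (H := G) (g : E)).symm x)) := by
    intro B' hB'
    have hw : w = ∏ g : (⊤ : Subgroup E), sg G (g : E) (ofC e he) := rfl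
    rw [hw, map_prod]
    refine Finset.prod_congr rfl fun g _ => ?_
    rw [toRH_apply]
    congr 1
    funext x
    rw [coeff_sg]
    rfl
  refine ⟨zz, ?_, fun x hx => dif_neg hx, ?_, ?_, ?_⟩
  · intro g x
    by_cases hx : x ∈ G
    · have hx' : g * x * g⁻¹ ∈ G := (inferInstance : G.Normal).conj_mem x hx g
      have h1 := hzz ⟨x, hx⟩
      have h2 := hzz ⟨g * x * g⁻¹, hx'⟩
      simp only at h1 h2
      rw [h1, h2]
      have h3 : (sg G g w).1.coeff ⟨g * x * g⁻¹, hx'⟩ = w.1.coeff ⟨g * x * g⁻¹, hx'⟩ := by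
        rw [sg_nrK G ⊤ g (Subgroup.mem_top g)]
      rw [← h3, coeff_sg, conj_symm_eq G (x := ⟨x, hx⟩) (y := ⟨g * x * g⁻¹, hx'⟩) rfl]
    · have hx' : g * x * g⁻¹ ∉ G := by
        intro h
        apply hx
        have := (inferInstance : G.Normal).conj_mem _ h g⁻¹
        simpa [mul_assoc] using this
      rw [show zz (g * x * g⁻¹) = 0 from dif_neg hx', show zz x = 0 from dif_neg hx]
  · rw [hval B hB, hprod B hB]
    refine Finset.prod_eq_one fun g _ => ?_
    rw [hI (g : E) (Subgroup.mem_top _) e
      (fun x => e ((MulAut.conjNormal (H := G) (g : E)).symm x)) he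
      (fun x y hxy => by rw [conj_symm_eq G hxy]), h1]
  · intro B' hB'
    rw [hval B' hB', hprod B' hB']
    by_cases h0 : ∃ g : (⊤ : Subgroup E),
        B' (fun x => e ((MulAut.conjNormal (H := G) (g : E)).symm x)) = 0
    · obtain ⟨g, hg⟩ := h0
      exact Or.inl (Finset.prod_eq_zero (Finset.mem_univ g) hg)
    · push Not at h0
      refine Or.inr (Finset.prod_eq_one fun g _ => ?_)
      exact (hv _ (block_conj G (g : E) hB')).resolve_left (h0 g)
  · intro B' hB' hw
    rw [hval B' hB', hprod B' hB'] at hw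
    have h2 : B' (fun x => e ((MulAut.conjNormal (H := G) ((1 : (⊤ : Subgroup E)) : E)).symm x)) ≠
        0 := by
      intro h0
      rw [Finset.prod_eq_zero (Finset.mem_univ (1 : (⊤ : Subgroup E))) h0] at hw
      exact zero_ne_one hw
    have h3 : (fun x : G => e ((MulAut.conjNormal (H := G) ((1 : (⊤ : Subgroup E)) : E)).symm x)) =
        e := by
      funext x
      rw [Subgroup.coe_one, map_one]
      rfl
    rw [h3] at h2
    have h4 := (hv B' hB').resolve_left h2
    exact fun f hf => (hB1 B' hB' h4 f hf).symm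

end Run7.h759.DI
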