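import Pool.Agent.Run7.h759.DI.Sqr2
import Pool.Agent.Run7.h759.DI.Dual
import Pool.Agent.Run7.h759.DI.Z01
import Pool.Agent.Run7.h759.DI.Low

/-!
# Fibre products: the signed sums (helper759)
-/

set_option autoImplicit false
set_option linter.unusedSectionVars false

open scoped Classical BigOperators

noncomputable section

namespace Run7.h759.DI

open Pool.Agent.Y63.NV (IsClassFun centralValue IsBlock numDzBlock)
open Pool.Agent.Helper884.IC (IsIrrChar IsClass Irr mem_Irr)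
open Pool.Agent.Y63.AWC (res mult mult_spec mult_exists irr_comp)
open Pool.Agent.Y63.KR (IsPChain chainStabilizer)
open Pool.Agent.R674.Tw (Fixes GCh)
open Pool.Agent.Q99.AS (Dft Dft_ten Dft_unique Dft_congr)
open Pool.Agent.N237.DI (Iso2 Proj Inr Blk kS)
open Pool.Agent.N20.DI (InvBl)

section prod

variable {Γ E₁ E₂ U : Type} [Group Γ] [Group E₁] [Group E₂] [Group U] {π : Γ →* E₁ × E₂}
  [Finite Γ] [Finite E₁] [Finite E₂]
  {q : Γ →* U} {q₁ : E₁ →* U} {q₂ : E₂ →* U} (hF : FP π q q₁ q₂)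
  {G : Subgroup Γ} {G₁ : Subgroup E₁} {G₂ : Subgroup E₂}
  (hq : q.ker = G) (hq₁ : q₁.ker = G₁) (hq₂ : q₂.ker = G₂)
  (hs₁ : Function.Surjective q₁) (hs₂ : Function.Surjective q₂)
  {F : Type} [Field F] (red : integralClosure ℤ ℂ →+* F)
  {A : Subgroup U} [hAn : A.Normal] {ℓ : ℕ} [hl : Fact ℓ.Prime]

include hF hq hq₁ hq₂ in
theorem card_fp (H : Subgroup E₁) (K : Subgroup E₂) :
    (Nat.card ↥(G ⊓ (H.prod K).comap π) : ℤ) =
      (Nat.card ↥(G₁ ⊓ H) : ℤ) * (Nat.card ↥(G₂ ⊓ K) : ℤ) := by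
  rw [Nat.card_congr ((hF.iso2 hq hq₁ hq₂).eqv H K).toEquiv, Nat.card_prod]
  push_cast
  rfl

/-- the values of the central characters at `z` are `0` and `1` -/
def Z01 (p : ℕ) (red : integralClosure ℤ ℂ →+* F) {E : Type} [Group E] (G : Subgroup E)
    (z : E → F) : Prop :=
  ∀ σ : Set (Subgroup E), IsPChain p σ → (∀ P ∈ σ, P ≤ G) →
    ∀ θ : ↥(G ⊓ chainStabilizer σ) → ℂ, IsIrrChar θ →
      centralValue red θ (fun x => z x) = 0 ∨ centralValue red θ (fun x => z x) = 1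

include hF hq hq₁ hq₂ hs₁ hs₂

/-- the signed sums of the invariant characters -/
theorem al_xc_prod (p : ℕ) [Fact p.Prime] {z₁ : E₁ → F} {z₂ : E₂ → F}
    (hz₁ : ∀ g x, z₁ (g * x * g⁻¹) = z₁ x) (hz₂ : ∀ g x, z₂ (g * x * g⁻¹) = z₂ x)
    (h01 : Z01 p red G₁ z₁) (h02 : Z01 p red G₂ z₂) (D : ℕ) :
    al p G (fun S => (Nat.card ↥(G ⊓ S) : ℤ) *
        xc p red G q ⊤ (fun x => z₁ (π x).1 * z₂ (π x).2) 1 D S) =
      ∑ i ∈ Finset.HasAntidiagonal.antidiagonal D,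
        al p G₁ (fun S => (Nat.card ↥(G₁ ⊓ S) : ℤ) * xc p red G₁ q₁ ⊤ z₁ 1 i.1 S) *
          al p G₂ (fun S => (Nat.card ↥(G₂ ⊓ S) : ℤ) * xc p red G₂ q₂ ⊤ z₂ 1 i.2 S) := by
  have n : G.Normal := G_normal hq
  refine al_prod' (hF.iso2 hq hq₁ hq₂) (Finset.HasAntidiagonal.antidiagonal D) _
    (fun i S => (Nat.card ↥(G₁ ⊓ S) : ℤ) * xc p red G₁ q₁ ⊤ z₁ 1 i.1 S)
    (fun i S => (Nat.card ↥(G₂ ⊓ S) : ℤ) * xc p red G₂ q₂ ⊤ z₂ 1 i.2 S) ?_
  intro σ τ hσ hσ' hτ hτ'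
  rw [card_fp hF hq hq₁ hq₂, xc_prod hF hq hq₁ hq₂ hs₁ hs₂ red p _ _ hz₁ hz₂
    (h01 σ hσ hσ') (h02 τ hτ hτ') D, Finset.mul_sum]
  exact Finset.sum_congr rfl fun i _ => by ring

/-- the signed sums of the characters with irreducible restriction -/
theorem al_yc_prod (hA : Nat.card A = ℓ) (p : ℕ) [Fact p.Prime] {z₁ : E₁ → F} {z₂ : E₂ → F}
    (hz₁ : ∀ g x, z₁ (g * x * g⁻¹) = z₁ x) (hz₂ : ∀ g x, z₂ (g * x * g⁻¹) = z₂ x)
    (h01 : Z01 p red G₁ z₁) (h02 : Z01 p red G₂ z₂) (D : ℕ) [Fintype (U → A →* ℂˣ)] :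
    (ℓ : ℤ) * al p G (fun S => (Nat.card ↥(G ⊓ S) : ℤ) *
        yc p red (G_le A hq) 1 (fun x => z₁ (π x).1 * z₂ (π x).2) 1 D S) =
      ∑ i ∈ Finset.HasAntidiagonal.antidiagonal D ×ˢ (Finset.univ : Finset (U → A →* ℂˣ)),
        al p G₁ (fun S => (Nat.card ↥(G₁ ⊓ S) : ℤ) * yc p red (G_le A hq₁) i.2 z₁ 1 i.1.1 S) *
          al p G₂ (fun S => (Nat.card ↥(G₂ ⊓ S) : ℤ) *
            yc p red (G_le A hq₂) i.2⁻¹ z₂ 1 i.1.2 S) := by
  have n : G.Normal := G_normal hq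
  rw [← al_mul]
  refine al_prod' (hF.iso2 hq hq₁ hq₂)
    (Finset.HasAntidiagonal.antidiagonal D ×ˢ (Finset.univ : Finset (U → A →* ℂˣ))) _
    (fun i S => (Nat.card ↥(G₁ ⊓ S) : ℤ) * yc p red (G_le A hq₁) i.2 z₁ 1 i.1.1 S)
    (fun i S => (Nat.card ↥(G₂ ⊓ S) : ℤ) * yc p red (G_le A hq₂) i.2⁻¹ z₂ 1 i.1.2 S) ?_
  intro σ τ hσ hσ' hτ hτ'
  have h1 := yc_prod hF hq hq₁ hq₂ hs₁ hs₂ red hA p (chainStabilizer σ) (chainStabilizer τ) hz₁ hz₂
    (h01 σ hσ hσ') (h02 τ hτ hτ') D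
  rw [card_fp hF hq hq₁ hq₂, mul_left_comm, h1, Finset.mul_sum]
  exact Finset.sum_congr rfl fun i _ => by ring

end prod

section blk

variable {p : ℕ} [Fact p.Prime] {F : Type} [Field F] [IsAlgClosed F] [CharP F p]
  {red : integralClosure ℤ ℂ →+* F} {E U : Type} [Group E] [Finite E] [Group U] {q : E →* U}
  {G : Subgroup E}

/-- the data of an invariant block -/
structure ZB (p : ℕ) (red : integralClosure ℤ ℂ →+* F) (G : Subgroup E) (B : (G → F) → F)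
    (z : E → F) : Prop where
  inv : ∀ g x, z (g * x * g⁻¹) = z x
  supp : ∀ x, x ∉ G → z x = 0
  one : B (fun x : G => z x) = 1
  val : ∀ B' : (G → F) → F, IsBlock B' →
    B' (fun x : G => z x) = 0 ∨ B' (fun x : G => z x) = 1
  sep : ∀ B' : (G → F) → F, IsBlock B' → B' (fun x : G => z x) = 1 →
        ∀ f : G → F, IsClassFun f → B' f = B f

theorem ZB.z01 [G.Normal] {B : (G → F) → F} {z : E → F} (hz : ZB p red G B z) : Z01 p red G z :=
  fun σ h1 h2 θ hθ => hz.val _ (Pool.Agent.N286.DI.BLK p F red E G σ h1 h2 θ hθ)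

theorem ZB.blk_iff [G.Normal] {B : (G → F) → F} {z : E → F} (hz : ZB p red G B z)
    {σ : Set (Subgroup E)} (h1 : IsPChain p σ) (h2 : ∀ P ∈ σ, P ≤ G)
    {θ : ↥(G ⊓ chainStabilizer σ) → ℂ} (hθ : IsIrrChar θ) :
    Blk red G B (chainStabilizer σ) θ ↔ centralValue red θ (fun x => z x) = 1 := by
  constructor
  · intro h
    rw [← hz.one]
    exact h (fun x : G => z x) (fun g x => hz.inv g x)
  · intro h
    exact hz.sep _ (Pool.Agent.N286.DI.BLK p F red E G σ h1 h2 θ hθ) h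

theorem ZB.no_dz [G.Normal] {B : (G → F) → F} {z : E → F} (hz : ZB p red G B z)
    (hB0 : numDzBlock p red B = 0)
    {σ : Set (Subgroup E)} (h1 : IsPChain p σ) (h2 : ∀ P ∈ σ, P ≤ G)
    {θ : ↥(G ⊓ chainStabilizer σ) → ℂ} (hθ : IsIrrChar θ) (hd : Dft p 0 θ)
    (hv : centralValue red θ (fun x => z x) = 1) : False :=
  Pool.Agent.N20.DI.parts.dz0 p F red E G B hB0 σ h1 h2 θ hθ hd ((hz.blk_iff h1 h2 hθ).2 hv)

theorem kS_xc (hq : q.ker = G) (hs : Function.Surjective q) [G.Normal] {B : (G → F) → F}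
    {z : E → F} (hz : ZB p red G B z) (D : ℕ) {σ : Set (Subgroup E)} (h1 : IsPChain p σ)
    (h2 : ∀ P ∈ σ, P ≤ G) :
    kS p red G B D ⊤ (chainStabilizer σ) = xc p red G q ⊤ z 1 D (chainStabilizer σ) := by
  unfold kS xc xk
  congr 1
  refine Nat.card_congr (Equiv.subtypeEquivRight fun χ => ?_)
  refine and_congr_right fun hχ => and_congr_right fun _ => ?_
  rw [hz.blk_iff h1 h2 hχ]
  refine and_congr_left fun _ => ?_
  rw [← inr_inq hq ⊤ hs]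
  have h3 : Vb q G ⊤ = ⊤ := by
    rw [Subgroup.eq_top_iff']
    intro x
    obtain ⟨e, rfl⟩ := QuotientGroup.mk_surjective x
    exact (mem_Vb hq).2 (Subgroup.mem_top _)
  rw [h3]

end blk

end Run7.h759.DI
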