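import Pool.Agent.Run7.h759.DI.PS1
import Pool.Agent.Run7.h759.DI.Tns

/-!
# The fibre square with the exchange of the factors (helper759)
-/

set_option autoImplicit false
set_option linter.unusedSectionVars false

open scoped Classical BigOperators

noncomputable section

namespace Run7.h759.DI

open Pool.Agent.Y63.NV (IsClassFun centralValue IsBlock numDzBlock)
open Pool.Agent.Helper884.IC (IsIrrChar)

/-- the group of order two -/
abbrev C2 : Type := Multiplicative (ZMod 2)

/-- the set of order two -/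
def T2 : Type := C2

instance : Fintype T2 := inferInstanceAs (Fintype C2)

theorem c2_cases (t : C2) : t = 1 ∨ t = Multiplicative.ofAdd 1 := by
  revert t
  decide

theorem c2_ne : (Multiplicative.ofAdd 1 : C2) ≠ 1 := by decide

theorem card_T2 : Nat.card T2 = 2 := by
  change Nat.card C2 = 2
  rw [Nat.card_congr Multiplicative.toAdd, Nat.card_zmod]

section

variable {U : Type} [Group U]

instance : MulAction (U × C2) T2 where
  smul x t := (x.2 * (show C2 from t) : C2)
  one_smul t := one_mul (show C2 from t)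
  mul_smul x y t := mul_assoc x.2 y.2 (show C2 from t)

theorem smul_T2 (x : U × C2) (t : T2) : x • t = (x.2 * (show C2 from t) : C2) := rfl

/-- the base point -/
def t0 : T2 := (1 : C2)

/-- the other point -/
def t1 : T2 := (Multiplicative.ofAdd 1 : C2)

theorem t2_cases (t : T2) : t = t0 ∨ t = t1 := c2_cases t

theorem t1_ne : t1 ≠ t0 := c2_ne

/-- the section -/
def s2 (U : Type) [Group U] (t : T2) : U × C2 := (1, t)

theorem s2_smul (t : T2) : s2 U t • t0 = t := mul_one (show C2 from t)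

variable {E : Type} [Group E] (q : E →* U)

/-- the map to `U × C2` -/
def qh : E →* U × C2 := q.prod 1

theorem qh_apply (x : E) : qh q x = (q x, 1) := rfl

theorem qh_ker : (qh q).ker = q.ker := by
  ext x
  rw [MonoidHom.mem_ker, MonoidHom.mem_ker, qh_apply]
  exact ⟨fun h => congrArg Prod.fst h, fun h => Prod.ext h rfl⟩

/-- `U × 1` -/
def V0 (U : Type) [Group U] : Subgroup (U × C2) := (MonoidHom.inl U C2).range

/-- `1 × C2` -/
def A2 (U : Type) [Group U] : Subgroup (U × C2) := (MonoidHom.inr U C2).range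

theorem mem_V0 {x : U × C2} : x ∈ V0 U ↔ x.2 = 1 := by
  constructor
  · rintro ⟨u, rfl⟩
    rfl
  · intro h
    exact ⟨x.1, Prod.ext rfl h.symm⟩

theorem mem_A2 {x : U × C2} : x ∈ A2 U ↔ x.1 = 1 := by
  constructor
  · rintro ⟨u, rfl⟩
    rfl
  · intro h
    exact ⟨x.2, Prod.ext h.symm rfl⟩

instance : (A2 U).Normal := ⟨fun n hn g => by
  rw [mem_A2] at hn ⊢
  change g.1 * n.1 * (g⁻¹).1 = 1
  rw [hn, mul_one]
  exact mul_inv_cancel g.1⟩

theorem card_A2 : Nat.card (A2 U) = 2 := by
  have h : Function.Injective (MonoidHom.inr U C2) := fun a b h => congrArg Prod.snd h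
  have h1 := Nat.card_congr (MonoidHom.ofInjective h).toEquiv
  exact h1.symm.trans card_T2

theorem qh_range (hs : Function.Surjective q) :
    (qh q).range = MulAction.stabilizer (U × C2) t0 := by
  ext x
  rw [MulAction.mem_stabilizer_iff, smul_T2]
  have h1 : (x.2 * (show C2 from t0) : C2) = x.2 := mul_one x.2
  constructor
  · rintro ⟨e, rfl⟩
    rfl
  · intro h
    obtain ⟨e, he⟩ := hs x.1
    refine ⟨e, Prod.ext he ?_⟩
    exact (h1.symm.trans h).symm

/-- the group -/
abbrev SW : Type := TG (qh q) (s2 U)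

variable {q}

theorem SW.q_f (x : SW q) (t : T2) : q (x.f t) = x.g.1 := by
  have h := congrArg Prod.fst (x.h t)
  have h1 : ((s2 U t)⁻¹ * x.g * s2 U (x.g⁻¹ • t)).1 = (1 : U)⁻¹ * x.g.1 * 1 := rfl
  rw [h1, inv_one, one_mul, mul_one] at h
  exact h

theorem SW.smul_of {x : SW q} (h : x.g.2 = 1) (t : T2) : x.g⁻¹ • t = t := by
  rw [smul_T2]
  have h1 : (x.g⁻¹).2 = 1 := by
    change (x.g.2)⁻¹ = 1
    rw [h, inv_one]
  rw [h1]
  exact one_mul (show C2 from t)

/-- the elements without exchange -/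
abbrev E0 (q : E →* U) : Subgroup (SW q) := (V0 U).comap (TG.qq (qh q) (s2 U))

theorem mem_E0 {x : SW q} : x ∈ E0 q ↔ x.g.2 = 1 := mem_V0

/-- the map of `E0` to `U` -/
def q0 (q : E →* U) : ↥(E0 q) →* U where
  toFun x := x.1.g.1
  map_one' := rfl
  map_mul' _ _ := rfl

/-- the map of `E0` to `E × E` -/
def pi0 (q : E →* U) : ↥(E0 q) →* E × E where
  toFun x := (x.1.f t0, x.1.f t1)
  map_one' := rfl
  map_mul' x y := by
    have h : ∀ t, (x * y : ↥(E0 q)).1.f t = x.1.f t * y.1.f t := by
      intro t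
      change (x.1 * y.1).f t = _
      rw [TG.mul_f, SW.smul_of (mem_E0.1 x.2)]
    exact Prod.ext (h t0) (h t1)

theorem fp_E0 : FP (pi0 q) (q0 q) q q where
  fst x := SW.q_f x.1 t0
  snd x := SW.q_f x.1 t1
  inj x h := by
    have h0 : x.1.f t0 = 1 := congrArg Prod.fst h
    have h1 : x.1.f t1 = 1 := congrArg Prod.snd h
    apply Subtype.ext
    refine TG.ext' ?_ fun t => ?_
    · refine Prod.ext ?_ (mem_E0.1 x.2)
      rw [← SW.q_f x.1 t0, h0, map_one]
      rfl
    · rcases t2_cases t with rfl | rfl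
      · exact h0
      · exact h1
  surj a b h := by
    refine ⟨⟨⟨(q a, 1), fun t => if t = t0 then a else b, fun t => ?_⟩, ?_⟩, ?_⟩
    · have h1 : ((q a, 1) : U × C2)⁻¹ • t = t := by
        rw [smul_T2]
        have h2 : (((q a, 1) : U × C2)⁻¹).2 = 1 := inv_one
        rw [h2]
        exact one_mul (show C2 from t)
      rw [h1]
      refine Prod.ext ?_ ?_
      · change q (if t = t0 then a else b) = (1 : U)⁻¹ * q a * 1
        rw [inv_one, one_mul, mul_one]
        by_cases h3 : t = t0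
        · rw [if_pos h3]
        · rw [if_neg h3, h]
      · change (1 : C2) = (show C2 from t)⁻¹ * 1 * (show C2 from t)
        rw [mul_one, inv_mul_cancel]
    · exact mem_V0.2 rfl
    · refine Prod.ext ?_ ?_
      · change (if t0 = t0 then a else b) = a
        rw [if_pos rfl]
      · change (if t1 = t0 then a else b) = b
        rw [if_neg t1_ne]

theorem q0_ker : (q0 q).ker = (TG.qq (qh q) (s2 U)).ker.subgroupOf (E0 q) := by
  ext x
  rw [MonoidHom.mem_ker, Subgroup.mem_subgroupOf, MonoidHom.mem_ker]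
  constructor
  · intro h
    exact Prod.ext h (mem_E0.1 x.2)
  · intro h
    exact congrArg Prod.fst h

variable {F : Type} [Field F]

theorem prod_T2 (f : T2 → F) : ∏ t, f t = f t0 * f t1 := by
  have h : (Finset.univ : Finset T2) = {t0, t1} := by
    ext t
    simp only [Finset.mem_univ, Finset.mem_insert, Finset.mem_singleton, true_iff]
    exact t2_cases t
  rw [h, Finset.prod_pair (Ne.symm t1_ne)]

theorem zT_E0 {z : E → F} (hz0 : ∀ x, x ∉ q.ker → z x = 0) (x : ↥(E0 q)) :
    zT (qh q) (s2 U) z x = z (pi0 q x).1 * z (pi0 q x).2 := by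
  unfold zT
  by_cases h : (x : SW q).g = 1
  · rw [if_pos h, prod_T2]
    rfl
  · rw [if_neg h]
    have h1 : (pi0 q x).1 ∉ q.ker := by
      intro h2
      apply h
      refine Prod.ext ?_ (mem_E0.1 x.2)
      rw [← SW.q_f (x : SW q) t0]
      exact MonoidHom.mem_ker.1 h2
    rw [hz0 _ h1, zero_mul]

variable [Finite E] [Finite U] [IsAlgClosed F] {p : ℕ} [hp : Fact p.Prime] [CharP F p]
  (red : integralClosure ℤ ℂ →+* F)

/-- **the sums of the fibre square** -/
theorem al_V0 (hs : Function.Surjective q) {z : E → F} (hz : ∀ g x, z (g * x * g⁻¹) = z x)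
    (hz0 : ∀ x, x ∉ q.ker → z x = 0) (hv : Z01 p red q.ker z) (D : ℕ) :
    al p (TG.qq (qh q) (s2 U)).ker (fun S => (Nat.card ↥((TG.qq (qh q) (s2 U)).ker ⊓ S) : ℤ) *
        xc p red (TG.qq (qh q) (s2 U)).ker (TG.qq (qh q) (s2 U)) (V0 U)
          (zT (qh q) (s2 U) z) 1 D S) =
      ∑ i ∈ Finset.HasAntidiagonal.antidiagonal D,
        al p q.ker (fun S => (Nat.card ↥(q.ker ⊓ S) : ℤ) * xc p red q.ker q ⊤ z 1 i.1 S) *
          al p q.ker (fun S => (Nat.card ↥(q.ker ⊓ S) : ℤ) * xc p red q.ker q ⊤ z 1 i.2 S) := by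
  have hj : Function.Injective (MonoidHom.inl U C2) := fun a b h => congrArg Prod.fst h
  have h1 := al_sub' (p := p) red (rfl : (TG.qq (qh q) (s2 U)).ker = _) (V := V0 U)
    (q₀ := q0 q) hj rfl (fun x => by
      refine Prod.ext rfl ?_
      exact (mem_E0.1 x.2).symm) (zT_conj hz) 1 D
  rw [h1, ← q0_ker]
  have h2 := al_xc_prod (fp_E0 (q := q)) (rfl : (q0 q).ker = _) (rfl : q.ker = _)
    (rfl : q.ker = _) hs hs red p hz hz hv hv D
  rw [← h2]
  congr 1
  funext S
  have h3 : (fun x : ↥(E0 q) => zT (qh q) (s2 U) z x) =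
      fun x => z (pi0 q x).1 * z (pi0 q x).2 := funext (zT_E0 hz0)
  rw [h3]

end

end Run7.h759.DI
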