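import Pool.Agent.Run7.h759.DI.PS2
import Pool.Agent.Run7.h759.DI.Cmp

/-!
# Perfect groups: complements and crossed homomorphisms (helper759)
-/

set_option autoImplicit false
set_option linter.unusedSectionVars false

open scoped Classical BigOperators

noncomputable section

namespace Run7.h759.DI

variable {U : Type} [Group U]

theorem V0_compl : V0 U ⊓ A2 U = ⊥ ∧ V0 U ⊔ A2 U = ⊤ := by
  constructor
  · rw [eq_bot_iff]
    intro x hx
    rw [Subgroup.mem_inf, mem_V0, mem_A2] at hx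
    rw [Subgroup.mem_bot]
    exact Prod.ext hx.2 hx.1
  · rw [Subgroup.eq_top_iff']
    intro x
    have h : x = (x.1, 1) * (1, x.2) := Prod.ext (mul_one _).symm (one_mul _).symm
    rw [h]
    exact Subgroup.mul_mem_sup (mem_V0.2 rfl) (mem_A2.2 rfl)

/-- the complement is unique -/
theorem V0_unique (hU : commutator U = ⊤) {V : Subgroup (U × C2)} (h1 : V ⊓ A2 U = ⊥)
    (h2 : V ⊔ A2 U = ⊤) : V = V0 U := by
  have h3 : ∀ u : U, ∃ c : C2, (u, c) ∈ V := by
    intro u
    have h4 : ((u, 1) : U × C2) ∈ V ⊔ A2 U := by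
      rw [h2]
      trivial
    rw [Subgroup.mem_sup_of_normal_right] at h4
    obtain ⟨v, hv, a, ha, h5⟩ := h4
    refine ⟨v.2, ?_⟩
    have h6 : v.1 = u := by
      have h7 := congrArg Prod.fst h5
      have h8 : (v * a).1 = v.1 * a.1 := rfl
      rw [h8, mem_A2.1 ha, mul_one] at h7
      exact h7
    rw [← h6]
    exact hv
  have h4 : (⊤ : Subgroup U) ≤ V.comap (MonoidHom.inl U C2) := by
    rw [← hU, commutator_def, Subgroup.commutator_le]
    intro a _ b _
    obtain ⟨c, hc⟩ := h3 a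
    obtain ⟨d, hd⟩ := h3 b
    have h5 : ((a, c) : U × C2) * (b, d) * (a, c)⁻¹ * (b, d)⁻¹ ∈ V :=
      V.mul_mem (V.mul_mem (V.mul_mem hc hd) (V.inv_mem hc)) (V.inv_mem hd)
    have h6 : ((a, c) : U × C2) * (b, d) * (a, c)⁻¹ * (b, d)⁻¹ = (a * b * a⁻¹ * b⁻¹, 1) := by
      refine Prod.ext rfl ?_
      change c * d * c⁻¹ * d⁻¹ = 1
      rw [mul_comm c d]
      group
    rw [h6] at h5
    exact h5
  ext x
  rw [mem_V0]
  constructor
  · intro hx
    have h5 : ((x.1, 1) : U × C2) ∈ V := h4 (Subgroup.mem_top x.1)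
    have h6 : ((1, x.2) : U × C2) ∈ V := by
      have h7 := V.mul_mem (V.inv_mem h5) hx
      have h8 : ((x.1, 1) : U × C2)⁻¹ * x = (1, x.2) := by
        refine Prod.ext ?_ ?_
        · exact inv_mul_cancel x.1
        · change (1 : C2)⁻¹ * x.2 = x.2
          rw [inv_one, one_mul]
      rwa [h8] at h7
    have h7 : ((1, x.2) : U × C2) ∈ V ⊓ A2 U := ⟨h6, mem_A2.2 rfl⟩
    rw [h1, Subgroup.mem_bot] at h7
    exact congrArg Prod.snd h7
  · intro hx
    have h5 : ((x.1, 1) : U × C2) ∈ V := h4 (Subgroup.mem_top x.1)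
    have h6 : x = (x.1, 1) := Prod.ext rfl hx
    rw [h6]
    exact h5

/-- the crossed homomorphisms are trivial -/
theorem cr_one (hU : commutator U = ⊤) {c : U × C2 → A2 U →* ℂˣ} (hc : IsCr (A2 U) c) : c = 1 := by
  obtain ⟨h1, h2⟩ := hc
  have hcj : ∀ (u : U × C2) (a : A2 U), cjA (A2 U) u a = a := by
    intro u a
    apply Subtype.ext
    change u * a * u⁻¹ = a
    have ha := mem_A2.1 a.2
    refine Prod.ext ?_ ?_
    · change u.1 * (a : U × C2).1 * u.1⁻¹ = (a : U × C2).1
      rw [ha, mul_one, mul_inv_cancel]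
    · change u.2 * (a : U × C2).2 * u.2⁻¹ = (a : U × C2).2
      rw [mul_comm u.2, mul_inv_cancel_right]
  have h3 : ∀ u v a, c (u * v) a = c u a * c v a := by
    intro u v a
    rw [h1, hcj]
  have h4 : ∀ a, (⊤ : Subgroup U) ≤ (MonoidHom.mk' (fun u : U => c (u, 1) a) (fun u v => by
      rw [← h3]
      rfl)).ker := by
    intro a
    rw [← hU, commutator_def, Subgroup.commutator_le]
    intro x _ y _
    rw [MonoidHom.mem_ker, commutatorElement_def, map_mul, map_mul, map_mul, map_inv, map_inv]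
    exact (mul_right_comm _ _ _).trans (by group) |>.trans rfl
  funext u
  ext a
  have h5 : c (u.1, 1) a = 1 := h4 a (Subgroup.mem_top u.1)
  have h6 : u = (u.1, 1) * (1, u.2) := Prod.ext (mul_one _).symm (one_mul _).symm
  rw [h6, h3, h5, h2 (1, u.2) (mem_A2.2 rfl)]
  simp

end Run7.h759.DI
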