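import Pool.Agent.Run7.h759.DI.Lin
import Pool.Agent.Run7.h759.DI.Ext
import Pool.Agent.Run7.h759.DI.Blx

/-!
# The relation between the signed sums for `U` and `U / A` (helper759)
-/

set_option autoImplicit false
set_option linter.unusedSectionVars false

open scoped Classical BigOperators

noncomputable section

namespace Run7.h759.DI

open Pool.Agent.Y63.NV (IsClassFun centralValue IsBlock numDzBlock)
open Pool.Agent.Helper884.IC (IsIrrChar IsClass)
open Pool.Agent.Y63.KR (IsPChain chainStabilizer)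
open Pool.Agent.R674.Tw (Fixes GCh)
open Pool.Agent.R674.Ce (chs wt)
open Pool.Agent.Q99.AS (Dft)
open Pool.Agent.N20.DI (pf pf_class mem_up)

section grp

variable {U : Type} [Group U] {A : Subgroup U} [hAn : A.Normal]

/-- a complement is isomorphic to the quotient -/
theorem compl_iso {V : Subgroup U} (h1 : V ⊓ A = ⊥) (h2 : V ⊔ A = ⊤) :
    Nonempty ((U ⧸ A) ≃* V) := by
  let f : V →* U ⧸ A := (QuotientGroup.mk' A).comp V.subtype
  have hf : Function.Bijective f := by
    constructor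
    · rw [injective_iff_map_eq_one]
      intro x hx
      have h3 : (x : U) ∈ A := (QuotientGroup.eq_one_iff _).1 hx
      have h4 : (x : U) ∈ V ⊓ A := ⟨x.2, h3⟩
      rw [h1, Subgroup.mem_bot] at h4
      exact Subtype.ext h4
    · intro y
      obtain ⟨u, rfl⟩ := QuotientGroup.mk'_surjective A y
      have h3 : u ∈ V ⊔ A := by
        rw [h2]
        trivial
      rw [Subgroup.mem_sup_of_normal_right] at h3
      obtain ⟨v, hv, a, ha, rfl⟩ := h3
      refine ⟨⟨v, hv⟩, ?_⟩
      change ((v : U) : U ⧸ A) = ((v * a : U) : U ⧸ A)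
      rw [QuotientGroup.eq, inv_mul_cancel_left]
      exact ha
  exact ⟨(MulEquiv.ofBijective f hf).symm⟩

end grp

/-- the number of complements of `A` -/
def nC {U : Type} [Group U] (A : Subgroup U) : ℕ :=
  Nat.card {V : Subgroup U // V ⊓ A = ⊥ ∧ V ⊔ A = ⊤}

variable {E U : Type} [Group E] [Finite E] [Group U] {q : E →* U} {A : Subgroup U}
  [hAn : A.Normal] {G : Subgroup E} {ℓ p : ℕ} [hl : Fact ℓ.Prime] [hp : Fact p.Prime]
  {F : Type} [Field F] [IsAlgClosed F] [CharP F p] (red : integralClosure ℤ ℂ →+* F)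

omit [Finite E] hAn [IsAlgClosed F] [CharP F p] hl hp in
theorem ker_r (hq : q.ker = G) [A.Normal] : ((QuotientGroup.mk' A).comp q).ker = A.comap q := by
  ext x
  rw [MonoidHom.mem_ker, Subgroup.mem_comap]
  exact QuotientGroup.eq_one_iff _

omit hAn in
/-- the chains above a complement -/
theorem above_zero [A.Normal] (hq : q.ker = G) (hA : Nat.card A = p) (hW : Ok p red (U ⧸ A))
    {z : E → F} (hz : ∀ g x, z (g * x * g⁻¹) = z x) (hz0 : ∀ x, x ∉ G → z x = 0) (c₀ : F)
    {D' : ℕ} (hD : 1 ≤ D') {R : Subgroup E} (hR : IsPGroup p R) (hR0 : R ≠ ⊥)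
    (hRN : R ≤ A.comap q) (hGR : G ⊓ R = ⊥) :
    chs {P : Subgroup E | IsPGroup p P ∧ R < P ∧
        P ≤ A.comap q ⊓ Subgroup.normalizer (R : Set E)}
      (wt (Subgroup.normalizer (R : Set E)) (fun S => (Nat.card ↥(A.comap q ⊓ S) : ℤ) *
        xc p red (A.comap q) ((QuotientGroup.mk' A).comp q) ⊤ z c₀ (D' + 1) S)) = 0 := by
  set L := Subgroup.normalizer (R : Set E) with hL
  have hRL : R ≤ L := Subgroup.le_normalizer
  have hn : (R.subgroupOf L).Normal := by
    constructor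
    intro x hx g
    rw [Subgroup.mem_subgroupOf] at hx ⊢
    exact (Subgroup.mem_normalizer_iff.1 g.2 x).1 hx
  let π : L →* L ⧸ R.subgroupOf L := QuotientGroup.mk' _
  have hπ : Function.Surjective π := QuotientGroup.mk'_surjective _
  have hk : π.ker = R.subgroupOf L := QuotientGroup.ker_mk' _
  rw [al_above hRL hRN hR π hπ hk]
  let r' : (L ⧸ R.subgroupOf L) →* U ⧸ A := QuotientGroup.lift _
    (((QuotientGroup.mk' A).comp q).comp L.subtype) (fun x hx =>
      (QuotientGroup.eq_one_iff _).2 (hRN (Subgroup.mem_subgroupOf.1 hx)))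
  have hr' : ∀ x : L, r' (π x) = (QuotientGroup.mk' A) (q x) := fun x => rfl
  have e1 : al p (((A.comap q).subgroupOf L).map π) (fun S => (fun S =>
      (Nat.card ↥(A.comap q ⊓ S) : ℤ) * xc p red (A.comap q)
        ((QuotientGroup.mk' A).comp q) ⊤ z c₀ (D' + 1) S) ((S.comap π).map L.subtype)) =
      al p (Nb q A π) (fun S' => ((p : ℤ) * (Nat.card {μ : A →* ℂˣ // Iv A μ} : ℤ)) *
        ((Nat.card ↥(Nb q A π ⊓ S') : ℤ) * xc p red (Nb q A π) r' ⊤ (pf z π) c₀ D' S')) := by
    refine al_congr fun σ _ _ => ?_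
    change (Nat.card ↥(A.comap q ⊓ Up π (chainStabilizer σ)) : ℤ) * xc p red (A.comap q)
        ((QuotientGroup.mk' A).comp q) ⊤ z c₀ (D' + 1) (Up π (chainStabilizer σ)) = _
    rw [linx hk hRL hRN hq hA hGR hR0 le_rfl red r' hr' hπ hz hz0 c₀ D',
      card_J hk hRL hRN hq hA hGR hR0]
    push_cast
    ring
  rw [e1, al_mul]
  have hpf : ∀ g x, pf z π (g * x * g⁻¹) = pf z π x := pf_class (fun g _ x => hz g x) π hπ
  have e2 : al p (Nb q A π) (fun S' => (Nat.card ↥(Nb q A π ⊓ S') : ℤ) *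
      xc p red (Nb q A π) r' ⊤ (pf z π) c₀ D' S') = 0 := by
    by_cases hs : Function.Surjective r'
    · have hker : r'.ker = Nb q A π := by
        ext y
        obtain ⟨x, rfl⟩ := hπ y
        rw [MonoidHom.mem_ker, hr']
        constructor
        · intro h
          have h1 : q x ∈ A := (QuotientGroup.eq_one_iff _).1 h
          exact ⟨x, Subgroup.mem_subgroupOf.2 h1, rfl⟩
        · rintro ⟨x', hx', h⟩
          rw [← hr', ← h, hr']
          exact (QuotientGroup.eq_one_iff _).2 (Subgroup.mem_subgroupOf.1 hx')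
      exact blx hker hs (ok_iso Subgroup.topEquiv.symm hW) hpf c₀ hD
    · refine al_zero fun σ _ _ => ?_
      have h0 : xc p red (Nb q A π) r' ⊤ (pf z π) c₀ D' (chainStabilizer σ) = 0 := by
        unfold xc xk
        have : IsEmpty {χ : ↥(Nb q A π ⊓ chainStabilizer σ) → ℂ // IsIrrChar χ ∧
            (Dft p D' χ ∧ Inq r' ⊤ (chainStabilizer σ) χ ∧
              centralValue red χ (fun x => pf z π x) = c₀)} := by
          refine ⟨?_⟩
          rintro ⟨χ, -, -, h, -⟩
          apply hs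
          intro u
          obtain ⟨e, -, h1, -⟩ := h u (Subgroup.mem_top _)
          exact ⟨e, h1⟩
        rw [Nat.card_of_isEmpty]
        rfl
      rw [h0, mul_zero]
  rw [e2, mul_zero]

omit hAn in
/-- **The relation.** -/
theorem rel [A.Normal] (hq : q.ker = G) (hs : Function.Surjective q) (hA : Nat.card A = ℓ)
    (hW : Ok p red (U ⧸ A)) {z : E → F} (hz : ∀ g x, z (g * x * g⁻¹) = z x)
    (hz0 : ∀ x, x ∉ G → z x = 0) (c₀ : F) {D' : ℕ} (hD : 1 ≤ D') :
    (ℓ : ℤ) * al p G (fun S => (Nat.card ↥(G ⊓ S) : ℤ) *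
        yc p red (G_le A hq) 1 z c₀ D' S) =
      (nC A : ℤ) * al p G (fun S => (Nat.card ↥(G ⊓ S) : ℤ) *
        xc p red G q ⊤ z c₀ (D' + ℓ.factorization p) S) := by
  have hGn : G.Normal := G_normal hq
  have hU : Finite U := Finite.of_surjective q hs
  have _iU : Fintype (Subgroup U) := Fintype.ofFinite _
  set D := D' + ℓ.factorization p with hDD
  have hD1 : 1 ≤ D := by omega
  set f : Subgroup E → ℤ := fun S => (Nat.card ↥(A.comap q ⊓ S) : ℤ) *
    xc p red (A.comap q) ((QuotientGroup.mk' A).comp q) ⊤ z c₀ D S with hf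
  have hrs : Function.Surjective ((QuotientGroup.mk' A).comp q) :=
    (QuotientGroup.mk'_surjective A).comp hs
  have h1 : al p (A.comap q) f = 0 :=
    blx (ker_r hq) hrs (ok_iso Subgroup.topEquiv.symm hW) hz c₀ hD1
  have h2 := al_dec (p := p) (G_le A hq) f
  have h3 : (∑ᶠ R : Subgroup E, if IsPGroup p R ∧ R ≠ ⊥ ∧ R ≤ A.comap q ∧ G ⊓ R = ⊥ then
        chs {P : Subgroup E | IsPGroup p P ∧ R < P ∧
          P ≤ A.comap q ⊓ Subgroup.normalizer (R : Set E)}
          (wt (Subgroup.normalizer (R : Set E)) f) else 0) = 0 := by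
    refine (finsum_congr fun R => ?_).trans (finsum_zero (α := Subgroup E))
    by_cases h4 : IsPGroup p R ∧ R ≠ ⊥ ∧ R ≤ A.comap q ∧ G ⊓ R = ⊥
    · rw [if_pos h4]
      obtain ⟨hR, hR0, hRN, hGR⟩ := h4
      -- `ℓ = p`
      have hcR := card_R (p := ℓ) hRN hq hA hGR hR0
      obtain ⟨k, hk⟩ := IsPGroup.iff_card.1 hR
      have hlp : ℓ = p := by
        have h5 : ℓ ∣ p := by
          refine hl.out.dvd_of_dvd_pow (n := k) ?_
          rw [← hk, hcR]
        exact ((Nat.prime_dvd_prime_iff_eq hl.out hp.out).1 h5)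
      subst hlp
      have h6 : D = D' + 1 := by
        rw [hDD, hl.out.factorization, Finsupp.single_eq_same]
      rw [hf, h6]
      exact above_zero red hq hA hW hz hz0 c₀ hD hR hR0 hRN hGR
    · rw [if_neg h4]
  rw [h1, h3, sub_zero] at h2
  have h5 : al p G f = (ℓ : ℤ) * al p G (fun S => (Nat.card ↥(G ⊓ S) : ℤ) *
        yc p red (G_le A hq) 1 z c₀ D' S) +
      ∑ V ∈ (Finset.univ : Finset (Subgroup U)).filter (fun V => V ⊓ A = ⊥ ∧ V ⊔ A = ⊤),
        (al p G (fun S => (Nat.card ↥(G ⊓ S) : ℤ) * xc p red G q V z c₀ D S) -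
          al p G (fun S => (Nat.card ↥(G ⊓ S) : ℤ) * xc p red G q ⊤ z c₀ D S)) := by
    rw [← al_mul]
    have h6 : ∀ V : Subgroup U,
        al p G (fun S => (Nat.card ↥(G ⊓ S) : ℤ) * xc p red G q V z c₀ D S) -
          al p G (fun S => (Nat.card ↥(G ⊓ S) : ℤ) * xc p red G q ⊤ z c₀ D S) =
        al p G (fun S => (Nat.card ↥(G ⊓ S) : ℤ) *
          (xc p red G q V z c₀ D S - xc p red G q ⊤ z c₀ D S)) := by
      intro V
      rw [← al_sub]
      exact al_congr fun σ _ _ => by ring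
    rw [Finset.sum_congr rfl fun V _ => h6 V, ← al_sum, ← al_add]
    refine al_congr fun σ _ _ => ?_
    rw [hf]
    change (Nat.card ↥(A.comap q ⊓ chainStabilizer σ) : ℤ) * xc p red (A.comap q)
      ((QuotientGroup.mk' A).comp q) ⊤ z c₀ D (chainStabilizer σ) = _
    rw [mi red hq hA hz hz0 c₀ hDD (chainStabilizer σ), pk_sum red hq hA, Finset.mul_sum]
  rw [← h2] at h5
  have h7 : ∀ V ∈ (Finset.univ : Finset (Subgroup U)).filter
      (fun V => V ⊓ A = ⊥ ∧ V ⊔ A = ⊤),
      (al p G (fun S => (Nat.card ↥(G ⊓ S) : ℤ) * xc p red G q V z c₀ D S) -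
          al p G (fun S => (Nat.card ↥(G ⊓ S) : ℤ) * xc p red G q ⊤ z c₀ D S)) =
      - al p G (fun S => (Nat.card ↥(G ⊓ S) : ℤ) * xc p red G q ⊤ z c₀ D S) := by
    intro V hV
    obtain ⟨-, h8, h9⟩ := Finset.mem_filter.1 hV
    obtain ⟨e⟩ := compl_iso h8 h9
    rw [blx hq hs (ok_iso e hW) hz c₀ hD1, zero_sub]
  rw [Finset.sum_congr rfl h7, Finset.sum_const, nsmul_eq_mul] at h5
  have h8 : nC A = ((Finset.univ : Finset (Subgroup U)).filter
      (fun V => V ⊓ A = ⊥ ∧ V ⊔ A = ⊤)).card := by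
    unfold nC
    exact Nat.subtype_card _ fun V => by
      rw [Finset.mem_filter]
      exact ⟨fun h => h.2, fun h => ⟨Finset.mem_univ _, h⟩⟩
  rw [h8]
  linarith

end Run7.h759.DI
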