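import Pool.Agent.Run7.h759.DI.PS3
import Pool.Agent.Run7.h759.DI.Rel
import Pool.Agent.Run7.h759.DI.Ab

/-!
# The relation between the sums for `N` and for `G` (helper759)
-/

set_option autoImplicit false
set_option linter.unusedSectionVars false

open scoped Classical BigOperators

noncomputable section

namespace Run7.h759.DI

open Pool.Agent.Y63.NV (IsClassFun centralValue IsBlock numDzBlock)
open Pool.Agent.Helper884.IC (IsIrrChar)
open Pool.Agent.Y63.KR (IsPChain chainStabilizer)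
open Pool.Agent.R674.Ce (chs wt)
open Pool.Agent.Q99.AS (Dft)

section perf

variable {E U : Type} [Group E] [Finite E] [Group U] {q : E →* U × C2} {G : Subgroup E}
  {p : ℕ} [hp : Fact p.Prime] {F : Type} [Field F] [IsAlgClosed F] [CharP F p]
  (red : integralClosure ℤ ℂ →+* F)

theorem yc_perf [Finite U] (hU : commutator U = ⊤) (hq : q.ker = G) (z : E → F) (D : ℕ)
    (S : Subgroup E) :
    yc p red (G_le (A2 U) hq) 1 z 1 D S = 2 * xc p red G q ⊤ z 1 D S := by
  have h2 : Fact (Nat.Prime 2) := Nat.fact_prime_two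
  have _fA : Finite (A2 U) := inferInstance
  have hcA : ∀ a b : A2 U, a * b = b * a := by
    intro a b
    apply Subtype.ext
    refine Prod.ext ?_ ?_
    · change (a : U × C2).1 * (b : U × C2).1 = (b : U × C2).1 * (a : U × C2).1
      rw [mem_A2.1 a.2, mem_A2.1 b.2]
    · exact mul_comm _ _
  have _f : Finite (A2 U →* ℂˣ) := fin_dual hcA
  have _i : Fintype (U × C2 → A2 U →* ℂˣ) := Fintype.ofFinite _
  have h1 := ext_sum (ℓ := 2) red hq card_A2 p z 1 D S
  rw [Finset.sum_eq_single (1 : U × C2 → A2 U →* ℂˣ)] at h1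
  · rw [h1]
    rfl
  · intro c _ hc
    exact t_cr (p := p) red hq card_A2 (fun h => hc (cr_one hU h)) z D S
  · intro h
    exact absurd (Finset.mem_univ _) h

end perf

variable {E U : Type} [Group E] [Finite E] [Group U] {q : E →* U} {A : Subgroup U}
  [hAn : A.Normal] {G : Subgroup E} {ℓ p : ℕ} [hl : Fact ℓ.Prime] [hp : Fact p.Prime]
  {F : Type} [Field F] [IsAlgClosed F] [CharP F p] (red : integralClosure ℤ ℂ →+* F)

/-- the sum over the chains of `N` -/
def fN (p : ℕ) (red : integralClosure ℤ ℂ →+* F) (q : E →* U) (A : Subgroup U) [A.Normal]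
    (z : E → F) (c₀ : F) (D : ℕ) (S : Subgroup E) : ℤ :=
  (Nat.card ↥(A.comap q ⊓ S) : ℤ) *
    xc p red (A.comap q) ((QuotientGroup.mk' A).comp q) ⊤ z c₀ D S

/-- the contribution of the chains which are not contained in `G` -/
def ab (p : ℕ) (red : integralClosure ℤ ℂ →+* F) (q : E →* U) (A : Subgroup U) [A.Normal]
    (G : Subgroup E) (z : E → F) (c₀ : F) (D : ℕ) : ℤ :=
  ∑ᶠ R : Subgroup E, if IsPGroup p R ∧ R ≠ ⊥ ∧ R ≤ A.comap q ∧ G ⊓ R = ⊥ then
    chs {P : Subgroup E | IsPGroup p P ∧ R < P ∧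
      P ≤ A.comap q ⊓ Subgroup.normalizer (R : Set E)}
      (wt (Subgroup.normalizer (R : Set E)) (fN p red q A z c₀ D)) else 0

omit hAn in
/-- **The relation without assumptions.** -/
theorem rel_id [A.Normal] [Fintype (Subgroup U)] (hq : q.ker = G) (hA : Nat.card A = ℓ)
    {z : E → F} (hz : ∀ g x, z (g * x * g⁻¹) = z x)
    (hz0 : ∀ x, x ∉ G → z x = 0) (c₀ : F) {D' D : ℕ} (hD : D = D' + ℓ.factorization p) :
    al p (A.comap q) (fN p red q A z c₀ D) + ab p red q A G z c₀ D =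
      (ℓ : ℤ) * al p G (fun S => (Nat.card ↥(G ⊓ S) : ℤ) *
        yc p red (G_le A hq) 1 z c₀ D' S) +
      ∑ V ∈ (Finset.univ : Finset (Subgroup U)).filter (fun V => V ⊓ A = ⊥ ∧ V ⊔ A = ⊤),
        (al p G (fun S => (Nat.card ↥(G ⊓ S) : ℤ) * xc p red G q V z c₀ D S) -
          al p G (fun S => (Nat.card ↥(G ⊓ S) : ℤ) * xc p red G q ⊤ z c₀ D S)) := by
  have hGn : G.Normal := G_normal hq
  have h2 := al_dec (p := p) (G_le A hq) (fN p red q A z c₀ D)
  rw [h2]
  unfold ab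
  rw [sub_add_cancel, ← al_mul]
  have h6 : ∀ V : Subgroup U,
      al p G (fun S => (Nat.card ↥(G ⊓ S) : ℤ) * xc p red G q V z c₀ D S) -
        al p G (fun S => (Nat.card ↥(G ⊓ S) : ℤ) * xc p red G q ⊤ z c₀ D S) =
      al p G (fun S => (Nat.card ↥(G ⊓ S) : ℤ) *
        (xc p red G q V z c₀ D S - xc p red G q ⊤ z c₀ D S)) := by
    intro V
    rw [← al_sub]
    exact al_congr fun σ _ _ => by ring
  rw [Finset.sum_congr rfl fun V _ => h6 V, ← al_sum, ← al_add]
  refine al_congr fun σ _ _ => ?_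
  change (Nat.card ↥(A.comap q ⊓ chainStabilizer σ) : ℤ) * xc p red (A.comap q)
    ((QuotientGroup.mk' A).comp q) ⊤ z c₀ D (chainStabilizer σ) = _
  rw [mi red hq hA hz hz0 c₀ hD (chainStabilizer σ), pk_sum red hq hA, Finset.mul_sum]

theorem ab_zero (hq : q.ker = G) (hA : Nat.card A = ℓ) (hlp : ℓ ≠ p) (z : E → F) (c₀ : F) (D : ℕ) :
    ab p red q A G z c₀ D = 0 := by
  unfold ab
  refine (finsum_congr fun R => ?_).trans (finsum_zero (α := Subgroup E))
  rw [if_neg]
  rintro ⟨hR, hR0, hRN, hGR⟩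
  have hcR := card_R (p := ℓ) hRN hq hA hGR hR0
  obtain ⟨k, hk⟩ := IsPGroup.iff_card.1 hR
  apply hlp
  have h5 : ℓ ∣ p := by
    refine hl.out.dvd_of_dvd_pow (n := k) ?_
    rw [← hk, hcR]
  exact ((Nat.prime_dvd_prime_iff_eq hl.out hp.out).1 h5)

end Run7.h759.DI
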