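import Pool.Agent.Run7.h759.DI.PS4
import Pool.Agent.Y63.AWC.Z1

/-!
# Class functions with values `0` and `1` at the blocks: normal overgroups (helper759)
-/

set_option autoImplicit false
set_option linter.unusedSectionVars false

open scoped Classical BigOperators

noncomputable section

namespace Run7.h759.DI

open Pool.Agent.Y63.NV (IsClassFun centralValue IsBlock numDzBlock)
open Pool.Agent.Helper884.IC (IsIrrChar Irr mem_Irr)
open Pool.Agent.Y63.AWC (irr_comp mult Orb cj res res_eq support_eq mult_exists mult_cj Orb_irr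
  deg_eq)

/-- the central values of a character and of a constituent of the restriction to a normal
subgroup -/
theorem cliff_cv {F : Type} [Field F] (red : integralClosure ℤ ℂ →+* F) {X : Type} [Group X]
    [Fintype X] (M : Subgroup X) [M.Normal] {z : X → F} (hz : IsClassFun z)
    (hz0 : ∀ x, x ∉ M → z x = 0) {χ : X → ℂ} (hχ : IsIrrChar χ) :
    ∃ θ : M → ℂ, IsIrrChar θ ∧
      centralValue red χ z = centralValue red θ (fun n : M => z n) := by
  obtain ⟨θ, hθ, hm⟩ := mult_exists M hχ
  refine ⟨θ, hθ, ?_⟩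
  have h2 := res_eq M hχ
  have h3 : ∑ t ∈ Irr M, (mult M χ t : ℂ) • t = ∑ t ∈ Orb M θ, (mult M χ θ : ℂ) • t := by
    rw [← support_eq M hχ hθ hm, ← Finset.sum_filter_of_ne (p := fun t => mult M χ t ≠ 0)]
    · refine Finset.sum_congr rfl fun t ht => ?_
      have h4 : t ∈ Orb M θ := by
        rw [← support_eq M hχ hθ hm]
        exact ht
      obtain ⟨x, -, rfl⟩ := Finset.mem_image.mp h4
      rw [mult_cj M hχ hθ]
    · intro t _ h h0
      apply h
      rw [h0, Nat.cast_zero, zero_smul]
  rw [h3] at h2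
  refine Pool.Agent.N565.DI.CL3 F red X M z hz hz0 χ θ hχ hθ ((Orb M θ).card * mult M χ θ) ?_ ?_
  · have h4 := congrFun h2 1
    rw [Finset.sum_apply] at h4
    have h5 : ∀ t ∈ Orb M θ, ((mult M χ θ : ℂ) • t) 1 = (mult M χ θ : ℂ) * θ 1 := by
      intro t ht
      obtain ⟨x, -, rfl⟩ := Finset.mem_image.mp ht
      rw [Pi.smul_apply, smul_eq_mul]
      have : cj M x θ 1 = θ 1 := by simp [cj]
      rw [this]
    rw [Finset.sum_congr rfl h5, Finset.sum_const, nsmul_eq_mul] at h4
    have h6 : res M χ 1 = χ 1 := rfl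
    rw [← h6, h4]
    push_cast
    ring
  · intro f hf
    have h4 : ∀ n : M, f n * χ n = ∑ t ∈ Orb M θ, (mult M χ θ : ℂ) * (f n * t n) := by
      intro n
      have h5 : χ n = res M χ n := rfl
      rw [h5, h2, Finset.sum_apply, Finset.mul_sum]
      refine Finset.sum_congr rfl fun t _ => ?_
      rw [Pi.smul_apply, smul_eq_mul]
      ring
    rw [Finset.sum_congr rfl fun n _ => h4 n, Finset.sum_comm]
    have h5 : ∀ t ∈ Orb M θ, ∑ n : M, (mult M χ θ : ℂ) * (f n * t n) =
        (mult M χ θ : ℂ) * ∑ n : M, f n * θ n := by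
      intro t ht
      obtain ⟨x, -, rfl⟩ := Finset.mem_image.mp ht
      rw [← Finset.mul_sum]
      congr 1
      refine Fintype.sum_equiv (MulAut.conjNormal x).toEquiv _ _ fun n => ?_
      have h6 : ((MulAut.conjNormal x n : M) : X) = x * n * x⁻¹ := rfl
      change f n * θ (MulAut.conjNormal x n) = f ((MulAut.conjNormal x n : M) : X) * _
      rw [h6, hf]
      rfl
    rw [Finset.sum_congr rfl h5, Finset.sum_const, nsmul_eq_mul]
    push_cast
    ring

variable {E : Type} [Group E] [Finite E] {F : Type} [Field F]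

/-- overgroups -/
theorem vg_over {p : ℕ} [Fact p.Prime] [IsAlgClosed F] [CharP F p]
    (red : integralClosure ℤ ℂ →+* F) {G N : Subgroup E} [G.Normal] (hGN : G ≤ N)
    {z : E → F} (hz : ∀ g x, z (g * x * g⁻¹) = z x) (hz0 : ∀ x, x ∉ G → z x = 0)
    (hv : Vg G z) : Vg N z := by
  refine Vg.of_irr red hz fun χ hχ => ?_
  have _i : Fintype N := Fintype.ofFinite _
  have hn : (G.subgroupOf N).Normal := inferInstance
  obtain ⟨θ, hθ, h1⟩ := cliff_cv red (G.subgroupOf N) (z := fun x : N => z x)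
    (fun g x => hz g x) (fun x hx => hz0 _ fun h => hx (Subgroup.mem_subgroupOf.2 h)) hχ
  rw [h1]
  have e0 : (G ⊓ ⊤ : Subgroup E) = G := inf_top_eq G
  let e : ↥(G ⊓ ⊤ : Subgroup E) ≃* ↥(G.subgroupOf N) :=
    (MulEquiv.subgroupCongr e0).trans (Subgroup.subgroupOfEquivOfLe hGN).symm
  have hθ' : IsIrrChar (fun x => θ (e x)) := irr_comp e hθ
  have h2 := Pool.Agent.Y286.NV.centralValue_comp red e θ
    (Pool.Agent.Y286.NV.irr_class hθ) (fun x : ↥(G.subgroupOf N) => z x)
    (fun g x => hz (g : N) (x : N))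
  rw [← h2]
  exact hv.irr (p := p) red hθ'

end Run7.h759.DI
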