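import Pool.Agent.Run7.h759.DI.PS5

/-!
# Divisibility of the sums: the relation for the swap group (helper759)
-/

set_option autoImplicit false
set_option linter.unusedSectionVars false

open scoped Classical BigOperators

noncomputable section

namespace Run7.h759.DI

open Pool.Agent.Y63.NV (IsClassFun centralValue IsBlock numDzBlock)
open Pool.Agent.Helper884.IC (IsIrrChar Irr mem_Irr)
open Pool.Agent.Y63.KR (IsPChain chainStabilizer)
open Pool.Agent.Q99.AS (Dft)

/-- a sum over an antidiagonal -/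
theorem anti_dvd {f : ℕ → ℤ} {n : ℕ} {M : ℤ} (h1 : M ∣ f n * f n)
    (h2 : ∀ i j, i < j → i + j = 2 * n → M ∣ 2 * (f i * f j)) :
    M ∣ ∑ i ∈ Finset.HasAntidiagonal.antidiagonal (2 * n), f i.1 * f i.2 := by
  have e1 := Finset.sum_filter_add_sum_filter_not
    (Finset.HasAntidiagonal.antidiagonal (2 * n)) (fun i => i.1 < i.2) (fun i => f i.1 * f i.2)
  have e2 := Finset.sum_filter_add_sum_filter_not
    ((Finset.HasAntidiagonal.antidiagonal (2 * n)).filter (fun i => ¬ i.1 < i.2))
      (fun i => i.2 < i.1) (fun i => f i.1 * f i.2)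
  have e3 : ∑ i ∈ ((Finset.HasAntidiagonal.antidiagonal (2 * n)).filter
      (fun i => ¬ i.1 < i.2)).filter (fun i => i.2 < i.1), f i.1 * f i.2 =
      ∑ i ∈ (Finset.HasAntidiagonal.antidiagonal (2 * n)).filter (fun i => i.1 < i.2),
        f i.1 * f i.2 := by
    refine Finset.sum_nbij' (fun i => (i.2, i.1)) (fun i => (i.2, i.1)) ?_ ?_ ?_ ?_ ?_
    · intro i hi
      simp only [Finset.mem_filter, Finset.HasAntidiagonal.mem_antidiagonal] at hi ⊢
      omega
    · intro i hi
      simp only [Finset.mem_filter, Finset.HasAntidiagonal.mem_antidiagonal] at hi ⊢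
      omega
    · intro i _
      rfl
    · intro i _
      rfl
    · intro i _
      exact mul_comm _ _
  rw [← e1, ← e2, e3]
  have e4 : ∀ a b : ℤ, a + (a + b) = 2 * a + b := fun a b => by ring
  rw [e4, Finset.mul_sum]
  refine dvd_add (Finset.dvd_sum fun i hi => ?_) (Finset.dvd_sum fun i hi => ?_)
  · simp only [Finset.mem_filter, Finset.HasAntidiagonal.mem_antidiagonal] at hi
    exact h2 _ _ hi.2 hi.1
  · simp only [Finset.mem_filter, Finset.HasAntidiagonal.mem_antidiagonal] at hi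
    have h3 : i.1 = n := by omega
    have h4 : i.2 = n := by omega
    rw [h3, h4]
    exact h1

/-- the order of the preimage -/
theorem card_comap {E U : Type} [Group E] [Finite E] [Group U] {q : E →* U}
    (hs : Function.Surjective q) (A : Subgroup U) :
    Nat.card (A.comap q) = Nat.card A * Nat.card q.ker := by
  let f : ↥(A.comap q) →* A := (q.comp (A.comap q).subtype).codRestrict A (fun x => x.2)
  have hf : Function.Surjective f := by
    rintro ⟨a, ha⟩
    obtain ⟨x, rfl⟩ := hs a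
    exact ⟨⟨x, ha⟩, rfl⟩
  have h1 := Subgroup.card_eq_card_quotient_mul_card_subgroup f.ker
  rw [Nat.card_congr (QuotientGroup.quotientKerEquivOfSurjective f hf).toEquiv] at h1
  rw [h1]
  congr 1
  have h2 : f.ker = q.ker.subgroupOf (A.comap q) := by
    ext x
    rw [MonoidHom.mem_ker, Subgroup.mem_subgroupOf, MonoidHom.mem_ker]
    exact ⟨fun h => congrArg Subtype.val h, fun h => Subtype.ext h⟩
  rw [h2]
  refine Nat.card_congr (Subgroup.subgroupOfEquivOfLe ?_).toEquiv
  intro x hx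
  rw [Subgroup.mem_comap, MonoidHom.mem_ker.1 hx]
  exact A.one_mem

section

variable {F : Type} [Field F]

/-- the sum -/
def XX (p : ℕ) (red : integralClosure ℤ ℂ →+* F) {E U : Type} [Group E] [Group U] (q : E →* U)
    (z : E → F) (D : ℕ) : ℤ :=
  al p q.ker (fun S => (Nat.card ↥(q.ker ⊓ S) : ℤ) * xc p red q.ker q ⊤ z 1 D S)

/-- the sums are divisible by `2 ^ a |G|` -/
def Hb (p : ℕ) (red : integralClosure ℤ ℂ →+* F) (a : ℕ) (U : Type) [Group U] : Prop :=
  ∀ (E : Type) [Group E] [Finite E] (q : E →* U), Function.Surjective q → ∀ z : E → F,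
    (∀ g x, z (g * x * g⁻¹) = z x) → (∀ x, x ∉ q.ker → z x = 0) → (∀ x, z x⁻¹ = z x) →
    Vg q.ker z → ∀ D, 1 ≤ D → (2 : ℤ) ^ a * Nat.card q.ker ∣ XX p red q z D

theorem XX_iso {p : ℕ} {red : integralClosure ℤ ℂ →+* F} {E U U' : Type} [Group E] [Group U]
    [Group U'] (q : E →* U) (e : U ≃* U') (z : E → F) (D : ℕ) :
    (e.toMonoidHom.comp q).ker = q.ker ∧ XX p red (e.toMonoidHom.comp q) z D = XX p red q z D := by
  have hk : (e.toMonoidHom.comp q).ker = q.ker := by
    ext x
    rw [MonoidHom.mem_ker, MonoidHom.mem_ker]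
    exact ⟨fun h => e.injective (h.trans (map_one e).symm), fun h => by
      change e (q x) = 1
      rw [h, map_one]⟩
  refine ⟨hk, ?_⟩
  unfold XX
  rw [hk]
  refine al_congr fun σ _ _ => ?_
  congr 1
  unfold xc xk
  congr 1
  refine Nat.card_congr (Equiv.subtypeEquivRight fun χ => ?_)
  refine and_congr_right fun _ => and_congr_right fun _ => and_congr_left fun _ => ?_
  constructor
  · intro h u _
    obtain ⟨x, hx, h1, h2⟩ := h (e u) (Subgroup.mem_top _)
    exact ⟨x, hx, e.injective h1, h2⟩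
  · intro h u _
    obtain ⟨x, hx, h1, h2⟩ := h (e.symm u) (Subgroup.mem_top _)
    refine ⟨x, hx, ?_, h2⟩
    change e (q x) = u
    rw [h1, e.apply_symm_apply]

theorem Hb.iso {p : ℕ} {red : integralClosure ℤ ℂ →+* F} {a : ℕ} {U U' : Type} [Group U]
    [Group U'] (e : U ≃* U') (h : Hb p red a U) : Hb p red a U' := by
  intro E _ _ q hs z h1 h2 h3 h4 D hD
  obtain ⟨e1, e2⟩ := XX_iso (p := p) (red := red) q e.symm z D
  have h5 := h E (e.symm.toMonoidHom.comp q) (e.symm.surjective.comp hs) z h1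
    (by rw [e1]; exact h2) h3 (by rw [e1]; exact h4) D hD
  rw [e1, e2] at h5
  exact h5

/-- `|G|` divides the sums -/
theorem XX_dvd {p : ℕ} {red : integralClosure ℤ ℂ →+* F} {E U : Type} [Group E] [Finite E]
    [Group U] (q : E →* U) {z : E → F} (hz : ∀ g x, z (g * x * g⁻¹) = z x) (D : ℕ) :
    (Nat.card q.ker : ℤ) ∣ XX p red q z D := by
  unfold XX
  rw [← al_inv (p := p) (G := q.ker) (fun S => xc p red q.ker q ⊤ z 1 D S)]
  · exact dvd_mul_right _ _
  · intro g hg σ
    rw [Pool.Agent.Y63.KR.chainStabilizer_conj]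
    have h1 := xc_conj red (rfl : q.ker = q.ker) p (V := ⊤) (e := g)
      (fun u _ => ⟨Subgroup.mem_top _, Subgroup.mem_top _⟩) hz 1 D (chainStabilizer σ)
    rw [← Nat.card_congr (cc (rfl : q.ker = q.ker) g (chainStabilizer σ)).toEquiv] at h1
    exact mul_left_cancel₀ (by exact_mod_cast Nat.card_pos.ne') h1

end

section swap

variable {E U : Type} [Group E] [Finite E] [Group U] [Finite U] {q : E →* U}
  {p : ℕ} [hp : Fact p.Prime]
  {F : Type} [Field F] [IsAlgClosed F] [CharP F p] (red : integralClosure ℤ ℂ →+* F)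

omit [Finite E] [Finite U] hp [IsAlgClosed F] [CharP F p] in
theorem zT_real {z : E → F} (hr : ∀ x, z x⁻¹ = z x) (x : SW q) :
    zT (qh q) (s2 U) z x⁻¹ = zT (qh q) (s2 U) z x := by
  unfold zT
  by_cases h : x.g = 1
  · rw [if_pos h, if_pos (by rw [TG.inv_g, h, inv_one])]
    refine Finset.prod_congr rfl fun t _ => ?_
    rw [TG.inv_f, h, one_smul, hr]
  · rw [if_neg h, if_neg (by rw [TG.inv_g, inv_eq_one]; exact h)]

omit hp [IsAlgClosed F] [CharP F p] in
/-- the order of the base -/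
theorem card_base : Nat.card (TG.qq (qh q) (s2 U)).ker = Nat.card q.ker ^ 2 := by
  have h1 := Nat.card_congr (eK (qh q) (s2 U) ⊤).toEquiv
  have h2 : (TG.qq (qh q) (s2 U)).ker ⊓ TS (qh q) (s2 U) ⊤ = (TG.qq (qh q) (s2 U)).ker := by
    ext x
    exact ⟨fun h => h.1, fun h => ⟨h, fun t => Subgroup.mem_top _⟩⟩
  rw [h2, Nat.card_fun, card_T2, inf_top_eq, qh_ker] at h1
  exact h1

theorem sw_surj (hs : Function.Surjective q) : Function.Surjective (TG.qq (qh q) (s2 U)) :=
  TG.qq_surj (t₀ := t0) s2_smul (qh_range q hs)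

omit hp [IsAlgClosed F] [CharP F p] in
theorem card_NN (hs : Function.Surjective q) :
    Nat.card ((A2 U).comap (TG.qq (qh q) (s2 U))) = 2 * Nat.card q.ker ^ 2 := by
  rw [card_comap (sw_surj hs), card_A2, card_base]

omit hp [IsAlgClosed F] [CharP F p] in
theorem xc_qh (hs : Function.Surjective q) (z : E → F) (D : ℕ) (S : Subgroup E) :
    xc p red q.ker (qh q) (qh q).range z 1 D S = xc p red q.ker q ⊤ z 1 D S := by
  unfold xc xk
  congr 1
  refine Nat.card_congr (Equiv.subtypeEquivRight fun χ => ?_)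
  refine and_congr_right fun _ => and_congr_right fun _ => and_congr_left fun _ => ?_
  constructor
  · intro h u _
    obtain ⟨x, rfl⟩ := hs u
    obtain ⟨e, he, h1, h2⟩ := h (qh q x) ⟨x, rfl⟩
    exact ⟨e, he, congrArg Prod.fst h1, h2⟩
  · rintro h _ ⟨x, rfl⟩
    obtain ⟨e, he, h1, h2⟩ := h (q x) (Subgroup.mem_top _)
    exact ⟨e, he, Prod.ext h1 rfl, h2⟩

/-- the power -/
theorem XX_sw (hs : Function.Surjective q) {z : E → F} (hz : ∀ g x, z (g * x * g⁻¹) = z x)
    (hv : Vg q.ker z) (D : ℕ) :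
    XX p red (TG.qq (qh q) (s2 U)) (zT (qh q) (s2 U) z) (2 * D) =
      (Nat.card q.ker : ℤ) * XX p red q z D := by
  have hv' : Z01 p red (qh q).ker z := by
    rw [qh_ker]
    exact hv.z01
  have h := al_xc_TG (p := p) red (t₀ := t0) s2_smul (qh_range q hs) hz hv' D
  rw [card_T2, pow_one, qh_ker] at h
  unfold XX
  rw [h]
  congr 1
  refine al_congr fun σ _ _ => ?_
  rw [xc_qh red hs]

omit [IsAlgClosed F] [CharP F p] in
/-- no characters of odd defect -/
theorem XX_odd {z : E → F} (hz : ∀ g x, z (g * x * g⁻¹) = z x) {D : ℕ} (hD : ¬ 2 ∣ D) :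
    XX p red (TG.qq (qh q) (s2 U)) (zT (qh q) (s2 U) z) D = 0 := by
  unfold XX
  have h1 : al p (TG.qq (qh q) (s2 U)).ker (fun S' =>
      (Nat.card ↥((TG.qq (qh q) (s2 U)).ker ⊓ S') : ℤ) *
        xc p red (TG.qq (qh q) (s2 U)).ker (TG.qq (qh q) (s2 U)) ⊤ (zT (qh q) (s2 U) z) 1 D S') =
      (Nat.card ↥(qh q).ker : ℤ) ^ (Nat.card T2 - 1) * al p (qh q).ker (fun _ => 0) := by
    refine al_TG (t₀ := t0) s2_smul ?_ ?_ ?_ ?_
    · intro S' h
      rw [xc_cover red p 1 _ h, mul_zero]
    · intro x S'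
      exact xc_conj red rfl p (fun u _ => ⟨Subgroup.mem_top _, Subgroup.mem_top _⟩)
        (zT_conj hz) 1 _ S'
    · intro e S
      rfl
    · intro σ _ _
      rw [xc_TG_zero (t₀ := t0) red s2_smul p (by rw [card_T2]; exact hD), mul_zero, mul_zero]
  rw [h1, al_zero (fun _ _ _ => rfl), mul_zero]

end swap

end Run7.h759.DI
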