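import Pool.Agent.Run7.h759.DI.PS6

/-!
# Divisibility of the contributions of the chains outside `G` (helper759)
-/

set_option autoImplicit false
set_option linter.unusedSectionVars false

open scoped Classical BigOperators

noncomputable section

namespace Run7.h759.DI

open Pool.Agent.Y63.NV (IsClassFun centralValue IsBlock numDzBlock)
open Pool.Agent.Helper884.IC (IsIrrChar Irr mem_Irr)
open Pool.Agent.Y63.AWC (irr_comp)
open Pool.Agent.Y63.KR (IsPChain chainStabilizer conjSub conjSub_eq_iff mem_chainStabilizer)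
open Pool.Agent.R674.Ce (chs wt Sp chs_eq)
open Pool.Agent.Q99.AS (Dft)
open Pool.Agent.N20.DI (pf pf_class mem_up)

variable {E U Q : Type} [Group E] [Finite E] [Group U] [Group Q] [Finite Q] {q : E →* U}
  {A : Subgroup U} [hAn : A.Normal] {G L R : Subgroup E} {π : L →* Q}
  {F : Type} [Field F]

omit hAn in
/-- central characters and inflation -/
theorem cv_pf (red : integralClosure ℤ ℂ →+* F) (hk : π.ker = R.subgroupOf L) (hRL : R ≤ L)
    (hRN : R ≤ A.comap q) {z : E → F} (hz : ∀ g x, z (g * x * g⁻¹) = z x) (S' : Subgroup Q)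
    {χ' : ↥(Nb q A π ⊓ S') → ℂ} (hχ' : IsIrrChar χ') :
    centralValue red (fun x => χ' (rho q A π S' x)) (fun x => z x) =
      centralValue red χ' (fun y => pf z π y) := by
  set S := Up π S' with hS
  set J := A.comap q ⊓ S with hJ
  have _iJ : Fintype ↥J := Fintype.ofFinite _
  have hJL : ∀ x ∈ J, x ∈ L := fun x hx => up_le S' (Subgroup.mem_inf.1 hx).2
  have hRJ : R ≤ J := R_le hk hRL hRN S'
  let ρ : ↥J →* ↥(Nb q A π ⊓ S') := rho q A π S'
  have hρ : Function.Surjective ρ := rho_surj S'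
  have h2 := Pool.Agent.Y930.NV.inf F red J _ ρ χ' (fun x : J => z x) hρ hχ'
      (fun g x => hz g x)
  have h3 : (fun y : ↥(Nb q A π ⊓ S') => ∑ᶠ x : J,
      @ite F (ρ x = y) (Classical.propDecidable _) (z x) 0) =
      fun y : ↥(Nb q A π ⊓ S') => pf z π (y : Q) := by
    funext y
    unfold pf
    let ι : J → L := fun x => ⟨x.1, hJL x.1 x.2⟩
    have hι : Function.Injective ι := fun a b h => Subtype.ext (congrArg (fun t : L => (t : E)) h)
    have e1 : ∀ x : J, (@ite F (ρ x = y) (Classical.propDecidable _) (z x) 0) =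
        (fun t : L => if π t = (y : Q) then z t else 0) (ι x) := by
      intro x
      have e2 : ρ x = y ↔ π (ι x) = (y : Q) :=
        ⟨fun h => congrArg Subtype.val h, fun h => Subtype.ext h⟩
      change (@ite F (ρ x = y) (Classical.propDecidable _) (z x) 0) =
        if π (ι x) = (y : Q) then z x else 0
      by_cases h : ρ x = y
      · rw [if_pos h, if_pos (e2.1 h)]
      · rw [if_neg h, if_neg (fun h' => h (e2.2 h'))]
    have e3 := finsum_mem_range (f := fun t : L => if π t = (y : Q) then z t else 0) hι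
    refine (finsum_congr e1).trans (e3.symm.trans ?_)
    rw [finsum_mem_def]
    refine finsum_congr fun t => ?_
    by_cases ht : t ∈ Set.range ι
    · rw [Set.indicator_of_mem ht]
    · rw [Set.indicator_of_notMem ht, if_neg]
      intro h
      apply ht
      obtain ⟨x, hx⟩ := hρ y
      have h4 : π (ι x) = (y : Q) := congrArg Subtype.val hx
      have h5 : (ι x)⁻¹ * t ∈ π.ker := by
        rw [MonoidHom.mem_ker, map_mul, map_inv, h4, h, inv_mul_cancel]
      rw [hk, Subgroup.mem_subgroupOf] at h5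
      have h6 : (t : E) ∈ J := by
        have h7 := J.mul_mem x.2 (hRJ h5)
        have h8 : (x : E) * (((ι x)⁻¹ * t : L) : E) = t := by
          change (x : E) * ((x : E)⁻¹ * t) = t
          group
        rwa [h8] at h7
      exact ⟨⟨t, h6⟩, rfl⟩
  rw [h3] at h2
  exact h2

omit hAn in
/-- blocks of the quotient -/
theorem vg_pf {p : ℕ} [Fact p.Prime] [IsAlgClosed F] [CharP F p]
    (red : integralClosure ℤ ℂ →+* F) [A.Normal] (hk : π.ker = R.subgroupOf L)
    (hL : L = Subgroup.normalizer (R : Set E)) (hR : IsPGroup p R) (hR0 : R ≠ ⊥)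
    (hπ : Function.Surjective π)
    (hRN : R ≤ A.comap q) {z : E → F} (hz : ∀ g x, z (g * x * g⁻¹) = z x)
    (hv : Vg (A.comap q) z) : Vg (Nb q A π) (pf z π) := by
  have hRL : R ≤ L := by
    rw [hL]
    exact Subgroup.le_normalizer
  have hNn : (A.comap q).Normal := inferInstance
  refine Vg.of_irr red (pf_class (fun g _ x => hz g x) π hπ) fun χ hχ => ?_
  have e0 : Nb q A π ⊓ ⊤ = Nb q A π := inf_top_eq _
  let e : ↥(Nb q A π ⊓ ⊤) ≃* ↥(Nb q A π) := MulEquiv.subgroupCongr e0
  have hχ' : IsIrrChar (fun x => χ (e x)) := irr_comp e hχ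
  have h2 := Pool.Agent.Y286.NV.centralValue_comp red e χ
    (Pool.Agent.Y286.NV.irr_class hχ) (fun x : ↥(Nb q A π) => pf z π x)
    (fun g x => pf_class (fun g _ x => hz g x) π hπ g x)
  have h3 := cv_pf red hk hRL hRN hz ⊤ hχ'
  have h4 : centralValue red χ (fun x : ↥(Nb q A π) => pf z π x) =
      centralValue red (fun x => χ (e (rho q A π ⊤ x))) (fun x => z x) := by
    rw [← h2]
    exact h3.symm
  rw [h4]
  have hst : Up π ⊤ = chainStabilizer ({R} : Set (Subgroup E)) := by
    ext x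
    rw [mem_chainStabilizer]
    constructor
    · rintro ⟨y, -, rfl⟩ P hP
      rw [Set.mem_singleton_iff] at hP
      rw [hP, conjSub_eq_iff, ← hL]
      exact y.2
    · intro h
      have h5 := h R rfl
      rw [conjSub_eq_iff, ← hL] at h5
      exact ⟨⟨x, h5⟩, Subgroup.mem_top _, rfl⟩
  have key : ∀ S : Subgroup E, S = chainStabilizer ({R} : Set (Subgroup E)) →
      ∀ θ : ↥(A.comap q ⊓ S) → ℂ, IsIrrChar θ → centralValue red θ (fun x => z x) = 0 ∨
        centralValue red θ (fun x => z x) = 1 := by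
    rintro _ rfl θ hθ
    refine (hv.z01 (p := p) (red := red)) {R} ⟨?_, ?_, ?_⟩ ?_ θ hθ
    · intro P hP P' hP' h
      rw [Set.mem_singleton_iff] at hP hP'
      exact absurd (hP.trans hP'.symm) h
    · intro P hP
      rw [Set.mem_singleton_iff.1 hP]
      exact hR
    · intro P hP
      rw [Set.mem_singleton_iff.1 hP]
      exact hR0
    · intro P hP
      rw [Set.mem_singleton_iff.1 hP]
      exact hRN
  exact key _ hst _ (Pool.Agent.Y930.NV.irr_inflate (rho q A π ⊤) (rho_surj ⊤) hχ')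

omit hAn [Finite Q] in
theorem pf_real {z : E → F} (hr : ∀ x, z x⁻¹ = z x) (y : Q) : pf z π y⁻¹ = pf z π y := by
  unfold pf
  refine finsum_eq_of_bijective (fun x : L => x⁻¹) (inv_involutive.bijective) fun x => ?_
  have h1 : π x = y⁻¹ ↔ π x⁻¹ = y := by
    rw [map_inv, inv_eq_iff_eq_inv]
  by_cases h : π x = y⁻¹
  · rw [if_pos h, if_pos (h1.1 h)]
    exact (hr x).symm
  · rw [if_neg h, if_neg fun h2 => h (h1.2 h2)]

omit hAn [Finite Q] in
theorem pf_supp (hq : q.ker = G) {z : E → F} (hz0 : ∀ x, x ∉ G → z x = 0) {y : Q}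
    (hy : y ∉ Nb q A π) : pf z π y = 0 := by
  unfold pf
  refine (finsum_congr fun x => ?_).trans finsum_zero
  by_cases h : π x = y
  · rw [if_pos h]
    refine hz0 _ fun hx => hy ?_
    rw [← h]
    exact ⟨x, Subgroup.mem_subgroupOf.2 (G_le A hq hx), rfl⟩
  · rw [if_neg h]

omit hAn in
/-- the contribution of `R` -/
theorem above_dvd [A.Normal] {p : ℕ} [hp : Fact p.Prime] [IsAlgClosed F] [CharP F p]
    (red : integralClosure ℤ ℂ →+* F) (hq : q.ker = G) (hA : Nat.card A = p) {a : ℕ}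
    (hW : Hb p red a (U ⧸ A)) {z : E → F} (hz : ∀ g x, z (g * x * g⁻¹) = z x)
    (hz0 : ∀ x, x ∉ G → z x = 0) (hr : ∀ x, z x⁻¹ = z x) (hv : Vg (A.comap q) z)
    {D' : ℕ} (hD : 1 ≤ D') {R : Subgroup E} (hR : IsPGroup p R) (hR0 : R ≠ ⊥)
    (hRN : R ≤ A.comap q) (hGR : G ⊓ R = ⊥) :
    (p : ℤ) * 2 ^ a * Nat.card ↥(G ⊓ Subgroup.normalizer (R : Set E)) ∣
    chs {P : Subgroup E | IsPGroup p P ∧ R < P ∧
        P ≤ A.comap q ⊓ Subgroup.normalizer (R : Set E)}
      (wt (Subgroup.normalizer (R : Set E)) (fN p red q A z 1 (D' + 1))) := by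
  set L := Subgroup.normalizer (R : Set E) with hL
  have hRL : R ≤ L := Subgroup.le_normalizer
  have hn : (R.subgroupOf L).Normal := by
    constructor
    intro x hx g
    rw [Subgroup.mem_subgroupOf] at hx ⊢
    exact (Subgroup.mem_normalizer_iff.1 g.2 x).1 hx
  let π : L →* L ⧸ R.subgroupOf L := QuotientGroup.mk' _
  have hπ : Function.Surjective π := QuotientGroup.mk'_surjective _
  have hk : π.ker = R.subgroupOf L := QuotientGroup.ker_mk' _
  rw [al_above hRL hRN hR π hπ hk]
  let r' : (L ⧸ R.subgroupOf L) →* U ⧸ A := QuotientGroup.lift _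
    (((QuotientGroup.mk' A).comp q).comp L.subtype) (fun x hx =>
      (QuotientGroup.eq_one_iff _).2 (hRN (Subgroup.mem_subgroupOf.1 hx)))
  have hr' : ∀ x : L, r' (π x) = (QuotientGroup.mk' A) (q x) := fun x => rfl
  have e1 : al p (((A.comap q).subgroupOf L).map π) (fun S =>
      (fN p red q A z 1 (D' + 1)) ((S.comap π).map L.subtype)) =
      al p (Nb q A π) (fun S' => ((p : ℤ) * (Nat.card {μ : A →* ℂˣ // Iv A μ} : ℤ)) *
        ((Nat.card ↥(Nb q A π ⊓ S') : ℤ) * xc p red (Nb q A π) r' ⊤ (pf z π) 1 D' S')) := by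
    refine al_congr fun σ _ _ => ?_
    change (Nat.card ↥(A.comap q ⊓ Up π (chainStabilizer σ)) : ℤ) * xc p red (A.comap q)
        ((QuotientGroup.mk' A).comp q) ⊤ z 1 (D' + 1) (Up π (chainStabilizer σ)) = _
    rw [linx hk hRL hRN hq hA hGR hR0 le_rfl red r' hr' hπ hz hz0 1 D',
      card_J hk hRL hRN hq hA hGR hR0]
    push_cast
    ring
  rw [e1, al_mul]
  -- the order
  have hcard : Nat.card ↥(Nb q A π) = Nat.card ↥(G ⊓ L) := by
    have h1 := card_J hk hRL hRN hq hA hGR hR0 ⊤
    have h2 : Up π ⊤ = L := by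
      ext x
      exact ⟨fun ⟨y, _, e⟩ => by rw [← e]; exact y.2, fun h => ⟨⟨x, h⟩, Subgroup.mem_top _, rfl⟩⟩
    have h3 : Nb q A π ⊓ ⊤ = Nb q A π := inf_top_eq _
    rw [h2, h3] at h1
    have h4 : Function.Surjective (phi q A L) := by
      intro a
      obtain ⟨x, hx, hxa⟩ := R_surj hRN hq hA hGR hR0 a
      exact ⟨⟨x, Subgroup.mem_inf.2 ⟨hRN hx, hRL hx⟩⟩, Subtype.ext hxa⟩
    rw [fac_K hq hA h4] at h1
    exact (Nat.eq_of_mul_eq_mul_left hp.out.pos h1).symm
  rw [← hcard]
  by_cases hs : Function.Surjective r'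
  · have hker : r'.ker = Nb q A π := by
      ext y
      obtain ⟨x, rfl⟩ := hπ y
      rw [MonoidHom.mem_ker, hr']
      constructor
      · intro h
        have h1 : q x ∈ A := (QuotientGroup.eq_one_iff _).1 h
        exact ⟨x, Subgroup.mem_subgroupOf.2 h1, rfl⟩
      · rintro ⟨x', hx', h⟩
        rw [← hr', ← h, hr']
        exact (QuotientGroup.eq_one_iff _).2 (Subgroup.mem_subgroupOf.1 hx')
    have h1 := hW _ r' hs (pf z π) (pf_class (fun g _ x => hz g x) π hπ)
      (fun y hy => pf_supp hq hz0 (by rw [← hker]; exact hy)) (pf_real hr)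
      (by rw [hker]; exact vg_pf (p := p) red hk hL hR hR0 hπ hRN hz hv) D' hD
    unfold XX at h1
    rw [hker] at h1
    obtain ⟨c, hc⟩ := h1
    rw [hc]
    exact ⟨(Nat.card {μ : A →* ℂˣ // Iv A μ} : ℤ) * c, by ring⟩
  · rw [al_zero fun σ _ _ => ?_, mul_zero]
    · exact dvd_zero _
    · have h0 : xc p red (Nb q A π) r' ⊤ (pf z π) 1 D' (chainStabilizer σ) = 0 :=
        xc_cover red p 1 _ fun h => hs fun u => by
          obtain ⟨e, -, h2⟩ := h u
          exact ⟨e, h2⟩
      rw [h0, mul_zero]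

end Run7.h759.DI
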