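import Pool.Agent.Run7.h759.DI.PS7

/-!
# Divisibility of the sums: the induction (helper759)
-/

set_option autoImplicit false
set_option linter.unusedSectionVars false

open scoped Classical BigOperators

noncomputable section

namespace Run7.h759.DI

open Pool.Agent.Y63.NV (IsClassFun centralValue IsBlock numDzBlock)
open Pool.Agent.Helper884.IC (IsIrrChar Irr mem_Irr)
open Pool.Agent.Y63.KR (IsPChain chainStabilizer conjSub conjSub_eq_iff mem_chainStabilizer
  mem_conjSub conjSub_le conjSub_mul conjSub_one conjSub_injective chainStabilizer_conj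
  ncard_conj conjSub_ne_bot)
open Pool.Agent.R674.Ce (chs wt Sp chs_eq conjSub_normal conjSub_inf)
open Pool.Agent.Q99.AS (Dft)

/-- a sum over the orbits -/
theorem orb_dvd {G Ω : Type} [Group G] [Finite G] [Fintype Ω] [MulAction G Ω] {f : Ω → ℤ}
    (h1 : ∀ (g : G) (x : Ω), f (g • x) = f x) {m : ℤ}
    (h2 : ∀ x, m * Nat.card (MulAction.stabilizer G x) ∣ f x) :
    m * Nat.card G ∣ ∑ x, f x := by
  have _i : Fintype (MulAction.orbitRel.Quotient G Ω) := Fintype.ofFinite _
  have _i2 : ∀ ω : MulAction.orbitRel.Quotient G Ω, Fintype (MulAction.orbit G ω.out) :=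
    fun ω => Fintype.ofFinite _
  rw [Fintype.sum_equiv (MulAction.selfEquivSigmaOrbits G Ω) f
    (fun y => f ((MulAction.selfEquivSigmaOrbits G Ω).symm y)) (fun x => by
      rw [Equiv.symm_apply_apply]), Fintype.sum_sigma]
  refine Finset.dvd_sum fun ω _ => ?_
  have h3 : ∀ y : MulAction.orbit G ω.out,
      f ((MulAction.selfEquivSigmaOrbits G Ω).symm ⟨ω, y⟩) = f ω.out := by
    intro y
    have h4 : (MulAction.selfEquivSigmaOrbits G Ω).symm ⟨ω, y⟩ = (y : Ω) := rfl
    rw [h4]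
    obtain ⟨g, hg⟩ := y.2
    rw [← hg]
    exact h1 g _
  rw [Finset.sum_congr rfl fun y _ => h3 y, Finset.sum_const, nsmul_eq_mul, Finset.card_univ,
    ← Nat.card_eq_fintype_card]
  obtain ⟨c, hc⟩ := h2 ω.out
  have h5 := Nat.card_congr (MulAction.orbitProdStabilizerEquivGroup G ω.out)
  rw [Nat.card_prod] at h5
  rw [hc, ← h5]
  exact ⟨c, by push_cast; ring⟩

variable {E : Type} [Group E] [Finite E]

theorem norm_conj (g : E) (R : Subgroup E) :
    Subgroup.normalizer ((conjSub g R : Subgroup E) : Set E) =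
      conjSub g (Subgroup.normalizer (R : Set E)) := by
  ext x
  rw [mem_conjSub, ← conjSub_eq_iff, ← conjSub_eq_iff]
  have e : conjSub (g⁻¹ * x * g) R = conjSub g⁻¹ (conjSub x (conjSub g R)) := by
    rw [← conjSub_mul, ← conjSub_mul, mul_assoc]
  rw [e]
  constructor
  · intro h
    rw [h, ← conjSub_mul, inv_mul_cancel, conjSub_one]
  · intro h
    have h2 := congrArg (conjSub g) h
    rw [← conjSub_mul, mul_inv_cancel, conjSub_one] at h2
    exact h2

theorem chs_conj (g : E) {X Y : Set (Subgroup E)} (hXY : ∀ P, conjSub g P ∈ Y ↔ P ∈ X)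
    {w w' : Set (Subgroup E) → ℤ} (h : ∀ σ, w' (conjSub g '' σ) = w σ) :
    chs Y w' = chs X w := by
  have hgi : ∀ P : Subgroup E, conjSub g (conjSub g⁻¹ P) = P := fun P => by
    rw [← conjSub_mul, mul_inv_cancel, conjSub_one]
  have hgi' : ∀ P : Subgroup E, conjSub g⁻¹ (conjSub g P) = P := fun P => by
    rw [← conjSub_mul, inv_mul_cancel, conjSub_one]
  have hch : ∀ (a : E) (σ : Set (Subgroup E)), IsChain (· ≤ ·) σ →
      IsChain (· ≤ ·) (conjSub a '' σ) := by
    rintro a σ hσ _ ⟨P, hP, rfl⟩ _ ⟨P', hP', rfl⟩ _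
    rcases hσ.total hP hP' with h3 | h3
    · exact Or.inl (conjSub_le h3)
    · exact Or.inr (conjSub_le h3)
  unfold chs
  symm
  refine finsum_eq_of_bijective
    (fun σ : {σ : Set (Subgroup E) // σ ⊆ X ∧ IsChain (· ≤ ·) σ} =>
      (⟨conjSub g '' σ.1, by
        rintro _ ⟨P, hP, rfl⟩
        exact (hXY P).2 (σ.2.1 hP), hch g _ σ.2.2⟩ :
        {σ : Set (Subgroup E) // σ ⊆ Y ∧ IsChain (· ≤ ·) σ})) ⟨?_, ?_⟩ (fun σ => (h σ.1).symm)
  · intro σ τ hστ
    apply Subtype.ext
    have h1 : conjSub g '' σ.1 = conjSub g '' τ.1 := congrArg Subtype.val hστ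
    exact Set.image_injective.2 (conjSub_injective g) h1
  · rintro ⟨σ, hσ1, hσ2⟩
    refine ⟨⟨conjSub g⁻¹ '' σ, ?_, hch _ _ hσ2⟩, ?_⟩
    · rintro _ ⟨P, hP, rfl⟩
      rw [← hXY, hgi]
      exact hσ1 hP
    · apply Subtype.ext
      change conjSub g '' (conjSub g⁻¹ '' σ) = σ
      rw [Set.image_image]
      simp only [hgi, Set.image_id']

theorem chs_above_conj (p : ℕ) {N : Subgroup E} [N.Normal] {f : Subgroup E → ℤ}
    (hf : ∀ g S, f (conjSub g S) = f S) (g : E) (R : Subgroup E) :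
    chs {P : Subgroup E | IsPGroup p P ∧ conjSub g R < P ∧
        P ≤ N ⊓ Subgroup.normalizer ((conjSub g R : Subgroup E) : Set E)}
      (wt (Subgroup.normalizer ((conjSub g R : Subgroup E) : Set E)) f) =
    chs {P : Subgroup E | IsPGroup p P ∧ R < P ∧ P ≤ N ⊓ Subgroup.normalizer (R : Set E)}
      (wt (Subgroup.normalizer (R : Set E)) f) := by
  rw [norm_conj]
  have hN : N ⊓ conjSub g (Subgroup.normalizer (R : Set E)) =
      conjSub g (N ⊓ Subgroup.normalizer (R : Set E)) := by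
    rw [conjSub_inf, conjSub_normal g N]
  rw [hN]
  have hle : ∀ P P' : Subgroup E, conjSub g P ≤ conjSub g P' ↔ P ≤ P' := by
    intro P P'
    refine ⟨fun h => ?_, fun h => conjSub_le h⟩
    have h1 := conjSub_le (g := g⁻¹) h
    rw [← conjSub_mul, ← conjSub_mul, inv_mul_cancel, conjSub_one, conjSub_one] at h1
    exact h1
  refine chs_conj g (fun P => ?_) (fun σ => ?_)
  · constructor
    · rintro ⟨h1, h2, h3⟩
      refine ⟨?_, ?_, (hle _ _).1 h3⟩
      · have h4 : IsPGroup p ↥(conjSub g⁻¹ (conjSub g P)) := h1.map _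
        rw [← conjSub_mul, inv_mul_cancel, conjSub_one] at h4
        exact h4
      · rw [lt_iff_le_not_ge] at h2 ⊢
        exact ⟨(hle _ _).1 h2.1, fun h => h2.2 ((hle _ _).2 h)⟩
    · rintro ⟨h1, h2, h3⟩
      refine ⟨h1.map _, ?_, (hle _ _).2 h3⟩
      rw [lt_iff_le_not_ge] at h2 ⊢
      exact ⟨(hle _ _).2 h2.1, fun h => h2.2 ((hle _ _).1 h)⟩
  · unfold wt
    rw [ncard_conj, chainStabilizer_conj, ← conjSub_inf, hf]

variable {U : Type} [Group U] {q : E →* U}
  {A : Subgroup U} [hAn : A.Normal] {G : Subgroup E}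
  {F : Type} [Field F]

omit hAn in
theorem ab_dvd [A.Normal] {p : ℕ} [hp : Fact p.Prime] [IsAlgClosed F] [CharP F p]
    (red : integralClosure ℤ ℂ →+* F) (hq : q.ker = G) (hA : Nat.card A = p) {a : ℕ}
    (hW : Hb p red a (U ⧸ A)) {z : E → F} (hz : ∀ g x, z (g * x * g⁻¹) = z x)
    (hz0 : ∀ x, x ∉ G → z x = 0) (hr : ∀ x, z x⁻¹ = z x) (hv : Vg (A.comap q) z)
    {D' : ℕ} (hD : 1 ≤ D') :
    (p : ℤ) * 2 ^ a * Nat.card G ∣ ab p red q A G z 1 (D' + 1) := by
  have hGn : G.Normal := G_normal hq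
  have _i : Fintype (Subgroup E) := Fintype.ofFinite _
  unfold ab
  rw [finsum_eq_sum_of_fintype]
  let act : MulAction ↥G (Subgroup E) :=
    { smul := fun g R => conjSub (g : E) R
      one_smul := fun R => conjSub_one R
      mul_smul := fun g h R => conjSub_mul (g : E) (h : E) R }
  have hfN : ∀ g S, fN p red q A z 1 (D' + 1) (conjSub g S) = fN p red q A z 1 (D' + 1) S := by
    intro g S
    exact xc_conj red (ker_r hq) p (fun u _ => ⟨Subgroup.mem_top _, Subgroup.mem_top _⟩) hz 1 _ S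
  refine @orb_dvd ↥G (Subgroup E) _ _ _ act _ ?_ _ ?_
  · intro g R
    change (if IsPGroup p ↥(conjSub (g : E) R) ∧ conjSub (g : E) R ≠ ⊥ ∧
      conjSub (g : E) R ≤ A.comap q ∧ G ⊓ conjSub (g : E) R = ⊥ then _ else 0) = _
    have hiff : (IsPGroup p ↥(conjSub (g : E) R) ∧ conjSub (g : E) R ≠ ⊥ ∧
        conjSub (g : E) R ≤ A.comap q ∧ G ⊓ conjSub (g : E) R = ⊥) ↔
        (IsPGroup p R ∧ R ≠ ⊥ ∧ R ≤ A.comap q ∧ G ⊓ R = ⊥) := by
      have key : ∀ (x : E) (P : Subgroup E), (IsPGroup p P ∧ P ≠ ⊥ ∧ P ≤ A.comap q ∧ G ⊓ P = ⊥) →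
          (IsPGroup p ↥(conjSub x P) ∧ conjSub x P ≠ ⊥ ∧
            conjSub x P ≤ A.comap q ∧ G ⊓ conjSub x P = ⊥) := by
        rintro x P ⟨h1, h2, h3, h4⟩
        refine ⟨h1.map _, conjSub_ne_bot h2, ?_, ?_⟩
        · have h5 := conjSub_le (g := x) h3
          rwa [conjSub_normal x (A.comap q)] at h5
        · have h5 : G ⊓ conjSub x P = conjSub x (G ⊓ P) := by
            rw [conjSub_inf, conjSub_normal x G]
          rw [h5, h4]
          exact Subgroup.map_bot _
      constructor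
      · intro h
        have h1 := key (g : E)⁻¹ _ h
        rw [← conjSub_mul, inv_mul_cancel, conjSub_one] at h1
        exact h1
      · exact key _ _
    by_cases hc : IsPGroup p R ∧ R ≠ ⊥ ∧ R ≤ A.comap q ∧ G ⊓ R = ⊥
    · rw [if_pos hc, if_pos (hiff.2 hc)]
      exact chs_above_conj p hfN (g : E) R
    · rw [if_neg hc, if_neg fun h => hc (hiff.1 h)]
  · intro R
    by_cases hc : IsPGroup p R ∧ R ≠ ⊥ ∧ R ≤ A.comap q ∧ G ⊓ R = ⊥
    · rw [if_pos hc]
      obtain ⟨hR, hR0, hRN, hGR⟩ := hc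
      have h1 := above_dvd red hq hA hW hz hz0 hr hv hD hR hR0 hRN hGR
      have h2 : Nat.card (@MulAction.stabilizer ↥G (Subgroup E) _ act R) =
          Nat.card ↥(G ⊓ Subgroup.normalizer (R : Set E)) := by
        refine Nat.card_congr
          { toFun := fun x => ⟨(x : G), (x : G).2, conjSub_eq_iff.1 x.2⟩
            invFun := fun y => ⟨⟨y, y.2.1⟩, conjSub_eq_iff.2 y.2.2⟩
            left_inv := fun x => rfl
            right_inv := fun y => rfl }
      rw [h2]
      exact h1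
    · rw [if_neg hc]
      exact dvd_zero _

end Run7.h759.DI
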