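import Pool.Agent.Run7.h759.DI.PS8

/-!
# Divisibility of the sums by all powers of two (helper759)
-/

set_option autoImplicit false
set_option linter.unusedSectionVars false

open scoped Classical BigOperators

noncomputable section

namespace Run7.h759.DI

open Pool.Agent.Y63.NV (IsClassFun centralValue IsBlock numDzBlock)
open Pool.Agent.Helper884.IC (IsIrrChar Irr mem_Irr)
open Pool.Agent.Q99.AS (Dft)

theorem exists_quot (U : Type) [Group U] : Nonempty (U ≃* (U × C2) ⧸ A2 U) := by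
  obtain ⟨e⟩ := compl_iso (V0_compl (U := U)).1 (V0_compl (U := U)).2
  have hj : Function.Injective (MonoidHom.inl U C2) := fun a b h => congrArg Prod.fst h
  exact ⟨(MonoidHom.ofInjective hj).trans e.symm⟩

section swap

variable {E U : Type} [Group E] [Finite E] [Group U] [Finite U] {q : E →* U}
  {p : ℕ} [hp : Fact p.Prime]
  {F : Type} [Field F] [IsAlgClosed F] [CharP F p] (red : integralClosure ℤ ℂ →+* F)

/-- the relation for the swap group -/
theorem sw_rel (hU : commutator U = ⊤) (hs : Function.Surjective q) {z : E → F}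
    (hz : ∀ g x, z (g * x * g⁻¹) = z x) (hz0 : ∀ x, x ∉ q.ker → z x = 0) (hv : Vg q.ker z)
    {D' D : ℕ} (hD : D = D' + (2 : ℕ).factorization p) :
    al p ((A2 U).comap (TG.qq (qh q) (s2 U))) (fN p red (TG.qq (qh q) (s2 U)) (A2 U)
        (zT (qh q) (s2 U) z) 1 D) +
      ab p red (TG.qq (qh q) (s2 U)) (A2 U) (TG.qq (qh q) (s2 U)).ker
        (zT (qh q) (s2 U) z) 1 D =
      4 * XX p red (TG.qq (qh q) (s2 U)) (zT (qh q) (s2 U) z) D' +
        (∑ i ∈ Finset.HasAntidiagonal.antidiagonal D,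
          XX p red q z i.1 * XX p red q z i.2 -
          XX p red (TG.qq (qh q) (s2 U)) (zT (qh q) (s2 U) z) D) := by
  have h2 : Fact (Nat.Prime 2) := Nat.fact_prime_two
  have _i : Fintype (Subgroup (U × C2)) := Fintype.ofFinite _
  have h1 := rel_id (p := p) (ℓ := 2) red (rfl : (TG.qq (qh q) (s2 U)).ker = _) card_A2
    (zT_conj hz) (fun x hx => zT_ker hx) 1 hD
  rw [h1]
  have h3 : (Finset.univ : Finset (Subgroup (U × C2))).filter
      (fun V => V ⊓ A2 U = ⊥ ∧ V ⊔ A2 U = ⊤) = {V0 U} := by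
    ext V
    rw [Finset.mem_filter, Finset.mem_singleton]
    constructor
    · rintro ⟨-, a, b⟩
      exact V0_unique hU a b
    · rintro rfl
      exact ⟨Finset.mem_univ _, V0_compl⟩
  rw [h3, Finset.sum_singleton, al_V0 red hs hz hz0 hv.z01 D]
  have h4 : al p (TG.qq (qh q) (s2 U)).ker (fun S =>
      (Nat.card ↥((TG.qq (qh q) (s2 U)).ker ⊓ S) : ℤ) *
        yc p red (G_le (A2 U) (rfl : (TG.qq (qh q) (s2 U)).ker = _)) 1
          (zT (qh q) (s2 U) z) 1 D' S) =
      2 * XX p red (TG.qq (qh q) (s2 U)) (zT (qh q) (s2 U) z) D' := by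
    unfold XX
    rw [← al_mul]
    refine al_congr fun σ _ _ => ?_
    rw [yc_perf red hU rfl]
    ring
  rw [h4]
  unfold XX
  push_cast
  ring

/-- **the induction** -/
theorem Hb.step {a : ℕ} (ha : 1 ≤ a) (hU : commutator U = ⊤) (h : Hb p red a U) :
    Hb p red (a + 1) U := by
  intro E _ _ q hs z hz hz0 hr hv D₀ hD₀
  have h2 : Fact (Nat.Prime 2) := Nat.fact_prime_two
  obtain ⟨e⟩ := exists_quot U
  have hW : Hb p red a ((U × C2) ⧸ A2 U) := h.iso e
  set Q := TG.qq (qh q) (s2 U) with hQ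
  set z' := zT (qh q) (s2 U) z with hz'd
  have hQs : Function.Surjective Q := sw_surj hs
  have hz' : ∀ g x, z' (g * x * g⁻¹) = z' x := zT_conj hz
  have hz0' : ∀ x, x ∉ Q.ker → z' x = 0 := fun x hx => zT_ker hx
  have hr' : ∀ x, z' x⁻¹ = z' x := zT_real hr
  have hv' : Vg Q.ker z' := vg_TG (p := p) red hz (by rw [qh_ker]; exact hv)
  have hvN : Vg ((A2 U).comap Q) z' :=
    vg_over (p := p) red (G_le (A2 U) (rfl : Q.ker = _)) hz' hz0' hv'
  have hkr : ((QuotientGroup.mk' (A2 U)).comp Q).ker = (A2 U).comap Q := ker_r rfl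
  -- the sum for `N`
  have hN : ∀ D, 1 ≤ D → (2 : ℤ) ^ (a + 1) * (Nat.card q.ker : ℤ) ^ 2 ∣
      al p ((A2 U).comap Q) (fN p red Q (A2 U) z' 1 D) := by
    intro D hD
    have h3 := hW (SW q) ((QuotientGroup.mk' (A2 U)).comp Q)
      ((QuotientGroup.mk'_surjective _).comp hQs) z' hz' (fun x hx => hz0' x fun hx' => hx (by
        rw [hkr]
        exact G_le (A2 U) (rfl : Q.ker = _) hx')) hr' (by rw [hkr]; exact hvN) D hD
    unfold XX at h3
    rw [hkr, card_NN hs] at h3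
    have h4 : (2 : ℤ) ^ (a + 1) * (Nat.card q.ker : ℤ) ^ 2 =
        2 ^ a * ((2 * Nat.card q.ker ^ 2 : ℕ) : ℤ) := by
      push_cast
      ring
    rw [h4]
    exact h3
  -- the sum for the fibre square
  have hg := XX_dvd (p := p) (red := red) q hz
  have hX := fun D hD => h E q hs z hz hz0 hr hv D hD
  have hV : (2 : ℤ) ^ (a + 1) * (Nat.card q.ker : ℤ) ^ 2 ∣
      ∑ i ∈ Finset.HasAntidiagonal.antidiagonal (2 * D₀),
        XX p red q z i.1 * XX p red q z i.2 := by
    refine anti_dvd (f := fun i => XX p red q z i) ?_ ?_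
    · obtain ⟨c, hc⟩ := hX D₀ hD₀
      rw [hc]
      obtain ⟨b, rfl⟩ := Nat.exists_eq_add_of_le ha
      exact ⟨2 ^ b * c * c, by ring⟩
    · intro i j hij hs2
      obtain ⟨c, hc⟩ := hX j (by omega)
      obtain ⟨d, hd⟩ := hg i
      rw [hc, hd]
      exact ⟨d * c, by ring⟩
  by_cases hp2 : p = 2
  · -- `p = 2`
    subst hp2
    have hD : 2 * D₀ = (2 * D₀ - 1) + (2 : ℕ).factorization 2 := by
      rw [hp.out.factorization, Finsupp.single_eq_same]
      omega
    have h3 := sw_rel red hU hs hz hz0 hv hD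
    rw [XX_odd red hz (by omega), XX_sw red hs hz hv] at h3
    have h4 := ab_dvd red (rfl : Q.ker = _) card_A2 hW hz' hz0' hr' hvN (D' := 2 * D₀ - 1)
      (by omega)
    have h5 : 2 * D₀ - 1 + 1 = 2 * D₀ := by omega
    rw [h5] at h4
    have h6 : (2 : ℤ) ^ (a + 1) * (Nat.card q.ker : ℤ) ^ 2 ∣
        ab 2 red Q (A2 U) Q.ker z' 1 (2 * D₀) := by
      have h7 : (2 : ℤ) ^ (a + 1) * (Nat.card q.ker : ℤ) ^ 2 =
          ((2 : ℕ) : ℤ) * 2 ^ a * (Nat.card Q.ker : ℤ) := by
        rw [hQ, card_base]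
        push_cast
        ring
      rw [h7]
      exact h4
    have h7 : (2 : ℤ) ^ (a + 1) * (Nat.card q.ker : ℤ) ^ 2 ∣
        (Nat.card q.ker : ℤ) * XX 2 red q z D₀ := by
      have h8 : (Nat.card q.ker : ℤ) * XX 2 red q z D₀ =
          (∑ i ∈ Finset.HasAntidiagonal.antidiagonal (2 * D₀),
            XX 2 red q z i.1 * XX 2 red q z i.2) -
          al 2 ((A2 U).comap Q) (fN 2 red Q (A2 U) z' 1 (2 * D₀)) -
            ab 2 red Q (A2 U) Q.ker z' 1 (2 * D₀) := by
        linarith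
      rw [h8]
      exact dvd_sub (dvd_sub hV (hN _ (by omega))) h6
    obtain ⟨c, hc⟩ := h7
    refine ⟨c, ?_⟩
    have h9 : (Nat.card q.ker : ℤ) ≠ 0 := by exact_mod_cast Nat.card_pos.ne'
    apply mul_left_cancel₀ h9
    rw [hc]
    ring
  · -- `p` odd
    have hD : 2 * D₀ = 2 * D₀ + (2 : ℕ).factorization p := by
      rw [Nat.prime_two.factorization, Finsupp.single_eq_of_ne (fun h => hp2 h), add_zero]
    have h3 := sw_rel red hU hs hz hz0 hv hD
    rw [XX_sw red hs hz hv, ab_zero red rfl card_A2 (fun h => hp2 h.symm), add_zero] at h3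
    have h7 : (2 : ℤ) ^ (a + 1) * (Nat.card q.ker : ℤ) ^ 2 ∣
        3 * ((Nat.card q.ker : ℤ) * XX p red q z D₀) := by
      have h8 : 3 * ((Nat.card q.ker : ℤ) * XX p red q z D₀) =
          al p ((A2 U).comap Q) (fN p red Q (A2 U) z' 1 (2 * D₀)) -
          (∑ i ∈ Finset.HasAntidiagonal.antidiagonal (2 * D₀),
            XX p red q z i.1 * XX p red q z i.2) := by
        linarith
      rw [h8]
      exact dvd_sub (hN _ (by omega)) hV
    obtain ⟨y, hy⟩ := hg D₀
    obtain ⟨c, hc⟩ := h7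
    have h9 : (Nat.card q.ker : ℤ) ≠ 0 := by exact_mod_cast Nat.card_pos.ne'
    have h10 : (2 : ℤ) ^ (a + 1) ∣ 3 * y := by
      refine ⟨c, ?_⟩
      apply mul_left_cancel₀ (pow_ne_zero 2 h9)
      rw [hy] at hc
      linarith
    have h11 : (2 : ℤ) ^ (a + 1) ∣ y := by
      refine IsCoprime.dvd_of_dvd_mul_left ?_ h10
      exact IsCoprime.pow_left (by norm_num)
    obtain ⟨d, hd⟩ := h11
    refine ⟨d, ?_⟩
    rw [hy, hd]
    ring

theorem Hb.all (hU : commutator U = ⊤) (h : Hb p red 1 U) (a : ℕ) (ha : 1 ≤ a) :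
    Hb p red a U := by
  induction a, ha using Nat.le_induction with
  | base => exact h
  | succ n hn ih => exact Hb.step red hn hU ih

end swap

/-- the sums vanish -/
theorem XX_zero {U : Type} [Group U] [Finite U] {p : ℕ} [hp : Fact p.Prime]
    {F : Type} [Field F] [IsAlgClosed F] [CharP F p] {red : integralClosure ℤ ℂ →+* F}
    (hU : commutator U = ⊤) (h : Hb p red 1 U) {E : Type} [Group E] [Finite E] (q : E →* U)
    (hs : Function.Surjective q) {z : E → F} (hz : ∀ g x, z (g * x * g⁻¹) = z x)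
    (hz0 : ∀ x, x ∉ q.ker → z x = 0) (hr : ∀ x, z x⁻¹ = z x) (hv : Vg q.ker z) {D : ℕ}
    (hD : 1 ≤ D) : XX p red q z D = 0 := by
  by_contra h0
  have h1 : ∀ a, 1 ≤ a → (2 : ℤ) ^ a ∣ XX p red q z D := fun a ha =>
    (dvd_mul_right _ _).trans (Hb.all red hU h a ha E q hs z hz hz0 hr hv D hD)
  obtain ⟨n, hn⟩ : ∃ n : ℕ, (XX p red q z D).natAbs < 2 ^ n := ⟨_, Nat.lt_two_pow_self⟩
  have h2 := h1 (n + 1) (by omega)
  have h3 : (2 : ℕ) ^ (n + 1) ∣ (XX p red q z D).natAbs := by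
    have := Int.natAbs_dvd_natAbs.2 h2
    rwa [Int.natAbs_pow] at this
  have h4 := Nat.le_of_dvd (Int.natAbs_pos.2 h0) h3
  rw [pow_succ] at h4
  omega

end Run7.h759.DI
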