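import Pool.Agent.Run7.h759.DI.Rel

/-!
# Fibre products: the characters of the stabilisers (helper759)
-/

set_option autoImplicit false
set_option linter.unusedSectionVars false

open scoped Classical BigOperators

noncomputable section

namespace Run7.h759.DI

open Pool.Agent.Y63.NV (IsClassFun centralValue IsBlock numDzBlock)
open Pool.Agent.Helper884.IC (IsIrrChar IsClass Irr mem_Irr B B_irr expand B_sum_left B_smul_left
  B_comm isClass_char)
open Pool.Agent.Y63.AWC (res mult mult_spec mult_exists irr_comp)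
open Pool.Agent.Y63.KR (IsPChain chainStabilizer)
open Pool.Agent.R674.Tw (Fixes GCh)
open Pool.Agent.Q99.AS (Dft Dft_ten Dft_unique Dft_congr ten ten_irr ten_inj ten_cover card_prod
  irr_one_ne')
open Pool.Agent.Q90.WR (B_nat card_transport irr_comp_iff)
open Pool.Agent.N237.DI (Iso2 cg cg_prod sum_eq_cg mem_chains)

section alp

variable {Γ E₁ E₂ : Type} [Group Γ] [Group E₁] [Group E₂] [Finite Γ] [Finite E₁] [Finite E₂]

/-- **signed sums for direct products**, with a condition on stabilisers of chains only -/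
theorem al_prod' {p : ℕ} [Fact p.Prime] {π : Γ →* E₁ × E₂} {G : Subgroup Γ} [G.Normal]
    {G₁ : Subgroup E₁} {G₂ : Subgroup E₂} (hs : Iso2 π G G₁ G₂) {ι : Type} (I : Finset ι)
    (f : Subgroup Γ → ℤ) (a : ι → Subgroup E₁ → ℤ) (b : ι → Subgroup E₂ → ℤ)
    (h : ∀ (σ : Set (Subgroup E₁)) (τ : Set (Subgroup E₂)), IsPChain p σ → (∀ P ∈ σ, P ≤ G₁) →
      IsPChain p τ → (∀ P ∈ τ, P ≤ G₂) →
      f (((chainStabilizer σ).prod (chainStabilizer τ)).comap π) =
        ∑ i ∈ I, a i (chainStabilizer σ) * b i (chainStabilizer τ)) :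
    al p G f = ∑ i ∈ I, al p G₁ (a i) * al p G₂ (b i) := by
  let _ : Fintype (Subgroup E₁) := Fintype.ofFinite _
  let _ : Fintype (Subgroup E₂) := Fintype.ofFinite _
  let _ : Fintype (Subgroup Γ) := Fintype.ofFinite _
  simp_rw [al_cg]
  rw [cg_prod hs]
  have e0 : ∀ σ ∈ Pool.Agent.Q99.AS.Ch ((Pool.Agent.N237.DI.SN p G₁ ⊥).erase ⊥),
      ∀ τ ∈ Pool.Agent.Q99.AS.Ch ((Pool.Agent.N237.DI.SN p G₂ ⊥).erase ⊥),
      f (((chainStabilizer (σ : Set (Subgroup E₁))).prod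
        (chainStabilizer (τ : Set (Subgroup E₂)))).comap π) =
      ∑ i ∈ I, a i (chainStabilizer (σ : Set (Subgroup E₁))) *
        b i (chainStabilizer (τ : Set (Subgroup E₂))) := by
    intro σ hσ τ hτ
    obtain ⟨h1, h2⟩ := mem_chains.1 hσ
    obtain ⟨h3, h4⟩ := mem_chains.1 hτ
    exact h _ _ h1 h2 h3 h4
  rw [Finset.sum_congr rfl fun σ hσ => Finset.sum_congr rfl fun τ hτ => by
    rw [e0 σ hσ τ hτ]]
  simp_rw [cg, Finset.sum_mul_sum, Finset.mul_sum]
  have e6 : ∀ σ : Finset (Subgroup E₁),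
      ∑ τ ∈ Pool.Agent.Q99.AS.Ch ((Pool.Agent.N237.DI.SN p G₂ ⊥).erase ⊥), ∑ i ∈ I,
        (-1 : ℤ) ^ σ.card * ((-1) ^ τ.card * (a i (chainStabilizer (σ : Set (Subgroup E₁))) *
          b i (chainStabilizer (τ : Set (Subgroup E₂))))) =
      ∑ i ∈ I, ∑ τ ∈ Pool.Agent.Q99.AS.Ch ((Pool.Agent.N237.DI.SN p G₂ ⊥).erase ⊥),
        (-1 : ℤ) ^ σ.card * ((-1) ^ τ.card * (a i (chainStabilizer (σ : Set (Subgroup E₁))) *
          b i (chainStabilizer (τ : Set (Subgroup E₂))))) := fun σ => Finset.sum_comm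
  simp_rw [e6]
  rw [Finset.sum_comm]
  refine Finset.sum_congr rfl fun i _ => Finset.sum_congr rfl fun σ _ =>
    Finset.sum_congr rfl fun τ _ => by ring

end alp

section irr

variable {X Y : Type} [Group X] [Fintype X] [Group Y] [Fintype Y] (M : Subgroup X) [hM : M.Normal]

/-- a character whose restriction is irreducible is irreducible -/
theorem pull_irr (j : X →* Y) {χ : Y → ℂ} (hχ : IsIrrChar χ)
    (hr : IsIrrChar (res M (fun x => χ (j x)))) : IsIrrChar (fun x => χ (j x)) := by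
  obtain ⟨V, _, _, _, ρ, -, e⟩ := id hχ
  set f : X → ℂ := fun x => χ (j x) with hf
  let ρ' : Representation ℂ X V := ρ.comp j
  have hfc : f = ρ'.character := by
    funext x
    rw [hf]
    change χ (j x) = ρ.character (j x)
    rw [e]
  have hcl : IsClass f := by
    rw [hfc]
    exact isClass_char _
  have hnat : ∀ ψ : X → ℂ, IsIrrChar ψ → ∃ n : ℕ, B f ψ = n := by
    intro ψ hψ
    obtain ⟨W, _, _, _, σ, -, rfl⟩ := hψ
    rw [hfc]
    exact B_nat ρ' σ
  choose! n hn using hnat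
  have hexp : f = ∑ ψ ∈ Irr X, (n ψ : ℂ) • ψ := by
    conv_lhs => rw [expand f hcl]
    exact Finset.sum_congr rfl fun ψ hψ => by rw [hn ψ (mem_Irr.1 hψ)]
  have hres : ∀ θ : M → ℂ, IsIrrChar θ → B (res M f) θ =
      ((∑ ψ ∈ Irr X, n ψ * mult M ψ θ : ℕ) : ℂ) := by
    intro θ hθ
    have h1 : res M f = ∑ ψ ∈ Irr X, (n ψ : ℂ) • res M ψ := by
      conv_lhs => rw [hexp]
      funext m
      simp only [res, Finset.sum_apply, Pi.smul_apply]
    rw [h1, B_sum_left]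
    push_cast
    refine Finset.sum_congr rfl fun ψ hψ => ?_
    rw [B_smul_left, mult_spec M (mem_Irr.1 hψ) hθ]
  have h1 : ∑ ψ ∈ Irr X, n ψ * mult M ψ (res M f) = 1 := by
    have h2 := hres _ hr
    rw [B_irr hr hr, if_pos rfl] at h2
    exact_mod_cast h2.symm
  have h2 : ∀ θ : M → ℂ, IsIrrChar θ → θ ≠ res M f → ∀ ψ ∈ Irr X, n ψ * mult M ψ θ = 0 := by
    intro θ hθ hne ψ hψ
    have h3 := hres _ hθ
    rw [B_irr hr hθ, if_neg (Ne.symm hne)] at h3
    have h4 : ∑ ψ ∈ Irr X, n ψ * mult M ψ θ = 0 := by exact_mod_cast h3.symm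
    exact Finset.sum_eq_zero_iff.1 h4 ψ hψ
  obtain ⟨ψ, hψ, hψ1⟩ : ∃ ψ ∈ Irr X, n ψ * mult M ψ (res M f) ≠ 0 := by
    by_contra h
    push Not at h
    rw [Finset.sum_eq_zero h] at h1
    exact zero_ne_one h1
  have h3 : n ψ * mult M ψ (res M f) = 1 := by
    refine le_antisymm ?_ (Nat.pos_of_ne_zero hψ1)
    rw [← h1]
    exact Finset.single_le_sum (f := fun ψ => n ψ * mult M ψ (res M f))
      (fun _ _ => Nat.zero_le _) hψ
  have h4 : ∀ ψ' ∈ Irr X, ψ' ≠ ψ → n ψ' = 0 := by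
    intro ψ' hψ' hne
    obtain ⟨θ, hθ, hm⟩ := mult_exists M (mem_Irr.1 hψ')
    have h5 : n ψ' * mult M ψ' θ = 0 := by
      by_cases h6 : θ = res M f
      · rw [h6]
        by_contra h7
        have h8 : n ψ * mult M ψ (res M f) + n ψ' * mult M ψ' (res M f) ≤ 1 := by
          rw [← h1, ← Finset.sum_pair (f := fun ψ => n ψ * mult M ψ (res M f)) (Ne.symm hne)]
          refine Finset.sum_le_sum_of_subset ?_
          intro x hx
          rcases Finset.mem_insert.1 hx with rfl | hx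
          · exact hψ
          · rw [Finset.mem_singleton.1 hx]
            exact hψ'
        have h9 := Nat.pos_of_ne_zero h7
        omega
      · exact h2 θ hθ h6 ψ' hψ'
    exact (Nat.mul_eq_zero.1 h5).resolve_right hm
  have h5 : n ψ = 1 := Nat.dvd_one.1 (Dvd.intro _ h3)
  have h6 : f = ψ := by
    rw [hexp, Finset.sum_eq_single ψ (fun ψ' hψ' hne => by
      rw [h4 ψ' hψ' hne, Nat.cast_zero, zero_smul]) (fun h => absurd hψ h), h5, Nat.cast_one,
      one_smul]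
  rw [h6]
  exact mem_Irr.1 hψ

end irr

/-- `π` identifies `Γ` with the fibre product of `E₁` and `E₂` over `U`. -/
structure FP {Γ E₁ E₂ U : Type} [Group Γ] [Group E₁] [Group E₂] [Group U] (π : Γ →* E₁ × E₂)
    (q : Γ →* U) (q₁ : E₁ →* U) (q₂ : E₂ →* U) : Prop where
  fst : ∀ x, q₁ (π x).1 = q x
  snd : ∀ x, q₂ (π x).2 = q x
  inj : ∀ x, π x = 1 → x = 1
  surj : ∀ a b, q₁ a = q₂ b → ∃ x, π x = (a, b)

section fp

variable {Γ E₁ E₂ U : Type} [Group Γ] [Group E₁] [Group E₂] [Group U] {π : Γ →* E₁ × E₂}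
  {q : Γ →* U} {q₁ : E₁ →* U} {q₂ : E₂ →* U} (hF : FP π q q₁ q₂)
  {G : Subgroup Γ} {G₁ : Subgroup E₁} {G₂ : Subgroup E₂}
  (hq : q.ker = G) (hq₁ : q₁.ker = G₁) (hq₂ : q₂.ker = G₂)

include hF

theorem FP.surj_q (h₁ : Function.Surjective q₁) (h₂ : Function.Surjective q₂) :
    Function.Surjective q := by
  intro u
  obtain ⟨a, rfl⟩ := h₁ u
  obtain ⟨b, hb⟩ := h₂ (q₁ a)
  obtain ⟨x, hx⟩ := hF.surj a b hb.symm
  refine ⟨x, ?_⟩
  rw [← hF.fst, hx]

include hq hq₁ hq₂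

theorem FP.iso2 : Iso2 π G G₁ G₂ := by
  refine ⟨?_, fun x _ h => hF.inj x h⟩
  ext ⟨a, b⟩
  constructor
  · rintro ⟨x, hx, e⟩
    have hx1 := (mem_G hq).1 hx
    refine ⟨?_, ?_⟩
    · change a ∈ G₁
      rw [mem_G hq₁, ← hx1, ← hF.fst, e]
    · change b ∈ G₂
      rw [mem_G hq₂, ← hx1, ← hF.snd, e]
  · rintro ⟨ha, hb⟩
    have ha' : q₁ a = 1 := (mem_G hq₁).1 ha
    have hb' : q₂ b = 1 := (mem_G hq₂).1 hb
    obtain ⟨x, hx⟩ := hF.surj a b (by rw [ha', hb'])
    refine ⟨x, ?_, hx⟩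
    change x ∈ G
    rw [mem_G hq, ← hF.fst, hx]
    exact ha'

end fp

end Run7.h759.DI
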