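import Pool.Agent.Run7.h759.DI.Al

/-!
# Dade's sums along a homomorphism which is injective on `G` (helper759)
-/

set_option autoImplicit false
set_option linter.unusedSectionVars false

open scoped Classical BigOperators

noncomputable section

namespace Run7.h759.DI

open Pool.Agent.Y63.NV (IsClassFun centralValue IsBlock numDzBlock IsWt)
open Pool.Agent.Helper884.IC (IsIrrChar)
open Pool.Agent.Y63.AWC (IsIrreducibleCharacter)
open Pool.Agent.Y63.KR (IsPChain chainStabilizer conjSub)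
open Pool.Agent.R674.Tw (Fixes GCh NG invSum)
open Pool.Agent.Q99.AS (Dft Dft_congr)
open Pool.Agent.Q90.WR (card_transport irr_comp)
open Pool.Agent.N237.DI (Iso2 Inr Blk kS kdGe_kS kS_conj rad_kS numDz_kS)
open Pool.Agent.N20.DI (kdGe radSum)

/-- `f` maps `G` isomorphically onto `G₁`. -/
structure Emb {Γ E : Type} [Group Γ] [Group E] (f : Γ →* E) (G : Subgroup Γ) (G₁ : Subgroup E) :
    Prop where
  map : G.map f = G₁
  inj : ∀ x ∈ G, f x = 1 → x = 1

section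

variable {Γ E : Type} [Group Γ] [Group E] {f : Γ →* E} {G : Subgroup Γ} {G₁ : Subgroup E}

theorem Emb.mem (h : Emb f G G₁) {x : Γ} (hx : x ∈ G) : f x ∈ G₁ := by
  rw [← h.map]
  exact ⟨x, hx, rfl⟩

theorem Emb.surj (h : Emb f G G₁) {y : E} (hy : y ∈ G₁) : ∃ x ∈ G, f x = y := by
  rw [← h.map] at hy
  exact hy

/-- the isomorphism -/
def Emb.eqv (h : Emb f G G₁) (H : Subgroup E) : ↥(G ⊓ H.comap f) ≃* ↥(G₁ ⊓ H) :=
  MulEquiv.ofBijective
    ({ toFun := fun x => ⟨f x.1, h.mem x.2.1, x.2.2⟩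
       map_one' := Subtype.ext (map_one f)
       map_mul' := fun x y => Subtype.ext (map_mul f _ _) } : ↥(G ⊓ H.comap f) →* ↥(G₁ ⊓ H)) (by
    constructor
    · rw [injective_iff_map_eq_one]
      intro x hx
      exact Subtype.ext (h.inj _ x.2.1 (congrArg Subtype.val hx))
    · rintro ⟨y, hy⟩
      obtain ⟨x, hx, e⟩ := h.surj hy.1
      refine ⟨⟨x, hx, ?_⟩, Subtype.ext e⟩
      change f x ∈ H
      rw [e]
      exact hy.2)

theorem Emb.eqv_coe (h : Emb f G G₁) (H : Subgroup E) (x : ↥(G ⊓ H.comap f)) :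
    ((h.eqv H x : ↥(G₁ ⊓ H)) : E) = f x := rfl

/-- the isomorphism -/
def Emb.e (h : Emb f G G₁) : G ≃* G₁ :=
  MulEquiv.ofBijective
    ({ toFun := fun x => ⟨f x.1, h.mem x.2⟩
       map_one' := Subtype.ext (map_one f)
       map_mul' := fun x y => Subtype.ext (map_mul f _ _) } : G →* G₁) (by
    constructor
    · rw [injective_iff_map_eq_one]
      intro x hx
      exact Subtype.ext (h.inj _ x.2 (congrArg Subtype.val hx))
    · rintro ⟨y, hy⟩
      obtain ⟨x, hx, e⟩ := h.surj hy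
      exact ⟨⟨x, hx⟩, Subtype.ext e⟩)

theorem Emb.e_coe (h : Emb f G G₁) (x : G) : ((h.e x : G₁) : E) = f x := rfl

theorem Emb.card (h : Emb f G G₁) (H : Subgroup E) :
    Nat.card ↥(G ⊓ H.comap f) = Nat.card ↥(G₁ ⊓ H) := Nat.card_congr (h.eqv H).toEquiv

theorem Emb.iso2 (h : Emb f G G₁) : Iso2 (f.prod (1 : Γ →* Unit)) G G₁ ⊥ := by
  refine ⟨?_, fun x hx e => h.inj x hx (congrArg Prod.fst e)⟩
  ext ⟨a, b⟩
  constructor
  · rintro ⟨x, hx, e⟩
    have h1 : f x = a := congrArg Prod.fst e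
    refine ⟨?_, Subsingleton.elim _ _⟩
    rw [← h1]
    exact h.mem hx
  · rintro ⟨ha, -⟩
    obtain ⟨x, hx, e⟩ := h.surj ha
    exact ⟨x, hx, Prod.ext e rfl⟩

theorem al_bot {p : ℕ} (w : Subgroup E → ℤ) : al p (⊥ : Subgroup E) w = w ⊤ := by
  unfold al
  have h0 : ∀ σ : Set (Subgroup E), IsPChain p σ → (∀ P ∈ σ, P ≤ (⊥ : Subgroup E)) → σ = ∅ := by
    intro σ h1 h2
    rw [Set.eq_empty_iff_forall_notMem]
    intro P hP
    exact h1.ne_bot P hP (le_bot_iff.1 (h2 P hP))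
  have e0 : IsPChain p (∅ : Set (Subgroup E)) :=
    ⟨fun _ h => absurd h (Set.notMem_empty _), fun _ h => absurd h (Set.notMem_empty _),
      fun _ h => absurd h (Set.notMem_empty _)⟩
  have h1 : ∀ σ : GCh p (⊥ : Subgroup E), σ = ⟨∅, e0, fun _ h => absurd h (Set.notMem_empty _)⟩ :=
    fun σ => Subtype.ext (h0 σ.1 σ.2.1 σ.2.2)
  rw [finsum_eq_single _ (⟨∅, e0, fun _ h => absurd h (Set.notMem_empty _)⟩ :
    GCh p (⊥ : Subgroup E)) (fun σ hσ => absurd (h1 σ) hσ)]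
  have h2 : chainStabilizer (∅ : Set (Subgroup E)) = ⊤ := by
    unfold chainStabilizer
    simp
  rw [h2, Set.ncard_empty, pow_zero, one_mul]

variable [Finite Γ] [Finite E]

/-- **signed sums along `f`** -/
theorem al_map {p : ℕ} [Fact p.Prime] [G.Normal] (h : Emb f G G₁) (w : Subgroup Γ → ℤ)
    (w₁ : Subgroup E → ℤ) (hw : ∀ H : Subgroup E, w (H.comap f) = w₁ H) :
    al p G w = al p G₁ w₁ := by
  have h1 := al_prod (p := p) h.iso2 (Finset.univ : Finset Unit) w (fun _ => w₁)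
    (fun _ _ => 1) (fun H K => by
      rw [Finset.univ_unique, Finset.sum_singleton, mul_one, ← hw H]
      congr 1
      ext x
      constructor
      · intro hx
        exact hx.1
      · intro hx
        refine ⟨hx, ?_⟩
        exact K.one_mem)
  rw [h1, Finset.univ_unique, Finset.sum_singleton, al_bot, mul_one]

end

section blocks

variable {F : Type} [Field F] (red : integralClosure ℤ ℂ →+* F)
variable {Γ E : Type} [Group Γ] [Group E] {f : Γ →* E} {G : Subgroup Γ} {G₁ : Subgroup E}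
  [Finite Γ] [Finite E]

/-- `B` corresponds to the block `B₁` -/
def Cor (h : Emb f G G₁) (B : (G → F) → F) (B₁ : (G₁ → F) → F) : Prop :=
  ∀ g : G₁ → F, IsClassFun g → B (fun x => g (h.e x)) = B₁ g

include red in
theorem exists_cor (h : Emb f G G₁) {B₁ : (G₁ → F) → F} (hB₁ : IsBlock B₁) :
    ∃ B : (G → F) → F, IsBlock B ∧ Cor h B B₁ := by
  have _i1 : Fintype G₁ := Fintype.ofFinite _
  obtain ⟨θ, hθ, eθ⟩ := Pool.Agent.N85.TG.Exc.core red hB₁
  have hθ' : IsIrrChar θ := hθ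
  have hirr : IsIrrChar (fun x => θ (h.e x)) := irr_comp h.e hθ'
  refine ⟨centralValue red (fun x => θ (h.e x)), Pool.Agent.Y930.NV.cvh F red _ _ hirr,
    fun g hg => ?_⟩
  have h1 := Pool.Agent.Y286.NV.centralValue_comp red h.e θ (Pool.Agent.Y286.NV.irr_class hθ) g hg
  rw [eθ g hg] at h1
  exact h1

theorem blk_map (h : Emb f G G₁) {B : (G → F) → F} {B₁ : (G₁ → F) → F} (hc : Cor h B B₁)
    (H : Subgroup E) {θ : ↥(G₁ ⊓ H) → ℂ} (hθ : IsIrrChar θ) :
    Blk red G B (H.comap f) (fun x => θ (h.eqv H x)) ↔ Blk red G₁ B₁ H θ := by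
  have key : ∀ g : G₁ → F, IsClassFun g →
      centralValue red (fun x => θ (h.eqv H x))
        (fun x => g (h.e ⟨x, (Subgroup.mem_inf.1 x.2).1⟩)) =
      centralValue red θ (fun x => g ⟨x, (Subgroup.mem_inf.1 x.2).1⟩) := by
    intro g hg
    have hg' : IsClassFun (fun x : ↥(G₁ ⊓ H) => g ⟨x, (Subgroup.mem_inf.1 x.2).1⟩) :=
      fun a x => hg ⟨a, (Subgroup.mem_inf.1 a.2).1⟩ ⟨x, (Subgroup.mem_inf.1 x.2).1⟩
    exact Pool.Agent.Y286.NV.centralValue_comp red (h.eqv H) θ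
      (Pool.Agent.Y286.NV.irr_class hθ) _ hg'
  constructor
  · intro hb g hg
    have hcl : IsClassFun (fun x : G => g (h.e x)) := by
      intro a x
      change g (h.e (a * x * a⁻¹)) = g (h.e x)
      rw [map_mul, map_mul, map_inv]
      exact hg _ _
    have h1 := hb (fun x => g (h.e x)) hcl
    rw [hc g hg] at h1
    rw [← key g hg]
    exact h1
  · intro hb g hg
    have hcl : IsClassFun (fun x : G₁ => g (h.e.symm x)) := by
      intro a x
      change g (h.e.symm (a * x * a⁻¹)) = g (h.e.symm x)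
      rw [map_mul, map_mul, map_inv]
      exact hg _ _
    have h1 := hb (fun x => g (h.e.symm x)) hcl
    have h2 := hc _ hcl
    have h3 : (fun x : G => g (h.e.symm (h.e x))) = g := by
      funext x
      rw [MulEquiv.symm_apply_apply]
    rw [h3] at h2
    rw [h2, ← h1, ← key _ hcl]
    congr 1
    funext x
    rw [MulEquiv.symm_apply_apply]

theorem inr_map [G.Normal] [G₁.Normal] (h : Emb f G G₁) {U : Subgroup (Γ ⧸ G)}
    {U₁ : Subgroup (E ⧸ G₁)}
    (hU : ∀ y : E ⧸ G₁, y ∈ U₁ ↔ ∃ x : Γ, (x : Γ ⧸ G) ∈ U ∧ (f x : E ⧸ G₁) = y)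
    (H : Subgroup E) (θ : ↥(G₁ ⊓ H) → ℂ) :
    Inr G U (H.comap f) (fun x => θ (h.eqv H x)) ↔ Inr G₁ U₁ H θ := by
  constructor
  · intro hi u hu
    obtain ⟨x, hx, rfl⟩ := (hU u).1 hu
    obtain ⟨e, he, he1, he2⟩ := hi _ hx
    refine ⟨f e, he, ?_, ?_⟩
    · have h1 : e⁻¹ * x ∈ G := QuotientGroup.eq.1 he1
      refine QuotientGroup.eq.2 ?_
      have h2 := h.mem h1
      rwa [map_mul, map_inv] at h2
    · intro n n' hn
      obtain ⟨m, rfl⟩ := (h.eqv H).surjective n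
      obtain ⟨m', rfl⟩ := (h.eqv H).surjective n'
      refine he2 m m' ?_
      have h1 : f ((m' : Γ)⁻¹ * (e * m * e⁻¹)) = 1 := by
        rw [h.eqv_coe, h.eqv_coe] at hn
        rw [map_mul, map_mul, map_mul, map_inv, map_inv, hn]
        group
      have h2 : (m' : Γ)⁻¹ * (e * m * e⁻¹) ∈ G :=
        G.mul_mem (G.inv_mem m'.2.1) ((inferInstance : G.Normal).conj_mem _ m.2.1 _)
      have h3 := h.inj _ h2 h1
      exact (inv_mul_eq_one.1 h3)
  · intro hi u hu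
    obtain ⟨x, rfl⟩ := QuotientGroup.mk_surjective u
    obtain ⟨e, he, he1, he2⟩ := hi _ ((hU _).2 ⟨x, hu, rfl⟩)
    have h1 : (f x)⁻¹ * e ∈ G₁ := QuotientGroup.eq.1 he1.symm
    obtain ⟨g, hg, eg⟩ := h.surj h1
    have e1 : f (x * g) = e := by
      rw [map_mul, eg, mul_inv_cancel_left]
    refine ⟨x * g, ?_, ?_, ?_⟩
    · change f (x * g) ∈ H
      rw [e1]
      exact he
    · refine QuotientGroup.eq.2 ?_
      have : (x * g)⁻¹ * x = g⁻¹ := by group
      rw [this]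
      exact inv_mem hg
    · intro n n' hn
      refine he2 (h.eqv H n) (h.eqv H n') ?_
      rw [h.eqv_coe, h.eqv_coe, hn, map_mul, map_mul, map_inv, e1]

theorem kS_map (p : ℕ) [G.Normal] [G₁.Normal] (h : Emb f G G₁) {B : (G → F) → F}
    {B₁ : (G₁ → F) → F} (hc : Cor h B B₁) {U : Subgroup (Γ ⧸ G)} {U₁ : Subgroup (E ⧸ G₁)}
    (hU : ∀ y : E ⧸ G₁, y ∈ U₁ ↔ ∃ x : Γ, (x : Γ ⧸ G) ∈ U ∧ (f x : E ⧸ G₁) = y) (d : ℕ)
    (H : Subgroup E) : kS p red G B d U (H.comap f) = kS p red G₁ B₁ d U₁ H := by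
  unfold kS
  rw [card_transport (h.eqv H)]
  congr 1
  refine Nat.card_congr (Equiv.subtypeEquivRight fun χ => and_congr_right fun hχ => ?_)
  have e1 : Dft p d (fun x => χ (h.eqv H x)) ↔ Dft p d χ := Dft_congr (h.eqv H) χ
  rw [e1, inr_map h hU H χ, blk_map red h hc H hχ]

/-- **Dade's sums along `f`** -/
theorem rad_map {p : ℕ} [Fact p.Prime] [G.Normal] [G₁.Normal] (h : Emb f G G₁)
    {B : (G → F) → F} {B₁ : (G₁ → F) → F} (hc : Cor h B B₁) {U : Subgroup (Γ ⧸ G)}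
    {U₁ : Subgroup (E ⧸ G₁)}
    (hU : ∀ y : E ⧸ G₁, y ∈ U₁ ↔ ∃ x : Γ, (x : Γ ⧸ G) ∈ U ∧ (f x : E ⧸ G₁) = y) (d : ℕ) :
    radSum p G (fun σ => (kdGe p red G B d U σ : ℤ)) =
      radSum p G₁ (fun σ => (kdGe p red G₁ B₁ d U₁ σ : ℤ)) := by
  rw [rad_kS, rad_kS]
  have e1 := al_inv (p := p) (G := G) (kS p red G B d U) (fun g hg σ => kS_conj red G B d U hg σ)
  have e2 := al_inv (p := p) (G := G₁) (kS p red G₁ B₁ d U₁)
    (fun g hg σ => kS_conj red G₁ B₁ d U₁ hg σ)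
  have e3 : al p G (fun S => (Nat.card ↥(G ⊓ S) : ℤ) * kS p red G B d U S) =
      al p G₁ (fun S => (Nat.card ↥(G₁ ⊓ S) : ℤ) * kS p red G₁ B₁ d U₁ S) :=
    al_map h _ _ fun H => by rw [kS_map red p h hc hU d H, h.card H]
  rw [e3, ← e2] at e1
  have hcard : Nat.card G = Nat.card G₁ := Nat.card_congr h.e.toEquiv
  rw [hcard] at e1
  have hpos : (Nat.card G₁ : ℤ) ≠ 0 := by
    have : 0 < Nat.card G₁ := Nat.card_pos
    exact_mod_cast this.ne'
  exact mul_left_cancel₀ hpos e1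

theorem numDz_map (p : ℕ) [hn : G.Normal] [hn₁ : G₁.Normal] (h : Emb f G G₁)
    {B : (G → F) → F} {B₁ : (G₁ → F) → F} (hc : Cor h B B₁) :
    numDzBlock p red B = numDzBlock p red B₁ := by
  have h1 := kS_map red p h hc (U := ⊥) (U₁ := ⊥) (by
    intro y
    constructor
    · intro hy
      refine ⟨1, Subgroup.mem_bot.2 rfl, ?_⟩
      rw [Subgroup.mem_bot.1 hy, map_one]
      rfl
    · rintro ⟨x, hx, rfl⟩
      rw [Subgroup.mem_bot]
      exact (QuotientGroup.eq_one_iff _).2 (h.mem ((QuotientGroup.eq_one_iff x).1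
        (Subgroup.mem_bot.1 hx)))) 0 ⊤
  rw [Subgroup.comap_top, ← numDz_kS, ← numDz_kS] at h1
  exact_mod_cast h1

theorem op_map (p : ℕ) (h : Emb f G G₁)
    (h1 : ∀ P : Subgroup G₁, P.Normal → IsPGroup p P → P = ⊥) :
    ∀ P : Subgroup G, P.Normal → IsPGroup p P → P = ⊥ := by
  intro P hP hp
  have e1 := h1 _ (hP.map _ h.e.surjective) (hp.map h.e.toMonoidHom)
  rw [Subgroup.eq_bot_iff_forall]
  intro x hx
  have : h.e x ∈ P.map h.e.toMonoidHom := ⟨x, hx, rfl⟩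
  rw [e1, Subgroup.mem_bot] at this
  exact (map_eq_one_iff h.e h.e.injective).1 this

end blocks

end Run7.h759.DI
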