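import Pool.Agent.Run7.h759.DI.Prd
import Pool.Agent.Run7.h759.DI.Ext2

/-!
# Fibre products: counting characters (helper759)
-/

set_option autoImplicit false
set_option linter.unusedSectionVars false

open scoped Classical BigOperators

noncomputable section

namespace Run7.h759.DI

open Pool.Agent.Y63.NV (IsClassFun centralValue IsBlock numDzBlock)
open Pool.Agent.Helper884.IC (IsIrrChar IsClass Irr mem_Irr)
open Pool.Agent.Y63.AWC (res mult mult_spec mult_exists irr_comp)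
open Pool.Agent.Y63.KR (IsPChain chainStabilizer)
open Pool.Agent.R674.Tw (Fixes GCh)
open Pool.Agent.Q99.AS (Dft Dft_ten Dft_unique Dft_congr ten ten_irr ten_inj ten_cover card_prod
  irr_one_ne')
open Pool.Agent.Q90.WR (card_transport irr_comp_iff)
open Pool.Agent.N237.DI (Iso2 Proj inr_prod)

variable {Γ E₁ E₂ U : Type} [Group Γ] [Group E₁] [Group E₂] [Group U] {π : Γ →* E₁ × E₂}
  [Finite Γ] [Finite E₁] [Finite E₂]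
  {q : Γ →* U} {q₁ : E₁ →* U} {q₂ : E₂ →* U} (hF : FP π q q₁ q₂)
  {G : Subgroup Γ} {G₁ : Subgroup E₁} {G₂ : Subgroup E₂}
  (hq : q.ker = G) (hq₁ : q₁.ker = G₁) (hq₂ : q₂.ker = G₂)
  (hs₁ : Function.Surjective q₁) (hs₂ : Function.Surjective q₂)
  {F : Type} [Field F] (red : integralClosure ℤ ℂ →+* F)

section x

include hs₁ hs₂

/-- inertial groups in fibre products -/
theorem inq_prod (H : Subgroup E₁) (K : Subgroup E₂) {θ : ↥(G₁ ⊓ H) → ℂ} {ψ : ↥(G₂ ⊓ K) → ℂ}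
    (hθ : IsIrrChar θ) (hψ : IsIrrChar ψ) :
    Inq q ⊤ ((H.prod K).comap π)
        (fun x => ten θ ψ ((hF.iso2 hq hq₁ hq₂).eqv H K x)) ↔
      Inq q₁ ⊤ H θ ∧ Inq q₂ ⊤ K ψ := by
  have n : G.Normal := G_normal hq
  have n₁ : G₁.Normal := G_normal hq₁
  have n₂ : G₂.Normal := G_normal hq₂
  have hs := hF.surj_q hs₁ hs₂
  rw [← inr_inq hq ⊤ hs, ← inr_inq hq₁ ⊤ hs₁, ← inr_inq hq₂ ⊤ hs₂]
  refine inr_prod (hF.iso2 hq hq₁ hq₂) ⟨fun y => ?_, fun y => ?_⟩ hθ hψ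
  · constructor
    · intro _
      obtain ⟨a, rfl⟩ := QuotientGroup.mk_surjective y
      obtain ⟨b, hb⟩ := hs₂ (q₁ a)
      obtain ⟨x, hx⟩ := hF.surj a b hb.symm
      exact ⟨x, (mem_Vb hq).2 (Subgroup.mem_top _), by rw [hx]⟩
    · rintro ⟨x, -, rfl⟩
      exact (mem_Vb hq₁).2 (Subgroup.mem_top _)
  · constructor
    · intro _
      obtain ⟨b, rfl⟩ := QuotientGroup.mk_surjective y
      obtain ⟨a, ha⟩ := hs₁ (q₂ b)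
      obtain ⟨x, hx⟩ := hF.surj a b ha
      exact ⟨x, (mem_Vb hq).2 (Subgroup.mem_top _), by rw [hx]⟩
    · rintro ⟨x, -, rfl⟩
      exact (mem_Vb hq₂).2 (Subgroup.mem_top _)

omit hs₁ hs₂ in
theorem cv_prod (H : Subgroup E₁) (K : Subgroup E₂) {z₁ : E₁ → F} {z₂ : E₂ → F}
    (hz₁ : ∀ g x, z₁ (g * x * g⁻¹) = z₁ x) (hz₂ : ∀ g x, z₂ (g * x * g⁻¹) = z₂ x)
    {θ : ↥(G₁ ⊓ H) → ℂ} {ψ : ↥(G₂ ⊓ K) → ℂ} (hθ : IsIrrChar θ) (hψ : IsIrrChar ψ) :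
    centralValue red (fun x => ten θ ψ ((hF.iso2 hq hq₁ hq₂).eqv H K x))
        (fun x => z₁ (π x).1 * z₂ (π x).2) =
      centralValue red θ (fun x => z₁ x) * centralValue red ψ (fun x => z₂ x) := by
  have _i1 : Fintype ↥(G₁ ⊓ H) := Fintype.ofFinite _
  have _i2 : Fintype ↥(G₂ ⊓ K) := Fintype.ofFinite _
  have c1 : IsClassFun (fun x : ↥(G₁ ⊓ H) => z₁ x) := fun g x => hz₁ g x
  have c2 : IsClassFun (fun x : ↥(G₂ ⊓ K) => z₂ x) := fun g x => hz₂ g x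
  have h1 := Pool.Agent.Y286.NV.centralValue_comp red ((hF.iso2 hq hq₁ hq₂).eqv H K) (ten θ ψ)
    (Pool.Agent.Y286.NV.irr_class (ten_irr hθ hψ)) (fun x => z₁ x.1 * z₂ x.2)
    (fun g x => by
      have h3 := c1 g.1 x.1
      have h4 := c2 g.2 x.2
      change z₁ _ * z₂ _ = z₁ _ * z₂ _
      exact congrArg₂ (· * ·) h3 h4)
  rw [← Pool.Agent.N20.KB.cv_ten red hθ hψ c1 c2, ← h1]
  rfl

omit hs₁ hs₂ [Finite Γ] [Finite E₁] [Finite E₂] in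
theorem one_iff {a b : F} (ha : a = 0 ∨ a = 1) (hb : b = 0 ∨ b = 1) :
    a * b = 1 ↔ a = 1 ∧ b = 1 := by
  rcases ha with rfl | rfl <;> rcases hb with rfl | rfl <;> simp

include hF hq hq₁ hq₂ in
/-- **the invariant characters of the stabilisers** -/
theorem xc_prod (p : ℕ) (H : Subgroup E₁) (K : Subgroup E₂) {z₁ : E₁ → F} {z₂ : E₂ → F}
    (hz₁ : ∀ g x, z₁ (g * x * g⁻¹) = z₁ x) (hz₂ : ∀ g x, z₂ (g * x * g⁻¹) = z₂ x)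
    (h01 : ∀ θ : ↥(G₁ ⊓ H) → ℂ, IsIrrChar θ → centralValue red θ (fun x => z₁ x) = 0 ∨
      centralValue red θ (fun x => z₁ x) = 1)
    (h02 : ∀ θ : ↥(G₂ ⊓ K) → ℂ, IsIrrChar θ → centralValue red θ (fun x => z₂ x) = 0 ∨
      centralValue red θ (fun x => z₂ x) = 1) (D : ℕ) :
    xc p red G q ⊤ (fun x => z₁ (π x).1 * z₂ (π x).2) 1 D ((H.prod K).comap π) =
      ∑ i ∈ Finset.HasAntidiagonal.antidiagonal D,
        xc p red G₁ q₁ ⊤ z₁ 1 i.1 H * xc p red G₂ q₂ ⊤ z₂ 1 i.2 K := by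
  have _i1 : Fintype ↥(G₁ ⊓ H) := Fintype.ofFinite _
  have _i2 : Fintype ↥(G₂ ⊓ K) := Fintype.ofFinite _
  unfold xc xk
  rw [card_transport ((hF.iso2 hq hq₁ hq₂).eqv H K)]
  rw [card_prod (Finset.HasAntidiagonal.antidiagonal D) _
    (fun i θ => Dft p i.1 θ ∧ Inq q₁ ⊤ H θ ∧ centralValue red θ (fun x => z₁ x) = 1)
    (fun i ψ => Dft p i.2 ψ ∧ Inq q₂ ⊤ K ψ ∧ centralValue red ψ (fun x => z₂ x) = 1)]
  · push_cast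
    rfl
  · intro θ ψ h1 h2
    have e1 : Dft p D (fun x => ten θ ψ ((hF.iso2 hq hq₁ hq₂).eqv H K x)) ↔
        Dft p D (ten θ ψ) := Dft_congr _ (ten θ ψ)
    rw [e1, Dft_ten h1 h2, inq_prod hF hq hq₁ hq₂ hs₁ hs₂ H K h1 h2,
      cv_prod hF hq hq₁ hq₂ red H K hz₁ hz₂ h1 h2, one_iff (h01 θ h1) (h02 ψ h2)]
    constructor
    · rintro ⟨⟨i, hi, a, b⟩, ⟨c, c'⟩, ⟨e, e'⟩⟩
      exact ⟨i, hi, ⟨a, c, e⟩, b, c', e'⟩
    · rintro ⟨i, hi, ⟨a, c, e⟩, b, c', e'⟩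
      exact ⟨⟨i, hi, a, b⟩, ⟨c, c'⟩, ⟨e, e'⟩⟩
  · intro θ ψ i _ j _ h1 h2 h3 h4
    exact Prod.ext (Dft_unique h1.1 h3.1) (Dft_unique h2.1 h4.1)

end x

section y

variable {A : Subgroup U} [hAn : A.Normal] {ℓ : ℕ} [hl : Fact ℓ.Prime]

/-- the components -/
def jm (hF : FP π q q₁ q₂) (A : Subgroup U) (H : Subgroup E₁) (K : Subgroup E₂) :
    ↥(A.comap q ⊓ (H.prod K).comap π) →* ↥(A.comap q₁ ⊓ H) × ↥(A.comap q₂ ⊓ K) where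
  toFun x := (⟨(π x).1, Subgroup.mem_inf.2 ⟨by
      rw [Subgroup.mem_comap, hF.fst]
      exact (Subgroup.mem_inf.1 x.2).1, (Subgroup.mem_inf.1 x.2).2.1⟩⟩,
    ⟨(π x).2, Subgroup.mem_inf.2 ⟨by
      rw [Subgroup.mem_comap, hF.snd]
      exact (Subgroup.mem_inf.1 x.2).1, (Subgroup.mem_inf.1 x.2).2.2⟩⟩)
  map_one' := by
    refine Prod.ext (Subtype.ext ?_) (Subtype.ext ?_)
    · change (π 1).1 = 1
      rw [map_one]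
      rfl
    · change (π 1).2 = 1
      rw [map_one]
      rfl
  map_mul' a b := by
    refine Prod.ext (Subtype.ext ?_) (Subtype.ext ?_)
    · change (π (a * b)).1 = (π a).1 * (π b).1
      rw [map_mul]
      rfl
    · change (π (a * b)).2 = (π a).2 * (π b).2
      rw [map_mul]
      rfl

/-- the restriction of a product -/
theorem rs_jm (H : Subgroup E₁) (K : Subgroup E₂) (χ₁ : ↥(A.comap q₁ ⊓ H) → ℂ)
    (χ₂ : ↥(A.comap q₂ ⊓ K) → ℂ) :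
    rs (HK hq) (fun x => ten χ₁ χ₂ (jm hF A H K x)) =
      fun x => ten (rs (HK hq₁) χ₁) (rs (HK hq₂) χ₂) ((hF.iso2 hq hq₁ hq₂).eqv H K x) := rfl

theorem tw_jm (H : Subgroup E₁) (K : Subgroup E₂) (χ₁ : ↥(A.comap q₁ ⊓ H) → ℂ)
    (χ₂ : ↥(A.comap q₂ ⊓ K) → ℂ) (μ ν : A →* ℂˣ) :
    (fun x => ten (tw (phi q₁ A H) μ χ₁) (tw (phi q₂ A K) ν χ₂) (jm hF A H K x)) =
      tw (phi q A ((H.prod K).comap π)) (μ * ν) (fun x => ten χ₁ χ₂ (jm hF A H K x)) := by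
  funext x
  have h1 : phi q₁ A H (jm hF A H K x).1 = phi q A ((H.prod K).comap π) x :=
    Subtype.ext (hF.fst x)
  have h2 : phi q₂ A K (jm hF A H K x).2 = phi q A ((H.prod K).comap π) x :=
    Subtype.ext (hF.snd x)
  change (((μ (phi q₁ A H (jm hF A H K x).1) : ℂˣ) : ℂ) * χ₁ _) *
    (((ν (phi q₂ A K (jm hF A H K x).2) : ℂˣ) : ℂ) * χ₂ _) =
    (((μ * ν) (phi q A ((H.prod K).comap π) x) : ℂˣ) : ℂ) * (χ₁ _ * χ₂ _)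
  rw [h1, h2, MonoidHom.mul_apply, Units.val_mul]
  ring

theorem coc_jm (H : Subgroup E₁) (K : Subgroup E₂) {χ₁ : ↥(A.comap q₁ ⊓ H) → ℂ}
    {χ₂ : ↥(A.comap q₂ ⊓ K) → ℂ} {c₁ c₂ : U → A →* ℂˣ} (h₁ : Coc q₁ A c₁ H χ₁)
    (h₂ : Coc q₂ A c₂ K χ₂) :
    Coc q A (c₁ * c₂) ((H.prod K).comap π) (fun x => ten χ₁ χ₂ (jm hF A H K x)) := by
  intro u
  obtain ⟨a, ha, a1, a2⟩ := h₁ u
  obtain ⟨b, hb, b1, b2⟩ := h₂ u
  obtain ⟨e, he⟩ := hF.surj a b (a1.trans b1.symm)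
  refine ⟨e, ?_, ?_, fun n n' hn => ?_⟩
  · change π e ∈ H.prod K
    rw [he]
    exact ⟨ha, hb⟩
  · rw [← hF.fst, he]
    exact a1
  · have e1 : π n' = (a, b) * π n * (a, b)⁻¹ := by
      rw [hn, map_mul, map_mul, map_inv, he]
    have h3 := a2 (jm hF A H K n).1 (jm hF A H K n').1 (by
      change (π n').1 = a * (π n).1 * a⁻¹
      rw [e1]
      rfl)
    have h4 := b2 (jm hF A H K n).2 (jm hF A H K n').2 (by
      change (π n').2 = b * (π n).2 * b⁻¹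
      rw [e1]
      rfl)
    change χ₁ _ * χ₂ _ = _ * (χ₁ _ * χ₂ _)
    rw [h3, h4]
    have g1 : (⟨q₁ ((jm hF A H K n).1 : E₁), (Subgroup.mem_inf.1 (jm hF A H K n).1.2).1⟩ : A) =
        ⟨q n, (Subgroup.mem_inf.1 n.2).1⟩ := Subtype.ext (hF.fst n)
    have g2 : (⟨q₂ ((jm hF A H K n).2 : E₂), (Subgroup.mem_inf.1 (jm hF A H K n).2.2).1⟩ : A) =
        ⟨q n, (Subgroup.mem_inf.1 n.2).1⟩ := Subtype.ext (hF.snd n)
    rw [g1, g2, Pi.mul_apply, MonoidHom.mul_apply, Units.val_mul]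
    ring

omit [Finite Γ] [Finite E₁] [Finite E₂] in
theorem rs_hat (H : Subgroup E₁) (K : Subgroup E₂) [Finite Γ] [Finite E₁] [Finite E₂]
    {χ₁ : ↥(A.comap q₁ ⊓ H) → ℂ} {χ₂ : ↥(A.comap q₂ ⊓ K) → ℂ}
    (r₁ : IsIrrChar (rs (HK hq₁) χ₁)) (r₂ : IsIrrChar (rs (HK hq₂) χ₂)) :
    IsIrrChar (rs (HK hq) (fun x => ten χ₁ χ₂ (jm hF A H K x))) := by
  have _i1 : Fintype ↥(G₁ ⊓ H) := Fintype.ofFinite _
  have _i2 : Fintype ↥(G₂ ⊓ K) := Fintype.ofFinite _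
  rw [rs_jm hF hq hq₁ hq₂]
  exact irr_comp ((hF.iso2 hq hq₁ hq₂).eqv H K) (ten_irr r₁ r₂)

include hF hq hq₁ hq₂ in
theorem irr_hat (H : Subgroup E₁) (K : Subgroup E₂)
    {χ₁ : ↥(A.comap q₁ ⊓ H) → ℂ} {χ₂ : ↥(A.comap q₂ ⊓ K) → ℂ} (h₁ : IsIrrChar χ₁)
    (h₂ : IsIrrChar χ₂)
    (r₁ : IsIrrChar (rs (HK hq₁) χ₁)) (r₂ : IsIrrChar (rs (HK hq₂) χ₂)) :
    IsIrrChar (fun x => ten χ₁ χ₂ (jm hF A H K x)) := by
  have _i1 : Fintype ↥(A.comap q₁ ⊓ H) := Fintype.ofFinite _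
  have _i2 : Fintype ↥(A.comap q₂ ⊓ K) := Fintype.ofFinite _
  have _i3 : Fintype ↥(A.comap q ⊓ (H.prod K).comap π) := Fintype.ofFinite _
  have hMn : (MM q A G ((H.prod K).comap π)).Normal := M_normal A hq _
  exact pull_irr (MM q A G ((H.prod K).comap π)) (jm hF A H K) (ten_irr h₁ h₂)
    ((res_irr_iff hq _).2 (rs_hat hF hq hq₁ hq₂ H K r₁ r₂))

/-- the product of two characters -/
def hat (hF : FP π q q₁ q₂) (A : Subgroup U) (H : Subgroup E₁) (K : Subgroup E₂)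
    (χ₁ : ↥(A.comap q₁ ⊓ H) → ℂ) (χ₂ : ↥(A.comap q₂ ⊓ K) → ℂ) :
    ↥(A.comap q ⊓ (H.prod K).comap π) → ℂ := fun x => ten χ₁ χ₂ (jm hF A H K x)

theorem rs_hat_eq (H : Subgroup E₁) (K : Subgroup E₂)
    (χ₁ : ↥(A.comap q₁ ⊓ H) → ℂ) (χ₂ : ↥(A.comap q₂ ⊓ K) → ℂ) :
    rs (HK hq) (hat hF A H K χ₁ χ₂) =
      fun x => ten (rs (HK hq₁) χ₁) (rs (HK hq₂) χ₂) ((hF.iso2 hq hq₁ hq₂).eqv H K x) :=
  rs_jm hF hq hq₁ hq₂ H K χ₁ χ₂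

theorem dft_hat (p D : ℕ) (H : Subgroup E₁) (K : Subgroup E₂)
    (χ₁ : ↥(A.comap q₁ ⊓ H) → ℂ) (χ₂ : ↥(A.comap q₂ ⊓ K) → ℂ) :
    Dft p D (rs (HK hq) (hat hF A H K χ₁ χ₂)) ↔
      Dft p D (ten (rs (HK hq₁) χ₁) (rs (HK hq₂) χ₂)) := by
  rw [rs_hat_eq hF hq hq₁ hq₂]
  exact Dft_congr ((hF.iso2 hq hq₁ hq₂).eqv H K) (ten (rs (HK hq₁) χ₁) (rs (HK hq₂) χ₂))

theorem cv_hat (H : Subgroup E₁) (K : Subgroup E₂) {z₁ : E₁ → F} {z₂ : E₂ → F}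
    (hz₁ : ∀ g x, z₁ (g * x * g⁻¹) = z₁ x) (hz₂ : ∀ g x, z₂ (g * x * g⁻¹) = z₂ x)
    {χ₁ : ↥(A.comap q₁ ⊓ H) → ℂ} {χ₂ : ↥(A.comap q₂ ⊓ K) → ℂ}
    (r₁ : IsIrrChar (rs (HK hq₁) χ₁)) (r₂ : IsIrrChar (rs (HK hq₂) χ₂)) :
    centralValue red (rs (HK hq) (hat hF A H K χ₁ χ₂)) (fun x => z₁ (π x).1 * z₂ (π x).2) =
      centralValue red (rs (HK hq₁) χ₁) (fun x => z₁ x) *
        centralValue red (rs (HK hq₂) χ₂) (fun x => z₂ x) := by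
  rw [rs_hat_eq hF hq hq₁ hq₂]
  exact cv_prod hF hq hq₁ hq₂ red H K hz₁ hz₂ r₁ r₂

include hs₁ hs₂ in
theorem inq_hat (H : Subgroup E₁) (K : Subgroup E₂)
    {χ₁ : ↥(A.comap q₁ ⊓ H) → ℂ} {χ₂ : ↥(A.comap q₂ ⊓ K) → ℂ}
    (r₁ : IsIrrChar (rs (HK hq₁) χ₁)) (r₂ : IsIrrChar (rs (HK hq₂) χ₂)) :
    Inq q ⊤ ((H.prod K).comap π) (rs (HK hq) (hat hF A H K χ₁ χ₂)) ↔
      Inq q₁ ⊤ H (rs (HK hq₁) χ₁) ∧ Inq q₂ ⊤ K (rs (HK hq₂) χ₂) := by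
  rw [rs_hat_eq hF hq hq₁ hq₂]
  exact inq_prod hF hq hq₁ hq₂ hs₁ hs₂ H K r₁ r₂

end y

end Run7.h759.DI
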