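import Pool.Agent.Run7.h759.DI.Sqr

/-!
# Fibre products: counting the characters with irreducible restriction (helper759)
-/

set_option autoImplicit false
set_option linter.unusedSectionVars false

open scoped Classical BigOperators

noncomputable section

namespace Run7.h759.DI

open Pool.Agent.Y63.NV (IsClassFun centralValue IsBlock numDzBlock)
open Pool.Agent.Helper884.IC (IsIrrChar IsClass Irr mem_Irr)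
open Pool.Agent.Y63.AWC (res mult mult_spec mult_exists irr_comp)
open Pool.Agent.Y63.KR (IsPChain chainStabilizer)
open Pool.Agent.R674.Tw (Fixes GCh)
open Pool.Agent.Q99.AS (Dft Dft_ten Dft_unique Dft_congr ten ten_irr ten_inj ten_cover)
open Pool.Agent.Q90.WR (card_transport irr_comp_iff card_filter_eq)
open Pool.Agent.N237.DI (Iso2 Proj inr_prod)

/-- counting the characters of a direct product -/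
theorem card_prod2 {G H : Type} [Group G] [Group H] [Fintype G] [Fintype H]
    {ι : Type} (I : Finset ι) (R : (G × H → ℂ) → Prop) (A : ι → (G → ℂ) → Prop)
    (C : ι → (H → ℂ) → Prop)
    (hR : ∀ θ ψ, IsIrrChar θ → IsIrrChar ψ → (R (ten θ ψ) ↔ ∃ i ∈ I, A i θ ∧ C i ψ))
    (hd : ∀ θ ψ, IsIrrChar θ → IsIrrChar ψ →
      ∀ i ∈ I, ∀ j ∈ I, A i θ → C i ψ → A j θ → C j ψ → i = j) :
    Nat.card {χ : G × H → ℂ // IsIrrChar χ ∧ R χ} =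
      ∑ i ∈ I, Nat.card {θ : G → ℂ // IsIrrChar θ ∧ A i θ} *
        Nat.card {ψ : H → ℂ // IsIrrChar ψ ∧ C i ψ} := by
  rw [card_filter_eq]
  simp_rw [card_filter_eq, ← Finset.card_product, ← Finset.card_sigma]
  symm
  refine Finset.card_bij (fun a _ => ten a.2.1 a.2.2) ?_ ?_ ?_
  · rintro ⟨i, θ, ψ⟩ h
    simp only [Finset.mem_sigma, Finset.mem_product, Finset.mem_filter, mem_Irr] at h ⊢
    obtain ⟨hi, ⟨h1, h2⟩, h3, h4⟩ := h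
    exact ⟨ten_irr h1 h3, (hR θ ψ h1 h3).2 ⟨i, hi, h2, h4⟩⟩
  · rintro ⟨i, θ, ψ⟩ h ⟨i', θ', ψ'⟩ h' e
    simp only [Finset.mem_sigma, Finset.mem_product, Finset.mem_filter, mem_Irr] at h h'
    obtain ⟨hi, ⟨h1, h2⟩, h3, h4⟩ := h
    obtain ⟨hi', ⟨h1', h2'⟩, h3', h4'⟩ := h'
    obtain ⟨rfl, rfl⟩ := ten_inj h1 h3 h1' h3' e
    obtain rfl := hd θ ψ h1 h3 i hi i' hi' h2 h4 h2' h4'
    rfl
  · intro χ hχ
    simp only [Finset.mem_filter, mem_Irr] at hχ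
    obtain ⟨θ, ψ, h1, h2, rfl⟩ := ten_cover hχ.1
    obtain ⟨i, hi, h3, h4⟩ := (hR θ ψ h1 h2).1 hχ.2
    refine ⟨⟨i, θ, ψ⟩, ?_, rfl⟩
    simp only [Finset.mem_sigma, Finset.mem_product, Finset.mem_filter, mem_Irr]
    exact ⟨hi, ⟨h1, h3⟩, h2, h4⟩

theorem dm_one {A : Type} [Group A] (μ : A →* ℂˣ) : μ * 1 = μ := MonoidHom.ext fun _ => mul_one _

theorem dm_inv {A : Type} [Group A] {α β : A →* ℂˣ} (h : α * β = 1) : β = α⁻¹ :=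
  MonoidHom.ext fun x => eq_inv_of_mul_eq_one_right (DFunLike.congr_fun h x)

theorem dm_cancel {A : Type} [Group A] (α : A →* ℂˣ) : α * α⁻¹ = 1 :=
  MonoidHom.ext fun x => mul_inv_cancel (α x)

/-- the characters counted by `yc` -/
def Yp {F : Type} [Field F] {E U : Type} [Group E] [Group U] {G : Subgroup E} (p : ℕ)
    (red : integralClosure ℤ ℂ →+* F) {q : E →* U} {A : Subgroup U}
    (hG : G ≤ A.comap q) (c : U → A →* ℂˣ) (z : E → F) (D : ℕ) (S : Subgroup E)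
    (χ : ↥(A.comap q ⊓ S) → ℂ) : Prop :=
  IsIrrChar (rs (inf_le_inf_right S hG) χ) ∧ Dft p D (rs (inf_le_inf_right S hG) χ) ∧
      Coc q A c S χ ∧ centralValue red (rs (inf_le_inf_right S hG) χ) (fun x => z x) = 1

theorem yc_eq {F : Type} [Field F] {E U : Type} [Group E] [Group U] {G : Subgroup E} (p : ℕ)
    (red : integralClosure ℤ ℂ →+* F) {q : E →* U} {A : Subgroup U}
    (hG : G ≤ A.comap q) (c : U → A →* ℂˣ) (z : E → F) (D : ℕ) (S : Subgroup E) :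
    yc p red hG c z 1 D S =
      ((Nat.card {χ : ↥(A.comap q ⊓ S) → ℂ // IsIrrChar χ ∧ Yp p red hG c z D S χ} : ℕ) : ℤ) := rfl

variable {Γ E₁ E₂ U : Type} [Group Γ] [Group E₁] [Group E₂] [Group U] {π : Γ →* E₁ × E₂}
  [Finite Γ] [Finite E₁] [Finite E₂]
  {q : Γ →* U} {q₁ : E₁ →* U} {q₂ : E₂ →* U} (hF : FP π q q₁ q₂)
  {G : Subgroup Γ} {G₁ : Subgroup E₁} {G₂ : Subgroup E₂}
  (hq : q.ker = G) (hq₁ : q₁.ker = G₁) (hq₂ : q₂.ker = G₂)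
  (hs₁ : Function.Surjective q₁) (hs₂ : Function.Surjective q₂)
  {F : Type} [Field F] (red : integralClosure ℤ ℂ →+* F)
  {A : Subgroup U} [hAn : A.Normal] {ℓ : ℕ} [hl : Fact ℓ.Prime]

include hq in
theorem irr_hat' (H : Subgroup E₁) (K : Subgroup E₂)
    {χ₁ : ↥(A.comap q₁ ⊓ H) → ℂ} {χ₂ : ↥(A.comap q₂ ⊓ K) → ℂ} (h₁ : IsIrrChar χ₁)
    (h₂ : IsIrrChar χ₂)
    (r₁ : IsIrrChar (rs (HK hq₁) χ₁)) (r₂ : IsIrrChar (rs (HK hq₂) χ₂)) :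
    IsIrrChar (hat hF A H K χ₁ χ₂) := irr_hat hF hq hq₁ hq₂ H K h₁ h₂ r₁ r₂

theorem rs_hat' (H : Subgroup E₁) (K : Subgroup E₂)
    {χ₁ : ↥(A.comap q₁ ⊓ H) → ℂ} {χ₂ : ↥(A.comap q₂ ⊓ K) → ℂ}
    (r₁ : IsIrrChar (rs (HK hq₁) χ₁)) (r₂ : IsIrrChar (rs (HK hq₂) χ₂)) :
    IsIrrChar (rs (HK hq) (hat hF A H K χ₁ χ₂)) := rs_hat hF hq hq₁ hq₂ H K r₁ r₂

theorem coc_hat (H : Subgroup E₁) (K : Subgroup E₂) {χ₁ : ↥(A.comap q₁ ⊓ H) → ℂ}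
    {χ₂ : ↥(A.comap q₂ ⊓ K) → ℂ} {c₁ c₂ : U → A →* ℂˣ} (h₁ : Coc q₁ A c₁ H χ₁)
    (h₂ : Coc q₂ A c₂ K χ₂) :
    Coc q A (c₁ * c₂) ((H.prod K).comap π) (hat hF A H K χ₁ χ₂) := coc_jm hF H K h₁ h₂

theorem tw_hat (H : Subgroup E₁) (K : Subgroup E₂) (χ₁ : ↥(A.comap q₁ ⊓ H) → ℂ)
    (χ₂ : ↥(A.comap q₂ ⊓ K) → ℂ) (μ ν : A →* ℂˣ) :
    hat hF A H K (tw (phi q₁ A H) μ χ₁) (tw (phi q₂ A K) ν χ₂) =
      tw (phi q A ((H.prod K).comap π)) (μ * ν) (hat hF A H K χ₁ χ₂) := tw_jm hF H K χ₁ χ₂ μ ν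

section key

include hs₁ hs₂ hF

/-- the condition on a product -/
theorem key_prod (hA : Nat.card A = ℓ) (p : ℕ) (H : Subgroup E₁) (K : Subgroup E₂)
    {z₁ : E₁ → F} {z₂ : E₂ → F}
    (hz₁ : ∀ g x, z₁ (g * x * g⁻¹) = z₁ x) (hz₂ : ∀ g x, z₂ (g * x * g⁻¹) = z₂ x)
    (h01 : ∀ θ : ↥(G₁ ⊓ H) → ℂ, IsIrrChar θ → centralValue red θ (fun x => z₁ x) = 0 ∨
      centralValue red θ (fun x => z₁ x) = 1)
    (h02 : ∀ θ : ↥(G₂ ⊓ K) → ℂ, IsIrrChar θ → centralValue red θ (fun x => z₂ x) = 0 ∨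
      centralValue red θ (fun x => z₂ x) = 1) (D : ℕ) [Fintype (U → A →* ℂˣ)]
    {χ₁ : ↥(A.comap q₁ ⊓ H) → ℂ} {χ₂ : ↥(A.comap q₂ ⊓ K) → ℂ} (h₁ : IsIrrChar χ₁)
    (h₂ : IsIrrChar χ₂)
    (r₁ : IsIrrChar (rs (HK hq₁) χ₁)) (r₂ : IsIrrChar (rs (HK hq₂) χ₂)) :
    Yp p red (G_le A hq) 1 (fun x => z₁ (π x).1 * z₂ (π x).2) D ((H.prod K).comap π)
        (hat hF A H K χ₁ χ₂) ↔
      ∃ i ∈ Finset.HasAntidiagonal.antidiagonal D ×ˢ (Finset.univ : Finset (U → A →* ℂˣ)),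
        Yp p red (G_le A hq₁) i.2 z₁ i.1.1 H χ₁ ∧ Yp p red (G_le A hq₂) i.2⁻¹ z₂ i.1.2 K χ₂ := by
  unfold Yp
  have e1 := dft_hat hF hq hq₁ hq₂ p D H K χ₁ χ₂
  have e2 := cv_hat hF hq hq₁ hq₂ red H K hz₁ hz₂ r₁ r₂
  have e3 := inq_hat hF hq hq₁ hq₂ hs₁ hs₂ H K r₁ r₂
  have e4 := rs_hat' hF hq hq₁ hq₂ H K r₁ r₂
  rw [e1, Dft_ten r₁ r₂, e2, one_iff (h01 _ r₁) (h02 _ r₂)]
  constructor
  · rintro ⟨-, ⟨i, hi, a, b⟩, hc, v₁, v₂⟩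
    obtain ⟨i₁, i₂⟩ := e3.1 (coc_inq hq hc)
    obtain ⟨c₁, hc₁⟩ := coc_ex hq₁ hA h₁ r₁ i₁
    obtain ⟨c₂, hc₂⟩ := coc_ex hq₂ hA h₂ r₂ i₂
    have h5 := coc_unique hq hA (phi_of_coc hA hc) (irr_hat' hF hq hq₁ hq₂ H K h₁ h₂ r₁ r₂)
      e4 (coc_hat hF H K hc₁ hc₂) hc
    have h6 : c₂ = c₁⁻¹ := by
      funext u
      exact dm_inv (congrFun h5 u)
    refine ⟨(i, c₁), Finset.mem_product.2 ⟨hi, Finset.mem_univ _⟩, ⟨r₁, a, hc₁, v₁⟩,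
      ⟨r₂, b, ?_, v₂⟩⟩
    change Coc q₂ A c₁⁻¹ K χ₂
    rw [← h6]
    exact hc₂
  · rintro ⟨⟨i, c⟩, hi, ⟨-, a, hc₁, v₁⟩, ⟨-, b, hc₂, v₂⟩⟩
    refine ⟨e4, ⟨i, (Finset.mem_product.1 hi).1, a, b⟩, ?_, v₁, v₂⟩
    have h5 := coc_hat hF H K hc₁ hc₂
    have h6 : c * c⁻¹ = 1 := mul_inv_cancel c
    change Coc q A (c * c⁻¹) ((H.prod K).comap π) _ at h5
    rwa [h6] at h5

/-- the decomposition of the characters -/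
theorem dec_prod (hA : Nat.card A = ℓ) (H : Subgroup E₁) (K : Subgroup E₂)
    {χ : ↥(A.comap q ⊓ (H.prod K).comap π) → ℂ} (hχ : IsIrrChar χ)
    (hr : IsIrrChar (rs (HK hq) χ)) {c : U → A →* ℂˣ} (hc : Coc q A c ((H.prod K).comap π) χ) :
    ∃ (χ₁ : ↥(A.comap q₁ ⊓ H) → ℂ) (χ₂ : ↥(A.comap q₂ ⊓ K) → ℂ),
      IsIrrChar χ₁ ∧ IsIrrChar χ₂ ∧ IsIrrChar (rs (HK hq₁) χ₁) ∧ IsIrrChar (rs (HK hq₂) χ₂) ∧
        hat hF A H K χ₁ χ₂ = χ := by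
  have hfin : Finite A := fin_A hl.out hA
  have _i2 : Fintype ↥(A.comap q₁ ⊓ H) := Fintype.ofFinite _
  have _i3 : Fintype ↥(A.comap q₂ ⊓ K) := Fintype.ofFinite _
  have _i4 : Fintype ↥(G₁ ⊓ H) := Fintype.ofFinite _
  have _i5 : Fintype ↥(G₂ ⊓ K) := Fintype.ofFinite _
  obtain ⟨θ, ψ, h1, h2, h3⟩ := ten_cover (irr_comp ((hF.iso2 hq hq₁ hq₂).eqv H K).symm hr)
  have h4 : rs (HK hq) χ = fun x => ten θ ψ ((hF.iso2 hq hq₁ hq₂).eqv H K x) := by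
    rw [← h3]
    funext x
    change _ = rs (HK hq) χ (((hF.iso2 hq hq₁ hq₂).eqv H K).symm
      ((hF.iso2 hq hq₁ hq₂).eqv H K x))
    rw [MulEquiv.symm_apply_apply]
  have h5 := coc_inq hq hc
  rw [h4] at h5
  obtain ⟨i₁, i₂⟩ := (inq_prod hF hq hq₁ hq₂ hs₁ hs₂ H K h1 h2).1 h5
  obtain ⟨χ₁, k₁, l₁⟩ := ext_ex hq₁ hA h1 i₁
  obtain ⟨χ₂, k₂, l₂⟩ := ext_ex hq₂ hA h2 i₂
  have r₁ : IsIrrChar (rs (HK hq₁) χ₁) := by rw [l₁]; exact h1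
  have r₂ : IsIrrChar (rs (HK hq₂) χ₂) := by rw [l₂]; exact h2
  obtain ⟨μ, hμ⟩ := ext_uniq hq hA (phi_of_coc hA hc) (irr_hat' hF hq hq₁ hq₂ H K k₁ k₂ r₁ r₂)
    (rs_hat' hF hq hq₁ hq₂ H K r₁ r₂) hχ (by
      rw [rs_hat_eq hF hq hq₁ hq₂, l₁, l₂, h4])
  refine ⟨tw (phi q₁ A H) μ χ₁, χ₂, tw_irr _ _ k₁, k₂, ?_, r₂, ?_⟩
  · rw [rs_tw hq₁]
    exact r₁
  · have h6 := tw_hat hF H K χ₁ χ₂ μ 1
    rw [tw_one, dm_one] at h6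
    rw [h6]
    exact hμ.symm

include hq hq₁ hq₂ in
theorem inq_of_hat (H : Subgroup E₁) (K : Subgroup E₂)
    {χ₁ : ↥(A.comap q₁ ⊓ H) → ℂ} {χ₂ : ↥(A.comap q₂ ⊓ K) → ℂ}
    (r₁ : IsIrrChar (rs (HK hq₁) χ₁)) (r₂ : IsIrrChar (rs (HK hq₂) χ₂))
    {c : U → A →* ℂˣ} (hc : Coc q A c ((H.prod K).comap π) (hat hF A H K χ₁ χ₂)) :
    Inq q₁ ⊤ H (rs (HK hq₁) χ₁) ∧ Inq q₂ ⊤ K (rs (HK hq₂) χ₂) :=
  (inq_hat hF hq hq₁ hq₂ hs₁ hs₂ H K r₁ r₂).1 (coc_inq hq hc)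

include hq in
/-- the fibres of the product -/
theorem fib_hat (hA : Nat.card A = ℓ) (H : Subgroup E₁) (K : Subgroup E₂)
    {χ₁ θ : ↥(A.comap q₁ ⊓ H) → ℂ} {χ₂ ψ : ↥(A.comap q₂ ⊓ K) → ℂ} (h₁ : IsIrrChar χ₁)
    (h₂ : IsIrrChar χ₂) (r₁ : IsIrrChar (rs (HK hq₁) χ₁)) (r₂ : IsIrrChar (rs (HK hq₂) χ₂))
    (k₁ : IsIrrChar θ) (k₂ : IsIrrChar ψ)
    (l₁ : IsIrrChar (rs (HK hq₁) θ)) (l₂ : IsIrrChar (rs (HK hq₂) ψ))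
    (he : hat hF A H K θ ψ = hat hF A H K χ₁ χ₂)
    {c : U → A →* ℂˣ} (hc : Coc q A c ((H.prod K).comap π) (hat hF A H K χ₁ χ₂)) :
    ∃ α : A →* ℂˣ, θ = tw (phi q₁ A H) α χ₁ ∧ ψ = tw (phi q₂ A K) α⁻¹ χ₂ := by
  have hfin : Finite A := fin_A hl.out hA
  have _i1 : Fintype ↥(A.comap q ⊓ (H.prod K).comap π) := Fintype.ofFinite _
  have _i2 : Fintype ↥(A.comap q₁ ⊓ H) := Fintype.ofFinite _
  have _i3 : Fintype ↥(A.comap q₂ ⊓ K) := Fintype.ofFinite _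
  have _i4 : Fintype ↥(G₁ ⊓ H) := Fintype.ofFinite _
  have _i5 : Fintype ↥(G₂ ⊓ K) := Fintype.ofFinite _
  obtain ⟨i₁, i₂⟩ := inq_of_hat hF hq hq₁ hq₂ hs₁ hs₂ H K r₁ r₂ hc
  have h5 : rs (HK hq₁) θ = rs (HK hq₁) χ₁ ∧ rs (HK hq₂) ψ = rs (HK hq₂) χ₂ := by
    refine ten_inj l₁ l₂ r₁ r₂ ?_
    have h6 : rs (HK hq) (hat hF A H K θ ψ) = rs (HK hq) (hat hF A H K χ₁ χ₂) := by rw [he]
    rw [rs_hat_eq hF hq hq₁ hq₂, rs_hat_eq hF hq hq₁ hq₂] at h6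
    funext y
    obtain ⟨x, rfl⟩ := ((hF.iso2 hq hq₁ hq₂).eqv H K).surjective y
    exact congrFun h6 x
  obtain ⟨α, hα⟩ := ext_uniq hq₁ hA (phi_of_inq hA i₁) h₁ r₁ k₁ h5.1
  obtain ⟨β, hβ⟩ := ext_uniq hq₂ hA (phi_of_inq hA i₂) h₂ r₂ k₂ h5.2
  have h6 : tw (phi q A ((H.prod K).comap π)) (α * β) (hat hF A H K χ₁ χ₂) =
      tw (phi q A ((H.prod K).comap π)) 1 (hat hF A H K χ₁ χ₂) := by
    rw [tw_one, ← tw_hat, ← hα, ← hβ, he]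
  have h7 : α * β = 1 := rtw_inj hq hA (phi_of_coc hA hc)
    (irr_hat' hF hq hq₁ hq₂ H K h₁ h₂ r₁ r₂) (rs_hat' hF hq hq₁ hq₂ H K r₁ r₂) h6
  have h8 : β = α⁻¹ := dm_inv h7
  exact ⟨α, hα, by rw [← h8]; exact hβ⟩

include hq in
/-- **the characters with irreducible restriction** -/
theorem yc_prod (hA : Nat.card A = ℓ) (p : ℕ) (H : Subgroup E₁) (K : Subgroup E₂) {z₁ : E₁ → F}
    {z₂ : E₂ → F}
    (hz₁ : ∀ g x, z₁ (g * x * g⁻¹) = z₁ x) (hz₂ : ∀ g x, z₂ (g * x * g⁻¹) = z₂ x)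
    (h01 : ∀ θ : ↥(G₁ ⊓ H) → ℂ, IsIrrChar θ → centralValue red θ (fun x => z₁ x) = 0 ∨
      centralValue red θ (fun x => z₁ x) = 1)
    (h02 : ∀ θ : ↥(G₂ ⊓ K) → ℂ, IsIrrChar θ → centralValue red θ (fun x => z₂ x) = 0 ∨
      centralValue red θ (fun x => z₂ x) = 1) (D : ℕ) [Fintype (U → A →* ℂˣ)] :
    (ℓ : ℤ) * yc p red (G_le A hq) 1 (fun x => z₁ (π x).1 * z₂ (π x).2) 1 D
        ((H.prod K).comap π) =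
      ∑ i ∈ Finset.HasAntidiagonal.antidiagonal D ×ˢ (Finset.univ : Finset (U → A →* ℂˣ)),
        yc p red (G_le A hq₁) i.2 z₁ 1 i.1.1 H *
          yc p red (G_le A hq₂) i.2⁻¹ z₂ 1 i.1.2 K := by
  have _i1 : Fintype ↥(A.comap q₁ ⊓ H) := Fintype.ofFinite _
  have _i2 : Fintype ↥(A.comap q₂ ⊓ K) := Fintype.ofFinite _
  have _i3 : Fintype ↥(A.comap q ⊓ (H.prod K).comap π) := Fintype.ofFinite _
  have hfin : Finite A := fin_A hl.out hA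
  have hcard := card_prod2
    (Finset.HasAntidiagonal.antidiagonal D ×ˢ (Finset.univ : Finset (U → A →* ℂˣ)))
    (fun χ => ∃ θ ψ, IsIrrChar θ ∧ IsIrrChar ψ ∧ χ = ten θ ψ ∧
      ∃ i ∈ Finset.HasAntidiagonal.antidiagonal D ×ˢ (Finset.univ : Finset (U → A →* ℂˣ)),
        Yp p red (G_le A hq₁) i.2 z₁ i.1.1 H θ ∧ Yp p red (G_le A hq₂) i.2⁻¹ z₂ i.1.2 K ψ)
    (fun i θ => Yp p red (G_le A hq₁) i.2 z₁ i.1.1 H θ)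
    (fun i ψ => Yp p red (G_le A hq₂) i.2⁻¹ z₂ i.1.2 K ψ)
    (by
      intro θ ψ h1 h2
      constructor
      · rintro ⟨θ', ψ', h3, h4, h5, h6⟩
        obtain ⟨rfl, rfl⟩ := ten_inj h1 h2 h3 h4 h5
        exact h6
      · intro h
        exact ⟨θ, ψ, h1, h2, rfl, h⟩)
    (by
      rintro θ ψ h1 h2 ⟨⟨i₁, i₂⟩, c⟩ _ ⟨⟨j₁, j₂⟩, c'⟩ _ ⟨a1, a2, a3, -⟩ ⟨b1, b2, -, -⟩
        ⟨-, a2', a3', -⟩ ⟨-, b2', -, -⟩
      have e1 : i₁ = j₁ := Dft_unique a2 a2'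
      have e2 : i₂ = j₂ := Dft_unique b2 b2'
      have e3 : c = c' := coc_unique hq₁ hA (phi_of_coc hA a3) h1 a1 a3 a3'
      rw [e1, e2, e3])
  have hdec : ∀ t : {χ : ↥(A.comap q ⊓ (H.prod K).comap π) → ℂ // IsIrrChar χ ∧
      Yp p red (G_le A hq) 1 (fun x => z₁ (π x).1 * z₂ (π x).2) D ((H.prod K).comap π) χ},
      ∃ (χ₁ : ↥(A.comap q₁ ⊓ H) → ℂ) (χ₂ : ↥(A.comap q₂ ⊓ K) → ℂ),
      IsIrrChar χ₁ ∧ IsIrrChar χ₂ ∧ IsIrrChar (rs (HK hq₁) χ₁) ∧ IsIrrChar (rs (HK hq₂) χ₂) ∧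
        hat hF A H K χ₁ χ₂ = t.1 := fun t =>
    dec_prod hF hq hq₁ hq₂ hs₁ hs₂ hA H K t.2.1 t.2.2.1 t.2.2.2.2.1
  choose X₁ X₂ hX₁ hX₂ hY₁ hY₂ hXX using hdec
  have htw : ∀ (α : A →* ℂˣ) (t : {χ : ↥(A.comap q ⊓ (H.prod K).comap π) → ℂ // IsIrrChar χ ∧
      Yp p red (G_le A hq) 1 (fun x => z₁ (π x).1 * z₂ (π x).2) D ((H.prod K).comap π) χ}),
      hat hF A H K (tw (phi q₁ A H) α (X₁ t)) (tw (phi q₂ A K) α⁻¹ (X₂ t)) = t.1 := by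
    intro α t
    rw [tw_hat hF H K, dm_cancel, tw_one, hXX]
  have h1r : ∀ (α : A →* ℂˣ) t, IsIrrChar (rs (HK hq₁) (tw (phi q₁ A H) α (X₁ t))) := by
    intro α t
    rw [rs_tw hq₁]
    exact hY₁ t
  have h2r : ∀ (α : A →* ℂˣ) t, IsIrrChar (rs (HK hq₂) (tw (phi q₂ A K) α (X₂ t))) := by
    intro α t
    rw [rs_tw hq₂]
    exact hY₂ t
  have hinj : ∀ (α β : A →* ℂˣ) t s, ten (tw (phi q₁ A H) α (X₁ t)) (tw (phi q₂ A K) α⁻¹ (X₂ t)) =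
      ten (tw (phi q₁ A H) β (X₁ s)) (tw (phi q₂ A K) β⁻¹ (X₂ s)) → (α, t) = (β, s) := by
    intro α β t s h0
    have h1 : t = s := by
      apply Subtype.ext
      rw [← htw α t, ← htw β s]
      unfold hat
      rw [h0]
    subst h1
    obtain ⟨h2, -⟩ := ten_inj (tw_irr _ _ (hX₁ t)) (tw_irr _ _ (hX₂ t))
      (tw_irr _ _ (hX₁ t)) (tw_irr _ _ (hX₂ t)) h0
    have hc : Coc q A 1 ((H.prod K).comap π) (hat hF A H K (X₁ t) (X₂ t)) := by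
      rw [hXX]
      exact t.2.2.2.2.1
    have h3 := rtw_inj hq₁ hA
      (phi_of_inq hA (inq_of_hat hF hq hq₁ hq₂ hs₁ hs₂ H K (hY₁ t) (hY₂ t) hc).1) (hX₁ t) (hY₁ t) h2
    rw [h3]
  have hval : ∀ (α : A →* ℂˣ) t, ∃ i ∈ Finset.HasAntidiagonal.antidiagonal D ×ˢ
      (Finset.univ : Finset (U → A →* ℂˣ)),
        Yp p red (G_le A hq₁) i.2 z₁ i.1.1 H (tw (phi q₁ A H) α (X₁ t)) ∧
          Yp p red (G_le A hq₂) i.2⁻¹ z₂ i.1.2 K (tw (phi q₂ A K) α⁻¹ (X₂ t)) := by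
    intro α t
    refine (key_prod hF hq hq₁ hq₂ hs₁ hs₂ red hA p H K hz₁ hz₂ h01 h02 D
      (tw_irr _ _ (hX₁ t)) (tw_irr _ _ (hX₂ t)) (h1r _ _) (h2r _ _)).1 ?_
    rw [htw]
    exact t.2.2
  have hsur : ∀ θ ψ, IsIrrChar θ → IsIrrChar ψ →
      (∃ i ∈ Finset.HasAntidiagonal.antidiagonal D ×ˢ (Finset.univ : Finset (U → A →* ℂˣ)),
        Yp p red (G_le A hq₁) i.2 z₁ i.1.1 H θ ∧ Yp p red (G_le A hq₂) i.2⁻¹ z₂ i.1.2 K ψ) →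
      ∃ (α : A →* ℂˣ) (t : {χ : ↥(A.comap q ⊓ (H.prod K).comap π) → ℂ // IsIrrChar χ ∧
        Yp p red (G_le A hq) 1 (fun x => z₁ (π x).1 * z₂ (π x).2) D ((H.prod K).comap π) χ}),
        ten (tw (phi q₁ A H) α (X₁ t)) (tw (phi q₂ A K) α⁻¹ (X₂ t)) = ten θ ψ := by
    intro θ ψ h1 h2 h3
    obtain ⟨i, hi, hi₁, hi₂⟩ := h3
    have h4 := (key_prod hF hq hq₁ hq₂ hs₁ hs₂ red hA p H K hz₁ hz₂ h01 h02 D
      h1 h2 hi₁.1 hi₂.1).2 ⟨i, hi, hi₁, hi₂⟩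
    have h5 := hXX ⟨hat hF A H K θ ψ, irr_hat' hF hq hq₁ hq₂ H K h1 h2 hi₁.1 hi₂.1, h4⟩
    have hc : Coc q A 1 ((H.prod K).comap π) (hat hF A H K (X₁ ⟨hat hF A H K θ ψ,
        irr_hat' hF hq hq₁ hq₂ H K h1 h2 hi₁.1 hi₂.1, h4⟩) (X₂ ⟨hat hF A H K θ ψ,
        irr_hat' hF hq hq₁ hq₂ H K h1 h2 hi₁.1 hi₂.1, h4⟩)) := by
      rw [h5]
      exact h4.2.2.1
    obtain ⟨α, hα, hβ⟩ := fib_hat hF hq hq₁ hq₂ hs₁ hs₂ hA H K (hX₁ _) (hX₂ _) (hY₁ _) (hY₂ _)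
      h1 h2 hi₁.1 hi₂.1 h5.symm hc
    exact ⟨α, _, by rw [← hα, ← hβ]⟩
  have hbij := Nat.card_congr (Equiv.ofBijective (fun a : (A →* ℂˣ) ×
      {χ : ↥(A.comap q ⊓ (H.prod K).comap π) → ℂ // IsIrrChar χ ∧
        Yp p red (G_le A hq) 1 (fun x => z₁ (π x).1 * z₂ (π x).2) D ((H.prod K).comap π) χ} =>
      (⟨ten (tw (phi q₁ A H) a.1 (X₁ a.2)) (tw (phi q₂ A K) a.1⁻¹ (X₂ a.2)),
        ten_irr (tw_irr _ _ (hX₁ a.2)) (tw_irr _ _ (hX₂ a.2)),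
        _, _, tw_irr _ _ (hX₁ a.2), tw_irr _ _ (hX₂ a.2), rfl, hval a.1 a.2⟩ :
          {χ : ↥(A.comap q₁ ⊓ H) × ↥(A.comap q₂ ⊓ K) → ℂ // IsIrrChar χ ∧
      ∃ θ ψ, IsIrrChar θ ∧ IsIrrChar ψ ∧ χ = ten θ ψ ∧
      ∃ i ∈ Finset.HasAntidiagonal.antidiagonal D ×ˢ (Finset.univ : Finset (U → A →* ℂˣ)),
        Yp p red (G_le A hq₁) i.2 z₁ i.1.1 H θ ∧ Yp p red (G_le A hq₂) i.2⁻¹ z₂ i.1.2 K ψ}))
    ⟨fun a b hab => hinj a.1 b.1 a.2 b.2 (congrArg Subtype.val hab), by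
      rintro ⟨χ, hχ, θ, ψ, h1, h2, h3, h4⟩
      obtain ⟨α, t, h5⟩ := hsur θ ψ h1 h2 h4
      exact ⟨(α, t), Subtype.ext (h5.trans h3.symm)⟩⟩)
  rw [← hbij, Nat.card_prod, card_dual hA] at hcard
  have h9 := congrArg (fun n : ℕ => (n : ℤ)) hcard
  rw [yc_eq]
  simp_rw [yc_eq]
  push_cast at h9 ⊢
  exact h9

end key

end Run7.h759.DI
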