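import Pool.Agent.Run7.h759.DI.Al
import Pool.Agent.Run7.h759.DI.Cnt

/-!
# Tensor induction: the group (helper759)
-/

set_option autoImplicit false
set_option linter.unusedSectionVars false

open scoped Classical BigOperators

noncomputable section

namespace Run7.h759.DI

open Pool.Agent.Y63.KR (IsPChain chainStabilizer conjSub conjSub_eq_iff mem_chainStabilizer
  mem_conjSub conjSub_le conj_mem_conjSub)

section tg

variable {E Γ T : Type} [Group E] [Group Γ] [MulAction Γ T]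

/-- The group of the pairs `(g, f)`, `g ∈ Γ`, `f : T → E`, with `q (f t) = s(t)⁻¹ g s(g⁻¹ t)`. -/
structure TG (q : E →* Γ) (s : T → Γ) where
  /-- the element of `Γ` -/
  g : Γ
  /-- the components -/
  f : T → E
  h : ∀ t, q (f t) = (s t)⁻¹ * g * s (g⁻¹ • t)

variable {q : E →* Γ} {s : T → Γ}

theorem TG.ext' {x y : TG q s} (h1 : x.g = y.g) (h2 : ∀ t, x.f t = y.f t) : x = y := by
  obtain ⟨g, f, h⟩ := x
  obtain ⟨g', f', h'⟩ := y
  have e1 : g = g' := h1
  have e2 : f = f' := funext h2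
  subst e1
  subst e2
  rfl

instance : Mul (TG q s) := ⟨fun x y => ⟨x.g * y.g, fun t => x.f t * y.f (x.g⁻¹ • t), fun t => by
  rw [map_mul, x.h, y.h, mul_inv_rev, mul_smul]
  group⟩⟩

instance : One (TG q s) := ⟨⟨1, fun _ => 1, fun t => by
  rw [map_one, inv_one, one_smul]
  group⟩⟩

instance : Inv (TG q s) := ⟨fun x => ⟨x.g⁻¹, fun t => (x.f (x.g • t))⁻¹, fun t => by
  rw [map_inv, x.h, inv_inv, inv_smul_smul]
  group⟩⟩

theorem TG.mul_g (x y : TG q s) : (x * y).g = x.g * y.g := rfl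
theorem TG.mul_f (x y : TG q s) (t : T) : (x * y).f t = x.f t * y.f (x.g⁻¹ • t) := rfl
theorem TG.one_g : (1 : TG q s).g = 1 := rfl
theorem TG.one_f (t : T) : (1 : TG q s).f t = 1 := rfl
theorem TG.inv_g (x : TG q s) : (x⁻¹).g = x.g⁻¹ := rfl
theorem TG.inv_f (x : TG q s) (t : T) : (x⁻¹).f t = (x.f (x.g • t))⁻¹ := rfl

instance : Group (TG q s) := Group.ofLeftAxioms
  (fun x y z => TG.ext' (mul_assoc _ _ _) (fun t => by
    rw [TG.mul_f, TG.mul_f, TG.mul_f, TG.mul_f, TG.mul_g, mul_inv_rev, mul_smul, mul_assoc]))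
  (fun x => TG.ext' (one_mul _) (fun t => by
    rw [TG.mul_f, TG.one_f, one_mul, TG.one_g, inv_one, one_smul]))
  (fun x => TG.ext' (inv_mul_cancel _) (fun t => by
    rw [TG.mul_f, TG.inv_f, TG.inv_g, inv_inv, inv_mul_cancel, TG.one_f]))

/-- the projection -/
def TG.qq (q : E →* Γ) (s : T → Γ) : TG q s →* Γ where
  toFun x := x.g
  map_one' := rfl
  map_mul' _ _ := rfl

theorem TG.qq_apply (x : TG q s) : TG.qq q s x = x.g := rfl

instance [Finite E] [Finite Γ] [Finite T] : Finite (TG q s) :=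
  Finite.of_injective (fun x : TG q s => (x.g, x.f)) (by
    intro x y h
    exact TG.ext' (congrArg Prod.fst h) (fun t => congrFun (congrArg Prod.snd h) t))

theorem TG.qq_surj {t₀ : T} (hs : ∀ t, s t • t₀ = t)
    (hq : q.range = MulAction.stabilizer Γ t₀) : Function.Surjective (TG.qq q s) := by
  intro g
  have h1 : ∀ t, ∃ e, q e = (s t)⁻¹ * g * s (g⁻¹ • t) := by
    intro t
    have h2 : (s t)⁻¹ * g * s (g⁻¹ • t) ∈ q.range := by
      rw [hq, MulAction.mem_stabilizer_iff, mul_smul, mul_smul, hs, smul_inv_smul, inv_smul_eq_iff,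
        hs]
    exact h2
  choose f hf using h1
  exact ⟨⟨g, f, hf⟩, rfl⟩

theorem TG.mem_ker {x : TG q s} : x ∈ (TG.qq q s).ker ↔ x.g = 1 := MonoidHom.mem_ker

/-- elements of the kernel -/
def TG.el (y : T → E) (h : ∀ t, q (y t) = 1) : TG q s := ⟨1, y, fun t => by
  rw [h, inv_one, one_smul]
  group⟩

theorem TG.q_f {x : TG q s} (h : x.g = 1) (t : T) : q (x.f t) = 1 := by
  rw [x.h, h, inv_one, one_smul]
  group

theorem TG.conj_f (x : TG q s) {y : TG q s} (h : y.g = 1) (t : T) :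
    (x * y * x⁻¹).f t = x.f t * y.f (x.g⁻¹ • t) * (x.f t)⁻¹ := by
  rw [TG.mul_f, TG.mul_f, TG.inv_f, TG.mul_g, h, mul_one, smul_inv_smul]

theorem TG.conj_g (x : TG q s) {y : TG q s} (h : y.g = 1) : (x * y * x⁻¹).g = 1 := by
  rw [TG.mul_g, TG.mul_g, TG.inv_g, h, mul_one, mul_inv_cancel]

/-- the product of the subgroups `P t` -/
def PP (q : E →* Γ) (s : T → Γ) (P : T → Subgroup E) : Subgroup (TG q s) where
  carrier := {x | x.g = 1 ∧ ∀ t, x.f t ∈ P t}
  one_mem' := ⟨rfl, fun t => one_mem _⟩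
  mul_mem' := by
    rintro x y ⟨h1, h2⟩ ⟨h3, h4⟩
    refine ⟨by rw [TG.mul_g, h1, h3, one_mul], fun t => ?_⟩
    rw [TG.mul_f, h1, inv_one, one_smul]
    exact (P t).mul_mem (h2 t) (h4 t)
  inv_mem' := by
    rintro x ⟨h1, h2⟩
    refine ⟨by rw [TG.inv_g, h1, inv_one], fun t => ?_⟩
    rw [TG.inv_f, h1, one_smul]
    exact (P t).inv_mem (h2 t)

theorem mem_PP {P : T → Subgroup E} {x : TG q s} : x ∈ PP q s P ↔ x.g = 1 ∧ ∀ t, x.f t ∈ P t :=
  Iff.rfl

/-- the elements with all components in `S` -/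
def TS (q : E →* Γ) (s : T → Γ) (S : Subgroup E) : Subgroup (TG q s) where
  carrier := {x | ∀ t, x.f t ∈ S}
  one_mem' := fun t => one_mem _
  mul_mem' := by
    intro x y h1 h2 t
    rw [TG.mul_f]
    exact S.mul_mem (h1 t) (h2 _)
  inv_mem' := by
    intro x h1 t
    rw [TG.inv_f]
    exact S.inv_mem (h1 _)

theorem mem_TS {S : Subgroup E} {x : TG q s} : x ∈ TS q s S ↔ ∀ t, x.f t ∈ S := Iff.rfl

/-- the projections of a subgroup -/
def pr (t : T) (R : Subgroup (TG q s)) : Subgroup E where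
  carrier := {e | ∃ x ∈ R, x.g = 1 ∧ x.f t = e}
  one_mem' := ⟨1, R.one_mem, rfl, rfl⟩
  mul_mem' := by
    rintro _ _ ⟨x, h1, h2, rfl⟩ ⟨y, h3, h4, rfl⟩
    refine ⟨x * y, R.mul_mem h1 h3, by rw [TG.mul_g, h2, h4, one_mul], ?_⟩
    rw [TG.mul_f, h2, inv_one, one_smul]
  inv_mem' := by
    rintro _ ⟨x, h1, h2, rfl⟩
    refine ⟨x⁻¹, R.inv_mem h1, by rw [TG.inv_g, h2, inv_one], ?_⟩
    rw [TG.inv_f, h2, one_smul]

theorem mem_pr {t : T} {R : Subgroup (TG q s)} {e : E} :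
    e ∈ pr t R ↔ ∃ x ∈ R, x.g = 1 ∧ x.f t = e := Iff.rfl

theorem PP_le (P : T → Subgroup E) : PP q s P ≤ (TG.qq q s).ker := fun _ h => TG.mem_ker.2 h.1

theorem pr_le (t : T) (R : Subgroup (TG q s)) : pr t R ≤ q.ker := by
  rintro _ ⟨x, -, h2, rfl⟩
  exact MonoidHom.mem_ker.2 (TG.q_f h2 t)

theorem pr_mono (t : T) {R R' : Subgroup (TG q s)} (h : R ≤ R') : pr t R ≤ pr t R' := by
  rintro _ ⟨x, h1, h2, rfl⟩
  exact ⟨x, h h1, h2, rfl⟩

theorem PP_mono {P P' : T → Subgroup E} (h : ∀ t, P t ≤ P' t) : PP q s P ≤ PP q s P' :=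
  fun _ hx => ⟨hx.1, fun t => h t (hx.2 t)⟩

theorem pr_PP {P : T → Subgroup E} (hP : ∀ t, P t ≤ q.ker) (t : T) : pr t (PP q s P) = P t := by
  apply le_antisymm
  · rintro _ ⟨x, ⟨-, h1⟩, -, rfl⟩
    exact h1 t
  · intro e he
    refine ⟨TG.el (fun t' => if t' = t then e else 1) (fun t' => ?_), ⟨rfl, fun t' => ?_⟩, rfl,
      if_pos rfl⟩
    · by_cases h : t' = t
      · simp only [if_pos h]
        exact MonoidHom.mem_ker.1 (hP t he)
      · simp only [if_neg h]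
        exact map_one q
    · change (if t' = t then e else 1) ∈ P t'
      by_cases h : t' = t
      · rw [if_pos h, h]
        exact he
      · rw [if_neg h]
        exact one_mem _

theorem PP_inj {P P' : T → Subgroup E} (hP : ∀ t, P t ≤ q.ker) (hP' : ∀ t, P' t ≤ q.ker)
    (h : PP q s P = PP q s P') (t : T) : P t = P' t := by
  rw [← pr_PP (s := s) hP t, h, pr_PP hP' t]

/-- the closure -/
def cl (R : Subgroup (TG q s)) : Subgroup (TG q s) := PP q s (fun t => pr t R)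

theorem le_cl {R : Subgroup (TG q s)} (hR : R ≤ (TG.qq q s).ker) : R ≤ cl R :=
  fun x hx => ⟨TG.mem_ker.1 (hR hx), fun _ => ⟨x, hx, TG.mem_ker.1 (hR hx), rfl⟩⟩

theorem pr_cl (R : Subgroup (TG q s)) (t : T) : pr t (cl R) = pr t R :=
  pr_PP (fun t => pr_le t R) t

theorem cl_cl (R : Subgroup (TG q s)) : cl (cl R) = cl R := by
  have h : (fun t => pr t (cl R)) = fun t => pr t R := funext (pr_cl R)
  unfold cl at h ⊢
  rw [h]

theorem cl_mono {R R' : Subgroup (TG q s)} (h : R ≤ R') : cl R ≤ cl R' :=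
  PP_mono fun t => pr_mono t h

theorem conj_PP (x : TG q s) (P : T → Subgroup E) :
    conjSub x (PP q s P) = PP q s (fun t => conjSub (x.f t) (P (x.g⁻¹ • t))) := by
  ext y
  rw [mem_conjSub, mem_PP, mem_PP]
  have h0 : x⁻¹ * y * x = x⁻¹ * y * x⁻¹⁻¹ := by rw [inv_inv]
  constructor
  · rintro ⟨h1, h2⟩
    have h3 : y.g = 1 := by
      have h4 : (x⁻¹ * y * x).g = x.g⁻¹ * y.g * x.g := rfl
      rw [h4] at h1
      have h5 : y.g = x.g * (x.g⁻¹ * y.g * x.g) * x.g⁻¹ := by group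
      rw [h5, h1, mul_one, mul_inv_cancel]
    refine ⟨h3, fun t => ?_⟩
    have h4 := h2 (x.g⁻¹ • t)
    rw [h0, TG.conj_f _ h3, TG.inv_f, TG.inv_g, inv_inv, smul_inv_smul, inv_inv] at h4
    rw [mem_conjSub]
    exact h4
  · rintro ⟨h1, h2⟩
    rw [h0]
    refine ⟨TG.conj_g _ h1, fun t => ?_⟩
    have h3 := h2 (x.g • t)
    rw [mem_conjSub, inv_smul_smul] at h3
    rw [TG.conj_f _ h1, TG.inv_f, TG.inv_g, inv_inv, inv_inv]
    exact h3

theorem pr_conj (x : TG q s) {R : Subgroup (TG q s)} (hR : R ≤ (TG.qq q s).ker) (t : T) :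
    pr t (conjSub x R) = conjSub (x.f t) (pr (x.g⁻¹ • t) R) := by
  ext e
  rw [mem_conjSub, mem_pr, mem_pr]
  constructor
  · rintro ⟨y, h1, h2, rfl⟩
    rw [mem_conjSub] at h1
    refine ⟨_, h1, TG.mem_ker.1 (hR h1), ?_⟩
    have h0 : x⁻¹ * y * x = x⁻¹ * y * x⁻¹⁻¹ := by rw [inv_inv]
    rw [h0, TG.conj_f _ h2, TG.inv_f, TG.inv_g, inv_inv, smul_inv_smul, inv_inv]
  · rintro ⟨y, h1, h2, h3⟩
    refine ⟨x * y * x⁻¹, conj_mem_conjSub h1, TG.conj_g _ h2, ?_⟩
    rw [TG.conj_f _ h2, h3]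
    group

theorem cl_conj (x : TG q s) {R : Subgroup (TG q s)} (hR : R ≤ (TG.qq q s).ker) :
    cl (conjSub x R) = conjSub x (cl R) := by
  unfold cl
  rw [conj_PP]
  congr 1
  funext t
  exact pr_conj x hR t

variable {p : ℕ}

theorem pgroup_pr {R : Subgroup (TG q s)} (hR : IsPGroup p R) (t : T) : IsPGroup p (pr t R) := by
  rintro ⟨e, x, h1, h2, h3⟩
  obtain ⟨k, hk⟩ := hR ⟨x, h1⟩
  refine ⟨k, ?_⟩
  have h4 : ∀ n : ℕ, (x ^ n).g = 1 ∧ (x ^ n).f t = (x.f t) ^ n := by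
    intro n
    induction n with
    | zero =>
      rw [pow_zero, pow_zero]
      exact ⟨rfl, rfl⟩
    | succ n ih =>
      rw [pow_succ', pow_succ', TG.mul_g, TG.mul_f, h2, inv_one, one_smul, ih.1, ih.2, one_mul]
      exact ⟨rfl, rfl⟩
  have h5 : x ^ p ^ k = 1 := congrArg Subtype.val hk
  apply Subtype.ext
  change e ^ p ^ k = 1
  rw [← h3, ← (h4 _).2, h5]
  rfl

theorem pgroup_PP [Finite T] [hp : Fact p.Prime] {P : T → Subgroup E}
    (hP : ∀ t, IsPGroup p (P t)) : IsPGroup p (PP q s P) := by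
  have _i : Fintype T := Fintype.ofFinite T
  rintro ⟨x, h1, h2⟩
  choose k hk using fun t => hP t ⟨x.f t, h2 t⟩
  refine ⟨∑ t, k t, ?_⟩
  have h4 : ∀ n : ℕ, (x ^ n).g = 1 ∧ ∀ t, (x ^ n).f t = (x.f t) ^ n := by
    intro n
    induction n with
    | zero =>
      refine ⟨rfl, fun t => ?_⟩
      rw [pow_zero, pow_zero]
      rfl
    | succ n ih =>
      refine ⟨by rw [pow_succ', TG.mul_g, h1, ih.1, one_mul], fun t => ?_⟩
      rw [pow_succ', pow_succ', TG.mul_f, h1, inv_one, one_smul, ih.2]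
  apply Subtype.ext
  change x ^ p ^ (∑ t, k t) = 1
  refine TG.ext' (h4 _).1 fun t => ?_
  rw [(h4 _).2 t, TG.one_f]
  have h5 : (x.f t) ^ p ^ k t = 1 := congrArg Subtype.val (hk t)
  obtain ⟨m, hm⟩ := Nat.exists_eq_add_of_le
    (Finset.single_le_sum (f := k) (fun _ _ => Nat.zero_le _) (Finset.mem_univ t))
  rw [hm, pow_add, pow_mul, h5, one_pow]

theorem pgroup_cl [Finite T] [hp : Fact p.Prime] {R : Subgroup (TG q s)} (hR : IsPGroup p R) :
    IsPGroup p (cl R) := pgroup_PP fun t => pgroup_pr hR t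

/-- the diagonal subgroup -/
def DD (q : E →* Γ) (s : T → Γ) (P : Subgroup E) : Subgroup (TG q s) := PP q s (fun _ => P)

theorem conj_DD {x : TG q s} {P : Subgroup E} :
    conjSub x (DD q s P) = PP q s (fun t => conjSub (x.f t) P) := conj_PP x _

theorem DD_le {P P' : Subgroup E} (h : P ≤ P') : DD q s P ≤ DD q s P' := PP_mono fun _ => h

theorem DD_inj [Nonempty T] {P P' : Subgroup E} (hP : P ≤ q.ker) (hP' : P' ≤ q.ker)
    (h : DD q s P = DD q s P') : P = P' :=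
  PP_inj (fun _ => hP) (fun _ => hP') h (Classical.arbitrary T)

theorem stab_DD [Nonempty T] {σ : Set (Subgroup E)} (hσ : ∀ P ∈ σ, P ≤ q.ker) :
    chainStabilizer (DD q s '' σ) = TS q s (chainStabilizer σ) := by
  ext x
  rw [mem_chainStabilizer, mem_TS]
  have hk : ∀ {P : Subgroup E}, P ≤ q.ker → ∀ e : E, conjSub e P ≤ q.ker := by
    intro P hP e y hy
    rw [mem_conjSub] at hy
    have h1 := hP hy
    rw [MonoidHom.mem_ker, map_mul, map_mul, map_inv] at h1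
    rw [MonoidHom.mem_ker]
    have h2 : q y = q e * ((q e)⁻¹ * q y * q e) * (q e)⁻¹ := by group
    rw [h2, h1, mul_one, mul_inv_cancel]
  constructor
  · intro h t
    rw [mem_chainStabilizer]
    intro P hP
    have h1 := h _ ⟨P, hP, rfl⟩
    rw [conj_DD] at h1
    exact PP_inj (fun _ => hk (hσ P hP) _) (fun _ => hσ P hP) h1 t
  · rintro h _ ⟨P, hP, rfl⟩
    rw [conj_DD]
    unfold DD
    congr 1
    funext t
    exact mem_chainStabilizer.1 (h t) P hP

end tg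

end Run7.h759.DI
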