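import Pool.Agent.Run7.h759.DI.TG1

/-!
# Tensor induction: the signed sums (helper759)
-/

set_option autoImplicit false
set_option linter.unusedSectionVars false

open scoped Classical BigOperators

noncomputable section

namespace Run7.h759.DI

open Pool.Agent.Y63.KR (IsPChain chainStabilizer conjSub conjSub_eq_iff mem_chainStabilizer
  mem_conjSub conjSub_le conj_mem_conjSub conjSub_mul conjSub_one conjSub_injective
  chainStabilizer_conj ncard_conj)
open Pool.Agent.R674.Ce (chs wt Sp chs_eq)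

/-- the function with given quotients -/
def vf {G T : Type} [Group G] (R : Subgroup G) (t₀ : T) (x : G × ({t : T // t ≠ t₀} → R)) (t : T) :
    G :=
  if h : t = t₀ then x.1 else (x.2 ⟨t, h⟩ : G) * x.1

theorem vf_self {G T : Type} [Group G] (R : Subgroup G) (t₀ : T)
    (x : G × ({t : T // t ≠ t₀} → R)) : vf R t₀ x t₀ = x.1 := dif_pos rfl

theorem vf_ne {G T : Type} [Group G] (R : Subgroup G) (t₀ : T)
    (x : G × ({t : T // t ≠ t₀} → R)) {t : T} (h : t ≠ t₀) :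
    vf R t₀ x t = (x.2 ⟨t, h⟩ : G) * x.1 := dif_neg h

/-- counting -/
theorem card_v {G T : Type} [Group G] [Finite G] [Finite T] (R : Subgroup G) (t₀ : T) :
    Nat.card {v : T → G // ∀ t, v t * (v t₀)⁻¹ ∈ R} =
      Nat.card G * Nat.card R ^ (Nat.card T - 1) := by
  have e : {v : T → G // ∀ t, v t * (v t₀)⁻¹ ∈ R} ≃ G × ({t : T // t ≠ t₀} → R) :=
    { toFun := fun v => (v.1 t₀, fun t => ⟨v.1 t * (v.1 t₀)⁻¹, v.2 t⟩)
      invFun := fun x => ⟨vf R t₀ x, fun t => by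
        rw [vf_self]
        by_cases h : t = t₀
        · rw [h, vf_self, mul_inv_cancel]
          exact one_mem _
        · rw [vf_ne R t₀ x h, mul_inv_cancel_right]
          exact (x.2 ⟨t, h⟩).2⟩
      left_inv := by
        rintro ⟨v, hv⟩
        apply Subtype.ext
        funext t
        by_cases h : t = t₀
        · rw [h]
          exact vf_self R t₀ _
        · refine (vf_ne R t₀ _ h).trans ?_
          exact inv_mul_cancel_right _ _
      right_inv := by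
        rintro ⟨g, r⟩
        refine Prod.ext ?_ ?_
        · exact vf_self R t₀ _
        · funext t
          apply Subtype.ext
          change vf R t₀ (g, r) t * (vf R t₀ (g, r) t₀)⁻¹ = r t
          rw [vf_self, vf_ne R t₀ _ t.2, mul_inv_cancel_right] }
  have _i : Fintype {t : T // t ≠ t₀} := Fintype.ofFinite _
  have _i2 : Fintype T := Fintype.ofFinite _
  have h1 : Nat.card {t : T // t ≠ t₀} = Nat.card T - 1 := by
    rw [Nat.card_eq_fintype_card, Nat.card_eq_fintype_card, Fintype.card_subtype_compl,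
      Fintype.card_subtype_eq]
  rw [Nat.card_congr e, Nat.card_prod, Nat.card_fun, h1]

/-- members of a chain with conjugate images -/
theorem chain_card {E : Type} [Group E] [Finite E] {σ : Set (Subgroup E)}
    (hσ : IsChain (· ≤ ·) σ) {P Q : Subgroup E} (hP : P ∈ σ)
    (hQ : Q ∈ σ) (h : Nat.card P = Nat.card Q) : P = Q := by
  have : Finite P := inferInstance
  have : Finite Q := inferInstance
  rcases hσ.total hP hQ with h1 | h1
  · exact Subgroup.eq_of_le_of_card_ge h1 h.ge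
  · exact (Subgroup.eq_of_le_of_card_ge h1 h.le).symm

section

variable {E Γ T : Type} [Group E] [Group Γ] [MulAction Γ T] [Finite E] [Finite Γ] [Finite T]
  {q : E →* Γ} {s : T → Γ} {t₀ : T} (hs : ∀ t, s t • t₀ = t) {p : ℕ} [hp : Fact p.Prime]

/-- an element of the kernel -/
def el' (y : T → ↥q.ker) : TG q s := TG.el (fun t => (y t : E)) (fun t => MonoidHom.mem_ker.1 (y t).2)

theorem el'_g (y : T → ↥q.ker) : (el' (s := s) y).g = 1 := rfl
theorem el'_f (y : T → ↥q.ker) (t : T) : (el' (s := s) y).f t = y t := rfl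

theorem conj_el (y : T → ↥q.ker) (P : Subgroup E) :
    conjSub (el' (s := s) y) (DD q s P) = PP q s (fun t => conjSub (y t : E) P) := conj_DD

/-- conjugates of subgroups of the kernel -/
theorem conj_ker {P : Subgroup E} (hP : P ≤ q.ker) (e : E) : conjSub e P ≤ q.ker := by
  intro y hy
  rw [mem_conjSub] at hy
  have h1 := hP hy
  rw [MonoidHom.mem_ker, map_mul, map_mul, map_inv] at h1
  rw [MonoidHom.mem_ker]
  have h2 : q y = q e * ((q e)⁻¹ * q y * q e) * (q e)⁻¹ := by group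
  rw [h2, h1, mul_one, mul_inv_cancel]

/-- the chain `y · Δ(σ)` -/
def Ph (q : E →* Γ) (s : T → Γ) (σ : Set (Subgroup E)) (y : T → ↥q.ker) :
    Set (Subgroup (TG q s)) := conjSub (el' y) '' (DD q s '' σ)


theorem mem_Ph {σ : Set (Subgroup E)} {y : T → ↥q.ker} {R : Subgroup (TG q s)} :
    R ∈ Ph q s σ y ↔ ∃ P ∈ σ, PP q s (fun t => conjSub (y t : E) P) = R := by
  constructor
  · rintro ⟨_, ⟨P, hP, rfl⟩, rfl⟩
    exact ⟨P, hP, (conj_el y P).symm⟩
  · rintro ⟨P, hP, rfl⟩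
    exact ⟨_, ⟨P, hP, rfl⟩, conj_el y P⟩

omit hp in
theorem card_conj (e : E) (P : Subgroup E) : Nat.card ↥(conjSub e P) = Nat.card P := by
  unfold conjSub
  exact Nat.card_congr (P.equivMapOfInjective _ (MulAut.conj e).injective).toEquiv.symm

/-- the fibres -/
theorem Ph_eq {σ σ₀ : Set (Subgroup E)} (hσ : IsChain (· ≤ ·) σ) (hσ₀ : IsChain (· ≤ ·) σ₀)
    (hk : ∀ P ∈ σ, P ≤ q.ker) (hk₀ : ∀ P ∈ σ₀, P ≤ q.ker) {y y₀ : T → ↥q.ker}
    (h : Ph q s σ y = Ph q s σ₀ y₀) :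
    (σ = conjSub (((y t₀)⁻¹ * y₀ t₀ : ↥q.ker) : E) '' σ₀) ∧
      ∀ t, (((y₀ t)⁻¹ * y t * ((y₀ t₀)⁻¹ * y t₀)⁻¹ : ↥q.ker) : E) ∈ chainStabilizer σ₀ := by
  have h1 : ∀ P ∈ σ, ∃ P' ∈ σ₀, ∀ t, conjSub (y t : E) P = conjSub (y₀ t : E) P' := by
    intro P hP
    have h2 : PP q s (fun t => conjSub (y t : E) P) ∈ Ph q s σ₀ y₀ := by
      rw [← h]
      exact mem_Ph.2 ⟨P, hP, rfl⟩
    obtain ⟨P', hP', e⟩ := mem_Ph.1 h2
    exact ⟨P', hP', fun t => (PP_inj (fun t => conj_ker (hk₀ P' hP') _)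
      (fun t => conj_ker (hk P hP) _) e t).symm⟩
  have h1' : ∀ P' ∈ σ₀, ∃ P ∈ σ, ∀ t, conjSub (y t : E) P = conjSub (y₀ t : E) P' := by
    intro P' hP'
    have h2 : PP q s (fun t => conjSub (y₀ t : E) P') ∈ Ph q s σ y := by
      rw [h]
      exact mem_Ph.2 ⟨P', hP', rfl⟩
    obtain ⟨P, hP, e⟩ := mem_Ph.1 h2
    exact ⟨P, hP, fun t => PP_inj (fun t => conj_ker (hk P hP) _)
      (fun t => conj_ker (hk₀ P' hP') _) e t⟩
  have h3 : ∀ {P P' : Subgroup E}, (∀ t, conjSub (y t : E) P = conjSub (y₀ t : E) P') → ∀ t,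
      P = conjSub (((y t)⁻¹ * y₀ t : ↥q.ker) : E) P' := by
    intro P P' h4 t
    rw [Subgroup.coe_mul, conjSub_mul, ← h4 t, ← conjSub_mul, Subgroup.coe_inv, inv_mul_cancel,
      conjSub_one]
  refine ⟨?_, fun t => ?_⟩
  · ext P
    constructor
    · intro hP
      obtain ⟨P', hP', h4⟩ := h1 P hP
      exact ⟨P', hP', (h3 h4 t₀).symm⟩
    · rintro ⟨P', hP', rfl⟩
      obtain ⟨P, hP, h4⟩ := h1' P' hP'
      rw [← h3 h4 t₀]
      exact hP
  · rw [mem_chainStabilizer]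
    intro P' hP'
    obtain ⟨P, hP, h4⟩ := h1' P' hP'
    have h5 : conjSub (((y₀ t₀)⁻¹ * y t₀ : ↥q.ker) : E) P = P' := by
      rw [h3 h4 t₀, ← conjSub_mul, ← Subgroup.coe_mul]
      have : (y₀ t₀)⁻¹ * y t₀ * ((y t₀)⁻¹ * y₀ t₀) = 1 := by group
      rw [this, Subgroup.coe_one, conjSub_one]
    have h6 : conjSub (((y₀ t)⁻¹ * y t : ↥q.ker) : E) P = P' := by
      rw [h3 h4 t, ← conjSub_mul, ← Subgroup.coe_mul]
      have : (y₀ t)⁻¹ * y t * ((y t)⁻¹ * y₀ t) = 1 := by group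
      rw [this, Subgroup.coe_one, conjSub_one]
    have h7 : conjSub ((((y₀ t₀)⁻¹ * y t₀)⁻¹ : ↥q.ker) : E) P' = P := by
      rw [← h5, ← conjSub_mul, ← Subgroup.coe_mul, inv_mul_cancel, Subgroup.coe_one, conjSub_one]
    rw [Subgroup.coe_mul, conjSub_mul, h7, h6]

theorem Ph_of {σ₀ : Set (Subgroup E)} {y y₀ : T → ↥q.ker}
    (h : ∀ t, (((y₀ t)⁻¹ * y t * ((y₀ t₀)⁻¹ * y t₀)⁻¹ : ↥q.ker) : E) ∈ chainStabilizer σ₀) :
    Ph q s (conjSub (((y t₀)⁻¹ * y₀ t₀ : ↥q.ker) : E) '' σ₀) y = Ph q s σ₀ y₀ := by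
  have h1 : ∀ P ∈ σ₀, ∀ t, conjSub (y t : E) (conjSub (((y t₀)⁻¹ * y₀ t₀ : ↥q.ker) : E) P) =
      conjSub (y₀ t : E) P := by
    intro P hP t
    have h2 := mem_chainStabilizer.1 (h t) P hP
    conv_rhs => rw [← h2]
    rw [← conjSub_mul, ← conjSub_mul, ← Subgroup.coe_mul, ← Subgroup.coe_mul]
    congr 2
    group
  ext R
  rw [mem_Ph, mem_Ph]
  constructor
  · rintro ⟨_, ⟨P, hP, rfl⟩, rfl⟩
    refine ⟨P, hP, ?_⟩
    congr 1
    funext t
    exact (h1 P hP t).symm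
  · rintro ⟨P, hP, rfl⟩
    refine ⟨_, ⟨P, hP, rfl⟩, ?_⟩
    congr 1
    funext t
    exact h1 P hP t

include hs in
/-- chains with large stabilisers -/
theorem Ph_surj {σ' : Set (Subgroup (TG q s))} (hc : ∀ R ∈ σ', cl R = R)
    (hst : ∀ g, ∃ x ∈ chainStabilizer σ', x.g = g) :
    ∃ y : T → ↥q.ker, Ph q s (pr t₀ '' σ') y = σ' := by
  choose x hx hxg using hst
  let a : T → E := fun t => (x (s t * (s t₀)⁻¹)).f t
  have ha : ∀ t, a t ∈ q.ker := by
    intro t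
    rw [MonoidHom.mem_ker]
    change q ((x (s t * (s t₀)⁻¹)).f t) = 1
    rw [(x _).h, hxg]
    have h1 : (s t)⁻¹ • t = t₀ := by rw [inv_smul_eq_iff, hs]
    have h2 : (s t * (s t₀)⁻¹)⁻¹ • t = t₀ := by
      rw [mul_inv_rev, inv_inv, mul_smul, h1, hs]
    rw [h2]
    group
  have key : ∀ R ∈ σ', R = PP q s (fun t => conjSub (a t) (pr t₀ R)) := by
    intro R hR
    have h1 : cl R = R := hc R hR
    conv_lhs => rw [← h1]
    unfold cl
    congr 1
    funext t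
    have h2 := mem_chainStabilizer.1 (hx (s t * (s t₀)⁻¹)) R hR
    have hk : R ≤ (TG.qq q s).ker := by
      rw [← h1]
      exact PP_le _
    conv_lhs => rw [← h2]
    rw [pr_conj _ hk, hxg]
    have h3 : (s t)⁻¹ • t = t₀ := by rw [inv_smul_eq_iff, hs]
    have h4 : (s t * (s t₀)⁻¹)⁻¹ • t = t₀ := by
      rw [mul_inv_rev, inv_inv, mul_smul, h3, hs]
    rw [h4]
  refine ⟨fun t => ⟨a t, ha t⟩, ?_⟩
  ext R
  rw [mem_Ph]
  constructor
  · rintro ⟨_, ⟨R', hR', rfl⟩, rfl⟩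
    rw [← key R' hR']
    exact hR'
  · intro hR
    exact ⟨_, ⟨R, hR, rfl⟩, (key R hR).symm⟩

end

end Run7.h759.DI
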