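import Pool.Agent.Run7.h759.DI.TG2

/-!
# Tensor induction: the formula for the signed sums (helper759)
-/

set_option autoImplicit false
set_option linter.unusedSectionVars false

open scoped Classical BigOperators

noncomputable section

namespace Run7.h759.DI

open Pool.Agent.Y63.KR (IsPChain chainStabilizer conjSub conjSub_eq_iff mem_chainStabilizer
  mem_conjSub conjSub_le conj_mem_conjSub conjSub_mul conjSub_one conjSub_injective
  chainStabilizer_conj ncard_conj conjSub_ne_bot)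
open Pool.Agent.R674.Ce (chs wt Sp chs_eq chs_sub')

variable {E Γ T : Type} [Group E] [Group Γ] [MulAction Γ T] [Finite E] [Finite Γ] [Finite T]
  {q : E →* Γ} {s : T → Γ} {t₀ : T} (hs : ∀ t, s t • t₀ = t) {p : ℕ} [hp : Fact p.Prime]

/-- the closed nontrivial `p`-subgroups -/
def Xc (p : ℕ) (q : E →* Γ) (s : T → Γ) : Set (Subgroup (TG q s)) :=
  {R | R ∈ Sp p (TG.qq q s).ker ∧ cl R = R}

theorem cl_ne_bot {R : Subgroup (TG q s)} (hR : R ≤ (TG.qq q s).ker) (h : R ≠ ⊥) : cl R ≠ ⊥ :=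
  fun h1 => h (le_bot_iff.1 ((le_cl hR).trans h1.le))

theorem al_closed (w' : Subgroup (TG q s) → ℤ) :
    al p (TG.qq q s).ker w' = chs (Xc p q s) (wt ⊤ w') := by
  rw [al_chs]
  exact chs_sub' (J := ⊤) w' (Sp p (TG.qq q s).ker) cl
    (fun R hR => ⟨pgroup_cl hR.1, cl_ne_bot hR.2.2 hR.2.1, PP_le _⟩)
    (fun R _ => cl_cl R)
    (fun R _ R' _ h => cl_mono h)
    (fun R hR => le_cl hR.2.2)
    (fun R hR x _ h => by rw [← cl_conj x hR.2.2, h])

theorem PP_ne_bot [Nonempty T] {P : Subgroup E} (hP : P ≤ q.ker) (h : P ≠ ⊥) (y : T → ↥q.ker) :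
    PP q s (fun t => conjSub (y t : E) P) ≠ ⊥ := by
  intro h1
  have h2 : PP q s (fun _ => (⊥ : Subgroup E)) = ⊥ := by
    rw [eq_bot_iff]
    intro x hx
    rw [Subgroup.mem_bot]
    refine TG.ext' hx.1 fun t => ?_
    rw [TG.one_f]
    exact (Subgroup.mem_bot.1 (hx.2 t))
  rw [← h2] at h1
  have h3 := PP_inj (fun t => conj_ker hP _) (fun _ => bot_le) h1 (Classical.arbitrary T)
  exact conjSub_ne_bot h h3

theorem PP_conj_inj [Nonempty T] {P P' : Subgroup E} (hP : P ≤ q.ker) (hP' : P' ≤ q.ker)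
    {y : T → ↥q.ker} (h : PP q s (fun t => conjSub (y t : E) P) =
      PP q s (fun t => conjSub (y t : E) P')) : P = P' :=
  conjSub_injective _ (PP_inj (fun t => conj_ker hP _) (fun t => conj_ker hP' _) h
    (Classical.arbitrary T))

/-- the chains `y · Δ(σ)` -/
theorem Ph_mem [Nonempty T] {σ : Set (Subgroup E)} (h1 : σ ⊆ Sp p q.ker)
    (h2 : IsChain (· ≤ ·) σ) (y : T → ↥q.ker) :
    Ph q s σ y ⊆ Xc p q s ∧ IsChain (· ≤ ·) (Ph q s σ y) := by
  constructor
  · intro R hR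
    obtain ⟨P, hP, rfl⟩ := mem_Ph.1 hR
    obtain ⟨a, b, c⟩ := h1 hP
    refine ⟨⟨pgroup_PP fun t => a.map _, PP_ne_bot c b y, PP_le _⟩, ?_⟩
    unfold cl
    congr 1
    funext t
    exact pr_PP (fun t => conj_ker c _) t
  · intro R hR R' hR' _
    obtain ⟨P, hP, rfl⟩ := mem_Ph.1 hR
    obtain ⟨P', hP', rfl⟩ := mem_Ph.1 hR'
    rcases h2.total hP hP' with h3 | h3
    · exact Or.inl (PP_mono fun t => conjSub_le h3)
    · exact Or.inr (PP_mono fun t => conjSub_le h3)

theorem Ph_ncard [Nonempty T] {σ : Set (Subgroup E)} (h1 : ∀ P ∈ σ, P ≤ q.ker)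
    (y : T → ↥q.ker) : (Ph q s σ y).ncard = σ.ncard := by
  unfold Ph
  rw [ncard_conj]
  refine Set.InjOn.ncard_image ?_
  intro P hP P' hP' h
  exact DD_inj (h1 P hP) (h1 P' hP') h

theorem Ph_stab [Nonempty T] {σ : Set (Subgroup E)} (h1 : ∀ P ∈ σ, P ≤ q.ker)
    (y : T → ↥q.ker) : chainStabilizer (Ph q s σ y) =
      conjSub (el' y) (TS q s (chainStabilizer σ)) := by
  unfold Ph
  rw [chainStabilizer_conj, stab_DD h1]

theorem conj_chain {σ : Set (Subgroup E)} (h1 : σ ⊆ Sp p q.ker) (h2 : IsChain (· ≤ ·) σ) (e : E) :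
    (conjSub e '' σ) ⊆ Sp p q.ker ∧ IsChain (· ≤ ·) (conjSub e '' σ) := by
  constructor
  · rintro _ ⟨P, hP, rfl⟩
    obtain ⟨a, b, c⟩ := h1 hP
    exact ⟨a.map _, conjSub_ne_bot b, conj_ker c e⟩
  · rintro _ ⟨P, hP, rfl⟩ _ ⟨P', hP', rfl⟩ _
    rcases h2.total hP hP' with h3 | h3
    · exact Or.inl (conjSub_le h3)
    · exact Or.inr (conjSub_le h3)

include hs in
/-- **the signed sums for tensor induced groups** -/
theorem al_TG {w' : Subgroup (TG q s) → ℤ} {w : Subgroup E → ℤ}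
    (h0 : ∀ S' : Subgroup (TG q s), (¬ ∀ g, ∃ x ∈ S', x.g = g) → w' S' = 0)
    (hw' : ∀ x : TG q s, ∀ S', w' (conjSub x S') = w' S')
    (hw : ∀ e : E, ∀ S, w (conjSub e S) = w S)
    (hD : ∀ σ : Set (Subgroup E), IsPChain p σ → (∀ P ∈ σ, P ≤ q.ker) →
      w' (TS q s (chainStabilizer σ)) =
        (Nat.card ↥(q.ker ⊓ chainStabilizer σ) : ℤ) ^ (Nat.card T - 1) * w (chainStabilizer σ)) :
    al p (TG.qq q s).ker w' = (Nat.card ↥q.ker : ℤ) ^ (Nat.card T - 1) * al p q.ker w := by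
  have _n : Nonempty T := ⟨t₀⟩
  have _f1 : Fintype (Set (Subgroup E)) := Fintype.ofFinite _
  have _f2 : Fintype (Set (Subgroup (TG q s))) := Fintype.ofFinite _
  have _f3 : Fintype (T → ↥q.ker) := Fintype.ofFinite _
  have hpc : ∀ σ : Set (Subgroup E), σ ⊆ Sp p q.ker → IsChain (· ≤ ·) σ → IsPChain p σ :=
    fun σ a b => ⟨b, fun P hP => (a hP).1, fun P hP => (a hP).2.1⟩
  have hle : ∀ σ : Set (Subgroup E), σ ⊆ Sp p q.ker → ∀ P ∈ σ, P ≤ q.ker :=
    fun σ a P hP => (a hP).2.2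
  have e1 : ∑ x ∈ ((Finset.univ : Finset (Set (Subgroup E))).filter
        (fun σ => σ ⊆ Sp p q.ker ∧ IsChain (· ≤ ·) σ)) ×ˢ (Finset.univ : Finset (T → ↥q.ker)),
      wt ⊤ w x.1 = (Nat.card ↥q.ker : ℤ) ^ Nat.card T * al p q.ker w := by
    rw [Finset.sum_product, al_chs, chs_eq, Finset.mul_sum]
    refine Finset.sum_congr rfl fun σ _ => ?_
    change ∑ _y : T → ↥q.ker, wt ⊤ w σ = _
    rw [Finset.sum_const, nsmul_eq_mul, Finset.card_univ, ← Nat.card_eq_fintype_card,
      Nat.card_fun]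
    push_cast
    rfl
  have e2 : ∑ x ∈ ((Finset.univ : Finset (Set (Subgroup E))).filter
        (fun σ => σ ⊆ Sp p q.ker ∧ IsChain (· ≤ ·) σ)) ×ˢ (Finset.univ : Finset (T → ↥q.ker)),
      wt ⊤ w x.1 = (Nat.card ↥q.ker : ℤ) * al p (TG.qq q s).ker w' := by
    rw [al_closed, chs_eq, Finset.mul_sum, ← Finset.sum_fiberwise_of_maps_to
      (g := fun x : Set (Subgroup E) × (T → ↥q.ker) => Ph q s x.1 x.2)
      (t := (Finset.univ : Finset (Set (Subgroup (TG q s)))).filter
        (fun σ => σ ⊆ Xc p q s ∧ IsChain (· ≤ ·) σ)) (by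
      rintro ⟨σ, y⟩ hx
      obtain ⟨h1, -⟩ := Finset.mem_product.1 hx
      obtain ⟨-, h2, h3⟩ := Finset.mem_filter.1 h1
      exact Finset.mem_filter.2 ⟨Finset.mem_univ _, Ph_mem h2 h3 y⟩)]
    refine Finset.sum_congr rfl fun σ' hσ' => ?_
    obtain ⟨-, h1, h2⟩ := Finset.mem_filter.1 hσ'
    by_cases h3 : ∃ σ₀ : Set (Subgroup E), ∃ y₀ : T → ↥q.ker,
        σ₀ ⊆ Sp p q.ker ∧ IsChain (· ≤ ·) σ₀ ∧ Ph q s σ₀ y₀ = σ'
    · obtain ⟨σ₀, y₀, h4, h5, rfl⟩ := h3
      have e3 : ∀ x ∈ (((Finset.univ : Finset (Set (Subgroup E))).filter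
          (fun σ => σ ⊆ Sp p q.ker ∧ IsChain (· ≤ ·) σ)) ×ˢ
            (Finset.univ : Finset (T → ↥q.ker))).filter
              (fun x => Ph q s x.1 x.2 = Ph q s σ₀ y₀), wt ⊤ w x.1 = wt ⊤ w σ₀ := by
        rintro ⟨σ, y⟩ hx
        obtain ⟨h6, h7⟩ := Finset.mem_filter.1 hx
        obtain ⟨-, h8, h9⟩ := Finset.mem_filter.1 (Finset.mem_product.1 h6).1
        have h10 : σ = _ := (Ph_eq (t₀ := t₀) h9 h5 (hle _ h8) (hle _ h4) h7).1
        change wt ⊤ w σ = _
        rw [h10]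
        unfold wt
        rw [ncard_conj, chainStabilizer_conj, top_inf_eq, top_inf_eq, hw]
      rw [Finset.sum_congr rfl e3, Finset.sum_const, nsmul_eq_mul]
      have e4 : ((((Finset.univ : Finset (Set (Subgroup E))).filter
          (fun σ => σ ⊆ Sp p q.ker ∧ IsChain (· ≤ ·) σ)) ×ˢ
            (Finset.univ : Finset (T → ↥q.ker))).filter
              (fun x => Ph q s x.1 x.2 = Ph q s σ₀ y₀)).card =
          Nat.card {v : T → ↥q.ker // ∀ t, v t * (v t₀)⁻¹ ∈
            (chainStabilizer σ₀).subgroupOf q.ker} := by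
        rw [Nat.subtype_card ((Finset.univ : Finset (T → ↥q.ker)).filter
          (fun v => ∀ t, v t * (v t₀)⁻¹ ∈ (chainStabilizer σ₀).subgroupOf q.ker))
          (fun v => by simp)]
        refine Finset.card_bij (fun x _ => fun t => (y₀ t)⁻¹ * x.2 t) ?_ ?_ ?_
        · rintro ⟨σ, y⟩ hx
          obtain ⟨h6, h7⟩ := Finset.mem_filter.1 hx
          obtain ⟨-, h8, h9⟩ := Finset.mem_filter.1 (Finset.mem_product.1 h6).1
          have h10 := (Ph_eq (t₀ := t₀) h9 h5 (hle _ h8) (hle _ h4) h7).2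
          exact Finset.mem_filter.2 ⟨Finset.mem_univ _, fun t => h10 t⟩
        · rintro ⟨σ, y⟩ hx ⟨τ, z⟩ hx' h
          obtain ⟨h6, h7⟩ := Finset.mem_filter.1 hx
          obtain ⟨-, h8, h9⟩ := Finset.mem_filter.1 (Finset.mem_product.1 h6).1
          obtain ⟨h6', h7'⟩ := Finset.mem_filter.1 hx'
          obtain ⟨-, h8', h9'⟩ := Finset.mem_filter.1 (Finset.mem_product.1 h6').1
          have h10 := (Ph_eq (t₀ := t₀) h9 h5 (hle _ h8) (hle _ h4) h7).1
          have h10' := (Ph_eq (t₀ := t₀) h9' h5 (hle _ h8') (hle _ h4) h7').1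
          have h11 : y = z := by
            funext t
            exact mul_left_cancel (congrFun h t)
          have h12 : σ = τ := by
            change σ = _ at h10
            change τ = _ at h10'
            rw [h10, h10', h11]
          exact Prod.ext h12 h11
        · intro v hv
          obtain ⟨-, hv⟩ := Finset.mem_filter.1 hv
          have h6 : ∀ t, (((y₀ t)⁻¹ * (fun t => y₀ t * v t) t *
              ((y₀ t₀)⁻¹ * (fun t => y₀ t * v t) t₀)⁻¹ : ↥q.ker) : E) ∈ chainStabilizer σ₀ := by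
            intro t
            have h7 := hv t
            rw [Subgroup.mem_subgroupOf] at h7
            simp only [inv_mul_cancel_left]
            exact h7
          have h8 := Ph_of (s := s) (y := fun t => y₀ t * v t) h6
          obtain ⟨h9, h10⟩ := conj_chain h4 h5
            ((((fun t => y₀ t * v t) t₀)⁻¹ * y₀ t₀ : ↥q.ker) : E)
          refine ⟨(conjSub (((((fun t => y₀ t * v t) t₀)⁻¹ * y₀ t₀ : ↥q.ker)) : E) '' σ₀,
            fun t => y₀ t * v t), ?_, ?_⟩
          · exact Finset.mem_filter.2 ⟨Finset.mem_product.2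
              ⟨Finset.mem_filter.2 ⟨Finset.mem_univ _, h9, h10⟩, Finset.mem_univ _⟩, h8⟩
          · funext t
            exact inv_mul_cancel_left _ _
      have e5 : Nat.card ↥((chainStabilizer σ₀).subgroupOf q.ker) =
          Nat.card ↥(q.ker ⊓ chainStabilizer σ₀) := by
        have h6 : (chainStabilizer σ₀).subgroupOf q.ker =
            (q.ker ⊓ chainStabilizer σ₀).subgroupOf q.ker := by
          ext x
          rw [Subgroup.mem_subgroupOf, Subgroup.mem_subgroupOf, Subgroup.mem_inf]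
          exact ⟨fun h => ⟨x.2, h⟩, fun h => h.2⟩
        rw [h6, Nat.card_congr (Subgroup.subgroupOfEquivOfLe inf_le_left).toEquiv]
      rw [e4, card_v, e5]
      unfold wt
      rw [top_inf_eq, top_inf_eq, Ph_ncard (hle _ h4), Ph_stab (hle _ h4), hw',
        hD σ₀ (hpc _ h4 h5) (hle _ h4)]
      push_cast
      ring
    · have e3 : (((Finset.univ : Finset (Set (Subgroup E))).filter
          (fun σ => σ ⊆ Sp p q.ker ∧ IsChain (· ≤ ·) σ)) ×ˢ
            (Finset.univ : Finset (T → ↥q.ker))).filter (fun x => Ph q s x.1 x.2 = σ') = ∅ := by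
        rw [Finset.filter_eq_empty_iff]
        rintro ⟨σ, y⟩ hx h
        obtain ⟨-, h8, h9⟩ := Finset.mem_filter.1 (Finset.mem_product.1 hx).1
        exact h3 ⟨σ, y, h8, h9, h⟩
      rw [e3, Finset.sum_empty]
      unfold wt
      rw [top_inf_eq, h0, mul_zero, mul_zero]
      intro hst
      obtain ⟨y, hy⟩ := Ph_surj hs (fun R hR => (h1 hR).2) hst
      apply h3
      refine ⟨pr t₀ '' σ', y, ?_, ?_, hy⟩
      · rintro _ ⟨R, hR, rfl⟩
        refine ⟨pgroup_pr (h1 hR).1.1 _, ?_, pr_le _ _⟩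
        intro hb
        apply (h1 hR).1.2.1
        obtain ⟨P, ⟨R', hR', h6⟩, h7⟩ : ∃ P ∈ pr t₀ '' σ', PP q s (fun t =>
            conjSub (y t : E) P) = R := by
          have : R ∈ Ph q s (pr t₀ '' σ') y := by rw [hy]; exact hR
          exact mem_Ph.1 this
        have h8 : pr t₀ R = conjSub (y t₀ : E) P := by
          rw [← h7]
          refine pr_PP (fun t => conj_ker ?_ _) t₀
          rw [← h6]
          exact pr_le _ _
        rw [hb] at h8
        have h9 : P = ⊥ := by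
          by_contra h10
          exact conjSub_ne_bot h10 h8.symm
        rw [← h7, h9, eq_bot_iff]
        intro x hx
        rw [Subgroup.mem_bot]
        refine TG.ext' hx.1 fun t => ?_
        rw [TG.one_f]
        have h10 := hx.2 t
        rw [mem_conjSub, Subgroup.mem_bot] at h10
        have h11 : x.f t = (y t : E) * ((y t : E)⁻¹ * x.f t * (y t : E)) * (y t : E)⁻¹ := by group
        rw [h11, h10, mul_one, mul_inv_cancel]
      · rintro _ ⟨R, hR, rfl⟩ _ ⟨R', hR', rfl⟩ _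
        rcases h2.total hR hR' with h6 | h6
        · exact Or.inl (pr_mono _ h6)
        · exact Or.inr (pr_mono _ h6)
  rw [e1] at e2
  have hn : (Nat.card ↥q.ker : ℤ) ≠ 0 := by exact_mod_cast Nat.card_pos.ne'
  have hT : Nat.card T = Nat.card T - 1 + 1 := (Nat.succ_pred_eq_of_pos Nat.card_pos).symm
  apply mul_left_cancel₀ hn
  rw [← e2]
  conv_lhs => rw [hT]
  ring

end Run7.h759.DI
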