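import Pool.Agent.Run7.h759.DI.TG3
import Pool.Agent.Run7.h759.DI.Blx
import Pool.Agent.Run7.h759.DI.Mi
import Pool.Agent.N85.WM.Wpi

/-!
# Tensor induction: the characters (helper759)
-/

set_option autoImplicit false
set_option linter.unusedSectionVars false

open scoped Classical BigOperators

noncomputable section

namespace Run7.h759.DI

open Pool.Agent.Y63.NV (IsClassFun centralValue)
open Pool.Agent.Helper884.IC (IsIrrChar Irr mem_Irr IsClass irr_finite)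
open Pool.Agent.Y63.AWC (irr_comp)
open Pool.Agent.R674.Tw (Fixes)
open Pool.Agent.Q99.AS (Dft Dft_congr Dft_unique Dft_exists)
open Pool.Agent.N19.RB (tens tens_irr tens_inj exists_tens tens_one fac_prod)
open Pool.Agent.N85.WM.Wpi (cv_tens)

variable {E Γ T : Type} [Group E] [Group Γ] [MulAction Γ T] [Finite E] [Finite Γ] [Fintype T]
  {q : E →* Γ} {s : T → Γ} {t₀ : T}

/-- the isomorphism with the product -/
def eK (q : E →* Γ) (s : T → Γ) (S : Subgroup E) :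
    ↥((TG.qq q s).ker ⊓ TS q s S) ≃* (T → ↥(q.ker ⊓ S)) where
  toFun x t := ⟨x.1.f t, MonoidHom.mem_ker.2 (TG.q_f (TG.mem_ker.1 (Subgroup.mem_inf.1 x.2).1) t),
    (Subgroup.mem_inf.1 x.2).2 t⟩
  invFun y := ⟨TG.el (fun t => (y t : E)) (fun t => MonoidHom.mem_ker.1 (Subgroup.mem_inf.1 (y t).2).1),
    TG.mem_ker.2 rfl, fun t => (Subgroup.mem_inf.1 (y t).2).2⟩
  left_inv x := Subtype.ext (TG.ext' (TG.mem_ker.1 (Subgroup.mem_inf.1 x.2).1).symm fun _ => rfl)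
  right_inv y := rfl
  map_mul' x y := by
    funext t
    apply Subtype.ext
    change (x.1 * y.1).f t = x.1.f t * y.1.f t
    rw [TG.mul_f, TG.mem_ker.1 (Subgroup.mem_inf.1 x.2).1, inv_one, one_smul]

theorem eK_coe (S : Subgroup E) (x : ↥((TG.qq q s).ker ⊓ TS q s S)) (t : T) :
    ((eK q s S x t : ↥(q.ker ⊓ S)) : E) = (x : TG q s).f t := rfl

/-- the product of the `θ t` -/
def TT (q : E →* Γ) (s : T → Γ) (S : Subgroup E) (θ : T → ↥(q.ker ⊓ S) → ℂ) :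
    ↥((TG.qq q s).ker ⊓ TS q s S) → ℂ :=
  fun x => tens θ (eK q s S x)

variable {S : Subgroup E}

theorem TT_irr {θ : T → ↥(q.ker ⊓ S) → ℂ} (h : ∀ t, IsIrrChar (θ t)) :
    IsIrrChar (TT q s S θ) := by
  have _i : Fintype ↥(q.ker ⊓ S) := Fintype.ofFinite _
  exact irr_comp (eK q s S) (tens_irr h)

theorem TT_inj {θ ψ : T → ↥(q.ker ⊓ S) → ℂ} (h : ∀ t, IsIrrChar (θ t))
    (h' : ∀ t, IsIrrChar (ψ t)) (he : TT q s S θ = TT q s S ψ) : θ = ψ := by
  have _i : Fintype ↥(q.ker ⊓ S) := Fintype.ofFinite _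
  refine tens_inj h h' ?_
  funext y
  obtain ⟨x, rfl⟩ := (eK q s S).surjective y
  exact congrFun he x

theorem TT_cover {χ : ↥((TG.qq q s).ker ⊓ TS q s S) → ℂ} (hχ : IsIrrChar χ) :
    ∃ θ : T → ↥(q.ker ⊓ S) → ℂ, (∀ t, IsIrrChar (θ t)) ∧ χ = TT q s S θ := by
  have _i : Fintype ↥(q.ker ⊓ S) := Fintype.ofFinite _
  obtain ⟨θ, h1, h2⟩ := exists_tens (irr_comp (eK q s S).symm hχ)
  refine ⟨θ, h1, ?_⟩
  funext x
  unfold TT
  rw [← h2]
  change χ x = χ ((eK q s S).symm (eK q s S x))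
  rw [MulEquiv.symm_apply_apply]

/-- the conjugation with an element of `S` -/
def cS {e : E} (he : e ∈ S) : ↥(q.ker ⊓ S) ≃* ↥(q.ker ⊓ S) :=
  Pool.Agent.R674.Tw.alp _ e (G_conj (rfl : q.ker = q.ker) he)

theorem cS_coe {e : E} (he : e ∈ S) (x : ↥(q.ker ⊓ S)) :
    ((cS he x : ↥(q.ker ⊓ S)) : E) = e * x * e⁻¹ := rfl

/-- the elements fixing a product -/
theorem fixes_TT {θ : T → ↥(q.ker ⊓ S) → ℂ} (h : ∀ t, IsIrrChar (θ t)) {x : TG q s}
    (hx : x ∈ TS q s S) : Fixes x (TT q s S θ) ↔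
      ∀ t, ∀ n n' : ↥(q.ker ⊓ S), (n' : E) = x.f t * n * (x.f t)⁻¹ →
        θ t n' = θ (x.g⁻¹ • t) n := by
  have h1 : ∀ n n' : ↥((TG.qq q s).ker ⊓ TS q s S), (n' : TG q s) = x * n * x⁻¹ →
      TT q s S θ n' = ∏ t, θ t (cS (hx t) (eK q s S n (x.g⁻¹ • t))) := by
    intro n n' hn
    unfold TT tens
    refine Finset.prod_congr rfl fun t _ => ?_
    congr 1
    apply Subtype.ext
    rw [eK_coe, cS_coe, eK_coe, hn, TG.conj_f x (TG.mem_ker.1 (Subgroup.mem_inf.1 n.2).1)]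
  constructor
  · intro hf
    let ψ : T → ↥(q.ker ⊓ S) → ℂ := fun t m => θ (x.g • t) (cS (hx (x.g • t)) m)
    have hψ : ∀ t, IsIrrChar (ψ t) := fun t => irr_comp (cS (hx (x.g • t))) (h (x.g • t))
    have h2 : TT q s S ψ = TT q s S θ := by
      funext n
      have hn' : x * (n : TG q s) * x⁻¹ ∈ (TG.qq q s).ker ⊓ TS q s S :=
        ⟨(inferInstance : (TG.qq q s).ker.Normal).conj_mem _ (Subgroup.mem_inf.1 n.2).1 _,
          (TS q s S).mul_mem ((TS q s S).mul_mem hx (Subgroup.mem_inf.1 n.2).2)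
            ((TS q s S).inv_mem hx)⟩
      have h3 := hf n ⟨_, hn'⟩ rfl
      rw [h1 n ⟨_, hn'⟩ rfl] at h3
      rw [← h3]
      unfold TT tens
      refine Fintype.prod_equiv (MulAction.toPerm x.g) _ _ fun t => ?_
      change θ (x.g • t) (cS (hx (x.g • t)) (eK q s S n t)) =
        θ (x.g • t) (cS (hx (x.g • t)) (eK q s S n (x.g⁻¹ • x.g • t)))
      rw [inv_smul_smul]
    have h4 := TT_inj hψ h h2
    intro t n n' hn
    have h5 := congrFun (congrFun h4 (x.g⁻¹ • t)) n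
    rw [← h5]
    change θ t n' = θ (x.g • x.g⁻¹ • t) (cS (hx (x.g • x.g⁻¹ • t)) n)
    have h6 : ∀ t' (ht : t' = t), θ t n' = θ t' (cS (hx t') n) := by
      rintro t' rfl
      congr 1
      exact Subtype.ext hn
    exact h6 _ (smul_inv_smul _ _)
  · intro hf n n' hn
    rw [h1 n n' hn]
    have h2 : ∀ t, θ t (cS (hx t) (eK q s S n (x.g⁻¹ • t))) =
        θ (x.g⁻¹ • t) (eK q s S n (x.g⁻¹ • t)) := fun t => hf t _ _ rfl
    rw [Finset.prod_congr rfl fun t _ => h2 t]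
    unfold TT tens
    exact Fintype.prod_equiv (MulAction.toPerm x.g⁻¹) _ _ fun t => rfl

section cv

variable {F : Type} [Field F] (red : integralClosure ℤ ℂ →+* F)

/-- the class function on the tensor induced group -/
def zT (q : E →* Γ) (s : T → Γ) (z : E → F) : TG q s → F :=
  fun x => if x.g = 1 then ∏ t, z (x.f t) else 0

theorem zT_conj {z : E → F} (hz : ∀ g x, z (g * x * g⁻¹) = z x) (y x : TG q s) :
    zT q s z (y * x * y⁻¹) = zT q s z x := by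
  unfold zT
  have h1 : (y * x * y⁻¹).g = 1 ↔ x.g = 1 := by
    constructor
    · intro h
      have h2 : y.g * x.g * y.g⁻¹ = 1 := h
      have h3 : x.g = y.g⁻¹ * (y.g * x.g * y.g⁻¹) * y.g := by group
      rw [h3, h2, mul_one, inv_mul_cancel]
    · intro h
      exact TG.conj_g y h
  by_cases h : x.g = 1
  · rw [if_pos h, if_pos (h1.2 h)]
    refine (Finset.prod_congr rfl fun t _ => by rw [TG.conj_f y h, hz]).trans ?_
    exact Fintype.prod_equiv (MulAction.toPerm y.g⁻¹) _ _ fun t => rfl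
  · rw [if_neg h, if_neg (fun h2 => h (h1.1 h2))]

theorem zT_ker {z : E → F} {x : TG q s} (h : x ∉ (TG.qq q s).ker) : zT q s z x = 0 :=
  if_neg fun h1 => h (TG.mem_ker.2 h1)

theorem cv_TT {z : E → F} (hz : ∀ g x, z (g * x * g⁻¹) = z x) {θ : T → ↥(q.ker ⊓ S) → ℂ}
    (h : ∀ t, IsIrrChar (θ t)) :
    centralValue red (TT q s S θ) (fun x => zT q s z x) =
      ∏ t, centralValue red (θ t) (fun x => z x) := by
  have _i : Fintype ↥(q.ker ⊓ S) := Fintype.ofFinite _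
  have hf : ∀ _ : T, IsClassFun (fun x : ↥(q.ker ⊓ S) => z x) := fun _ g x => hz g x
  have h1 := cv_tens red h (fun _ (x : ↥(q.ker ⊓ S)) => z x) hf
  rw [← h1]
  have h2 := Pool.Agent.Y286.NV.centralValue_comp red (eK q s S) (tens θ)
    (Pool.Agent.Y286.NV.irr_class (tens_irr h)) (fun x => ∏ i, z (x i)) (fun g x => by
      refine Finset.prod_congr rfl fun t _ => ?_
      exact hz (g t : E) (x t : E))
  rw [← h2]
  unfold TT
  congr 1
  funext x
  unfold zT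
  rw [if_pos (TG.mem_ker.1 (Subgroup.mem_inf.1 x.2).1)]
  rfl

end cv

theorem TT_dft {p D : ℕ} {θ : ↥(q.ker ⊓ S) → ℂ} (hd : Dft p D θ) (h0 : θ 1 ≠ 0) :
    Dft p (Nat.card T * D) (TT q s S (fun _ => θ)) := by
  have _i : Fintype ↥(q.ker ⊓ S) := Fintype.ofFinite _
  obtain ⟨n, hn, hn'⟩ := hd
  have hn0 : n ≠ 0 := by
    rintro rfl
    exact h0 (by rw [hn, Nat.cast_zero])
  refine ⟨n ^ Nat.card T, ?_, ?_⟩
  · unfold TT
    rw [map_one, tens_one, Finset.prod_const, hn, Finset.card_univ, Nat.card_eq_fintype_card]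
    push_cast
    rfl
  · rw [Nat.card_congr (eK q s S).toEquiv, Nat.card_fun, Nat.factorization_pow,
      Nat.factorization_pow, Finsupp.smul_apply, Finsupp.smul_apply, smul_eq_mul, smul_eq_mul,
      ← Nat.mul_add, hn']

section main

variable {F : Type} [Field F] (red : integralClosure ℤ ℂ →+* F)
  (hs : ∀ t, s t • t₀ = t) (hq : q.range = MulAction.stabilizer Γ t₀)

include hs in
/-- the invariant characters are powers -/
theorem inq_TT {θ : T → ↥(q.ker ⊓ S) → ℂ} (h : ∀ t, IsIrrChar (θ t)) :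
    Inq (TG.qq q s) ⊤ (TS q s S) (TT q s S θ) → ∀ t, θ t = θ t₀ := by
  intro hi t
  obtain ⟨x, hx, hxg, hf⟩ := hi (s t * (s t₀)⁻¹) (Subgroup.mem_top _)
  have hxg' : x.g = s t * (s t₀)⁻¹ := hxg
  rw [fixes_TT h hx] at hf
  have h3 : (s t)⁻¹ • t = t₀ := by rw [inv_smul_eq_iff, hs]
  have h4 : (s t * (s t₀)⁻¹)⁻¹ • t = t₀ := by
    rw [mul_inv_rev, inv_inv, mul_smul, h3, hs]
  have h5 : x.f t ∈ q.ker := by
    rw [MonoidHom.mem_ker, x.h, hxg', h4]
    group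
  funext n
  have h6 := hf t n (cS (hx t) n) rfl
  rw [hxg', h4] at h6
  rw [← h6]
  have h7 : IsClass (θ t) := isClass_of (h t)
  have h8 := fixes_inner h7 (x := x.f t) (Subgroup.mem_inf.2 ⟨h5, hx t⟩)
  exact (h8 n (cS (hx t) n) rfl).symm

include hs hq in
theorem inq_pow {θ : ↥(q.ker ⊓ S) → ℂ} (h : IsIrrChar θ) :
    Inq (TG.qq q s) ⊤ (TS q s S) (TT q s S (fun _ => θ)) ↔ Inq q q.range S θ := by
  constructor
  · intro hi v hv
    obtain ⟨x, hx, hxg, hf⟩ := hi (s t₀ * v * (s t₀)⁻¹) (Subgroup.mem_top _)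
    have hxg' : x.g = s t₀ * v * (s t₀)⁻¹ := hxg
    rw [fixes_TT (fun _ => h) hx] at hf
    refine ⟨x.f t₀, hx t₀, ?_, fun n n' hn => hf t₀ n n' hn⟩
    have h1 : v • t₀ = t₀ := by
      rw [hq] at hv
      exact hv
    have h2 : (s t₀)⁻¹ • t₀ = t₀ := by rw [inv_smul_eq_iff, hs]
    have h3 : v⁻¹ • t₀ = t₀ := by rw [inv_smul_eq_iff, h1]
    have h4 : (s t₀ * v * (s t₀)⁻¹)⁻¹ • t₀ = t₀ := by
      rw [mul_inv_rev, mul_inv_rev, inv_inv, mul_smul, mul_smul, h2, h3, hs]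
    rw [x.h, hxg', h4]
    group
  · intro hi g _
    have h1 : ∀ t, ∃ e ∈ S, q e = (s t)⁻¹ * g * s (g⁻¹ • t) ∧ Fixes e θ := by
      intro t
      refine hi _ ?_
      rw [hq, MulAction.mem_stabilizer_iff, mul_smul, mul_smul, hs, smul_inv_smul,
        inv_smul_eq_iff, hs]
    choose e he h2 h3 using h1
    refine ⟨⟨g, e, h2⟩, fun t => he t, rfl, ?_⟩
    rw [fixes_TT (fun _ => h) (fun t => he t)]
    exact fun t n n' hn => h3 t n n' hn

include hs hq in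
/-- **the number of the invariant characters** -/
theorem xc_TG (p : ℕ) {z : E → F} (hz : ∀ g x, z (g * x * g⁻¹) = z x)
    (hv : ∀ θ : ↥(q.ker ⊓ S) → ℂ, IsIrrChar θ → centralValue red θ (fun x => z x) = 0 ∨
      centralValue red θ (fun x => z x) = 1) (D : ℕ) :
    xc p red (TG.qq q s).ker (TG.qq q s) ⊤ (zT q s z) 1 (Nat.card T * D) (TS q s S) =
      xc p red q.ker q q.range z 1 D S := by
  have _n : Nonempty T := ⟨t₀⟩
  have hT : Nat.card T ≠ 0 := Nat.card_pos.ne'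
  have h1 : ∀ θ : ↥(q.ker ⊓ S) → ℂ, IsIrrChar θ → θ 1 ≠ 0 := by
    intro θ hθ
    have _i : Fintype ↥(q.ker ⊓ S) := Fintype.ofFinite _
    obtain ⟨n, hn, e⟩ := Pool.Agent.Q90.WR.deg_pos hθ
    rw [e]
    exact_mod_cast hn.ne'
  have hcv : ∀ θ : ↥(q.ker ⊓ S) → ℂ, IsIrrChar θ →
      (centralValue red (TT q s S (fun _ => θ)) (fun x => zT q s z x) = 1 ↔
        centralValue red θ (fun x => z x) = 1) := by
    intro θ hθ
    rw [cv_TT red hz (fun _ => hθ), Finset.prod_const]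
    rcases hv θ hθ with h | h
    · rw [h, zero_pow]
      rw [Finset.card_univ, ← Nat.card_eq_fintype_card]
      exact hT
    · rw [h, one_pow]
  have hD : ∀ θ : ↥(q.ker ⊓ S) → ℂ, IsIrrChar θ →
      (Dft p (Nat.card T * D) (TT q s S (fun _ => θ)) ↔ Dft p D θ) := by
    intro θ hθ
    obtain ⟨d, hd⟩ := Dft_exists p hθ
    have h2 := TT_dft (s := s) hd (h1 θ hθ)
    constructor
    · intro h3
      have h4 := Dft_unique h2 h3
      have h5 := Nat.eq_of_mul_eq_mul_left (Nat.pos_of_ne_zero hT) h4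
      rw [← h5]
      exact hd
    · intro h3
      rw [Dft_unique h3 hd]
      exact h2
  unfold xc xk
  congr 1
  symm
  refine Nat.card_congr (Equiv.ofBijective
    (fun θ : {χ : ↥(q.ker ⊓ S) → ℂ // IsIrrChar χ ∧ (Dft p D χ ∧ Inq q q.range S χ ∧
      centralValue red χ (fun x => z x) = 1)} =>
      (⟨TT q s S (fun _ => θ.1), TT_irr (fun _ => θ.2.1), (hD θ.1 θ.2.1).2 θ.2.2.1,
        (inq_pow hs hq θ.2.1).2 θ.2.2.2.1, (hcv θ.1 θ.2.1).2 θ.2.2.2.2⟩ :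
      {χ : ↥((TG.qq q s).ker ⊓ TS q s S) → ℂ // IsIrrChar χ ∧ (Dft p (Nat.card T * D) χ ∧
        Inq (TG.qq q s) ⊤ (TS q s S) χ ∧ centralValue red χ (fun x => zT q s z x) = 1)}))
    ⟨?_, ?_⟩)
  · rintro ⟨θ, hθ, a1⟩ ⟨ψ, hψ, a2⟩ h
    have h2 := TT_inj (fun _ => hθ) (fun _ => hψ) (congrArg Subtype.val h)
    exact Subtype.ext (congrFun h2 t₀)
  · rintro ⟨χ, hχ, h2, h3, h4⟩
    obtain ⟨θ, hθ, rfl⟩ := TT_cover hχ
    have h5 := inq_TT hs hθ h3
    have h6 : θ = fun _ => θ t₀ := funext h5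
    rw [h6] at h2 h3 h4
    refine ⟨⟨θ t₀, hθ t₀, (hD _ (hθ t₀)).1 h2, (inq_pow hs hq (hθ t₀)).1 h3,
      (hcv _ (hθ t₀)).1 h4⟩, ?_⟩
    apply Subtype.ext
    change TT q s S (fun _ => θ t₀) = TT q s S θ
    rw [← h6]

include hs in
theorem xc_TG_zero (p : ℕ) {z : E → F} {D : ℕ} (hD : ¬ Nat.card T ∣ D) (c₀ : F) :
    xc p red (TG.qq q s).ker (TG.qq q s) ⊤ (zT q s z) c₀ D (TS q s S) = 0 := by
  have h1 : ∀ θ : ↥(q.ker ⊓ S) → ℂ, IsIrrChar θ → θ 1 ≠ 0 := by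
    intro θ hθ
    have _i : Fintype ↥(q.ker ⊓ S) := Fintype.ofFinite _
    obtain ⟨n, hn, e⟩ := Pool.Agent.Q90.WR.deg_pos hθ
    rw [e]
    exact_mod_cast hn.ne'
  unfold xc xk
  have : IsEmpty {χ : ↥((TG.qq q s).ker ⊓ TS q s S) → ℂ // IsIrrChar χ ∧ (Dft p D χ ∧
        Inq (TG.qq q s) ⊤ (TS q s S) χ ∧ centralValue red χ (fun x => zT q s z x) = c₀)} := by
    refine ⟨?_⟩
    rintro ⟨χ, hχ, h2, h3, -⟩
    obtain ⟨θ, hθ, rfl⟩ := TT_cover hχ
    have h5 := inq_TT hs hθ h3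
    have h6 : θ = fun _ => θ t₀ := funext h5
    rw [h6] at h2
    obtain ⟨d, hd⟩ := Dft_exists p (hθ t₀)
    have h7 := Dft_unique h2 (TT_dft (s := s) hd (h1 _ (hθ t₀)))
    exact hD ⟨d, h7⟩
  rw [Nat.card_of_isEmpty]
  rfl

end main

end Run7.h759.DI
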