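import Pool.Agent.Run7.h759.DI.TG4
import Pool.Agent.Run7.h759.DI.Cen
import Pool.Agent.Run7.h759.DI.Z01
import Pool.Agent.Run7.h759.DI.Quo
import Pool.Agent.N85.TG.Exc0

/-!
# Tensor induction: the formula for the sums (helper759)
-/

set_option autoImplicit false
set_option linter.unusedSectionVars false

open scoped Classical BigOperators

noncomputable section

namespace Run7.h759.DI

open Pool.Agent.Y63.NV (IsClassFun centralValue IsBlock numDzBlock)
open Pool.Agent.Helper884.IC (IsIrrChar Irr mem_Irr IsClass irr_finite)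
open Pool.Agent.Y63.AWC (irr_comp)
open Pool.Agent.Y63.KR (IsPChain chainStabilizer conjSub mem_conjSub conj_mem_conjSub)
open Pool.Agent.R674.Tw (Fixes)
open Pool.Agent.Q99.AS (Dft Dft_congr Dft_unique Dft_exists)
open Pool.Agent.Q90.WR (card_transport)
open Pool.Agent.N20.DI (InvBl kdGe radSum)

section conj

variable {E U : Type} [Group E] [Finite E] [Group U] {q : E →* U} {G : Subgroup E}

/-- conjugation -/
def cc (hq : q.ker = G) (e : E) (S : Subgroup E) : ↥(G ⊓ S) ≃* ↥(G ⊓ conjSub e S) where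
  toFun x := ⟨e * x * e⁻¹, (G_normal hq).conj_mem _ (Subgroup.mem_inf.1 x.2).1 _,
    conj_mem_conjSub (Subgroup.mem_inf.1 x.2).2⟩
  invFun y := ⟨e⁻¹ * y * e, by
    have h := (G_normal hq).conj_mem _ (Subgroup.mem_inf.1 y.2).1 e⁻¹
    rwa [inv_inv] at h, mem_conjSub.1 (Subgroup.mem_inf.1 y.2).2⟩
  left_inv x := Subtype.ext (by
    change e⁻¹ * (e * (x : E) * e⁻¹) * e = x
    group)
  right_inv y := Subtype.ext (by
    change e * (e⁻¹ * (y : E) * e) * e⁻¹ = y
    group)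
  map_mul' x y := Subtype.ext (by
    change e * ((x : E) * (y : E)) * e⁻¹ = e * x * e⁻¹ * (e * y * e⁻¹)
    group)

theorem cc_coe (hq : q.ker = G) (e : E) (S : Subgroup E) (x : ↥(G ⊓ S)) :
    ((cc hq e S x : ↥(G ⊓ conjSub e S)) : E) = e * x * e⁻¹ := rfl

variable {F : Type} [Field F] (red : integralClosure ℤ ℂ →+* F)

theorem inq_cc (hq : q.ker = G) {V : Subgroup U} {e : E} (hV : ∀ u ∈ V, (q e)⁻¹ * u * q e ∈ V ∧
    q e * u * (q e)⁻¹ ∈ V) (S : Subgroup E) (χ : ↥(G ⊓ conjSub e S) → ℂ) :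
    Inq q V (conjSub e S) χ ↔ Inq q V S (fun x => χ (cc hq e S x)) := by
  constructor
  · intro h u hu
    obtain ⟨a, ha, h1, h2⟩ := h _ (hV u hu).2
    refine ⟨e⁻¹ * a * e, mem_conjSub.1 ha, ?_, fun n n' hn => ?_⟩
    · rw [map_mul, map_mul, map_inv, h1]
      group
    · refine h2 _ _ ?_
      rw [cc_coe, cc_coe, hn]
      group
  · intro h u hu
    obtain ⟨a, ha, h1, h2⟩ := h _ (hV u hu).1
    refine ⟨e * a * e⁻¹, conj_mem_conjSub ha, ?_, fun n n' hn => ?_⟩
    · rw [map_mul, map_mul, map_inv, h1]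
      group
    · have h3 := h2 ((cc hq e S).symm n) ((cc hq e S).symm n') (by
        change e⁻¹ * (n' : E) * e = a * (e⁻¹ * (n : E) * e) * a⁻¹
        rw [hn]
        group)
      simp only [MulEquiv.apply_symm_apply] at h3
      exact h3

theorem xc_conj (hq : q.ker = G) (p : ℕ) {V : Subgroup U} {e : E}
    (hV : ∀ u ∈ V, (q e)⁻¹ * u * q e ∈ V ∧ q e * u * (q e)⁻¹ ∈ V) {z : E → F}
    (hz : ∀ g x, z (g * x * g⁻¹) = z x) (c₀ : F) (D : ℕ) (S : Subgroup E) :
    (Nat.card ↥(G ⊓ conjSub e S) : ℤ) * xc p red G q V z c₀ D (conjSub e S) =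
      (Nat.card ↥(G ⊓ S) : ℤ) * xc p red G q V z c₀ D S := by
  have _i : Fintype ↥(G ⊓ S) := Fintype.ofFinite _
  have _i2 : Fintype ↥(G ⊓ conjSub e S) := Fintype.ofFinite _
  rw [Nat.card_congr (cc hq e S).toEquiv]
  congr 1
  unfold xc xk
  congr 1
  rw [card_transport (cc hq e S) (fun χ => Dft p D χ ∧ Inq q V S χ ∧
    centralValue red χ (fun x => z x) = c₀)]
  refine Nat.card_congr (Equiv.subtypeEquivRight fun χ => ?_)
  refine and_congr_right fun hχ => ?_
  rw [Dft_congr, inq_cc hq hV]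
  refine and_congr_right fun _ => and_congr_right fun _ => ?_
  have h2 := Pool.Agent.Y286.NV.centralValue_comp red (cc hq e S) χ
    (Pool.Agent.Y286.NV.irr_class hχ) (fun x => z x) (fun g x => hz g x)
  rw [← h2]
  have h3 : (fun x : ↥(G ⊓ S) => z (cc hq e S x)) = fun x : ↥(G ⊓ S) => z x := by
    funext x
    rw [cc_coe, hz]
  rw [h3]

end conj

section vg

variable {E : Type} [Group E] {F : Type} [Field F]

/-- the values of the blocks at `z` are `0` or `1` -/
def Vg (G : Subgroup E) (z : E → F) : Prop :=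
  ∀ B : (G → F) → F, IsBlock B → B (fun x : G => z x) = 0 ∨ B (fun x : G => z x) = 1

theorem Vg.z01 [Finite E] {p : ℕ} [Fact p.Prime] [IsAlgClosed F] [CharP F p]
    {red : integralClosure ℤ ℂ →+* F} {G : Subgroup E} [G.Normal] {z : E → F} (h : Vg G z) :
    Z01 p red G z :=
  fun σ h1 h2 θ hθ => h _ (Pool.Agent.N286.DI.BLK p F red E G σ h1 h2 θ hθ)

theorem Vg.of_irr [Finite E] (red : integralClosure ℤ ℂ →+* F) {G : Subgroup E} {z : E → F}
    (hz : ∀ g x, z (g * x * g⁻¹) = z x)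
    (h : ∀ χ : G → ℂ, IsIrrChar χ → centralValue red χ (fun x : G => z x) = 0 ∨
      centralValue red χ (fun x : G => z x) = 1) : Vg G z := by
  intro B hB
  have _i : Fintype G := Fintype.ofFinite _
  obtain ⟨χ, hχ, h1⟩ := Pool.Agent.N85.TG.Exc.core red hB
  rw [← h1 (fun x : G => z x) (fun g x => hz g x)]
  exact h χ hχ

theorem Vg.irr [Finite E] {p : ℕ} [Fact p.Prime] [IsAlgClosed F] [CharP F p]
    (red : integralClosure ℤ ℂ →+* F) {G : Subgroup E} [G.Normal] {z : E → F} (h : Vg G z)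
    {χ : ↥(G ⊓ ⊤) → ℂ} (hχ : IsIrrChar χ) : centralValue red χ (fun x => z x) = 0 ∨
      centralValue red χ (fun x => z x) = 1 := by
  have h1 := (h.z01 (p := p) (red := red)) ∅ ⟨fun _ h => absurd h (Set.notMem_empty _),
    fun _ h => absurd h (Set.notMem_empty _), fun _ h => absurd h (Set.notMem_empty _)⟩
    (fun _ h => absurd h (Set.notMem_empty _))
  have htop : chainStabilizer (∅ : Set (Subgroup E)) = ⊤ := by
    unfold chainStabilizer
    simp
  rw [htop] at h1
  exact h1 χ hχ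

end vg

section main

variable {E Γ T : Type} [Group E] [Group Γ] [MulAction Γ T] [Finite E] [Finite Γ] [Fintype T]
  {q : E →* Γ} {s : T → Γ} {t₀ : T} {p : ℕ} [hp : Fact p.Prime]
  {F : Type} [Field F] [IsAlgClosed F] [CharP F p] (red : integralClosure ℤ ℂ →+* F)
  (hs : ∀ t, s t • t₀ = t) (hq : q.range = MulAction.stabilizer Γ t₀)

omit hp [IsAlgClosed F] [CharP F p] in
theorem xc_cover {E U : Type} [Group E] [Finite E] [Group U] {q : E →* U} {G : Subgroup E} (p : ℕ)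
    {z : E → F} (c₀ : F) (D : ℕ) {S : Subgroup E} (h : ¬ ∀ u, ∃ e ∈ S, q e = u) :
    xc p red G q ⊤ z c₀ D S = 0 := by
  unfold xc xk
  have : IsEmpty {χ : ↥(G ⊓ S) → ℂ // IsIrrChar χ ∧ (Dft p D χ ∧ Inq q ⊤ S χ ∧
      centralValue red χ (fun x => z x) = c₀)} := by
    refine ⟨?_⟩
    rintro ⟨χ, -, -, h2, -⟩
    apply h
    intro u
    obtain ⟨e, he, h3, -⟩ := h2 u (Subgroup.mem_top _)
    exact ⟨e, he, h3⟩
  rw [Nat.card_of_isEmpty]
  rfl

include hs hq in
/-- **the sums for a tensor induced group** -/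
theorem al_xc_TG {z : E → F} (hz : ∀ g x, z (g * x * g⁻¹) = z x) (hv : Z01 p red q.ker z)
    (D : ℕ) :
    al p (TG.qq q s).ker (fun S' => (Nat.card ↥((TG.qq q s).ker ⊓ S') : ℤ) *
        xc p red (TG.qq q s).ker (TG.qq q s) ⊤ (zT q s z) 1 (Nat.card T * D) S') =
      (Nat.card ↥q.ker : ℤ) ^ (Nat.card T - 1) *
        al p q.ker (fun S => (Nat.card ↥(q.ker ⊓ S) : ℤ) * xc p red q.ker q q.range z 1 D S) := by
  have _n : Nonempty T := ⟨t₀⟩
  refine al_TG hs ?_ ?_ ?_ ?_
  · intro S' h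
    rw [xc_cover red p 1 _ h, mul_zero]
  · intro x S'
    exact xc_conj red rfl p (fun u _ => ⟨Subgroup.mem_top _, Subgroup.mem_top _⟩)
      (zT_conj hz) 1 _ S'
  · intro e S
    exact xc_conj red rfl p (fun u hu => ⟨q.range.mul_mem (q.range.mul_mem
      (q.range.inv_mem ⟨e, rfl⟩) hu) ⟨e, rfl⟩, q.range.mul_mem (q.range.mul_mem
      ⟨e, rfl⟩ hu) (q.range.inv_mem ⟨e, rfl⟩)⟩) hz 1 _ S
  · intro σ h1 h2
    rw [xc_TG red hs hq p hz (hv σ h1 h2) D, Nat.card_congr (eK q s _).toEquiv, Nat.card_fun]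
    have hT : Nat.card T = Nat.card T - 1 + 1 := (Nat.succ_pred_eq_of_pos Nat.card_pos).symm
    conv_lhs => rw [hT]
    push_cast
    ring

include red hp in
/-- the class function on the tensor induced group -/
theorem vg_TG {z : E → F} (hz : ∀ g x, z (g * x * g⁻¹) = z x) (hv : Vg q.ker z) :
    Vg (TG.qq q s).ker (zT q s z) := by
  refine Vg.of_irr red (zT_conj hz) fun χ hχ => ?_
  have hn : q.ker.Normal := inferInstance
  have h1 : (TG.qq q s).ker = (TG.qq q s).ker ⊓ TS q s ⊤ := by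
    ext x
    exact ⟨fun h => ⟨h, fun t => Subgroup.mem_top _⟩, fun h => h.1⟩
  let e : ↥((TG.qq q s).ker ⊓ TS q s ⊤) ≃* ↥(TG.qq q s).ker := MulEquiv.subgroupCongr h1.symm
  have hχ' : IsIrrChar (fun x => χ (e x)) := irr_comp e hχ
  have _i : Fintype ↥(TG.qq q s).ker := Fintype.ofFinite _
  have h2 := Pool.Agent.Y286.NV.centralValue_comp red e χ
    (Pool.Agent.Y286.NV.irr_class hχ) (fun x => zT q s z x)
    (fun g x => zT_conj hz (g : TG q s) (x : TG q s))
  rw [← h2]
  obtain ⟨θ, hθ, h3⟩ := TT_cover hχ'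
  have h4 : centralValue red (fun x => χ (e x)) (fun x => zT q s z (e x)) =
      ∏ t, centralValue red (θ t) (fun x => z x) := by
    rw [h3]
    exact cv_TT red hz hθ
  rw [h4]
  by_cases h5 : ∃ t, centralValue red (θ t) (fun x => z x) = 0
  · obtain ⟨t, ht⟩ := h5
    exact Or.inl (Finset.prod_eq_zero (Finset.mem_univ t) ht)
  · push Not at h5
    exact Or.inr (Finset.prod_eq_one fun t _ =>
      (hv.irr (p := p) red (hθ t)).resolve_left (h5 t))

end main

end Run7.h759.DI
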