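import Pool.Agent.Run7.h759.DI.TG5

/-!
# Subgroups of the quotient (helper759)
-/

set_option autoImplicit false
set_option linter.unusedSectionVars false

open scoped Classical BigOperators

noncomputable section

namespace Run7.h759.DI

open Pool.Agent.Y63.NV (IsClassFun centralValue IsBlock numDzBlock)
open Pool.Agent.Helper884.IC (IsIrrChar)
open Pool.Agent.Y63.KR (IsPChain chainStabilizer)
open Pool.Agent.Q99.AS (Dft)
open Pool.Agent.N20.DI (InvBl kdGe radSum)

variable {p : ℕ} [hp : Fact p.Prime] {F : Type} [Field F] [IsAlgClosed F] [CharP F p]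
  (red : integralClosure ℤ ℂ →+* F)

omit hp [IsAlgClosed F] [CharP F p] in
/-- the image as a quotient -/
theorem xc_range {E Γ : Type} [Group E] [Group Γ] {V : Subgroup Γ} {q₀ : E →* V}
    (hs : Function.Surjective q₀) {G : Subgroup E} (z : E → F) (c₀ : F) (D : ℕ) (S : Subgroup E) :
    xc p red G (V.subtype.comp q₀) (V.subtype.comp q₀).range z c₀ D S =
      xc p red G q₀ ⊤ z c₀ D S := by
  unfold xc xk
  congr 1
  refine Nat.card_congr (Equiv.subtypeEquivRight fun χ => ?_)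
  refine and_congr_right fun _ => and_congr_right fun _ => and_congr_left fun _ => ?_
  constructor
  · intro h v _
    obtain ⟨e, he, h1, h2⟩ := h (v : Γ) (by
      obtain ⟨x, hx⟩ := hs v
      exact ⟨x, by rw [← hx]; rfl⟩)
    exact ⟨e, he, Subtype.ext h1, h2⟩
  · rintro h _ ⟨x, rfl⟩
    obtain ⟨e, he, h1, h2⟩ := h (q₀ x) (Subgroup.mem_top _)
    exact ⟨e, he, congrArg Subtype.val h1, h2⟩

/-- from the tensor induced group to the group -/
theorem al_down {E Γ : Type} [Group E] [Group Γ] [Finite E] [Finite Γ] {V : Subgroup Γ}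
    {q₀ : E →* V} (hs₀ : Function.Surjective q₀) {z : E → F}
    (hz : ∀ g x, z (g * x * g⁻¹) = z x)
    (hv : Z01 p red (V.subtype.comp q₀).ker z) (h : Ok p red Γ) {D : ℕ} (hD : 1 ≤ D) :
    al p (V.subtype.comp q₀).ker (fun S => (Nat.card ↥((V.subtype.comp q₀).ker ⊓ S) : ℤ) *
      xc p red (V.subtype.comp q₀).ker q₀ ⊤ z 1 D S) = 0 := by
  set q : E →* Γ := V.subtype.comp q₀ with hqd
  have _iT : Fintype (Γ ⧸ V) := Fintype.ofFinite _
  let t₀ : Γ ⧸ V := ((1 : Γ) : Γ ⧸ V)
  let s : Γ ⧸ V → Γ := fun t => t.out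
  have hs : ∀ t, s t • t₀ = t := by
    intro t
    change ((t.out * 1 : Γ) : Γ ⧸ V) = t
    rw [mul_one]
    exact Quotient.out_eq t
  have hr : q.range = V := by
    ext u
    constructor
    · rintro ⟨x, rfl⟩
      exact (q₀ x).2
    · intro hu
      obtain ⟨x, hx⟩ := hs₀ ⟨u, hu⟩
      refine ⟨x, ?_⟩
      change ((q₀ x : V) : Γ) = u
      rw [hx]
  have hq : q.range = MulAction.stabilizer Γ t₀ := by
    rw [hr]
    exact (MulAction.stabilizer_quotient V).symm
  have hT : 1 ≤ Nat.card (Γ ⧸ V) := Nat.card_pos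
  have h1 := al_xc_TG red hs hq hz hv D
  have h2 := blx (p := p) (red := red) (rfl : (TG.qq q s).ker = _) (TG.qq_surj hs hq)
    (ok_iso Subgroup.topEquiv.symm h) (zT_conj (q := q) (s := s) hz) 1
    (D := Nat.card (Γ ⧸ V) * D) (Nat.mul_pos hT hD)
  rw [h2] at h1
  have h3 := (mul_eq_zero.1 h1.symm).resolve_left (pow_ne_zero _ (by
    exact_mod_cast Nat.card_pos.ne'))
  rw [← h3]
  refine al_congr fun σ _ _ => ?_
  rw [xc_range red hs₀]

/-- **subgroups** -/
theorem ok_subgroup {Γ : Type} [Group Γ] [Finite Γ] (V : Subgroup Γ) (h : Ok p red Γ) :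
    Ok p red V := by
  intro E _ _ G hGn hi hO B hB hB0 d
  obtain ⟨i⟩ := hi
  let q₀ : E →* V := i.toMonoidHom.comp (QuotientGroup.mk' G)
  have hs₀ : Function.Surjective q₀ := surj_iso G i
  have hq₀ : q₀.ker = G := ker_iso G i
  by_cases hI : InvBl G ⊤ B
  swap
  · have h0 : (fun σ => (kdGe p red G B d ⊤ σ : ℤ)) = fun _ => 0 :=
      funext fun σ => kd_zero red hB hI d σ
    rw [h0]
    unfold radSum
    rw [finsum_congr fun c => mul_zero _]
    exact finsum_zero
  obtain ⟨z, h1, h2, h3, h4, h5⟩ := z01 hB hI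
  have hz : ZB p red G B z := ⟨h1, h2, h3, h4, h5⟩
  have hv : Z01 p red G z := hz.z01
  refine rad_of_al red hq₀ hs₀ hz ?_
  rcases Nat.eq_zero_or_pos d with rfl | hd
  · refine al_zero fun σ k1 k2 => ?_
    have h6 : xc p red G q₀ ⊤ z 1 0 (chainStabilizer σ) = 0 := by
      unfold xc xk
      have : IsEmpty {χ : ↥(G ⊓ chainStabilizer σ) → ℂ // IsIrrChar χ ∧
          (Dft p 0 χ ∧ Inq q₀ ⊤ (chainStabilizer σ) χ ∧
            centralValue red χ (fun x => z x) = 1)} :=
        ⟨fun χ => hz.no_dz hB0 k1 k2 χ.2.1 χ.2.2.1 χ.2.2.2.2⟩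
      rw [Nat.card_of_isEmpty]
      rfl
    rw [h6, mul_zero]
  · have hk : (V.subtype.comp q₀).ker = G := by
      rw [← hq₀]
      ext x
      rw [MonoidHom.mem_ker, MonoidHom.mem_ker]
      exact ⟨fun h => Subtype.ext h, fun h => congrArg Subtype.val h⟩
    have h6 := al_down red hs₀ h1 (by rw [hk]; exact hv) h hd
    rw [hk] at h6
    exact h6

end Run7.h759.DI
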