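import Pool.Agent.Run7.h759.DI.Crs

/-!
# Complemented normal subgroups of prime order (helper759)
-/

set_option autoImplicit false
set_option linter.unusedSectionVars false

open scoped Classical BigOperators

noncomputable section

namespace Run7.h759.DI

open Pool.Agent.Y63.NV (IsClassFun centralValue IsBlock numDzBlock)
open Pool.Agent.Helper884.IC (IsIrrChar IsClass Irr mem_Irr)
open Pool.Agent.Y63.KR (IsPChain chainStabilizer conjSub)
open Pool.Agent.R674.Tw (Fixes GCh NG NEbar invSum)
open Pool.Agent.Q99.AS (Dft Dft_unique)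
open Pool.Agent.N237.DI (Iso2 Proj Inr Blk kS kS_conj rad_kS kdGe_kS)
open Pool.Agent.N20.DI (InvBl kdGe radSum)

section coc

variable {E U : Type} [Group E] [Finite E] [Group U] {q : E →* U} {A : Subgroup U}
  [hAn : A.Normal] {G : Subgroup E} {S : Subgroup E} {ℓ : ℕ} [hl : Fact ℓ.Prime]

/-- the linear characters form a crossed homomorphism -/
theorem coc_cr (hq : q.ker = G) (hA : Nat.card A = ℓ) {χ : ↥(A.comap q ⊓ S) → ℂ}
    (hχ : IsIrrChar χ) (hr : IsIrrChar (rs (HK hq) χ)) {c : U → A →* ℂˣ} (h : Coc q A c S χ) :
    IsCr A c := by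
  have hφ := phi_of_coc hA h
  have hfin : Finite A := fin_A hl.out hA
  -- the action on the whole group
  have key : ∀ (u u' : U), ∃ e ∈ S, q e = u * u' ∧ ∀ n n' : ↥(A.comap q ⊓ S),
      (n' : E) = e * n * e⁻¹ → χ n' = ((c u (cjA A u' (phi q A S n)) * c u' (phi q A S n) : ℂˣ) : ℂ) *
        χ n := by
    intro u u'
    obtain ⟨e, he, e1, e2⟩ := h u
    obtain ⟨e', he', e1', e2'⟩ := h u'
    refine ⟨e * e', S.mul_mem he he', by rw [map_mul, e1, e1'], fun n n' hn => ?_⟩
    have m2 : e' * n * e'⁻¹ ∈ A.comap q ⊓ S := (N_conj he' (n : E)).1 n.2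
    have h3 := e2' n ⟨_, m2⟩ rfl
    have h4 := e2 ⟨_, m2⟩ n' (by
      rw [hn]
      change (e * e') * n * (e * e')⁻¹ = e * (e' * n * e'⁻¹) * e⁻¹
      group)
    have h5 : (⟨q ((⟨e' * n * e'⁻¹, m2⟩ : ↥(A.comap q ⊓ S)) : E),
        (Subgroup.mem_inf.1 m2).1⟩ : A) = cjA A u' (phi q A S n) := by
      apply Subtype.ext
      change q (e' * n * e'⁻¹) = u' * q n * u'⁻¹
      rw [map_mul, map_mul, map_inv, e1']
    rw [h5] at h4
    rw [h4, h3, Units.val_mul, mul_assoc]
    rfl
  -- a crossed product
  let cc : U → U → A →* ℂˣ := fun u u' =>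
    { toFun := fun a => c u (cjA A u' a) * c u' a
      map_one' := by
        have h1 : cjA A u' 1 = 1 := by
          apply Subtype.ext
          change u' * 1 * u'⁻¹ = 1
          group
        rw [h1, map_one, map_one, one_mul]
      map_mul' := fun a b => by
        rw [cjA_mul, map_mul, map_mul]
        exact mul_mul_mul_comm _ _ _ _ }
  constructor
  · intro u u' a
    have h1 : c (u * u') = cc u u' := by
      let c' : U → A →* ℂˣ := Function.update c (u * u') (cc u u')
      have h2 : Coc q A c' S χ := by
        intro v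
        by_cases hv : v = u * u'
        · subst hv
          obtain ⟨e, he, e1, e2⟩ := key u u'
          refine ⟨e, he, e1, fun n n' hn => ?_⟩
          rw [e2 n n' hn]
          congr 2
          change _ = (Function.update c (u * u') (cc u u') (u * u')) _
          rw [Function.update_self]
          rfl
        · obtain ⟨e, he, e1, e2⟩ := h v
          refine ⟨e, he, e1, fun n n' hn => ?_⟩
          rw [e2 n n' hn]
          congr 2
          change _ = (Function.update c (u * u') (cc u u') v) _
          rw [Function.update_of_ne hv]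
      have h3 := congrFun (coc_unique hq hA hφ hχ hr h h2) (u * u')
      rw [h3]
      exact Function.update_self _ _ _
    rw [h1]
    rfl
  · intro b hb
    let c' : U → A →* ℂˣ := Function.update c b 1
    have h2 : Coc q A c' S χ := by
      intro v
      by_cases hv : v = b
      · subst hv
        obtain ⟨e, he, e1, -⟩ := h v
        have heN : e ∈ A.comap q ⊓ S := Subgroup.mem_inf.2 ⟨by
          rw [Subgroup.mem_comap, e1]
          exact hb, he⟩
        refine ⟨e, he, e1, fun n n' hn => ?_⟩
        have h5 : χ n' = χ n := fixes_inner (isClass_of hχ) heN n n' hn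
        change _ = (((Function.update c v 1 v) _ : ℂˣ) : ℂ) * _
        rw [Function.update_self, h5, MonoidHom.one_apply, Units.val_one, one_mul]
      · obtain ⟨e, he, e1, e2⟩ := h v
        refine ⟨e, he, e1, fun n n' hn => ?_⟩
        rw [e2 n n' hn]
        congr 2
        change _ = (Function.update c b 1 v) _
        rw [Function.update_of_ne hv]
    have h3 := congrFun (coc_unique hq hA hφ hχ hr h h2) b
    rw [h3]
    exact Function.update_self _ _ _

end coc

end Run7.h759.DI
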