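import Pool.Agent.Run7.h759.DI.Tws

/-!
# Complemented normal subgroups of prime order: the counts in the central extension (helper759)
-/

set_option autoImplicit false
set_option linter.unusedSectionVars false

open scoped Classical BigOperators

noncomputable section

namespace Run7.h759.DI

open Pool.Agent.Y63.NV (IsClassFun centralValue IsBlock numDzBlock)
open Pool.Agent.Helper884.IC (IsIrrChar IsClass Irr mem_Irr)
open Pool.Agent.Y63.KR (IsPChain chainStabilizer conjSub)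
open Pool.Agent.R674.Tw (Fixes GCh NG NEbar invSum)
open Pool.Agent.Q99.AS (Dft Dft_unique)
open Pool.Agent.N237.DI (Iso2 Proj Inr Blk kS kS_conj rad_kS kdGe_kS)
open Pool.Agent.N20.DI (InvBl kdGe radSum)

section pp

variable {E : Type} [Group E] [Finite E]

/-- the signed sums for a normal `p'`-subgroup -/
theorem al_pp {p : ℕ} [Fact p.Prime] {G : Subgroup E} (hG : ¬ p ∣ Nat.card G)
    (w : Subgroup E → ℤ) : al p G w = w ⊤ := by
  unfold al
  have h0 : ∀ σ : Set (Subgroup E), IsPChain p σ → (∀ P ∈ σ, P ≤ G) → σ = ∅ := by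
    intro σ h1 h2
    rw [Set.eq_empty_iff_forall_notMem]
    intro P hP
    apply h1.ne_bot P hP
    obtain ⟨k, hk⟩ := IsPGroup.iff_card.1 (h1.isPGroup P hP)
    have h3 := Subgroup.card_dvd_of_le (h2 P hP)
    rw [hk] at h3
    rcases Nat.eq_zero_or_pos k with rfl | hk0
    · rw [pow_zero] at hk
      exact Subgroup.card_eq_one.1 hk
    · exact absurd ((dvd_pow_self p hk0.ne').trans h3) hG
  have e0 : IsPChain p (∅ : Set (Subgroup E)) :=
    ⟨fun _ h => absurd h (Set.notMem_empty _), fun _ h => absurd h (Set.notMem_empty _),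
      fun _ h => absurd h (Set.notMem_empty _)⟩
  have h1 : ∀ σ : GCh p G, σ = ⟨∅, e0, fun _ h => absurd h (Set.notMem_empty _)⟩ :=
    fun σ => Subtype.ext (h0 σ.1 σ.2.1 σ.2.2)
  rw [finsum_eq_single _ (⟨∅, e0, fun _ h => absurd h (Set.notMem_empty _)⟩ :
    GCh p G) (fun σ hσ => absurd (h1 σ) hσ)]
  have h2 : chainStabilizer (∅ : Set (Subgroup E)) = ⊤ := by
    unfold chainStabilizer
    simp
  rw [h2, Set.ncard_empty, pow_zero, one_mul]

variable {F : Type} [Field F] (red : integralClosure ℤ ℂ →+* F)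

/-- the unit of the group algebra -/
def dt (F : Type) [Field F] (E : Type) [Group E] : E → F := fun x => if x = 1 then 1 else 0

theorem dt_conj (g x : E) : dt F E (g * x * g⁻¹) = dt F E x := by
  unfold dt
  refine if_congr ?_ rfl rfl
  constructor
  · intro h
    have : x = g⁻¹ * (g * x * g⁻¹) * g := by group
    rw [this, h]
    group
  · rintro rfl
    group

theorem cv_dt {K : Subgroup E} {θ : K → ℂ} (hθ : IsIrrChar θ) :
    centralValue red θ (fun x => dt F E x) = 1 := by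
  have h1 := (Pool.Agent.Y930.NV.cvh F red K θ hθ).one
  have h2 : ∀ f g : K → F, f = g → centralValue red θ g = 1 → centralValue red θ f = 1 := by
    rintro f _ rfl h
    exact h
  refine h2 _ _ ?_ h1
  funext x
  unfold dt
  by_cases hx : x = 1
  · subst hx
    simp
  · have h3 : ¬ ((x : E) = 1) := fun h => hx (Subtype.ext h)
    rw [if_neg h3]
    symm
    unfold Pi.single Function.update
    rw [dif_neg]
    · rfl
    · exact hx

theorem dft_pp {p : ℕ} [Fact p.Prime] {K : Subgroup E} (hK : ¬ p ∣ Nat.card K) {θ : K → ℂ}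
    {d : ℕ} (h : Dft p d θ) : d = 0 := by
  obtain ⟨n, -, h2⟩ := h
  have h3 : (Nat.card K).factorization p = 0 := Nat.factorization_eq_zero_of_not_dvd hK
  omega

end pp

section shift

variable {E U : Type} [Group E] [Finite E] [Group U] {q : E →* U} {A : Subgroup U}
  [hAn : A.Normal] {G : Subgroup E} {F : Type} [Field F] (red : integralClosure ℤ ℂ →+* F)

/-- **shifting the linear characters** -/
theorem yc_shift (p : ℕ) (hG : G ≤ A.comap q) (c c₀ : U → A →* ℂˣ) (D : ℕ) (S : Subgroup E)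
    (ε : ↥(A.comap q ⊓ S) →* ℂˣ)
    (hε : ∀ e ∈ S, ∀ n n' : ↥(A.comap q ⊓ S), (n' : E) = e * n * e⁻¹ →
      ε n' = c₀ (q e) ⟨q n, (Subgroup.mem_inf.1 n.2).1⟩ * ε n) :
    yc p red hG c (dt F E) 1 D S ≤ yc p red hG (c₀ * c) (dt F E) 1 D S := by
  unfold yc
  have _i1 : Fintype ↥(A.comap q ⊓ S) := Fintype.ofFinite _
  have _i2 : Finite {χ : ↥(A.comap q ⊓ S) → ℂ // IsIrrChar χ ∧
    (IsIrrChar (rs (inf_le_inf_right S hG) χ) ∧ Dft p D (rs (inf_le_inf_right S hG) χ) ∧
      Coc q A (c₀ * c) S χ ∧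
        centralValue red (rs (inf_le_inf_right S hG) χ) (fun x => dt F E x) = 1)} :=
    Set.Finite.to_subtype (Pool.Agent.Helper884.IC.irr_finite.subset fun χ h => h.1)
  refine Int.ofNat_le.2 (Nat.card_le_card_of_injective (fun χ => ⟨fun x => ((ε x : ℂˣ) : ℂ) * χ.1 x,
    Pool.Agent.N323.DI.irr_twist χ.2.1 ε, ?_, ?_, ?_, ?_⟩) ?_)
  · exact Pool.Agent.N323.DI.irr_twist χ.2.2.1
      (ε.comp (Subgroup.inclusion (inf_le_inf_right S hG)))
  · obtain ⟨n, h1, h2⟩ := χ.2.2.2.1
    refine ⟨n, ?_, h2⟩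
    rw [← h1]
    change ((ε _ : ℂˣ) : ℂ) * χ.1 _ = χ.1 _
    have h3 : (⟨((1 : ↥(G ⊓ S)) : E), inf_le_inf_right S hG (1 : ↥(G ⊓ S)).2⟩ :
        ↥(A.comap q ⊓ S)) = 1 := rfl
    rw [h3, map_one, Units.val_one, one_mul]
  · intro u
    obtain ⟨e, he, e1, e2⟩ := χ.2.2.2.2.1 u
    refine ⟨e, he, e1, fun n n' hn => ?_⟩
    change ((ε n' : ℂˣ) : ℂ) * χ.1 n' = ((c₀ u _ * c u _ : ℂˣ) : ℂ) * (((ε n : ℂˣ) : ℂ) * χ.1 n)
    rw [hε e he n n' hn, e2 n n' hn, e1, Units.val_mul, Units.val_mul]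
    ring
  · refine cv_dt red ?_
    exact Pool.Agent.N323.DI.irr_twist χ.2.2.1
      (ε.comp (Subgroup.inclusion (inf_le_inf_right S hG)))
  · intro χ χ' h
    apply Subtype.ext
    funext x
    have h1 : ((ε x : ℂˣ) : ℂ) * χ.1 x = ((ε x : ℂˣ) : ℂ) * χ'.1 x :=
      congrFun (congrArg Subtype.val h) x
    exact mul_left_cancel₀ (Units.ne_zero _) h1

end shift

end Run7.h759.DI
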