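import Pool.Agent.Run7.h759.DI.Tws2

/-!
# Complemented normal subgroups of prime order: the central extension (helper759)
-/

set_option autoImplicit false
set_option linter.unusedSectionVars false

open scoped Classical BigOperators

noncomputable section

namespace Run7.h759.DI

open Pool.Agent.Y63.NV (IsClassFun centralValue IsBlock numDzBlock)
open Pool.Agent.Helper884.IC (IsIrrChar IsClass Irr mem_Irr expand)
open Pool.Agent.Y63.KR (IsPChain chainStabilizer conjSub)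
open Pool.Agent.R674.Tw (Fixes GCh NG NEbar invSum)
open Pool.Agent.Q99.AS (Dft Dft_unique)
open Pool.Agent.N237.DI (Iso2 Proj Inr Blk kS kS_conj rad_kS kdGe_kS)
open Pool.Agent.N20.DI (InvBl kdGe radSum)

theorem exists_irr (K : Type) [Group K] [Finite K] : ∃ χ : K → ℂ, IsIrrChar χ := by
  have _i : Fintype K := Fintype.ofFinite K
  by_contra h
  push Not at h
  have h1 : (Irr K) = ∅ := by
    rw [Finset.eq_empty_iff_forall_notMem]
    intro χ hχ
    exact h χ (mem_Irr.1 hχ)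
  have h2 := expand (fun _ : K => (1 : ℂ)) (fun _ _ => rfl)
  rw [h1, Finset.sum_empty] at h2
  exact one_ne_zero (congrFun h2 1)

variable {U : Type} [Group U] [Finite U] (A : Subgroup U) [hAn : A.Normal] {ℓ : ℕ}
  [hl : Fact ℓ.Prime] {p : ℕ} [hp : Fact p.Prime] {F : Type} [Field F]
  (red : integralClosure ℤ ℂ →+* F)

theorem fin_cr (hA : Nat.card A = ℓ) : Finite (Cr A) := by
  have hfinA : Finite A := fin_A hl.out hA
  have hfinD : Finite (A →* ℂˣ) := by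
    apply Nat.finite_of_card_ne_zero
    rw [card_dual hA]
    exact hl.out.ne_zero
  unfold Cr
  infer_instance

theorem card_Z (hA : Nat.card A = ℓ) (hlp : ℓ ≠ p) :
    ¬ p ∣ Nat.card (Cr A → rootsOfUnity ℓ ℂ) := by
  have hf := fin_cr A hA
  have _i : Fintype (Cr A) := Fintype.ofFinite _
  have hz : NeZero ℓ := ⟨hl.out.ne_zero⟩
  rw [Nat.card_fun, Complex.card_rootsOfUnity]
  intro h
  exact hlp ((Nat.prime_dvd_prime_iff_eq hp.out hl.out).1 (hp.out.dvd_of_dvd_pow h)).symm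

section ext

variable {A} (α : Cyc2 (Cr A → rootsOfUnity ℓ ℂ) U)
  (hα : ∀ (c : Cr A) (g : U) (a : A), ((α.f g a c : rootsOfUnity ℓ ℂ) : ℂˣ) = c.1 g a)
  (hα' : ∀ (c : Cr A) (a : A) (g : U), α.f a g c = 1)

include hα' in
/-- the linear characters of the preimage of `A` -/
def eps (c : Cr A) (S : Subgroup (TwG α)) : ↥(A.comap (TwG.q α) ⊓ S) →* ℂˣ where
  toFun x := (x.1.z c : rootsOfUnity ℓ ℂ)
  map_one' := rfl
  map_mul' a b := by
    have h1 : ((a * b : ↥(A.comap (TwG.q α) ⊓ S)) : TwG α).z c =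
        a.1.z c * b.1.z c * α.f a.1.u b.1.u c := rfl
    have h2 : α.f a.1.u b.1.u c = 1 := hα' c ⟨a.1.u, (Subgroup.mem_inf.1 a.2).1⟩ b.1.u
    rw [h1, h2, mul_one]
    rfl

include hα in
theorem eps_conj (c : Cr A) (S : Subgroup (TwG α)) (e : TwG α)
    (n n' : ↥(A.comap (TwG.q α) ⊓ S)) (hn : (n' : TwG α) = e * n * e⁻¹) :
    eps α hα' c S n' = c.1 (TwG.q α e) ⟨TwG.q α n, (Subgroup.mem_inf.1 n.2).1⟩ *
      eps α hα' c S n := by
  have h1 : (n' : TwG α) * e = e * n := by rw [hn]; group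
  have h2 := congrFun (congrArg TwG.z h1) c
  have h3 : n'.1.z c * e.z c * α.f n'.1.u e.u c = e.z c * n.1.z c * α.f e.u n.1.u c := h2
  have h4 : α.f n'.1.u e.u c = 1 := hα' c ⟨n'.1.u, (Subgroup.mem_inf.1 n'.2).1⟩ e.u
  have h5 := hα c e.u ⟨n.1.u, (Subgroup.mem_inf.1 n.2).1⟩
  have h6 : n'.1.z c = α.f e.u n.1.u c * n.1.z c := by
    rw [h4, mul_one] at h3
    have h7 : e.z c * n'.1.z c = e.z c * (α.f e.u n.1.u c * n.1.z c) := by
      rw [mul_comm, h3, mul_assoc, mul_comm (n.1.z c)]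
    exact mul_left_cancel h7
  change ((n'.1.z c : rootsOfUnity ℓ ℂ) : ℂˣ) = c.1 e.u ⟨n.1.u, _⟩ * (n.1.z c : rootsOfUnity ℓ ℂ)
  rw [h6, ← h5]
  rfl

include hα hα' in
/-- all crossed homomorphisms occur equally often -/
theorem yc_cr [Finite (TwG α)] (D : ℕ) (S : Subgroup (TwG α)) {c : U → A →* ℂˣ} (hc : IsCr A c) :
    yc p red (G_le A (rfl : (TwG.q α).ker = _)) c (dt F (TwG α)) 1 D S =
      yc p red (G_le A (rfl : (TwG.q α).ker = _)) 1 (dt F (TwG α)) 1 D S := by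
  have h1 := yc_shift red p (G_le A (rfl : (TwG.q α).ker = _)) 1 c D S (eps α hα' ⟨c, hc⟩ S)
    (fun e _ n n' hn => eps_conj α hα hα' ⟨c, hc⟩ S e n n' hn)
  have h2 := yc_shift red p (G_le A (rfl : (TwG.q α).ker = _)) c c⁻¹ D S
    (eps α hα' ⟨c⁻¹, hc.inv⟩ S)
    (fun e _ n n' hn => eps_conj α hα hα' ⟨c⁻¹, hc.inv⟩ S e n n' hn)
  have e1 : c * 1 = c := by
    funext u
    exact dm_one (c u)
  have e2 : c⁻¹ * c = 1 := by
    funext u
    exact MonoidHom.ext fun x => inv_mul_cancel (c u x)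
  rw [e1] at h1
  rw [e2] at h2
  exact le_antisymm h2 h1

/-- there are invariant characters -/
theorem xc_pos [Finite (TwG α)] (hG : ¬ p ∣ Nat.card (TwG.q α).ker) :
    xc p red (TwG.q α).ker (TwG.q α) ⊤ (dt F (TwG α)) 1 0 ⊤ ≠ 0 := by
  unfold xc xk
  rw [Nat.cast_ne_zero]
  obtain ⟨χ, hχ⟩ := exists_irr ↥((TwG.q α).ker ⊓ ⊤)
  have _i1 : Fintype ↥((TwG.q α).ker ⊓ ⊤) := Fintype.ofFinite _
  have hfin : Finite {χ : ↥((TwG.q α).ker ⊓ ⊤) → ℂ // IsIrrChar χ ∧ (Dft p 0 χ ∧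
      Inq (TwG.q α) ⊤ ⊤ χ ∧ centralValue red χ (fun x => dt F (TwG α) x) = 1)} :=
    Set.Finite.to_subtype (Pool.Agent.Helper884.IC.irr_finite.subset fun χ h => h.1)
  have hne : Nonempty {χ : ↥((TwG.q α).ker ⊓ ⊤) → ℂ // IsIrrChar χ ∧ (Dft p 0 χ ∧
      Inq (TwG.q α) ⊤ ⊤ χ ∧ centralValue red χ (fun x => dt F (TwG α) x) = 1)} := by
    refine ⟨⟨χ, hχ, ?_, ?_, cv_dt red hχ⟩⟩
    · obtain ⟨d, hd⟩ := Pool.Agent.Q99.AS.Dft_exists p hχ
      have h1 : ¬ p ∣ Nat.card ↥((TwG.q α).ker ⊓ ⊤) := by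
        rwa [inf_top_eq]
      have h2 := dft_pp h1 hd
      rwa [h2] at hd
    · intro u _
      refine ⟨⟨1, u⟩, Subgroup.mem_top _, rfl, fun n n' hn => ?_⟩
      have h1 : n' = n := by
        apply Subtype.ext
        have h2 : (n' : TwG α) * ⟨1, u⟩ = ⟨1, u⟩ * n := by rw [hn]; group
        have hn1 : (n : TwG α).u = 1 := (Subgroup.mem_inf.1 n.2).1
        have hn2 : (n' : TwG α).u = 1 := (Subgroup.mem_inf.1 n'.2).1
        have h3 := congrArg TwG.z h2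
        rw [TwG.mul_z, TwG.mul_z] at h3
        change (n' : TwG α).z * 1 * α.f (n' : TwG α).u u = 1 * (n : TwG α).z *
          α.f u (n : TwG α).u at h3
        rw [hn1, hn2, α.ol, α.or, mul_one, mul_one, mul_one, one_mul] at h3
        exact TwG.ext' h3 (hn2.trans hn1.symm)
      rw [h1]
  exact Nat.card_pos.ne'

end ext

end Run7.h759.DI
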