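import Pool.Agent.Run7.h759.DI.Ab5
import Pool.Agent.Run7.h759.DI.Cen

/-!
# Extensions of products of characters to fibre products (helper759)
-/

set_option autoImplicit false
set_option linter.unusedSectionVars false

open scoped Classical BigOperators

noncomputable section

namespace Run7.h759.DI

open Pool.Agent.Helper884.IC (IsIrrChar IsClass Irr mem_Irr B B_irr expand B_sum_left B_smul_left
  B_comm isClass_char)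
open Pool.Agent.Y63.AWC (res mult mult_spec mult_exists irr_comp)
open Pool.Agent.R674.Tw (Fixes)
open Pool.Agent.Q99.AS (ten ten_irr)
open Pool.Agent.Q90.WR (B_nat irr_comp_iff)

section irr

variable {X : Type} [Group X] [Fintype X] (M : Subgroup X) [hM : M.Normal]

/-- a combination of characters whose restriction is irreducible is irreducible -/
theorem irr_of_nat {f : X → ℂ} (hcl : IsClass f)
    (hnat : ∀ ψ : X → ℂ, IsIrrChar ψ → ∃ n : ℕ, B f ψ = n) (hr : IsIrrChar (res M f)) :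
    IsIrrChar f := by
  choose! n hn using hnat
  have hexp : f = ∑ ψ ∈ Irr X, (n ψ : ℂ) • ψ := by
    conv_lhs => rw [expand f hcl]
    exact Finset.sum_congr rfl fun ψ hψ => by rw [hn ψ (mem_Irr.1 hψ)]
  have hres : ∀ θ : M → ℂ, IsIrrChar θ → B (res M f) θ =
      ((∑ ψ ∈ Irr X, n ψ * mult M ψ θ : ℕ) : ℂ) := by
    intro θ hθ
    have h1 : res M f = ∑ ψ ∈ Irr X, (n ψ : ℂ) • res M ψ := by
      conv_lhs => rw [hexp]
      funext m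
      simp only [res, Finset.sum_apply, Pi.smul_apply]
    rw [h1, B_sum_left]
    push_cast
    refine Finset.sum_congr rfl fun ψ hψ => ?_
    rw [B_smul_left, mult_spec M (mem_Irr.1 hψ) hθ]
  have h1 : ∑ ψ ∈ Irr X, n ψ * mult M ψ (res M f) = 1 := by
    have h2 := hres _ hr
    rw [B_irr hr hr, if_pos rfl] at h2
    exact_mod_cast h2.symm
  have h2 : ∀ θ : M → ℂ, IsIrrChar θ → θ ≠ res M f → ∀ ψ ∈ Irr X, n ψ * mult M ψ θ = 0 := by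
    intro θ hθ hne ψ hψ
    have h3 := hres _ hθ
    rw [B_irr hr hθ, if_neg (Ne.symm hne)] at h3
    have h4 : ∑ ψ ∈ Irr X, n ψ * mult M ψ θ = 0 := by exact_mod_cast h3.symm
    exact Finset.sum_eq_zero_iff.1 h4 ψ hψ
  obtain ⟨ψ, hψ, hψ1⟩ : ∃ ψ ∈ Irr X, n ψ * mult M ψ (res M f) ≠ 0 := by
    by_contra h
    push Not at h
    rw [Finset.sum_eq_zero h] at h1
    exact zero_ne_one h1
  have h3 : n ψ * mult M ψ (res M f) = 1 := by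
    refine le_antisymm ?_ (Nat.pos_of_ne_zero hψ1)
    rw [← h1]
    exact Finset.single_le_sum (f := fun ψ => n ψ * mult M ψ (res M f))
      (fun _ _ => Nat.zero_le _) hψ
  have h4 : ∀ ψ' ∈ Irr X, ψ' ≠ ψ → n ψ' = 0 := by
    intro ψ' hψ' hne
    obtain ⟨θ, hθ, hm⟩ := mult_exists M (mem_Irr.1 hψ')
    have h5 : n ψ' * mult M ψ' θ = 0 := by
      by_cases h6 : θ = res M f
      · rw [h6]
        by_contra h7
        have h8 : n ψ * mult M ψ (res M f) + n ψ' * mult M ψ' (res M f) ≤ 1 := by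
          rw [← h1, ← Finset.sum_pair (f := fun ψ => n ψ * mult M ψ (res M f)) (Ne.symm hne)]
          refine Finset.sum_le_sum_of_subset ?_
          intro x hx
          rcases Finset.mem_insert.1 hx with rfl | hx
          · exact hψ
          · rw [Finset.mem_singleton.1 hx]
            exact hψ'
        have h9 := Nat.pos_of_ne_zero h7
        omega
      · exact h2 θ hθ h6 ψ' hψ'
    exact (Nat.mul_eq_zero.1 h5).resolve_right hm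
  have h5 : n ψ = 1 := Nat.dvd_one.1 (Dvd.intro _ h3)
  have h6 : f = ψ := by
    rw [hexp, Finset.sum_eq_single ψ (fun ψ' hψ' hne => by
      rw [h4 ψ' hψ' hne, Nat.cast_zero, zero_smul]) (fun h => absurd hψ h), h5, Nat.cast_one,
      one_smul]
  rw [h6]
  exact mem_Irr.1 hψ

end irr

section

variable {E U : Type} [Group E] [Group U] (q : E →* U) (A : Subgroup U)

/-- the fibre product of the groups `N ∩ S₁` and `N ∩ S₂` -/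
abbrev JJ (S₁ S₂ : Subgroup E) : Subgroup ↥(fpG q q) :=
  A.comap (fpq q q) ⊓ (S₁.prod S₂).comap (fpG q q).subtype

/-- an element of the fibre product -/
def mkJ {S₁ S₂ : Subgroup E} (x y : E) (h : q x = q y) (hA : q x ∈ A) (h₁ : x ∈ S₁)
    (h₂ : y ∈ S₂) : ↥(JJ q A S₁ S₂) :=
  ⟨⟨(x, y), h⟩, Subgroup.mem_inf.2 ⟨hA, h₁, h₂⟩⟩

/-- the components -/
def j1 {S₁ S₂ : Subgroup E} (g : ↥(JJ q A S₁ S₂)) : E := g.1.1.1

def j2 {S₁ S₂ : Subgroup E} (g : ↥(JJ q A S₁ S₂)) : E := g.1.1.2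

theorem j_eq {S₁ S₂ : Subgroup E} (g : ↥(JJ q A S₁ S₂)) : q (j1 q A g) = q (j2 q A g) := g.1.2

theorem j1A {S₁ S₂ : Subgroup E} (g : ↥(JJ q A S₁ S₂)) : q (j1 q A g) ∈ A :=
  (Subgroup.mem_inf.1 g.2).1

theorem j1S {S₁ S₂ : Subgroup E} (g : ↥(JJ q A S₁ S₂)) : j1 q A g ∈ S₁ :=
  (Subgroup.mem_inf.1 g.2).2.1

theorem j2S {S₁ S₂ : Subgroup E} (g : ↥(JJ q A S₁ S₂)) : j2 q A g ∈ S₂ :=
  (Subgroup.mem_inf.1 g.2).2.2

theorem j_ext {S₁ S₂ : Subgroup E} {g h : ↥(JJ q A S₁ S₂)} (h1 : j1 q A g = j1 q A h)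
    (h2 : j2 q A g = j2 q A h) : g = h :=
  Subtype.ext (Subtype.ext (Prod.ext h1 h2))

theorem j1_mul {S₁ S₂ : Subgroup E} (g h : ↥(JJ q A S₁ S₂)) :
    j1 q A (g * h) = j1 q A g * j1 q A h := rfl

theorem j2_mul {S₁ S₂ : Subgroup E} (g h : ↥(JJ q A S₁ S₂)) :
    j2 q A (g * h) = j2 q A g * j2 q A h := rfl

theorem j1_inv {S₁ S₂ : Subgroup E} (g : ↥(JJ q A S₁ S₂)) : j1 q A g⁻¹ = (j1 q A g)⁻¹ := rfl

theorem j2_inv {S₁ S₂ : Subgroup E} (g : ↥(JJ q A S₁ S₂)) : j2 q A g⁻¹ = (j2 q A g)⁻¹ := rfl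

/-- `F` is an extension of `θ₁ × θ₂⁻` to the fibre product -/
structure Xd {G S₁ S₂ : Subgroup E} (θ₁ : ↥(G ⊓ S₁) → ℂ) (θ₂ : ↥(G ⊓ S₂) → ℂ)
    (F : E → E → ℂ) : Prop where
  supp : ∀ x y, F x y ≠ 0 → (x ∈ S₁ ∧ q x ∈ A) ∧ y ∈ S₂ ∧ q x = q y
  irr : IsIrrChar (fun g : ↥(JJ q A S₁ S₂) => F (j1 q A g) (j2 q A g))
  rsn : ∀ (h₁ : ↥(G ⊓ S₁)) (h₂ : ↥(G ⊓ S₂)), F h₁ h₂ = θ₁ h₁ * θ₂ h₂⁻¹

/-- invariance under conjugation -/
def Xv (R₁ R₂ : Set E) (F : E → E → ℂ) : Prop :=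
  ∀ s₁ ∈ R₁, ∀ s₂ ∈ R₂, q s₁ = q s₂ → ∀ x y, F (s₁ * x * s₁⁻¹) (s₂ * y * s₂⁻¹) = F x y

/-- convolution -/
def cnv [Fintype E] (G S : Subgroup E) (F₁ F₂ : E → E → ℂ) : E → E → ℂ :=
  fun x z => (Nat.card ↥(G ⊓ S) : ℂ)⁻¹ * ∑ y : E, F₁ x y * F₂ y z

variable {q A}

theorem cnv_inv [Fintype E] (G S : Subgroup E) {F₁ F₂ : E → E → ℂ} {R₁ R₂ R₃ : Set E}
    (h1 : Xv q R₁ R₂ F₁) (h2 : Xv q R₂ R₃ F₂) (h : ∀ s ∈ R₁, ∃ t ∈ R₂, q s = q t) :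
    Xv q R₁ R₃ (cnv G S F₁ F₂) := by
  intro s₁ hs₁ s₃ hs₃ he x z
  obtain ⟨s₂, hs₂, he₂⟩ := h s₁ hs₁
  unfold cnv
  congr 1
  symm
  refine Fintype.sum_equiv (MulAut.conj s₂).toEquiv _ _ fun y => ?_
  change F₁ x y * F₂ y z = F₁ (s₁ * x * s₁⁻¹) (s₂ * y * s₂⁻¹) *
    F₂ (s₂ * y * s₂⁻¹) (s₃ * z * s₃⁻¹)
  rw [h1 s₁ hs₁ s₂ hs₂ he₂, h2 s₂ hs₂ s₃ hs₃ (he₂.symm.trans he)]

/-- an extension is a class function -/
theorem Xd.cls [Finite E] {G S₁ S₂ : Subgroup E} [hAn : A.Normal] {θ₁ : ↥(G ⊓ S₁) → ℂ}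
    {θ₂ : ↥(G ⊓ S₂) → ℂ} {F : E → E → ℂ} (h : Xd q A θ₁ θ₂ F) :
    Xv q (A.comap q ⊓ S₁ : Subgroup E) (A.comap q ⊓ S₂ : Subgroup E) F := by
  intro s₁ hs₁ s₂ hs₂ he x y
  obtain ⟨hs₁A, hs₁S⟩ := Subgroup.mem_inf.1 hs₁
  obtain ⟨hs₂A, hs₂S⟩ := Subgroup.mem_inf.1 hs₂
  by_cases hx : (x ∈ S₁ ∧ q x ∈ A) ∧ y ∈ S₂ ∧ q x = q y
  · obtain ⟨⟨hx1, hx2⟩, hy1, hy2⟩ := hx
    exact isClass_of h.irr (mkJ q A x y hy2 hx2 hx1 hy1) (mkJ q A s₁ s₂ he hs₁A hs₁S hs₂S)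
  · have h1 : F x y = 0 := by
      by_contra h2
      exact hx (h.supp x y h2)
    rw [h1]
    by_contra h2
    apply hx
    obtain ⟨⟨a, b⟩, c, d⟩ := h.supp _ _ h2
    refine ⟨⟨?_, ?_⟩, ?_, ?_⟩
    · have := S₁.mul_mem (S₁.mul_mem (S₁.inv_mem hs₁S) a) hs₁S
      have e : s₁⁻¹ * (s₁ * x * s₁⁻¹) * s₁ = x := by group
      rwa [e] at this
    · have := hAn.conj_mem _ b (q s₁)⁻¹
      have e : (q s₁)⁻¹ * q (s₁ * x * s₁⁻¹) * (q s₁)⁻¹⁻¹ = q x := by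
        rw [map_mul, map_mul, map_inv]
        group
      rwa [e] at this
    · have := S₂.mul_mem (S₂.mul_mem (S₂.inv_mem hs₂S) c) hs₂S
      have e : s₂⁻¹ * (s₂ * y * s₂⁻¹) * s₂ = y := by group
      rwa [e] at this
    · rw [map_mul, map_mul, map_mul, map_mul, map_inv, map_inv, he] at d
      exact mul_left_cancel (mul_right_cancel d)

/-- the triple fibre product -/
def T3 (q : E →* U) (A : Subgroup U) (S₁ S₂ S₃ : Subgroup E) : Subgroup (E × E × E) where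
  carrier := {t | (t.1 ∈ S₁ ∧ q t.1 ∈ A) ∧ (t.2.1 ∈ S₂ ∧ q t.1 = q t.2.1) ∧
    (t.2.2 ∈ S₃ ∧ q t.2.1 = q t.2.2)}
  one_mem' := ⟨⟨S₁.one_mem, by
    change q 1 ∈ A
    rw [map_one]
    exact A.one_mem⟩, ⟨S₂.one_mem, rfl⟩, S₃.one_mem, rfl⟩
  mul_mem' := by
    rintro a b ⟨⟨a1, a2⟩, ⟨a3, a4⟩, a5, a6⟩ ⟨⟨b1, b2⟩, ⟨b3, b4⟩, b5, b6⟩
    refine ⟨⟨S₁.mul_mem a1 b1, ?_⟩, ⟨S₂.mul_mem a3 b3, ?_⟩, S₃.mul_mem a5 b5, ?_⟩
    · change q (a.1 * b.1) ∈ A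
      rw [map_mul]
      exact A.mul_mem a2 b2
    · change q (a.1 * b.1) = q (a.2.1 * b.2.1)
      rw [map_mul, map_mul, a4, b4]
    · change q (a.2.1 * b.2.1) = q (a.2.2 * b.2.2)
      rw [map_mul, map_mul, a6, b6]
  inv_mem' := by
    rintro a ⟨⟨a1, a2⟩, ⟨a3, a4⟩, a5, a6⟩
    refine ⟨⟨S₁.inv_mem a1, ?_⟩, ⟨S₂.inv_mem a3, ?_⟩, S₃.inv_mem a5, ?_⟩
    · change q a.1⁻¹ ∈ A
      rw [map_inv]
      exact A.inv_mem a2
    · change q a.1⁻¹ = q a.2.1⁻¹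
      rw [map_inv, map_inv, a4]
    · change q a.2.1⁻¹ = q a.2.2⁻¹
      rw [map_inv, map_inv, a6]

variable {S₁ S₂ S₃ : Subgroup E}

def t12 : ↥(T3 q A S₁ S₂ S₃) →* ↥(JJ q A S₁ S₂) where
  toFun t := mkJ q A t.1.1 t.1.2.1 t.2.2.1.2 t.2.1.2 t.2.1.1 t.2.2.1.1
  map_one' := rfl
  map_mul' _ _ := rfl

def t23 : ↥(T3 q A S₁ S₂ S₃) →* ↥(JJ q A S₂ S₃) where
  toFun t := mkJ q A t.1.2.1 t.1.2.2 t.2.2.2.2 (by rw [← t.2.2.1.2]; exact t.2.1.2) t.2.2.1.1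
    t.2.2.2.1
  map_one' := rfl
  map_mul' _ _ := rfl

def t13 : ↥(T3 q A S₁ S₂ S₃) →* ↥(JJ q A S₁ S₃) where
  toFun t := mkJ q A t.1.1 t.1.2.2 (t.2.2.1.2.trans t.2.2.2.2) t.2.1.2 t.2.1.1 t.2.2.2.1
  map_one' := rfl
  map_mul' _ _ := rfl

theorem t13_surj (h₂ : ∀ a ∈ A, ∃ e ∈ S₂, q e = a) :
    Function.Surjective (t13 (q := q) (A := A) (S₁ := S₁) (S₂ := S₂) (S₃ := S₃)) := by
  intro g
  obtain ⟨y, hy, hy'⟩ := h₂ _ (j1A q A g)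
  exact ⟨⟨(j1 q A g, y, j2 q A g), ⟨j1S q A g, j1A q A g⟩, ⟨hy, hy'.symm⟩, j2S q A g,
    hy'.trans (j_eq q A g)⟩, rfl⟩

theorem card_T3 [Finite E] {G : Subgroup E} (hq : q.ker = G) (h₂ : ∀ a ∈ A, ∃ e ∈ S₂, q e = a) :
    Nat.card ↥(T3 q A S₁ S₂ S₃) = Nat.card ↥(G ⊓ S₂) * Nat.card ↥(JJ q A S₁ S₃) := by
  have h1 := Subgroup.card_mul_index
    (t13 (q := q) (A := A) (S₁ := S₁) (S₂ := S₂) (S₃ := S₃)).ker
  rw [Subgroup.index_ker, MonoidHom.range_eq_top.2 (t13_surj h₂), Subgroup.card_top] at h1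
  rw [← h1]
  congr 1
  refine Nat.card_congr
    { toFun := fun t => ⟨t.1.1.2.1, Subgroup.mem_inf.2 ⟨?_, t.1.2.2.1.1⟩⟩
      invFun := fun y => ⟨⟨(1, y.1, 1), ⟨S₁.one_mem, by
          change q 1 ∈ A
          rw [map_one]
          exact A.one_mem⟩, ⟨(Subgroup.mem_inf.1 y.2).2, ?_⟩, S₃.one_mem, ?_⟩, rfl⟩
      left_inv := fun t => ?_
      right_inv := fun y => rfl }
  · have h2 : j1 q A (t13 t.1) = 1 := congrArg (j1 q A) (MonoidHom.mem_ker.1 t.2)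
    rw [mem_G hq, ← t.1.2.2.1.2]
    change q (j1 q A (t13 t.1)) = 1
    rw [h2, map_one]
  · change q 1 = q y.1
    rw [map_one, (mem_G hq).1 (Subgroup.mem_inf.1 y.2).1]
  · change q y.1 = q 1
    rw [map_one, (mem_G hq).1 (Subgroup.mem_inf.1 y.2).1]
  · apply Subtype.ext
    apply Subtype.ext
    have h2 : j1 q A (t13 t.1) = 1 := congrArg (j1 q A) (MonoidHom.mem_ker.1 t.2)
    have h3 : j2 q A (t13 t.1) = 1 := congrArg (j2 q A) (MonoidHom.mem_ker.1 t.2)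
    exact Prod.ext h2.symm (Prod.ext rfl h3.symm)

/-- the inner products of a convolution with irreducible characters -/
theorem cnv_nat [Fintype E] {G : Subgroup E} (hq : q.ker = G)
    (h₂ : ∀ a ∈ A, ∃ e ∈ S₂, q e = a)
    {θ₁ : ↥(G ⊓ S₁) → ℂ} {θ₂ : ↥(G ⊓ S₂) → ℂ} {θ₃ : ↥(G ⊓ S₃) → ℂ} {F₁ F₂ : E → E → ℂ}
    (h1 : Xd q A θ₁ θ₂ F₁) (h2 : Xd q A θ₂ θ₃ F₂) [Fintype ↥(JJ q A S₁ S₃)]
    {ω : ↥(JJ q A S₁ S₃) → ℂ} (hω : IsIrrChar ω) :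
    ∃ n : ℕ, B (fun g : ↥(JJ q A S₁ S₃) => cnv G S₂ F₁ F₂ (j1 q A g) (j2 q A g)) ω = n := by
  have _i1 : Fintype ↥(JJ q A S₁ S₂) := Fintype.ofFinite _
  have _i2 : Fintype ↥(JJ q A S₂ S₃) := Fintype.ofFinite _
  have _i3 : Fintype ↥(T3 q A S₁ S₂ S₃) := Fintype.ofFinite _
  obtain ⟨V, _, _, _, ρ, -, e1⟩ := ten_irr h1.irr h2.irr
  obtain ⟨W, _, _, _, σ, -, e2⟩ := hω
  obtain ⟨n, hn⟩ := B_nat (ρ.comp (t12.prod t23)) (σ.comp (t13 (q := q) (A := A) (S₁ := S₁)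
    (S₂ := S₂) (S₃ := S₃)))
  refine ⟨n, ?_⟩
  rw [← hn]
  have c1 : ∀ t : ↥(T3 q A S₁ S₂ S₃), Representation.character (ρ.comp (t12.prod t23)) t =
      F₁ t.1.1 t.1.2.1 * F₂ t.1.2.1 t.1.2.2 := by
    intro t
    change ρ.character (t12 t, t23 t) = _
    rw [← e1]
    rfl
  have c2 : ∀ t : ↥(T3 q A S₁ S₂ S₃), Representation.character (σ.comp (t13 (q := q) (A := A)
      (S₁ := S₁) (S₂ := S₂) (S₃ := S₃))) t = ω (t13 t) := by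
    intro t
    change σ.character (t13 t) = _
    rw [← e2]
  unfold B
  rw [card_T3 hq h₂]
  have hH : (Nat.card ↥(G ⊓ S₂) : ℂ) ≠ 0 := Pool.Agent.Helper884.IC.cardG_ne
  -- the extension of `ω` by zero
  let Ω : E → E → ℂ := fun x z => if h : (x ∈ S₁ ∧ q x ∈ A) ∧ z ∈ S₃ ∧ q x = q z then
    ω (mkJ q A x z h.2.2 h.1.2 h.1.1 h.2.1)⁻¹ else 0
  have hΩ : ∀ g : ↥(JJ q A S₁ S₃), Ω (j1 q A g) (j2 q A g) = ω g⁻¹ := fun g =>
    dif_pos ⟨⟨j1S q A g, j1A q A g⟩, j2S q A g, j_eq q A g⟩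
  have hΩ0 : ∀ x z, ¬ ((x ∈ S₁ ∧ q x ∈ A) ∧ z ∈ S₃ ∧ q x = q z) → Ω x z = 0 := fun x z h =>
    dif_neg h
  have s1 : ∑ g : ↥(JJ q A S₁ S₃), cnv G S₂ F₁ F₂ (j1 q A g) (j2 q A g) * ω g⁻¹ =
      ∑ p : E × E, cnv G S₂ F₁ F₂ p.1 p.2 * Ω p.1 p.2 := by
    refine Fintype.sum_of_injective (fun g : ↥(JJ q A S₁ S₃) => (j1 q A g, j2 q A g))
      (fun g h e => j_ext q A (congrArg Prod.fst e) (congrArg Prod.snd e)) _ _ ?_ ?_
    · rintro ⟨x, z⟩ hxz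
      change _ * Ω x z = 0
      rw [hΩ0, mul_zero]
      rintro ⟨⟨a, b⟩, c, d⟩
      exact hxz ⟨mkJ q A x z d b a c, rfl⟩
    · intro g
      change _ = _ * Ω (j1 q A g) (j2 q A g)
      rw [hΩ]
  have s2 : ∑ t : ↥(T3 q A S₁ S₂ S₃), Representation.character (ρ.comp (t12.prod t23)) t *
      Representation.character (σ.comp (t13 (q := q) (A := A) (S₁ := S₁) (S₂ := S₂)
        (S₃ := S₃))) t⁻¹ =
      ∑ t : E × E × E, F₁ t.1 t.2.1 * F₂ t.2.1 t.2.2 * Ω t.1 t.2.2 := by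
    refine Fintype.sum_of_injective (fun t : ↥(T3 q A S₁ S₂ S₃) => (t : E × E × E))
      Subtype.val_injective _ _ ?_ ?_
    · rintro ⟨x, y, z⟩ ht
      change F₁ x y * F₂ y z * Ω x z = 0
      by_contra hne
      apply ht
      have k1 : F₁ x y ≠ 0 := fun h => hne (by rw [h]; ring)
      have k2 : F₂ y z ≠ 0 := fun h => hne (by rw [h]; ring)
      obtain ⟨a, b, c⟩ := h1.supp x y k1
      obtain ⟨-, b', c'⟩ := h2.supp y z k2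
      exact ⟨⟨(x, y, z), a, ⟨b, c⟩, b', c'⟩, rfl⟩
    · intro t
      rw [c1, c2]
      congr 1
      change _ = Ω (j1 q A (t13 t)) (j2 q A (t13 t))
      rw [hΩ, map_inv]
  rw [s1, s2, Fintype.sum_prod_type, Fintype.sum_prod_type]
  have s3 : ∀ x : E, ∑ p : E × E, F₁ x p.1 * F₂ p.1 p.2 * Ω x p.2 =
      ∑ z : E, (∑ y : E, F₁ x y * F₂ y z) * Ω x z := by
    intro x
    rw [Fintype.sum_prod_type, Finset.sum_comm]
    exact Finset.sum_congr rfl fun z _ => by rw [Finset.sum_mul]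
  rw [Finset.sum_congr rfl fun x _ => s3 x]
  unfold cnv
  push_cast
  rw [mul_inv, mul_assoc, mul_comm ((Nat.card ↥(G ⊓ S₂) : ℂ)⁻¹), mul_assoc, Finset.sum_mul]
  congr 1
  refine Finset.sum_congr rfl fun x _ => ?_
  rw [Finset.sum_mul]
  refine Finset.sum_congr rfl fun z _ => ?_
  ring

end

end Run7.h759.DI
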