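import Pool.Agent.Run7.h759.DI.Xd1

/-!
# Extensions to fibre products: convolution and symmetry (helper759)
-/

set_option autoImplicit false
set_option linter.unusedSectionVars false

open scoped Classical BigOperators

noncomputable section

namespace Run7.h759.DI

open Pool.Agent.Helper884.IC (IsIrrChar IsClass Irr mem_Irr B B_irr)
open Pool.Agent.Y63.AWC (res mult mult_spec mult_exists irr_comp)
open Pool.Agent.R674.Tw (Fixes)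
open Pool.Agent.Q99.AS (ten ten_irr)

variable {E U : Type} [Group E] [Group U] {q : E →* U} {A : Subgroup U} {G S₁ S₂ S₃ : Subgroup E}

/-- the product of `θ₁` and of the contragredient of `θ₂` -/
def th (hq : q.ker = G) (θ₁ : ↥(G ⊓ S₁) → ℂ) (θ₂ : ↥(G ⊓ S₂) → ℂ) :
    ↥((fpq q q).ker ⊓ (S₁.prod S₂).comap (fpG q q).subtype) → ℂ :=
  fun x => ten θ₁ (dl θ₂) (((fp_FP q q).iso2 rfl hq hq).eqv S₁ S₂ x)

theorem th_apply (hq : q.ker = G) (θ₁ : ↥(G ⊓ S₁) → ℂ) (θ₂ : ↥(G ⊓ S₂) → ℂ)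
    (x : ↥((fpq q q).ker ⊓ (S₁.prod S₂).comap (fpG q q).subtype)) (h₁ : ↥(G ⊓ S₁))
    (h₂ : ↥(G ⊓ S₂)) (e₁ : x.1.1.1 = h₁) (e₂ : x.1.1.2 = h₂) :
    th hq θ₁ θ₂ x = θ₁ h₁ * θ₂ h₂⁻¹ := by
  have a1 : (((fp_FP q q).iso2 rfl hq hq).eqv S₁ S₂ x).1 = h₁ := Subtype.ext e₁
  have a2 : (((fp_FP q q).iso2 rfl hq hq).eqv S₁ S₂ x).2 = h₂ := Subtype.ext e₂
  unfold th ten dl
  rw [a1, a2]

theorem th_irr [Finite E] (hq : q.ker = G) {θ₁ : ↥(G ⊓ S₁) → ℂ} {θ₂ : ↥(G ⊓ S₂) → ℂ}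
    (h₁ : IsIrrChar θ₁) (h₂ : IsIrrChar θ₂) : IsIrrChar (th hq θ₁ θ₂) := by
  have _i1 : Fintype ↥(G ⊓ S₁) := Fintype.ofFinite _
  have _i2 : Fintype ↥(G ⊓ S₂) := Fintype.ofFinite _
  exact irr_comp (((fp_FP q q).iso2 rfl hq hq).eqv S₁ S₂) (ten_irr h₁ (dl_irr h₂))

/-- the elements of the kernel -/
theorem mem_1 (hq : q.ker = G) (x : ↥((fpq q q).ker ⊓ (S₁.prod S₂).comap (fpG q q).subtype)) :
    x.1.1.1 ∈ G ⊓ S₁ :=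
  Subgroup.mem_inf.2 ⟨(mem_G hq).2 (MonoidHom.mem_ker.1 (Subgroup.mem_inf.1 x.2).1),
    (Subgroup.mem_inf.1 x.2).2.1⟩

theorem mem_2 (hq : q.ker = G) (x : ↥((fpq q q).ker ⊓ (S₁.prod S₂).comap (fpG q q).subtype)) :
    x.1.1.2 ∈ G ⊓ S₂ := by
  refine Subgroup.mem_inf.2 ⟨(mem_G hq).2 ?_, (Subgroup.mem_inf.1 x.2).2.2⟩
  have h : q x.1.1.1 = q x.1.1.2 := x.1.2
  rw [← h]
  exact MonoidHom.mem_ker.1 (Subgroup.mem_inf.1 x.2).1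

theorem xd_rs [A.Normal] (hq : q.ker = G) {θ₁ : ↥(G ⊓ S₁) → ℂ} {θ₂ : ↥(G ⊓ S₂) → ℂ} {F : E → E → ℂ}
    (h : ∀ (h₁ : ↥(G ⊓ S₁)) (h₂ : ↥(G ⊓ S₂)), F h₁ h₂ = θ₁ h₁ * θ₂ h₂⁻¹) :
    rs (HK (A := A) (rfl : (fpq q q).ker = _))
      (fun g : ↥(JJ q A S₁ S₂) => F (j1 q A g) (j2 q A g)) = th hq θ₁ θ₂ := by
  funext x
  rw [th_apply hq θ₁ θ₂ x ⟨_, mem_1 hq x⟩ ⟨_, mem_2 hq x⟩ rfl rfl, ← h]
  rfl

/-- **convolution of extensions** -/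
theorem cnv_xd [Fintype E] [A.Normal] (hq : q.ker = G) (h₂ : ∀ a ∈ A, ∃ e ∈ S₂, q e = a)
    {θ₁ : ↥(G ⊓ S₁) → ℂ} {θ₂ : ↥(G ⊓ S₂) → ℂ} {θ₃ : ↥(G ⊓ S₃) → ℂ} {F₁ F₂ : E → E → ℂ}
    (i₁ : IsIrrChar θ₁) (i₂ : IsIrrChar θ₂) (i₃ : IsIrrChar θ₃)
    (h1 : Xd q A θ₁ θ₂ F₁) (h2 : Xd q A θ₂ θ₃ F₂) : Xd q A θ₁ θ₃ (cnv G S₂ F₁ F₂) := by
  have hrsn : ∀ (k₁ : ↥(G ⊓ S₁)) (k₃ : ↥(G ⊓ S₃)),
      cnv G S₂ F₁ F₂ k₁ k₃ = θ₁ k₁ * θ₃ k₃⁻¹ := by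
    intro k₁ k₃
    have _i : Fintype ↥(G ⊓ S₂) := Fintype.ofFinite _
    have hH : (Nat.card ↥(G ⊓ S₂) : ℂ) ≠ 0 := Pool.Agent.Helper884.IC.cardG_ne
    have e1 : ∑ y : E, F₁ k₁ y * F₂ y k₃ =
        ∑ y : ↥(G ⊓ S₂), (θ₁ k₁ * θ₃ k₃⁻¹) * (θ₂ y * θ₂ y⁻¹) := by
      symm
      refine Fintype.sum_of_injective (fun y : ↥(G ⊓ S₂) => (y : E)) Subtype.val_injective _ _
        ?_ ?_
      · intro y hy
        by_contra hne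
        apply hy
        have k1 : F₁ k₁ y ≠ 0 := fun h => hne (by rw [h]; ring)
        obtain ⟨-, b, c⟩ := h1.supp _ _ k1
        refine ⟨⟨y, Subgroup.mem_inf.2 ⟨(mem_G hq).2 ?_, b⟩⟩, rfl⟩
        rw [← c]
        exact (mem_G hq).1 (Subgroup.mem_inf.1 k₁.2).1
      · intro y
        rw [h1.rsn, h2.rsn]
        ring
    have e2 := B_irr i₂ i₂
    rw [if_pos rfl] at e2
    unfold B at e2
    unfold cnv
    rw [e1, ← Finset.mul_sum]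
    linear_combination (θ₁ k₁ * θ₃ k₃⁻¹) * e2
  refine ⟨?_, ?_, hrsn⟩
  · intro x z hne
    obtain ⟨y, hy⟩ : ∃ y, F₁ x y * F₂ y z ≠ 0 := by
      by_contra h
      push Not at h
      apply hne
      unfold cnv
      rw [Finset.sum_eq_zero fun y _ => h y, mul_zero]
    have k1 : F₁ x y ≠ 0 := fun h => hy (by rw [h]; ring)
    have k2 : F₂ y z ≠ 0 := fun h => hy (by rw [h]; ring)
    obtain ⟨a, b, c⟩ := h1.supp x y k1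
    obtain ⟨-, b', c'⟩ := h2.supp y z k2
    exact ⟨a, b', c.trans c'⟩
  · have _i3 : Fintype ↥(JJ q A S₁ S₃) := Fintype.ofFinite _
    have hMn : (MM (fpq q q) A (fpq q q).ker
        ((S₁.prod S₃).comap (fpG q q).subtype)).Normal := M_normal A rfl _
    refine irr_of_nat (MM (fpq q q) A (fpq q q).ker ((S₁.prod S₃).comap (fpG q q).subtype)) ?_
      (fun ω hω => cnv_nat hq h₂ h1 h2 hω) ?_
    · intro g y
      refine cnv_inv G S₂ h1.cls h2.cls ?_ (j1 q A y) ?_ (j2 q A y) ?_ (j_eq q A y) _ _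
      · intro s hs
        obtain ⟨hsA, hsS⟩ := Subgroup.mem_inf.1 hs
        obtain ⟨t, ht, ht'⟩ := h₂ _ hsA
        refine ⟨t, Subgroup.mem_inf.2 ⟨?_, ht⟩, ht'.symm⟩
        rw [Subgroup.mem_comap, ht']
        exact hsA
      · exact Subgroup.mem_inf.2 ⟨j1A q A y, j1S q A y⟩
      · refine Subgroup.mem_inf.2 ⟨?_, j2S q A y⟩
        rw [Subgroup.mem_comap, ← j_eq q A y]
        exact j1A q A y
    · have h3 := (res_irr_iff (A := A) (rfl : (fpq q q).ker = _)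
        (fun g : ↥(JJ q A S₁ S₃) => cnv G S₂ F₁ F₂ (j1 q A g) (j2 q A g))).2 (by
          rw [xd_rs hq hrsn]
          exact th_irr hq i₁ i₃)
      exact h3

/-- the swap -/
def swp (q : E →* U) (A : Subgroup U) (S₁ S₂ : Subgroup E) : ↥(JJ q A S₂ S₁) ≃* ↥(JJ q A S₁ S₂) where
  toFun g := mkJ q A (j2 q A g) (j1 q A g) (j_eq q A g).symm
    (by rw [← j_eq q A g]; exact j1A q A g) (j2S q A g) (j1S q A g)
  invFun g := mkJ q A (j2 q A g) (j1 q A g) (j_eq q A g).symm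
    (by rw [← j_eq q A g]; exact j1A q A g) (j2S q A g) (j1S q A g)
  left_inv _ := rfl
  right_inv _ := rfl
  map_mul' _ _ := rfl

theorem xd_symm [Finite E] {θ₁ : ↥(G ⊓ S₁) → ℂ} {θ₂ : ↥(G ⊓ S₂) → ℂ} {F : E → E → ℂ}
    (h : Xd q A θ₁ θ₂ F) : Xd q A θ₂ θ₁ (fun y x => F x⁻¹ y⁻¹) := by
  refine ⟨?_, ?_, ?_⟩
  · intro y x hne
    obtain ⟨⟨a, b⟩, c, d⟩ := h.supp _ _ hne
    rw [map_inv, map_inv] at d
    have d' := inv_injective d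
    rw [map_inv] at b
    refine ⟨⟨(S₂.inv_mem_iff).1 c, ?_⟩, (S₁.inv_mem_iff).1 a, d'.symm⟩
    rw [← d']
    exact (A.inv_mem_iff).1 b
  · exact irr_comp (swp q A S₁ S₂) (dl_irr h.irr)
  · intro k₂ k₁
    have h1 := h.rsn k₁⁻¹ k₂⁻¹
    rw [inv_inv] at h1
    change F (k₁ : E)⁻¹ (k₂ : E)⁻¹ = _ at h1
    rw [h1]
    ring

theorem xv_symm {R₁ R₂ : Set E} {F : E → E → ℂ} (h : Xv q R₁ R₂ F) :
    Xv q R₂ R₁ (fun y x => F x⁻¹ y⁻¹) := by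
  intro s₂ hs₂ s₁ hs₁ he y x
  have h1 := h s₁ hs₁ s₂ hs₂ he.symm x⁻¹ y⁻¹
  change F (s₁ * x * s₁⁻¹)⁻¹ (s₂ * y * s₂⁻¹)⁻¹ = F x⁻¹ y⁻¹
  rw [← h1]
  congr 1 <;> group

section gam

variable [Finite E] [A.Normal]

omit [Finite E] [A.Normal] in
/-- the function on pairs -/
def ex (q : E →* U) (A : Subgroup U) {S₁ S₂ : Subgroup E} (χ : ↥(JJ q A S₁ S₂) → ℂ) :
    E → E → ℂ :=
  fun x y => if h : (x ∈ S₁ ∧ q x ∈ A) ∧ y ∈ S₂ ∧ q x = q y then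
    χ (mkJ q A x y h.2.2 h.1.2 h.1.1 h.2.1) else 0

omit [Finite E] [A.Normal] in
theorem ex_j (χ : ↥(JJ q A S₁ S₂) → ℂ) (g : ↥(JJ q A S₁ S₂)) :
    ex q A χ (j1 q A g) (j2 q A g) = χ g :=
  dif_pos ⟨⟨j1S q A g, j1A q A g⟩, j2S q A g, j_eq q A g⟩

omit [Finite E] [A.Normal] in
theorem ex_supp (χ : ↥(JJ q A S₁ S₂) → ℂ) (x y : E) (h : ex q A χ x y ≠ 0) :
    (x ∈ S₁ ∧ q x ∈ A) ∧ y ∈ S₂ ∧ q x = q y := by
  by_contra hn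
  exact h (dif_neg hn)

omit [Finite E] in
theorem ex_xd (hq : q.ker = G) {θ₁ : ↥(G ⊓ S₁) → ℂ} {θ₂ : ↥(G ⊓ S₂) → ℂ}
    {χ : ↥(JJ q A S₁ S₂) → ℂ} (h : IsIrrChar χ)
    (hr : rs (HK (A := A) (rfl : (fpq q q).ker = _)) χ = th hq θ₁ θ₂) :
    Xd q A θ₁ θ₂ (ex q A χ) := by
  refine ⟨ex_supp χ, ?_, ?_⟩
  · have : (fun g : ↥(JJ q A S₁ S₂) => ex q A χ (j1 q A g) (j2 q A g)) = χ :=
      funext fun g => ex_j χ g
    rw [this]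
    exact h
  · intro h₁ h₂
    have e1 : q (h₁ : E) = 1 := (mem_G hq).1 (Subgroup.mem_inf.1 h₁.2).1
    have e2 : q (h₂ : E) = 1 := (mem_G hq).1 (Subgroup.mem_inf.1 h₂.2).1
    let x : ↥((fpq q q).ker ⊓ (S₁.prod S₂).comap (fpG q q).subtype) :=
      ⟨⟨((h₁ : E), (h₂ : E)), e1.trans e2.symm⟩, Subgroup.mem_inf.2 ⟨MonoidHom.mem_ker.2 e1,
        (Subgroup.mem_inf.1 h₁.2).2, (Subgroup.mem_inf.1 h₂.2).2⟩⟩
    have h3 := congrFun hr x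
    rw [th_apply hq θ₁ θ₂ x h₁ h₂ rfl rfl] at h3
    rw [← h3]
    have hm : x.1 ∈ JJ q A S₁ S₂ := HK (A := A) (rfl : (fpq q q).ker = _) x.2
    exact ex_j χ ⟨x.1, hm⟩

theorem ee_iff (hq : q.ker = G) {θ₁ : ↥(G ⊓ S₁) → ℂ} {θ₂ : ↥(G ⊓ S₂) → ℂ} :
    Ee (G_le A (rfl : (fpq q q).ker = _)) ((S₁.prod S₂).comap (fpG q q).subtype)
      (th hq θ₁ θ₂) ↔ ∃ F, Xd q A θ₁ θ₂ F := by
  constructor
  · rintro ⟨χ, h1, h2⟩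
    exact ⟨_, ex_xd hq h1 h2⟩
  · rintro ⟨F, hF⟩
    exact ⟨_, hF.irr, xd_rs hq hF.rsn⟩

theorem ei_iff (hq : q.ker = G) {θ₁ : ↥(G ⊓ S₁) → ℂ} {θ₂ : ↥(G ⊓ S₂) → ℂ}
    (hs₁ : ∀ u, ∃ e ∈ S₁, q e = u) (hs₂ : ∀ u, ∃ e ∈ S₂, q e = u) :
    Ei (G_le A (rfl : (fpq q q).ker = _)) ((S₁.prod S₂).comap (fpG q q).subtype)
      (th hq θ₁ θ₂) ↔ ∃ F, Xd q A θ₁ θ₂ F ∧ Xv q S₁ S₂ F := by
  constructor
  · rintro ⟨χ, h1, h2, h3⟩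
    refine ⟨_, ex_xd hq h1 h2, ?_⟩
    intro s₁ hs₁ s₂ hs₂ he x y
    have hs : (⟨(s₁, s₂), he⟩ : ↥(fpG q q)) ∈ (S₁.prod S₂).comap (fpG q q).subtype :=
      ⟨hs₁, hs₂⟩
    have hf := fix_all (ker_r rfl) (isClass_of h1) h3 hs
    by_cases hx : (x ∈ S₁ ∧ q x ∈ A) ∧ y ∈ S₂ ∧ q x = q y
    · obtain ⟨⟨hx1, hx2⟩, hy1, hy2⟩ := hx
      have e1 : (s₁ * x * s₁⁻¹ ∈ S₁ ∧ q (s₁ * x * s₁⁻¹) ∈ A) ∧ s₂ * y * s₂⁻¹ ∈ S₂ ∧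
          q (s₁ * x * s₁⁻¹) = q (s₂ * y * s₂⁻¹) := by
        refine ⟨⟨S₁.mul_mem (S₁.mul_mem hs₁ hx1) (S₁.inv_mem hs₁), ?_⟩,
          S₂.mul_mem (S₂.mul_mem hs₂ hy1) (S₂.inv_mem hs₂), ?_⟩
        · rw [map_mul, map_mul, map_inv]
          exact (inferInstance : A.Normal).conj_mem _ hx2 _
        · rw [map_mul, map_mul, map_inv, map_mul, map_mul, map_inv, he, hy2]
      have h4 := hf (mkJ q A x y hy2 hx2 hx1 hy1)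
        (mkJ q A (s₁ * x * s₁⁻¹) (s₂ * y * s₂⁻¹) e1.2.2 e1.1.2 e1.1.1 e1.2.1) rfl
      have h5 : ex q A χ x y = χ (mkJ q A x y hy2 hx2 hx1 hy1) :=
        ex_j χ (mkJ q A x y hy2 hx2 hx1 hy1)
      have h6 : ex q A χ (s₁ * x * s₁⁻¹) (s₂ * y * s₂⁻¹) =
          χ (mkJ q A (s₁ * x * s₁⁻¹) (s₂ * y * s₂⁻¹) e1.2.2 e1.1.2 e1.1.1 e1.2.1) :=
        ex_j χ (mkJ q A (s₁ * x * s₁⁻¹) (s₂ * y * s₂⁻¹) e1.2.2 e1.1.2 e1.1.1 e1.2.1)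
      rw [h5, h6]
      exact h4
    · have h1 : ex q A χ x y = 0 := by
        by_contra h2
        exact hx (ex_supp χ x y h2)
      rw [h1]
      by_contra h2
      apply hx
      obtain ⟨⟨a, b⟩, c, d⟩ := ex_supp χ _ _ h2
      refine ⟨⟨?_, ?_⟩, ?_, ?_⟩
      · have := S₁.mul_mem (S₁.mul_mem (S₁.inv_mem hs₁) a) hs₁
        have e : s₁⁻¹ * (s₁ * x * s₁⁻¹) * s₁ = x := by group
        rwa [e] at this
      · have := (inferInstance : A.Normal).conj_mem _ b (q s₁)⁻¹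
        have e : (q s₁)⁻¹ * q (s₁ * x * s₁⁻¹) * (q s₁)⁻¹⁻¹ = q x := by
          rw [map_mul, map_mul, map_inv]
          group
        rwa [e] at this
      · have := S₂.mul_mem (S₂.mul_mem (S₂.inv_mem hs₂) c) hs₂
        have e : s₂⁻¹ * (s₂ * y * s₂⁻¹) * s₂ = y := by group
        rwa [e] at this
      · rw [map_mul, map_mul, map_mul, map_mul, map_inv, map_inv, he] at d
        exact mul_left_cancel (mul_right_cancel d)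
  · rintro ⟨F, hF, hv⟩
    refine ⟨_, hF.irr, xd_rs hq hF.rsn, ?_⟩
    intro u _
    obtain ⟨v, rfl⟩ := QuotientGroup.mk'_surjective A u
    obtain ⟨s₁, h1, h1'⟩ := hs₁ v
    obtain ⟨s₂, h2, h2'⟩ := hs₂ v
    refine ⟨⟨(s₁, s₂), h1'.trans h2'.symm⟩, ⟨h1, h2⟩, ?_, ?_⟩
    · change (QuotientGroup.mk' A) (q s₁) = _
      rw [h1']
    · intro n n' hn
      have e1 : j1 q A n' = s₁ * j1 q A n * s₁⁻¹ := congrArg (fun t : ↥(fpG q q) => t.1.1) hn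
      have e2 : j2 q A n' = s₂ * j2 q A n * s₂⁻¹ := congrArg (fun t : ↥(fpG q q) => t.1.2) hn
      change F (j1 q A n') (j2 q A n') = F (j1 q A n) (j2 q A n)
      rw [e1, e2]
      exact hv s₁ h1 s₂ h2 (h1'.trans h2'.symm) _ _

end gam

end Run7.h759.DI
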