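import Pool.Agent.Run7.h759.DI.Xd2

/-!
# Extensions to fibre products: reflexivity (helper759)
-/

set_option autoImplicit false
set_option linter.unusedSectionVars false

open scoped Classical BigOperators

noncomputable section

namespace Run7.h759.DI

open Pool.Agent.Helper884.IC (IsIrrChar IsClass Irr mem_Irr B B_irr expand B_sum_left B_smul_left
  B_comm)
open Pool.Agent.Y63.AWC (res mult mult_spec mult_exists irr_comp cj)
open Pool.Agent.R674.Tw (Fixes)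
open Pool.Agent.Q99.AS (ten ten_irr)
open Pool.Agent.Q90.WR (B_nat)

/-- an extension of an invariant character which occurs once in a character -/
theorem ext_of_once {X : Type} [Group X] [Fintype X] (M : Subgroup X) [hM : M.Normal] {f : X → ℂ}
    (hcl : IsClass f) (hnat : ∀ ψ : X → ℂ, IsIrrChar ψ → ∃ n : ℕ, B f ψ = n) {θ : M → ℂ}
    (hθ : IsIrrChar θ) (hi : ∀ x, cj M x θ = θ) (h1 : B (res M f) θ = 1) :
    ∃ ω : X → ℂ, IsIrrChar ω ∧ res M ω = θ := by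
  choose! n hn using hnat
  have hexp : f = ∑ ψ ∈ Irr X, (n ψ : ℂ) • ψ := by
    conv_lhs => rw [expand f hcl]
    exact Finset.sum_congr rfl fun ψ hψ => by rw [hn ψ (mem_Irr.1 hψ)]
  have hres : B (res M f) θ = ((∑ ψ ∈ Irr X, n ψ * mult M ψ θ : ℕ) : ℂ) := by
    have h1 : res M f = ∑ ψ ∈ Irr X, (n ψ : ℂ) • res M ψ := by
      conv_lhs => rw [hexp]
      funext m
      simp only [res, Finset.sum_apply, Pi.smul_apply]
    rw [h1, B_sum_left]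
    push_cast
    refine Finset.sum_congr rfl fun ψ hψ => ?_
    rw [B_smul_left, mult_spec M (mem_Irr.1 hψ) hθ]
  rw [h1] at hres
  have h2 : ∑ ψ ∈ Irr X, n ψ * mult M ψ θ = 1 := by exact_mod_cast hres.symm
  obtain ⟨ψ, hψ, hψ1⟩ : ∃ ψ ∈ Irr X, n ψ * mult M ψ θ ≠ 0 := by
    by_contra h
    push Not at h
    rw [Finset.sum_eq_zero h] at h2
    exact zero_ne_one h2
  have h3 : n ψ * mult M ψ θ = 1 := by
    refine le_antisymm ?_ (Nat.pos_of_ne_zero hψ1)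
    rw [← h2]
    exact Finset.single_le_sum (f := fun ψ => n ψ * mult M ψ θ) (fun _ _ => Nat.zero_le _) hψ
  have h4 : mult M ψ θ = 1 := Nat.dvd_one.1 (Dvd.intro_left _ h3)
  refine ⟨ψ, mem_Irr.1 hψ, ?_⟩
  rw [res_inv (mem_Irr.1 hψ) hθ hi (by rw [h4]; exact one_ne_zero), h4, Nat.cast_one, one_smul]

theorem triv_char (X : Type) [Group X] (x : X) :
    (Representation.trivial ℂ (G := X) ℂ).character x = 1 := by
  unfold Representation.character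
  have h : (Representation.trivial ℂ (G := X) ℂ) x = LinearMap.id := LinearMap.ext fun v => rfl
  rw [h, LinearMap.trace_id]
  simp

variable {E U : Type} [Group E] [Group U] {q : E →* U} {G S : Subgroup E}

/-- the diagonal -/
def dia (q : E →* U) (S : Subgroup E) : ↥S →* ↥(JJ q ⊤ S S) where
  toFun s := mkJ q ⊤ s s rfl (Subgroup.mem_top _) s.2 s.2
  map_one' := rfl
  map_mul' _ _ := rfl

/-- the number of the elements of `G ∩ S` fixed by an element of the fibre product -/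
def Pf (q : E →* U) (G S : Subgroup E) [Fintype ↥(G ⊓ S)] (g : ↥(JJ q ⊤ S S)) : ℂ :=
  ∑ h : ↥(G ⊓ S), if j1 q ⊤ g * h = h * j2 q ⊤ g then (1 : ℂ) else 0

theorem card_JT [Finite E] (hq : q.ker = G) :
    Nat.card ↥(JJ q ⊤ S S) = Nat.card ↥(G ⊓ S) * Nat.card ↥S := by
  rw [← Nat.card_prod]
  refine Nat.card_congr
    { toFun := fun g => (⟨(j1 q ⊤ g)⁻¹ * j2 q ⊤ g, Subgroup.mem_inf.2 ⟨(mem_G hq).2 ?_,
          S.mul_mem (S.inv_mem (j1S q ⊤ g)) (j2S q ⊤ g)⟩⟩, ⟨j1 q ⊤ g, j1S q ⊤ g⟩)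
      invFun := fun t => mkJ q ⊤ t.2 (t.2 * t.1) ?_ (Subgroup.mem_top _) t.2.2
        (S.mul_mem t.2.2 (Subgroup.mem_inf.1 t.1.2).2)
      left_inv := fun g => ?_
      right_inv := fun t => ?_ }
  · rw [map_mul, map_inv, ← j_eq q ⊤ g, inv_mul_cancel]
  · rw [map_mul, (mem_G hq).1 (Subgroup.mem_inf.1 t.1.2).1, mul_one]
  · refine j_ext q ⊤ rfl ?_
    change j1 q ⊤ g * ((j1 q ⊤ g)⁻¹ * j2 q ⊤ g) = j2 q ⊤ g
    rw [mul_inv_cancel_left]
  · refine Prod.ext (Subtype.ext ?_) rfl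
    change ((t.2 : E))⁻¹ * ((t.2 : E) * (t.1 : E)) = t.1
    rw [inv_mul_cancel_left]

theorem Pf_class [Fintype ↥(G ⊓ S)] (hq : q.ker = G) : IsClass (Pf q G S) := by
  intro g y
  have hab := j_eq q ⊤ y
  have m1 : ∀ h : ↥(G ⊓ S), (j1 q ⊤ y)⁻¹ * h * j2 q ⊤ y ∈ G ⊓ S := by
    intro h
    refine Subgroup.mem_inf.2 ⟨(mem_G hq).2 ?_, S.mul_mem (S.mul_mem (S.inv_mem (j1S q ⊤ y))
      (Subgroup.mem_inf.1 h.2).2) (j2S q ⊤ y)⟩
    rw [map_mul, map_mul, map_inv, (mem_G hq).1 (Subgroup.mem_inf.1 h.2).1, mul_one, hab,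
      inv_mul_cancel]
  have m2 : ∀ h : ↥(G ⊓ S), j1 q ⊤ y * h * (j2 q ⊤ y)⁻¹ ∈ G ⊓ S := by
    intro h
    refine Subgroup.mem_inf.2 ⟨(mem_G hq).2 ?_, S.mul_mem (S.mul_mem (j1S q ⊤ y)
      (Subgroup.mem_inf.1 h.2).2) (S.inv_mem (j2S q ⊤ y))⟩
    rw [map_mul, map_mul, map_inv, (mem_G hq).1 (Subgroup.mem_inf.1 h.2).1, mul_one, hab,
      mul_inv_cancel]
  let e : ↥(G ⊓ S) ≃ ↥(G ⊓ S) :=
    { toFun := fun h => ⟨_, m1 h⟩
      invFun := fun h => ⟨_, m2 h⟩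
      left_inv := fun h => Subtype.ext (by
        change j1 q ⊤ y * ((j1 q ⊤ y)⁻¹ * h * j2 q ⊤ y) * (j2 q ⊤ y)⁻¹ = h
        group)
      right_inv := fun h => Subtype.ext (by
        change (j1 q ⊤ y)⁻¹ * (j1 q ⊤ y * h * (j2 q ⊤ y)⁻¹) * j2 q ⊤ y = h
        group) }
  unfold Pf
  refine Fintype.sum_equiv e _ _ fun h => ?_
  have h1 : (j1 q ⊤ (y * g * y⁻¹) * h = h * j2 q ⊤ (y * g * y⁻¹)) ↔
      (j1 q ⊤ g * (e h : E) = (e h : E) * j2 q ⊤ g) := by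
    change (j1 q ⊤ y * j1 q ⊤ g * (j1 q ⊤ y)⁻¹ * h = h * (j2 q ⊤ y * j2 q ⊤ g * (j2 q ⊤ y)⁻¹)) ↔
      (j1 q ⊤ g * ((j1 q ⊤ y)⁻¹ * h * j2 q ⊤ y) = ((j1 q ⊤ y)⁻¹ * h * j2 q ⊤ y) * j2 q ⊤ g)
    constructor
    · intro h2
      calc j1 q ⊤ g * ((j1 q ⊤ y)⁻¹ * h * j2 q ⊤ y)
          = (j1 q ⊤ y)⁻¹ * (j1 q ⊤ y * j1 q ⊤ g * (j1 q ⊤ y)⁻¹ * h) * j2 q ⊤ y := by group
        _ = _ := by rw [h2]; group
    · intro h2
      calc j1 q ⊤ y * j1 q ⊤ g * (j1 q ⊤ y)⁻¹ * h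
          = j1 q ⊤ y * (j1 q ⊤ g * ((j1 q ⊤ y)⁻¹ * h * j2 q ⊤ y)) * (j2 q ⊤ y)⁻¹ := by group
        _ = _ := by rw [h2]; group
  by_cases h2 : j1 q ⊤ (y * g * y⁻¹) * h = h * j2 q ⊤ (y * g * y⁻¹)
  · rw [if_pos h2, if_pos (h1.1 h2)]
  · rw [if_neg h2, if_neg (fun h3 => h2 (h1.2 h3))]

theorem Pf_nat [Finite E] [Fintype ↥(G ⊓ S)] (hq : q.ker = G) [Fintype ↥(JJ q ⊤ S S)]
    {ω : ↥(JJ q ⊤ S S) → ℂ} (hω : IsIrrChar ω) : ∃ n : ℕ, B (Pf q G S) ω = n := by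
  have _i : Fintype ↥S := Fintype.ofFinite _
  have hcl := isClass_of hω
  obtain ⟨W, _, _, _, σ, -, e2⟩ := hω
  obtain ⟨n, hn⟩ := B_nat (Representation.trivial ℂ (G := ↥S) ℂ) (σ.comp (dia q S))
  refine ⟨n, ?_⟩
  rw [← hn]
  have c2 : ∀ s : ↥S, Representation.character (σ.comp (dia q S)) s = ω (dia q S s) := by
    intro s
    change σ.character (dia q S s) = _
    rw [← e2]
  have hG : ∀ h : ↥(G ⊓ S), q (h : E) = 1 := fun h => (mem_G hq).1 (Subgroup.mem_inf.1 h.2).1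
  have hS : ∀ h : ↥(G ⊓ S), (h : E) ∈ S := fun h => (Subgroup.mem_inf.1 h.2).2
  -- the sum for one `h`
  have s1 : ∀ h : ↥(G ⊓ S), ∑ g : ↥(JJ q ⊤ S S),
      (if j1 q ⊤ g * h = h * j2 q ⊤ g then (1 : ℂ) else 0) * ω g⁻¹ =
      ∑ s : ↥S, ω (dia q S s⁻¹) := by
    intro h
    have hm : ∀ s : ↥S, q (s : E) = q ((h : E)⁻¹ * s * h) := by
      intro s
      rw [map_mul, map_mul, map_inv, hG h]
      group
    have hm2 : ∀ s : ↥S, (h : E)⁻¹ * s * h ∈ S := fun s =>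
      S.mul_mem (S.mul_mem (S.inv_mem (hS h)) s.2) (hS h)
    symm
    refine Fintype.sum_of_injective (fun s : ↥S =>
      mkJ q ⊤ (s : E) ((h : E)⁻¹ * s * h) (hm s) (Subgroup.mem_top _) s.2 (hm2 s)) ?_ _ _ ?_ ?_
    · intro s t hst
      exact Subtype.ext (congrArg (j1 q ⊤) hst)
    · intro g hg
      rw [if_neg, zero_mul]
      intro h1
      apply hg
      refine ⟨⟨j1 q ⊤ g, j1S q ⊤ g⟩, j_ext q ⊤ rfl ?_⟩
      change (h : E)⁻¹ * j1 q ⊤ g * h = j2 q ⊤ g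
      rw [mul_assoc, h1, inv_mul_cancel_left]
    · intro s
      change _ = (if (s : E) * h = h * ((h : E)⁻¹ * s * h) then (1 : ℂ) else 0) * _
      rw [if_pos (by group), one_mul]
      have k := hcl (mkJ q ⊤ (s : E) ((h : E)⁻¹ * s * h) (hm s) (Subgroup.mem_top _) s.2 (hm2 s))⁻¹
        (mkJ q ⊤ 1 (h : E) (by rw [map_one, hG h]) (Subgroup.mem_top _) S.one_mem (hS h))
      rw [← k]
      congr 1
      refine j_ext q ⊤ ?_ ?_
      · change ((s : E))⁻¹ = 1 * ((s : E))⁻¹ * 1⁻¹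
        group
      · change ((s : E))⁻¹ = (h : E) * ((h : E)⁻¹ * s * h)⁻¹ * (h : E)⁻¹
        group
  unfold B
  rw [card_JT hq]
  have hH : (Nat.card ↥(G ⊓ S) : ℂ) ≠ 0 := Pool.Agent.Helper884.IC.cardG_ne
  have s2 : ∑ g : ↥(JJ q ⊤ S S), Pf q G S g * ω g⁻¹ =
      (Nat.card ↥(G ⊓ S) : ℂ) * ∑ s : ↥S, ω (dia q S s⁻¹) := by
    unfold Pf
    rw [Finset.sum_congr rfl fun g _ => Finset.sum_mul _ _ _, Finset.sum_comm,
      Finset.sum_congr rfl fun h _ => s1 h, Finset.sum_const, Finset.card_univ,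
      ← Nat.card_eq_fintype_card, nsmul_eq_mul]
  have s3 : ∑ s : ↥S, (Representation.trivial ℂ (G := ↥S) ℂ).character s *
      Representation.character (σ.comp (dia q S)) s⁻¹ = ∑ s : ↥S, ω (dia q S s⁻¹) :=
    Finset.sum_congr rfl fun s _ => by rw [triv_char, c2, one_mul]
  rw [s2, s3]
  push_cast
  field_simp

/-- the multiplicity of `θ × θ⁻` -/
theorem Pf_one [Finite E] [Fintype ↥(G ⊓ S)] (hq : q.ker = G)
    [Fintype ↥(MM (fpq q q) ⊤ (fpq q q).ker ((S.prod S).comap (fpG q q).subtype))]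
    {θ : ↥(G ⊓ S) → ℂ} (hθ : IsIrrChar θ) :
    B (res (MM (fpq q q) ⊤ (fpq q q).ker ((S.prod S).comap (fpG q q).subtype)) (Pf q G S))
      (fun m => th hq θ θ (eM rfl m)) = 1 := by
  let e : ↥(MM (fpq q q) ⊤ (fpq q q).ker ((S.prod S).comap (fpG q q).subtype)) ≃*
      ↥(G ⊓ S) × ↥(G ⊓ S) :=
    (eM rfl).trans (((fp_FP q q).iso2 rfl hq hq).eqv S S)
  have hcl := isClass_of hθ
  have s1 : ∑ m : ↥(MM (fpq q q) ⊤ (fpq q q).ker ((S.prod S).comap (fpG q q).subtype)),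
      res (MM (fpq q q) ⊤ (fpq q q).ker ((S.prod S).comap (fpG q q).subtype)) (Pf q G S) m *
        th hq θ θ (eM rfl m⁻¹) =
      ∑ t : ↥(G ⊓ S) × ↥(G ⊓ S), (∑ h : ↥(G ⊓ S), if t.1 * h = h * t.2 then (1 : ℂ) else 0) *
        (θ t.1⁻¹ * θ t.2) := by
    refine Fintype.sum_equiv e.toEquiv _ _ fun m => ?_
    congr 1
    · unfold res Pf
      refine Finset.sum_congr rfl fun h _ => ?_
      have h1 : (j1 q ⊤ (m : ↥(JJ q ⊤ S S)) * h = h * j2 q ⊤ (m : ↥(JJ q ⊤ S S))) ↔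
          ((e m).1 * h = h * (e m).2) :=
        ⟨fun h2 => Subtype.ext h2, fun h2 => congrArg Subtype.val h2⟩
      by_cases h2 : (e m).1 * h = h * (e m).2
      · exact (if_pos (h1.2 h2)).trans (if_pos h2).symm
      · exact (if_neg (fun h3 => h2 (h1.1 h3))).trans (if_neg h2).symm
    · have h1 := th_apply hq θ θ (eM (A := ⊤) rfl m⁻¹) (e m).1⁻¹ (e m).2⁻¹ rfl rfl
      rw [h1, inv_inv]
      rfl
  have s2 : ∑ t : ↥(G ⊓ S) × ↥(G ⊓ S), (∑ h : ↥(G ⊓ S), if t.1 * h = h * t.2 then (1 : ℂ) else 0) *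
        (θ t.1⁻¹ * θ t.2) = (Nat.card ↥(G ⊓ S) : ℂ) * ∑ a : ↥(G ⊓ S), θ a * θ a⁻¹ := by
    have k1 : ∀ h a : ↥(G ⊓ S), ∑ b : ↥(G ⊓ S),
        (if a * h = h * b then (1 : ℂ) else 0) * (θ a⁻¹ * θ b) = θ a * θ a⁻¹ := by
      intro h a
      rw [Finset.sum_eq_single (h⁻¹ * a * h)]
      · rw [if_pos (by group), one_mul]
        have := hcl a h⁻¹
        rw [inv_inv] at this
        rw [this, mul_comm]
      · intro b _ hb
        rw [if_neg, zero_mul]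
        intro h2
        apply hb
        rw [mul_assoc, h2, inv_mul_cancel_left]
      · intro h2
        exact absurd (Finset.mem_univ _) h2
    rw [Fintype.sum_prod_type]
    have k2 : ∀ a b : ↥(G ⊓ S), (∑ h : ↥(G ⊓ S), if a * h = h * b then (1 : ℂ) else 0) *
        (θ a⁻¹ * θ b) = ∑ h : ↥(G ⊓ S), (if a * h = h * b then (1 : ℂ) else 0) *
        (θ a⁻¹ * θ b) := fun a b => Finset.sum_mul _ _ _
    simp_rw [k2]
    have k3 : ∀ a : ↥(G ⊓ S), ∑ b : ↥(G ⊓ S), ∑ h : ↥(G ⊓ S),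
        (if a * h = h * b then (1 : ℂ) else 0) * (θ a⁻¹ * θ b) =
        (Nat.card ↥(G ⊓ S) : ℂ) * (θ a * θ a⁻¹) := by
      intro a
      rw [Finset.sum_comm, Finset.sum_congr rfl fun h _ => k1 h a, Finset.sum_const,
        Finset.card_univ, ← Nat.card_eq_fintype_card, nsmul_eq_mul]
    rw [Finset.sum_congr rfl fun a _ => k3 a, ← Finset.mul_sum]
  have e2 := B_irr hθ hθ
  rw [if_pos rfl] at e2
  unfold B at e2 ⊢
  have hH : (Nat.card ↥(G ⊓ S) : ℂ) ≠ 0 := Pool.Agent.Helper884.IC.cardG_ne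
  rw [s1, s2, Nat.card_congr e.toEquiv, Nat.card_prod]
  push_cast
  rw [← e2]
  field_simp

/-- **reflexivity** -/
theorem xd_refl [Fintype E] {A : Subgroup U} [A.Normal] (hq : q.ker = G) {θ : ↥(G ⊓ S) → ℂ}
    (hθ : IsIrrChar θ)
    (hi : Inq q ⊤ S θ) : ∃ F, Xd q A θ θ F ∧ Xv q S S F := by
  have _i : Fintype ↥(G ⊓ S) := Fintype.ofFinite _
  have _j : Fintype ↥(JJ q ⊤ S S) := Fintype.ofFinite _
  have hMn : (MM (fpq q q) ⊤ (fpq q q).ker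
    ((S.prod S).comap (fpG q q).subtype)).Normal := M_normal ⊤ rfl _
  have hθ' := th_irr hq hθ hθ
  obtain ⟨ω, h1, h2⟩ := ext_of_once
    (MM (fpq q q) ⊤ (fpq q q).ker ((S.prod S).comap (fpG q q).subtype))
    (Pf_class (S := S) hq) (fun ψ hψ => Pf_nat hq hψ)
    (θ := fun m => th hq θ θ (eM rfl m)) (irr_comp (eM rfl) hθ') (by
      intro x
      refine (cj_fix (A := ⊤) rfl (th hq θ θ) x).2 ?_
      intro n n' hn
      have f1 := fix_all hq (isClass_of hθ) hi (j1S q ⊤ x)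
      have f2 := fix_all hq (isClass_of hθ) hi (j2S q ⊤ x)
      rw [th_apply hq θ θ n ⟨_, mem_1 hq n⟩ ⟨_, mem_2 hq n⟩ rfl rfl,
        th_apply hq θ θ n' ⟨_, mem_1 hq n'⟩ ⟨_, mem_2 hq n'⟩ rfl rfl]
      have e1 : n'.1.1.1 = j1 q ⊤ x * n.1.1.1 * (j1 q ⊤ x)⁻¹ :=
        congrArg (fun t : ↥(fpG q q) => t.1.1) hn
      have e2 : n'.1.1.2 = j2 q ⊤ x * n.1.1.2 * (j2 q ⊤ x)⁻¹ :=
        congrArg (fun t : ↥(fpG q q) => t.1.2) hn
      rw [f1 ⟨_, mem_1 hq n⟩ ⟨_, mem_1 hq n'⟩ e1]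
      congr 1
      refine f2 (⟨_, mem_2 hq n⟩ : ↥(G ⊓ S))⁻¹ (⟨_, mem_2 hq n'⟩ : ↥(G ⊓ S))⁻¹ ?_
      change (n'.1.1.2)⁻¹ = j2 q ⊤ x * (n.1.1.2)⁻¹ * (j2 q ⊤ x)⁻¹
      rw [e2]
      group) (Pf_one hq hθ)
  have h3 : rs (HK (A := ⊤) (rfl : (fpq q q).ker = _)) ω = th hq θ θ := by
    funext y
    have h7 := congrFun h2 ((eM (A := ⊤) (rfl : (fpq q q).ker = _)).symm y)
    rw [res_eM rfl] at h7
    change rs (HK rfl) ω (eM rfl ((eM rfl).symm y)) = th hq θ θ (eM rfl ((eM rfl).symm y)) at h7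
    rwa [MulEquiv.apply_symm_apply] at h7
  have h4 := ex_xd (A := ⊤) hq h1 h3
  have hv : Xv q S S (ex q ⊤ ω) := by
    intro s₁ hs₁ s₂ hs₂ he x y
    exact h4.cls s₁ (Subgroup.mem_inf.2 ⟨Subgroup.mem_top _, hs₁⟩) s₂
      (Subgroup.mem_inf.2 ⟨Subgroup.mem_top _, hs₂⟩) he x y
  refine ⟨fun x y => if q x ∈ A then ex q ⊤ ω x y else 0, ⟨?_, ?_, ?_⟩, ?_⟩
  · intro x y hne
    by_cases hx : q x ∈ A
    · rw [if_pos hx] at hne
      obtain ⟨⟨a, -⟩, b, c⟩ := h4.supp x y hne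
      exact ⟨⟨a, hx⟩, b, c⟩
    · rw [if_neg hx] at hne
      exact absurd rfl hne
  · have _k : Fintype ↥(JJ q A S S) := Fintype.ofFinite _
    have hMn' : (MM (fpq q q) A (fpq q q).ker
      ((S.prod S).comap (fpG q q).subtype)).Normal := M_normal A rfl _
    let j : ↥(JJ q A S S) →* ↥(JJ q ⊤ S S) := Subgroup.inclusion
      (inf_le_inf_right _ (fun x _ => Subgroup.mem_top _))
    have e1 : (fun g : ↥(JJ q A S S) => if q (j1 q A g) ∈ A then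
        ex q ⊤ ω (j1 q A g) (j2 q A g) else 0) = fun g => ω (j g) := by
      funext g
      rw [if_pos (j1A q A g)]
      exact ex_j ω (j g)
    rw [e1]
    refine pull_irr (MM (fpq q q) A (fpq q q).ker ((S.prod S).comap (fpG q q).subtype)) j h1 ?_
    refine (res_irr_iff (A := A) (rfl : (fpq q q).ker = _) (fun g => ω (j g))).2 ?_
    have e2 : rs (HK (A := A) (rfl : (fpq q q).ker = _)) (fun g : ↥(JJ q A S S) => ω (j g)) =
        rs (HK (A := ⊤) (rfl : (fpq q q).ker = _)) ω := rfl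
    rw [e2, h3]
    exact hθ'
  · intro k₁ k₂
    have e1 : q (k₁ : E) = 1 := (mem_G hq).1 (Subgroup.mem_inf.1 k₁.2).1
    change (if q (k₁ : E) ∈ A then ex q ⊤ ω k₁ k₂ else 0) = _
    rw [if_pos (by rw [e1]; exact A.one_mem)]
    exact h4.rsn k₁ k₂
  · intro s₁ hs₁ s₂ hs₂ he x y
    have h5 : q (s₁ * x * s₁⁻¹) ∈ A ↔ q x ∈ A := by
      rw [map_mul, map_mul, map_inv]
      constructor
      · intro h
        have := (inferInstance : A.Normal).conj_mem _ h (q s₁)⁻¹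
        have e : (q s₁)⁻¹ * (q s₁ * q x * (q s₁)⁻¹) * (q s₁)⁻¹⁻¹ = q x := by group
        rwa [e] at this
      · intro h
        exact (inferInstance : A.Normal).conj_mem _ h _
    change (if q (s₁ * x * s₁⁻¹) ∈ A then ex q ⊤ ω (s₁ * x * s₁⁻¹) (s₂ * y * s₂⁻¹) else 0) =
      if q x ∈ A then ex q ⊤ ω x y else 0
    by_cases h6 : q x ∈ A
    · rw [if_pos h6, if_pos (h5.2 h6)]
      exact hv s₁ hs₁ s₂ hs₂ he x y
    · rw [if_neg h6, if_neg (fun h => h6 (h5.1 h))]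

end Run7.h759.DI
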